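import Pool.Agent.Lib.PDT.Base

/-!
# Base file 2: the cochains `γ(r, m)`, and the operations `m·x`

`gam r m` is the linear map `q ↦ r(q) θ(m)` from `Q` to the induced module;
`actR L y m = Σ y(h) L(h⁻¹) m` is the right action of the group ring, `actT w L y m = Σ y(h) w(h) L(h) m`
the twisted left action; `mxF`, `mxS` apply `actR` coordinatewise.
-/

namespace PDT

open Function

universe u

section gam

variable {G : Type*} [Group G] (H : Subgroup G) {Λ M : Type*} [Ring Λ] [AddCommGroup M]
  [Module Λ M] (w : G →* ℤˣ) (L : H →* Module.End Λ M)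
  {Q : Type*} [AddCommGroup Q] [Module (Zg G) Q]

/-- `gam r m : q ↦ r(q) θ(m)`. -/
noncomputable def gam (r : Q →ₗ[Zg G] Zg G) (m : M) : Q →ₗ[Zg G] Ind H w L where
  toFun q := r q • th H w L m
  map_add' a b := by rw [map_add, add_smul]
  map_smul' a b := by simp [mul_smul]

@[simp] theorem gam_apply (r : Q →ₗ[Zg G] Zg G) (m : M) (q : Q) :
    gam H w L r m q = r q • th H w L m := rfl

theorem gam_add_left (r r' : Q →ₗ[Zg G] Zg G) (m : M) :
    gam H w L (r + r') m = gam H w L r m + gam H w L r' m := by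
  apply LinearMap.ext; intro q; simp [add_smul]

theorem gam_zero_left (m : M) : gam H w L (0 : Q →ₗ[Zg G] Zg G) m = 0 := by
  apply LinearMap.ext; intro q; simp

theorem gam_add_right (r : Q →ₗ[Zg G] Zg G) (m m' : M) :
    gam H w L r (m + m') = gam H w L r m + gam H w L r m' := by
  apply LinearMap.ext; intro q; simp

theorem gam_smul_right (r : Q →ₗ[Zg G] Zg G) (c : Λ) (m : M) :
    gam H w L r (c • m) = c • gam H w L r m := by
  apply LinearMap.ext; intro q
  simp only [gam_apply, map_smul, LinearMap.smul_apply]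
  rw [smul_comm]

/-- `gam` as a linear map in the second variable. -/
noncomputable def gamL (r : Q →ₗ[Zg G] Zg G) : M →ₗ[Λ] (Q →ₗ[Zg G] Ind H w L) where
  toFun m := gam H w L r m
  map_add' a b := gam_add_right H w L r a b
  map_smul' c a := gam_smul_right H w L r c a

@[simp] theorem gamL_apply (r : Q →ₗ[Zg G] Zg G) (m : M) :
    gamL H w L r m = gam H w L r m := rfl

/-- `γ(h·r, m) = γ(r, m·h)`. -/
theorem gam_tw (h : H) (r : Q →ₗ[Zg G] Zg G) (m : M) :
    gam H w L (tw w (h : G) r) m = gam H w L r (L h⁻¹ m) := by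
  apply LinearMap.ext
  intro q
  simp only [gam_apply, tw_apply]
  rw [smul_assoc, mul_smul]
  have e1 : el (h : G)⁻¹ • th H w L m = th H w L ((w h : ℤ) • L h⁻¹ m) := by
    have := el_smul_th H w L h⁻¹ m
    simpa using this
  rw [e1, map_zsmul, smul_comm (r q) ((w h : ℤ)), smul_smul]
  have e2 : ((w (h : G) : ℤˣ) : ℤ) * ((w (h : G) : ℤˣ) : ℤ) = 1 := by
    rcases Int.units_eq_one_or (w (h : G)) with e | e <;> simp [e]
  rw [e2, one_smul]

theorem gam_comp {Q' : Type*} [AddCommGroup Q'] [Module (Zg G) Q'] (d : Q' →ₗ[Zg G] Q)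
    (r : Q →ₗ[Zg G] Zg G) (m : M) :
    gam H w L (r ∘ₗ d) m = gam H w L r m ∘ₗ d := rfl

end gam

section act

variable {H : Type*} [Group H] {Λ M : Type*} [Ring Λ] [AddCommGroup M] [Module Λ M]
  (L : H →* Module.End Λ M)

/-- The right action of the group ring: `m·y = Σ y(h) L(h⁻¹) m`. -/
noncomputable def actR : Zg H →+ Module.End Λ M := zl fun h => L h⁻¹

@[simp] theorem actR_el (h : H) : actR L (el h) = L h⁻¹ := by simp [actR]

theorem actR_mul (x y : Zg H) : actR L (x * y) = actR L y * actR L x := by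
  have h1 : (actR L).comp (AddMonoidHom.mulRight y) =
      (AddMonoidHom.mulLeft (actR L y)).comp (actR L) := by
    apply zhom_ext
    intro a
    have h2 : (actR L).comp (AddMonoidHom.mulLeft (el a)) =
        (AddMonoidHom.mulRight (actR L (el a))).comp (actR L) := by
      apply zhom_ext
      intro b
      simp [← el_mul]
    exact DFunLike.congr_fun h2 y
  exact DFunLike.congr_fun h1 x

@[simp] theorem actR_one : actR L 1 = 1 := by
  rw [← el_one, actR_el, inv_one, map_one]

/-- The twisted left action of the group ring: `y ⋆ m = Σ y(h) w(h) L(h) m`. -/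
noncomputable def actT (w : H →* ℤˣ) : Zg H →+ Module.End Λ M := zl fun h => (w h : ℤ) • L h

@[simp] theorem actT_el (w : H →* ℤˣ) (h : H) : actT L w (el h) = (w h : ℤ) • L h := by
  simp [actT]

theorem actT_mul (w : H →* ℤˣ) (x y : Zg H) :
    actT L w (x * y) = actT L w x * actT L w y := by
  have h1 : (actT L w).comp (AddMonoidHom.mulRight y) =
      (AddMonoidHom.mulRight (actT L w y)).comp (actT L w) := by
    apply zhom_ext
    intro a
    have h2 : (actT L w).comp (AddMonoidHom.mulLeft (el a)) =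
        (AddMonoidHom.mulLeft (actT L w (el a))).comp (actT L w) := by
      apply zhom_ext
      intro b
      simp only [AddMonoidHom.comp_apply, AddMonoidHom.coe_mulLeft, ← el_mul, actT_el, map_mul]
      rw [smul_mul_smul_comm]
      push_cast
      rfl
    exact DFunLike.congr_fun h2 y
  exact DFunLike.congr_fun h1 x

@[simp] theorem actT_one (w : H →* ℤˣ) : actT L w 1 = 1 := by
  rw [← el_one, actT_el]
  simp

/-- Coordinatewise right action on vectors: `(m·x)_k = m·x_k`. -/
noncomputable def mxF {a : ℕ} (x : Fin a → Zg H) : M →ₗ[Λ] (Fin a → M) :=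
  LinearMap.pi fun k => actR L (x k)

@[simp] theorem mxF_apply {a : ℕ} (x : Fin a → Zg H) (m : M) (k : Fin a) :
    mxF L x m k = actR L (x k) m := rfl

/-- Coordinatewise right action on finitely supported families. -/
noncomputable def mxS {I : Type*} (x : I →₀ Zg H) : M →ₗ[Λ] (I →₀ M) :=
  x.sum fun i y => (Finsupp.lsingle i).comp (actR L y)

theorem mxS_eq {I : Type*} (x : I →₀ Zg H) (m : M) :
    mxS L x m = x.sum fun i y => Finsupp.single i (actR L y m) := by
  simp [mxS, Finsupp.sum, LinearMap.sum_apply]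

@[simp] theorem mxS_apply {I : Type*} (x : I →₀ Zg H) (m : M) (i : I) :
    mxS L x m i = actR L (x i) m := by
  classical
  rw [mxS_eq, Finsupp.sum_apply, Finsupp.sum]
  rw [Finset.sum_eq_single i]
  · simp
  · intro j _ hj
    rw [Finsupp.single_apply, if_neg hj]
  · intro hi
    rw [Finsupp.notMem_support_iff.mp hi]
    simp

theorem mxS_single {I : Type*} (i : I) (y : Zg H) (m : M) :
    mxS L (Finsupp.single i y) m = Finsupp.single i (actR L y m) := by
  rw [mxS_eq, Finsupp.sum_single_index]
  simp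

theorem mxS_add {I : Type*} (x y : I →₀ Zg H) (m : M) :
    mxS L (x + y) m = mxS L x m + mxS L y m := by
  ext i; simp

theorem mxS_zero {I : Type*} (m : M) : mxS L (0 : I →₀ Zg H) m = 0 := by
  ext i; simp

theorem mxS_el_smul {I : Type*} (h : H) (x : I →₀ Zg H) (m : M) :
    mxS L (el h • x) m = mxS L x (L h⁻¹ m) := by
  ext i
  simp [actR_mul]

theorem mxF_el_smul {a : ℕ} (h : H) (x : Fin a → Zg H) (m : M) :
    mxF L (el h • x) m = mxF L x (L h⁻¹ m) := by
  ext i
  simp [actR_mul]

theorem mxF_add {a : ℕ} (x y : Fin a → Zg H) (m : M) :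
    mxF L (x + y) m = mxF L x m + mxF L y m := by
  ext i; simp

theorem mxF_zero {a : ℕ} (m : M) : mxF L (0 : Fin a → Zg H) m = 0 := by
  ext i; simp

end act

end PDT
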