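import Pool.Agent.Lib.PDT.Base

/-!
# PDT/Base3: the involution of the group ring and multiplicativity of the augmentation
-/

namespace PDT

section

variable {G : Type*} [Group G]

/-- The standard involution `g ↦ g⁻¹` of the group ring. -/
noncomputable def ivo : Zg G →+ Zg G := zl fun g => el g⁻¹

@[simp] theorem ivo_el (g : G) : ivo (el g) = el g⁻¹ := by simp [ivo]

theorem ivo_mul (x y : Zg G) : ivo (x * y) = ivo y * ivo x := by
  have h1 : (ivo : Zg G →+ Zg G).comp (AddMonoidHom.mulRight y) =
      (AddMonoidHom.mulLeft (ivo y)).comp ivo := by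
    apply zhom_ext
    intro a
    have h2 : (ivo : Zg G →+ Zg G).comp (AddMonoidHom.mulLeft (el a)) =
        (AddMonoidHom.mulRight (ivo (el a))).comp ivo := by
      apply zhom_ext
      intro b
      simp [← el_mul]
    exact DFunLike.congr_fun h2 y
  exact DFunLike.congr_fun h1 x

theorem ivo_one : ivo (1 : Zg G) = 1 := by
  rw [← el_one, ivo_el, inv_one]

@[simp] theorem ivo_ivo (x : Zg G) : ivo (ivo x) = x := by
  have h : (ivo : Zg G →+ Zg G).comp ivo = AddMonoidHom.id _ := by
    apply zhom_ext; intro a; simp
  exact DFunLike.congr_fun h x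

theorem aug_mul (x y : Zg G) : aug (x * y) = aug x * aug y := by
  have h1 : (aug : Zg G →+ ℤ).comp (AddMonoidHom.mulRight y) =
      (AddMonoidHom.mulRight (aug y)).comp aug := by
    apply zhom_ext
    intro a
    simp [aug_el_mul]
  exact DFunLike.congr_fun h1 x

theorem aug_one : aug (1 : Zg G) = 1 := by rw [← el_one, aug_el]

@[simp] theorem aug_ivo (x : Zg G) : aug (ivo x) = aug x := by
  have h : (aug : Zg G →+ ℤ).comp ivo = aug := by
    apply zhom_ext; intro a; simp
  exact DFunLike.congr_fun h x

end

end PDT
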