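import Pool.Agent.Lib.PDT.Base
import Pool.Agent.Lib.PDT.Base2
import Pool.Agent.Lib.PDT.Base3

/-!
# PDT/Base5: definitions for part 5 (ends of pairs, permutation modules)

`dl k f` is the left action of the group on functionals, `(k·f)(q) = f(q) k⁻¹`.
`HF H X`: the subset `X` of `G` meets only finitely many cosets `g H`.
`IsT H L ν`: `ν : G → M` is equivariant and almost `G`-invariant.
`HEnds H C`: `C` is the set of ends (deep complementary components) of the pair `(G, H)`.
-/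

namespace PDT

open Function

universe u

/-- The left action on functionals. -/
noncomputable def dl {K : Type*} [Group K] {Q : Type*} [AddCommGroup Q] [Module (Zg K) Q] (k : K)
    (f : Q →ₗ[Zg K] Zg K) : Q →ₗ[Zg K] Zg K := rm f (el k⁻¹)

@[simp] theorem dl_apply {K : Type*} [Group K] {Q : Type*} [AddCommGroup Q] [Module (Zg K) Q]
    (k : K) (f : Q →ₗ[Zg K] Zg K) (q : Q) : dl k f q = f q * el k⁻¹ := rfl

theorem dl_one {K : Type*} [Group K] {Q : Type*} [AddCommGroup Q] [Module (Zg K) Q]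
    (f : Q →ₗ[Zg K] Zg K) : dl (1 : K) f = f := by
  apply LinearMap.ext
  intro q
  rw [dl_apply, inv_one, el_one, mul_one]

theorem dl_mul {K : Type*} [Group K] {Q : Type*} [AddCommGroup Q] [Module (Zg K) Q] (x y : K)
    (f : Q →ₗ[Zg K] Zg K) : dl (x * y) f = dl x (dl y f) := by
  apply LinearMap.ext
  intro q
  rw [dl_apply, dl_apply, dl_apply, mul_inv_rev, el_mul, mul_assoc]

theorem dl_add {K : Type*} [Group K] {Q : Type*} [AddCommGroup Q] [Module (Zg K) Q] (x : K)
    (f f' : Q →ₗ[Zg K] Zg K) : dl x (f + f') = dl x f + dl x f' := by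
  apply LinearMap.ext
  intro q
  simp [add_mul]

theorem dl_comp {K : Type*} [Group K] {Q Q' : Type*} [AddCommGroup Q] [Module (Zg K) Q]
    [AddCommGroup Q'] [Module (Zg K) Q'] (x : K) (f : Q →ₗ[Zg K] Zg K) (d : Q' →ₗ[Zg K] Q) :
    dl x f ∘ₗ d = dl x (f ∘ₗ d) := rfl

section ends

variable {G : Type u} [Group G] (H : Subgroup G)

/-- `X` is contained in finitely many cosets `g H`. -/
def HF (X : Set G) : Prop := ((fun g : G => (g : G ⧸ H)) '' X).Finite

variable {H}

theorem HF.mono {X Y : Set G} (h : HF H Y) (hXY : X ⊆ Y) : HF H X := h.subset (Set.image_mono hXY)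

theorem HF.union {X Y : Set G} (h : HF H X) (h' : HF H Y) : HF H (X ∪ Y) := by
  unfold HF
  rw [Set.image_union]
  exact Set.Finite.union h h'

theorem HF.left {X : Set G} (h : HF H X) (x : G) : HF H {g | x * g ∈ X} := by
  refine (h.image fun c : G ⧸ H => x⁻¹ • c).subset ?_
  rintro _ ⟨g, hg, rfl⟩
  refine ⟨_, ⟨x * g, hg, rfl⟩, ?_⟩
  simp [← smul_eq_mul]

theorem HF.right {X : Set G} (h : HF H X) (k : H) : HF H {g | g * (k : G) ∈ X} := by
  refine h.subset ?_
  rintro _ ⟨g, hg, rfl⟩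
  refine ⟨g * k, hg, ?_⟩
  rw [QuotientGroup.eq]
  simp

/-- Smaller subgroups have fewer finite sets. -/
theorem HF.of_le {K : Subgroup G} (hK : K ≤ H) {X : Set G} (h : HF K X) : HF H X := by
  have h1 : ((Subgroup.quotientMapOfLE hK) '' ((fun g : G => (g : G ⧸ K)) '' X)).Finite :=
    Set.Finite.image _ h
  refine h1.subset ?_
  rintro _ ⟨g, hg, rfl⟩
  exact ⟨_, ⟨g, hg, rfl⟩, rfl⟩

/-- Equivariant functions which are almost invariant under left translations. -/
def IsT (H : Subgroup G) {M : Type*} [AddCommGroup M] (L : H →* Module.End ℤ M) (ν : G → M) :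
    Prop :=
  (∀ (g : G) (h : H), ν (g * h) = L h⁻¹ (ν g)) ∧ ∀ x : G, HF H {g | ν (x⁻¹ * g) ≠ ν g}

/-- `C` is the set of ends of the pair `(G, H)`: disjoint deep almost invariant subsets, which are
permuted by `H` and on which all almost invariant functions are almost constant. -/
structure HEnds (H : Subgroup G) (C : Set (Set G)) : Prop where
  /-- right translates -/
  tr : ∀ c ∈ C, ∀ h : H, {g | g * (h : G) ∈ c} ∈ C
  disj : ∀ c ∈ C, ∀ c' ∈ C, ∀ g, g ∈ c → g ∈ c' → c = c'
  deep : ∀ c ∈ C, ¬ HF H c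
  ai : ∀ x : G, HF H {g | ∃ c ∈ C, ¬ (x * g ∈ c ↔ g ∈ c)}
  co : HF H {g | ∀ c ∈ C, g ∉ c}
  st : ∀ (A : Type u) [AddCommGroup A] (f : G → A), (∀ x : G, HF H {g | f (x⁻¹ * g) ≠ f g}) →
    ∃ f' : Set G → A, HF H {g | ∃ c ∈ C, g ∈ c ∧ f g ≠ f' c}
  inf : ∀ c ∈ C, Infinite {h : H // {g | g * (h : G) ∈ c} = c}

end ends

end PDT
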