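import Pool.Agent.Lib.PDT.Base
import Pool.Agent.Lib.PDT.Base2

/-!
# PDT/Univ: `Hom_G(Q, Ind M)` is `M ⊗_H Hom_G(Q, ℤ[G])`

Complete proof.  SPAN OF `Ind`.  Every `φ : Ind H w L` is a finite sum of `el t • th m`: let `T` be
the finite set of cosets `c` with `φ ≠ 0` on `c` (`Ind_fin`) and `t_c = Quotient.out c`.  Then
`φ = Σ_{c ∈ T} el t_c • th (φ t_c)`: evaluate at `g = t_c h` (`c = g H`, `h ∈ H`):
`(el t_c • th m)(g) = (th m)(t_c⁻¹ g) = (th m)(h) = w(h) L(h⁻¹) m`, which for `m = φ t_c` is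
`φ(t_c h) = φ(g)`; the other terms vanish at `g` (`t_{c'}⁻¹ g ∉ H`).  (*)
`gam_span`.  By `dualBasis Q`, `q = Σ f_i(q) • e_i`, `c q = Σ f_i(q) • c(e_i)`; write
`c(e_i) = Σ_t el t • th m_{i,t}`; then `c = Σ_{i,t} gam (rm f_i (el t)) m_{i,t}`.
`univ`.  Put `λ_i(y, m) = lam (rm f_i y) m` (`y : Zg G`), additive in `y`, linear in `m`; `hlam` gives
`λ_i(w(h) y h⁻¹, m) = λ_i(y, L(h⁻¹) m)`, i.e.
`λ_i(y h, m) = w(h) λ_i(y, L(h) m)` [`h` replaced by `h⁻¹`].  (**)
For `φ : Ind` the element `λ_i(el t, φ t)` only depends on the coset `t H`: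
`λ_i(el (t h), φ(t h)) = w(h) λ_i(el t, L(h) w(h) L(h⁻¹) φ t) = λ_i(el t, φ t)`.  Define
`Λ_i(φ) = Σ_{c} λ_i(el t_c, φ t_c)` (finite sum over the cosets: `finsum`, or a sum over the support
`(Ind_fin φ).toFinset`), `t_c = Quotient.out c`.  It is `Λ`-linear in `φ`
(`finsum_add_distrib`, `smul_finsum` with finite supports) and
`Λ_i(el g • th m) = λ_i(el g, m)`: the only coset with a non-zero term is `g H`, where by the
independence of representatives we may take `t = g`, `φ(g) = (th m)(1) = m`.  By additivity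
`Λ_i(y • th m) = λ_i(y, m)` for all `y` (`zhom_ext`).
Define `B c = Σ_i Λ_i (c (e_i))`.  It is `Λ`-linear and `B (gam r m) = Σ_i Λ_i (r(e_i) • th m) =
Σ_i λ_i(r(e_i), m) = Σ_i lam (rm f_i (r e_i)) m = lam r m`, since `Σ_i rm f_i (r e_i) = r`
(evaluate at `q`).
-/

namespace PDT

open Function

private theorem univ_out {G : Type*} [Group G] (H : Subgroup G) (g : G) :
    ∃ h : H, Quotient.out (g : G ⧸ H) * (h : G) = g := by
  have h1 : ((Quotient.out (g : G ⧸ H) : G) : G ⧸ H) = (g : G ⧸ H) := Quotient.out_eq _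
  have h2 : (Quotient.out (g : G ⧸ H))⁻¹ * g ∈ H := QuotientGroup.eq.mp h1
  exact ⟨⟨_, h2⟩, by simp⟩

private theorem univ_not_mem {G : Type*} [Group G] (H : Subgroup G) (x g : G)
    (h : (x : G ⧸ H) ≠ (g : G ⧸ H)) : x⁻¹ * g ∉ H := fun h2 => h (QuotientGroup.eq.mpr h2)

private theorem univ_ind_span {G : Type*} [Group G] (H : Subgroup G) {Λ M : Type*} [Ring Λ]
    [AddCommGroup M] [Module Λ M] (w : G →* ℤˣ) (L : H →* Module.End Λ M) (φ : Ind H w L) :
    φ = ∑ c ∈ (Ind_fin φ).toFinset, el (Quotient.out c) • th H w L ((φ : G → M) (Quotient.out c)) := by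
  classical
  ext g
  rw [AddSubmonoidClass.coe_finsetSum, Finset.sum_apply]
  have hz : ∀ c : G ⧸ H, c ≠ (g : G ⧸ H) →
      ((el (Quotient.out c) • th H w L ((φ : G → M) (Quotient.out c)) : Ind H w L) : G → M) g
        = 0 := by
    intro c hc
    rw [el_smul_ind_apply]
    apply th_apply_not_mem
    apply univ_not_mem
    have h1 : ((Quotient.out c : G) : G ⧸ H) = c := Quotient.out_eq _
    rw [h1]
    exact hc
  by_cases hT : (g : G ⧸ H) ∈ (Ind_fin φ).toFinset
  · rw [Finset.sum_eq_single (g : G ⧸ H)]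
    · obtain ⟨h, hh⟩ := univ_out H g
      rw [el_smul_ind_apply]
      have e1 : (Quotient.out (g : G ⧸ H))⁻¹ * g = (h : G) := by
        conv_lhs => rw [← hh]
        simp
      rw [e1, th_apply_mem]
      conv_lhs => rw [← hh, Ind_equiv φ]
    · intro c _ hc
      exact hz c hc
    · intro h
      exact absurd hT h
  · rw [Finset.sum_eq_zero]
    · by_contra h
      apply hT
      rw [Set.Finite.mem_toFinset]
      exact ⟨g, h, rfl⟩
    · intro c hc
      apply hz
      rintro rfl
      exact hT hc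

theorem gam_span {G : Type*} [Group G] (H : Subgroup G) {Λ M : Type*} [Ring Λ] [AddCommGroup M]
    [Module Λ M] (w : G →* ℤˣ) (L : H →* Module.End Λ M) {Q : Type*} [AddCommGroup Q]
    [Module (Zg G) Q] [Module.Finite (Zg G) Q] [Module.Projective (Zg G) Q]
    (c : Q →ₗ[Zg G] Ind H w L) :
    c ∈ AddSubgroup.closure {x : Q →ₗ[Zg G] Ind H w L | ∃ r m, x = gam H w L r m} := by
  classical
  obtain ⟨n, e, f, hef⟩ := dualBasis (G := G) Q
  have key : c = ∑ i : Fin n, ∑ t ∈ (Ind_fin (c (e i))).toFinset,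
      gam H w L (rm (f i) (el (Quotient.out t))) ((c (e i) : G → M) (Quotient.out t)) := by
    apply LinearMap.ext
    intro q
    conv_lhs => rw [hef q]
    rw [map_sum, LinearMap.sum_apply]
    apply Finset.sum_congr rfl
    intro i _
    rw [map_smul, LinearMap.sum_apply]
    conv_lhs => rw [univ_ind_span H w L (c (e i))]
    rw [Finset.smul_sum]
    apply Finset.sum_congr rfl
    intro t _
    rw [gam_apply, rm_apply, mul_smul]
  rw [key]
  apply AddSubgroup.sum_mem
  intro i _
  apply AddSubgroup.sum_mem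
  intro t _
  exact AddSubgroup.subset_closure ⟨_, _, rfl⟩

private theorem univ_w_sq {G : Type*} [Group G] (w : G →* ℤˣ) (h : G) :
    ((w h : ℤˣ) : ℤ) * ((w h : ℤˣ) : ℤ) = 1 := by
  rcases Int.units_eq_one_or (w h) with e | e <;> simp [e]

private theorem univ_coset {G : Type*} [Group G] (H : Subgroup G) {Λ M : Type*} [Ring Λ]
    [AddCommGroup M] [Module Λ M] (w : G →* ℤˣ) (L : H →* Module.End Λ M) {W : Type*}
    [AddCommGroup W] [Module Λ W] (l : Zg G →+ (M →ₗ[Λ] W))
    (hl : ∀ (g : G) (h : H) (m : M), l (el (g * h)) m = (w (h : G) : ℤ) • l (el g) (L h m))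
    (φ : Ind H w L) (g : G) (h : H) :
    l (el (g * h)) ((φ : G → M) (g * h)) = l (el g) ((φ : G → M) g) := by
  rw [hl, Ind_equiv φ, map_zsmul, map_zsmul, smul_smul, univ_w_sq, one_smul,
    ← Module.End.mul_apply, ← map_mul, mul_inv_cancel, map_one, Module.End.one_apply]

private theorem univ_coset_out {G : Type*} [Group G] (H : Subgroup G) {Λ M : Type*} [Ring Λ]
    [AddCommGroup M] [Module Λ M] (w : G →* ℤˣ) (L : H →* Module.End Λ M) {W : Type*}
    [AddCommGroup W] [Module Λ W] (l : Zg G →+ (M →ₗ[Λ] W))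
    (hl : ∀ (g : G) (h : H) (m : M), l (el (g * h)) m = (w (h : G) : ℤ) • l (el g) (L h m))
    (φ : Ind H w L) (g : G) :
    l (el (Quotient.out (g : G ⧸ H))) ((φ : G → M) (Quotient.out (g : G ⧸ H))) =
      l (el g) ((φ : G → M) g) := by
  obtain ⟨h, hh⟩ := univ_out H g
  have := univ_coset H w L l hl φ (Quotient.out (g : G ⧸ H)) h
  rw [hh] at this
  exact this.symm

private theorem univ_supp {G : Type*} [Group G] (H : Subgroup G) {Λ M : Type*} [Ring Λ]
    [AddCommGroup M] [Module Λ M] (w : G →* ℤˣ) (L : H →* Module.End Λ M) {W : Type*}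
    [AddCommGroup W] [Module Λ W] (l : Zg G →+ (M →ₗ[Λ] W)) (φ : Ind H w L) :
    (Function.support fun c : G ⧸ H =>
      l (el (Quotient.out c)) ((φ : G → M) (Quotient.out c))).Finite := by
  refine (Ind_fin φ).subset ?_
  intro c hc
  refine ⟨Quotient.out c, ?_, Quotient.out_eq _⟩
  intro h0
  apply hc
  change l (el (Quotient.out c)) ((φ : G → M) (Quotient.out c)) = 0
  rw [h0, map_zero]

/-- The `Λ`-linear functional on the induced module attached to `l`. -/
private noncomputable def univLam {G : Type*} [Group G] (H : Subgroup G) {Λ M : Type*} [Ring Λ]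
    [AddCommGroup M] [Module Λ M] (w : G →* ℤˣ) (L : H →* Module.End Λ M) {W : Type*}
    [AddCommGroup W] [Module Λ W] (l : Zg G →+ (M →ₗ[Λ] W)) : Ind H w L →ₗ[Λ] W where
  toFun φ := ∑ᶠ c : G ⧸ H, l (el (Quotient.out c)) ((φ : G → M) (Quotient.out c))
  map_add' a b := by
    rw [← finsum_add_distrib (univ_supp H w L l a) (univ_supp H w L l b)]
    apply finsum_congr
    intro c
    rw [← map_add]
    rfl
  map_smul' s a := by
    rw [RingHom.id_apply, smul_finsum' s (univ_supp H w L l a)]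
    apply finsum_congr
    intro c
    rw [← map_smul]
    rfl

private theorem univLam_apply {G : Type*} [Group G] (H : Subgroup G) {Λ M : Type*} [Ring Λ]
    [AddCommGroup M] [Module Λ M] (w : G →* ℤˣ) (L : H →* Module.End Λ M) {W : Type*}
    [AddCommGroup W] [Module Λ W] (l : Zg G →+ (M →ₗ[Λ] W)) (φ : Ind H w L) :
    univLam H w L l φ = ∑ᶠ c : G ⧸ H, l (el (Quotient.out c)) ((φ : G → M) (Quotient.out c)) :=
  rfl

private theorem univLam_el {G : Type*} [Group G] (H : Subgroup G) {Λ M : Type*} [Ring Λ]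
    [AddCommGroup M] [Module Λ M] (w : G →* ℤˣ) (L : H →* Module.End Λ M) {W : Type*}
    [AddCommGroup W] [Module Λ W] (l : Zg G →+ (M →ₗ[Λ] W))
    (hl : ∀ (g : G) (h : H) (m : M), l (el (g * h)) m = (w (h : G) : ℤ) • l (el g) (L h m))
    (g : G) (m : M) : univLam H w L l (el g • th H w L m) = l (el g) m := by
  rw [univLam_apply, finsum_eq_single _ (g : G ⧸ H)]
  · rw [univ_coset_out H w L l hl, el_smul_ind_apply, inv_mul_cancel, th_apply_one]
  · intro c hc
    rw [el_smul_ind_apply, th_apply_not_mem, map_zero]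
    apply univ_not_mem
    have h1 : ((Quotient.out c : G) : G ⧸ H) = c := Quotient.out_eq _
    rw [h1]
    exact fun h => hc h.symm

private theorem univLam_smul {G : Type*} [Group G] (H : Subgroup G) {Λ M : Type*} [Ring Λ]
    [AddCommGroup M] [Module Λ M] (w : G →* ℤˣ) (L : H →* Module.End Λ M) {W : Type*}
    [AddCommGroup W] [Module Λ W] (l : Zg G →+ (M →ₗ[Λ] W))
    (hl : ∀ (g : G) (h : H) (m : M), l (el (g * h)) m = (w (h : G) : ℤ) • l (el g) (L h m))
    (y : Zg G) (m : M) : univLam H w L l (y • th H w L m) = l y m := by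
  let F : Zg G →+ W :=
    { toFun := fun y => univLam H w L l (y • th H w L m)
      map_zero' := by simp
      map_add' := fun a b => by rw [add_smul, map_add] }
  let F' : Zg G →+ W :=
    { toFun := fun y => l y m
      map_zero' := by simp
      map_add' := fun a b => by rw [map_add]; rfl }
  have h : F = F' := by
    apply zhom_ext
    intro g
    exact univLam_el H w L l hl g m
  exact DFunLike.congr_fun h y

/-- `y ↦ lam (rm f y)` as an additive map. -/
private noncomputable def univL {G : Type*} [Group G] {Λ M : Type*} [Ring Λ] [AddCommGroup M]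
    [Module Λ M] {Q : Type*} [AddCommGroup Q] [Module (Zg G) Q] {W : Type*}
    [AddCommGroup W] [Module Λ W] (lam : (Q →ₗ[Zg G] Zg G) →+ (M →ₗ[Λ] W))
    (f : Q →ₗ[Zg G] Zg G) : Zg G →+ (M →ₗ[Λ] W) where
  toFun y := lam (rm f y)
  map_zero' := by
    have : rm f 0 = 0 := by
      apply LinearMap.ext; intro q; simp
    rw [this, map_zero]
  map_add' a b := by
    have : rm f (a + b) = rm f a + rm f b := by
      apply LinearMap.ext; intro q; simp [mul_add]
    rw [this, map_add]

private theorem univL_apply {G : Type*} [Group G] {Λ M : Type*} [Ring Λ] [AddCommGroup M]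
    [Module Λ M] {Q : Type*} [AddCommGroup Q] [Module (Zg G) Q] {W : Type*}
    [AddCommGroup W] [Module Λ W] (lam : (Q →ₗ[Zg G] Zg G) →+ (M →ₗ[Λ] W))
    (f : Q →ₗ[Zg G] Zg G) (y : Zg G) : univL lam f y = lam (rm f y) := rfl

private theorem univL_mul {G : Type*} [Group G] (H : Subgroup G) {Λ M : Type*} [Ring Λ]
    [AddCommGroup M] [Module Λ M] (w : G →* ℤˣ) (L : H →* Module.End Λ M) {Q : Type*}
    [AddCommGroup Q] [Module (Zg G) Q] {W : Type*}
    [AddCommGroup W] [Module Λ W] (lam : (Q →ₗ[Zg G] Zg G) →+ (M →ₗ[Λ] W))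
    (hlam : ∀ (h : H) (r : Q →ₗ[Zg G] Zg G) (m : M), lam (tw w (h : G) r) m = lam r (L h⁻¹ m))
    (f : Q →ₗ[Zg G] Zg G) (g : G) (h : H) (m : M) :
    univL lam f (el (g * h)) m = (w (h : G) : ℤ) • univL lam f (el g) (L h m) := by
  have h1 := hlam h⁻¹ (rm f (el g)) m
  rw [inv_inv] at h1
  rw [univL_apply, univL_apply, ← h1]
  have h2 : tw w ((h⁻¹ : H) : G) (rm f (el g)) = (w (h : G) : ℤ) • rm f (el (g * h)) := by
    apply LinearMap.ext
    intro q
    rw [tw_apply, rm_apply, LinearMap.smul_apply, rm_apply, el_mul, mul_assoc]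
    simp
  rw [h2, map_zsmul, LinearMap.smul_apply, smul_smul, univ_w_sq, one_smul]

theorem univ {G : Type*} [Group G] (H : Subgroup G) {Λ M : Type*} [Ring Λ] [AddCommGroup M]
    [Module Λ M] (w : G →* ℤˣ) (L : H →* Module.End Λ M) {Q : Type*} [AddCommGroup Q]
    [Module (Zg G) Q] [Module.Finite (Zg G) Q] [Module.Projective (Zg G) Q] {W : Type*}
    [AddCommGroup W] [Module Λ W] (lam : (Q →ₗ[Zg G] Zg G) →+ (M →ₗ[Λ] W))
    (hlam : ∀ (h : H) (r : Q →ₗ[Zg G] Zg G) (m : M), lam (tw w (h : G) r) m = lam r (L h⁻¹ m)) :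
    ∃ B : (Q →ₗ[Zg G] Ind H w L) →ₗ[Λ] W, ∀ r m, B (gam H w L r m) = lam r m := by
  classical
  obtain ⟨n, e, f, hef⟩ := dualBasis (G := G) Q
  refine ⟨{ toFun := fun c => ∑ i, univLam H w L (univL lam (f i)) (c (e i))
            map_add' := fun a b => ?_
            map_smul' := fun s a => ?_ }, fun r m => ?_⟩
  · rw [← Finset.sum_add_distrib]
    apply Finset.sum_congr rfl
    intro i _
    rw [LinearMap.add_apply, map_add]
  · rw [RingHom.id_apply, Finset.smul_sum]
    apply Finset.sum_congr rfl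
    intro i _
    rw [LinearMap.smul_apply, map_smul]
  · change ∑ i, univLam H w L (univL lam (f i)) (gam H w L r m (e i)) = lam r m
    have h1 : ∀ i, univLam H w L (univL lam (f i)) (gam H w L r m (e i)) =
        lam (rm (f i) (r (e i))) m := by
      intro i
      rw [gam_apply, univLam_smul H w L _ (univL_mul H w L lam hlam (f i)), univL_apply]
    rw [Finset.sum_congr rfl fun i _ => h1 i, ← LinearMap.sum_apply, ← map_sum]
    congr 2
    apply LinearMap.ext
    intro q
    rw [LinearMap.sum_apply]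
    conv_rhs => rw [hef q, map_sum]
    apply Finset.sum_congr rfl
    intro i _
    rw [rm_apply, map_smul, smul_eq_mul]

end PDT
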