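import Pool.Agent.Lib.PDT.Base
import Pool.Agent.Lib.PDT.Base2
import Pool.Agent.Lib.PDT.Base5
import Pool.Agent.Lib.PDT.Univ

/-!
# PDT/ABMaps: cocycles with values in the induced module and functionals on the dual of `P2`

The data `α1, …, t2` are those of `package2`; `P1 = (Zg H)^a1`, `P2 = ker d` with a finite dual basis `(e_i, f_i)`.  See the proof of
`PDT/Inj` for very similar computations (`Inj_gam_act`, `Inj_mxF_act`, `Inj_basis`, claim 3).
Write `γ = gam H w L`, `m·y = actR L y m`, so `(m·y)·z = m·(y z)` (`actR_mul`) and `m·(el h) = L h⁻¹ m`.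

Complete proof.  `B`: `univ` for `Q = Q1`, `Λ = ℤ`, `W = (P2* → M)`, `lam r m = (ξ ↦ m·ξ(β r))`, which is balanced: `β (tw w h r) = el h • β r`,
`ξ (el h • p) = el h * ξ p`, `m·(el h * y) = (L h⁻¹ m)·y`.  This is (1).  (2), (3) [additivity in `ξ`, `B c (dl h ξ) = L h (B c ξ)`]: by
`gam_span` it is enough to take `c = γ(r, m)` (both sides are additive in `c`): `m·(ξ(β r) * el h⁻¹) = L h (m·ξ(β r))`.
(4) `B (b ∘ d1) = 0`: for `b = γ(r, m)`, `b ∘ d1 = γ(r ∘ d1, m)` and `β (r ∘ d1) = 0` (`gam_span` for `Q0`).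
(5) Let `B1` be the map of `univ` for `Q = Q2`, `W = (P1* → M)`, `lam r m = (ξ' ↦ m·ξ'(β1 r))`.  For all `c : Q1 →ₗ Ind`:
`B c (ξ' ∘ subtype) = B1 (c ∘ d2) ξ'` (for `c = γ(r, m)`: `(β r : P1) = β1 (r ∘ d2)`); so it is `0` if `c ∘ d2 = 0`.
(6) Let `A φ = Σ_i γ(α2 e_i, φ f_i)` for a function `φ` on `P2*`.  For all `c`: `A (B c) = c + T2 (c ∘ d2) + (T1 c) ∘ d1`, where `T2`, `T1` are the maps of
`univ` for `lam r m = γ(t2 r, m)` (`Q = Q2`, `W = (Q1 →ₗ Ind)`) and `lam r m = γ(t1 r, m)` (`Q = Q1`, `W = (Q0 →ₗ Ind)`), balanced by `gam_tw`.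
Check for `c = γ(r, m)`: `A (B c) = Σ_i γ(α2 e_i, m·f_i(β r)) = Σ_i γ(α2 (f_i(β r) • e_i), m) = γ(α2 (β r), m)` (`Inj_gam_act`), and
`α2 (β r) = r + t2 (r ∘ d2) + (t1 r) ∘ d1`, `gam_add_left`, `gam_comp`.  So if `c ∘ d2 = 0` and `B c = 0` then
`0 = A 0 = c + (T1 c) ∘ d1`.
(7) Let `φ : P2* →+ M` be equivariant and zero on the `ξ' ∘ subtype`.  `φ (rm ξ y) = (φ ξ)·y` (additive in `y`, `rm ξ (el h) = dl h⁻¹ ξ`).
`c = A φ`.  `c ∘ d2 = Σ_i γ(α1 e_i, φ f_i) = Σ_k γ(α1 ε_k, Σ_i (φ f_i)·(e_i)_k)`, `ε_k = Pi.single k 1` (claim 3 of `Inj`), and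
`Σ_i (φ f_i)·(e_i)_k = φ (Σ_i rm f_i ((e_i)_k)) = φ (proj_k ∘ subtype) = 0` (`hef`: `p_k = Σ_i f_i(p) (e_i)_k`).
`B c ξ = Σ_i (φ f_i)·ξ(β (α2 e_i)) = Σ_i (φ f_i)·ξ(e_i) + Σ_i (φ f_i)·ξ(s e_i) = φ ξ + φ (ξ ∘ s ∘ subtype) = φ ξ`, since
`ξ = Σ_i rm f_i (ξ e_i)` and `ξ ∘ s ∘ subtype = Σ_i rm f_i (ξ (s e_i))`.
-/

namespace PDT

open Function

universe u

section aux

variable {G : Type*} [Group G] (H : Subgroup G) {M : Type*} [AddCommGroup M]
  (w : G →* ℤˣ) (L : H →* Module.End ℤ M)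

private theorem ABMaps_gam_zero {Q : Type*} [AddCommGroup Q] [Module (Zg G) Q]
    (r : Q →ₗ[Zg G] Zg G) : gam H w L r (0 : M) = 0 := (gamL H w L r).map_zero

private theorem ABMaps_ext {Q : Type*} [AddCommGroup Q] [Module (Zg G) Q]
    [Module.Finite (Zg G) Q] [Module.Projective (Zg G) Q] {A : Type*} [AddCommGroup A]
    (F F' : (Q →ₗ[Zg G] Ind H w L) →+ A)
    (h : ∀ r m, F (gam H w L r m) = F' (gam H w L r m)) (c : Q →ₗ[Zg G] Ind H w L) :
    F c = F' c := by
  have hc := gam_span H w L c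
  induction hc using AddSubgroup.closure_induction with
  | mem x hx =>
    obtain ⟨r, m, rfl⟩ := hx
    exact h r m
  | zero => rw [map_zero, map_zero]
  | add x y _ _ hx hy => rw [map_add, map_add, hx, hy]
  | neg x _ hx => rw [map_neg, map_neg, hx]

private theorem ABMaps_gam_act {Q : Type*} [AddCommGroup Q] [Module (Zg G) Q] {P : Type*}
    [AddCommGroup P] [Module (Zg H) P] (α : P →+ (Q →ₗ[Zg G] Zg G))
    (hα : ∀ (h : H) (p : P), α (el h • p) = tw w (h : G) (α p)) (y : Zg H) (p : P) (m : M) :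
    gam H w L (α (y • p)) m = gam H w L (α p) (actR L y m) := by
  let F : Zg H →+ (Q →ₗ[Zg G] Ind H w L) :=
    { toFun := fun y => gam H w L (α (y • p)) m
      map_zero' := by rw [zero_smul, map_zero, gam_zero_left]
      map_add' := fun a b => by rw [add_smul, map_add, gam_add_left] }
  let F' : Zg H →+ (Q →ₗ[Zg G] Ind H w L) :=
    { toFun := fun y => gam H w L (α p) (actR L y m)
      map_zero' := by rw [map_zero, LinearMap.zero_apply, ABMaps_gam_zero]
      map_add' := fun a b => by rw [map_add, LinearMap.add_apply, gam_add_right] }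
  have h : F = F' := by
    refine zhom_ext (A := Q →ₗ[Zg G] Ind H w L) fun g => ?_
    change gam H w L (α (el g • p)) m = gam H w L (α p) (actR L (el g) m)
    rw [hα, gam_tw, actR_el]
  exact DFunLike.congr_fun h y

/-- `gam` as an additive map in the first variable. -/
private noncomputable def ABMaps_gamR {Q : Type*} [AddCommGroup Q] [Module (Zg G) Q] (m : M) :
    (Q →ₗ[Zg G] Zg G) →+ (Q →ₗ[Zg G] Ind H w L) where
  toFun r := gam H w L r m
  map_zero' := gam_zero_left H w L m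
  map_add' a b := gam_add_left H w L a b m

private theorem ABMaps_basis {a : ℕ} (x : Fin a → Zg H) :
    x = ∑ k, x k • (Pi.single k (1 : Zg H) : Fin a → Zg H) := by
  ext1 j
  simp [Finset.sum_apply, Pi.single_apply]

private theorem ABMaps_claim3 {Q : Type*} [AddCommGroup Q] [Module (Zg G) Q] {a : ℕ}
    (α : (Fin a → Zg H) →+ (Q →ₗ[Zg G] Zg G))
    (hα : ∀ (h : H) (p : Fin a → Zg H), α (el h • p) = tw w (h : G) (α p))
    (x : Fin a → Zg H) (m : M) :
    gam H w L (α x) m = ∑ k, gam H w L (α (Pi.single k 1)) (actR L (x k) m) := by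
  have h1 : ∀ k, gam H w L (α (Pi.single k 1)) (actR L (x k) m) =
      ABMaps_gamR H w L m (α (x k • Pi.single k 1)) := by
    intro k
    rw [← ABMaps_gam_act H w L α hα]
    rfl
  rw [Finset.sum_congr rfl fun k _ => h1 k, ← map_sum, ← map_sum, ← ABMaps_basis H x]
  rfl

/-- the map of `univ` for `r ↦ (m ↦ (ξ ↦ m · ξ(β r)))` -/
private theorem ABMaps_exB {Q : Type*} [AddCommGroup Q] [Module (Zg G) Q]
    [Module.Finite (Zg G) Q] [Module.Projective (Zg G) Q] {P : Type*} [AddCommGroup P]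
    [Module (Zg H) P] (β : (Q →ₗ[Zg G] Zg G) →+ P)
    (hβ : ∀ (h : H) (f : Q →ₗ[Zg G] Zg G), β (tw w (h : G) f) = el h • β f) :
    ∃ B : (Q →ₗ[Zg G] Ind H w L) →+ ((P →ₗ[Zg H] Zg H) → M),
      ∀ r m ξ, B (gam H w L r m) ξ = actR L (ξ (β r)) m := by
  let lam : (Q →ₗ[Zg G] Zg G) →+ (M →ₗ[ℤ] ((P →ₗ[Zg H] Zg H) → M)) :=
    { toFun := fun r => LinearMap.pi fun ξ => actR L (ξ (β r))
      map_zero' := by
        apply LinearMap.ext
        intro m
        funext ξ
        rw [LinearMap.pi_apply, map_zero, map_zero, map_zero]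
        rfl
      map_add' := fun a b => by
        apply LinearMap.ext
        intro m
        funext ξ
        rw [LinearMap.pi_apply, map_add, map_add, map_add]
        rfl }
  have hlam : ∀ (h : H) (r : Q →ₗ[Zg G] Zg G) (m : M),
      lam (tw w (h : G) r) m = lam r (L h⁻¹ m) := by
    intro h r m
    funext ξ
    change actR L (ξ (β (tw w (h : G) r))) m = actR L (ξ (β r)) (L h⁻¹ m)
    rw [hβ, map_smul, smul_eq_mul, actR_mul, Module.End.mul_apply, actR_el]
  obtain ⟨B, hB⟩ := univ H w L lam hlam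
  exact ⟨B.toAddMonoidHom, fun r m ξ => congrFun (hB r m) ξ⟩

/-- the map of `univ` for `r ↦ (m ↦ γ(t r, m))` -/
private theorem ABMaps_exT {Q Q' : Type*} [AddCommGroup Q] [Module (Zg G) Q]
    [Module.Finite (Zg G) Q] [Module.Projective (Zg G) Q] [AddCommGroup Q'] [Module (Zg G) Q']
    (t : (Q →ₗ[Zg G] Zg G) →+ (Q' →ₗ[Zg G] Zg G))
    (ht : ∀ (h : H) (f : Q →ₗ[Zg G] Zg G), t (tw w (h : G) f) = tw w (h : G) (t f)) :
    ∃ T : (Q →ₗ[Zg G] Ind H w L) →+ (Q' →ₗ[Zg G] Ind H w L),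
      ∀ r m, T (gam H w L r m) = gam H w L (t r) m := by
  let lam : (Q →ₗ[Zg G] Zg G) →+ (M →ₗ[ℤ] (Q' →ₗ[Zg G] Ind H w L)) :=
    { toFun := fun r => gamL H w L (t r)
      map_zero' := by
        apply LinearMap.ext
        intro m
        rw [map_zero, gamL_apply, gam_zero_left]
        rfl
      map_add' := fun a b => by
        apply LinearMap.ext
        intro m
        rw [map_add, gamL_apply, gam_add_left]
        rfl }
  have hlam : ∀ (h : H) (r : Q →ₗ[Zg G] Zg G) (m : M),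
      lam (tw w (h : G) r) m = lam r (L h⁻¹ m) := by
    intro h r m
    change gam H w L (t (tw w (h : G) r)) m = gam H w L (t r) (L h⁻¹ m)
    rw [ht, gam_tw]
  obtain ⟨T, hT⟩ := univ (Λ := ℤ) (W := Q' →ₗ[Zg G] Ind H w L) H w L lam hlam
  exact ⟨T.toAddMonoidHom, fun r m => hT r m⟩

end aux

theorem ab_maps {G : Type u} [Group G] (R : Res G) (H : Subgroup G) (w : G →* ℤˣ) {a0 a1 : ℕ}
    (d : (Fin a1 → Zg H) →ₗ[Zg H] (Fin a0 → Zg H))
    (α1 : (Fin a1 → Zg H) →+ (R.Q2 →ₗ[Zg G] Zg G))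
    (α2 : LinearMap.ker d →+ (R.Q1 →ₗ[Zg G] Zg G))
    (β1 : (R.Q2 →ₗ[Zg G] Zg G) →+ (Fin a1 → Zg H))
    (β : (R.Q1 →ₗ[Zg G] Zg G) →+ LinearMap.ker d)
    (s : (Fin a1 → Zg H) →ₗ[Zg H] LinearMap.ker d)
    (t1 : (R.Q1 →ₗ[Zg G] Zg G) →+ (R.Q0 →ₗ[Zg G] Zg G))
    (t2 : (R.Q2 →ₗ[Zg G] Zg G) →+ (R.Q1 →ₗ[Zg G] Zg G))
    (hα1 : ∀ (h : H) (p : Fin a1 → Zg H), α1 (el h • p) = tw w (h : G) (α1 p))
    (hα2 : ∀ (h : H) (p : LinearMap.ker d), α2 (el h • p) = tw w (h : G) (α2 p))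
    (hα12 : ∀ p : LinearMap.ker d, α2 p ∘ₗ R.d2 = α1 p)
    (hβ1 : ∀ (h : H) (f : R.Q2 →ₗ[Zg G] Zg G), β1 (tw w (h : G) f) = el h • β1 f)
    (hβ : ∀ (h : H) (f : R.Q1 →ₗ[Zg G] Zg G), β (tw w (h : G) f) = el h • β f)
    (hββ : ∀ f : R.Q1 →ₗ[Zg G] Zg G,
      ((β f : LinearMap.ker d) : Fin a1 → Zg H) = β1 (f ∘ₗ R.d2))
    (hβ0 : ∀ f : R.Q0 →ₗ[Zg G] Zg G, β (f ∘ₗ R.d1) = 0)
    (hβα : ∀ p : LinearMap.ker d, β (α2 p) = p + s p)
    (ht1 : ∀ (h : H) (f : R.Q1 →ₗ[Zg G] Zg G), t1 (tw w (h : G) f) = tw w (h : G) (t1 f))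
    (ht2 : ∀ (h : H) (f : R.Q2 →ₗ[Zg G] Zg G), t2 (tw w (h : G) f) = tw w (h : G) (t2 f))
    (hαβ : ∀ f : R.Q1 →ₗ[Zg G] Zg G, α2 (β f) = f + t2 (f ∘ₗ R.d2) + (t1 f) ∘ₗ R.d1)
    {k : ℕ} (e : Fin k → LinearMap.ker d) (f : Fin k → (LinearMap.ker d →ₗ[Zg H] Zg H))
    (hef : ∀ q, q = ∑ i, f i q • e i) {M : Type*} [AddCommGroup M] (L : H →* Module.End ℤ M) :
    ∃ B : (R.Q1 →ₗ[Zg G] Ind H w L) →+ ((LinearMap.ker d →ₗ[Zg H] Zg H) → M),
      (∀ r m ξ, B (gam H w L r m) ξ = actR L (ξ (β r)) m) ∧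
      (∀ c ξ ξ', B c (ξ + ξ') = B c ξ + B c ξ') ∧
      (∀ c (h : H) ξ, B c (dl h ξ) = L h (B c ξ)) ∧
      (∀ b : R.Q0 →ₗ[Zg G] Ind H w L, B (b ∘ₗ R.d1) = 0) ∧
      (∀ c, c ∘ₗ R.d2 = 0 → ∀ ξ' : (Fin a1 → Zg H) →ₗ[Zg H] Zg H,
        B c (ξ' ∘ₗ (LinearMap.ker d).subtype) = 0) ∧
      (∀ c, c ∘ₗ R.d2 = 0 → B c = 0 → ∃ b : R.Q0 →ₗ[Zg G] Ind H w L, c = b ∘ₗ R.d1) ∧
      (∀ φ : (LinearMap.ker d →ₗ[Zg H] Zg H) →+ M, (∀ (h : H) ξ, φ (dl h ξ) = L h (φ ξ)) →
        (∀ ξ' : (Fin a1 → Zg H) →ₗ[Zg H] Zg H, φ (ξ' ∘ₗ (LinearMap.ker d).subtype) = 0) →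
        (∑ i, gam H w L (α2 (e i)) (φ (f i))) ∘ₗ R.d2 = 0 ∧
        ∀ ξ, B (∑ i, gam H w L (α2 (e i)) (φ (f i))) ξ = φ ξ) := by
  obtain ⟨B, hB⟩ := ABMaps_exB H w L β hβ
  obtain ⟨B1, hB1⟩ := ABMaps_exB H w L β1 hβ1
  obtain ⟨T1, hT1⟩ := ABMaps_exT H w L t1 ht1
  obtain ⟨T2, hT2⟩ := ABMaps_exT H w L t2 ht2
  refine ⟨B, hB, ?_, ?_, ?_, ?_, ?_, ?_⟩
  · -- (2)
    intro c ξ ξ'
    refine ABMaps_ext H w L
      (((Pi.evalAddMonoidHom (fun _ : LinearMap.ker d →ₗ[Zg H] Zg H => M) (ξ + ξ'))).comp B)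
      (((Pi.evalAddMonoidHom (fun _ : LinearMap.ker d →ₗ[Zg H] Zg H => M) ξ)).comp B +
        ((Pi.evalAddMonoidHom (fun _ : LinearMap.ker d →ₗ[Zg H] Zg H => M) ξ')).comp B) ?_ c
    intro r m
    change B (gam H w L r m) (ξ + ξ') = B (gam H w L r m) ξ + B (gam H w L r m) ξ'
    rw [hB, hB, hB, LinearMap.add_apply, map_add, LinearMap.add_apply]
  · -- (3)
    intro c h ξ
    refine ABMaps_ext H w L
      (((Pi.evalAddMonoidHom (fun _ : LinearMap.ker d →ₗ[Zg H] Zg H => M) (dl h ξ))).comp B)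
      ((L h).toAddMonoidHom.comp
        (((Pi.evalAddMonoidHom (fun _ : LinearMap.ker d →ₗ[Zg H] Zg H => M) ξ)).comp B)) ?_ c
    intro r m
    change B (gam H w L r m) (dl h ξ) = L h (B (gam H w L r m) ξ)
    rw [hB, hB, dl_apply, actR_mul, Module.End.mul_apply, actR_el, inv_inv]
  · -- (4)
    intro b
    refine ABMaps_ext H w L (F := { toFun := fun b => B (b ∘ₗ R.d1)
                                    map_zero' := by rw [LinearMap.zero_comp, map_zero]
                                    map_add' := fun x y => by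
                                      rw [LinearMap.add_comp, map_add] }) (F' := 0) ?_ b
    intro r m
    change B (gam H w L r m ∘ₗ R.d1) = 0
    funext ξ
    rw [← gam_comp, hB, hβ0, map_zero, map_zero]
    rfl
  · -- (5)
    intro c hc ξ'
    have key : B c (ξ' ∘ₗ (LinearMap.ker d).subtype) = B1 (c ∘ₗ R.d2) ξ' := by
      refine ABMaps_ext H w L
        (((Pi.evalAddMonoidHom (fun _ : LinearMap.ker d →ₗ[Zg H] Zg H => M)
          (ξ' ∘ₗ (LinearMap.ker d).subtype))).comp B)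
        { toFun := fun c => B1 (c ∘ₗ R.d2) ξ'
          map_zero' := by
            rw [LinearMap.zero_comp, map_zero]
            rfl
          map_add' := fun x y => by
            rw [LinearMap.add_comp, map_add]
            rfl } ?_ c
      intro r m
      change B (gam H w L r m) (ξ' ∘ₗ (LinearMap.ker d).subtype) =
        B1 (gam H w L r m ∘ₗ R.d2) ξ'
      rw [← gam_comp, hB, hB1, ← hββ]
      rfl
    rw [key, hc, map_zero]
    rfl
  · -- (6)
    intro c hc hBc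
    let A : ((LinearMap.ker d →ₗ[Zg H] Zg H) → M) →+ (R.Q1 →ₗ[Zg G] Ind H w L) :=
      { toFun := fun φ => ∑ i, gam H w L (α2 (e i)) (φ (f i))
        map_zero' := by
          apply Finset.sum_eq_zero
          intro i _
          exact ABMaps_gam_zero H w L _
        map_add' := fun x y => by
          rw [← Finset.sum_add_distrib]
          refine Finset.sum_congr rfl fun i _ => ?_
          rw [Pi.add_apply, gam_add_right] }
    have key : A (B c) = c + T2 (c ∘ₗ R.d2) + (T1 c) ∘ₗ R.d1 := by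
      refine ABMaps_ext H w L (A.comp B)
        { toFun := fun c => c + T2 (c ∘ₗ R.d2) + (T1 c) ∘ₗ R.d1
          map_zero' := by
            rw [LinearMap.zero_comp, map_zero, map_zero, LinearMap.zero_comp, add_zero, add_zero]
          map_add' := fun x y => by
            rw [LinearMap.add_comp, map_add, map_add, LinearMap.add_comp]
            abel } ?_ c
      intro r m
      change ∑ i, gam H w L (α2 (e i)) (B (gam H w L r m) (f i)) =
        gam H w L r m + T2 (gam H w L r m ∘ₗ R.d2) + (T1 (gam H w L r m)) ∘ₗ R.d1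
      have h1 : ∀ i, gam H w L (α2 (e i)) (B (gam H w L r m) (f i)) =
          ABMaps_gamR H w L m (α2 (f i (β r) • e i)) := by
        intro i
        rw [hB, ← ABMaps_gam_act H w L α2 hα2]
        rfl
      rw [Finset.sum_congr rfl fun i _ => h1 i, ← map_sum, ← map_sum, ← hef (β r), hαβ, map_add,
        map_add, ← gam_comp, hT2, hT1]
      rfl
    rw [hBc, hc, map_zero, map_zero, add_zero] at key
    refine ⟨-(T1 c), ?_⟩
    apply LinearMap.ext
    intro q
    have h2 := DFunLike.congr_fun key q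
    have h3 : (0 : Ind H w L) = c q + (T1 c) (R.d1 q) := h2
    change c q = -((T1 c) (R.d1 q))
    exact eq_neg_of_add_eq_zero_left h3.symm
  · -- (7)
    intro φ hφ hφ0
    have hrm : ∀ (y : Zg H) (ξ : LinearMap.ker d →ₗ[Zg H] Zg H),
        φ (rm ξ y) = actR L y (φ ξ) := by
      intro y ξ
      let F : Zg H →+ M :=
        { toFun := fun y => φ (rm ξ y)
          map_zero' := by
            have : rm ξ (0 : Zg H) = 0 := by
              apply LinearMap.ext
              intro q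
              simp
            rw [this, map_zero]
          map_add' := fun a b => by
            have : rm ξ (a + b) = rm ξ a + rm ξ b := by
              apply LinearMap.ext
              intro q
              simp [mul_add]
            rw [this, map_add] }
      let F' : Zg H →+ M :=
        { toFun := fun y => actR L y (φ ξ)
          map_zero' := by rw [map_zero, LinearMap.zero_apply]
          map_add' := fun a b => by rw [map_add, LinearMap.add_apply] }
      have h : F = F' := by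
        apply zhom_ext
        intro g
        change φ (rm ξ (el g)) = actR L (el g) (φ ξ)
        have h1 : rm ξ (el g) = dl g⁻¹ ξ := by
          apply LinearMap.ext
          intro q
          rw [dl_apply, rm_apply, inv_inv]
        rw [h1, hφ, actR_el]
      exact DFunLike.congr_fun h y
    have hdual : ∀ η : LinearMap.ker d →ₗ[Zg H] Zg H, ∑ i, rm (f i) (η (e i)) = η := by
      intro η
      apply LinearMap.ext
      intro p
      rw [LinearMap.sum_apply]
      conv_rhs => rw [hef p, map_sum]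
      refine Finset.sum_congr rfl fun i _ => ?_
      rw [rm_apply, map_smul, smul_eq_mul]
    have hsum : ∀ η : LinearMap.ker d →ₗ[Zg H] Zg H,
        ∑ i, actR L (η (e i)) (φ (f i)) = φ η := by
      intro η
      conv_rhs => rw [← hdual η, map_sum]
      exact Finset.sum_congr rfl fun i _ => (hrm _ _).symm
    constructor
    · have h1 : (∑ i, gam H w L (α2 (e i)) (φ (f i))) ∘ₗ R.d2 =
          ∑ i, ∑ j, gam H w L (α1 (Pi.single j 1))
            (actR L ((e i : Fin a1 → Zg H) j) (φ (f i))) := by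
        apply LinearMap.ext
        intro q
        rw [LinearMap.comp_apply, LinearMap.sum_apply, LinearMap.sum_apply]
        refine Finset.sum_congr rfl fun i _ => ?_
        rw [← ABMaps_claim3 H w L α1 hα1, ← hα12]
        rfl
      rw [h1, Finset.sum_comm]
      apply Finset.sum_eq_zero
      intro j _
      have h2 : ∑ i, gam H w L (α1 (Pi.single j 1))
          (actR L ((e i : Fin a1 → Zg H) j) (φ (f i))) =
          gamL H w L (α1 (Pi.single j 1))
            (∑ i, actR L ((e i : Fin a1 → Zg H) j) (φ (f i))) := by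
        rw [map_sum]
        rfl
      have h3 : ∑ i, actR L ((e i : Fin a1 → Zg H) j) (φ (f i)) = 0 := by
        have := hsum ((LinearMap.proj j : (Fin a1 → Zg H) →ₗ[Zg H] Zg H) ∘ₗ
          (LinearMap.ker d).subtype)
        rw [hφ0] at this
        exact this
      rw [h2, h3, map_zero]
    · intro ξ
      have h1 : B (∑ i, gam H w L (α2 (e i)) (φ (f i))) ξ =
          ∑ i, actR L (ξ (e i)) (φ (f i)) + ∑ i, actR L (ξ (s (e i))) (φ (f i)) := by
        rw [map_sum, Finset.sum_apply, ← Finset.sum_add_distrib]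
        refine Finset.sum_congr rfl fun i _ => ?_
        rw [hB, hβα, map_add, map_add, LinearMap.add_apply]
      have h2 := hsum ((ξ ∘ₗ s) ∘ₗ (LinearMap.ker d).subtype)
      rw [hφ0] at h2
      have h3 : ∑ i, actR L (ξ (s (e i))) (φ (f i)) = 0 := h2
      rw [h1, h3, add_zero, hsum]

end PDT
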