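import Pool.Agent.Lib.PDT.Base

/-!
# PDT/AugPres: the start of a free resolution over a finitely generated group

Complete proof.  Let `h_1, …, h_n` generate `H` (`Group.fg_iff`, enumerate the finite set).  Put
`d x = fun _ => Σ_k x_k * (el h_k - 1)`, a left linear map `(Zg H)^n → (Zg H)^1`.
`aug ((d x) 0) = 0`: `aug (y * (el h - 1)) = 0` (additive in `y`, `aug_el_mul`, `aug (el h - 1) = 0`).
Conversely let `I` be the range of `y ↦`, i.e. `I = {y | ∃ x, Σ_k x_k (el h_k - 1) = y}`, a left ideal
(submodule).  The set `{h | el h - 1 ∈ I}` is a subgroup: `el (h k) - 1 = el h (el k - 1) + (el h - 1)`,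
`el h⁻¹ - 1 = - el h⁻¹ (el h - 1)`; it contains the `h_k`, so it is everything.  Every `y` is
congruent to `aug(y) • 1` modulo `I` (additive in `y`; for `y = el h` it is `el h - 1 ∈ I`): so
`aug y = 0` implies `y ∈ I`.
-/

namespace PDT

private theorem aug_mul_sub {H : Type*} [Group H] (y : Zg H) (h : H) :
    aug (y * (el h - 1)) = 0 := by
  refine Zg.ind (P := fun y => aug (y * (el h - 1)) = 0) y ?_ ?_ ?_ ?_
  · simp
  · intro g
    rw [mul_sub, mul_one, ← el_mul, map_sub, aug_el, aug_el, sub_self]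
  · intro x y hx hy
    rw [add_mul, map_add, hx, hy, add_zero]
  · intro x hx
    rw [neg_mul, map_neg, hx, neg_zero]

private theorem el_sub_one_mem {H : Type*} [Group H] (I : Submodule (Zg H) (Zg H)) (S : Set H)
    (hS : Subgroup.closure S = ⊤) (hI : ∀ s ∈ S, el s - 1 ∈ I) (h : H) : el h - 1 ∈ I := by
  have hm : h ∈ Subgroup.closure S := by rw [hS]; trivial
  induction hm using Subgroup.closure_induction with
  | mem x hx => exact hI x hx
  | one => rw [el_one, sub_self]; exact I.zero_mem
  | mul x y _ _ hx hy =>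
    have e : el (x * y) - 1 = el x • (el y - 1) + (el x - 1) := by
      rw [el_mul, smul_eq_mul, mul_sub, mul_one]; abel
    rw [e]
    exact I.add_mem (I.smul_mem _ hy) hx
  | inv x _ hx =>
    have e : el x⁻¹ - 1 = -(el x⁻¹ • (el x - 1)) := by
      rw [smul_eq_mul, mul_sub, mul_one, ← el_mul, inv_mul_cancel, el_one]; abel
    rw [e]
    exact I.neg_mem (I.smul_mem _ hx)

private theorem sub_aug_mem {H : Type*} [Group H] (I : Submodule (Zg H) (Zg H))
    (hI : ∀ h : H, el h - 1 ∈ I) (y : Zg H) : y - aug y • (1 : Zg H) ∈ I := by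
  refine Zg.ind (P := fun y => y - aug y • (1 : Zg H) ∈ I) y ?_ ?_ ?_ ?_
  · simp
  · intro g
    rw [aug_el, one_smul]
    exact hI g
  · intro x y hx hy
    have e : x + y - aug (x + y) • (1 : Zg H) =
        (x - aug x • (1 : Zg H)) + (y - aug y • (1 : Zg H)) := by
      rw [map_add, add_smul]; abel
    rw [e]
    exact I.add_mem hx hy
  · intro x hx
    have e : -x - aug (-x) • (1 : Zg H) = -(x - aug x • (1 : Zg H)) := by
      rw [map_neg, neg_smul]; abel
    rw [e]
    exact I.neg_mem hx

theorem aug_presentation (H : Type*) [Group H] (hfg : Group.FG H) :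
    ∃ (n : ℕ) (d : (Fin n → Zg H) →ₗ[Zg H] (Fin 1 → Zg H)),
      ∀ y : Fin 1 → Zg H, aug (y 0) = 0 ↔ ∃ x, d x = y := by
  obtain ⟨S, hS⟩ := Group.fg_def.mp hfg
  let v : Fin S.card → Zg H := fun k => el (S.equivFin.symm k : H) - 1
  let D : (Fin S.card → Zg H) →ₗ[Zg H] Zg H := Fintype.linearCombination (Zg H) v
  have hmem : ∀ h : H, el h - 1 ∈ LinearMap.range D := by
    apply el_sub_one_mem (LinearMap.range D) (S : Set H) hS
    intro s hs
    have hr : LinearMap.range D = Submodule.span (Zg H) (Set.range v) :=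
      Fintype.range_linearCombination (Zg H) (v := v)
    rw [hr]
    apply Submodule.subset_span
    refine ⟨S.equivFin ⟨s, hs⟩, ?_⟩
    simp [v]
  refine ⟨S.card, LinearMap.pi fun _ => D, fun y => ⟨fun hy => ?_, ?_⟩⟩
  · have h1 := sub_aug_mem (LinearMap.range D) hmem (y 0)
    rw [hy, zero_smul, sub_zero] at h1
    obtain ⟨x, hx⟩ := h1
    refine ⟨x, ?_⟩
    funext i
    rw [LinearMap.pi_apply, hx, Fin.fin_one_eq_zero i]
  · rintro ⟨x, rfl⟩
    rw [LinearMap.pi_apply]
    change aug (Fintype.linearCombination (Zg H) v x) = 0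
    rw [Fintype.linearCombination_apply, map_sum]
    apply Finset.sum_eq_zero
    intro k _
    rw [smul_eq_mul]
    exact aug_mul_sub (x k) _

end PDT
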