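import Pool.Agent.Lib.PDT.Base
import Pool.Agent.Lib.PDT.Base2
import Pool.Agent.Lib.PDT.Univ

/-!
# PDT/BNat: naturality of the map `B` in the coefficients

Complete proof.  Let `a' : Ind H w L →+ Ind H w L'`, `a' φ = (g ↦ a (φ g))`: well defined (equivariance by `ha`, the support does not
grow), and `Zg G`-linear (`el_smul_ind_apply`; `Zg.ind`), and for `c : Q →ₗ Ind H w L` let `a_* c : Q →ₗ Ind H w L'` be the composition.
`c' = a_* c` by `hcc'`.  `c ↦ B' (a_* c) ξ` and `c ↦ a (B c ξ)` are additive in `c`, so by `gam_span` it is enough to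
take `c = gam H w L r m`: `a_* (gam r m) = gam r (a m)` (the value at `q` is `r q • th m`; `a' (y • φ) = y • a' φ`,
`a' (th m) = th (a m)` by `th_apply_mem`, `th_apply_not_mem`), and `B' (gam r (a m)) ξ = actR L' (F r ξ) (a m) = a (actR L (F r ξ) m)` (additive in
`F r ξ ∈ Zg H`; `ha` for `el h`).
-/

namespace PDT

open Function

/-- the induced map on the induced modules -/
private def bnatA {G : Type*} [Group G] (H : Subgroup G) (w : G →* ℤˣ)
    {M M' : Type*} [AddCommGroup M] [AddCommGroup M'] (L : H →* Module.End ℤ M)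
    (L' : H →* Module.End ℤ M') (a : M →+ M') (ha : ∀ h m, a (L h m) = L' h (a m)) :
    Ind H w L →+ Ind H w L' where
  toFun φ := ⟨fun g => a ((φ : G → M) g), by
    refine ⟨fun g h => ?_, ?_⟩
    · beta_reduce
      rw [Ind_equiv φ, map_zsmul, ha]
    · refine (Ind_fin φ).subset ?_
      rintro _ ⟨g, hg, rfl⟩
      refine ⟨g, ?_, rfl⟩
      intro h2
      apply hg
      change a ((φ : G → M) g) = 0
      rw [h2, map_zero]⟩
  map_zero' := by
    apply Subtype.ext
    funext g
    exact map_zero a
  map_add' x y := by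
    apply Subtype.ext
    funext g
    exact map_add a _ _

private theorem bnatA_apply {G : Type*} [Group G] (H : Subgroup G) (w : G →* ℤˣ)
    {M M' : Type*} [AddCommGroup M] [AddCommGroup M'] (L : H →* Module.End ℤ M)
    (L' : H →* Module.End ℤ M') (a : M →+ M') (ha : ∀ h m, a (L h m) = L' h (a m))
    (φ : Ind H w L) (g : G) :
    (bnatA H w L L' a ha φ : G → M') g = a ((φ : G → M) g) := rfl

private theorem bnatA_smul {G : Type*} [Group G] (H : Subgroup G) (w : G →* ℤˣ)
    {M M' : Type*} [AddCommGroup M] [AddCommGroup M'] (L : H →* Module.End ℤ M)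
    (L' : H →* Module.End ℤ M') (a : M →+ M') (ha : ∀ h m, a (L h m) = L' h (a m))
    (y : Zg G) (φ : Ind H w L) :
    bnatA H w L L' a ha (y • φ) = y • bnatA H w L L' a ha φ := by
  let F : Zg G →+ Ind H w L' :=
    { toFun := fun y => bnatA H w L L' a ha (y • φ)
      map_zero' := by rw [zero_smul, map_zero]
      map_add' := fun p q => by rw [add_smul, map_add] }
  let F' : Zg G →+ Ind H w L' :=
    { toFun := fun y => y • bnatA H w L L' a ha φ
      map_zero' := by rw [zero_smul]
      map_add' := fun p q => by rw [add_smul] }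
  have h : F = F' := by
    apply zhom_ext
    intro g
    change bnatA H w L L' a ha (el g • φ) = el g • bnatA H w L L' a ha φ
    apply Subtype.ext
    funext x
    rw [bnatA_apply, el_smul_ind_apply, el_smul_ind_apply, bnatA_apply]
  exact DFunLike.congr_fun h y

private theorem bnatA_th {G : Type*} [Group G] (H : Subgroup G) (w : G →* ℤˣ)
    {M M' : Type*} [AddCommGroup M] [AddCommGroup M'] (L : H →* Module.End ℤ M)
    (L' : H →* Module.End ℤ M') (a : M →+ M') (ha : ∀ h m, a (L h m) = L' h (a m)) (m : M) :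
    bnatA H w L L' a ha (th H w L m) = th H w L' (a m) := by
  apply Subtype.ext
  funext g
  rw [bnatA_apply]
  by_cases hg : g ∈ H
  · have e : g = ((⟨g, hg⟩ : H) : G) := rfl
    rw [e, th_apply_mem, th_apply_mem, map_zsmul, ha]
  · rw [th_apply_not_mem _ _ _ _ _ hg, th_apply_not_mem _ _ _ _ _ hg, map_zero]

/-- the composition with the induced map -/
private noncomputable def bnatC {G : Type*} [Group G] (H : Subgroup G) (w : G →* ℤˣ) {Q : Type*}
    [AddCommGroup Q] [Module (Zg G) Q]
    {M M' : Type*} [AddCommGroup M] [AddCommGroup M'] (L : H →* Module.End ℤ M)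
    (L' : H →* Module.End ℤ M') (a : M →+ M') (ha : ∀ h m, a (L h m) = L' h (a m))
    (c : Q →ₗ[Zg G] Ind H w L) : Q →ₗ[Zg G] Ind H w L' where
  toFun q := bnatA H w L L' a ha (c q)
  map_add' x y := by rw [map_add, map_add]
  map_smul' y q := by rw [map_smul, bnatA_smul, RingHom.id_apply]

private theorem bnatC_apply {G : Type*} [Group G] (H : Subgroup G) (w : G →* ℤˣ) {Q : Type*}
    [AddCommGroup Q] [Module (Zg G) Q]
    {M M' : Type*} [AddCommGroup M] [AddCommGroup M'] (L : H →* Module.End ℤ M)
    (L' : H →* Module.End ℤ M') (a : M →+ M') (ha : ∀ h m, a (L h m) = L' h (a m))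
    (c : Q →ₗ[Zg G] Ind H w L) (q : Q) :
    bnatC H w L L' a ha c q = bnatA H w L L' a ha (c q) := rfl

private theorem bnat_act {H : Type*} [Group H] {M M' : Type*} [AddCommGroup M] [AddCommGroup M']
    (L : H →* Module.End ℤ M) (L' : H →* Module.End ℤ M') (a : M →+ M')
    (ha : ∀ h m, a (L h m) = L' h (a m)) (y : Zg H) (m : M) :
    a (actR L y m) = actR L' y (a m) := by
  let F : Zg H →+ M' :=
    { toFun := fun y => a (actR L y m)
      map_zero' := by rw [map_zero, LinearMap.zero_apply, map_zero]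
      map_add' := fun p q => by rw [map_add, LinearMap.add_apply, map_add] }
  let F' : Zg H →+ M' :=
    { toFun := fun y => actR L' y (a m)
      map_zero' := by rw [map_zero, LinearMap.zero_apply]
      map_add' := fun p q => by rw [map_add, LinearMap.add_apply] }
  have h : F = F' := by
    apply zhom_ext
    intro g
    change a (actR L (el g) m) = actR L' (el g) (a m)
    rw [actR_el, actR_el, ha]
  exact DFunLike.congr_fun h y

theorem b_nat {G : Type*} [Group G] (H : Subgroup G) (w : G →* ℤˣ) {Q : Type*} [AddCommGroup Q]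
    [Module (Zg G) Q] [Module.Finite (Zg G) Q] [Module.Projective (Zg G) Q] {Ξ : Type*}
    {M M' : Type*} [AddCommGroup M] [AddCommGroup M'] (L : H →* Module.End ℤ M)
    (L' : H →* Module.End ℤ M') (a : M →+ M') (ha : ∀ h m, a (L h m) = L' h (a m))
    (F : (Q →ₗ[Zg G] Zg G) → Ξ → Zg H) (B : (Q →ₗ[Zg G] Ind H w L) →+ (Ξ → M))
    (hB : ∀ r m ξ, B (gam H w L r m) ξ = actR L (F r ξ) m)
    (B' : (Q →ₗ[Zg G] Ind H w L') →+ (Ξ → M'))
    (hB' : ∀ r m ξ, B' (gam H w L' r m) ξ = actR L' (F r ξ) m)
    (c : Q →ₗ[Zg G] Ind H w L) (c' : Q →ₗ[Zg G] Ind H w L')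
    (hcc' : ∀ q g, (c' q : G → M') g = a ((c q : G → M) g)) (ξ : Ξ) :
    B' c' ξ = a (B c ξ) := by
  have hc : c' = bnatC H w L L' a ha c := by
    apply LinearMap.ext
    intro q
    rw [bnatC_apply]
    apply Subtype.ext
    funext g
    rw [bnatA_apply]
    exact hcc' q g
  rw [hc]
  refine AddSubgroup.closure_induction
    (p := fun c _ => B' (bnatC H w L L' a ha c) ξ = a (B c ξ)) ?_ ?_ ?_ ?_ (gam_span H w L c)
  · rintro _ ⟨r, m, rfl⟩
    have h1 : bnatC H w L L' a ha (gam H w L r m) = gam H w L' r (a m) := by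
      apply LinearMap.ext
      intro q
      rw [bnatC_apply, gam_apply, gam_apply, bnatA_smul, bnatA_th]
    rw [h1, hB', hB, bnat_act L L' a ha]
  · have h1 : bnatC H w L L' a ha (0 : Q →ₗ[Zg G] Ind H w L) = 0 := by
      apply LinearMap.ext
      intro q
      rw [bnatC_apply, LinearMap.zero_apply, LinearMap.zero_apply, map_zero]
    rw [h1, map_zero, map_zero, Pi.zero_apply, Pi.zero_apply, map_zero]
  · intro x y _ _ hx hy
    have h1 : bnatC H w L L' a ha (x + y) = bnatC H w L L' a ha x + bnatC H w L L' a ha y := by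
      apply LinearMap.ext
      intro q
      rw [bnatC_apply, LinearMap.add_apply, LinearMap.add_apply, map_add, bnatC_apply, bnatC_apply]
    rw [h1, map_add, map_add, Pi.add_apply, Pi.add_apply, map_add, hx, hy]
  · intro x _ hx
    have h1 : bnatC H w L L' a ha (-x) = - bnatC H w L L' a ha x := by
      apply LinearMap.ext
      intro q
      rw [bnatC_apply, LinearMap.neg_apply, LinearMap.neg_apply, map_neg, bnatC_apply]
    rw [h1, map_neg B', map_neg B, Pi.neg_apply, Pi.neg_apply, map_neg, hx]

end PDT
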