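import Mathlib

/-!
# Base file: group rings, PD(3)-groups, duals, induced modules

Everything is elementary; `Zg G` is the integral group ring `ℤ[G]`, `el g` the group element `g` in it.
-/

namespace PDT

open Function

universe u

/-- The integral group ring. -/
abbrev Zg (G : Type*) [Group G] := MonoidAlgebra ℤ G

section basic

variable {G : Type*} [Group G]

/-- The group element `g`, as an element of the group ring. -/
noncomputable def el (g : G) : Zg G := MonoidAlgebra.single g 1

theorem el_mul (g h : G) : el (g * h) = el g * el h := by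
  simp [el, MonoidAlgebra.single_mul_single]

theorem el_one : el (1 : G) = 1 := rfl

theorem el_ne_zero (g : G) : el g ≠ 0 := by
  simp [el]

theorem el_smul_smul {Q : Type*} [AddCommGroup Q] [Module (Zg G) Q] (g h : G) (q : Q) :
    el g • el h • q = el (g * h) • q := by
  rw [el_mul, mul_smul]

theorem el_inv_smul {Q : Type*} [AddCommGroup Q] [Module (Zg G) Q] (g : G) (q : Q) :
    el g⁻¹ • el g • q = q := by
  rw [el_smul_smul, inv_mul_cancel, el_one, one_smul]

theorem el_smul_inv {Q : Type*} [AddCommGroup Q] [Module (Zg G) Q] (g : G) (q : Q) :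
    el g • el g⁻¹ • q = q := by
  rw [el_smul_smul, mul_inv_cancel, el_one, one_smul]

/-- The additive extension of a function on the group to the group ring. -/
noncomputable def zl {A : Type*} [AddCommGroup A] (F : G → A) : Zg G →+ A where
  toFun y := y.coeff.sum fun g n => n • F g
  map_zero' := by simp
  map_add' x y := by
    rw [MonoidAlgebra.coeff_add, Finsupp.sum_add_index']
    · intro; simp
    · intro a b c; rw [add_smul]

theorem zl_apply {A : Type*} [AddCommGroup A] (F : G → A) (y : Zg G) :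
    zl F y = y.coeff.sum fun g n => n • F g := rfl

@[simp] theorem zl_el {A : Type*} [AddCommGroup A] (F : G → A) (g : G) : zl F (el g) = F g := by
  rw [zl_apply]
  simp [el]

theorem zhom_ext {A : Type*} [AddCommGroup A] {f f' : Zg G →+ A}
    (h : ∀ g, f (el g) = f' (el g)) : f = f' := by
  apply MonoidAlgebra.addMonoidHom_ext
  intro g n
  have e : (MonoidAlgebra.single g n : Zg G) = n • el g := by
    simp [el]
  rw [e, map_zsmul, map_zsmul, h]

theorem Zg.ind {P : Zg G → Prop} (y : Zg G) (h0 : P 0) (hel : ∀ g, P (el g))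
    (hadd : ∀ x y, P x → P y → P (x + y)) (hneg : ∀ x, P x → P (-x)) : P y := by
  induction y using MonoidAlgebra.induction_linear with
  | zero => exact h0
  | add x y hx hy => exact hadd x y hx hy
  | single g n =>
    have e : (MonoidAlgebra.single g n : Zg G) = n • el g := by
      simp [el]
    rw [e]
    induction n using Int.induction_on with
    | zero => simpa using h0
    | succ n ih => rw [add_smul, one_smul]; exact hadd _ _ (ih (by simp [el])) (hel g)
    | pred n ih =>
      rw [sub_smul, one_smul, sub_eq_add_neg]; exact hadd _ _ (ih (by simp [el])) (hneg _ (hel g))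

/-- The augmentation of the group ring. -/
noncomputable def aug : Zg G →+ ℤ := zl fun _ => 1

@[simp] theorem aug_el (g : G) : aug (el g) = 1 := by simp [aug]

theorem aug_el_mul (g : G) (y : Zg G) : aug (el g * y) = aug y := by
  have : (aug : Zg G →+ ℤ).comp (AddMonoidHom.mulLeft (el g)) = aug := by
    apply zhom_ext
    intro x
    simp [← el_mul]
  exact DFunLike.congr_fun this y

/-- Finitely generated projective modules have finite dual bases. -/
theorem dualBasis (Q : Type*) [AddCommGroup Q] [Module (Zg G) Q] [Module.Finite (Zg G) Q]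
    [Module.Projective (Zg G) Q] :
    ∃ (n : ℕ) (e : Fin n → Q) (f : Fin n → (Q →ₗ[Zg G] Zg G)), ∀ q, q = ∑ i, f i q • e i := by
  obtain ⟨n, π, hπ⟩ := Module.Finite.exists_fin' (Zg G) Q
  obtain ⟨s, hs⟩ := Module.projective_lifting_property π LinearMap.id hπ
  refine ⟨n, fun i => π (Pi.single i 1), fun i => (LinearMap.proj i).comp s, fun q => ?_⟩
  have h1 : π (s q) = q := DFunLike.congr_fun hs q
  conv_lhs => rw [← h1]
  have h2 : s q = ∑ i, s q i • (Pi.single i (1 : Zg G) : Fin n → Zg G) := by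
    ext1 j
    simp [Finset.sum_apply, Pi.single_apply]
  conv_lhs => rw [h2]
  rw [map_sum]
  simp only [map_smul]
  rfl

end basic

/-- A finitely generated projective resolution `0 → Q3 → Q2 → Q1 → Q0 → ℤ → 0` over `ℤ[G]` whose
dual complex `Hom_G(Q_i, ℤ[G])` is exact except at the end, where its cohomology is infinite cyclic.
Such a resolution exists if and only if `G` is a Poincare duality group of dimension 3. -/
structure Res (G : Type u) [Group G] where
  /-- the modules -/
  (Q0 Q1 Q2 Q3 : Type u)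
  [ag0 : AddCommGroup Q0] [ag1 : AddCommGroup Q1] [ag2 : AddCommGroup Q2] [ag3 : AddCommGroup Q3]
  [md0 : Module (Zg G) Q0] [md1 : Module (Zg G) Q1] [md2 : Module (Zg G) Q2]
  [md3 : Module (Zg G) Q3]
  [fg0 : Module.Finite (Zg G) Q0] [fg1 : Module.Finite (Zg G) Q1]
  [fg2 : Module.Finite (Zg G) Q2] [fg3 : Module.Finite (Zg G) Q3]
  [pr0 : Module.Projective (Zg G) Q0] [pr1 : Module.Projective (Zg G) Q1]
  [pr2 : Module.Projective (Zg G) Q2] [pr3 : Module.Projective (Zg G) Q3]
  /-- the augmentation -/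
  ε : Q0 →+ ℤ
  /-- the boundaries -/
  d1 : Q1 →ₗ[Zg G] Q0
  d2 : Q2 →ₗ[Zg G] Q1
  d3 : Q3 →ₗ[Zg G] Q2
  ε_el : ∀ (g : G) (q : Q0), ε (el g • q) = ε q
  ε_surj : Surjective ε
  ex0 : ∀ q : Q0, ε q = 0 ↔ ∃ r, d1 r = q
  ex1 : ∀ q : Q1, d1 q = 0 ↔ ∃ r, d2 r = q
  ex2 : ∀ q : Q2, d2 q = 0 ↔ ∃ r, d3 r = q
  inj3 : Injective d3
  /-- `H^0(G; ℤ[G]) = 0` -/
  dual0 : ∀ f : Q0 →ₗ[Zg G] Zg G, f ∘ₗ d1 = 0 → f = 0
  /-- `H^1(G; ℤ[G]) = 0` -/
  dual1 : ∀ f : Q1 →ₗ[Zg G] Zg G, f ∘ₗ d2 = 0 → ∃ h : Q0 →ₗ[Zg G] Zg G, f = h ∘ₗ d1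
  /-- `H^2(G; ℤ[G]) = 0` -/
  dual2 : ∀ f : Q2 →ₗ[Zg G] Zg G, f ∘ₗ d3 = 0 → ∃ h : Q1 →ₗ[Zg G] Zg G, f = h ∘ₗ d2
  /-- `H^3(G; ℤ[G]) = ℤ` -/
  e : (Q3 →ₗ[Zg G] Zg G) →+ ℤ
  e_surj : Surjective e
  e_ker : ∀ f, e f = 0 ↔ ∃ h : Q2 →ₗ[Zg G] Zg G, f = h ∘ₗ d3

attribute [instance] Res.ag0 Res.ag1 Res.ag2 Res.ag3 Res.md0 Res.md1 Res.md2 Res.md3
  Res.fg0 Res.fg1 Res.fg2 Res.fg3 Res.pr0 Res.pr1 Res.pr2 Res.pr3

/-- `G` is a Poincare duality group of dimension 3 (orientable or not). -/
def IsPD3 (G : Type u) [Group G] : Prop := Nonempty (Res G)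

section dual

variable {G : Type*} [Group G] {Q : Type*} [AddCommGroup Q] [Module (Zg G) Q]

/-- Right multiplication of a functional by a group ring element: `(f·y)(q) = f(q) y`. -/
noncomputable def rm (f : Q →ₗ[Zg G] Zg G) (y : Zg G) : Q →ₗ[Zg G] Zg G where
  toFun q := f q * y
  map_add' a b := by rw [map_add, add_mul]
  map_smul' a b := by simp [mul_assoc]

@[simp] theorem rm_apply (f : Q →ₗ[Zg G] Zg G) (y : Zg G) (q : Q) : rm f y q = f q * y := rfl

/-- The twisted left action of `G` on functionals: `(x·f)(q) = w(x) f(q) x⁻¹`. -/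
noncomputable def tw (w : G →* ℤˣ) (x : G) (f : Q →ₗ[Zg G] Zg G) : Q →ₗ[Zg G] Zg G :=
  ((w x : ℤ)) • rm f (el x⁻¹)

@[simp] theorem tw_apply (w : G →* ℤˣ) (x : G) (f : Q →ₗ[Zg G] Zg G) (q : Q) :
    tw w x f q = ((w x : ℤ)) • (f q * el x⁻¹) := rfl

/-- The twisted action as a homomorphism. -/
noncomputable def twHom (w : G →* ℤˣ) : G →* AddMonoid.End (Q →ₗ[Zg G] Zg G) where
  toFun x :=
    { toFun := tw w x
      map_zero' := by ext; simp
      map_add' := by
        intro a b
        apply LinearMap.ext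
        intro q
        simp [add_mul, smul_add] }
  map_one' := by
    apply AddMonoidHom.ext
    intro f
    apply LinearMap.ext
    intro q
    change ((w 1 : ℤ)) • (f q * el (1 : G)⁻¹) = f q
    simp [el_one]
  map_mul' x y := by
    apply AddMonoidHom.ext
    intro f
    apply LinearMap.ext
    intro q
    change ((w (x * y) : ℤ)) • (f q * el (x * y)⁻¹) =
      ((w x : ℤ)) • (((w y : ℤ)) • (f q * el y⁻¹) * el x⁻¹)
    rw [mul_inv_rev, el_mul, smul_mul_assoc, smul_smul, mul_assoc, map_mul]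
    push_cast
    rfl

@[simp] theorem twHom_apply (w : G →* ℤˣ) (x : G) (f : Q →ₗ[Zg G] Zg G) :
    twHom w x f = tw w x f := rfl

/-- The action of `G` on a module as a homomorphism. -/
noncomputable def acHom (Q : Type*) [AddCommGroup Q] [Module (Zg G) Q] : G →* AddMonoid.End Q where
  toFun x := DistribSMul.toAddMonoidHom Q (el x)
  map_one' := by
    apply AddMonoidHom.ext
    intro q
    change el (1 : G) • q = q
    rw [el_one, one_smul]
  map_mul' x y := by
    apply AddMonoidHom.ext
    intro q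
    change el (x * y) • q = el x • el y • q
    rw [el_mul, mul_smul]

@[simp] theorem acHom_apply (x : G) (q : Q) : acHom Q x q = el x • q := rfl

end dual

section ind

variable {G : Type*} [Group G] (H : Subgroup G) {Λ M : Type*} [Ring Λ] [AddCommGroup M]
  [Module Λ M] (w : G →* ℤˣ) (L : H →* Module.End Λ M)

/-- The functions `φ : G → M` with `φ(g h) = w(h) L(h)⁻¹ φ(g)`, supported on finitely many
cosets `g H`: the module induced from the representation `L` twisted by `w`. -/
def Ind : Submodule Λ (G → M) where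
  carrier := {φ | (∀ (g : G) (h : H), φ (g * h) = (w h : ℤ) • L h⁻¹ (φ g)) ∧
    ((fun g : G => (g : G ⧸ H)) '' {g | φ g ≠ 0}).Finite}
  zero_mem' := by simp
  add_mem' := by
    rintro a b ⟨ha, ha'⟩ ⟨hb, hb'⟩
    refine ⟨fun g h => by simp [ha, hb], (ha'.union hb').subset ?_⟩
    rintro _ ⟨g, hg, rfl⟩
    by_cases h1 : a g = 0
    · right
      refine ⟨g, ?_, rfl⟩
      intro h2
      apply hg
      simp [h1, h2]
    · left
      exact ⟨g, h1, rfl⟩
  smul_mem' := by
    rintro c a ⟨ha, ha'⟩
    refine ⟨fun g h => ?_, ha'.subset ?_⟩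
    · simp only [Pi.smul_apply, ha, map_smul]
      rw [smul_comm]
    · rintro _ ⟨g, hg, rfl⟩
      refine ⟨g, ?_, rfl⟩
      intro h2
      apply hg
      simp [h2]

variable {H w L}

theorem Ind_equiv (φ : Ind H w L) (g : G) (h : H) :
    (φ : G → M) (g * h) = (w h : ℤ) • L h⁻¹ ((φ : G → M) g) := φ.2.1 g h

theorem Ind_fin (φ : Ind H w L) :
    ((fun g : G => (g : G ⧸ H)) '' {g | (φ : G → M) g ≠ 0}).Finite := φ.2.2

variable (H w L)

/-- Left translations of the induced module. -/
def tr : G →* Module.End Λ (Ind H w L) where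
  toFun x :=
    { toFun := fun φ => ⟨fun g => (φ : G → M) (x⁻¹ * g), by
        refine ⟨fun g h => by simp only [← mul_assoc]; exact Ind_equiv φ _ _, ?_⟩
        refine ((Ind_fin φ).image (fun c : G ⧸ H => x • c)).subset ?_
        rintro _ ⟨g, hg, rfl⟩
        refine ⟨_, ⟨x⁻¹ * g, hg, rfl⟩, ?_⟩
        simp [← smul_eq_mul]⟩
      map_add' := fun a b => rfl
      map_smul' := fun a b => rfl }
  map_one' := by ext φ g; simp
  map_mul' x y := by ext φ g; simp [mul_assoc]

@[simp] theorem tr_apply (x : G) (φ : Ind H w L) (g : G) :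
    (tr H w L x φ : G → M) g = (φ : G → M) (x⁻¹ * g) := rfl

noncomputable instance indModule : Module (Zg G) (Ind H w L) :=
  Module.compHom _ (MonoidAlgebra.lift ℤ (Module.End Λ (Ind H w L)) G (tr H w L)).toRingHom

theorem ind_smul_def (y : Zg G) (φ : Ind H w L) :
    y • φ = (MonoidAlgebra.lift ℤ (Module.End Λ (Ind H w L)) G (tr H w L)) y φ := rfl

theorem el_smul_ind (x : G) (φ : Ind H w L) : el x • φ = tr H w L x φ := by
  rw [ind_smul_def, el, MonoidAlgebra.lift_single, one_smul]

@[simp] theorem el_smul_ind_apply (x : G) (φ : Ind H w L) (g : G) :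
    ((el x • φ : Ind H w L) : G → M) g = (φ : G → M) (x⁻¹ * g) := by
  rw [el_smul_ind]; rfl

instance indComm : SMulCommClass (Zg G) Λ (Ind H w L) where
  smul_comm y c φ := by
    rw [ind_smul_def, ind_smul_def, map_smul]

/-- The embedding of `M` as the functions supported on `H`. -/
noncomputable def th : M →ₗ[Λ] Ind H w L where
  toFun m := ⟨by classical exact fun g => if hg : g ∈ H then (w g : ℤ) • L ⟨g⁻¹, H.inv_mem hg⟩ m else 0, by
    classical
    refine ⟨fun g h => ?_, ?_⟩
    · by_cases hg : g ∈ H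
      · have hgh : g * h ∈ H := H.mul_mem hg h.2
        beta_reduce
        rw [dif_pos hg, dif_pos hgh]
        have e : (⟨(g * h)⁻¹, H.inv_mem hgh⟩ : H) = h⁻¹ * ⟨g⁻¹, H.inv_mem hg⟩ := by
          ext; simp
        rw [e, map_mul, map_mul, Module.End.mul_apply, map_zsmul, smul_smul]
        congr 1
        push_cast
        ring
      · have hgh : g * h ∉ H := fun hh => hg (by
          have := H.mul_mem hh (H.inv_mem h.2)
          simpa using this)
        beta_reduce
        rw [dif_neg hg, dif_neg hgh]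
        simp
    · refine (Set.finite_singleton ((1 : G) : G ⧸ H)).subset ?_
      rintro _ ⟨g, hg, rfl⟩
      have : g ∈ H := by
        by_contra h
        exact hg (dif_neg h)
      simp only [Set.mem_singleton_iff]
      rw [eq_comm, QuotientGroup.eq]
      simpa using this⟩
  map_add' a b := by
    ext g
    by_cases hg : g ∈ H <;> simp [hg]
  map_smul' a b := by
    ext g
    by_cases hg : g ∈ H
    · simp only [hg, dite_true, RingHom.id_apply, map_smul, SetLike.val_smul, Pi.smul_apply]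
      rw [smul_comm]
    · simp [hg]

theorem th_apply_mem (m : M) (h : H) :
    (th H w L m : G → M) h = (w h : ℤ) • L h⁻¹ m := by
  classical
  have : (th H w L m : G → M) h = if hg : (h : G) ∈ H then (w (h : G) : ℤ) •
    L ⟨(h : G)⁻¹, H.inv_mem hg⟩ m else 0 := rfl
  rw [this, dif_pos h.2]
  rfl

theorem th_apply_one (m : M) : (th H w L m : G → M) 1 = m := by
  have := th_apply_mem H w L m 1
  simpa using this

theorem th_apply_not_mem (m : M) (g : G) (hg : g ∉ H) : (th H w L m : G → M) g = 0 := by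
  classical
  have : (th H w L m : G → M) g = if hg : g ∈ H then (w g : ℤ) •
    L ⟨g⁻¹, H.inv_mem hg⟩ m else 0 := rfl
  rw [this, dif_neg hg]

/-- `h·θ(m) = θ(w(h) L(h) m)` for `h` in `H`. -/
theorem el_smul_th (h : H) (m : M) :
    el (h : G) • th H w L m = th H w L ((w h : ℤ) • L h m) := by
  ext g
  rw [el_smul_ind_apply]
  by_cases hg : g ∈ H
  · have e1 : ((h : G)⁻¹ * g) = ((h⁻¹ * ⟨g, hg⟩ : H) : G) := by simp
    have e2 : g = ((⟨g, hg⟩ : H) : G) := rfl
    rw [e1, th_apply_mem]
    conv_rhs => rw [e2, th_apply_mem]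
    have e3 : (h⁻¹ * ⟨g, hg⟩ : H)⁻¹ = (⟨g, hg⟩ : H)⁻¹ * h := by group
    rw [e3, map_mul L, Module.End.mul_apply]
    simp only [Subgroup.coe_mul, Subgroup.coe_inv, map_mul, map_inv, map_zsmul, smul_smul]
    congr 1
    push_cast
    rw [mul_comm]
    congr 1
    rcases Int.units_eq_one_or (w (h : G)) with e | e <;> simp [e]
  · have h2 : (h : G)⁻¹ * g ∉ H := fun hh => hg (by
      have := H.mul_mem h.2 hh
      simpa using this)
    rw [th_apply_not_mem _ _ _ _ _ h2, th_apply_not_mem _ _ _ _ _ hg]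

end ind

/-- A resolution `0 → P2 → P1 → P0 → ℤ → 0` by finitely generated projective modules: the group is
of type FP and has cohomological dimension at most 2. -/
structure Res2 (H : Type u) [Group H] where
  /-- the modules -/
  (P0 P1 P2 : Type u)
  [ag0 : AddCommGroup P0] [ag1 : AddCommGroup P1] [ag2 : AddCommGroup P2]
  [md0 : Module (Zg H) P0] [md1 : Module (Zg H) P1] [md2 : Module (Zg H) P2]
  [fg0 : Module.Finite (Zg H) P0] [fg1 : Module.Finite (Zg H) P1] [fg2 : Module.Finite (Zg H) P2]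
  [pr0 : Module.Projective (Zg H) P0] [pr1 : Module.Projective (Zg H) P1]
  [pr2 : Module.Projective (Zg H) P2]
  /-- the augmentation -/
  ε : P0 →+ ℤ
  /-- the boundaries -/
  d1 : P1 →ₗ[Zg H] P0
  d2 : P2 →ₗ[Zg H] P1
  ε_el : ∀ (g : H) (q : P0), ε (el g • q) = ε q
  ε_surj : Surjective ε
  ex0 : ∀ q : P0, ε q = 0 ↔ ∃ r, d1 r = q
  ex1 : ∀ q : P1, d1 q = 0 ↔ ∃ r, d2 r = q
  inj2 : Injective d2

/-- `H` has a resolution of length 2 by finitely generated projective modules. -/
def IsFP2 (H : Type u) [Group H] : Prop := Nonempty (Res2 H)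

end PDT
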