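import Pool.Agent.Lib.PDT.Base
import Pool.Agent.Lib.PDT.Base2
import Pool.Agent.Lib.PDT.Base3

/-!
# PDT/Base4: definitions for residually `p` groups

`trQ N k` is the permutation representation of `H` on the functions `H ⧸ N → k`.
`ResP p H`: `H` is residually a finite `p`-group.
-/

namespace PDT

/-- Left translations of the functions on `H ⧸ N`. -/
def trQ {H : Type*} [Group H] (N : Subgroup H) (k : Type*) [CommRing k] :
    H →* Module.End k ((H ⧸ N) → k) where
  toFun h := LinearMap.funLeft k k fun q => h⁻¹ • q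
  map_one' := by
    ext f q
    simp [LinearMap.funLeft]
  map_mul' x y := by
    ext f q
    simp [LinearMap.funLeft, mul_smul]

@[simp] theorem trQ_apply {H : Type*} [Group H] (N : Subgroup H) (k : Type*) [CommRing k] (h : H)
    (f : (H ⧸ N) → k) (q : H ⧸ N) : trQ N k h f q = f (h⁻¹ • q) := rfl

/-- `N` is a normal subgroup of finite index whose quotient is a `p`-group. -/
def PQ (p : ℕ) {H : Type*} [Group H] (N : Subgroup H) : Prop :=
  N.Normal ∧ N.FiniteIndex ∧ ∀ h : H, ∃ n : ℕ, h ^ p ^ n ∈ N

/-- `H` is residually a finite `p`-group. -/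
def ResP (p : ℕ) (H : Type*) [Group H] : Prop :=
  ∀ h : H, h ≠ 1 → ∃ N : Subgroup H, PQ p N ∧ h ∉ N

/-- The family `x` in `P` is independent modulo `p` (for a projective module `P`: its image in
`𝔽_p ⊗ P` is linearly independent). -/
def IndP (p : ℕ) (H : Type*) [Group H] {P : Type*} [AddCommGroup P] [Module (Zg H) P] {a : ℕ}
    (x : Fin a → P) : Prop :=
  ∀ c : Fin a → ZMod p, (∀ f : P →ₗ[Zg H] Zg H, ∑ i, c i * (aug (f (x i)) : ZMod p) = 0) → c = 0

end PDT
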