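import Pool.Agent.Lib.PDT.Base5

/-!
# PDT/Base6: the coinduced modules `H → A`, and functions on `G` as equivariant functions
-/

namespace PDT

open Function

universe u

/-- Left translations of the functions `H → A`. -/
def LF (H : Type*) [Group H] (A : Type*) [AddCommGroup A] : H →* Module.End ℤ (H → A) where
  toFun h := LinearMap.funLeft ℤ A fun k => h⁻¹ * k
  map_one' := by
    ext m k
    simp [LinearMap.funLeft]
  map_mul' x y := by
    ext m k
    simp [LinearMap.funLeft, mul_assoc]

@[simp] theorem LF_apply (H : Type*) [Group H] (A : Type*) [AddCommGroup A] (h : H) (m : H → A)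
    (k : H) : LF H A h m k = m (h⁻¹ * k) := rfl

/-- Every derivation into a coinduced module is inner. -/
theorem LF_inner (H : Type*) [Group H] (A : Type*) [AddCommGroup A] (δ : H → (H → A))
    (hδ : ∀ x y, δ (x * y) = δ x + LF H A x (δ y)) : ∃ μ, ∀ x, δ x = LF H A x μ - μ := by
  refine ⟨fun k => - δ k k, fun x => ?_⟩
  funext k
  have h1 := congrFun (hδ x (x⁻¹ * k)) k
  rw [mul_inv_cancel_left, Pi.add_apply, LF_apply] at h1
  rw [Pi.sub_apply, LF_apply, h1]
  abel

/-- The equivariant function of an arbitrary function on `G`. -/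
def toF {G : Type u} [Group G] (H : Subgroup G) {A : Type*} (f : G → A) : G → (H → A) :=
  fun g k => f (g * (k : G))

@[simp] theorem toF_apply {G : Type u} [Group G] (H : Subgroup G) {A : Type*} (f : G → A) (g : G)
    (k : H) : toF H f g k = f (g * (k : G)) := rfl

/-- Equality of the equivariant functions outside finitely many cosets. -/
theorem toF_ne {G : Type u} [Group G] (H : Subgroup G) {A : Type*} (f f' : G → A)
    (h : HF H {g | f g ≠ f' g}) : HF H {g | toF H f g ≠ toF H f' g} := by
  refine h.subset ?_
  rintro _ ⟨g, hg, rfl⟩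
  have hg' : toF H f g ≠ toF H f' g := hg
  obtain ⟨k, hk⟩ := Function.ne_iff.1 hg'
  refine ⟨g * (k : G), hk, ?_⟩
  rw [QuotientGroup.eq]
  simp

theorem of_toF_ne {G : Type u} [Group G] (H : Subgroup G) {A : Type*} (f f' : G → A)
    (h : HF H {g | toF H f g ≠ toF H f' g}) : HF H {g | f g ≠ f' g} := by
  refine h.mono ?_
  intro g hg h2
  apply hg
  have := congrFun h2 1
  simpa using this

theorem isT_toF {G : Type u} [Group G] (H : Subgroup G) {A : Type*} [AddCommGroup A] (f : G → A)
    (hf : ∀ x : G, HF H {g | f (x⁻¹ * g) ≠ f g}) : IsT H (LF H A) (toF H f) := by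
  refine ⟨fun g h => ?_, fun x => ?_⟩
  · funext k
    rw [toF_apply, LF_apply, toF_apply, inv_inv, Subgroup.coe_mul, mul_assoc]
  · have h1 := toF_ne H (fun g => f (x⁻¹ * g)) f (hf x)
    refine h1.mono ?_
    intro g hg h2
    apply hg
    funext k
    have := congrFun h2 k
    rw [toF_apply, toF_apply] at this
    rw [toF_apply, toF_apply, mul_assoc]
    exact this

/-- The scalar function of an equivariant function. -/
theorem toF_of_isT {G : Type u} [Group G] (H : Subgroup G) {A : Type*} [AddCommGroup A]
    (ν : G → (H → A)) (hν : IsT H (LF H A) ν) : ν = toF H fun g => ν g 1 := by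
  funext g k
  rw [toF_apply, hν.1, LF_apply, inv_inv, mul_one]

end PDT
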