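import Pool.Agent.Lib.PDT.Base

/-!
# PDT/Def: groups of type FP and Poincare duality groups
-/

namespace PDT

open Function

universe u

/-- A resolution of the trivial module `ℤ` of finite length by finitely generated projective
`ℤ[G]`-modules.  A group is of type FP if it has one. -/
structure FPRes (G : Type u) [Group G] where
  /-- the modules -/
  Q : ℕ → Type u
  [ag : ∀ i, AddCommGroup (Q i)]
  [md : ∀ i, Module (Zg G) (Q i)]
  [fg : ∀ i, Module.Finite (Zg G) (Q i)]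
  [pr : ∀ i, Module.Projective (Zg G) (Q i)]
  /-- the length -/
  len : ℕ
  triv : ∀ i, len < i → Subsingleton (Q i)
  /-- the augmentation -/
  ε : Q 0 →+ ℤ
  /-- the boundaries -/
  d : ∀ i, Q (i + 1) →ₗ[Zg G] Q i
  ε_el : ∀ (g : G) (q : Q 0), ε (el g • q) = ε q
  ε_surj : Surjective ε
  ex0 : ∀ q : Q 0, ε q = 0 ↔ ∃ r, d 0 r = q
  ex : ∀ (i : ℕ) (q : Q (i + 1)), d i q = 0 ↔ ∃ r, d (i + 1) r = q

attribute [instance] FPRes.ag FPRes.md FPRes.fg FPRes.pr

/-- The group of `i`-cocycles of the complex `Hom_G(Q, ℤ[G])`. -/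
noncomputable def coc {G : Type u} [Group G] (R : FPRes G) (i : ℕ) : AddSubgroup (R.Q i →ₗ[Zg G] Zg G) where
  carrier := {f | f ∘ₗ R.d i = 0}
  zero_mem' := by simp
  add_mem' := by
    intro a b ha hb
    change (a + b) ∘ₗ R.d i = 0
    rw [LinearMap.add_comp, show a ∘ₗ R.d i = 0 from ha, show b ∘ₗ R.d i = 0 from hb, add_zero]
  neg_mem' := by
    intro a ha
    change (-a) ∘ₗ R.d i = 0
    rw [LinearMap.neg_comp, show a ∘ₗ R.d i = 0 from ha, neg_zero]

/-- The group of `i`-coboundaries of the complex `Hom_G(Q, ℤ[G])`. -/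
noncomputable def cob {G : Type u} [Group G] (R : FPRes G) : (i : ℕ) → AddSubgroup (R.Q i →ₗ[Zg G] Zg G)
  | 0 => ⊥
  | i + 1 =>
    { carrier := {f | ∃ h : R.Q i →ₗ[Zg G] Zg G, f = h ∘ₗ R.d i}
      zero_mem' := ⟨0, by simp⟩
      add_mem' := by
        rintro _ _ ⟨a, rfl⟩ ⟨b, rfl⟩
        exact ⟨a + b, by rw [LinearMap.add_comp]⟩
      neg_mem' := by
        rintro _ ⟨a, rfl⟩
        exact ⟨-a, by rw [LinearMap.neg_comp]⟩ }

/-- `G` is a Poincare duality group of dimension `n` (orientable or not): `G` is of type FP,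
`H^i(G; ℤ[G]) = 0` for `i ≠ n` and `H^n(G; ℤ[G]) ≅ ℤ` as an abelian group. -/
def IsPD (n : ℕ) (G : Type u) [Group G] : Prop :=
  ∃ R : FPRes G, (∀ i, i ≠ n → coc R i ≤ cob R i) ∧
    Nonempty ((coc R n ⧸ (cob R n).addSubgroupOf (coc R n)) ≃+ ℤ)

end PDT
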