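import Pool.Agent.Lib.PDT.Stmt
import Pool.Agent.Lib.PDT.Def

/-!
# PDT/Bridge: the definitions of the statement file `PDT/Stmt` and those of `PDT/Def`
-/

namespace PDT

open Function

universe u

variable {G : Type u} [Group G]

/-- From the statement file. -/
noncomputable def toPDT (R : PDS.FPRes G) : FPRes G where
  Q i := (R.Q i).X
  ag i := (R.Q i).ag
  md i := (R.Q i).md
  fg i := (R.Q i).fg
  pr i := (R.Q i).pr
  len := R.len
  triv := R.triv
  ε := R.ε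
  d := R.d
  ε_el := R.ε_act
  ε_surj := R.ε_surj
  ex0 := R.ex0
  ex i q := R.ex i q

/-- To the statement file. -/
noncomputable def ofPDT (R : FPRes G) : PDS.FPRes G where
  Q i := { X := R.Q i, ag := R.ag i, md := R.md i, fg := R.fg i, pr := R.pr i }
  len := R.len
  triv := R.triv
  ε := R.ε
  d := R.d
  ε_act := R.ε_el
  ε_surj := R.ε_surj
  ex0 := R.ex0
  ex i q := R.ex i q

theorem coc_iff (R : PDS.FPRes G) (i : ℕ) (f : PDS.Dual (R.Q i)) :
    (show (toPDT R).Q i →ₗ[Zg G] Zg G from f) ∈ coc (toPDT R) i ↔ PDS.Coc R i f := by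
  constructor
  · intro h q
    exact LinearMap.congr_fun (show (show (toPDT R).Q i →ₗ[Zg G] Zg G from f) ∘ₗ (toPDT R).d i = 0 from h) q
  · intro h
    change (show (toPDT R).Q i →ₗ[Zg G] Zg G from f) ∘ₗ (toPDT R).d i = 0
    apply LinearMap.ext
    intro q
    exact h q

theorem cob_iff (R : PDS.FPRes G) : ∀ (i : ℕ) (f : PDS.Dual (R.Q i)),
    (show (toPDT R).Q i →ₗ[Zg G] Zg G from f) ∈ cob (toPDT R) i ↔ PDS.Cob R i f
  | 0, f => Iff.rfl
  | i + 1, f => by
    constructor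
    · rintro ⟨h, hh⟩
      exact ⟨h, fun q => LinearMap.congr_fun hh q⟩
    · rintro ⟨h, hh⟩
      exact ⟨h, LinearMap.ext fun q => hh q⟩

theorem isPD_of {n : ℕ} (h : PDS.IsPD n G) : IsPD n G := by
  obtain ⟨R, hR, e, he1, he2, he3⟩ := h
  refine ⟨toPDT R, fun i hi f hf => (cob_iff R i f).2 (hR i f hi ((coc_iff R i f).1 hf)), ?_⟩
  let φ : coc (toPDT R) n →+ ℤ :=
    AddMonoidHom.mk' (fun f => e f.1)
      (fun f f' => he1 f.1 f'.1 ((coc_iff R n f.1).1 f.2) ((coc_iff R n f'.1).1 f'.2))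
  have hs : Surjective φ := by
    intro z
    obtain ⟨f, hf, hz⟩ := he3 z
    exact ⟨⟨f, (coc_iff R n f).2 hf⟩, hz⟩
  have hk : φ.ker = (cob (toPDT R) n).addSubgroupOf (coc (toPDT R) n) := by
    ext f
    rw [AddMonoidHom.mem_ker, AddSubgroup.mem_addSubgroupOf]
    exact (he2 f.1 ((coc_iff R n f.1).1 f.2)).trans (cob_iff R n f.1).symm
  rw [← hk]
  exact ⟨QuotientAddGroup.quotientKerEquivOfSurjective φ hs⟩

theorem of_isPD {n : ℕ} (h : IsPD n G) : PDS.IsPD n G := by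
  classical
  obtain ⟨R, hR, ⟨φ⟩⟩ := h
  have hc : ∀ i (f : R.Q i →ₗ[Zg G] Zg G), f ∈ coc R i ↔ PDS.Coc (ofPDT R) i f :=
    fun i f => coc_iff (ofPDT R) i f
  have hb : ∀ i (f : R.Q i →ₗ[Zg G] Zg G), f ∈ cob R i ↔ PDS.Cob (ofPDT R) i f :=
    fun i f => cob_iff (ofPDT R) i f
  let e : (R.Q n →ₗ[Zg G] Zg G) → ℤ :=
    fun f => if h : f ∈ coc R n then φ (QuotientAddGroup.mk ⟨f, h⟩) else 0
  have he : ∀ (f : R.Q n →ₗ[Zg G] Zg G) (h : f ∈ coc R n),
      e f = φ (QuotientAddGroup.mk ⟨f, h⟩) := fun f h => dif_pos h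
  have e1 : ∀ f f' : R.Q n →ₗ[Zg G] Zg G, f ∈ coc R n → f' ∈ coc R n →
      e (f + f') = e f + e f' := by
    intro f f' h1 h2
    rw [he f h1, he f' h2, he _ (add_mem h1 h2), ← map_add]
    rfl
  have e2 : ∀ f : R.Q n →ₗ[Zg G] Zg G, f ∈ coc R n → (e f = 0 ↔ f ∈ cob R n) := by
    intro f h1
    rw [he f h1]
    constructor
    · intro h2
      have h3 : (QuotientAddGroup.mk ⟨f, h1⟩ :
          coc R n ⧸ (cob R n).addSubgroupOf (coc R n)) = 0 := by
        apply φ.injective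
        rw [h2, map_zero]
      have h4 := (QuotientAddGroup.eq_zero_iff _).1 h3
      rw [AddSubgroup.mem_addSubgroupOf] at h4
      exact h4
    · intro h2
      have h3 : (QuotientAddGroup.mk ⟨f, h1⟩ :
          coc R n ⧸ (cob R n).addSubgroupOf (coc R n)) = 0 := by
        rw [QuotientAddGroup.eq_zero_iff, AddSubgroup.mem_addSubgroupOf]
        exact h2
      rw [h3, map_zero]
  have e3 : ∀ z : ℤ, ∃ f : R.Q n →ₗ[Zg G] Zg G, f ∈ coc R n ∧ e f = z := by
    intro z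
    obtain ⟨x, hx⟩ := φ.surjective z
    induction x using QuotientAddGroup.induction_on with
    | H f => exact ⟨f.1, f.2, (he f.1 f.2).trans hx⟩
  refine ⟨ofPDT R, fun i f hi hf => (hb i f).1 (hR i hi ((hc i f).2 hf)), e, ?_, ?_, ?_⟩
  · intro f f' hf hf'
    exact e1 f f' ((hc n f).2 hf) ((hc n f').2 hf')
  · intro f hf
    exact (e2 f ((hc n f).2 hf)).trans (hb n f)
  · intro z
    obtain ⟨f, hf, hz⟩ := e3 z
    exact ⟨f, (hc n f).1 hf, hz⟩

end PDT
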