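import Pool.Agent.Lib.PDT.Base
import Pool.Agent.Lib.PDT.Base3

/-!
# PDT/Restr: restriction of a free presentation to a subgroup of finite index

`j : K → H` injective with image of finite index `m`.

Complete proof.  Choose `t : Fin m → H` representing the right cosets `j(K) t_i`
(`m = j.range.index`; right cosets ↔ left cosets by inversion, e.g. `t_i = (Quotient.out c_i)⁻¹` for an
enumeration `c_i` of `H ⧸ j.range`): every `h ∈ H` is uniquely `j(k) t_i`.  The map
`Ψ : (Fin m → Zg K) → Zg H`, `Ψ(y) = Σ_i j_*(y_i) el(t_i)`, where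
`j_* = MonoidAlgebra.mapDomainRingHom` (or `zl (el ∘ j)`), is an additive bijection: its inverse is
`zl (fun h => Pi.single i (el k))` for `h = j(k) t_i`.  `Ψ(el k • y) = el (j k) * Ψ(y)`.
Coordinatewise and with `Fin (a * m) ≃ Fin a × Fin m` (`finProdFinEquiv`) we get additive equivalences
`Ψ_a : (Fin (a * m) → Zg K) ≃+ (Fin a → Zg H)` with `Ψ_a (el k • y) = el (j k) • Ψ_a y`.  Put
`d' = Ψ_{a0}⁻¹ ∘ d ∘ Ψ_{a1}` (additive and commuting with all `el k`, so `Zg K`-linear:
`Zg.ind` or `MonoidAlgebra.equivariantOfLinearOfComm`), `εP' = εP ∘ Ψ_{a0}`.  `Ψ_{a1}` maps `ker d'`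
onto `ker d`; `Φ` is the inverse of its restriction.  Exactness is transported.
-/

namespace PDT

open Function

private theorem restr_lin {K A B : Type*} [Group K] [AddCommGroup A] [AddCommGroup B]
    [Module (Zg K) A] [Module (Zg K) B] (g : A →+ B)
    (hg : ∀ (k : K) (x : A), g (el k • x) = el k • g x) (y : Zg K) :
    ∀ x : A, g (y • x) = y • g x := by
  refine Zg.ind (P := fun y => ∀ x : A, g (y • x) = y • g x) y ?_ ?_ ?_ ?_
  · intro x
    rw [zero_smul, zero_smul, map_zero]
  · intro h x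
    exact hg h x
  · intro y z hy hz x
    rw [add_smul, add_smul, map_add, hy, hz]
  · intro y hy x
    rw [neg_smul, neg_smul, map_neg, hy]

/-- Representatives of the right cosets of the image. -/
private theorem restr_cosets {K H : Type*} [Group K] [Group H] (j : K →* H) (hj : Injective j)
    (hfi : j.range.FiniteIndex) :
    ∃ t : Fin j.range.index → H, (∀ h, ∃ k i, h = j k * t i) ∧
      ∀ k k' i i', j k * t i = j k' * t i' → k = k' ∧ i = i' := by
  have hfin : Finite (H ⧸ j.range) := Subgroup.finite_quotient_of_finiteIndex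
  let e : (H ⧸ j.range) ≃ Fin j.range.index := Finite.equivFinOfCardEq rfl
  refine ⟨fun i => ((e.symm i).out)⁻¹, fun h => ?_, ?_⟩
  · have h1 : ((((h⁻¹ : H) : H ⧸ j.range).out : H) : H ⧸ j.range) = ((h⁻¹ : H) : H ⧸ j.range) :=
      QuotientGroup.out_eq' _
    rw [QuotientGroup.eq] at h1
    obtain ⟨k, hk⟩ := h1
    refine ⟨k⁻¹, e ((h⁻¹ : H) : H ⧸ j.range), ?_⟩
    beta_reduce
    rw [map_inv, hk, Equiv.symm_apply_apply]
    group
  · intro k k' i i' h
    have h1 : ((e.symm i').out : H ⧸ j.range) = ((e.symm i).out : H ⧸ j.range) := by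
      rw [QuotientGroup.eq]
      refine ⟨k'⁻¹ * k, ?_⟩
      rw [map_mul, map_inv]
      have h2 : j k = j k' * ((e.symm i').out)⁻¹ * ((e.symm i).out) := by
        rw [← h]; group
      rw [h2]; group
    rw [QuotientGroup.out_eq', QuotientGroup.out_eq'] at h1
    have h3 : i = i' := (e.symm.injective h1).symm
    subst h3
    exact ⟨hj (mul_right_cancel h), rfl⟩

/-- The additive equivalence `(Zg K)^m ≃ Zg H`. -/
private theorem restr_one {K H : Type*} [Group K] [Group H] (j : K →* H) (hj : Injective j)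
    (hfi : j.range.FiniteIndex) :
    ∃ Ψ : (Fin j.range.index → Zg K) ≃+ Zg H,
      ∀ (k : K) (y : Fin j.range.index → Zg K), Ψ (el k • y) = el (j k) * Ψ y := by
  classical
  obtain ⟨t, ht1, ht2⟩ := restr_cosets j hj hfi
  choose κ ι hκ using ht1
  let A : (Fin j.range.index → Zg K) →+ Zg H :=
    ∑ i, (zl fun k => el (j k * t i)).comp (Pi.evalAddMonoidHom (fun _ => Zg K) i)
  let B : Zg H →+ (Fin j.range.index → Zg K) := zl fun h => Pi.single (ι h) (el (κ h))
  have hA : ∀ y, A y = ∑ i, zl (fun k => el (j k * t i)) (y i) := by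
    intro y
    simp only [A, AddMonoidHom.finsetSum_apply, AddMonoidHom.comp_apply,
      Pi.evalAddMonoidHom_apply]
  have hA1 : ∀ (i : Fin j.range.index) (y : Zg K),
      A (Pi.single i y) = zl (fun k => el (j k * t i)) y := by
    intro i y
    rw [hA, Finset.sum_eq_single i]
    · rw [Pi.single_eq_same]
    · intro i' _ hi'
      rw [Pi.single_eq_of_ne hi', map_zero]
    · intro hi
      exact absurd (Finset.mem_univ i) hi
  have hAB : ∀ x, A (B x) = x := by
    have h1 : A.comp B = AddMonoidHom.id _ := by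
      apply zhom_ext
      intro h
      rw [AddMonoidHom.comp_apply, zl_el, hA1, zl_el, ← hκ, AddMonoidHom.id_apply]
    exact DFunLike.congr_fun h1
  have hBA1 : ∀ (i : Fin j.range.index) (y : Zg K), B (A (Pi.single i y)) = Pi.single i y := by
    intro i
    have h1 : (B.comp A).comp (AddMonoidHom.single (fun _ => Zg K) i) =
        AddMonoidHom.single (fun _ => Zg K) i := by
      apply zhom_ext
      intro k
      change B (A (Pi.single i (el k))) = Pi.single i (el k)
      rw [hA1, zl_el, zl_el]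
      obtain ⟨h2, h3⟩ := ht2 _ _ _ _ (hκ (j k * t i))
      rw [← h2, ← h3]
    exact DFunLike.congr_fun h1
  have hBA : ∀ y, B (A y) = y := by
    intro y
    have h1 : y = ∑ i, Pi.single i (y i) := (Finset.univ_sum_single y).symm
    conv_lhs => rw [h1]
    rw [map_sum, map_sum]
    simp only [hBA1]
    exact Finset.univ_sum_single y
  refine ⟨{ toFun := A, invFun := B, left_inv := hBA, right_inv := hAB, map_add' := A.map_add },
    fun k y => ?_⟩
  change A (el k • y) = el (j k) * A y
  rw [hA, hA, Finset.mul_sum]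
  refine Finset.sum_congr rfl fun i _ => ?_
  have h1 : (zl fun k => el (j k * t i)).comp (AddMonoidHom.mulLeft (el k)) =
      (AddMonoidHom.mulLeft (el (j k))).comp (zl fun k => el (j k * t i)) := by
    apply zhom_ext
    intro k'
    simp only [AddMonoidHom.comp_apply, AddMonoidHom.coe_mulLeft, ← el_mul, zl_el, map_mul,
      mul_assoc]
  exact DFunLike.congr_fun h1 (y i)

/-- The additive equivalence `(Zg K)^(a m) ≃ (Zg H)^a`. -/
private theorem restr_all {K H : Type*} [Group K] [Group H] (j : K →* H) (hj : Injective j)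
    (hfi : j.range.FiniteIndex) (a : ℕ) :
    ∃ Ψ : (Fin (a * j.range.index) → Zg K) ≃+ (Fin a → Zg H),
      ∀ (k : K) (y : Fin (a * j.range.index) → Zg K), Ψ (el k • y) = el (j k) • Ψ y := by
  obtain ⟨Ψ, hΨ⟩ := restr_one j hj hfi
  refine ⟨{ toFun := fun y p => Ψ fun i => y (finProdFinEquiv (p, i))
            invFun := fun x q => Ψ.symm (x (finProdFinEquiv.symm q).1) (finProdFinEquiv.symm q).2
            left_inv := ?_
            right_inv := ?_
            map_add' := ?_ }, ?_⟩
  · intro y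
    funext q
    change Ψ.symm (Ψ fun i => y (finProdFinEquiv ((finProdFinEquiv.symm q).1, i)))
      (finProdFinEquiv.symm q).2 = y q
    rw [AddEquiv.symm_apply_apply]
    change y (finProdFinEquiv (finProdFinEquiv.symm q)) = y q
    rw [Equiv.apply_symm_apply]
  · intro x
    funext p
    change Ψ (fun i => Ψ.symm (x (finProdFinEquiv.symm (finProdFinEquiv (p, i))).1)
      (finProdFinEquiv.symm (finProdFinEquiv (p, i))).2) = x p
    simp only [Equiv.symm_apply_apply]
    exact AddEquiv.apply_symm_apply Ψ (x p)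
  · intro x y
    funext p
    exact map_add Ψ (fun i => x (finProdFinEquiv (p, i))) (fun i => y (finProdFinEquiv (p, i)))
  · intro k y
    funext p
    exact hΨ k fun i => y (finProdFinEquiv (p, i))

theorem restr {K H : Type*} [Group K] [Group H] (j : K →* H) (hj : Injective j)
    (hfi : j.range.FiniteIndex) {a0 a1 : ℕ} (εP : (Fin a0 → Zg H) →+ ℤ)
    (hε : ∀ (h : H) (p : Fin a0 → Zg H), εP (el h • p) = εP p) (hs : Surjective εP)
    (d : (Fin a1 → Zg H) →ₗ[Zg H] (Fin a0 → Zg H))
    (hex : ∀ p : Fin a0 → Zg H, εP p = 0 ↔ ∃ q, d q = p) :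
    ∃ (εP' : (Fin (a0 * j.range.index) → Zg K) →+ ℤ)
      (d' : (Fin (a1 * j.range.index) → Zg K) →ₗ[Zg K] (Fin (a0 * j.range.index) → Zg K))
      (Φ : LinearMap.ker d ≃+ LinearMap.ker d'),
      (∀ (k : K) p, εP' (el k • p) = εP' p) ∧ Surjective εP' ∧
      (∀ p, εP' p = 0 ↔ ∃ q, d' q = p) ∧
      ∀ (k : K) (p : LinearMap.ker d), Φ (el (j k) • p) = el k • Φ p := by
  obtain ⟨Ψ0, hΨ0⟩ := restr_all j hj hfi a0
  obtain ⟨Ψ1, hΨ1⟩ := restr_all j hj hfi a1
  have hΨ0' : ∀ (k : K) (x : Fin a0 → Zg H), Ψ0.symm (el (j k) • x) = el k • Ψ0.symm x := by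
    intro k x
    rw [AddEquiv.symm_apply_eq, hΨ0, AddEquiv.apply_symm_apply]
  have hΨ1' : ∀ (k : K) (x : Fin a1 → Zg H), Ψ1.symm (el (j k) • x) = el k • Ψ1.symm x := by
    intro k x
    rw [AddEquiv.symm_apply_eq, hΨ1, AddEquiv.apply_symm_apply]
  let dA : (Fin (a1 * j.range.index) → Zg K) →+ (Fin (a0 * j.range.index) → Zg K) :=
    (Ψ0.symm.toAddMonoidHom.comp d.toAddMonoidHom).comp Ψ1.toAddMonoidHom
  have hdA : ∀ y, dA y = Ψ0.symm (d (Ψ1 y)) := fun y => rfl
  have hdAk : ∀ (k : K) y, dA (el k • y) = el k • dA y := by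
    intro k y
    rw [hdA, hdA, hΨ1, map_smul, hΨ0']
  let d' : (Fin (a1 * j.range.index) → Zg K) →ₗ[Zg K] (Fin (a0 * j.range.index) → Zg K) :=
    { toFun := dA
      map_add' := dA.map_add
      map_smul' := fun y x => restr_lin dA hdAk y x }
  have hd' : ∀ y, d' y = Ψ0.symm (d (Ψ1 y)) := fun y => rfl
  have hker : ∀ y, d' y = 0 ↔ d (Ψ1 y) = 0 := by
    intro y
    rw [hd', AddEquiv.symm_apply_eq, map_zero]
  let Φ : LinearMap.ker d ≃+ LinearMap.ker d' :=
    { toFun := fun p => ⟨Ψ1.symm p.1, by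
        rw [LinearMap.mem_ker, hker, AddEquiv.apply_symm_apply]
        exact p.2⟩
      invFun := fun q => ⟨Ψ1 q.1, by
        rw [LinearMap.mem_ker]
        exact (hker q.1).1 q.2⟩
      left_inv := fun p => Subtype.ext (Ψ1.apply_symm_apply p.1)
      right_inv := fun q => Subtype.ext (Ψ1.symm_apply_apply q.1)
      map_add' := fun p q => Subtype.ext (map_add Ψ1.symm p.1 q.1) }
  refine ⟨εP.comp Ψ0.toAddMonoidHom, d', Φ, ?_, ?_, ?_, ?_⟩
  · intro k p
    change εP (Ψ0 (el k • p)) = εP (Ψ0 p)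
    rw [hΨ0, hε]
  · exact hs.comp Ψ0.surjective
  · intro p
    change εP (Ψ0 p) = 0 ↔ _
    rw [hex]
    constructor
    · rintro ⟨q, hq⟩
      refine ⟨Ψ1.symm q, ?_⟩
      rw [hd', AddEquiv.apply_symm_apply, hq, AddEquiv.symm_apply_apply]
    · rintro ⟨q, hq⟩
      refine ⟨Ψ1 q, ?_⟩
      rw [← hq, hd', AddEquiv.apply_symm_apply]
  · intro k p
    exact Subtype.ext (hΨ1' k p.1)

end PDT
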