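import Pool.Agent.Lib.PDT.Def
import Pool.Agent.Lib.PDT.Restr

/-!
# PDT/FPFin: type FP passes to subgroups of finite index

Complete proof.  Let `φ : Zg H →+* Zg G` be the ring homomorphism `MonoidAlgebra.mapDomainRingHom ℤ H.subtype`,
`φ (el h) = el (h : G)`.  `R'.Q i` is the group `R.Q i` with the `Zg H`-module structure
`Module.compHom _ φ` (the rings `Zg H` and `Zg G` are different, so there is no diamond; as in `PDT/FPOf` it may be
convenient to define a function giving the type and instances first, or to use a type synonym).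
`ε`, `d i` are the same maps (`d i` is `Zg H`-linear), exactness is the same, `len` is the same.
FINITE: `Zg G` is a finitely generated `Zg H`-module: `H` has finitely many right cosets `H t_i`
(inverses of representatives of the finite set `G ⧸ H`), and every `el g = el h * el t_i`, so `Zg G` is spanned
over `Zg H` by the `el t_i`; a module spanned by `m_j` over `Zg G` is spanned by the `el t_i • m_j` over `Zg H`.
PROJECTIVE: `Zg G` is a free `Zg H`-module with basis `t_i`: (see the private lemmas `restr_cosets`, `restr_one` in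
`PDT/Restr`, which can be copied: an additive equivalence
`Ψ : (Fin m → Zg H) ≃+ Zg G` with `Ψ (el h • y) = el h * Ψ y`, hence `Zg H`-linear, so `Zg G` is projective over `Zg H`).
A projective `Zg G`-module `Q` is a direct summand of a free module `Q →₀ Zg G` (`Module.Projective`:
a section `s : Q → (Q →₀ Zg G)` of `Finsupp.linearCombination`); over `Zg H` the module `Q →₀ Zg G` is a
direct sum of projective modules (`Module.Projective` instance for `Finsupp`/`DirectSum`), and a direct summand of a projective module
is projective (`Module.Projective.of_split`).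
-/

namespace PDT

open Function

universe u

private theorem FPFin_lin {K A B : Type*} [Group K] [AddCommGroup A] [AddCommGroup B]
    [Module (Zg K) A] [Module (Zg K) B] (g : A →+ B)
    (hg : ∀ (k : K) (x : A), g (el k • x) = el k • g x) (y : Zg K) :
    ∀ x : A, g (y • x) = y • g x := by
  refine Zg.ind (P := fun y => ∀ x : A, g (y • x) = y • g x) y ?_ ?_ ?_ ?_
  · intro x
    rw [zero_smul, zero_smul, map_zero]
  · intro h x
    exact hg h x
  · intro y z hy hz x
    rw [add_smul, add_smul, map_add, hy, hz]
  · intro y hy x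
    rw [neg_smul, neg_smul, map_neg, hy]

/-- Representatives of the right cosets of the image. -/
private theorem FPFin_cosets {K H : Type*} [Group K] [Group H] (j : K →* H) (hj : Injective j)
    (hfi : j.range.FiniteIndex) :
    ∃ t : Fin j.range.index → H, (∀ h, ∃ k i, h = j k * t i) ∧
      ∀ k k' i i', j k * t i = j k' * t i' → k = k' ∧ i = i' := by
  have hfin : Finite (H ⧸ j.range) := Subgroup.finite_quotient_of_finiteIndex
  let e : (H ⧸ j.range) ≃ Fin j.range.index := Finite.equivFinOfCardEq rfl
  refine ⟨fun i => ((e.symm i).out)⁻¹, fun h => ?_, ?_⟩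
  · have h1 : ((((h⁻¹ : H) : H ⧸ j.range).out : H) : H ⧸ j.range) = ((h⁻¹ : H) : H ⧸ j.range) :=
      QuotientGroup.out_eq' _
    rw [QuotientGroup.eq] at h1
    obtain ⟨k, hk⟩ := h1
    refine ⟨k⁻¹, e ((h⁻¹ : H) : H ⧸ j.range), ?_⟩
    beta_reduce
    rw [map_inv, hk, Equiv.symm_apply_apply]
    group
  · intro k k' i i' h
    have h1 : ((e.symm i').out : H ⧸ j.range) = ((e.symm i).out : H ⧸ j.range) := by
      rw [QuotientGroup.eq]
      refine ⟨k'⁻¹ * k, ?_⟩
      rw [map_mul, map_inv]
      have h2 : j k = j k' * ((e.symm i').out)⁻¹ * ((e.symm i).out) := by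
        rw [← h]; group
      rw [h2]; group
    rw [QuotientGroup.out_eq', QuotientGroup.out_eq'] at h1
    have h3 : i = i' := (e.symm.injective h1).symm
    subst h3
    exact ⟨hj (mul_right_cancel h), rfl⟩

/-- The additive equivalence `(Zg K)^m ≃ Zg H`. -/
private theorem FPFin_one {K H : Type*} [Group K] [Group H] (j : K →* H) (hj : Injective j)
    (hfi : j.range.FiniteIndex) :
    ∃ Ψ : (Fin j.range.index → Zg K) ≃+ Zg H,
      ∀ (k : K) (y : Fin j.range.index → Zg K), Ψ (el k • y) = el (j k) * Ψ y := by
  classical
  obtain ⟨t, ht1, ht2⟩ := FPFin_cosets j hj hfi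
  choose κ ι hκ using ht1
  let A : (Fin j.range.index → Zg K) →+ Zg H :=
    ∑ i, (zl fun k => el (j k * t i)).comp (Pi.evalAddMonoidHom (fun _ => Zg K) i)
  let B : Zg H →+ (Fin j.range.index → Zg K) := zl fun h => Pi.single (ι h) (el (κ h))
  have hA : ∀ y, A y = ∑ i, zl (fun k => el (j k * t i)) (y i) := by
    intro y
    simp only [A, AddMonoidHom.finsetSum_apply, AddMonoidHom.comp_apply,
      Pi.evalAddMonoidHom_apply]
  have hA1 : ∀ (i : Fin j.range.index) (y : Zg K),
      A (Pi.single i y) = zl (fun k => el (j k * t i)) y := by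
    intro i y
    rw [hA, Finset.sum_eq_single i]
    · rw [Pi.single_eq_same]
    · intro i' _ hi'
      rw [Pi.single_eq_of_ne hi', map_zero]
    · intro hi
      exact absurd (Finset.mem_univ i) hi
  have hAB : ∀ x, A (B x) = x := by
    have h1 : A.comp B = AddMonoidHom.id _ := by
      apply zhom_ext
      intro h
      rw [AddMonoidHom.comp_apply, zl_el, hA1, zl_el, ← hκ, AddMonoidHom.id_apply]
    exact DFunLike.congr_fun h1
  have hBA1 : ∀ (i : Fin j.range.index) (y : Zg K), B (A (Pi.single i y)) = Pi.single i y := by
    intro i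
    have h1 : (B.comp A).comp (AddMonoidHom.single (fun _ => Zg K) i) =
        AddMonoidHom.single (fun _ => Zg K) i := by
      apply zhom_ext
      intro k
      change B (A (Pi.single i (el k))) = Pi.single i (el k)
      rw [hA1, zl_el, zl_el]
      obtain ⟨h2, h3⟩ := ht2 _ _ _ _ (hκ (j k * t i))
      rw [← h2, ← h3]
    exact DFunLike.congr_fun h1
  have hBA : ∀ y, B (A y) = y := by
    intro y
    have h1 : y = ∑ i, Pi.single i (y i) := (Finset.univ_sum_single y).symm
    conv_lhs => rw [h1]
    rw [map_sum, map_sum]
    simp only [hBA1]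
    exact Finset.univ_sum_single y
  refine ⟨{ toFun := A, invFun := B, left_inv := hBA, right_inv := hAB, map_add' := A.map_add },
    fun k y => ?_⟩
  change A (el k • y) = el (j k) * A y
  rw [hA, hA, Finset.mul_sum]
  refine Finset.sum_congr rfl fun i _ => ?_
  have h1 : (zl fun k => el (j k * t i)).comp (AddMonoidHom.mulLeft (el k)) =
      (AddMonoidHom.mulLeft (el (j k))).comp (zl fun k => el (j k * t i)) := by
    apply zhom_ext
    intro k'
    simp only [AddMonoidHom.comp_apply, AddMonoidHom.coe_mulLeft, ← el_mul, zl_el, map_mul,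
      mul_assoc]
  exact DFunLike.congr_fun h1 (y i)


/-- The same module over the group ring of a subgroup. -/
private def FPFin_T {G : Type u} [Group G] (_ : Subgroup G) (M : Type u) : Type u := M

private noncomputable def FPFin_phi {G : Type u} [Group G] (H : Subgroup G) : Zg H →+* Zg G :=
  MonoidAlgebra.mapDomainRingHom ℤ H.subtype

private theorem FPFin_phi_el {G : Type u} [Group G] (H : Subgroup G) (h : H) :
    FPFin_phi H (el h) = el (h : G) := by
  simp [FPFin_phi, el]

private instance FPFin_ag {G : Type u} [Group G] (H : Subgroup G) (M : Type u) [AddCommGroup M] :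
    AddCommGroup (FPFin_T H M) := inferInstanceAs (AddCommGroup M)

private noncomputable instance FPFin_md {G : Type u} [Group G] (H : Subgroup G) (M : Type u)
    [AddCommGroup M] [Module (Zg G) M] : Module (Zg H) (FPFin_T H M) :=
  Module.compHom M (FPFin_phi H)

private theorem FPFin_smul {G : Type u} [Group G] (H : Subgroup G) (M : Type u)
    [AddCommGroup M] [Module (Zg G) M] (a : Zg H) (x : M) :
    (a • (show FPFin_T H M from x) : FPFin_T H M) = (FPFin_phi H a • x : M) := rfl

private noncomputable def FPFin_map {G : Type u} [Group G] (H : Subgroup G) {M N : Type u}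
    [AddCommGroup M] [Module (Zg G) M] [AddCommGroup N] [Module (Zg G) N] (f : M →ₗ[Zg G] N) :
    FPFin_T H M →ₗ[Zg H] FPFin_T H N where
  toFun := f
  map_add' := f.map_add
  map_smul' := fun a x => f.map_smul (FPFin_phi H a) x

private theorem FPFin_free {G : Type u} [Group G] (H : Subgroup G) (hH : H.FiniteIndex) (n : ℕ) :
    Module.Finite (Zg H) (FPFin_T H (Fin n → Zg G)) ∧
      Module.Projective (Zg H) (FPFin_T H (Fin n → Zg G)) := by
  obtain ⟨Ψ, hΨ⟩ := FPFin_one H.subtype H.subtype_injective
    (by rw [Subgroup.range_subtype]; exact hH)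
  have hlin : ∀ (a : Zg H) (y : Fin H.subtype.range.index → Zg H),
      Ψ (a • y) = FPFin_phi H a * Ψ y := by
    intro a y
    have h := FPFin_lin (K := H) (A := Fin H.subtype.range.index → Zg H) (B := FPFin_T H (Zg G))
      Ψ.toAddMonoidHom (fun k x => by
        have h1 := hΨ k x
        have h2 : (el k • (show FPFin_T H (Zg G) from Ψ x) : FPFin_T H (Zg G)) =
            (FPFin_phi H (el k) • Ψ x : Zg G) := rfl
        rw [FPFin_phi_el, smul_eq_mul] at h2
        exact h1.trans h2.symm) a y
    exact h
  let E : (Fin n → Fin H.subtype.range.index → Zg H) ≃ₗ[Zg H] FPFin_T H (Fin n → Zg G) :=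
    { toFun := fun y p => Ψ (y p)
      invFun := fun x p => Ψ.symm (x p)
      left_inv := fun y => by funext p; exact Ψ.symm_apply_apply (y p)
      right_inv := fun x => by
        change (fun p => Ψ (Ψ.symm (x p))) = x
        funext p
        exact Ψ.apply_symm_apply (x p)
      map_add' := fun y z => by
        change (fun p => Ψ ((y + z) p)) = fun p => Ψ (y p) + Ψ (z p)
        funext p
        exact map_add Ψ (y p) (z p)
      map_smul' := fun a y => by
        change (fun p => Ψ ((a • y) p)) = fun p => FPFin_phi H a * Ψ (y p)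
        funext p
        exact hlin a (y p) }
  exact ⟨Module.Finite.equiv E, Module.Projective.of_equiv E⟩

private theorem FPFin_fgpr {G : Type u} [Group G] (H : Subgroup G) (hH : H.FiniteIndex)
    (Q : Type u) [AddCommGroup Q] [Module (Zg G) Q] [Module.Finite (Zg G) Q]
    [Module.Projective (Zg G) Q] :
    Module.Finite (Zg H) (FPFin_T H Q) ∧ Module.Projective (Zg H) (FPFin_T H Q) := by
  obtain ⟨n, π, hπ⟩ := Module.Finite.exists_fin' (Zg G) Q
  obtain ⟨s, hs⟩ := Module.projective_lifting_property π LinearMap.id hπ
  obtain ⟨h1, h2⟩ := FPFin_free H hH n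
  refine ⟨Module.Finite.of_surjective (FPFin_map H π) hπ, ?_⟩
  refine Module.Projective.of_split (FPFin_map H s) (FPFin_map H π) ?_
  ext x
  exact DFunLike.congr_fun hs x

theorem fpRes_finiteIndex {G : Type u} [Group G] (R : FPRes G) (H : Subgroup G)
    (hH : H.FiniteIndex) : ∃ R' : FPRes H, R'.len = R.len := by
  refine ⟨{ Q := fun i => FPFin_T H (R.Q i)
            fg := fun i => (FPFin_fgpr H hH (R.Q i)).1
            pr := fun i => (FPFin_fgpr H hH (R.Q i)).2
            len := R.len
            triv := R.triv
            ε := R.ε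
            d := fun i => FPFin_map H (R.d i)
            ε_el := ?_
            ε_surj := R.ε_surj
            ex0 := R.ex0
            ex := R.ex }, rfl⟩
  intro g q
  have h2 : (el g • q : FPFin_T H (R.Q 0)) = (FPFin_phi H (el g) • (show R.Q 0 from q) : R.Q 0) := rfl
  rw [h2, FPFin_phi_el]
  exact R.ε_el g q

end PDT
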