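import Pool.Agent.Lib.PDT.Base
import Pool.Agent.Lib.PDT.Def

/-!
# PDT/FPOf: a resolution of length 2 in the sense of `FPRes`

Complete proof.  From `R : Res2 H` take `Q 0 = P0, Q 1 = P1, Q 2 = P2, Q (n+3) = PUnit`, `len = 2`,
`d 0 = d1`, `d 1 = d2`, `d (n+2) = 0`.  (Define `Q` by pattern matching and the instances by
`fun i => match i with …`, all with the same patterns `0 | 1 | 2 | (n+3)`.)  Exactness at `Q 2`:
`d2` is injective, so `d 1 q = 0` iff `q = 0` iff `∃ r : PUnit, 0 = q`; at `Q (n+3)`: everything is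
trivial.
-/

namespace PDT

open Function

universe u

private def FPOf_Q {H : Type u} [Group H] (R : Res2 H) : ℕ → Type u
  | 0 => R.P0
  | 1 => R.P1
  | 2 => R.P2
  | _ + 3 => PUnit.{u + 1}

@[reducible] private noncomputable def FPOf_ag {H : Type u} [Group H] (R : Res2 H) :
    ∀ i, AddCommGroup (FPOf_Q R i)
  | 0 => R.ag0
  | 1 => R.ag1
  | 2 => R.ag2
  | _ + 3 => (inferInstance : AddCommGroup PUnit.{u + 1})

@[reducible] private noncomputable def FPOf_md {H : Type u} [Group H] (R : Res2 H) :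
    ∀ i, @Module (Zg H) (FPOf_Q R i) _ (FPOf_ag R i).toAddCommMonoid
  | 0 => R.md0
  | 1 => R.md1
  | 2 => R.md2
  | _ + 3 => (inferInstance : Module (Zg H) PUnit.{u + 1})

private theorem FPOf_fg {H : Type u} [Group H] (R : Res2 H) :
    ∀ i, @Module.Finite (Zg H) (FPOf_Q R i) _ (FPOf_ag R i).toAddCommMonoid (FPOf_md R i)
  | 0 => R.fg0
  | 1 => R.fg1
  | 2 => R.fg2
  | _ + 3 => (inferInstance : Module.Finite (Zg H) PUnit.{u + 1})

private theorem FPOf_pr {H : Type u} [Group H] (R : Res2 H) :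
    ∀ i, @Module.Projective (Zg H) _ (FPOf_Q R i) (FPOf_ag R i).toAddCommMonoid (FPOf_md R i)
  | 0 => R.pr0
  | 1 => R.pr1
  | 2 => R.pr2
  | _ + 3 => (Module.Projective.of_free : Module.Projective (Zg H) PUnit.{u + 1})

private noncomputable def FPOf_d {H : Type u} [Group H] (R : Res2 H) :
    ∀ i, @LinearMap (Zg H) (Zg H) _ _ (RingHom.id _) (FPOf_Q R (i + 1)) (FPOf_Q R i)
      (FPOf_ag R (i + 1)).toAddCommMonoid (FPOf_ag R i).toAddCommMonoid
      (FPOf_md R (i + 1)) (FPOf_md R i)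
  | 0 => R.d1
  | 1 => R.d2
  | i + 2 =>
    @OfNat.ofNat _ 0 (@Zero.toOfNat0 _ (@LinearMap.instZero (Zg H) (Zg H) (FPOf_Q R (i + 2 + 1))
      (FPOf_Q R (i + 2)) _ _ (FPOf_ag R (i + 2 + 1)).toAddCommMonoid
      (FPOf_ag R (i + 2)).toAddCommMonoid (FPOf_md R (i + 2 + 1)) (FPOf_md R (i + 2))
      (RingHom.id _)))

private theorem FPOf_sub {H : Type u} [Group H] (R : Res2 H) (i : ℕ) (h : 2 < i) :
    Subsingleton (FPOf_Q R i) := by
  obtain ⟨j, rfl⟩ : ∃ j, i = j + 3 := ⟨i - 3, by omega⟩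
  exact (inferInstance : Subsingleton PUnit.{u + 1})

theorem fpRes_of {H : Type u} [Group H] (h : IsFP2 H) : ∃ R : FPRes H, R.len ≤ 2 := by
  obtain ⟨R⟩ := h
  refine ⟨@FPRes.mk H _ (FPOf_Q R) (FPOf_ag R) (FPOf_md R) (FPOf_fg R) (FPOf_pr R) 2
            (FPOf_sub R) R.ε (FPOf_d R) R.ε_el R.ε_surj R.ex0 ?_, le_rfl⟩
  intro i q
  match i, q with
  | 0, q => exact R.ex1 q
  | 1, q =>
    let _ := R.ag1
    let _ := R.ag2
    let _ := R.md1
    let _ := R.md2
    constructor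
    · intro hq
      have h0 : (q : R.P2) = (0 : R.P2) := R.inj2 (by rw [map_zero]; exact hq)
      exact ⟨(PUnit.unit : PUnit.{u + 1}), h0.symm⟩
    · rintro ⟨r, hr⟩
      have h0 : q = (0 : R.P2) := hr.symm
      change R.d2 q = 0
      rw [h0, map_zero]
  | i + 2, q =>
    constructor
    · intro _
      have := FPOf_sub R (i + 2 + 1) (by omega)
      exact ⟨(PUnit.unit : PUnit.{u + 1}), Subsingleton.elim _ _⟩
    · intro _
      rfl

end PDT
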