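import Pool.Agent.Lib.PDT.MainD

/-!
# PDT/MainE: type FP from a noetherian representation of a subgroup of finite index
-/

namespace PDT

open Function

universe u v

/-- The second syzygy is finitely generated if it is so over a subgroup of finite index. -/
theorem fin_of_sub {H Kg : Type u} [Group H] [Group Kg] (j : Kg →* H) (hj : Injective j)
    (hfi : j.range.FiniteIndex) (hF : FinSyz Kg) : FinSyz H := by
  classical
  intro a0 a1 εP hε hs d hd
  obtain ⟨εP', d', Φ, hε', hs', hex', hΦ⟩ := restr j hj hfi εP hε hs d hd
  have hfin' : Module.Finite (Zg Kg) (LinearMap.ker d') := hF _ _ εP' hε' hs' d' hex'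
  obtain ⟨T, hT⟩ := hfin'.fg_top
  refine ⟨⟨T.image Φ.symm, ?_⟩⟩
  rw [eq_top_iff]
  intro x _
  have hx : Φ x ∈ Submodule.span (Zg Kg) (T : Set (LinearMap.ker d')) := by rw [hT]; trivial
  have key : ∀ y ∈ Submodule.span (Zg Kg) (T : Set (LinearMap.ker d')),
      Φ.symm y ∈ Submodule.span (Zg H) ((T.image Φ.symm : Finset (LinearMap.ker d)) :
        Set (LinearMap.ker d)) := by
    intro y hy
    induction hy using Submodule.span_induction with
    | mem y hy =>
      apply Submodule.subset_span
      rw [Finset.coe_image]
      exact ⟨y, hy, rfl⟩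
    | zero => rw [map_zero]; exact zero_mem _
    | add y z _ _ hy hz => rw [map_add]; exact add_mem hy hz
    | smul r y _ hy =>
      induction r using Zg.ind with
      | h0 => rw [zero_smul, map_zero]; exact zero_mem _
      | hel u =>
        have h1 : Φ.symm (el u • y) = el (j u) • Φ.symm y := by
          apply Φ.injective
          rw [Φ.apply_symm_apply, hΦ, Φ.apply_symm_apply]
        rw [h1]
        exact Submodule.smul_mem _ _ hy
      | hadd a b ha hb => rw [add_smul, map_add]; exact add_mem ha hb
      | hneg a ha => rw [neg_smul, map_neg]; exact neg_mem ha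
  have := key _ hx
  rwa [Φ.symm_apply_apply] at this

/-- Finite groups. -/
theorem finSyz_finite (H : Type u) [Group H] [Finite H] : FinSyz H := by
  intro a0 a1 εP hε hs d hd
  have h1 : Module.Finite ℤ (Zg H) := by
    have e : Zg H ≃ₗ[ℤ] (H →₀ ℤ) := MonoidAlgebra.coeffAddEquiv.toIntLinearEquiv
    exact Module.Finite.equiv e.symm
  have h2 : IsNoetherian ℤ (Fin a1 → Zg H) := inferInstance
  have h3 : IsNoetherian (Zg H) (Fin a1 → Zg H) := isNoetherian_of_tower ℤ h2
  exact Module.IsNoetherian.finite (Zg H) (LinearMap.ker d)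

/-- Type FP, with dimension at most 2, from the finiteness over a subgroup of finite index. -/
theorem fp_virt {G : Type u} [Group G] (hG : IsPD3 G) (H : Subgroup G) (hfg : H.FG)
    (hidx : H.index = 0) (H0 : Subgroup H) (hH0 : H0.FiniteIndex)
    (hF : ∀ (R : Res G) (w : G →* ℤˣ),
      (∀ (x : G) (f : R.Q3 →ₗ[Zg G] Zg G), R.e (tw w x f) = R.e f) →
      ∀ K : Subgroup G, Infinite K → Infinite (G ⧸ K) → (∀ k : K, w k = 1) →
      (∃ c : K →* H0, Injective c) → FinSyz K) : IsFP2 H := by
  classical
  have hFG : Group.FG H := (Group.fg_iff_subgroup_fg H).mpr hfg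
  obtain ⟨R⟩ := hG
  obtain ⟨w, hw⟩ := exists_w R
  have hQ := infinite_quot H hidx
  obtain ⟨n, d, hd⟩ := aug_presentation H hFG
  obtain ⟨hε, hs⟩ := aug1_props H
  have hproj : Module.Projective (Zg H) (LinearMap.ker d) := syz R H hQ _ hε hs d hd
  have hFin : FinSyz H := by
    by_cases hH : Infinite H
    · let N0 : Subgroup H := H0.normalCore ⊓ (w.comp H.subtype).ker
      have hNf : N0.FiniteIndex := inferInstance
      let Kg : Subgroup G := N0.map H.subtype
      have hKgH : Kg ≤ H := Subgroup.map_subtype_le N0
      let j : Kg →* H := Subgroup.inclusion hKgH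
      have hj : Injective j := Subgroup.inclusion_injective hKgH
      let σ : N0 ≃* Kg := N0.equivMapOfInjective H.subtype H.subtype_injective
      have hσ : ∀ u : N0, j (σ u) = (u : H) := by
        intro u
        apply Subtype.ext
        rfl
      have hjN : ∀ u : Kg, j u ∈ N0 := by
        intro u
        obtain ⟨v, rfl⟩ := σ.surjective u
        rw [hσ]
        exact v.2
      have hjr : j.range = N0 := by
        ext u
        constructor
        · rintro ⟨v, rfl⟩; exact hjN v
        · intro hu; exact ⟨σ ⟨u, hu⟩, hσ ⟨u, hu⟩⟩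
      have hfi : j.range.FiniteIndex := by rw [hjr]; exact hNf
      have hQ' : Infinite (G ⧸ Kg) := by
        apply infinite_quot
        have := Subgroup.index_dvd_of_le hKgH
        rw [hidx] at this
        exact zero_dvd_iff.mp this
      have hwK : ∀ u : Kg, w u = 1 := fun u => (hjN u).2
      let c : Kg →* H0 :=
        { toFun := fun u => ⟨j u, Subgroup.normalCore_le H0 (hjN u).1⟩
          map_one' := by ext; simp
          map_mul' := by intro u v; ext; simp }
      have hc : Injective c := by
        intro u v huv
        apply hj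
        exact congrArg (fun z : H0 => (z : H)) huv
      have hNinf : Infinite N0 := by
        by_contra hc
        rw [not_infinite_iff_finite] at hc
        exact not_finite_iff_infinite.mpr hH (Finite.of_subgroup_quotient N0)
      have hKinf : Infinite Kg := Infinite.of_injective σ σ.injective
      exact fin_of_sub j hj hfi (hF R w hw Kg hKinf hQ' hwK ⟨c, hc⟩)
    · rw [not_infinite_iff_finite] at hH
      exact finSyz_finite H
  have hfin : Module.Finite (Zg H) (LinearMap.ker d) := hFin _ _ _ hε hs d hd
  exact ⟨{ P0 := Fin 1 → Zg H, P1 := Fin n → Zg H, P2 := LinearMap.ker d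
           ε := _, d1 := d, d2 := (LinearMap.ker d).subtype
           ε_el := hε, ε_surj := hs, ex0 := hd
           ex1 := by
             intro q
             constructor
             · intro h; exact ⟨⟨q, h⟩, rfl⟩
             · rintro ⟨r, rfl⟩; exact r.2
           inj2 := Subtype.val_injective }⟩

/-- Type FP from a noetherian representation of a subgroup of finite index. -/
theorem mainE {G : Type u} [Group G] (hG : IsPD3 G) (H : Subgroup G) (hfg : H.FG)
    (hidx : H.index = 0) (H0 : Subgroup H) (hH0 : H0.FiniteIndex)
    {Λ M : Type*} [Ring Λ] [AddCommGroup M] [Module Λ M] [IsNoetherian Λ M]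
    (L : H0 →* Module.End Λ M) (hfaith : ∀ y : Zg H0, (∀ m, actR L y m = 0) → y = 0)
    (hinv : ∀ K : Subgroup H0, Infinite K → ∀ m : M, (∀ k ∈ K, L k m = m) → m = 0) :
    IsFP2 H := by
  refine fp_virt hG H hfg hidx H0 hH0 ?_
  rintro R w hw K hKi hQK hwK ⟨c, hc⟩
  exact finSyz_rep R K hQK c hc L hfaith hinv

end PDT
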