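import Pool.Agent.Lib.PDT.Base
import Pool.Agent.Lib.PDT.Def

/-!
# PDT/ResOf: a PD(3)-group has a resolution of length 3 as in `Res`

The cokernels `C_i = Q_i ⧸ range (d_i)` are projective for `i ≥ 3` (descending induction), and
`0 → C_3 → Q_2 → Q_1 → Q_0 → ℤ → 0` is the resolution.
-/

namespace PDT

open Function

universe u

section ResOf

variable {G : Type u} [Group G] (R : FPRes G)

/-- The cokernel of `d i`. -/
private abbrev ResOfC (i : ℕ) : Type u := R.Q i ⧸ LinearMap.range (R.d i)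

private theorem ResOf_le (i : ℕ) : LinearMap.range (R.d (i + 1)) ≤ LinearMap.ker (R.d i) := by
  rintro _ ⟨r, rfl⟩
  rw [LinearMap.mem_ker, R.ex]
  exact ⟨r, rfl⟩

/-- The map `C_{i+1} → Q_i` induced by `d i`. -/
private noncomputable def ResOfD (i : ℕ) : ResOfC R (i + 1) →ₗ[Zg G] R.Q i :=
  (LinearMap.range (R.d (i + 1))).liftQ (R.d i) (ResOf_le R i)

private theorem ResOfD_mk (i : ℕ) (q : R.Q (i + 1)) :
    ResOfD R i (Submodule.Quotient.mk q) = R.d i q := rfl

private theorem ResOfD_comp (i : ℕ) :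
    ResOfD R i ∘ₗ (LinearMap.range (R.d (i + 1))).mkQ = R.d i := by
  ext q
  rfl

private theorem ResOfD_inj (i : ℕ) : Injective (ResOfD R i) := by
  rw [injective_iff_map_eq_zero]
  intro c hc
  obtain ⟨q, rfl⟩ := Submodule.Quotient.mk_surjective _ c
  rw [ResOfD_mk, R.ex] at hc
  rw [Submodule.Quotient.mk_eq_zero]
  exact hc

private theorem ResOf_proj (h : ∀ i, i ≠ 3 → coc R i ≤ cob R i) :
    ∀ j i : ℕ, 3 ≤ i → R.len < i + j → Module.Projective (Zg G) (ResOfC R i) := by
  intro j
  induction j with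
  | zero =>
    intro i _ hi
    have := R.triv i (by simpa using hi)
    have : Subsingleton (ResOfC R i) := (Submodule.Quotient.mk_surjective _).subsingleton
    have : Module.Free (Zg G) (ResOfC R i) := Module.Free.of_subsingleton _ _
    infer_instance
  | succ j ih =>
    intro i h3 hi
    have : Module.Projective (Zg G) (ResOfC R (i + 1)) := ih (i + 1) (by omega) (by omega)
    obtain ⟨n, e, φ, hq⟩ := dualBasis (G := G) (ResOfC R (i + 1))
    have hk : ∀ k, ∃ hh : R.Q i →ₗ[Zg G] Zg G,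
        φ k ∘ₗ (LinearMap.range (R.d (i + 1))).mkQ = hh ∘ₗ R.d i := by
      intro k
      have h1 : φ k ∘ₗ (LinearMap.range (R.d (i + 1))).mkQ ∈ coc R (i + 1) := by
        change (φ k ∘ₗ (LinearMap.range (R.d (i + 1))).mkQ) ∘ₗ R.d (i + 1) = 0
        ext q
        have h2 : (LinearMap.range (R.d (i + 1))).mkQ (R.d (i + 1) q) = 0 := by
          rw [Submodule.mkQ_apply, Submodule.Quotient.mk_eq_zero]
          exact ⟨q, rfl⟩
        simp only [LinearMap.comp_apply, h2, map_zero, LinearMap.zero_apply]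
      exact h (i + 1) (by omega) h1
    choose hh hhk using hk
    set r : R.Q i →ₗ[Zg G] ResOfC R (i + 1) := ∑ k, (hh k).smulRight (e k) with hr
    have hrd : ∀ q : R.Q (i + 1), r (R.d i q) = Submodule.Quotient.mk q := by
      intro q
      rw [hq (Submodule.Quotient.mk q), hr, LinearMap.sum_apply]
      refine Finset.sum_congr rfl fun k _ => ?_
      have := DFunLike.congr_fun (hhk k) q
      simp only [LinearMap.comp_apply, Submodule.mkQ_apply] at this
      rw [LinearMap.smulRight_apply, ← this]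
    set s : ResOfC R i →ₗ[Zg G] R.Q i :=
      (LinearMap.range (R.d i)).liftQ (LinearMap.id - ResOfD R i ∘ₗ r) (by
        rintro _ ⟨q, rfl⟩
        rw [LinearMap.mem_ker, LinearMap.sub_apply, LinearMap.comp_apply, hrd, ResOfD_mk,
          LinearMap.id_apply, sub_self]) with hs
    refine Module.Projective.of_split s (LinearMap.range (R.d i)).mkQ ?_
    apply LinearMap.ext
    intro c
    obtain ⟨q, rfl⟩ := Submodule.Quotient.mk_surjective _ c
    obtain ⟨q', hq'⟩ := Submodule.Quotient.mk_surjective _ (r q)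
    have h1 : s (Submodule.Quotient.mk q) = q - ResOfD R i (r q) := rfl
    rw [LinearMap.comp_apply, h1, LinearMap.id_apply, Submodule.mkQ_apply, ← hq', ResOfD_mk,
      Submodule.Quotient.eq]
    have : q - R.d i q' - q = R.d i (-q') := by
      rw [map_neg]; abel
    rw [this]
    exact ⟨-q', rfl⟩

/-- Functionals of `C_3` as cocycles. -/
private noncomputable def ResOfK : (ResOfC R 3 →ₗ[Zg G] Zg G) →+ coc R 3 where
  toFun f := ⟨f ∘ₗ (LinearMap.range (R.d 3)).mkQ, by
    change (f ∘ₗ (LinearMap.range (R.d 3)).mkQ) ∘ₗ R.d 3 = 0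
    ext q
    have h2 : (LinearMap.range (R.d 3)).mkQ (R.d 3 q) = 0 := by
      rw [Submodule.mkQ_apply, Submodule.Quotient.mk_eq_zero]
      exact ⟨q, rfl⟩
    simp only [LinearMap.comp_apply, h2, map_zero, LinearMap.zero_apply]⟩
  map_zero' := by
    apply Subtype.ext
    exact LinearMap.zero_comp _
  map_add' a b := by
    apply Subtype.ext
    exact LinearMap.add_comp _ _ _

private theorem ResOfK_coe (f : ResOfC R 3 →ₗ[Zg G] Zg G) :
    (ResOfK R f : R.Q 3 →ₗ[Zg G] Zg G) = f ∘ₗ (LinearMap.range (R.d 3)).mkQ := rfl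

private theorem ResOfK_surj : Surjective (ResOfK R) := by
  rintro ⟨f, hf⟩
  have hf' : f ∘ₗ R.d 3 = 0 := hf
  refine ⟨(LinearMap.range (R.d 3)).liftQ f ?_, ?_⟩
  · rintro _ ⟨q, rfl⟩
    exact DFunLike.congr_fun hf' q
  · apply Subtype.ext
    rw [ResOfK_coe]
    ext q
    rfl

end ResOf

theorem isPD3_of {G : Type u} [Group G] (h : IsPD 3 G) : IsPD3 G := by
  obtain ⟨R, h, ⟨E⟩⟩ := h
  have : Module.Projective (Zg G) (ResOfC R 3) := ResOf_proj R h (R.len + 1) 3 le_rfl (by omega)
  refine ⟨{ Q0 := R.Q 0, Q1 := R.Q 1, Q2 := R.Q 2, Q3 := ResOfC R 3,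
            ε := R.ε, d1 := R.d 0, d2 := R.d 1, d3 := ResOfD R 2,
            ε_el := R.ε_el, ε_surj := R.ε_surj, ex0 := R.ex0, ex1 := R.ex 0,
            ex2 := ?_, inj3 := ResOfD_inj R 2, dual0 := ?_, dual1 := ?_, dual2 := ?_,
            e := E.toAddMonoidHom.comp ((QuotientAddGroup.mk' _).comp (ResOfK R)),
            e_surj := ?_, e_ker := ?_ }⟩
  · intro q
    rw [R.ex 1 q]
    constructor
    · rintro ⟨r, rfl⟩
      exact ⟨Submodule.Quotient.mk r, rfl⟩
    · rintro ⟨c, rfl⟩
      obtain ⟨r, rfl⟩ := Submodule.Quotient.mk_surjective _ c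
      exact ⟨r, rfl⟩
  · intro f hf
    have : f ∈ cob R 0 := h 0 (by norm_num) hf
    exact this
  · intro f hf
    exact h 1 (by norm_num) hf
  · intro f hf
    refine h 2 (by norm_num) ?_
    change f ∘ₗ R.d 2 = 0
    rw [← ResOfD_comp R 2, ← LinearMap.comp_assoc, hf, LinearMap.zero_comp]
  · exact E.surjective.comp ((QuotientAddGroup.mk'_surjective _).comp (ResOfK_surj R))
  · intro f
    have h1 : E.toAddMonoidHom.comp ((QuotientAddGroup.mk' _).comp (ResOfK R)) f =
        E (QuotientAddGroup.mk (ResOfK R f)) := rfl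
    rw [h1, EmbeddingLike.map_eq_zero_iff, QuotientAddGroup.eq_zero_iff,
      AddSubgroup.mem_addSubgroupOf, ResOfK_coe]
    constructor
    · rintro ⟨hh, hhe⟩
      refine ⟨hh, ?_⟩
      apply LinearMap.ext
      intro c
      obtain ⟨q, rfl⟩ := Submodule.Quotient.mk_surjective _ c
      exact DFunLike.congr_fun hhe q
    · rintro ⟨hh, rfl⟩
      refine ⟨hh, ?_⟩
      rw [LinearMap.comp_assoc, ResOfD_comp]

end PDT
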