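import Pool.Agent.Lib.PDT.Bridge
import Pool.Agent.Lib.PDT.MainE
import Pool.Agent.Lib.PDT.ResOf
import Pool.Agent.Lib.PDT.FPOf
import Pool.Agent.Lib.PDT.FPFin

/-!
# PDT/Bridge2: the theorems in terms of the statement file `PDT/Stmt`
-/

namespace PDT

open Function

universe u v

theorem resP_of {p : ℕ} (hp : p.Prime) {K : Type*} [Group K] (h : PDS.ResiduallyP p K) :
    ResP p K := by
  intro k hk
  obtain ⟨N, hN, ⟨n, hn⟩, hkN⟩ := h k hk
  refine ⟨N, ⟨hN, ⟨by rw [hn]; exact pow_ne_zero _ hp.ne_zero⟩, fun x => ⟨n, ?_⟩⟩, hkN⟩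
  rw [← hn]
  exact Subgroup.pow_index_mem N x

theorem of_resP {p : ℕ} (hp : p.Prime) {K : Type*} [Group K] (h : ResP p K) :
    PDS.ResiduallyP p K := by
  intro k hk
  obtain ⟨N, ⟨hN, hNf, hNp⟩, hkN⟩ := h k hk
  refine ⟨N, hN, ?_, hkN⟩
  have : Fact p.Prime := ⟨hp⟩
  have hG : IsPGroup p (K ⧸ N) := by
    intro x
    induction x using QuotientGroup.induction_on with
    | H y =>
      obtain ⟨n, hn⟩ := hNp y
      exact ⟨n, by rw [← QuotientGroup.mk_pow]; exact (QuotientGroup.eq_one_iff _).2 hn⟩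
  exact (IsPGroup.iff_card.1 hG)

/-- The restriction of a subgroup of finite index to another subgroup. -/
theorem exists_sub {G : Type*} [Group G] (G0 H : Subgroup G) :
    ∃ c : (G0.subgroupOf H) →* G0, Injective c :=
  ⟨{ toFun := fun x => ⟨x.1.1, x.2⟩
     map_one' := rfl
     map_mul' := fun _ _ => rfl }, by
    intro x y hxy
    apply Subtype.ext
    apply Subtype.ext
    exact congrArg (fun z : G0 => (z : G)) hxy⟩

theorem virtResP_sub {G : Type*} [Group G] (h : PDS.VirtuallyResP G) (H : Subgroup G) :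
    PDS.VirtuallyResP H := by
  obtain ⟨p, G0, hp, hG0, hres⟩ := h
  obtain ⟨c, hc⟩ := exists_sub G0 H
  exact ⟨p, G0.subgroupOf H, hp, inferInstance,
    of_resP hp (resP_of_injective c hc (resP_of hp hres))⟩

/-- Type FP in the sense of the statement file. -/
theorem fpRes_of' {H : Type u} [Group H] (h : IsFP2 H) : ∃ R : PDS.FPRes H, R.len ≤ 2 := by
  obtain ⟨R, hR⟩ := fpRes_of h
  exact ⟨ofPDT R, hR⟩

theorem fpRes_fin {G : Type u} [Group G] (R : PDS.FPRes G) (H : Subgroup G)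
    (hidx : H.index ≠ 0) : Nonempty (PDS.FPRes H) := by
  have : H.FiniteIndex := ⟨hidx⟩
  obtain ⟨R', -⟩ := fpRes_finiteIndex (toPDT R) H this
  exact ⟨ofPDT R'⟩

/-- Coherence from the finiteness theorem for subgroups of infinite index. -/
theorem fpRes_all {G : Type u} [Group G] (hG : PDS.IsPD 3 G) (H : Subgroup G)
    (h : H.index = 0 → ∃ R : PDS.FPRes H, R.len ≤ 2) : Nonempty (PDS.FPRes H) := by
  by_cases hidx : H.index = 0
  · obtain ⟨R, -⟩ := h hidx
    exact ⟨R⟩
  · obtain ⟨R, -⟩ := hG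
    exact fpRes_fin R H hidx

end PDT
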