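import Pool.Agent.Lib.PDT.Base

/-!
# PDT/LiftP: equivariant maps out of a projective ℤ[H]-module can be lifted

`X, Y` are abelian groups with actions `a, b` of `H` by endomorphisms.

Complete proof.  Section: `Module.Projective.out` (or `Module.projective_lifting_property` for
`Finsupp.linearCombination (Zg H) id : (P →₀ Zg H) → P`) gives a linear `s : P → (P →₀ Zg H)` with
`Σ_i s(p)_i • i = p`.  For every `i : P` choose `x_i` with `π x_i = f i`.  For `y : Zg H` and `x : X`
let `y * x := zl (fun h => a h x) y` (additive in `y` and in `x`, `(el h * y) * x = a h (y * x)`,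
`π (y * x) = zl (fun h => b h (π x)) y`).  Put `f' p = (s p).sum (fun i y => zl (fun h => a h x_i) y)`.
It is additive (`Finsupp.sum_add_index'`), `f' (el h • p) = a h (f' p)`
(`s (el h • p) = el h • s p`; check on singles or use `Finsupp.sum_smul_index'`), and
`π (f' p) = Σ_i zl (fun h => b h (f i)) (s(p)_i) = Σ_i f (s(p)_i • i) = f p`, where
`zl (fun h => b h (f i)) y = f (y • i)` by `zhom_ext` and `hf`.
(Alternatively: `letI` module structures on `X` and `Y` from `MonoidAlgebra.lift` and
`Module.projective_lifting_property` onto the range of `π`.)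
-/

namespace PDT

open Function

private theorem liftP_lin {H A B : Type*} [Group H] [AddCommGroup A] [AddCommGroup B]
    [Module (Zg H) A] [Module (Zg H) B] (g : A →+ B)
    (hg : ∀ (h : H) (x : A), g (el h • x) = el h • g x) (y : Zg H) :
    ∀ x : A, g (y • x) = y • g x := by
  refine Zg.ind (P := fun y => ∀ x : A, g (y • x) = y • g x) y ?_ ?_ ?_ ?_
  · intro x
    rw [zero_smul, zero_smul, map_zero]
  · intro h x
    exact hg h x
  · intro y z hy hz x
    rw [add_smul, add_smul, map_add, hy, hz]
  · intro y hy x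
    rw [neg_smul, neg_smul, map_neg, hy]

theorem lift_P {H : Type*} [Group H] {P X Y : Type*} [AddCommGroup P] [Module (Zg H) P]
    [Module.Projective (Zg H) P] [AddCommGroup X] [AddCommGroup Y] (a : H →* AddMonoid.End X)
    (b : H →* AddMonoid.End Y) (π : X →+ Y) (hπ : ∀ h x, π (a h x) = b h (π x)) (f : P →+ Y)
    (hf : ∀ (h : H) (p : P), f (el h • p) = b h (f p)) (hr : ∀ p, ∃ x, π x = f p) :
    ∃ f' : P →+ X, (∀ (h : H) (p : P), f' (el h • p) = a h (f' p)) ∧ ∀ p, π (f' p) = f p := by
  letI mX : Module (Zg H) X :=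
    Module.compHom X ((MonoidAlgebra.lift ℤ (AddMonoid.End X) H) a).toRingHom
  letI mY : Module (Zg H) Y :=
    Module.compHom Y ((MonoidAlgebra.lift ℤ (AddMonoid.End Y) H) b).toRingHom
  have hX : ∀ (h : H) (x : X), (el h : Zg H) • x = a h x := by
    intro h x
    change ((MonoidAlgebra.lift ℤ (AddMonoid.End X) H) a (el h)) x = a h x
    rw [el, MonoidAlgebra.lift_single, one_smul]
  have hY : ∀ (h : H) (y : Y), (el h : Zg H) • y = b h y := by
    intro h y
    change ((MonoidAlgebra.lift ℤ (AddMonoid.End Y) H) b (el h)) y = b h y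
    rw [el, MonoidAlgebra.lift_single, one_smul]
  let πL : X →ₗ[Zg H] Y :=
    { toFun := π
      map_add' := π.map_add
      map_smul' := fun y x => liftP_lin π (fun h x => by rw [hX, hY, hπ]) y x }
  let fL : P →ₗ[Zg H] Y :=
    { toFun := f
      map_add' := f.map_add
      map_smul' := fun y x => liftP_lin f (fun h x => by rw [hY, hf]) y x }
  have hmem : ∀ p, fL p ∈ LinearMap.range πL := by
    intro p
    obtain ⟨x, hx⟩ := hr p
    exact ⟨x, hx⟩
  obtain ⟨g, hg⟩ := Module.projective_lifting_property πL.rangeRestrict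
    (fL.codRestrict (LinearMap.range πL) hmem) πL.surjective_rangeRestrict
  refine ⟨g.toAddMonoidHom, fun h p => ?_, fun p => ?_⟩
  · change g (el h • p) = a h (g p)
    rw [map_smul, hX]
  · have h1 := congrArg Subtype.val (LinearMap.congr_fun hg p)
    exact h1

end PDT
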