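import Pool.Agent.Lib.PDT.Base
import Pool.Agent.Lib.PDT.LiftP

/-!
# PDT/ChainQ: a chain map from a resolution over ℤ[H] to the resolution over ℤ[G]

`P1 → P0 → ℤ → 0` exact, `P0, P1` projective over `ℤ[H]`, `H ≤ G`.

Complete proof.  `l0`: apply `lift_P` with `X = R.Q0`, action `(acHom R.Q0).comp H.subtype`,
`Y = ℤ` with the trivial action (`1 : H →* AddMonoid.End ℤ`), `π = R.ε`, `f = εP`
(`R.ε_el`, `hε`, `R.ε_surj`).  `l1`: apply `lift_P` with `X = R.Q1`, `Y = R.Q0`, `π = R.d1`,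
`f = l0 ∘ d`; its values are in the range of `d1` by `R.ex0`, since
`R.ε (l0 (d p)) = εP (d p) = 0` (`hex`).
-/

namespace PDT

open Function

universe u

theorem chain_to_Q {G : Type u} [Group G] (R : Res G) (H : Subgroup G) {P0 P1 : Type*}
    [AddCommGroup P0] [AddCommGroup P1] [Module (Zg H) P0] [Module (Zg H) P1]
    [Module.Projective (Zg H) P0] [Module.Projective (Zg H) P1] (εP : P0 →+ ℤ)
    (hε : ∀ (h : H) (p : P0), εP (el h • p) = εP p) (d : P1 →ₗ[Zg H] P0)
    (hex : ∀ p : P0, εP p = 0 ↔ ∃ q, d q = p) :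
    ∃ (l0 : P0 →+ R.Q0) (l1 : P1 →+ R.Q1),
      (∀ (h : H) (p : P0), l0 (el h • p) = el (h : G) • l0 p) ∧
      (∀ (h : H) (p : P1), l1 (el h • p) = el (h : G) • l1 p) ∧
      (∀ p, R.ε (l0 p) = εP p) ∧ (∀ p, R.d1 (l1 p) = l0 (d p)) := by
  obtain ⟨l0, h0, h0'⟩ := lift_P (H := H) ((acHom R.Q0).comp H.subtype)
    (1 : H →* AddMonoid.End ℤ) R.ε
    (fun h x => by
      change R.ε (el (h : G) • x) = R.ε x
      exact R.ε_el _ _)
    εP (fun h p => by
      change εP (el h • p) = εP p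
      exact hε h p)
    (fun p => R.ε_surj (εP p))
  have h0'' : ∀ (h : H) (p : P0), l0 (el h • p) = el (h : G) • l0 p := fun h p => h0 h p
  obtain ⟨l1, h1, h1'⟩ := lift_P (H := H) ((acHom R.Q1).comp H.subtype)
    ((acHom R.Q0).comp H.subtype) R.d1.toAddMonoidHom
    (fun h x => by
      change R.d1 (el (h : G) • x) = el (h : G) • R.d1 x
      exact map_smul _ _ _)
    (l0.comp d.toAddMonoidHom) (fun h p => by
      change l0 (d (el h • p)) = el (h : G) • l0 (d p)
      rw [map_smul, h0''])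
    (fun p => by
      have e : R.ε (l0 (d p)) = 0 := by
        rw [h0']
        exact (hex _).2 ⟨p, rfl⟩
      exact (R.ex0 _).1 e)
  exact ⟨l0, l1, h0'', fun h p => h1 h p, h0', fun p => h1' p⟩

end PDT
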