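import Pool.Agent.Lib.PDT.Base5

/-!
# PDT/LiftV: equivariant maps out of the dual of a projective ℤ[K]-module can be lifted

Complete proof.  By `dualBasis Q`: `q = Σ_i f_i(q) • e_i`, so `r = Σ_i rm f_i (r e_i)` for every functional `r`
(evaluate at `q`).  `rm f_i (el k) = dl k⁻¹ f_i`, so `f (rm f_i y) = zl (fun k => b k⁻¹ (f f_i)) y` for
`y : Zg K` (`zhom_ext`; both sides additive in `y`), and `f r = Σ_i zl (fun k => b k⁻¹ (f f_i)) (r e_i)`.
Choose `x_i` with `π x_i = f f_i` and put `f' r = Σ_i zl (fun k => a k⁻¹ x_i) (r e_i)`.  Equivariance: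
`(dl k r) e_i = r e_i * el k⁻¹` and `zl (fun j => a j⁻¹ x) (y * el k⁻¹) = a k (zl (fun j => a j⁻¹ x) y)` (additive in `y`; for
`y = el j`: `a (j k⁻¹)⁻¹ x = a k (a j⁻¹ x)`).  `π (f' r) = f r` by `hπ`.
-/

namespace PDT

open Function

theorem lift_V {K : Type*} [Group K] {Q : Type*} [AddCommGroup Q] [Module (Zg K) Q]
    [Module.Finite (Zg K) Q] [Module.Projective (Zg K) Q] {X Y : Type*} [AddCommGroup X]
    [AddCommGroup Y] (a : K →* AddMonoid.End X) (b : K →* AddMonoid.End Y) (π : X →+ Y)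
    (hπ : ∀ k x, π (a k x) = b k (π x)) (f : (Q →ₗ[Zg K] Zg K) →+ Y)
    (hf : ∀ k r, f (dl k r) = b k (f r)) (hr : ∀ r, ∃ x, π x = f r) :
    ∃ f' : (Q →ₗ[Zg K] Zg K) →+ X, (∀ k r, f' (dl k r) = a k (f' r)) ∧ ∀ r, π (f' r) = f r := by
  obtain ⟨n, e, φ, hφ⟩ := dualBasis (G := K) Q
  have hrep : ∀ r : Q →ₗ[Zg K] Zg K, r = ∑ i, rm (φ i) (r (e i)) := by
    intro r
    apply LinearMap.ext
    intro q
    rw [LinearMap.sum_apply]
    conv_lhs => rw [hφ q]
    rw [map_sum]
    exact Finset.sum_congr rfl fun i _ => by rw [map_smul, smul_eq_mul, rm_apply]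
  have hex : ∀ i : Fin n, ∃ x, π x = f (φ i) := fun i => hr (φ i)
  choose x hx using hex
  have hamul : ∀ (k j : K) (z : X), a (k * j) z = a k (a j z) := by
    intro k j z
    rw [map_mul]
    rfl
  have hel : ∀ (i : Fin n) (k : K), f (rm (φ i) (el k)) = b k⁻¹ (f (φ i)) := by
    intro i k
    rw [← hf]
    congr 1
    apply LinearMap.ext
    intro q
    rw [dl_apply, rm_apply, inv_inv]
  have hz1 : ∀ (i : Fin n) (k : K) (y : Zg K),
      zl (fun j => a j⁻¹ (x i)) (y * el k⁻¹) = a k (zl (fun j => a j⁻¹ (x i)) y) := by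
    intro i k y
    induction y using Zg.ind with
    | h0 => rw [zero_mul, map_zero, map_zero]
    | hel j => rw [← el_mul, zl_el, zl_el, mul_inv_rev, inv_inv, hamul]
    | hadd x y hx hy => rw [add_mul, map_add, hx, hy, map_add, map_add]
    | hneg x hx => rw [neg_mul, map_neg, hx, map_neg, map_neg]
  have hz2 : ∀ (i : Fin n) (y : Zg K),
      π (zl (fun j => a j⁻¹ (x i)) y) = f (rm (φ i) y) := by
    intro i y
    induction y using Zg.ind with
    | h0 =>
      have h1 : rm (φ i) (0 : Zg K) = 0 := by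
        apply LinearMap.ext
        intro q
        simp
      rw [h1, map_zero, map_zero, map_zero]
    | hel k => rw [zl_el, hπ, hx, hel]
    | hadd x y hx hy =>
      have h1 : rm (φ i) (x + y) = rm (φ i) x + rm (φ i) y := by
        apply LinearMap.ext
        intro q
        simp [mul_add]
      rw [h1, map_add, map_add, hx, hy, map_add]
    | hneg x hx =>
      have h1 : rm (φ i) (-x) = -rm (φ i) x := by
        apply LinearMap.ext
        intro q
        simp
      rw [h1, map_neg, map_neg, hx, map_neg]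
  refine ⟨{ toFun := fun r => ∑ i, zl (fun j => a j⁻¹ (x i)) (r (e i))
            map_zero' := by simp
            map_add' := fun r s => by
              rw [← Finset.sum_add_distrib]
              exact Finset.sum_congr rfl fun i _ => by rw [LinearMap.add_apply, map_add] }, ?_, ?_⟩
  · intro k r
    show ∑ i, zl (fun j => a j⁻¹ (x i)) (dl k r (e i)) =
      a k (∑ i, zl (fun j => a j⁻¹ (x i)) (r (e i)))
    rw [map_sum]
    refine Finset.sum_congr rfl fun i _ => ?_
    rw [dl_apply, hz1]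
  · intro r
    show π (∑ i, zl (fun j => a j⁻¹ (x i)) (r (e i))) = f r
    conv_rhs => rw [hrep r]
    rw [map_sum, map_sum]
    exact Finset.sum_congr rfl fun i _ => hz2 i _

end PDT
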