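import Pool.Agent.Lib.PDT.Base5
import Pool.Agent.Lib.PDT.LiftV

/-!
# PDT/ChainV: lifting the diagonal map of a permutation module

`P2 → P1 → P0` with dual exactness, `θ : P2* → ℤ[X]` onto with kernel the image of `P1*`.  The diagonal map
`φ : ℤ[X] → (X →₀ ℤ[X])`, `x ↦ single x x`, lifts to a chain map `ψ_j : P_j* → (X →₀ P_j*)`.

Complete proof.  For an abelian group `A` with an action `a` of `K`, `K` acts on `X →₀ A` by `(k·F)(x) = a k (F (k⁻¹ • x))`
(a homomorphism `K →* AddMonoid.End (X →₀ A)`; e.g. from `Finsupp.mapRange.addMonoidHom` and `Finsupp.mapDomain`/`Finsupp.domCongr`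
with the permutation `MulAction.toPerm k`).  With `a = ` the action `dl` on `P_j*` and on `ℤ[X] = (X →₀ ℤ)`:
`(k·F)(x) = F (k⁻¹ • x)`.  In this language `hθ` says that `θ` is equivariant.
`ψ2`: `lift_V` for `Q = P2`, the target map `π = Finsupp.mapRange θ : (X →₀ P2*) → (X →₀ (X →₀ ℤ))`,
`f r = φ (θ r)`, `φ(F)(x) = single x (F x)` (a finitely supported function of `x`, additive and equivariant in `F`);
every element of `X →₀ (X →₀ ℤ)` is in the range of `π` (`hθs`, `Finsupp.mapRange_surjective` or a finite choice).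
`ψ1`: `lift_V` for `Q = P1`, `π = mapRange (· ∘ d2) : (X →₀ P1*) → (X →₀ P2*)`, `f r = ψ2 (r ∘ d2)`: its value at `x` is
killed by `θ` (`θ (ψ2 (r ∘ d2) x) = single x (θ (r ∘ d2) x) = 0`) so it is in the range of `· ∘ d2` (`hθk`), for each of the finitely many
`x` in the support.
`ψ0`: `Q = P0`, `π = mapRange (· ∘ d1)`, `f r = ψ1 (r ∘ d1)`: `(ψ1 (r ∘ d1) x) ∘ d2 = ψ2 (r ∘ d1 ∘ d2) x = 0`, so it is in the range of
`· ∘ d1` (`dual1`).
-/

namespace PDT

open Function

/-- The action on finitely supported functions. -/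
private noncomputable def ChainV_act {K : Type*} [Group K] {X : Type*} [MulAction K X] {A : Type*}
    [AddCommGroup A] (a : K →* AddMonoid.End A) : K →* AddMonoid.End (X →₀ A) where
  toFun k := (Finsupp.mapRange.addMonoidHom (a k)).comp
    (Finsupp.domCongr (MulAction.toPerm k : Equiv.Perm X)).toAddMonoidHom
  map_one' := by
    refine AddMonoidHom.ext fun F => Finsupp.ext fun y => ?_
    change (a 1) (F ((1 : K)⁻¹ • y)) = F y
    rw [map_one, inv_one, one_smul]
    rfl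
  map_mul' k l := by
    refine AddMonoidHom.ext fun F => Finsupp.ext fun y => ?_
    change (a (k * l)) (F ((k * l)⁻¹ • y)) = a k (a l (F (l⁻¹ • k⁻¹ • y)))
    rw [map_mul, mul_inv_rev, mul_smul]
    rfl

private theorem ChainV_act_apply {K : Type*} [Group K] {X : Type*} [MulAction K X] {A : Type*}
    [AddCommGroup A] (a : K →* AddMonoid.End A) (k : K) (F : X →₀ A) (x : X) :
    ChainV_act a k F x = a k (F (k⁻¹ • x)) := rfl

/-- The action on functionals. -/
private noncomputable def ChainV_dl (K : Type*) [Group K] (Q : Type*) [AddCommGroup Q]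
    [Module (Zg K) Q] : K →* AddMonoid.End (Q →ₗ[Zg K] Zg K) where
  toFun k := AddMonoidHom.mk' (dl k) (fun f g => dl_add k f g)
  map_one' := AddMonoidHom.ext fun f => dl_one f
  map_mul' k l := AddMonoidHom.ext fun f => dl_mul k l f

private theorem ChainV_dl_apply {K : Type*} [Group K] {Q : Type*} [AddCommGroup Q]
    [Module (Zg K) Q] (k : K) (f : Q →ₗ[Zg K] Zg K) : ChainV_dl K Q k f = dl k f := rfl

/-- Precomposition. -/
private noncomputable def ChainV_co {K : Type*} [Group K] {Q Q' : Type*} [AddCommGroup Q]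
    [Module (Zg K) Q] [AddCommGroup Q'] [Module (Zg K) Q'] (d : Q' →ₗ[Zg K] Q) :
    (Q →ₗ[Zg K] Zg K) →+ (Q' →ₗ[Zg K] Zg K) :=
  AddMonoidHom.mk' (fun f => f ∘ₗ d) (fun _ _ => rfl)

private theorem ChainV_co_apply {K : Type*} [Group K] {Q Q' : Type*} [AddCommGroup Q]
    [Module (Zg K) Q] [AddCommGroup Q'] [Module (Zg K) Q'] (d : Q' →ₗ[Zg K] Q)
    (f : Q →ₗ[Zg K] Zg K) : ChainV_co d f = f ∘ₗ d := rfl

/-- The diagonal map. -/
private noncomputable def ChainV_diag (X : Type*) : (X →₀ ℤ) →+ (X →₀ (X →₀ ℤ)) :=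
  Finsupp.liftAddHom fun x => (Finsupp.singleAddHom x).comp (Finsupp.singleAddHom x)

private theorem ChainV_diag_apply {X : Type*} (F : X →₀ ℤ) (x : X) :
    ChainV_diag X F x = Finsupp.single x (F x) := by
  have h : (Finsupp.applyAddHom x).comp (ChainV_diag X)
      = (Finsupp.singleAddHom x).comp (Finsupp.applyAddHom x) := by
    refine Finsupp.addHom_ext fun y n => ?_
    simp only [AddMonoidHom.coe_comp, Function.comp_apply, Finsupp.applyAddHom_apply,
      Finsupp.singleAddHom_apply, ChainV_diag, Finsupp.liftAddHom_apply_single]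
    by_cases hxy : y = x
    · subst hxy
      simp
    · rw [Finsupp.single_eq_of_ne (Ne.symm hxy), Finsupp.single_eq_of_ne (Ne.symm hxy),
        Finsupp.single_zero]
  exact DFunLike.congr_fun h F

private theorem ChainV_range {X A B : Type*} [AddCommGroup A] [AddCommGroup B] (e : A →+ B)
    (F : X →₀ B) (h : ∀ x, ∃ y, e y = F x) :
    ∃ F' : X →₀ A, Finsupp.mapRange.addMonoidHom e F' = F := by
  classical
  choose g hg using h
  refine ⟨Finsupp.onFinset F.support (fun x => if F x = 0 then 0 else g x) ?_, ?_⟩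
  · intro x hx
    rw [Finsupp.mem_support_iff]
    intro h0
    exact hx (if_pos h0)
  · refine Finsupp.ext fun x => ?_
    rw [Finsupp.mapRange.addMonoidHom_apply, Finsupp.mapRange_apply, Finsupp.onFinset_apply]
    by_cases h0 : F x = 0
    · rw [if_pos h0, map_zero, h0]
    · rw [if_neg h0, hg]

private theorem ChainV_pi {K : Type*} [Group K] {X Q Q' : Type*} [MulAction K X]
    [AddCommGroup Q] [Module (Zg K) Q] [AddCommGroup Q'] [Module (Zg K) Q'] (d : Q' →ₗ[Zg K] Q)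
    (k : K) (F : X →₀ (Q →ₗ[Zg K] Zg K)) :
    Finsupp.mapRange.addMonoidHom (ChainV_co d) (ChainV_act (X := X) (ChainV_dl K Q) k F)
      = ChainV_act (X := X) (ChainV_dl K Q') k
        (Finsupp.mapRange.addMonoidHom (ChainV_co d) F) := by
  refine Finsupp.ext fun x => ?_
  rw [Finsupp.mapRange.addMonoidHom_apply, Finsupp.mapRange_apply, ChainV_act_apply,
    ChainV_dl_apply, ChainV_act_apply, ChainV_dl_apply, Finsupp.mapRange.addMonoidHom_apply,
    Finsupp.mapRange_apply, ChainV_co_apply, ChainV_co_apply, dl_comp]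

theorem chain_V {K : Type*} [Group K] {P0 P1 P2 : Type*} [AddCommGroup P0] [Module (Zg K) P0]
    [AddCommGroup P1] [Module (Zg K) P1] [AddCommGroup P2] [Module (Zg K) P2]
    [Module.Finite (Zg K) P0] [Module.Projective (Zg K) P0]
    [Module.Finite (Zg K) P1] [Module.Projective (Zg K) P1]
    [Module.Finite (Zg K) P2] [Module.Projective (Zg K) P2]
    (d1 : P1 →ₗ[Zg K] P0) (d2 : P2 →ₗ[Zg K] P1) (hdd : ∀ p, d1 (d2 p) = 0)
    (dual1 : ∀ f : P1 →ₗ[Zg K] Zg K, f ∘ₗ d2 = 0 → ∃ h : P0 →ₗ[Zg K] Zg K, f = h ∘ₗ d1)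
    {X : Type*} [MulAction K X] (θ : (P2 →ₗ[Zg K] Zg K) →+ (X →₀ ℤ))
    (hθ : ∀ (k : K) f x, θ (dl k f) (k • x) = θ f x) (hθs : Surjective θ)
    (hθk : ∀ f, θ f = 0 ↔ ∃ f' : P1 →ₗ[Zg K] Zg K, f = f' ∘ₗ d2) :
    ∃ (ψ2 : (P2 →ₗ[Zg K] Zg K) →+ (X →₀ (P2 →ₗ[Zg K] Zg K)))
      (ψ1 : (P1 →ₗ[Zg K] Zg K) →+ (X →₀ (P1 →ₗ[Zg K] Zg K)))
      (ψ0 : (P0 →ₗ[Zg K] Zg K) →+ (X →₀ (P0 →ₗ[Zg K] Zg K))),
      (∀ (k : K) f x, ψ2 (dl k f) (k • x) = dl k (ψ2 f x)) ∧
      (∀ (k : K) f x, ψ1 (dl k f) (k • x) = dl k (ψ1 f x)) ∧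
      (∀ (k : K) f x, ψ0 (dl k f) (k • x) = dl k (ψ0 f x)) ∧
      (∀ (f : P1 →ₗ[Zg K] Zg K) x, ψ2 (f ∘ₗ d2) x = (ψ1 f x) ∘ₗ d2) ∧
      (∀ (f : P0 →ₗ[Zg K] Zg K) x, ψ1 (f ∘ₗ d1) x = (ψ0 f x) ∘ₗ d1) ∧
      (∀ f x, θ (ψ2 f x) = Finsupp.single x (θ f x)) := by
  -- step 2
  have hθ' : ∀ (k : K) f y, θ (dl k f) y = θ f (k⁻¹ • y) := by
    intro k f y
    have h := hθ k f (k⁻¹ • y)
    rwa [smul_inv_smul] at h
  obtain ⟨ψ2, h2a, h2b⟩ := lift_V (ChainV_act (X := X) (ChainV_dl K P2))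
    (ChainV_act (X := X) (ChainV_act (X := X) (1 : K →* AddMonoid.End ℤ)))
    (Finsupp.mapRange.addMonoidHom θ) (by
      intro k F
      refine Finsupp.ext fun x => Finsupp.ext fun y => ?_
      rw [Finsupp.mapRange.addMonoidHom_apply, Finsupp.mapRange_apply, ChainV_act_apply,
        ChainV_dl_apply, ChainV_act_apply, ChainV_act_apply,
        Finsupp.mapRange.addMonoidHom_apply, Finsupp.mapRange_apply, hθ']
      rfl)
    ((ChainV_diag X).comp θ) (by
      intro k r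
      refine Finsupp.ext fun x => Finsupp.ext fun y => ?_
      rw [AddMonoidHom.comp_apply, AddMonoidHom.comp_apply, ChainV_diag_apply, ChainV_act_apply,
        ChainV_act_apply, ChainV_diag_apply, hθ']
      change _ = (Finsupp.single (k⁻¹ • x) ((θ r) (k⁻¹ • x))) (k⁻¹ • y)
      by_cases hxy : y = x
      · subst hxy
        simp
      · rw [Finsupp.single_eq_of_ne hxy, Finsupp.single_eq_of_ne]
        intro h
        exact hxy (smul_left_cancel _ h))
    (fun r => ChainV_range θ _ fun x => hθs _)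
  have h2c : ∀ f x, θ (ψ2 f x) = Finsupp.single x (θ f x) := by
    intro f x
    have h := DFunLike.congr_fun (h2b f) x
    rwa [Finsupp.mapRange.addMonoidHom_apply, Finsupp.mapRange_apply, AddMonoidHom.comp_apply,
      ChainV_diag_apply] at h
  -- step 1
  obtain ⟨ψ1, h1a, h1b⟩ := lift_V (ChainV_act (X := X) (ChainV_dl K P1))
    (ChainV_act (X := X) (ChainV_dl K P2)) (Finsupp.mapRange.addMonoidHom (ChainV_co d2))
    (ChainV_pi d2) (ψ2.comp (ChainV_co d2)) (by
      intro k r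
      rw [AddMonoidHom.comp_apply, AddMonoidHom.comp_apply, ← h2a, ChainV_co_apply,
        ChainV_co_apply, dl_comp])
    (fun r => ChainV_range _ _ fun x => by
      have h0 : θ (r ∘ₗ d2) = 0 := (hθk _).2 ⟨r, rfl⟩
      have h1 : θ (ψ2 (r ∘ₗ d2) x) = 0 := by
        rw [h2c, h0, Finsupp.zero_apply, Finsupp.single_zero]
      obtain ⟨f', hf'⟩ := (hθk _).1 h1
      exact ⟨f', hf'.symm⟩)
  have h1c : ∀ (f : P1 →ₗ[Zg K] Zg K) x, ψ2 (f ∘ₗ d2) x = (ψ1 f x) ∘ₗ d2 := by
    intro f x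
    have h := DFunLike.congr_fun (h1b f) x
    rw [Finsupp.mapRange.addMonoidHom_apply, Finsupp.mapRange_apply, AddMonoidHom.comp_apply,
      ChainV_co_apply, ChainV_co_apply] at h
    exact h.symm
  -- step 0
  obtain ⟨ψ0, h0a, h0b⟩ := lift_V (ChainV_act (X := X) (ChainV_dl K P0))
    (ChainV_act (X := X) (ChainV_dl K P1)) (Finsupp.mapRange.addMonoidHom (ChainV_co d1))
    (ChainV_pi d1) (ψ1.comp (ChainV_co d1)) (by
      intro k r
      rw [AddMonoidHom.comp_apply, AddMonoidHom.comp_apply, ← h1a, ChainV_co_apply,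
        ChainV_co_apply, dl_comp])
    (fun r => ChainV_range _ _ fun x => by
      have h0 : (r ∘ₗ d1) ∘ₗ d2 = 0 := by
        refine LinearMap.ext fun p => ?_
        rw [LinearMap.comp_apply, LinearMap.comp_apply, hdd, map_zero, LinearMap.zero_apply]
      have h1 : (ψ1 (r ∘ₗ d1) x) ∘ₗ d2 = 0 := by
        rw [← h1c, h0, map_zero, Finsupp.zero_apply]
      obtain ⟨f', hf'⟩ := dual1 _ h1
      exact ⟨f', hf'.symm⟩)
  have h0c : ∀ (f : P0 →ₗ[Zg K] Zg K) x, ψ1 (f ∘ₗ d1) x = (ψ0 f x) ∘ₗ d1 := by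
    intro f x
    have h := DFunLike.congr_fun (h0b f) x
    rw [Finsupp.mapRange.addMonoidHom_apply, Finsupp.mapRange_apply, AddMonoidHom.comp_apply,
      ChainV_co_apply, ChainV_co_apply] at h
    exact h.symm
  refine ⟨ψ2, ψ1, ψ0, ?_, ?_, ?_, h1c, h0c, h2c⟩
  · intro k f x
    rw [h2a, ChainV_act_apply, inv_smul_smul, ChainV_dl_apply]
  · intro k f x
    rw [h1a, ChainV_act_apply, inv_smul_smul, ChainV_dl_apply]
  · intro k f x
    rw [h0a, ChainV_act_apply, inv_smul_smul, ChainV_dl_apply]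

end PDT
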