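import Pool.Agent.Lib.PDT.Base4

/-!
# PDT/CobKer: the kernel of the first coboundary with coefficients in the functions on `H ⧸ N`

`d : (Zg H)^a1 → (Zg H)^a0` with image the kernel of `εP`; `M = (H ⧸ N → k)`.

Complete proof.  Put `T = actT (trQ N k) 1`, a ring homomorphism up to order: `actT_mul`.  For
`b : Fin a0 → M` let `bh : (Fin a0 → Zg H) →+ M`, `bh y = Σ_l T(y_l) b_l`.  `bh (y • p) = T(y) (bh p)`
(`actT_mul`).  `cob b = 0` says `bh (d e_k) = 0` for all `k` (`e_k = Pi.single k 1`), so `bh (d x) = 0` for all `x`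
(`x = Σ_k x_k • e_k`), i.e. `bh p = 0` if `εP p = 0`.  Let `e` with `εP e = 1`, `m = bh e`.  For every `p`,
`εP (p - (εP p) • e) = 0`, so `bh p = εP(p) m`.  In particular `b_l = bh (Pi.single l 1) =
εP (Pi.single l 1) • m`.  And `L(h) m = bh (el h • e) = εP (el h • e) m = m`, so `m : H ⧸ N → k` is constant:
`m (h⁻¹ • q) = m q` for all `h`, and `H` acts transitively on `H ⧸ N`; `m = c • 1`.  So every
`b` in the kernel is a multiple of `b⁰`, `b⁰_l = εP (Pi.single l 1) • (fun _ => 1)`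
(`finrank_le_one`).
-/

namespace PDT

open Module Function

private theorem CobKer_smul {H : Type*} [Group H] (N : Subgroup H) (k : Type*) [Field k] {a0 : ℕ}
    (b : Fin a0 → (H ⧸ N) → k) (y : Zg H) (p : Fin a0 → Zg H) :
    ∑ l, actT (trQ N k) 1 ((y • p) l) (b l) =
      actT (trQ N k) 1 y (∑ l, actT (trQ N k) 1 (p l) (b l)) := by
  rw [map_sum]
  refine Finset.sum_congr rfl fun l _ => ?_
  rw [Pi.smul_apply, smul_eq_mul, actT_mul]
  rfl

theorem cob_ker {H : Type*} [Group H] (N : Subgroup H) [N.FiniteIndex] (k : Type*) [Field k]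
    {a0 a1 : ℕ} (εP : (Fin a0 → Zg H) →+ ℤ)
    (hε : ∀ (h : H) (p : Fin a0 → Zg H), εP (el h • p) = εP p) (hs : Surjective εP)
    (d : (Fin a1 → Zg H) →ₗ[Zg H] (Fin a0 → Zg H))
    (hex : ∀ p : Fin a0 → Zg H, εP p = 0 ↔ ∃ q, d q = p)
    (cob : (Fin a0 → (H ⧸ N) → k) →ₗ[k] (Fin a1 → (H ⧸ N) → k))
    (hcob : ∀ b j, cob b j = ∑ l, actT (trQ N k) 1 (d (Pi.single j 1) l) (b l)) :
    finrank k (LinearMap.ker cob) ≤ 1 := by
  classical
  obtain ⟨e, he⟩ := hs 1
  -- the pairing with `p`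
  let bh : (Fin a0 → (H ⧸ N) → k) → (Fin a0 → Zg H) →+ ((H ⧸ N) → k) := fun b =>
    { toFun := fun p => ∑ l, actT (trQ N k) 1 (p l) (b l)
      map_zero' := by simp
      map_add' := fun p p' => by
        simp only [Pi.add_apply, map_add, LinearMap.add_apply, Finset.sum_add_distrib] }
  have hbh : ∀ b p, bh b p = ∑ l, actT (trQ N k) 1 (p l) (b l) := fun _ _ => rfl
  have hsm : ∀ b (y : Zg H) p, bh b (y • p) = actT (trQ N k) 1 y (bh b p) := fun b y p =>
    CobKer_smul N k b y p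
  have hd : ∀ b, cob b = 0 → ∀ x, bh b (d x) = 0 := by
    intro b hb x
    have hx : x = ∑ j, x j • (Pi.single j (1 : Zg H) : Fin a1 → Zg H) := by
      ext1 i
      rw [Finset.sum_apply, Finset.sum_eq_single i]
      · simp
      · intro j _ hj
        simp [hj.symm]
      · simp
    rw [hx, map_sum, map_sum]
    refine Finset.sum_eq_zero fun j _ => ?_
    rw [map_smul, hsm, hbh, ← hcob, hb]
    simp
  have hp : ∀ b, cob b = 0 → ∀ p, bh b p = εP p • bh b e := by
    intro b hb p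
    have h1 : εP (p - εP p • e) = 0 := by
      rw [map_sub, map_zsmul, he]
      simp
    obtain ⟨q, hq⟩ := (hex _).1 h1
    have h2 := hd b hb q
    rw [hq, map_sub, map_zsmul, sub_eq_zero] at h2
    exact h2
  have hconst : ∀ b, cob b = 0 → ∀ g : H, bh b e (QuotientGroup.mk g) =
      bh b e (QuotientGroup.mk 1) := by
    intro b hb g
    have h1 : bh b (el g⁻¹ • e) = bh b e := by
      rw [hp b hb, hε, he, one_smul]
    rw [hsm, actT_el] at h1
    have h2 := congrFun h1 (QuotientGroup.mk 1)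
    have h3 : ((((1 : H →* ℤˣ) g⁻¹ : ℤˣ) : ℤ) • trQ N k g⁻¹) (bh b e) (QuotientGroup.mk 1) =
        bh b e ((g⁻¹)⁻¹ • (QuotientGroup.mk 1 : H ⧸ N)) := by
      rw [MonoidHom.one_apply, Units.val_one, one_smul, trQ_apply]
    rw [h3, inv_inv] at h2
    have h4 : g • (QuotientGroup.mk 1 : H ⧸ N) = QuotientGroup.mk g := by
      change (QuotientGroup.mk (g * 1) : H ⧸ N) = _
      rw [mul_one]
    rw [h4] at h2
    exact h2
  let φ : LinearMap.ker cob →ₗ[k] k :=
    (LinearMap.proj (QuotientGroup.mk 1 : H ⧸ N)) ∘ₗ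
      (∑ l, (actT (trQ N k) 1 (e l)) ∘ₗ LinearMap.proj l) ∘ₗ (LinearMap.ker cob).subtype
  have hφ : ∀ b, φ b = bh (b : Fin a0 → (H ⧸ N) → k) e (QuotientGroup.mk 1) := by
    intro b
    change ((∑ l, (actT (trQ N k) 1 (e l)) ∘ₗ LinearMap.proj l) (b : Fin a0 → (H ⧸ N) → k))
      (QuotientGroup.mk 1) = _
    rw [LinearMap.sum_apply]
    rfl
  have hinj : Injective φ := by
    rw [injective_iff_map_eq_zero]
    intro b hb
    have hb0 : cob (b : Fin a0 → (H ⧸ N) → k) = 0 := b.2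
    rw [hφ] at hb
    have hm : bh (b : Fin a0 → (H ⧸ N) → k) e = 0 := by
      funext q
      obtain ⟨g, rfl⟩ := QuotientGroup.mk_surjective q
      rw [hconst _ hb0, hb]
      rfl
    apply Subtype.ext
    funext l
    have h1 : bh (b : Fin a0 → (H ⧸ N) → k) (Pi.single l 1) = (b : Fin a0 → (H ⧸ N) → k) l := by
      rw [hbh, Finset.sum_eq_single l]
      · rw [Pi.single_eq_same, actT_one]
        rfl
      · intro j _ hj
        rw [Pi.single_eq_of_ne hj, map_zero, LinearMap.zero_apply]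
      · simp
    rw [← h1, hp _ hb0, hm, smul_zero]
    rfl
  have h := LinearMap.finrank_le_finrank_of_injective hinj
  rwa [Module.finrank_self] at h

end PDT
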