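import Pool.Agent.Lib.PDT.Base

/-!
# PDT/DerCo: the derivation of a 1-cocycle of the resolution

`N` any `ℤ[G]`-module, `c : Q1 → N` linear with `c ∘ d2 = 0`, `u : Q0` with `ε u = 1`.

Complete proof.  For `x : G`: `ε (el x • u - u) = 0`, so by `ex0` there is `q_x` with
`d1 q_x = el x • u - u`; put `δ x = c q_x`.  If `d1 q = d1 q'` then `c q = c q'`: `q - q' ∈ ker d1`
is `d2 r` (`ex1`).  This gives the second property.
Derivation: `d1 (q_x + el x • q_y) = el x • u - u + el x • (el y • u - u) = el (x*y) • u - u`.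
Suppose `δ x = el x • ν - ν` for all `x`.  For `q : Q0`, `ε (q - ε(q) • u) = 0`, so choose `k_q : Q1`
with `d1 k_q = q - ε(q) • u`, and put `b q = c k_q + ε(q) • ν`.  By the independence of choices `b`
is additive.  Equivariance: `d1 (el x • k_q + ε(q) • q_x) = el x • q - ε(q) • el x • u +
ε(q) • (el x • u - u) = el x • q - ε(el x • q) • u`, so
`b (el x • q) = el x • c k_q + ε(q) • δ x + ε(q) • ν = el x • c k_q + ε(q) • el x • ν = el x • b q`.
So `b` is `ℤ[G]`-linear (additive + commutes with `el x`; `Zg.ind`).  For `q = d1 r`: `ε q = 0`, and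
`r` is a valid choice of `k_q`, so `b (d1 r) = c r`.
-/

namespace PDT

open Function

universe u

private theorem DerCo_key {G : Type u} [Group G] (R : Res G) {N : Type*} [AddCommGroup N]
    [Module (Zg G) N] (c : R.Q1 →ₗ[Zg G] N) (hc : c ∘ₗ R.d2 = 0) (a b : R.Q1)
    (h : R.d1 a = R.d1 b) : c a = c b := by
  have h1 : R.d1 (a - b) = 0 := by rw [map_sub, h, sub_self]
  obtain ⟨r, hr⟩ := (R.ex1 (a - b)).1 h1
  have h2 : c (a - b) = 0 := by
    rw [← hr]
    exact DFunLike.congr_fun hc r
  rw [map_sub] at h2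
  exact sub_eq_zero.1 h2

private theorem DerCo_lin {G : Type u} [Group G] {Q N : Type*} [AddCommGroup Q]
    [Module (Zg G) Q] [AddCommGroup N] [Module (Zg G) N] (b : Q →+ N)
    (hb : ∀ (x : G) (q : Q), b (el x • q) = el x • b q) (y : Zg G) (q : Q) :
    b (y • q) = y • b q := by
  refine Zg.ind (P := fun y => b (y • q) = y • b q) y ?_ ?_ ?_ ?_
  · show b ((0 : Zg G) • q) = (0 : Zg G) • b q
    rw [zero_smul, zero_smul, map_zero]
  · intro g
    exact hb g q
  · intro x y hx hy
    show b ((x + y) • q) = (x + y) • b q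
    rw [add_smul, add_smul, map_add, hx, hy]
  · intro x hx
    show b ((-x) • q) = (-x) • b q
    rw [neg_smul, neg_smul, map_neg, hx]

theorem der_of_cocycle {G : Type u} [Group G] (R : Res G) {N : Type*} [AddCommGroup N]
    [Module (Zg G) N] (c : R.Q1 →ₗ[Zg G] N) (hc : c ∘ₗ R.d2 = 0) (u : R.Q0) (hu : R.ε u = 1) :
    ∃ δ : G → N, (∀ x y, δ (x * y) = δ x + el x • δ y) ∧
      (∀ x q, R.d1 q = el x • u - u → δ x = c q) ∧
      ((∃ ν : N, ∀ x, δ x = el x • ν - ν) → ∃ b : R.Q0 →ₗ[Zg G] N, c = b ∘ₗ R.d1) := by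
  have key := DerCo_key R c hc
  have h0 : ∀ x : G, R.ε (el x • u - u) = 0 := by
    intro x
    rw [map_sub, R.ε_el, sub_self]
  choose q hq using fun x : G => (R.ex0 (el x • u - u)).1 (h0 x)
  have hder : ∀ x y, c (q (x * y)) = c (q x) + el x • c (q y) := by
    intro x y
    rw [← map_smul, ← map_add]
    apply key
    rw [map_add, map_smul, hq, hq, hq, smul_sub, el_smul_smul]
    abel
  refine ⟨fun x => c (q x), hder, ?_, ?_⟩
  · intro x r hr
    exact key _ _ ((hq x).trans hr.symm)
  · rintro ⟨ν, hν⟩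
    have h1 : ∀ r : R.Q0, R.ε (r - R.ε r • u) = 0 := by
      intro r
      rw [map_sub, map_zsmul, hu, smul_eq_mul, mul_one, sub_self]
    choose k hk using fun r : R.Q0 => (R.ex0 (r - R.ε r • u)).1 (h1 r)
    have hadd : ∀ r s : R.Q0, c (k (r + s)) + R.ε (r + s) • ν =
        (c (k r) + R.ε r • ν) + (c (k s) + R.ε s • ν) := by
      intro r s
      have h2 : c (k (r + s)) = c (k r + k s) := by
        apply key
        rw [map_add, hk, hk, hk, map_add, add_smul]
        abel
      rw [h2, map_add, map_add, add_smul]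
      abel
    have hel : ∀ (x : G) (r : R.Q0), c (k (el x • r)) + R.ε (el x • r) • ν =
        el x • (c (k r) + R.ε r • ν) := by
      intro x r
      have h2 : c (k (el x • r)) = c (el x • k r + R.ε r • q x) := by
        apply key
        rw [map_add, map_smul, map_zsmul, hk, hk, hq, R.ε_el, smul_sub, smul_sub,
          smul_comm (el x) (R.ε r) u]
        abel
      have h3 : c (q x) = el x • ν - ν := hν x
      rw [h2, R.ε_el, map_add, map_smul, map_zsmul, h3, smul_add, smul_comm (el x) (R.ε r) ν,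
        smul_sub]
      abel
    obtain ⟨b, hb⟩ : ∃ b : R.Q0 →+ N, ∀ r, b r = c (k r) + R.ε r • ν :=
      ⟨AddMonoidHom.mk' (fun r => c (k r) + R.ε r • ν) hadd, fun r => rfl⟩
    refine ⟨{ toFun := b
              map_add' := map_add b
              map_smul' := DerCo_lin b (fun x r => by rw [hb, hb]; exact hel x r) }, ?_⟩
    apply LinearMap.ext
    intro r
    have h4 : R.ε (R.d1 r) = 0 := (R.ex0 (R.d1 r)).2 ⟨r, rfl⟩
    have h5 : c (k (R.d1 r)) = c r := by
      apply key
      rw [hk, h4, zero_smul, sub_zero]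
    show c r = b (R.d1 r)
    rw [hb, h4, zero_smul, add_zero, h5]

end PDT
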