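import Pool.Agent.Lib.PDT.Base
import Pool.Agent.Lib.PDT.Base5
import Pool.Agent.Lib.PDT.DerCo

/-!
# PDT/CocCo: two facts on the cocycle of an almost invariant equivariant function

Notation of `PDT/CocOf`: `y·ν = (g ↦ zl (fun x => ν (x⁻¹ g)) y)` for `y : Zg G`.  It is additive in `y`,
`(el x * y)·ν = (g ↦ (y·ν)(x⁻¹ g))`, `(y·ν)(g h) = L h⁻¹ ((y·ν) g)`, and `y·ν - aug y • ν` is supported on finitely many cosets of `H`
(the set of such `y` contains `el x` by `IsT` and is closed under `+`, `-`: `Zg.ind`).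

Complete proof of `const_of_coc`.  Let `ε u0 = 1` (`ε_surj`), `y0 = μ0 u0`, `aug y0 = 1`.  For `x : G` let `q` with `d1 q = el x • u0 - u0`
(`ex0`, `ε_el`).  `c q = b (d1 q) = el x • b u0 - b u0`, and `c q = (μ0 (d1 q))·ν = ((el x - 1) * y0)·ν`.  So the function
`η = y0·ν - b u0` (as functions `G → M`) satisfies `η (x⁻¹ g) = η g` for all `x, g`, so it is constant, `= m0`.
`η (g h) = L h⁻¹ (η g)` (`Ind_equiv`, `hwH`), so `m0` is invariant.  `ν - m0 = (ν - y0·ν) + b u0` is supported on finitely many cosets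
(`aug y0 = 1`, `Ind_fin`).
Complete proof of `coc_cohom`.  Let `y0 = μ0 u0`.  `ν'' = ν - y0·ν` is in `Ind H w L` (equivariant, `aug y0 = 1`).  Apply
`der_of_cocycle` to the cocycle `c' - c` and `u0`: `δ x = (c' - c) q` for `d1 q = el x • u0 - u0`, with value at `g`:
`(ν (x⁻¹ g) - ν g) - ((y0·ν)(x⁻¹ g) - (y0·ν) g)`, i.e. `δ x = el x • ν'' - ν''`.  So `c' - c = b ∘ d1`.  (`c ∘ d2 = 0` as
`d1 ∘ d2 = 0` and `μ0 0 = 0`.)
-/

namespace PDT

open Function

universe u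

private theorem CocCo_mul {G : Type u} [Group G] {M : Type*} [AddCommGroup M] (ν : G → M)
    (x g : G) (y : Zg G) :
    zl (fun z => ν (z⁻¹ * g)) (el x * y) = zl (fun z => ν (z⁻¹ * (x⁻¹ * g))) y := by
  have h : (zl (fun z => ν (z⁻¹ * g)) : Zg G →+ M).comp (AddMonoidHom.mulLeft (el x)) =
      zl (fun z => ν (z⁻¹ * (x⁻¹ * g))) := by
    apply zhom_ext
    intro z
    show zl (fun z => ν (z⁻¹ * g)) (el x * el z) = _
    rw [← el_mul, zl_el, zl_el, mul_inv_rev, mul_assoc]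
  exact DFunLike.congr_fun h y

private theorem CocCo_equiv {G : Type u} [Group G] {H : Subgroup G} {M : Type*} [AddCommGroup M]
    (L : H →* Module.End ℤ M) (ν : G → M) (hν : IsT H L ν) (g : G) (h : H) (y : Zg G) :
    zl (fun x => ν (x⁻¹ * (g * h))) y = L h⁻¹ (zl (fun x => ν (x⁻¹ * g)) y) := by
  have e : (zl (fun x => ν (x⁻¹ * (g * h))) : Zg G →+ M) =
      (L h⁻¹ : M →ₗ[ℤ] M).toAddMonoidHom.comp (zl (fun x => ν (x⁻¹ * g))) := by
    apply zhom_ext
    intro z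
    show _ = L h⁻¹ (zl (fun x => ν (x⁻¹ * g)) (el z))
    rw [zl_el, zl_el, ← mul_assoc]
    exact hν.1 _ _
  exact DFunLike.congr_fun e y

private theorem CocCo_fin {G : Type u} [Group G] {H : Subgroup G} {M : Type*} [AddCommGroup M]
    (L : H →* Module.End ℤ M) (ν : G → M) (hν : IsT H L ν) (y : Zg G) :
    HF H {g | zl (fun x => ν (x⁻¹ * g)) y ≠ aug y • ν g} := by
  refine Zg.ind (P := fun y => HF H {g | zl (fun x => ν (x⁻¹ * g)) y ≠ aug y • ν g}) y ?_ ?_ ?_ ?_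
  · have : {g | zl (fun x => ν (x⁻¹ * g)) (0 : Zg G) ≠ aug (0 : Zg G) • ν g} = ∅ := by
      ext g
      simp
    show HF H {g | zl (fun x => ν (x⁻¹ * g)) (0 : Zg G) ≠ aug (0 : Zg G) • ν g}
    rw [this]
    show (_ '' (∅ : Set G)).Finite
    rw [Set.image_empty]
    exact Set.finite_empty
  · intro x
    refine (hν.2 x).mono ?_
    intro g hg
    have hg' : zl (fun x => ν (x⁻¹ * g)) (el x) ≠ aug (el x) • ν g := hg
    rw [zl_el, aug_el, one_smul] at hg'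
    exact hg'
  · intro a b ha hb
    refine (ha.union hb).mono ?_
    intro g hg
    have hg' : zl (fun x => ν (x⁻¹ * g)) (a + b) ≠ aug (a + b) • ν g := hg
    by_cases h1 : zl (fun x => ν (x⁻¹ * g)) a = aug a • ν g
    · right
      intro h2
      apply hg'
      rw [map_add, map_add, add_smul, h1, h2]
    · left
      exact h1
  · intro a ha
    refine HF.mono ha ?_
    intro g hg
    have hg' : zl (fun x => ν (x⁻¹ * g)) (-a) ≠ aug (-a) • ν g := hg
    intro h1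
    apply hg'
    rw [map_neg, map_neg, neg_smul, h1]

/-- Conversely, if the cocycle is a coboundary then the function is almost constant. -/
theorem const_of_coc {G : Type u} [Group G] (R : Res G) (H : Subgroup G) (w : G →* ℤˣ)
    (hwH : ∀ h : H, w h = 1) (μ0 : R.Q0 →ₗ[Zg G] Zg G) (hμ0 : ∀ u, aug (μ0 u) = R.ε u)
    {M : Type*} [AddCommGroup M] (L : H →* Module.End ℤ M) (ν : G → M) (hν : IsT H L ν)
    (c : R.Q1 →ₗ[Zg G] Ind H w L)
    (hc : ∀ q g, (c q : G → M) g = zl (fun x => ν (x⁻¹ * g)) (μ0 (R.d1 q)))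
    (b : R.Q0 →ₗ[Zg G] Ind H w L) (hb : c = b ∘ₗ R.d1) :
    ∃ m0 : M, (∀ h, L h m0 = m0) ∧ HF H {g | ν g ≠ m0} := by
  obtain ⟨u0, hu0⟩ := R.ε_surj 1
  have h0 : ∀ x : G, R.ε (el x • u0 - u0) = 0 := by
    intro x
    rw [map_sub, R.ε_el, sub_self]
  have key : ∀ x g : G, zl (fun z => ν (z⁻¹ * (x⁻¹ * g))) (μ0 u0) - (b u0 : G → M) (x⁻¹ * g) =
      zl (fun z => ν (z⁻¹ * g)) (μ0 u0) - (b u0 : G → M) g := by
    intro x g
    obtain ⟨q, hq⟩ := (R.ex0 (el x • u0 - u0)).1 (h0 x)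
    have h1 : (c q : G → M) g = (b u0 : G → M) (x⁻¹ * g) - (b u0 : G → M) g := by
      have h2 : c q = el x • b u0 - b u0 := by
        rw [hb, LinearMap.comp_apply, hq, map_sub, map_smul]
      rw [h2]
      show ((el x • b u0 : Ind H w L) : G → M) g - (b u0 : G → M) g = _
      rw [el_smul_ind_apply]
    have h3 := hc q g
    rw [h1, hq, map_sub, map_smul, smul_eq_mul, map_sub, CocCo_mul] at h3
    have h4 := sub_eq_sub_iff_add_eq_add.1 h3
    rw [sub_eq_sub_iff_add_eq_add, ← h4]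
    exact add_comm _ _
  have hco : ∀ g : G, zl (fun z => ν (z⁻¹ * g)) (μ0 u0) - (b u0 : G → M) g =
      zl (fun z => ν (z⁻¹ * 1)) (μ0 u0) - (b u0 : G → M) 1 := by
    intro g
    have h5 := key g g
    rw [inv_mul_cancel] at h5
    exact h5.symm
  refine ⟨zl (fun z => ν (z⁻¹ * 1)) (μ0 u0) - (b u0 : G → M) 1, ?_, ?_⟩
  · have h6 : ∀ h : H, L h⁻¹ (zl (fun z => ν (z⁻¹ * 1)) (μ0 u0) - (b u0 : G → M) 1) =
        zl (fun z => ν (z⁻¹ * 1)) (μ0 u0) - (b u0 : G → M) 1 := by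
      intro h
      have h7 := hco ((1 : G) * h)
      rw [CocCo_equiv L ν hν 1 h, Ind_equiv, hwH h, Units.val_one, one_smul, ← map_sub] at h7
      exact h7
    intro h
    have h8 := h6 h⁻¹
    rwa [inv_inv] at h8
  · refine ((CocCo_fin L ν hν (μ0 u0)).union (show HF H {g | (b u0 : G → M) g ≠ 0} from
      Ind_fin (b u0))).mono ?_
    intro g hg
    by_cases h1 : zl (fun x => ν (x⁻¹ * g)) (μ0 u0) = aug (μ0 u0) • ν g
    · right
      intro h2
      apply hg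
      rw [hμ0, hu0, one_smul] at h1
      rw [← hco g, h1, h2, sub_zero]
    · left
      exact h1

/-- A cocycle with the same derivation as `ν` is cohomologous to the cocycle of `ν`. -/
theorem coc_cohom {G : Type u} [Group G] (R : Res G) (H : Subgroup G) (w : G →* ℤˣ)
    (hwH : ∀ h : H, w h = 1) (μ0 : R.Q0 →ₗ[Zg G] Zg G) (hμ0 : ∀ u, aug (μ0 u) = R.ε u)
    {M : Type*} [AddCommGroup M] (L : H →* Module.End ℤ M) (ν : G → M) (hν : IsT H L ν)
    (c : R.Q1 →ₗ[Zg G] Ind H w L)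
    (hc : ∀ q g, (c q : G → M) g = zl (fun x => ν (x⁻¹ * g)) (μ0 (R.d1 q)))
    (c' : R.Q1 →ₗ[Zg G] Ind H w L) (hc' : c' ∘ₗ R.d2 = 0) (u0 : R.Q0) (hu0 : R.ε u0 = 1)
    (hq : ∀ x q, R.d1 q = el x • u0 - u0 → ∀ g, (c' q : G → M) g = ν (x⁻¹ * g) - ν g) :
    ∃ b : R.Q0 →ₗ[Zg G] Ind H w L, c' = c + b ∘ₗ R.d1 := by
  have haug : aug (μ0 u0) = 1 := by rw [hμ0, hu0]
  have hmem : (fun g => ν g - zl (fun x => ν (x⁻¹ * g)) (μ0 u0)) ∈ Ind H w L := by
    refine ⟨?_, ?_⟩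
    · intro g h
      show ν (g * h) - zl (fun x => ν (x⁻¹ * (g * h))) (μ0 u0) =
        (w h : ℤ) • L h⁻¹ (ν g - zl (fun x => ν (x⁻¹ * g)) (μ0 u0))
      rw [CocCo_equiv L ν hν g h, hν.1, hwH h, Units.val_one, one_smul, map_sub]
    · have h1 := CocCo_fin L ν hν (μ0 u0)
      refine HF.mono h1 ?_
      intro g hg
      have hg' : ν g - zl (fun x => ν (x⁻¹ * g)) (μ0 u0) ≠ 0 := hg
      intro h2
      apply hg'
      rw [h2, haug, one_smul, sub_self]
  have hcd : c ∘ₗ R.d2 = 0 := by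
    apply LinearMap.ext
    intro r
    apply Subtype.ext
    funext g
    show (c (R.d2 r) : G → M) g = 0
    rw [hc, (R.ex1 (R.d2 r)).2 ⟨r, rfl⟩, map_zero, map_zero]
  have hcd' : (c' - c) ∘ₗ R.d2 = 0 := by
    rw [LinearMap.sub_comp, hc', hcd]
    apply LinearMap.ext
    intro r
    simp
  obtain ⟨δ, -, hδ, hb⟩ := der_of_cocycle R (c' - c) hcd' u0 hu0
  have h0 : ∀ x : G, R.ε (el x • u0 - u0) = 0 := by
    intro x
    rw [map_sub, R.ε_el, sub_self]
  obtain ⟨b, hbb⟩ := hb ⟨⟨_, hmem⟩, by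
    intro x
    obtain ⟨q, hq'⟩ := (R.ex0 (el x • u0 - u0)).1 (h0 x)
    rw [hδ x q hq']
    apply Subtype.ext
    funext g
    show (c' q : G → M) g - (c q : G → M) g =
      ((el x • (⟨_, hmem⟩ : Ind H w L) : Ind H w L) : G → M) g -
        (ν g - zl (fun x => ν (x⁻¹ * g)) (μ0 u0))
    rw [el_smul_ind_apply, hq x q hq' g, hc, hq', map_sub, map_smul, smul_eq_mul, map_sub,
      CocCo_mul]
    show _ = (ν (x⁻¹ * g) - zl (fun z => ν (z⁻¹ * (x⁻¹ * g))) (μ0 u0)) -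
        (ν g - zl (fun x => ν (x⁻¹ * g)) (μ0 u0))
    abel⟩
  refine ⟨b, ?_⟩
  rw [← hbb]
  abel

end PDT
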