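import Pool.Agent.Lib.PDT.Base
import Pool.Agent.Lib.PDT.Base5

/-!
# PDT/CocOf: the cocycle of an almost invariant equivariant function

`μ0 : Q0 → ℤ[G]` linear with `aug (μ0 u) = ε u`.  For `y : Zg G` let `y·ν = (g ↦ zl (fun x => ν (x⁻¹ g)) y)`.

Complete proof.  `y·ν` is additive in `y`, `(el x * y)·ν = (g ↦ (y·ν)(x⁻¹ g))` (additive in `y`; `y = el z`:
`ν ((x z)⁻¹ g) = ν (z⁻¹ x⁻¹ g)`), and `(y·ν)(g h) = L h⁻¹ ((y·ν) g)` (additive in `y`).  If `aug y = 0` then `y·ν` is supported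
on finitely many cosets: `y·ν = y·ν - aug(y) ν = Σ_x y_x (el x·ν - ν)` (additive in `y`: the set of the `y` for which
`y·ν - aug y • ν` has finite support in `G ⧸ H` contains all `el x` by the second part of `IsT`, is closed under `+`, `-`; use
`Zg.ind`), so `y·ν ∈ Ind H w L` (`w h = 1` for `h ∈ H`).
`aug (μ0 (d1 q)) = ε (d1 q) = 0` (`ex0`).  So `c q = ⟨(μ0 (d1 q))·ν, _⟩` is well defined, additive, and
`c (el x • q) = el x • c q` (`el_smul_ind_apply`), hence linear (`Zg.ind`).  `c (d2 r) = (μ0 0)·ν = 0` as `d1 (d2 r) = 0` (`ex1`).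
Second theorem: if `ν` itself is in `Ind`, put `b u = μ0 u • ν` (the module structure of `Ind`; linear in `u`); the value at `g` of
`y • φ` for `φ : Ind` is `zl (fun x => φ (x⁻¹ g)) y` (additive in `y`), so `c = b ∘ d1`.  If `ν = φ + m0` with a constant `m0` the constant does not
contribute: `zl (fun _ => m0) y = aug y • m0 = 0`.
-/

namespace PDT

open Function

universe u

section CocOf_aux

variable {G : Type u} [Group G] {H : Subgroup G} {M : Type*} [AddCommGroup M]

/-- the convolution with `ν` -/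
private noncomputable def CocOf_cv (ν : G → M) : Zg G →+ (G → M) :=
  zl fun x g => ν (x⁻¹ * g)

private theorem CocOf_cv_el (ν : G → M) (x g : G) : CocOf_cv ν (el x) g = ν (x⁻¹ * g) := by
  rw [CocOf_cv, zl_el]

private theorem CocOf_cv_apply (ν : G → M) (y : Zg G) (g : G) :
    CocOf_cv ν y g = zl (fun x => ν (x⁻¹ * g)) y := by
  have : (Pi.evalAddMonoidHom (fun _ : G => M) g).comp (CocOf_cv ν) =
      zl (fun x => ν (x⁻¹ * g)) := by
    apply zhom_ext
    intro x
    rw [zl_el]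
    exact CocOf_cv_el ν x g
  exact DFunLike.congr_fun this y

private theorem CocOf_cv_mul (ν : G → M) (x : G) (y : Zg G) (g : G) :
    CocOf_cv ν (el x * y) g = CocOf_cv ν y (x⁻¹ * g) := by
  have : ((Pi.evalAddMonoidHom (fun _ : G => M) g).comp (CocOf_cv ν)).comp
      (AddMonoidHom.mulLeft (el x)) =
      (Pi.evalAddMonoidHom (fun _ : G => M) (x⁻¹ * g)).comp (CocOf_cv ν) := by
    apply zhom_ext
    intro z
    change CocOf_cv ν (el x * el z) g = CocOf_cv ν (el z) (x⁻¹ * g)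
    rw [← el_mul, CocOf_cv_el, CocOf_cv_el, mul_inv_rev, mul_assoc]
  exact DFunLike.congr_fun this y

private theorem CocOf_cv_right (L : H →* Module.End ℤ M) {ν : G → M} (hν : IsT H L ν) (y : Zg G)
    (g : G) (h : H) : CocOf_cv ν y (g * h) = L h⁻¹ (CocOf_cv ν y g) := by
  have : (Pi.evalAddMonoidHom (fun _ : G => M) (g * h)).comp (CocOf_cv ν) =
      (L h⁻¹).toAddMonoidHom.comp ((Pi.evalAddMonoidHom (fun _ : G => M) g).comp
        (CocOf_cv ν)) := by
    apply zhom_ext
    intro z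
    change CocOf_cv ν (el z) (g * h) = L h⁻¹ (CocOf_cv ν (el z) g)
    rw [CocOf_cv_el, CocOf_cv_el, ← mul_assoc]
    exact hν.1 _ h
  exact DFunLike.congr_fun this y

private theorem CocOf_cv_fin (L : H →* Module.End ℤ M) {ν : G → M} (hν : IsT H L ν)
    (y : Zg G) : HF H {g | CocOf_cv ν y g ≠ aug y • ν g} := by
  refine Zg.ind (P := fun y => HF H {g | CocOf_cv ν y g ≠ aug y • ν g}) y ?_ ?_ ?_ ?_
  · refine HF.mono (Y := ∅) ?_ ?_
    · simp [HF]
    · intro g hg
      apply hg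
      simp
  · intro x
    refine (hν.2 x).mono ?_
    intro g hg h
    apply hg
    rw [CocOf_cv_el, aug_el, one_smul, h]
  · intro x y hx hy
    refine (hx.union hy).mono ?_
    intro g hg
    by_contra hn
    rw [Set.mem_union, not_or] at hn
    have h1 : CocOf_cv ν x g = aug x • ν g := not_not.mp hn.1
    have h2 : CocOf_cv ν y g = aug y • ν g := not_not.mp hn.2
    apply hg
    rw [map_add, map_add, Pi.add_apply, h1, h2, add_smul]
  · intro x hx
    refine hx.mono ?_
    intro g hg h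
    apply hg
    rw [map_neg, map_neg, Pi.neg_apply, h, neg_smul]

private theorem CocOf_mem (w : G →* ℤˣ) (hwH : ∀ h : H, w h = 1) (L : H →* Module.End ℤ M)
    {ν : G → M} (hν : IsT H L ν) {y : Zg G} (hy : aug y = 0) : CocOf_cv ν y ∈ Ind H w L := by
  refine ⟨fun g h => ?_, ?_⟩
  · rw [hwH, Units.val_one, one_smul]
    exact CocOf_cv_right L hν y g h
  · have := CocOf_cv_fin L hν y
    rw [hy] at this
    simpa [HF] using this

/-- additive maps commuting with the group are linear -/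
private noncomputable def CocOf_lin {Q Q' : Type*} [AddCommGroup Q] [Module (Zg G) Q]
    [AddCommGroup Q'] [Module (Zg G) Q'] (f : Q →+ Q')
    (hf : ∀ (x : G) (q : Q), f (el x • q) = el x • f q) : Q →ₗ[Zg G] Q' where
  toFun := f
  map_add' := f.map_add
  map_smul' y q := by
    change f (y • q) = y • f q
    refine Zg.ind (P := fun y => f (y • q) = y • f q) y ?_ ?_ ?_ ?_
    · simp
    · intro x
      exact hf x q
    · intro x y hx hy
      change f (x • q) = x • f q at hx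
      change f (y • q) = y • f q at hy
      rw [add_smul, add_smul, map_add, hx, hy]
    · intro x hx
      change f (x • q) = x • f q at hx
      rw [neg_smul, neg_smul, map_neg, hx]

private theorem CocOf_smul (w : G →* ℤˣ) (L : H →* Module.End ℤ M) (φ : Ind H w L) (y : Zg G)
    (g : G) : ((y • φ : Ind H w L) : G → M) g = zl (fun x => (φ : G → M) (x⁻¹ * g)) y := by
  refine Zg.ind (P := fun y => ((y • φ : Ind H w L) : G → M) g =
    zl (fun x => (φ : G → M) (x⁻¹ * g)) y) y ?_ ?_ ?_ ?_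
  · simp
  · intro x
    rw [el_smul_ind_apply, zl_el]
  · intro x y hx hy
    rw [add_smul, map_add, ← hx, ← hy]
    rfl
  · intro x hx
    rw [neg_smul, map_neg, ← hx]
    rfl

end CocOf_aux

theorem coc_of {G : Type u} [Group G] (R : Res G) (H : Subgroup G) (w : G →* ℤˣ)
    (hwH : ∀ h : H, w h = 1) (μ0 : R.Q0 →ₗ[Zg G] Zg G) (hμ0 : ∀ u, aug (μ0 u) = R.ε u)
    {M : Type*} [AddCommGroup M] (L : H →* Module.End ℤ M) (ν : G → M) (hν : IsT H L ν) :
    ∃ c : R.Q1 →ₗ[Zg G] Ind H w L,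
      (∀ q g, (c q : G → M) g = zl (fun x => ν (x⁻¹ * g)) (μ0 (R.d1 q))) ∧ c ∘ₗ R.d2 = 0 := by
  have haug : ∀ q, aug (μ0 (R.d1 q)) = 0 := by
    intro q
    rw [hμ0]
    exact (R.ex0 (R.d1 q)).mpr ⟨q, rfl⟩
  let c0 : R.Q1 →+ Ind H w L :=
    { toFun := fun q => ⟨CocOf_cv ν (μ0 (R.d1 q)), CocOf_mem w hwH L hν (haug q)⟩
      map_zero' := by
        apply Subtype.ext
        change CocOf_cv ν (μ0 (R.d1 0)) = 0
        rw [map_zero, map_zero, map_zero]
      map_add' := by
        intro a b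
        apply Subtype.ext
        change CocOf_cv ν (μ0 (R.d1 (a + b))) =
          CocOf_cv ν (μ0 (R.d1 a)) + CocOf_cv ν (μ0 (R.d1 b))
        rw [map_add, map_add, map_add] }
  have hc0 : ∀ (x : G) (q : R.Q1), c0 (el x • q) = el x • c0 q := by
    intro x q
    apply Subtype.ext
    funext g
    rw [el_smul_ind_apply]
    change CocOf_cv ν (μ0 (R.d1 (el x • q))) g = CocOf_cv ν (μ0 (R.d1 q)) (x⁻¹ * g)
    rw [map_smul, map_smul, smul_eq_mul, CocOf_cv_mul]
  refine ⟨CocOf_lin c0 hc0, ?_, ?_⟩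
  · intro q g
    exact CocOf_cv_apply ν _ g
  · apply LinearMap.ext
    intro r
    apply Subtype.ext
    change CocOf_cv ν (μ0 (R.d1 (R.d2 r))) = 0
    have h1 : R.d1 (R.d2 r) = 0 := (R.ex1 (R.d2 r)).mpr ⟨r, rfl⟩
    rw [h1, map_zero, map_zero]

theorem coc_of_ind {G : Type u} [Group G] (R : Res G) (H : Subgroup G) (w : G →* ℤˣ)
    (hwH : ∀ h : H, w h = 1) (μ0 : R.Q0 →ₗ[Zg G] Zg G) (hμ0 : ∀ u, aug (μ0 u) = R.ε u)
    {M : Type*} [AddCommGroup M] (L : H →* Module.End ℤ M) (ν : G → M) (hν : IsT H L ν) (m0 : M)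
    (hm0 : ∀ h, L h m0 = m0) (hfin : HF H {g | ν g ≠ m0})
    (c : R.Q1 →ₗ[Zg G] Ind H w L)
    (hc : ∀ q g, (c q : G → M) g = zl (fun x => ν (x⁻¹ * g)) (μ0 (R.d1 q))) :
    ∃ b : R.Q0 →ₗ[Zg G] Ind H w L, c = b ∘ₗ R.d1 := by
  have haug : ∀ q, aug (μ0 (R.d1 q)) = 0 := by
    intro q
    rw [hμ0]
    exact (R.ex0 (R.d1 q)).mpr ⟨q, rfl⟩
  let φ : Ind H w L := ⟨fun g => ν g - m0, by
    refine ⟨fun g h => ?_, ?_⟩
    · rw [hwH, Units.val_one, one_smul, map_sub, hm0]
      change ν (g * h) - m0 = _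
      rw [hν.1]
    · refine Set.Finite.subset hfin ?_
      rintro _ ⟨g, hg, rfl⟩
      refine ⟨g, ?_, rfl⟩
      intro h
      apply hg
      change ν g - m0 = 0
      rw [h, sub_self]⟩
  let b : R.Q0 →ₗ[Zg G] Ind H w L :=
    { toFun := fun u => μ0 u • φ
      map_add' := by
        intro x y
        rw [map_add, add_smul]
      map_smul' := by
        intro x y
        rw [map_smul, smul_eq_mul, mul_smul]
        rfl }
  refine ⟨b, ?_⟩
  apply LinearMap.ext
  intro q
  apply Subtype.ext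
  funext g
  rw [hc]
  change _ = ((μ0 (R.d1 q) • φ : Ind H w L) : G → M) g
  rw [CocOf_smul]
  have h1 : (zl (fun x => ν (x⁻¹ * g)) : Zg G →+ M) =
      zl (fun x => (φ : G → M) (x⁻¹ * g)) +
        ((zmultiplesHom M m0).comp aug) := by
    apply zhom_ext
    intro x
    rw [AddMonoidHom.add_apply, zl_el, zl_el, AddMonoidHom.comp_apply, aug_el]
    change ν (x⁻¹ * g) = (ν (x⁻¹ * g) - m0) + (zmultiplesHom M m0) 1
    simp
  rw [h1, AddMonoidHom.add_apply, AddMonoidHom.comp_apply, haug, map_zero, add_zero]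

end PDT
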