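import Pool.Agent.Lib.PDT.Base
import Pool.Agent.Lib.PDT.Base2

/-!
# PDT/CoindRep: a representation of `H` from an embedding of the group ring of a finite index subgroup

`H0 ≤ H` of finite index, `τ : ℤ[H0] → Λ` injective, `Λ` left noetherian without zero divisors.

Complete proof.  `M = {ψ : H → Λ | ψ(h k) = ψ(h) τ(el k) for k ∈ H0}`, a left `Λ`-submodule of
`H → Λ`; `(L x ψ)(h) = ψ(x⁻¹ h)`.
* Noetherian: `M → (H ⧸ H0 → Λ)`, `ψ ↦ (c ↦ ψ (Quotient.out c))` is `Λ`-linear and injective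
  (`h = (out c) k`), the target is a finite power of the noetherian module `Λ`.
* Faithful: `actR L (el h) = L h⁻¹` and `(L h⁻¹ ψ)(1) = ψ(h)`; so
  `(actR L y ψ)(1) = zl ψ y` (additive in `y`, `zhom_ext`).  For `x₀ : H` let
  `ψ₀(h) = τ(el (x₀⁻¹ h))` if `x₀⁻¹ h ∈ H0` and `0` otherwise; it is in `M`.  For `y : Zg H` let
  `y₀ : Zg H0` have the coefficients `y₀(k) = y(x₀ k)` (`Finsupp.comapDomain`).  Then
  `zl ψ₀ y = τ y₀` (both additive in `y`; check on `y = el h`, or write out the sums).  If `y` acts as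
  zero, `τ y₀ = 0`, `y₀ = 0`, and `y(x₀) = y₀(1) = 0`.
* No invariants: let `K ≤ H` be infinite, `L k ψ = ψ` for `k ∈ K`, `h : H`.  The subgroup
  `{k ∈ K | h⁻¹ k⁻¹ h ∈ H0} = K ⊓ h H0 h⁻¹` has finite index in `K` (a conjugate of a finite index
  subgroup), so it is infinite: pick `k ≠ 1` in it, `g = h⁻¹ k⁻¹ h ∈ H0`, `g ≠ 1`.  Then
  `ψ(h) = (L k ψ)(h) = ψ(k⁻¹ h) = ψ(h g) = ψ(h) τ(el g)`, so `ψ(h) τ(el g - 1) = 0`; `el g - 1 ≠ 0`,
  so `τ(el g - 1) ≠ 0` and `ψ(h) = 0`.
-/

namespace PDT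

open Function

private def CoindRep_M {H : Type*} [Group H] (H0 : Subgroup H) {Λ : Type*} [Ring Λ]
    (τ : Zg H0 →+* Λ) : Submodule Λ (H → Λ) where
  carrier := {ψ | ∀ (h : H) (k : H0), ψ (h * k) = ψ h * τ (el k)}
  zero_mem' := fun h k => by simp
  add_mem' := fun {a b} ha hb h k => by
    show a (h * k) + b (h * k) = (a h + b h) * τ (el k)
    rw [ha, hb, add_mul]
  smul_mem' := fun c a ha h k => by
    show c * a (h * k) = c * a h * τ (el k)
    rw [ha, mul_assoc]

private def CoindRep_L {H : Type*} [Group H] (H0 : Subgroup H) {Λ : Type*} [Ring Λ]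
    (τ : Zg H0 →+* Λ) : H →* Module.End Λ (CoindRep_M H0 τ) where
  toFun x :=
    { toFun := fun ψ => ⟨fun h => (ψ : H → Λ) (x⁻¹ * h), fun h k => by
        show (ψ : H → Λ) (x⁻¹ * (h * k)) = (ψ : H → Λ) (x⁻¹ * h) * τ (el k)
        rw [← mul_assoc]
        exact ψ.2 _ _⟩
      map_add' := fun a b => rfl
      map_smul' := fun a b => rfl }
  map_one' := by
    ext ψ h
    show (ψ : H → Λ) (1⁻¹ * h) = (ψ : H → Λ) h
    rw [inv_one, one_mul]
  map_mul' x y := by
    ext ψ h
    show (ψ : H → Λ) ((x * y)⁻¹ * h) = (ψ : H → Λ) (y⁻¹ * (x⁻¹ * h))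
    rw [mul_inv_rev, mul_assoc]

private theorem CoindRep_L_apply {H : Type*} [Group H] (H0 : Subgroup H) {Λ : Type*} [Ring Λ]
    (τ : Zg H0 →+* Λ) (x : H) (ψ : CoindRep_M H0 τ) (h : H) :
    (CoindRep_L H0 τ x ψ : H → Λ) h = (ψ : H → Λ) (x⁻¹ * h) := rfl

open Classical in
private noncomputable def CoindRep_c {H : Type*} [Group H] (x : H) : Zg H →+ ℤ :=
  zl fun h => if h = x then 1 else 0

open Classical in
private theorem CoindRep_c_el {H : Type*} [Group H] (x h : H) :
    CoindRep_c x (el h) = if h = x then 1 else 0 := by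
  unfold CoindRep_c
  rw [zl_el]

private theorem CoindRep_ext {H : Type*} [Group H] {y : Zg H} (h : ∀ x, CoindRep_c x y = 0) :
    y = 0 := by
  classical
  have h1 : y.coeff = 0 := by
    ext x
    have h2 := h x
    unfold CoindRep_c at h2
    rw [zl_apply] at h2
    simp only [smul_eq_mul, mul_ite, mul_one, mul_zero] at h2
    rw [Finsupp.sum_ite_self_eq'] at h2
    rw [h2]
    rfl
  apply MonoidAlgebra.coeff_injective
  rw [h1]
  rfl

private theorem CoindRep_el_one {H : Type*} [Group H] {g : H} (h : el g = 1) : g = 1 := by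
  have h1 := congrArg (CoindRep_c (1 : H)) h
  rw [← el_one, CoindRep_c_el, CoindRep_c_el, if_pos rfl] at h1
  by_contra hg
  rw [if_neg hg] at h1
  exact absurd h1 (by norm_num)

private theorem CoindRep_val {H : Type*} [Group H] (H0 : Subgroup H) {Λ : Type*} [Ring Λ]
    (τ : Zg H0 →+* Λ) (y : Zg H) (ψ : CoindRep_M H0 τ) :
    (actR (CoindRep_L H0 τ) y ψ : H → Λ) 1 = zl (ψ : H → Λ) y := by
  induction y using Zg.ind with
  | h0 => simp
  | hel g =>
    rw [actR_el, zl_el, CoindRep_L_apply, inv_inv, mul_one]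
  | hadd x y hx hy =>
    rw [map_add, map_add, ← hx, ← hy]
    rfl
  | hneg x hx =>
    rw [map_neg, map_neg, ← hx]
    rfl

theorem coind_rep {H : Type*} [Group H] (H0 : Subgroup H) [H0.FiniteIndex] {Λ : Type*} [Ring Λ]
    [IsNoetherianRing Λ] [NoZeroDivisors Λ] (τ : Zg H0 →+* Λ) (hτ : Injective τ) :
    ∃ (M : Submodule Λ (H → Λ)) (L : H →* Module.End Λ M), IsNoetherian Λ M ∧
      (∀ y : Zg H, (∀ m, actR L y m = 0) → y = 0) ∧
      (∀ K : Subgroup H, Infinite K → ∀ m : M, (∀ k ∈ K, L k m = m) → m = 0) := by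
  classical
  refine ⟨CoindRep_M H0 τ, CoindRep_L H0 τ, ?_, ?_, ?_⟩
  · -- noetherian
    let f : CoindRep_M H0 τ →ₗ[Λ] (H ⧸ H0 → Λ) :=
      { toFun := fun ψ c => (ψ : H → Λ) (Quotient.out c)
        map_add' := fun a b => rfl
        map_smul' := fun a b => rfl }
    have hf : Injective f := by
      intro a b hab
      apply Subtype.ext
      funext h
      have h1 : ((Quotient.out ((h : H) : H ⧸ H0) : H) : H ⧸ H0) = (h : H ⧸ H0) :=
        QuotientGroup.out_eq' _
      have h2 := QuotientGroup.eq.mp h1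
      have h3 : h = Quotient.out ((h : H) : H ⧸ H0) *
          ((⟨_, h2⟩ : H0) : H) := by
        simp
      have h4 : (a : H → Λ) (Quotient.out ((h : H) : H ⧸ H0)) =
          (b : H → Λ) (Quotient.out ((h : H) : H ⧸ H0)) := congrFun hab _
      rw [h3, a.2, b.2, h4]
    haveI : Finite (H ⧸ H0) := Subgroup.finite_quotient_of_finiteIndex
    exact isNoetherian_of_injective f hf
  · -- faithful
    intro y hy
    apply CoindRep_ext
    intro x0
    let ψ0 : CoindRep_M H0 τ :=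
      ⟨fun h => if hk : x0⁻¹ * h ∈ H0 then τ (el ⟨x0⁻¹ * h, hk⟩) else 0, by
        intro h k
        show (if hk : x0⁻¹ * (h * k) ∈ H0 then τ (el ⟨x0⁻¹ * (h * k), hk⟩) else 0) =
          (if hk : x0⁻¹ * h ∈ H0 then τ (el ⟨x0⁻¹ * h, hk⟩) else 0) * τ (el k)
        by_cases hk : x0⁻¹ * h ∈ H0
        · have hk' : x0⁻¹ * (h * k) ∈ H0 := by
            rw [← mul_assoc]
            exact H0.mul_mem hk k.2
          rw [dif_pos hk, dif_pos hk', ← map_mul, ← el_mul]
          congr 2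
          apply Subtype.ext
          simp [mul_assoc]
        · have hk' : x0⁻¹ * (h * k) ∉ H0 := by
            intro h1
            apply hk
            have h2 := H0.mul_mem h1 (H0.inv_mem k.2)
            simpa [mul_assoc] using h2
          rw [dif_neg hk, dif_neg hk', zero_mul]⟩
    let R : Zg H →+ Zg H0 := zl fun h => if hk : x0⁻¹ * h ∈ H0 then el ⟨x0⁻¹ * h, hk⟩ else 0
    have h1 : zl (ψ0 : H → Λ) = τ.toAddMonoidHom.comp R := by
      apply zhom_ext
      intro h
      rw [zl_el]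
      show (if hk : x0⁻¹ * h ∈ H0 then τ (el ⟨x0⁻¹ * h, hk⟩) else 0) = τ (R (el h))
      show _ = τ ((zl fun h => if hk : x0⁻¹ * h ∈ H0 then el ⟨x0⁻¹ * h, hk⟩ else 0) (el h))
      rw [zl_el]
      split_ifs
      · rfl
      · rw [map_zero]
    have h2 : τ (R y) = 0 := by
      have h3 := CoindRep_val H0 τ y ψ0
      rw [hy ψ0, h1] at h3
      exact h3.symm
    have h4 : R y = 0 := hτ (by rw [h2, map_zero])
    have h5 : CoindRep_c x0 = (CoindRep_c (1 : H0)).comp R := by
      apply zhom_ext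
      intro h
      rw [CoindRep_c_el]
      show _ = CoindRep_c (1 : H0)
        ((zl fun h => if hk : x0⁻¹ * h ∈ H0 then el ⟨x0⁻¹ * h, hk⟩ else 0) (el h))
      rw [zl_el]
      by_cases hk : x0⁻¹ * h ∈ H0
      · rw [dif_pos hk, CoindRep_c_el]
        by_cases hh : h = x0
        · subst hh
          rw [if_pos rfl, if_pos]
          apply Subtype.ext
          simp
        · rw [if_neg hh, if_neg]
          intro h6
          apply hh
          have h7 : x0⁻¹ * h = 1 := congrArg Subtype.val h6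
          rw [inv_mul_eq_one] at h7
          exact h7.symm
      · rw [dif_neg hk, map_zero, if_neg]
        intro hh
        apply hk
        rw [hh, inv_mul_cancel]
        exact H0.one_mem
    rw [h5]
    show CoindRep_c (1 : H0) (R y) = 0
    rw [h4, map_zero]
  · -- no invariants
    intro K hK m hm
    apply Subtype.ext
    funext h
    haveI : Finite (H ⧸ H0) := Subgroup.finite_quotient_of_finiteIndex
    obtain ⟨k1, k2, hne, heq⟩ := Finite.exists_ne_map_eq_of_infinite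
      (fun k : K => (((k : H)⁻¹ * h : H) : H ⧸ H0))
    have h1 : ((k1 : H)⁻¹ * h)⁻¹ * ((k2 : H)⁻¹ * h) ∈ H0 := QuotientGroup.eq.mp heq
    set k : H := (k2 : H) * (k1 : H)⁻¹ with hk
    have hkK : k ∈ K := K.mul_mem k2.2 (K.inv_mem k1.2)
    have h2 : k⁻¹ * h = h * ((⟨((k1 : H)⁻¹ * h)⁻¹ * ((k2 : H)⁻¹ * h), h1⟩ : H0) : H) := by
      rw [hk]
      simp [mul_assoc]
    have h3 : (m : H → Λ) (k⁻¹ * h) = (m : H → Λ) h := by
      rw [← CoindRep_L_apply, hm k hkK]
    rw [h2, m.2] at h3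
    have h4 : (m : H → Λ) h *
        τ (el (⟨((k1 : H)⁻¹ * h)⁻¹ * ((k2 : H)⁻¹ * h), h1⟩ : H0) - 1) = 0 := by
      rw [map_sub, map_one, mul_sub, mul_one, h3, sub_self]
    rcases mul_eq_zero.mp h4 with h5 | h5
    · exact h5
    · exfalso
      have h6 : el (⟨((k1 : H)⁻¹ * h)⁻¹ * ((k2 : H)⁻¹ * h), h1⟩ : H0) - 1 = 0 :=
        hτ (by rw [h5, map_zero])
      have h7 := CoindRep_el_one (sub_eq_zero.mp h6)
      have h8 : ((k1 : H)⁻¹ * h)⁻¹ * ((k2 : H)⁻¹ * h) = 1 := congrArg Subtype.val h7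
      rw [inv_mul_eq_one] at h8
      have h9 := mul_right_cancel h8
      exact hne (Subtype.ext (inv_injective h9))

end PDT
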