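import Mathlib

/-!
# PDT/Coinv: the twisted coinvariants of a coinduced module of infinite index vanish

`F : G → M` with `F (h g) = h F(g)` is written as `F(g) = Σ_{s ∈ S} (N_s(g s) - w(s) N_s(g))`.

Complete proof.  For `x : G` let `[x⁻¹]` be the left coset of `x⁻¹` in `G ⧸ H`; it only depends on the
right coset `H x`.  Choose `σ : G ⧸ H → G`, `σ c ∈ S`, `ρ c < ρ (σ c • c)` (from `hρ`).
Define `T : G → M` by well-founded recursion on `ρ [g⁻¹]` (measure):
  `T g = F g + Σ_{s ∈ S, σ [(g s)⁻¹] = s} w(s) • T (g s)`;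
here, if `σ [(g s)⁻¹] = s` then `ρ [(g s)⁻¹] < ρ (s • [(g s)⁻¹]) = ρ [g⁻¹]`, so the recursion is
well-founded.  (In Lean: e.g. prove by strong induction on `n` that there is `T_n` defined on
`{ρ [g⁻¹] < n}`; or use `WellFounded.fix` for `measure (fun g => ρ [g⁻¹])` with
`∑ s ∈ S.attach, if h : σ [(g s)⁻¹] = s then w s • T (g s) (decreasing proof) else 0`,
`WellFounded.fix_eq`.)
`T (h g) = h T(g)` by strong induction on `ρ`, as `[(h g)⁻¹] = [g⁻¹ h⁻¹] = [g⁻¹]`.
Put `N_s(x) = - w(s) • T x` if `σ [x⁻¹] = s`, and `0` otherwise.  Then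
 `Σ_s (N_s(g s) - w(s) N_s(g)) = - Σ_{s, σ [(g s)⁻¹] = s} w(s) T (g s) + w(s')² T g` with
 `s' = σ [g⁻¹] ∈ S`, and `w(s')² = 1`, so this is `T g - (T g - F g) = F g`.
-/

namespace PDT

theorem coinv {G : Type*} [Group G] (H : Subgroup G) {M : Type*} [AddCommGroup M]
    (a : H →* AddMonoid.End M) (w : G →* ℤˣ) (S : Finset G) (ρ : G ⧸ H → ℕ)
    (hρ : ∀ c : G ⧸ H, ∃ s ∈ S, ρ c < ρ (s • c)) (F : G → M)
    (hF : ∀ (h : H) (g : G), F (h * g) = a h (F g)) :
    ∃ N : G → G → M, (∀ (s : G) (h : H) (g : G), N s (h * g) = a h (N s g)) ∧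
      ∀ g, F g = ∑ s ∈ S, (N s (g * s) - (w s : ℤ) • N s g) := by
  classical
  choose σ hσS hσ using hρ
  set q : G → G ⧸ H := fun g => ((g⁻¹ : G) : G ⧸ H) with hq
  have hqh : ∀ (h : H) (g : G), q (h * g) = q g := by
    intro h g
    show (((h * g : G)⁻¹ : G) : G ⧸ H) = ((g⁻¹ : G) : G ⧸ H)
    rw [QuotientGroup.eq]
    have : ((h * g : G)⁻¹)⁻¹ * g⁻¹ = (h : G) := by group
    rw [this]
    exact h.2
  have hqs : ∀ (g s : G), s • q (g * s) = q g := by
    intro g s
    show s • (((g * s : G)⁻¹ : G) : G ⧸ H) = ((g⁻¹ : G) : G ⧸ H)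
    rw [MulAction.Quotient.smul_coe]
    congr 1
    rw [smul_eq_mul]
    group
  have hdec : ∀ (g s : G), σ (q (g * s)) = s → ρ (q (g * s)) < ρ (q g) := by
    intro g s h
    have h1 := hσ (q (g * s))
    rw [h, hqs] at h1
    exact h1
  obtain ⟨T, hT⟩ : ∃ T : G → M, ∀ g, T g = F g +
      ∑ s ∈ S, if σ (q (g * s)) = s then (w s : ℤ) • T (g * s) else 0 := by
    let wf := (measure (fun g : G => ρ (q g))).wf
    refine ⟨wf.fix (fun g ih => F g + ∑ s ∈ S,
      if h : σ (q (g * s)) = s then (w s : ℤ) • ih (g * s) (hdec g s h) else 0), ?_⟩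
    intro g
    rw [WellFounded.fix_eq]
    congr 1
  have hTe : ∀ (n : ℕ) (h : H) (g : G), ρ (q g) = n → T (h * g) = a h (T g) := by
    intro n
    induction n using Nat.strong_induction_on with
    | _ n ih =>
      intro h g hn
      rw [hT (h * g), hT g, hF, map_add, map_sum]
      congr 1
      refine Finset.sum_congr rfl fun s _ => ?_
      rw [mul_assoc, hqh h (g * s)]
      by_cases hs : σ (q (g * s)) = s
      · rw [if_pos hs, if_pos hs, ih (ρ (q (g * s))) (hn ▸ hdec g s hs) h (g * s) rfl, map_zsmul]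
      · rw [if_neg hs, if_neg hs, map_zero]
  refine ⟨fun s x => if σ (q x) = s then -((w s : ℤ) • T x) else 0, ?_, ?_⟩
  · intro s h g
    simp only
    rw [hqh h g]
    by_cases hs : σ (q g) = s
    · rw [if_pos hs, if_pos hs, hTe _ h g rfl, map_neg, map_zsmul]
    · rw [if_neg hs, if_neg hs, map_zero]
  · intro g
    rw [Finset.sum_sub_distrib]
    have e1 : ∑ s ∈ S, (if σ (q (g * s)) = s then -((w s : ℤ) • T (g * s)) else 0) =
        F g - T g := by
      rw [hT g, sub_add_cancel_left, ← Finset.sum_neg_distrib]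
      refine Finset.sum_congr rfl fun s _ => ?_
      by_cases hs : σ (q (g * s)) = s
      · rw [if_pos hs, if_pos hs]
      · rw [if_neg hs, if_neg hs, neg_zero]
    have e2 : ∑ s ∈ S, (w s : ℤ) • (if σ (q g) = s then -((w s : ℤ) • T g) else 0) = -T g := by
      rw [Finset.sum_eq_single (σ (q g))]
      · rw [if_pos rfl, smul_neg, smul_smul]
        have : ((w (σ (q g)) : ℤˣ) : ℤ) * ((w (σ (q g)) : ℤˣ) : ℤ) = 1 := by
          rw [← Units.val_mul, Int.units_mul_self, Units.val_one]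
        rw [this, one_smul]
      · intro s _ hs
        rw [if_neg (fun h => hs h.symm), smul_zero]
      · intro h
        exact absurd (hσS (q g)) h
    rw [e1, e2]
    abel

end PDT
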