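import Pool.Agent.Lib.PDT.Base5
import Pool.Agent.Lib.PDT.LiftV

/-!
# PDT/DerStab: the stabilisers have one end

`H^1(H; ℤ[H]) = 0` (`hH1`), `P2 → P1 → P0` finitely generated projective modules, exact at `P1`, `H` acts on
`X`, `θ : P2* → ℤ[X]` equivariant with kernel `{f' ∘ d2}` and image the augmentation kernel.  Then
`H^1(K; ℤ[K]) = 0` for the stabiliser `K` of `x0 ∈ X`.

Complete proof.  (0) It is enough to prove: (*) for a derivation `δ : K → Zg H` (`δ (x y) = δ x + el x * δ y`) there is `a : Zg H` with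
`δ k = el k * a - a`.  For `δ : K → Zg K` apply (*) to `i_* ∘ δ`, `i_* = zl (fun k => el (k : H)) : Zg K →+ Zg H`; let
`r : Zg H →+ Zg K` be `r = zl (fun h => if h ∈ K then el ⟨h, _⟩ else 0)`; `r (i_* y) = y`, `r (el k * y) = el k * r y`; so
`δ k = el k * r a - r a`.
(1) Let `δ : K → N = Zg H`.  Let `O` be the orbit of `x0`; choose `t : X → H` with `t c • x0 = c` for `c ∈ O`.  For `h : H`, `c ∈ X` let
`Δ_h(c) = el (t (h • c)) * δ ((t (h • c))⁻¹ * h * t c)` if `c ∈ O` (the argument is in `K`), and `0` otherwise; extend additively to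
`Δ_h : (X →₀ ℤ) →+ N`.  `Δ_(h h')(F) = Δ_h (h'·F) + el h * Δ_h' (F)`, `(h·F)(x) = F (h⁻¹ • x)`.
(2) There is `ρ : P2* →+ N` with `ρ (dl h f) = el h * ρ f - Δ_h (θ f)`: `lift_V` for `Q = P2`, `X = N × P2*` with the action
`a_h (n, f) = (el h * n - Δ_h (θ f), dl h f)` (an action by the formula in (1), and `θ (dl h f) = h·(θ f)`), `Y = P2*` with the
action `dl`, `π = snd`, `f = id`.
(3) For `f' : P1*`, `ρ' f' = ρ (f' ∘ d2)` satisfies `ρ' (dl h f') = el h * ρ' f'` (`θ (f' ∘ d2) = 0`), so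
`ρ' (rm f' y) = ivo y * ρ' f'` for `y : Zg H` (additive in `y`; `rm f' (el h⁻¹) = dl h f'`).  With a dual basis `(e_i, f_i)` of `P1` put
`q = Σ_i ivo (ρ' f_i) • e_i`: for every `f' : P1*`, `f' = Σ_i rm f_i (f' e_i)`, so `ρ' f' = Σ_i ivo (f' e_i) * ρ' f_i = ivo (f' q)`
(`ivo_mul`, `ivo_ivo`).  For `g : P0*`: `ivo (g (d1 q)) = ρ' (g ∘ d1) = ρ (g ∘ d1 ∘ d2) = 0`, so `g (d1 q) = 0` for all `g`, `d1 q = 0` (dual basis of
`P0`), and `q = d2 p` (`ex1`).  Put `ρ2 f = ρ f - ivo (f p)`: again `ρ2 (dl h f) = el h * ρ2 f - Δ_h (θ f)` (`ivo (f p * el h⁻¹) = el h * ivo (f p)`), and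
`ρ2 (f' ∘ d2) = 0`.  So `ρ2 f` depends only on `θ f` (`hθk`).
(4) For `c ∈ X` choose `f_c` with `θ f_c = single c 1 - single x0 1`, `s(c) = ρ2 f_c`.  For `h : H`:
`θ (f_(h c) - dl h f_c - f_(h x0)) = 0`, so `s(h c) = ρ2 (dl h f_c) + s(h x0) = el h * s(c) - Δ_h(c) + Δ_h(x0) + s(h x0)`.  So
`Δ_h(c) = el h * s(c) - s(h c) + ψ(h)`, `ψ(h) = Δ_h(x0) + s(h x0)`, for all `c ∈ X`.  By the formula in (1),
`ψ (h h') = ψ h + el h * ψ h'` [`ψ(h h') = Δ_(h h')(c) - h h' s(c) + s(h h' c) = Δ_h(h' c) + h Δ_h'(c) - …`].  By `hH1`, `ψ h = el h * a - a`.  For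
`k ∈ K`, `c = x0`: `Δ_k(x0) = el k * s(x0) - s(x0) + el k * a - a`, and `Δ_k(x0) = el t * δ (t⁻¹ k t)`, `t = t x0 ∈ K`.  `δ (t⁻¹ k t) = δ(t⁻¹) + el t⁻¹ δ(k) + el (t⁻¹ k) δ(t)` and
`δ(t⁻¹) = - el t⁻¹ δ(t)`, so `Δ_k(x0) = δ(k) + el k δ(t) - δ(t)`.  (One may choose `t x0 = 1`.)  So `δ` is inner.
-/

namespace PDT

open Function

section derstab

open Classical in
/-- A choice of group elements moving `x0` to the points of its orbit. -/
private noncomputable def ds_t {H : Type*} [Group H] {X : Type*} [MulAction H X] (x0 c : X) : H :=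
  if c = x0 then 1 else if h : ∃ g : H, g • x0 = c then h.choose else 1

private theorem ds_t_self {H : Type*} [Group H] {X : Type*} [MulAction H X] (x0 : X) :
    ds_t (H := H) x0 x0 = 1 := by
  unfold ds_t
  rw [if_pos rfl]

private theorem ds_t_smul {H : Type*} [Group H] {X : Type*} [MulAction H X] {x0 c : X}
    (hc : ∃ g : H, g • x0 = c) : ds_t (H := H) x0 c • x0 = c := by
  unfold ds_t
  by_cases h : c = x0
  · rw [if_pos h, one_smul, h]
  · rw [if_neg h, dif_pos hc]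
    exact hc.choose_spec

private theorem ds_orb {H : Type*} [Group H] {X : Type*} [MulAction H X] {x0 c : X}
    (hc : ∃ g : H, g • x0 = c) (h : H) : ∃ g : H, g • x0 = h • c := by
  obtain ⟨g, rfl⟩ := hc
  exact ⟨h * g, mul_smul _ _ _⟩

private theorem ds_orb_iff {H : Type*} [Group H] {X : Type*} [MulAction H X] {x0 c : X} (h : H) :
    (∃ g : H, g • x0 = h • c) ↔ ∃ g : H, g • x0 = c := by
  constructor
  · intro h1
    have h2 := ds_orb h1 h⁻¹
    rwa [inv_smul_smul] at h2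
  · intro h1
    exact ds_orb h1 h

private theorem ds_mem {H : Type*} [Group H] {X : Type*} [MulAction H X] {x0 c : X}
    (hc : ∃ g : H, g • x0 = c) (h : H) :
    (ds_t x0 (h • c))⁻¹ * h * ds_t x0 c ∈ MulAction.stabilizer H x0 := by
  rw [MulAction.mem_stabilizer_iff, mul_smul, mul_smul, ds_t_smul hc, inv_smul_eq_iff,
    ds_t_smul (ds_orb hc h)]

variable {H : Type*} [Group H] {X : Type*} [MulAction H X]

open Classical in
/-- The cochain `Δ_h(c)`. -/
private noncomputable def ds_D (x0 : X) (δ : MulAction.stabilizer H x0 → Zg H) (h : H) (c : X) :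
    Zg H :=
  if hc : ∃ g : H, g • x0 = c then el (ds_t x0 (h • c)) * δ ⟨_, ds_mem hc h⟩ else 0

private theorem ds_D_pos {x0 : X} {δ : MulAction.stabilizer H x0 → Zg H} (h : H) {c : X}
    (hc : ∃ g : H, g • x0 = c) :
    ds_D x0 δ h c = el (ds_t x0 (h • c)) * δ ⟨_, ds_mem hc h⟩ := by
  unfold ds_D
  rw [dif_pos hc]

private theorem ds_D_neg {x0 : X} {δ : MulAction.stabilizer H x0 → Zg H} (h : H) {c : X}
    (hc : ¬ ∃ g : H, g • x0 = c) : ds_D x0 δ h c = 0 := by
  unfold ds_D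
  rw [dif_neg hc]

private theorem ds_D_mul {x0 : X} {δ : MulAction.stabilizer H x0 → Zg H}
    (hδ : ∀ x y, δ (x * y) = δ x + el (x : H) * δ y) (h h' : H) (c : X) :
    ds_D x0 δ (h * h') c = ds_D x0 δ h (h' • c) + el h * ds_D x0 δ h' c := by
  by_cases hc : ∃ g : H, g • x0 = c
  · have hc' := ds_orb hc h'
    rw [ds_D_pos _ hc, ds_D_pos _ hc', ds_D_pos _ hc]
    have e1 : (⟨_, ds_mem hc (h * h')⟩ : MulAction.stabilizer H x0) =
        ⟨_, ds_mem hc' h⟩ * ⟨_, ds_mem hc h'⟩ := by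
      apply Subtype.ext
      simp only [Subgroup.coe_mul, mul_smul]
      group
    rw [e1, hδ, mul_add, mul_smul]
    congr 1
    rw [← mul_assoc, ← el_mul, ← mul_assoc (el h), ← el_mul]
    congr 2
    group
  · have hc' : ¬ ∃ g : H, g • x0 = h' • c := fun h1 => hc ((ds_orb_iff h').1 h1)
    rw [ds_D_neg _ hc, ds_D_neg _ hc', ds_D_neg _ hc, mul_zero, add_zero]

private theorem ds_D_self {x0 : X} {δ : MulAction.stabilizer H x0 → Zg H}
    (k : MulAction.stabilizer H x0) : ds_D x0 δ (k : H) x0 = δ k := by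
  have hc : ∃ g : H, g • x0 = x0 := ⟨1, one_smul _ _⟩
  have hk : (k : H) • x0 = x0 := k.2
  rw [ds_D_pos _ hc]
  have e1 : (⟨_, ds_mem hc (k : H)⟩ : MulAction.stabilizer H x0) = k := by
    apply Subtype.ext
    change (ds_t x0 ((k : H) • x0))⁻¹ * (k : H) * ds_t x0 x0 = k
    rw [hk, ds_t_self, inv_one, one_mul, mul_one]
  rw [e1, hk, ds_t_self, el_one, one_mul]

/-- The additive extension of `Δ_h`. -/
private noncomputable def ds_F (x0 : X) (δ : MulAction.stabilizer H x0 → Zg H) (h : H) :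
    (X →₀ ℤ) →+ Zg H :=
  Finsupp.liftAddHom fun c => zmultiplesHom (Zg H) (ds_D x0 δ h c)

private theorem ds_F_single (x0 : X) (δ : MulAction.stabilizer H x0 → Zg H) (h : H) (c : X)
    (n : ℤ) : ds_F x0 δ h (Finsupp.single c n) = n • ds_D x0 δ h c := by
  unfold ds_F
  rw [Finsupp.liftAddHom_apply_single]
  rfl

private theorem ds_F_mul {x0 : X} {δ : MulAction.stabilizer H x0 → Zg H}
    (hδ : ∀ x y, δ (x * y) = δ x + el (x : H) * δ y) (h h' : H) (F : X →₀ ℤ) :
    ds_F x0 δ (h * h') F = ds_F x0 δ h (Finsupp.mapDomain (fun x => h' • x) F) +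
      el h * ds_F x0 δ h' F := by
  induction F using Finsupp.induction_linear with
  | zero => simp
  | add f g hf hg =>
    rw [map_add, hf, hg, Finsupp.mapDomain_add, map_add, map_add, mul_add]
    abel
  | single c n =>
    rw [Finsupp.mapDomain_single, ds_F_single, ds_F_single, ds_F_single, ds_D_mul hδ, smul_add,
      mul_smul_comm]

private theorem ds_F_one {x0 : X} {δ : MulAction.stabilizer H x0 → Zg H}
    (hδ : ∀ x y, δ (x * y) = δ x + el (x : H) * δ y) (F : X →₀ ℤ) : ds_F x0 δ 1 F = 0 := by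
  have h1 := ds_F_mul hδ 1 1 F
  have h2 : (fun x : X => (1 : H) • x) = id := by
    funext x
    exact one_smul _ _
  rw [h2, Finsupp.mapDomain_id, el_one, mul_one, one_mul] at h1
  exact left_eq_add.1 h1

private theorem ds_th {P2 : Type*} [AddCommGroup P2] [Module (Zg H) P2]
    (θ : (P2 →ₗ[Zg H] Zg H) →+ (X →₀ ℤ))
    (hθ : ∀ (h : H) f x, θ (dl h f) (h • x) = θ f x) (h : H) (f : P2 →ₗ[Zg H] Zg H) :
    θ (dl h f) = Finsupp.mapDomain (fun x => h • x) (θ f) := by
  ext x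
  have h1 : x = h • (h⁻¹ • x) := (smul_inv_smul h x).symm
  have h2 : Finsupp.mapDomain (fun x => h • x) (θ f) (h • (h⁻¹ • x)) = θ f (h⁻¹ • x) :=
    Finsupp.mapDomain_apply (MulAction.injective h) (θ f) (h⁻¹ • x)
  conv_lhs => rw [h1, hθ]
  conv_rhs => rw [h1]
  exact h2.symm

/-- The action `a_h (n, f) = (el h * n - Δ_h (θ f), dl h f)`. -/
private noncomputable def ds_act {P2 : Type*} [AddCommGroup P2] [Module (Zg H) P2] {x0 : X}
    {δ : MulAction.stabilizer H x0 → Zg H}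
    (hδ : ∀ x y, δ (x * y) = δ x + el (x : H) * δ y)
    (θ : (P2 →ₗ[Zg H] Zg H) →+ (X →₀ ℤ))
    (hθ : ∀ (h : H) f x, θ (dl h f) (h • x) = θ f x) :
    H →* AddMonoid.End (Zg H × (P2 →ₗ[Zg H] Zg H)) where
  toFun h :=
    { toFun := fun z => (el h * z.1 - ds_F x0 δ h (θ z.2), dl h z.2)
      map_zero' := by
        ext1
        · simp
        · apply LinearMap.ext
          intro q
          simp
      map_add' := by
        intro z z'
        ext1
        · change el h * (z.1 + z'.1) - ds_F x0 δ h (θ (z.2 + z'.2)) =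
            (el h * z.1 - ds_F x0 δ h (θ z.2)) + (el h * z'.1 - ds_F x0 δ h (θ z'.2))
          rw [map_add, map_add, mul_add]
          abel
        · exact dl_add h z.2 z'.2 }
  map_one' := by
    apply AddMonoidHom.ext
    intro z
    ext1
    · change el (1 : H) * z.1 - ds_F x0 δ 1 (θ z.2) = z.1
      rw [ds_F_one hδ, el_one, one_mul, sub_zero]
    · exact dl_one z.2
  map_mul' h h' := by
    apply AddMonoidHom.ext
    intro z
    ext1
    · change el (h * h') * z.1 - ds_F x0 δ (h * h') (θ z.2) =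
        el h * (el h' * z.1 - ds_F x0 δ h' (θ z.2)) - ds_F x0 δ h (θ (dl h' z.2))
      rw [ds_F_mul hδ, ds_th θ hθ, el_mul, mul_sub, mul_assoc]
      abel
    · exact dl_mul h h' z.2

/-- Claim (2): the lift `ρ`. -/
private theorem ds_rho {P2 : Type*} [AddCommGroup P2] [Module (Zg H) P2]
    [Module.Finite (Zg H) P2] [Module.Projective (Zg H) P2] {x0 : X}
    {δ : MulAction.stabilizer H x0 → Zg H}
    (hδ : ∀ x y, δ (x * y) = δ x + el (x : H) * δ y)
    (θ : (P2 →ₗ[Zg H] Zg H) →+ (X →₀ ℤ))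
    (hθ : ∀ (h : H) f x, θ (dl h f) (h • x) = θ f x) :
    ∃ ρ : (P2 →ₗ[Zg H] Zg H) →+ Zg H,
      ∀ h f, ρ (dl h f) = el h * ρ f - ds_F x0 δ h (θ f) := by
  let b : H →* AddMonoid.End (P2 →ₗ[Zg H] Zg H) :=
    { toFun := fun h =>
        { toFun := fun f => dl h f
          map_zero' := by
            apply LinearMap.ext
            intro q
            simp
          map_add' := fun f f' => dl_add h f f' }
      map_one' := by
        apply AddMonoidHom.ext
        intro f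
        exact dl_one f
      map_mul' := by
        intro h h'
        apply AddMonoidHom.ext
        intro f
        exact dl_mul h h' f }
  obtain ⟨F, hF1, hF2⟩ := lift_V (ds_act hδ θ hθ) b (AddMonoidHom.snd _ _) (fun k x => rfl)
    (AddMonoidHom.id _) (fun k r => rfl) (fun r => ⟨(0, r), rfl⟩)
  refine ⟨(AddMonoidHom.fst _ _).comp F, fun h f => ?_⟩
  have h1 := hF1 h f
  have h2 : (F f).2 = f := hF2 f
  have h3 : (F (dl h f)).1 = el h * (F f).1 - ds_F x0 δ h (θ (F f).2) := by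
    rw [h1]
    rfl
  rw [h2] at h3
  exact h3

private theorem ds_rm_add {Q : Type*} [AddCommGroup Q] [Module (Zg H) Q] (f : Q →ₗ[Zg H] Zg H)
    (y y' : Zg H) : rm f (y + y') = rm f y + rm f y' := by
  apply LinearMap.ext
  intro q
  simp [mul_add]

private theorem ds_rm {Q : Type*} [AddCommGroup Q] [Module (Zg H) Q]
    (r : (Q →ₗ[Zg H] Zg H) →+ Zg H) (hr : ∀ h f, r (dl h f) = el h * r f)
    (f : Q →ₗ[Zg H] Zg H) (y : Zg H) : r (rm f y) = ivo y * r f := by
  let F1 : Zg H →+ Zg H :=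
    { toFun := fun y => r (rm f y)
      map_zero' := by
        have : rm f 0 = 0 := by
          apply LinearMap.ext
          intro q
          simp
        rw [this, map_zero]
      map_add' := fun y y' => by rw [ds_rm_add, map_add] }
  have h1 : F1 = (AddMonoidHom.mulRight (r f)).comp ivo := by
    apply zhom_ext
    intro g
    change r (rm f (el g)) = ivo (el g) * r f
    have h2 : rm f (el g) = dl g⁻¹ f := by
      unfold dl
      rw [inv_inv]
    rw [h2, hr, ivo_el]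
  exact DFunLike.congr_fun h1 y

/-- Claim (3): correction of `ρ`. -/
private theorem ds_rho2 {P0 P1 P2 : Type*} [AddCommGroup P0] [Module (Zg H) P0] [AddCommGroup P1]
    [Module (Zg H) P1] [AddCommGroup P2] [Module (Zg H) P2]
    [Module.Finite (Zg H) P0] [Module.Projective (Zg H) P0]
    [Module.Finite (Zg H) P1] [Module.Projective (Zg H) P1]
    [Module.Finite (Zg H) P2] [Module.Projective (Zg H) P2] (d1 : P1 →ₗ[Zg H] P0)
    (d2 : P2 →ₗ[Zg H] P1) (ex1 : ∀ p, d1 p = 0 ↔ ∃ q, d2 q = p) {x0 : X}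
    {δ : MulAction.stabilizer H x0 → Zg H}
    (hδ : ∀ x y, δ (x * y) = δ x + el (x : H) * δ y)
    (θ : (P2 →ₗ[Zg H] Zg H) →+ (X →₀ ℤ))
    (hθ : ∀ (h : H) f x, θ (dl h f) (h • x) = θ f x)
    (hθk : ∀ f, θ f = 0 ↔ ∃ f' : P1 →ₗ[Zg H] Zg H, f = f' ∘ₗ d2) :
    ∃ ρ : (P2 →ₗ[Zg H] Zg H) →+ Zg H,
      (∀ h f, ρ (dl h f) = el h * ρ f - ds_F x0 δ h (θ f)) ∧ ∀ f, θ f = 0 → ρ f = 0 := by
  obtain ⟨ρ, hρ⟩ := ds_rho (x0 := x0) hδ θ hθ
  let r : (P1 →ₗ[Zg H] Zg H) →+ Zg H :=
    { toFun := fun f => ρ (f ∘ₗ d2)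
      map_zero' := by rw [LinearMap.zero_comp, map_zero]
      map_add' := fun f f' => by rw [LinearMap.add_comp, map_add] }
  have hr : ∀ h f, r (dl h f) = el h * r f := by
    intro h f
    change ρ (dl h f ∘ₗ d2) = el h * ρ (f ∘ₗ d2)
    rw [dl_comp, hρ, (hθk (f ∘ₗ d2)).2 ⟨f, rfl⟩, map_zero, sub_zero]
  obtain ⟨n, e, f, hef⟩ := dualBasis (G := H) P1
  set q : P1 := ∑ i, ivo (r (f i)) • e i with hq
  have hrq : ∀ f' : P1 →ₗ[Zg H] Zg H, r f' = ivo (f' q) := by
    intro f'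
    have h1 : f' = ∑ i, rm (f i) (f' (e i)) := by
      apply LinearMap.ext
      intro p
      conv_lhs => rw [hef p]
      rw [map_sum, LinearMap.sum_apply]
      refine Finset.sum_congr rfl fun i _ => ?_
      rw [map_smul, rm_apply, smul_eq_mul]
    conv_lhs => rw [h1]
    rw [map_sum, hq, map_sum, map_sum]
    refine Finset.sum_congr rfl fun i _ => ?_
    rw [ds_rm r hr, map_smul, smul_eq_mul, ivo_mul, ivo_ivo]
  have hd1q : d1 q = 0 := by
    obtain ⟨n', e', g, heg⟩ := dualBasis (G := H) P0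
    rw [heg (d1 q)]
    refine Finset.sum_eq_zero fun j _ => ?_
    have h1 : r (g j ∘ₗ d1) = 0 := by
      change ρ ((g j ∘ₗ d1) ∘ₗ d2) = 0
      have h2 : (g j ∘ₗ d1) ∘ₗ d2 = 0 := by
        apply LinearMap.ext
        intro p
        change g j (d1 (d2 p)) = 0
        rw [(ex1 (d2 p)).2 ⟨p, rfl⟩, map_zero]
      rw [h2, map_zero]
    rw [hrq] at h1
    have h3 : g j (d1 q) = 0 := by
      have h4 := congrArg ivo h1
      rw [ivo_ivo, map_zero] at h4
      exact h4
    rw [h3, zero_smul]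
  obtain ⟨p, hp⟩ := (ex1 q).1 hd1q
  let ev : (P2 →ₗ[Zg H] Zg H) →+ Zg H :=
    { toFun := fun f => ivo (f p)
      map_zero' := by rw [LinearMap.zero_apply, map_zero]
      map_add' := fun f f' => by rw [LinearMap.add_apply, map_add] }
  refine ⟨ρ - ev, fun h f => ?_, fun f hf => ?_⟩
  · rw [AddMonoidHom.sub_apply, AddMonoidHom.sub_apply, hρ]
    have h1 : ev (dl h f) = el h * ev f := by
      change ivo (f p * el h⁻¹) = el h * ivo (f p)
      rw [ivo_mul, ivo_el, inv_inv]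
    rw [h1, mul_sub]
    abel
  · obtain ⟨f', rfl⟩ := (hθk f).1 hf
    rw [AddMonoidHom.sub_apply]
    have h1 : ρ (f' ∘ₗ d2) = ivo (f' q) := hrq f'
    have h2 : ev (f' ∘ₗ d2) = ivo (f' q) := by
      change ivo (f' (d2 p)) = ivo (f' q)
      rw [hp]
    rw [h1, h2, sub_self]

/-- Claim (*): derivations of the stabiliser into `ℤ[H]` are inner. -/
private theorem ds_star
    (hH1 : ∀ δ : H → Zg H, (∀ x y, δ (x * y) = δ x + el x * δ y) → ∃ a, ∀ x, δ x = el x * a - a)
    {P0 P1 P2 : Type*} [AddCommGroup P0] [Module (Zg H) P0] [AddCommGroup P1]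
    [Module (Zg H) P1] [AddCommGroup P2] [Module (Zg H) P2]
    [Module.Finite (Zg H) P0] [Module.Projective (Zg H) P0]
    [Module.Finite (Zg H) P1] [Module.Projective (Zg H) P1]
    [Module.Finite (Zg H) P2] [Module.Projective (Zg H) P2] (d1 : P1 →ₗ[Zg H] P0)
    (d2 : P2 →ₗ[Zg H] P1) (ex1 : ∀ p, d1 p = 0 ↔ ∃ q, d2 q = p) {x0 : X}
    (θ : (P2 →ₗ[Zg H] Zg H) →+ (X →₀ ℤ))
    (hθ : ∀ (h : H) f x, θ (dl h f) (h • x) = θ f x)
    (hθk : ∀ f, θ f = 0 ↔ ∃ f' : P1 →ₗ[Zg H] Zg H, f = f' ∘ₗ d2)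
    (hθr : ∀ F : X →₀ ℤ, F.sum (fun _ n => n) = 0 ↔ ∃ f, θ f = F)
    (δ : MulAction.stabilizer H x0 → Zg H)
    (hδ : ∀ x y, δ (x * y) = δ x + el (x : H) * δ y) :
    ∃ a : Zg H, ∀ k : MulAction.stabilizer H x0, δ k = el (k : H) * a - a := by
  obtain ⟨ρ, hρ, hρ0⟩ := ds_rho2 d1 d2 ex1 hδ θ hθ hθk
  have hex : ∀ c : X, ∃ f, θ f = Finsupp.single c 1 - Finsupp.single x0 1 := by
    intro c
    apply (hθr _).1
    rw [Finsupp.sum_sub_index (fun _ _ _ => rfl), Finsupp.sum_single_index rfl,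
      Finsupp.sum_single_index rfl, sub_self]
  choose fc hfc using hex
  set s : X → Zg H := fun c => ρ (fc c) with hs
  have hs0 : s x0 = 0 := by
    apply hρ0
    rw [hfc, sub_self]
  have key : ∀ h c, s (h • c) = el h * s c - ds_D x0 δ h c + ds_D x0 δ h x0 + s (h • x0) := by
    intro h c
    have h1 : θ (fc (h • c) - dl h (fc c) - fc (h • x0)) = 0 := by
      have e1 : Finsupp.mapDomain (fun x => h • x)
          (Finsupp.single c (1 : ℤ) - Finsupp.single x0 1) =
          Finsupp.single (h • c) 1 - Finsupp.single (h • x0) 1 := by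
        have h2 := (Finsupp.mapDomain.addMonoidHom (M := ℤ) (fun x : X => h • x)).map_sub
          (Finsupp.single c 1) (Finsupp.single x0 1)
        change Finsupp.mapDomain (fun x => h • x) _ = Finsupp.mapDomain (fun x => h • x) _ -
          Finsupp.mapDomain (fun x => h • x) _ at h2
        rw [h2, Finsupp.mapDomain_single, Finsupp.mapDomain_single]
      rw [map_sub, map_sub, ds_th θ hθ, hfc, hfc, hfc, e1]
      abel
    have h2 := hρ0 _ h1
    rw [map_sub, map_sub, hρ, hfc, map_sub, ds_F_single, ds_F_single, one_smul, one_smul] at h2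
    have h3 : s (h • c) = (el h * s c - (ds_D x0 δ h c - ds_D x0 δ h x0)) + s (h • x0) := by
      change ρ (fc (h • c)) =
        (el h * ρ (fc c) - (ds_D x0 δ h c - ds_D x0 δ h x0)) + ρ (fc (h • x0))
      have h4 := sub_eq_zero.1 h2
      have h5 := sub_eq_iff_eq_add.1 h4
      rw [h5]
      abel
    rw [h3]
    abel
  set ψ : H → Zg H := fun h => ds_D x0 δ h x0 + s (h • x0) with hψ
  have hψm : ∀ h h', ψ (h * h') = ψ h + el h * ψ h' := by
    intro h h'
    have h1 := key h (h' • x0)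
    change ds_D x0 δ (h * h') x0 + s ((h * h') • x0) =
      (ds_D x0 δ h x0 + s (h • x0)) + el h * (ds_D x0 δ h' x0 + s (h' • x0))
    rw [ds_D_mul hδ, mul_smul, h1, mul_add]
    abel
  obtain ⟨a, ha⟩ := hH1 ψ hψm
  refine ⟨a, fun k => ?_⟩
  have h1 := ha (k : H)
  have hk : (k : H) • x0 = x0 := k.2
  change ds_D x0 δ (k : H) x0 + s ((k : H) • x0) = el (k : H) * a - a at h1
  rw [hk, hs0, add_zero, ds_D_self] at h1
  exact h1

end derstab

theorem der_stab {H : Type*} [Group H]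
    (hH1 : ∀ δ : H → Zg H, (∀ x y, δ (x * y) = δ x + el x * δ y) → ∃ a, ∀ x, δ x = el x * a - a)
    {P0 P1 P2 : Type*} [AddCommGroup P0] [Module (Zg H) P0] [AddCommGroup P1]
    [Module (Zg H) P1] [AddCommGroup P2] [Module (Zg H) P2]
    [Module.Finite (Zg H) P0] [Module.Projective (Zg H) P0]
    [Module.Finite (Zg H) P1] [Module.Projective (Zg H) P1]
    [Module.Finite (Zg H) P2] [Module.Projective (Zg H) P2] (d1 : P1 →ₗ[Zg H] P0)
    (d2 : P2 →ₗ[Zg H] P1) (ex1 : ∀ p, d1 p = 0 ↔ ∃ q, d2 q = p)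
    {X : Type*} [MulAction H X] (θ : (P2 →ₗ[Zg H] Zg H) →+ (X →₀ ℤ))
    (hθ : ∀ (h : H) f x, θ (dl h f) (h • x) = θ f x)
    (hθk : ∀ f, θ f = 0 ↔ ∃ f' : P1 →ₗ[Zg H] Zg H, f = f' ∘ₗ d2)
    (hθr : ∀ F : X →₀ ℤ, F.sum (fun _ n => n) = 0 ↔ ∃ f, θ f = F) (x0 : X)
    (δ : MulAction.stabilizer H x0 → Zg (MulAction.stabilizer H x0))
    (hδ : ∀ x y, δ (x * y) = δ x + el x * δ y) : ∃ a, ∀ x, δ x = el x * a - a := by
  classical
  let i : Zg (MulAction.stabilizer H x0) →+ Zg H := zl fun k => el (k : H)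
  let r : Zg H →+ Zg (MulAction.stabilizer H x0) := zl fun h =>
    if hh : h ∈ MulAction.stabilizer H x0 then el ⟨h, hh⟩ else 0
  have hi : ∀ (x : MulAction.stabilizer H x0) y, i (el x * y) = el (x : H) * i y := by
    intro x y
    have h1 : i.comp (AddMonoidHom.mulLeft (el x)) =
        (AddMonoidHom.mulLeft (el (x : H))).comp i := by
      apply zhom_ext
      intro g
      change i (el x * el g) = el (x : H) * i (el g)
      rw [← el_mul]
      change zl _ (el (x * g)) = el (x : H) * zl _ (el g)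
      rw [zl_el, zl_el, ← el_mul]
      rfl
    exact DFunLike.congr_fun h1 y
  have hri : ∀ y, r (i y) = y := by
    intro y
    have h1 : r.comp i = AddMonoidHom.id _ := by
      apply zhom_ext
      intro g
      change zl _ (zl _ (el g)) = el g
      rw [zl_el, zl_el, dif_pos g.2]
    exact DFunLike.congr_fun h1 y
  have hrm : ∀ (x : MulAction.stabilizer H x0) y, r (el (x : H) * y) = el x * r y := by
    intro x y
    have h1 : r.comp (AddMonoidHom.mulLeft (el (x : H))) = (AddMonoidHom.mulLeft (el x)).comp r := by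
      apply zhom_ext
      intro g
      change r (el (x : H) * el g) = el x * r (el g)
      rw [← el_mul]
      change zl _ (el ((x : H) * g)) = el x * zl _ (el g)
      rw [zl_el, zl_el]
      by_cases hg : g ∈ MulAction.stabilizer H x0
      · rw [dif_pos hg, dif_pos (mul_mem x.2 hg), ← el_mul]
        rfl
      · have hg' : (x : H) * g ∉ MulAction.stabilizer H x0 := fun h2 => hg (by
          have h3 := mul_mem (inv_mem x.2) h2
          rwa [inv_mul_cancel_left] at h3)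
        rw [dif_neg hg, dif_neg hg', mul_zero]
    exact DFunLike.congr_fun h1 y
  obtain ⟨a, ha⟩ := ds_star hH1 d1 d2 ex1 θ hθ hθk hθr (x0 := x0) (fun k => i (δ k))
    (fun x y => by rw [hδ, map_add, hi])
  refine ⟨r a, fun x => ?_⟩
  have h1 := congrArg r (ha x)
  rw [hri, map_sub, hrm] at h1
  exact h1

end PDT
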