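import Mathlib

/-!
# PDT/DimCount: a dimension count in linear algebra

Only Mathlib.  Complete proof.  All spaces are finite-dimensional over the field `k`.  Let
`X' = ker R × B ⊆ X × B` (`(LinearMap.ker R).prod ⊤`), of dimension `dim X - rank R + dim B`.  The linear map
`D : X' → ker T`, `(m, b) ↦ Θ m - cob b` (well defined by `hΘ`, `hcob`), has a kernel `Z` of dimension at
least `dim X' - dim (ker T) = dim X - rank R + dim B - (dim U - rank T) ≥ dim X + dim B - dim U` (by `hRT`).
By `hΞ`, `Ξ` maps `Z` to `W'`, and the kernel of `Ξ : Z → W'` consists of pairs `(0, b)` with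
`cob b = Θ 0 = 0`: of dimension at most `dim (ker cob)`.  So `dim Z ≤ dim (ker cob) + dim W'`.
-/

namespace PDT

open Module

theorem dim_count {k : Type*} [Field k] {X B U V W : Type*} [AddCommGroup X] [Module k X]
    [FiniteDimensional k X] [AddCommGroup B] [Module k B] [FiniteDimensional k B]
    [AddCommGroup U] [Module k U] [FiniteDimensional k U] [AddCommGroup V] [Module k V]
    [FiniteDimensional k V] [AddCommGroup W] [Module k W] [FiniteDimensional k W]
    (R : X →ₗ[k] U) (T : U →ₗ[k] V) (Θ : X →ₗ[k] U) (cob : B →ₗ[k] U) (Ξ : (X × B) →ₗ[k] W)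
    (W' : Submodule k W)
    (hRT : finrank k (LinearMap.range R) ≤ finrank k (LinearMap.range T))
    (hcob : ∀ b, T (cob b) = 0) (hΘ : ∀ m, R m = 0 → T (Θ m) = 0)
    (hΞ : ∀ m b, R m = 0 → Θ m = cob b → Ξ (m, b) ∈ W' ∧ (Ξ (m, b) = 0 → m = 0)) :
    finrank k X + finrank k B ≤ finrank k U + finrank k (LinearMap.ker cob) + finrank k W' := by
  have h0 : ∀ q : (LinearMap.ker R) × B,
      ((Θ ∘ₗ (LinearMap.ker R).subtype).coprod (-cob)) q ∈ LinearMap.ker T := by
    rintro ⟨⟨m, hm⟩, b⟩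
    have h1 := hΘ m (LinearMap.mem_ker.1 hm)
    have h2 := hcob b
    rw [LinearMap.mem_ker]
    simp [h1, h2]
  let D : ((LinearMap.ker R) × B) →ₗ[k] (LinearMap.ker T) :=
    LinearMap.codRestrict (LinearMap.ker T) ((Θ ∘ₗ (LinearMap.ker R).subtype).coprod (-cob)) h0
  have hD : ∀ z ∈ LinearMap.ker D, Θ z.1 = cob z.2 := by
    rintro ⟨⟨m, hm⟩, b⟩ hz
    have h1 : ((Θ ∘ₗ (LinearMap.ker R).subtype).coprod (-cob)) (⟨m, hm⟩, b) = 0 :=
      congrArg Subtype.val (LinearMap.mem_ker.1 hz)
    have h2 : Θ m + -cob b = 0 := by simpa using h1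
    show Θ m = cob b
    exact eq_of_sub_eq_zero (by rw [sub_eq_add_neg]; exact h2)
  let E0 : (LinearMap.ker D) →ₗ[k] W :=
    Ξ ∘ₗ (((LinearMap.ker R).subtype.prodMap (LinearMap.id : B →ₗ[k] B)) ∘ₗ (LinearMap.ker D).subtype)
  have hE0 : ∀ z : LinearMap.ker D, E0 z = Ξ ((z.1.1 : X), z.1.2) := fun z => rfl
  have hE : ∀ z : LinearMap.ker D, E0 z ∈ W' := by
    intro z
    rw [hE0]
    exact (hΞ _ _ (LinearMap.mem_ker.1 z.1.1.2) (hD z.1 z.2)).1
  let E : (LinearMap.ker D) →ₗ[k] W' := LinearMap.codRestrict W' E0 hE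
  have hz0 : ∀ z : LinearMap.ker E, (z.1.1.1 : X) = 0 := by
    intro z
    have h1 : E0 z.1 = 0 := congrArg Subtype.val (LinearMap.mem_ker.1 z.2)
    rw [hE0] at h1
    exact (hΞ _ _ (LinearMap.mem_ker.1 z.1.1.1.2) (hD z.1.1 z.1.2)).2 h1
  have hcb : ∀ z : LinearMap.ker E, (z.1.1.2 : B) ∈ LinearMap.ker cob := by
    intro z
    rw [LinearMap.mem_ker, ← hD z.1.1 z.1.2, hz0 z, map_zero]
  let F : (LinearMap.ker E) →ₗ[k] (LinearMap.ker cob) :=
    LinearMap.codRestrict (LinearMap.ker cob)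
      (LinearMap.snd k (LinearMap.ker R) B ∘ₗ ((LinearMap.ker D).subtype ∘ₗ (LinearMap.ker E).subtype))
      hcb
  have hF : Function.Injective F := by
    intro z z' hz
    have h1 : (z.1.1.2 : B) = z'.1.1.2 := congrArg Subtype.val hz
    apply Subtype.ext
    apply Subtype.ext
    exact Prod.ext (Subtype.ext ((hz0 z).trans (hz0 z').symm)) h1
  have e1 := LinearMap.finrank_range_add_finrank_ker R
  have e2 := LinearMap.finrank_range_add_finrank_ker T
  have e3 := LinearMap.finrank_range_add_finrank_ker D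
  have e4 := LinearMap.finrank_range_add_finrank_ker E
  have e5 : finrank k ((LinearMap.ker R) × B) = finrank k (LinearMap.ker R) + finrank k B :=
    Module.finrank_prod
  have e6 : finrank k (LinearMap.range D) ≤ finrank k (LinearMap.ker T) :=
    Submodule.finrank_le _
  have e7 : finrank k (LinearMap.range E) ≤ finrank k W' := Submodule.finrank_le _
  have e8 : finrank k (LinearMap.ker E) ≤ finrank k (LinearMap.ker cob) :=
    LinearMap.finrank_le_finrank_of_injective hF
  omega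

end PDT
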