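import Mathlib

/-!
# PDT/DivAnn: annihilators over division rings

`θ : E → E'` an anti-isomorphism of division rings.  For a set `X` of vectors in `E'^a` the left
`E`-space `U = {u ∈ E^a | Σ_k x_k θ(u_k) = 0 for all x ∈ X}` has dimension `a - dim_{E'} span X`.

Complete proof.  Let `x_1, …, x_r` be a basis of `span X` (over `E'`).  The map
`Φ : E^a → E^r`, `u ↦ (Σ_k u_k θ⁻¹(x_{ik}))_i` is left `E`-linear, and `θ` of its `i`-th coordinate is
`Σ_k x_{ik} θ(u_k)`; its kernel is `U` (the condition `Σ_k x_k θ(u_k) = 0` is stable under left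
`E'`-combinations of `x`).  `Φ` is surjective: otherwise there is a nonzero linear functional
`g : E^r → E` vanishing on its range (`Submodule.exists_le_ker_of_lt_top`), `g(v) = Σ v_i g_i`
with `g_i = g(e_i)`; then `Σ_k u_k Σ_i θ⁻¹(x_{ik}) g_i = 0` for all `u`, so
`Σ_i θ⁻¹(x_{ik}) g_i = 0` for every `k`; apply `θ`: `Σ_i θ(g_i) x_{ik} = 0` for all `k`, so, the `x_i`
being linearly independent over `E'`, all `θ(g_i) = 0` and `g = 0`.  So
`finrank U = a - r` (`LinearMap.finrank_range_add_finrank_ker`).
-/

namespace PDT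

private theorem divAnn_symm {E E' : Type*} [DivisionRing E] [DivisionRing E'] (θ : E ≃+ E')
    (hθ : ∀ a b, θ (a * b) = θ b * θ a) {a : ℕ} (x : Fin a → E') (u : Fin a → E) :
    θ (∑ k, u k * θ.symm (x k)) = ∑ k, x k * θ (u k) := by
  rw [map_sum]
  refine Finset.sum_congr rfl fun k _ => ?_
  rw [hθ, AddEquiv.apply_symm_apply]

private def divAnn_Phi {E E' : Type*} [DivisionRing E] [DivisionRing E'] (θ : E ≃+ E')
    {a r : ℕ} (x : Fin r → Fin a → E') : (Fin a → E) →ₗ[E] (Fin r → E) where
  toFun u := fun i => ∑ k, u k * θ.symm (x i k)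
  map_add' u v := by
    funext i
    simp only [Pi.add_apply, add_mul, Finset.sum_add_distrib]
  map_smul' c u := by
    funext i
    simp only [Pi.smul_apply, smul_eq_mul, RingHom.id_apply, Finset.mul_sum, mul_assoc]

private theorem divAnn_span {E E' : Type*} [DivisionRing E] [DivisionRing E'] (θ : E ≃+ E')
    {a : ℕ} (X : Set (Fin a → E')) (u : Fin a → E) (h : ∀ x ∈ X, ∑ k, x k * θ (u k) = 0)
    (x : Fin a → E') (hx : x ∈ Submodule.span E' X) : ∑ k, x k * θ (u k) = 0 := by
  induction hx using Submodule.span_induction with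
  | mem x hx => exact h x hx
  | zero => simp
  | add x y _ _ hx hy => simp only [Pi.add_apply, add_mul, Finset.sum_add_distrib, hx, hy, add_zero]
  | smul c x _ hx =>
    simp only [Pi.smul_apply, smul_eq_mul, mul_assoc, ← Finset.mul_sum, hx, mul_zero]

theorem div_ann {E E' : Type*} [DivisionRing E] [DivisionRing E'] (θ : E ≃+ E')
    (hθ : ∀ a b, θ (a * b) = θ b * θ a) {a : ℕ} (X : Set (Fin a → E'))
    (U : Submodule E (Fin a → E)) (hU : ∀ u, u ∈ U ↔ ∀ x ∈ X, ∑ k, x k * θ (u k) = 0) :
    Module.finrank E U + Module.finrank E' (Submodule.span E' X) = a := by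
  classical
  set S := Submodule.span E' X with hS
  set r := Module.finrank E' S with hr
  let b : Module.Basis (Fin r) E' S := Module.finBasis E' S
  let x : Fin r → Fin a → E' := fun i => (b i : Fin a → E')
  have hli : LinearIndependent E' x := b.linearIndependent.map' S.subtype S.ker_subtype
  have hker : LinearMap.ker (divAnn_Phi θ x) = U := by
    ext u
    rw [LinearMap.mem_ker, hU]
    constructor
    · intro h y hy
      have h1 : ∀ i, ∑ k, x i k * θ (u k) = 0 := by
        intro i
        rw [← divAnn_symm θ hθ]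
        have := congrFun h i
        rw [show ∑ k, u k * θ.symm (x i k) = 0 from this, map_zero]
      have hyS : y ∈ S := Submodule.subset_span hy
      have hy2 : (⟨y, hyS⟩ : S) = ∑ i, b.repr ⟨y, hyS⟩ i • b i := (b.sum_repr _).symm
      have hy3 : y = ∑ i, b.repr ⟨y, hyS⟩ i • x i := by
        have h3 := congrArg S.subtype hy2
        rw [map_sum] at h3
        exact h3
      have hspan : y ∈ Submodule.span E' (Set.range x) := by
        rw [hy3]
        exact Submodule.sum_mem _ fun i _ => Submodule.smul_mem _ _
          (Submodule.subset_span ⟨i, rfl⟩)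
      refine divAnn_span θ (Set.range x) u ?_ y hspan
      rintro _ ⟨i, rfl⟩
      exact h1 i
    · intro h
      funext i
      apply θ.injective
      change θ (∑ k, u k * θ.symm (x i k)) = θ 0
      rw [divAnn_symm θ hθ, map_zero]
      exact divAnn_span θ X u h (x i) (b i).2
  have hrange : LinearMap.range (divAnn_Phi θ x) = ⊤ := by
    by_contra hne
    obtain ⟨g, hg0, hg⟩ := Submodule.exists_le_ker_of_lt_top _ (lt_top_iff_ne_top.2 hne)
    apply hg0
    have hgv : ∀ v : Fin r → E, g v = ∑ i, v i * g (Pi.single i 1) := by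
      intro v
      conv_lhs => rw [← Finset.univ_sum_single v]
      rw [map_sum]
      refine Finset.sum_congr rfl fun i _ => ?_
      have : (Pi.single i (v i) : Fin r → E) = v i • Pi.single i 1 := by
        rw [← Pi.single_smul, smul_eq_mul, mul_one]
      rw [this, map_smul, smul_eq_mul]
    have hk : ∀ k : Fin a, ∑ i, θ.symm (x i k) * g (Pi.single i 1) = 0 := by
      intro k
      have h1 : g (divAnn_Phi θ x (Pi.single k 1)) = 0 :=
        LinearMap.mem_ker.1 (hg ⟨_, rfl⟩)
      rw [hgv] at h1
      rw [← h1]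
      refine Finset.sum_congr rfl fun i _ => ?_
      congr 1
      change θ.symm (x i k) = ∑ k', (Pi.single k 1 : Fin a → E) k' * θ.symm (x i k')
      rw [Finset.sum_eq_single k]
      · rw [Pi.single_eq_same, one_mul]
      · intro k' _ hk'
        rw [Pi.single_eq_of_ne hk', zero_mul]
      · intro hk'
        exact absurd (Finset.mem_univ k) hk'
    have hk2 : ∑ i, θ (g (Pi.single i 1)) • x i = 0 := by
      funext k
      rw [Finset.sum_apply, Pi.zero_apply]
      have h1 := congrArg θ (hk k)
      rw [map_sum, map_zero] at h1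
      rw [← h1]
      refine Finset.sum_congr rfl fun i _ => ?_
      rw [hθ, AddEquiv.apply_symm_apply, Pi.smul_apply, smul_eq_mul]
    have hk3 := Fintype.linearIndependent_iff.1 hli _ hk2
    refine LinearMap.ext fun v => ?_
    rw [hgv, LinearMap.zero_apply]
    refine Finset.sum_eq_zero fun i _ => ?_
    have : g (Pi.single i 1) = 0 := by
      apply θ.injective
      rw [hk3 i, map_zero]
    rw [this, mul_zero]
  have h1 := LinearMap.finrank_range_add_finrank_ker (divAnn_Phi θ x)
  rw [hker, hrange, finrank_top, Module.finrank_fin_fun, Module.finrank_fin_fun] at h1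
  omega

end PDT
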