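import Pool.Agent.Lib.PDT.Base5

/-!
# PDT/DualK: exactness of the dual complex in degrees 0 and 1

`K` infinite with `H^1(K; ℤ[K]) = 0`, `d : (Zg K)^n → (Zg K)^1` with image the kernel of the augmentation.

Complete proof.  Let `e : Fin 1 → Zg K`, `e 0 = 1`; every `p : Fin 1 → Zg K` is `p 0 • e`.  For `k : K` choose `q_k` with `d q_k = el k • e - e`.
(1) Let `f ∘ d = 0`, `y = f e`.  `el k * y = y` for all `k`, so the coefficients of `y` satisfy `y (k⁻¹ g) = y g`
(`MonoidAlgebra.coeff_single_mul_apply`), they are constant, and zero as the support is finite and `K` infinite.  So `f = 0`.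
(2) Let `f : (Fin n → Zg K) →ₗ Zg K` with `f = 0` on `ker d`.  `f q` depends only on `d q`.  `δ k = f q_k` is a derivation:
`d (q_(k l)) = el (k l) • e - e = d (q_k + el k • q_l)`.  By `hK1`, `δ k = el k * a - a`.  Let `h p = p 0 * a`.  For every `q`, `d q = y • e`, `y = (d q) 0`, with `aug y = 0`, so
`y` is an additive combination of the elements `el k - 1`: precisely, for `y : Zg K`, `y - aug y • 1 = zl (fun k => el k - 1) y` (`zhom_ext`).  The element
`q' = zl (fun k => q_k) y` satisfies `d q' = zl (fun k => el k • e - e) y = y • e - aug y • e = y • e` and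
`f q' = zl (fun k => el k * a - a) y = y * a - aug y • a = y * a`.  So `f q = f q' = y * a = h (d q)`.
-/

namespace PDT

open Function

private theorem DualK_inv {K : Type*} [Group K] [Infinite K] {y : Zg K}
    (h : ∀ k : K, el k * y = y) : y = 0 := by
  have h1 : ∀ k g : K, y.coeff (k⁻¹ * g) = y.coeff g := by
    intro k g
    have h2 := congrArg (fun z : Zg K => z.coeff g) (h k)
    beta_reduce at h2
    rw [el, MonoidAlgebra.coeff_single_mul_apply, one_mul] at h2
    exact h2
  by_contra hne
  have h3 : y.coeff ≠ 0 := by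
    intro h4
    apply hne
    apply MonoidAlgebra.ext
    rw [h4]
    rfl
  obtain ⟨g, hg⟩ := Finsupp.ne_iff.1 h3
  have h5 : ∀ x : K, x ∈ y.coeff.support := by
    intro x
    rw [Finsupp.mem_support_iff]
    have h6 := h1 (x * g⁻¹) x
    rw [mul_inv_rev, inv_inv, mul_assoc, inv_mul_cancel, mul_one] at h6
    rw [← h6]
    exact hg
  exact Set.infinite_univ ((y.coeff.support.finite_toSet).subset fun x _ => h5 x)

theorem dual_K {K : Type*} [Group K] [Infinite K]
    (hK1 : ∀ δ : K → Zg K, (∀ x y, δ (x * y) = δ x + el x * δ y) → ∃ a, ∀ x, δ x = el x * a - a)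
    {n : ℕ} (d : (Fin n → Zg K) →ₗ[Zg K] (Fin 1 → Zg K))
    (hd : ∀ y : Fin 1 → Zg K, aug (y 0) = 0 ↔ ∃ x, d x = y) :
    (∀ f : (Fin 1 → Zg K) →ₗ[Zg K] Zg K, f ∘ₗ d = 0 → f = 0) ∧
    ∀ f : (Fin n → Zg K) →ₗ[Zg K] Zg K, f ∘ₗ (LinearMap.ker d).subtype = 0 →
      ∃ h : (Fin 1 → Zg K) →ₗ[Zg K] Zg K, f = h ∘ₗ d := by
  classical
  obtain ⟨e, he⟩ : ∃ e : Fin 1 → Zg K, e = fun _ => 1 := ⟨_, rfl⟩
  have hpe : ∀ p : Fin 1 → Zg K, p = p 0 • e := by
    intro p
    funext i
    rw [Subsingleton.elim i 0, he]
    simp
  have hq : ∀ k : K, ∃ q, d q = el k • e - e := by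
    intro k
    apply (hd _).1
    have h1 : aug (1 : Zg K) = 1 := by
      rw [← el_one, aug_el]
    rw [he]
    simp [h1]
  choose q hq using hq
  refine ⟨fun f hf => ?_, fun f hf => ?_⟩
  · have h1 : ∀ k : K, el k * f e = f e := by
      intro k
      have h2 : f (d (q k)) = 0 := by
        have := LinearMap.congr_fun hf (q k)
        simpa using this
      rw [hq, map_sub, map_smul, smul_eq_mul] at h2
      exact sub_eq_zero.1 h2
    have h3 : f e = 0 := DualK_inv h1
    apply LinearMap.ext
    intro p
    rw [hpe p, map_smul, h3, smul_zero, LinearMap.zero_apply]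
  · have hker : ∀ x x' : Fin n → Zg K, d x = d x' → f x = f x' := by
      intro x x' hxx
      have hm : x - x' ∈ LinearMap.ker d := by
        rw [LinearMap.mem_ker, map_sub, hxx, sub_self]
      have h2 := LinearMap.congr_fun hf ⟨x - x', hm⟩
      have h3 : f (x - x') = 0 := by simpa using h2
      rw [map_sub] at h3
      exact sub_eq_zero.1 h3
    obtain ⟨a, ha⟩ := hK1 (fun k => f (q k)) (by
      intro x y
      have : f (q (x * y)) = f (q x + el x • q y) := by
        apply hker
        rw [map_add, map_smul, hq, hq, hq, el_mul, smul_sub, ← mul_smul]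
        abel
      rw [this, map_add, map_smul, smul_eq_mul])
    have hdz : ∀ y : Zg K, d (zl q y) = y • e - aug y • e := by
      intro y
      apply Zg.ind (P := fun y => d (zl q y) = y • e - aug y • e) y
      · simp
      · intro g
        rw [zl_el, aug_el, one_smul, hq]
      · intro x y hx hy
        rw [map_add, map_add, hx, hy, map_add, add_smul, add_smul]
        abel
      · intro x hx
        rw [map_neg, map_neg, hx, map_neg, neg_smul, neg_smul]
        abel
    have hfz : ∀ y : Zg K, f (zl q y) = y * a - aug y • a := by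
      intro y
      apply Zg.ind (P := fun y => f (zl q y) = y * a - aug y • a) y
      · simp
      · intro g
        rw [zl_el, aug_el, one_smul, ha]
      · intro x y hx hy
        rw [map_add, map_add, hx, hy, map_add, add_mul, add_smul]
        abel
      · intro x hx
        rw [map_neg, map_neg, hx, map_neg, neg_mul, neg_smul]
        abel
    refine ⟨{ toFun := fun p => p 0 * a
              map_add' := fun p p' => by rw [Pi.add_apply, add_mul]
              map_smul' := fun y p => by
                rw [Pi.smul_apply, smul_eq_mul, mul_assoc, RingHom.id_apply, smul_eq_mul] }, ?_⟩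
    apply LinearMap.ext
    intro x
    change f x = d x 0 * a
    have hy0 : aug (d x 0) = 0 := (hd (d x)).2 ⟨x, rfl⟩
    have h1 : d (zl q (d x 0)) = d x := by
      rw [hdz, hy0, zero_smul, sub_zero, ← hpe]
    rw [← hker _ _ h1, hfz, hy0, zero_smul, sub_zero]

end PDT
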