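import Mathlib

/-!
# PDT/DvrBase: the discrete valuation ring `ℤ[u]_(p)` inside a field

`u_1, …, u_d ∈ L` algebraically independent over `ℤ`, `p` a prime.  There is a discrete valuation ring
`V₀` with an injective homomorphism `j : V₀ → L`, containing the `u_i` and `1/s` for all integers `s`
prime to `p`, with `p` generating its maximal ideal.

Complete proof.  Let `P = MvPolynomial (Fin d) ℤ`, a noetherian domain (UFD); `𝔭 = Ideal.span {C p}` is
prime (`MvPolynomial.prime_C_iff`, or `MvPolynomial.isPrime_map_C_iff`-like), nonzero.  Let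
`V₀ = Localization.AtPrime 𝔭`: a local noetherian domain whose maximal ideal is generated by `p`
(`Localization.AtPrime.map_eq_maximalIdeal`), and not a field (`p ≠ 0` is not a unit); by
`IsDiscreteValuationRing.TFAE` (or `tfae_of_isNoetherianRing_of_isLocalRing_of_isDomain`) it is a
discrete valuation ring.  The evaluation `aeval u : P → L` is injective, so every element outside `𝔭`
goes to a unit of `L`, and `IsLocalization.lift` gives `j : V₀ → L`, injective
(`IsLocalization.lift_injective_iff`).
-/

namespace PDT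

open Function

theorem dvr_base {L : Type*} [Field L] [CharZero L] {d : ℕ} (u : Fin d → L)
    (hu : AlgebraicIndependent ℤ u) (p : ℕ) (hp : p.Prime) :
    ∃ (V₀ : Type) (_ : CommRing V₀) (_ : IsDomain V₀) (_ : IsDiscreteValuationRing V₀)
      (j : V₀ →+* L), Injective j ∧ IsLocalRing.maximalIdeal V₀ = Ideal.span {(p : V₀)} ∧
      (∀ i, ∃ v, j v = u i) ∧
      (∀ s : ℕ, s.Coprime p → ∃ v, j v = (s : L)⁻¹) := by
  have hinj : Injective (MvPolynomial.aeval (R := ℤ) u) := hu
  have hpZ : Prime (p : ℤ) := Nat.prime_iff_prime_int.mp hp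
  have hpC : Prime (MvPolynomial.C (p : ℤ) : MvPolynomial (Fin d) ℤ) :=
    (MvPolynomial.prime_C_iff _).mpr hpZ
  have hprime : (Ideal.span {(MvPolynomial.C (p : ℤ) : MvPolynomial (Fin d) ℤ)}).IsPrime :=
    (Ideal.span_singleton_prime hpC.ne_zero).mpr hpC
  obtain ⟨q, hq⟩ : ∃ q : Ideal (MvPolynomial (Fin d) ℤ),
      q = Ideal.span {(MvPolynomial.C (p : ℤ) : MvPolynomial (Fin d) ℤ)} := ⟨_, rfl⟩
  have hqp : q.IsPrime := hq ▸ hprime
  have hM : q.primeCompl ≤ nonZeroDivisors (MvPolynomial (Fin d) ℤ) := by
    intro x hx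
    rw [mem_nonZeroDivisors_iff_ne_zero]
    rintro rfl
    exact hx q.zero_mem
  have hdom : IsDomain (Localization.AtPrime q) := IsLocalization.isDomain_localization hM
  have hnoe : IsNoetherianRing (Localization.AtPrime q) :=
    IsLocalization.isNoetherianRing q.primeCompl _ inferInstance
  have hinjl : Injective (algebraMap (MvPolynomial (Fin d) ℤ) (Localization.AtPrime q)) :=
    IsLocalization.injective _ hM
  have hmax : IsLocalRing.maximalIdeal (Localization.AtPrime q) =
      Ideal.span {(p : Localization.AtPrime q)} := by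
    have h1 : Ideal.map (algebraMap (MvPolynomial (Fin d) ℤ) (Localization.AtPrime q)) q =
        Ideal.map (algebraMap (MvPolynomial (Fin d) ℤ) (Localization.AtPrime q))
          (Ideal.span {(MvPolynomial.C (p : ℤ) : MvPolynomial (Fin d) ℤ)}) :=
      congr_arg _ hq
    have h2 : algebraMap (MvPolynomial (Fin d) ℤ) (Localization.AtPrime q)
        (MvPolynomial.C (p : ℤ)) = (p : Localization.AtPrime q) := by
      rw [show (MvPolynomial.C (p : ℤ) : MvPolynomial (Fin d) ℤ) =
        (p : MvPolynomial (Fin d) ℤ) by simp, map_natCast]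
    rw [← Localization.AtPrime.map_eq_maximalIdeal, h1, Ideal.map_span, Set.image_singleton, h2]
  have hpne : (p : Localization.AtPrime q) ≠ 0 := by
    intro h0
    have h1 : algebraMap (MvPolynomial (Fin d) ℤ) (Localization.AtPrime q)
        (MvPolynomial.C (p : ℤ)) = 0 := by
      rw [show (MvPolynomial.C (p : ℤ) : MvPolynomial (Fin d) ℤ) =
        (p : MvPolynomial (Fin d) ℤ) by simp, map_natCast, h0]
    exact hpC.ne_zero (hinjl (by rw [h1, map_zero]))
  have hnf : ¬ IsField (Localization.AtPrime q) := by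
    rw [IsLocalRing.isField_iff_maximalIdeal_eq, hmax, Ideal.span_singleton_eq_bot]
    exact hpne
  have hdvr : IsDiscreteValuationRing (Localization.AtPrime q) := by
    refine ((IsDiscreteValuationRing.TFAE _ hnf).out 0 4).mpr ?_
    rw [hmax]
    exact ⟨⟨_, rfl⟩⟩
  have hunit : ∀ y : q.primeCompl,
      IsUnit ((MvPolynomial.aeval (R := ℤ) u).toRingHom (y : MvPolynomial (Fin d) ℤ)) := by
    intro y
    rw [isUnit_iff_ne_zero]
    intro h0
    have h1 : (y : MvPolynomial (Fin d) ℤ) = 0 := hinj (by rw [map_zero]; exact h0)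
    exact y.2 (by rw [h1]; exact q.zero_mem)
  refine ⟨Localization.AtPrime q, inferInstance, hdom, hdvr,
    IsLocalization.lift (M := q.primeCompl) hunit, ?_, hmax, ?_, ?_⟩
  · rw [IsLocalization.lift_injective_iff]
    intro x y
    constructor
    · intro h
      rw [hinjl h]
    · intro h
      rw [hinj h]
  · intro i
    refine ⟨algebraMap (MvPolynomial (Fin d) ℤ) (Localization.AtPrime q) (MvPolynomial.X i), ?_⟩
    rw [IsLocalization.lift_eq]
    exact MvPolynomial.aeval_X u i
  · intro s hs
    have hsq : (MvPolynomial.C (s : ℤ) : MvPolynomial (Fin d) ℤ) ∈ q.primeCompl := by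
      intro h
      rw [hq] at h
      have h1 : (MvPolynomial.C (s : ℤ) : MvPolynomial (Fin d) ℤ) ∈
          Ideal.span {(MvPolynomial.C (p : ℤ) : MvPolynomial (Fin d) ℤ)} := h
      rw [Ideal.mem_span_singleton] at h1
      have h2 := map_dvd MvPolynomial.constantCoeff h1
      rw [MvPolynomial.constantCoeff_C, MvPolynomial.constantCoeff_C, Int.natCast_dvd_natCast] at h2
      have h3 : p ∣ 1 := by
        rw [← hs.gcd_eq_one]
        exact Nat.dvd_gcd h2 dvd_rfl
      exact hp.one_lt.ne' (Nat.dvd_one.mp h3)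
    refine ⟨IsLocalization.mk' (Localization.AtPrime q) 1 (⟨MvPolynomial.C (s : ℤ), hsq⟩ : q.primeCompl), ?_⟩
    have h4 : IsLocalization.mk' (Localization.AtPrime q) 1
        (⟨MvPolynomial.C (s : ℤ), hsq⟩ : q.primeCompl) *
        algebraMap (MvPolynomial (Fin d) ℤ) (Localization.AtPrime q) (MvPolynomial.C (s : ℤ)) = 1 := by
      have := IsLocalization.mk'_spec (Localization.AtPrime q) (1 : MvPolynomial (Fin d) ℤ)
        (⟨MvPolynomial.C (s : ℤ), hsq⟩ : q.primeCompl)
      rw [map_one] at this
      exact this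
    have h5 := congr_arg (IsLocalization.lift (M := q.primeCompl)
      (S := Localization.AtPrime q) hunit) h4
    rw [map_mul, map_one, IsLocalization.lift_eq] at h5
    have h6 : (MvPolynomial.aeval (R := ℤ) u).toRingHom
        (MvPolynomial.C (s : ℤ) : MvPolynomial (Fin d) ℤ) = (s : L) := by
      show MvPolynomial.aeval (R := ℤ) u (MvPolynomial.C (s : ℤ)) = (s : L)
      rw [MvPolynomial.aeval_C]
      simp
    rw [h6] at h5
    exact eq_inv_of_mul_eq_one_left h5

end PDT
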