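import Mathlib

/-!
# PDT/DvrExt: extension of a discrete valuation ring to a finite extension

`V₀` a discrete valuation ring of characteristic zero, `j : V₀ → L` injective, `L` a field which is
algebraic over `V₀` and finitely generated as a field over it.  There is a discrete valuation ring `V`
with injective homomorphisms `V₀ → V → L` (composition `j`), the first being local, containing all
elements of `L` which are integral over `V₀`.

Complete proof.  Let `K₀` be the fraction field of `V₀`; `L` is an extension of `K₀`, algebraic and
generated by finitely many elements, so finite, and separable (characteristic zero).  Let `B` be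
the integral closure of `V₀` in `L`: a Dedekind domain with fraction field `L`
(`IsIntegralClosure.isDedekindDomain V₀ K₀ L B`, `integralClosure.isDedekindDomain`).
`B` is integral over `V₀`, so there is a maximal ideal `𝔓` of `B` lying over the maximal ideal of `V₀`
(`Ideal.exists_ideal_over_maximal_of_isIntegral` or `Ideal.exists_ideal_over_prime_of_isIntegral`);
`𝔓 ≠ 0` since `V₀` is not a field.  `V = Localization.AtPrime 𝔓` is a discrete valuation ring
(`IsLocalization.AtPrime.isDiscreteValuationRing_of_dedekind_domain`), contained in the fraction field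
`L` of `B`.
-/

namespace PDT

open Function

universe v

theorem dvr_ext {V₀ : Type*} [CommRing V₀] [IsDomain V₀] [IsDiscreteValuationRing V₀] [CharZero V₀]
    {L : Type v} [Field L] (j : V₀ →+* L) (hj : Injective j)
    (halg : ∀ z : L, ∃ f : Polynomial V₀, f ≠ 0 ∧ f.eval₂ j z = 0)
    (T : Finset L) (hT : Subfield.closure (Set.range j ∪ T) = ⊤) :
    ∃ (V : Type v) (_ : CommRing V) (_ : IsDomain V) (_ : IsDiscreteValuationRing V)
      (k : V₀ →+* V) (i : V →+* L), Injective i ∧ (∀ v, i (k v) = j v) ∧
      (∀ v ∈ IsLocalRing.maximalIdeal V₀, k v ∈ IsLocalRing.maximalIdeal V) ∧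
      (∀ z : L, (∃ f : Polynomial V₀, f.Monic ∧ f.eval₂ j z = 0) → ∃ v, i v = z) := by
  classical
  letI alg : Algebra V₀ L := j.toAlgebra
  have hjm : ∀ v, algebraMap V₀ L v = j v := fun v => rfl
  haveI hf : FaithfulSMul V₀ L := (faithfulSMul_iff_algebraMap_injective V₀ L).mpr hj
  letI algK : Algebra (FractionRing V₀) L := FractionRing.liftAlgebra V₀ L
  haveI tow : IsScalarTower V₀ (FractionRing V₀) L := FractionRing.isScalarTower_liftAlgebra V₀ L
  haveI halgK : Algebra.IsAlgebraic (FractionRing V₀) L := by
    refine ⟨fun z => ?_⟩
    obtain ⟨f, hf0, hfz⟩ := halg z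
    refine ⟨f.map (algebraMap V₀ (FractionRing V₀)), ?_, ?_⟩
    · exact (Polynomial.map_ne_zero_iff (IsFractionRing.injective V₀ (FractionRing V₀))).mpr hf0
    · rw [Polynomial.aeval_map_algebraMap]
      exact hfz
  haveI hfin : FiniteDimensional (FractionRing V₀) L := by
    have h1 : FiniteDimensional (FractionRing V₀)
        (IntermediateField.adjoin (FractionRing V₀) (T : Set L)) :=
      IntermediateField.finiteDimensional_adjoin
        (fun x _ => (halgK.isAlgebraic x).isIntegral)
    have h2 : IntermediateField.adjoin (FractionRing V₀) (T : Set L) = ⊤ := by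
      rw [eq_top_iff]
      intro z _
      have hz : z ∈ Subfield.closure (Set.range j ∪ T) := by rw [hT]; trivial
      have hle : Subfield.closure (Set.range j ∪ T) ≤
          (IntermediateField.adjoin (FractionRing V₀) (T : Set L)).toSubfield := by
        rw [Subfield.closure_le]
        rintro x (⟨v, rfl⟩ | hx)
        · have : j v = algebraMap (FractionRing V₀) L (algebraMap V₀ (FractionRing V₀) v) := by
            rw [← IsScalarTower.algebraMap_apply]; rfl
          rw [this]
          exact (IntermediateField.adjoin (FractionRing V₀) (T : Set L)).algebraMap_mem _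
        · exact IntermediateField.subset_adjoin _ _ hx
      exact hle hz
    rw [h2] at h1
    exact IntermediateField.topEquiv.toLinearEquiv.finiteDimensional
  haveI : CharZero (FractionRing V₀) :=
    charZero_of_injective_algebraMap (IsFractionRing.injective V₀ (FractionRing V₀))
  haveI hsep : Algebra.IsSeparable (FractionRing V₀) L := inferInstance
  let B := integralClosure V₀ L
  haveI hBded : IsDedekindDomain B :=
    integralClosure.isDedekindDomain V₀ (FractionRing V₀) L
  haveI hBfr : IsFractionRing B L :=
    integralClosure.isFractionRing_of_finite_extension (FractionRing V₀) L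
  haveI hBint : Algebra.IsIntegral V₀ B := integralClosure.AlgebraIsIntegral
  haveI hBf : FaithfulSMul V₀ B := by
    rw [faithfulSMul_iff_algebraMap_injective]
    intro x y hxy
    apply hj
    have := congrArg (fun b : B => (b : L)) hxy
    exact this
  obtain ⟨P, hPmax, hPover⟩ :=
    Ideal.exists_maximal_ideal_liesOver_of_isIntegral (S := B) (IsLocalRing.maximalIdeal V₀)
  haveI hPprime : P.IsPrime := hPmax.isPrime
  have hP0 : P ≠ ⊥ := by
    intro h0
    obtain ⟨ϖ, hϖ⟩ := IsDiscreteValuationRing.exists_irreducible V₀
    have h1 : ϖ ∈ IsLocalRing.maximalIdeal V₀ := hϖ.not_isUnit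
    rw [hPover.over, Ideal.under_def, Ideal.mem_comap, h0, Ideal.mem_bot] at h1
    apply hϖ.ne_zero
    apply (faithfulSMul_iff_algebraMap_injective V₀ B).mp hBf
    rw [h1, map_zero]
  haveI hdvr : IsDiscreteValuationRing (Localization.AtPrime P) :=
    IsLocalization.AtPrime.isDiscreteValuationRing_of_dedekind_domain B hP0 _
  have hinj : Injective (algebraMap B L) := IsFractionRing.injective B L
  have hunit : ∀ y : P.primeCompl, IsUnit (algebraMap B L y) := by
    intro y
    refine IsUnit.mk0 _ ?_
    intro h
    have hy0 : (y : B) = 0 := hinj (by rw [h, map_zero])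
    exact y.2 (by rw [hy0]; exact P.zero_mem)
  let i : Localization.AtPrime P →+* L := IsLocalization.lift (M := P.primeCompl) hunit
  have hiB : ∀ b : B, i (algebraMap B (Localization.AtPrime P) b) = algebraMap B L b :=
    fun b => IsLocalization.lift_eq hunit b
  refine ⟨Localization.AtPrime P, inferInstance, inferInstance, hdvr,
    (algebraMap B (Localization.AtPrime P)).comp (algebraMap V₀ B), i, ?_, ?_, ?_, ?_⟩
  · rw [injective_iff_map_eq_zero]
    intro x hx
    obtain ⟨⟨b, s⟩, rfl⟩ := IsLocalization.mk'_surjective P.primeCompl x
    have h1 : i (IsLocalization.mk' (Localization.AtPrime P) b s) *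
        i (algebraMap B (Localization.AtPrime P) s) = 0 := by
      rw [hx, zero_mul]
    rw [← map_mul, IsLocalization.mk'_spec, hiB] at h1
    have hb : b = 0 := hinj (by rw [h1, map_zero])
    subst hb
    exact IsLocalization.mk'_zero s
  · intro v
    rw [RingHom.comp_apply, hiB]
    rfl
  · intro v hv
    rw [RingHom.comp_apply]
    rw [hPover.over, Ideal.under_def, Ideal.mem_comap] at hv
    exact (IsLocalization.AtPrime.to_map_mem_maximal_iff (Localization.AtPrime P) P _).mpr hv
  · rintro z ⟨f, hfm, hfz⟩
    exact ⟨algebraMap B (Localization.AtPrime P) ⟨z, f, hfm, hfz⟩, hiB _⟩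

end PDT
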