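import Pool.Agent.Lib.PDT.NoetherNorm
import Pool.Agent.Lib.PDT.DvrBase
import Pool.Agent.Lib.PDT.DvrExt

/-!
# PDT/DvrExists: finitely generated domains of characteristic zero in discrete valuation rings

`A` a finitely generated domain of characteristic zero.  There are a prime `p`, a discrete valuation
ring `V` and an injective homomorphism `i : A → V` such that `p` is in the maximal ideal `m` of `V` and
`A / i⁻¹(m)` is finite.

Complete proof.  `L = FractionRing A`; take `d, x, s` from `noether_norm`.  Choose a prime `p ∤ s`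
(`Nat.exists_infinite_primes`).  `u_i = x_i / p`; they are algebraically independent over `ℤ`
(`AlgebraicIndependent` is preserved by scaling with a non-zero rational: if `F(x/p) = 0` for
`F ∈ ℤ[X]` then a power of `p` times it is `G(x) = 0` with `G(X) = p^N F(X/p)`; or use transcendence
degree; or `AlgebraicIndependent` over `ℚ` and units).  `dvr_base` gives `V₀`, `j`: the image of `j`
contains `u_i`, `x_i = p u_i` and `1/s`, so the ring `C = ℤ[1/s, x_1, …, x_d]`.  Hence `L` is
algebraic over `V₀` (it is so over `ℤ[x] ⊆ j(V₀)`), and it is generated as a field by the finitely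
many ring generators of `A`.  `dvr_ext` gives `V`.  Every `a ∈ A` is integral over `C`, so over
`j(V₀)`, so it is in `V`: this gives `A → V`, injective.  `p ∈ m`.
Residue ring: let `κ = V / m`, a field of characteristic `p`, and `ā` the image of `a ∈ A`.  `a` is a
root of a monic polynomial over `C`; the image of `C` in `κ` is the prime field `F_p`: `x_i = p u_i`
goes to `0` and `1/s` to the inverse of `s`.  So `ā` is algebraic over `F_p` (integral over the image
of `C`, which is the finite ring `F_p`).  The image of `A` in `κ` is `ℤ[ḡ_1, …, ḡ_r]`, with all `ḡ_j`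
integral over `F_p`: a finitely generated module over `F_p`, so finite.  It is isomorphic to
`A / i⁻¹(m)`.
-/

namespace PDT

open Function

universe v

private theorem dvrEx_scale {L : Type*} [Field L] [CharZero L] {d : ℕ} {x : Fin d → L}
    (hx : AlgebraicIndependent ℤ x) {p : ℕ} (hp : p ≠ 0) :
    AlgebraicIndependent ℤ (fun i => (p : L)⁻¹ * x i) := by
  have hQ : Algebra.IsAlgebraic ℤ ℚ := IsLocalization.isAlgebraic ℚ (nonZeroDivisors ℤ)
  have hx' : AlgebraicIndependent ℚ x := hx.extendScalars ℚ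
  have hp' : (p : ℚ) ≠ 0 := Nat.cast_ne_zero.2 hp
  have hf : AlgebraicIndependent ℚ (fun i : Fin d =>
      (MvPolynomial.C ((p : ℚ)⁻¹) * MvPolynomial.X i : MvPolynomial (Fin d) ℚ)) := by
    refine AlgebraicIndependent.of_aeval
      (x := fun i => (MvPolynomial.C (p : ℚ) * MvPolynomial.X i : MvPolynomial (Fin d) ℚ)) ?_
    have e : (fun i : Fin d => MvPolynomial.aeval
        (fun i => (MvPolynomial.C (p : ℚ) * MvPolynomial.X i : MvPolynomial (Fin d) ℚ))
        (MvPolynomial.C ((p : ℚ)⁻¹) * MvPolynomial.X i : MvPolynomial (Fin d) ℚ)) =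
        MvPolynomial.X := by
      funext i
      rw [map_mul, MvPolynomial.aeval_X, MvPolynomial.algHom_C, MvPolynomial.algebraMap_eq,
        ← mul_assoc, ← MvPolynomial.C_mul, inv_mul_cancel₀ hp', MvPolynomial.C_1, one_mul]
    rw [e]
    exact MvPolynomial.algebraicIndependent_X _ _
  have h := hx'.aeval_of_algebraicIndependent hf
  have e2 : (fun i => MvPolynomial.aeval x
      (MvPolynomial.C ((p : ℚ)⁻¹) * MvPolynomial.X i : MvPolynomial (Fin d) ℚ)) =
      fun i => (p : L)⁻¹ * x i := by
    funext i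
    rw [map_mul, MvPolynomial.aeval_X, MvPolynomial.algHom_C, map_inv₀, map_natCast]
  rw [e2] at h
  exact h.restrictScalars (RingHom.injective_int _)

private theorem dvrEx_lift {L V B : Type*} [CommRing L] [CommRing V] [CommRing B] (j : V →+* L)
    (hj : Injective j) (g : B →+* L) (h : ∀ b, ∃ v, j v = g b) :
    ∃ φ : B →+* V, ∀ b, j (φ b) = g b := by
  choose φ hφ using h
  refine ⟨⟨⟨⟨φ, ?_⟩, ?_⟩, ?_, ?_⟩, hφ⟩
  · apply hj
    rw [hφ, map_one, map_one]
  · intro a b
    apply hj
    change j (φ (a * b)) = j (φ a * φ b)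
    rw [hφ, map_mul, map_mul, hφ, hφ]
  · apply hj
    change j (φ 0) = j 0
    rw [hφ, map_zero, map_zero]
  · intro a b
    apply hj
    change j (φ (a + b)) = j (φ a + φ b)
    rw [hφ, map_add, map_add, hφ, hφ]

private theorem dvrEx_finite {A κ : Type*} [CommRing A] [Field κ] (ψ : A →+* κ)
    (hfg : Algebra.FiniteType ℤ A) {p : ℕ} (hp : p ≠ 0) (hκ : (p : κ) = 0)
    (hint : ∀ a, IsIntegral ℤ (ψ a)) : Finite (A ⧸ RingHom.ker ψ) := by
  obtain ⟨G, hG⟩ := hfg.out
  have hfin : ((Algebra.adjoin ℤ (ψ.toIntAlgHom '' (G : Set A)))).toSubmodule.FG := by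
    refine fg_adjoin_of_finite (G.finite_toSet.image _) ?_
    rintro _ ⟨a, _, rfl⟩
    exact hint a
  have hmf : Module.Finite ℤ (Algebra.adjoin ℤ (ψ.toIntAlgHom '' (G : Set A))) :=
    Module.Finite.iff_fg.2 hfin
  have hfinite : Finite (Algebra.adjoin ℤ (ψ.toIntAlgHom '' (G : Set A))) := by
    refine Module.finite_of_fg_torsion _ ?_
    intro y
    refine ⟨⟨(p : ℤ), mem_nonZeroDivisors_of_ne_zero (by exact_mod_cast hp)⟩, ?_⟩
    apply Subtype.ext
    change (p : ℤ) • (y : κ) = 0
    rw [zsmul_eq_mul, Int.cast_natCast, hκ, zero_mul]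
  have hle : ∀ a, ψ a ∈ Algebra.adjoin ℤ (ψ.toIntAlgHom '' (G : Set A)) := by
    intro a
    have h1 : a ∈ Algebra.adjoin ℤ (G : Set A) := by
      rw [hG]
      exact Algebra.mem_top
    have h2 : ψ.toIntAlgHom a ∈ (Algebra.adjoin ℤ (G : Set A)).map ψ.toIntAlgHom :=
      ⟨a, h1, rfl⟩
    rw [AlgHom.map_adjoin] at h2
    exact h2
  refine Finite.of_injective (β := Algebra.adjoin ℤ (ψ.toIntAlgHom '' (G : Set A)))
    (fun x => ⟨RingHom.kerLift ψ x, ?_⟩) ?_
  · obtain ⟨a, rfl⟩ := Ideal.Quotient.mk_surjective x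
    rw [RingHom.kerLift_mk]
    exact hle a
  · intro x y hxy
    exact RingHom.kerLift_injective ψ (congrArg Subtype.val hxy)

private theorem dvrEx_main (A : Type v) [CommRing A] [IsDomain A] [CharZero A]
    (hfg : Algebra.FiniteType ℤ A) (L : Type v) [Field L] [Algebra A L] [IsFractionRing A L] :
    ∃ (p : ℕ) (V : Type v) (_ : CommRing V) (_ : IsDomain V) (_ : IsDiscreteValuationRing V)
      (i : A →+* V), p.Prime ∧ Injective i ∧ (p : V) ∈ IsLocalRing.maximalIdeal V ∧
      Finite (A ⧸ (IsLocalRing.maximalIdeal V).comap i) := by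
  classical
  have hinj : Injective (algebraMap A L) := IsFractionRing.injective A L
  have hL0 : CharZero L := charZero_of_injective_algebraMap hinj
  obtain ⟨d, x, s, hs, hx, hint, halg⟩ := noether_norm A hfg L
  obtain ⟨p, hsp, hp⟩ := Nat.exists_infinite_primes (s + 1)
  have hcop : s.Coprime p := by
    rw [Nat.coprime_comm, hp.coprime_iff_not_dvd]
    intro h
    have := Nat.le_of_dvd (Nat.pos_of_ne_zero hs) h
    omega
  have hpL : (p : L) ≠ 0 := Nat.cast_ne_zero.2 hp.ne_zero
  have hsL : (s : L) ≠ 0 := Nat.cast_ne_zero.2 hs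
  obtain ⟨V₀, _, _, _, j, hj, hmax, hu, hinv⟩ := dvr_base _ (dvrEx_scale hx hp.ne_zero) p hp
  have hV0 : CharZero V₀ := ⟨fun a b h => by
    have h1 := congrArg j h
    rw [map_natCast, map_natCast] at h1
    exact Nat.cast_injective h1⟩
  have hxj : ∀ i, ∃ v, j v = x i := by
    intro i
    obtain ⟨v, hv⟩ := hu i
    refine ⟨(p : V₀) * v, ?_⟩
    rw [map_mul, map_natCast, hv, ← mul_assoc, mul_inv_cancel₀ hpL, one_mul]
  have hC1 : ∀ c : Algebra.adjoin ℤ (Set.range x), ∃ v, j v = (c : L) := by
    intro c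
    have h1 : Algebra.adjoin ℤ (Set.range x) ≤ subalgebraOfSubring j.range := by
      refine Algebra.adjoin_le ?_
      rintro _ ⟨i, rfl⟩
      exact hxj i
    exact h1 c.2
  obtain ⟨φ₁, hφ₁⟩ := dvrEx_lift j hj (algebraMap (Algebra.adjoin ℤ (Set.range x)) L) hC1
  have halg' : ∀ z : L, ∃ f : Polynomial V₀, f ≠ 0 ∧ f.eval₂ j z = 0 := by
    intro z
    obtain ⟨f, hf0, hf⟩ := halg.isAlgebraic z
    have hcomp : j.comp φ₁ = algebraMap (Algebra.adjoin ℤ (Set.range x)) L :=
      RingHom.ext hφ₁
    have hφi : Injective φ₁ := by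
      intro a b hab
      apply Subtype.ext
      have h1 := congrArg j hab
      rw [hφ₁, hφ₁] at h1
      exact h1
    refine ⟨f.map φ₁, ?_, ?_⟩
    · rwa [Ne, Polynomial.map_eq_zero_iff hφi]
    · rw [Polynomial.eval₂_map, hcomp]
      exact hf
  obtain ⟨G, hG⟩ := hfg.out
  have hT : Subfield.closure (Set.range j ∪ (G.image (algebraMap A L) : Finset L)) = ⊤ := by
    rw [eq_top_iff]
    intro z _
    have hA : ∀ a : A, algebraMap A L a ∈
        Subfield.closure (Set.range j ∪ (G.image (algebraMap A L) : Finset L)) := by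
      intro a
      have h1 : Algebra.adjoin ℤ (G : Set A) ≤ subalgebraOfSubring
          ((Subfield.closure (Set.range j ∪
            (G.image (algebraMap A L) : Finset L))).toSubring.comap (algebraMap A L)) := by
        refine Algebra.adjoin_le ?_
        intro g hg
        refine Subfield.subset_closure (Or.inr ?_)
        rw [Finset.coe_image]
        exact ⟨g, hg, rfl⟩
      have h2 : a ∈ Algebra.adjoin ℤ (G : Set A) := by
        rw [hG]
        exact Algebra.mem_top
      exact h1 h2
    obtain ⟨a, b, _, rfl⟩ := IsFractionRing.div_surjective (A := A) z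
    exact div_mem (hA a) (hA b)
  obtain ⟨V, hV1, hV2, hV3, k, i, hi, hik, hloc, hintV⟩ := dvr_ext j hj halg' _ hT
  have hpm : (p : V) ∈ IsLocalRing.maximalIdeal V := by
    have h1 : (p : V₀) ∈ IsLocalRing.maximalIdeal V₀ := by
      rw [hmax]
      exact Ideal.mem_span_singleton_self _
    have h2 := hloc _ h1
    rwa [map_natCast] at h2
  obtain ⟨res, hres⟩ : ∃ res : V →+* IsLocalRing.ResidueField V,
      res = IsLocalRing.residue V := ⟨_, rfl⟩
  have hres0 : ∀ v, res v = 0 ↔ v ∈ IsLocalRing.maximalIdeal V := by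
    intro v
    rw [hres]
    exact Ideal.Quotient.eq_zero_iff_mem
  have hpκ : (p : IsLocalRing.ResidueField V) = 0 := by
    rw [← map_natCast res, hres0]
    exact hpm
  -- the ring `C` and its image in the residue field
  have hC2 : ∀ c : Algebra.adjoin ℤ (insert ((s : L)⁻¹) (Set.range x)),
      ∃ v : V₀, (∃ n : ℤ, res (k v) = n) ∧ j v = (c : L) := by
    intro c
    have h1 : Algebra.adjoin ℤ (insert ((s : L)⁻¹) (Set.range x)) ≤ subalgebraOfSubring
        ((((Int.castRingHom (IsLocalRing.ResidueField V)).range).comap (res.comp k)).map j) := by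
      refine Algebra.adjoin_le ?_
      intro y hy
      rcases hy with rfl | ⟨i', rfl⟩
      · obtain ⟨v, hv⟩ := hinv s hcop
        refine ⟨v, ?_, hv⟩
        obtain ⟨t, ht⟩ : ∃ t : ℤ, ∃ w : ℤ, (s : ℤ) * t + p * w = 1 := by
          have h2 := (Nat.isCoprime_iff_coprime.2 hcop)
          obtain ⟨a, b, hab⟩ := h2
          exact ⟨a, b, by linear_combination hab⟩
        obtain ⟨w, hw⟩ := ht
        refine ⟨t, ?_⟩
        have h3 : (s : V₀) * v = 1 := by
          apply hj
          rw [map_mul, map_natCast, hv, map_one, mul_inv_cancel₀ hsL]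
        have h4 : (s : IsLocalRing.ResidueField V) * res (k v) = 1 := by
          have := congrArg (fun q => res (k q)) h3
          simpa using this
        have h5 : (s : IsLocalRing.ResidueField V) * (t : IsLocalRing.ResidueField V) = 1 := by
          have := congrArg (Int.cast : ℤ → IsLocalRing.ResidueField V) hw
          push_cast at this
          rw [hpκ, zero_mul, add_zero] at this
          exact this
        have h6 : (s : IsLocalRing.ResidueField V) ≠ 0 := left_ne_zero_of_mul_eq_one h4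
        change (t : IsLocalRing.ResidueField V) = res (k v)
        exact mul_left_cancel₀ h6 (h5.trans h4.symm)
      · obtain ⟨v, hv⟩ := hu i'
        refine ⟨(p : V₀) * v, ?_, ?_⟩
        · refine ⟨0, ?_⟩
          change ((0 : ℤ) : IsLocalRing.ResidueField V) = res (k ((p : V₀) * v))
          rw [map_mul, map_mul, map_natCast, map_natCast, hpκ, zero_mul, Int.cast_zero]
        · rw [map_mul, map_natCast, hv, ← mul_assoc, mul_inv_cancel₀ hpL, one_mul]
    obtain ⟨v, ⟨n, hn⟩, hv⟩ := h1 c.2
    exact ⟨v, ⟨n, hn.symm⟩, hv⟩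
  obtain ⟨φ₂, hφ₂⟩ := dvrEx_lift j hj
    (algebraMap (Algebra.adjoin ℤ (insert ((s : L)⁻¹) (Set.range x))) L)
    (fun c => by
      obtain ⟨v, _, hv⟩ := hC2 c
      exact ⟨v, hv⟩)
  have hφ₂n : ∀ c, ∃ n : ℤ, res (k (φ₂ c)) = n := by
    intro c
    obtain ⟨v, hn, hv⟩ := hC2 c
    have h1 : φ₂ c = v := by
      apply hj
      rw [hφ₂, hv]
      rfl
    rwa [h1]
  have hcomp2 : j.comp φ₂ =
      algebraMap (Algebra.adjoin ℤ (insert ((s : L)⁻¹) (Set.range x))) L := RingHom.ext hφ₂
  have hA : ∀ a : A, ∃ v, i v = algebraMap A L a := by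
    intro a
    obtain ⟨f, hfm, hf⟩ := hint a
    refine hintV _ ⟨f.map φ₂, hfm.map _, ?_⟩
    rw [Polynomial.eval₂_map, hcomp2]
    exact hf
  obtain ⟨ι, hι⟩ := dvrEx_lift i hi (algebraMap A L) hA
  have hιinj : Injective ι := by
    intro a b hab
    apply hinj
    rw [← hι, ← hι, hab]
  have hintκ : ∀ a, IsIntegral ℤ ((res.comp ι) a) := by
    intro a
    obtain ⟨f, hfm, hf⟩ := hint a
    have h1 : (f.map φ₂).eval₂ k (ι a) = 0 := by
      apply hi
      rw [Polynomial.hom_eval₂, hι, map_zero, Polynomial.eval₂_map]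
      have h2 : (i.comp k).comp φ₂ =
          algebraMap (Algebra.adjoin ℤ (insert ((s : L)⁻¹) (Set.range x))) L := by
        rw [← hcomp2]
        congr 1
        exact RingHom.ext hik
      rw [h2]
      exact hf
    have h3 : ((f.map φ₂).map (res.comp k)).eval ((res.comp ι) a) = 0 := by
      rw [Polynomial.eval_map]
      have h4 := congrArg res h1
      rw [Polynomial.hom_eval₂, map_zero] at h4
      exact h4
    have h5 : (f.map φ₂).map (res.comp k) ∈
        Polynomial.lifts (Int.castRingHom (IsLocalRing.ResidueField V)) := by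
      rw [Polynomial.lifts_iff_coeff_lifts]
      intro n
      rw [Polynomial.coeff_map, Polynomial.coeff_map]
      obtain ⟨m, hm⟩ := hφ₂n (f.coeff n)
      exact ⟨m, hm.symm⟩
    obtain ⟨q, hq1, _, hq2⟩ := Polynomial.lifts_and_natDegree_eq_and_monic h5
      ((hfm.map _).map _)
    refine ⟨q, hq2, ?_⟩
    have h6 : algebraMap ℤ (IsLocalRing.ResidueField V) =
        Int.castRingHom (IsLocalRing.ResidueField V) := RingHom.ext_int _ _
    rw [h6, ← Polynomial.eval_map, hq1]
    exact h3
  have hker : (IsLocalRing.maximalIdeal V).comap ι = RingHom.ker (res.comp ι) := by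
    ext a
    rw [Ideal.mem_comap, RingHom.mem_ker, RingHom.comp_apply, hres0]
  refine ⟨p, V, hV1, hV2, hV3, ι, hp, hιinj, hpm, ?_⟩
  rw [hker]
  exact dvrEx_finite _ hfg hp.ne_zero hpκ hintκ

theorem exists_dvr (A : Type v) [CommRing A] [IsDomain A] [CharZero A]
    (hfg : Algebra.FiniteType ℤ A) :
    ∃ (p : ℕ) (V : Type v) (_ : CommRing V) (_ : IsDomain V) (_ : IsDiscreteValuationRing V)
      (i : A →+* V), p.Prime ∧ Injective i ∧ (p : V) ∈ IsLocalRing.maximalIdeal V ∧
      Finite (A ⧸ (IsLocalRing.maximalIdeal V).comap i) := by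
  exact dvrEx_main A hfg (FractionRing A)

end PDT
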