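import Pool.Agent.Lib.PDT.Base

/-!
# PDT/FGRes: a group with a resolution as in `Res` is finitely generated

Complete proof.  (Only `Q1 → Q0 → ℤ → 0` with `Q1` finitely generated and `Q0` finitely generated
projective is used.)  Let `u : Q0` with `ε u = 1`, and `μ0 : Q0 →ₗ ℤ[G]` with `aug (μ0 q) = ε q`
(with `dualBasis Q0`, `q = Σ f_i(q) • e_i`: `μ0 q = Σ_i ε(e_i) • f_i(q)`, using
`ε (y • e) = aug(y) ε(e)`).  Let `I = {y : Zg G | aug y = 0}`, a left ideal, and `z = 1 - μ0 u ∈ I`.
For `y ∈ I`: `ε (y • u) = aug(y) = 0`, so `y • u = d1 q` and `y * μ0 u = μ0 (d1 q)`; so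
`y = μ0 (d1 q) + y * z`.  Hence `I` is generated as a left ideal by `z` and the elements
`μ0 (d1 q_j)`, `q_j` finitely many generators of `Q1`: finitely many elements `a_1, …, a_k` of `I`.
Let `G'` be the subgroup generated by the finite union `T` of the supports of the `a_j`.  We show
`G' = ⊤`.  Consider `F : ℤ[G] →+ ((G ⧸ G') →₀ ℤ)`, the additive map with `F (el g) = single (g G') 1`
(`zl`).  `F (el x * el t) = F (el x)` for `t ∈ G'`; so, for `a = Σ n_t t` with all `t ∈ G'` and
`Σ n_t = 0`, `F (y * a) = Σ n_t F(y t) = (Σ n_t) F(y) = 0` (for `y = el x`, then additively).  So `F`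
vanishes on the left ideal generated by the `a_j`, i.e. on `I`; so `F (el g - 1) = 0` for all `g`,
i.e. `g G' = G'`, `g ∈ G'`.
(For `a` in `I` supported in `G'`: `a = a.coeff.sum (fun t n => n • el t)` and
`aug a = a.coeff.sum (fun t n => n)`.)
-/

namespace PDT

open Function

universe u

private theorem aug_mul' {G : Type u} [Group G] (x y : Zg G) : aug (x * y) = aug x * aug y := by
  refine Zg.ind (P := fun x => aug (x * y) = aug x * aug y) x ?_ ?_ ?_ ?_
  · simp
  · intro g
    rw [aug_el_mul, aug_el, one_mul]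
  · intro a b ha hb
    rw [add_mul, map_add, map_add, ha, hb, add_mul]
  · intro a ha
    rw [neg_mul, map_neg, map_neg, ha, neg_mul]

private theorem eps_smul {G : Type u} [Group G] (R : Res G) (y : Zg G) (q : R.Q0) :
    R.ε (y • q) = aug y * R.ε q := by
  refine Zg.ind (P := fun y => R.ε (y • q) = aug y * R.ε q) y ?_ ?_ ?_ ?_
  · simp
  · intro g
    rw [R.ε_el, aug_el, one_mul]
  · intro a b ha hb
    rw [add_smul, map_add, map_add, ha, hb, add_mul]
  · intro a ha
    rw [neg_smul, map_neg, map_neg, ha, neg_mul]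

private theorem exists_mu {G : Type u} [Group G] (R : Res G) :
    ∃ μ : R.Q0 →ₗ[Zg G] Zg G, ∀ q, aug (μ q) = R.ε q := by
  obtain ⟨n, e, f, h⟩ := dualBasis (G := G) R.Q0
  refine ⟨∑ i, R.ε (e i) • f i, fun q => ?_⟩
  conv_rhs => rw [h q]
  rw [LinearMap.sum_apply, map_sum, map_sum]
  refine Finset.sum_congr rfl fun i _ => ?_
  rw [eps_smul, LinearMap.smul_apply, map_zsmul, smul_eq_mul, mul_comm]

private theorem zl_el_mul {G : Type u} [Group G] {A : Type*} [AddCommGroup A] (Φ : G → A) (x : G)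
    (a : Zg G) : zl Φ (el x * a) = zl (fun t => Φ (x * t)) a := by
  have : (zl Φ).comp (AddMonoidHom.mulLeft (el x)) = zl (fun t => Φ (x * t)) := by
    apply zhom_ext
    intro g
    simp [← el_mul]
  exact DFunLike.congr_fun this a

private theorem zl_vanish {G : Type u} [Group G] {A : Type*} [AddCommGroup A] (Φ : G → A)
    (G' : Subgroup G) (hΦ : ∀ x, ∀ t ∈ G', Φ (x * t) = Φ x) (a : Zg G)
    (ha : ∀ t ∈ a.coeff.support, t ∈ G') (ha0 : aug a = 0) (y : Zg G) : zl Φ (y * a) = 0 := by
  refine Zg.ind (P := fun y => zl Φ (y * a) = 0) y ?_ ?_ ?_ ?_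
  · simp
  · intro x
    rw [zl_el_mul, zl_apply]
    have h1 : (a.coeff.sum fun t n => n • Φ (x * t)) = a.coeff.sum fun t n => n • Φ x := by
      unfold Finsupp.sum
      refine Finset.sum_congr rfl fun t ht => ?_
      beta_reduce
      rw [hΦ x t (ha t ht)]
    rw [h1]
    have h2 : (a.coeff.sum fun _ n => n • Φ x) = (aug a) • Φ x := by
      rw [aug, zl_apply]
      unfold Finsupp.sum
      rw [Finset.sum_smul]
      refine Finset.sum_congr rfl fun t _ => ?_
      simp
    rw [h2, ha0, zero_smul]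
  · intro b c hb hc
    rw [add_mul, map_add, hb, hc, add_zero]
  · intro b hb
    rw [neg_mul, map_neg, hb, neg_zero]

theorem fg_of_res {G : Type u} [Group G] (R : Res G) : Group.FG G := by
  classical
  obtain ⟨μ, hμ⟩ := exists_mu R
  obtain ⟨u, hu⟩ := R.ε_surj 1
  set z : Zg G := 1 - μ u with hz
  have haug1 : aug (1 : Zg G) = 1 := by
    rw [← el_one]
    exact aug_el 1
  have hz0 : aug z = 0 := by
    rw [hz, map_sub, hμ, hu, haug1, sub_self]
  set N : Submodule (Zg G) (Zg G) := Submodule.span (Zg G) {z} ⊔ LinearMap.range (μ ∘ₗ R.d1)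
    with hN
  have hNfg : N.FG := by
    refine Submodule.FG.sup (Submodule.fg_span_singleton z) ?_
    rw [LinearMap.range_eq_map]
    exact Submodule.FG.map _ Module.Finite.fg_top
  have hN0 : ∀ y ∈ N, aug y = 0 := by
    intro y hy
    rw [hN, Submodule.mem_sup] at hy
    obtain ⟨a, ha, b, hb, rfl⟩ := hy
    rw [Submodule.mem_span_singleton] at ha
    obtain ⟨c, rfl⟩ := ha
    obtain ⟨q, rfl⟩ := hb
    rw [map_add, smul_eq_mul, aug_mul', hz0, mul_zero, zero_add, LinearMap.comp_apply, hμ]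
    exact (R.ex0 _).2 ⟨q, rfl⟩
  have h0N : ∀ y : Zg G, aug y = 0 → y ∈ N := by
    intro y hy
    have h1 : R.ε (y • u) = 0 := by rw [eps_smul, hy, zero_mul]
    obtain ⟨q, hq⟩ := (R.ex0 _).1 h1
    rw [hN, Submodule.mem_sup]
    refine ⟨y • z, Submodule.smul_mem _ _ (Submodule.mem_span_singleton_self z),
      (μ ∘ₗ R.d1) q, ⟨q, rfl⟩, ?_⟩
    rw [LinearMap.comp_apply, hq, map_smul, hz, smul_eq_mul, smul_eq_mul, mul_sub, mul_one]
    abel
  obtain ⟨A, hA⟩ := hNfg
  set T : Set G := ⋃ a ∈ A, (a.coeff.support : Set G) with hT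
  have hTfin : T.Finite := A.finite_toSet.biUnion fun a _ => a.coeff.support.finite_toSet
  set G' : Subgroup G := Subgroup.closure T with hG'
  let Φ : G → ((G ⧸ G') →₀ ℤ) := fun g => Finsupp.single (g : G ⧸ G') 1
  have hΦ : ∀ x, ∀ t ∈ G', Φ (x * t) = Φ x := by
    intro x t ht
    change Finsupp.single ((x * t : G) : G ⧸ G') (1 : ℤ) = Finsupp.single ((x : G) : G ⧸ G') 1
    congr 1
    rw [QuotientGroup.eq]
    simpa using ht
  have hvan : ∀ y ∈ N, ∀ x : Zg G, zl Φ (x * y) = 0 := by
    intro y hy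
    rw [← hA] at hy
    induction hy using Submodule.span_induction with
    | mem a ha =>
      intro x
      refine zl_vanish Φ G' hΦ a ?_ (hN0 a (by rw [← hA]; exact Submodule.subset_span ha)) x
      intro t ht
      apply Subgroup.subset_closure
      rw [hT, Set.mem_iUnion₂]
      exact ⟨a, ha, ht⟩
    | zero => intro x; simp
    | add a b _ _ ha hb => intro x; rw [mul_add, map_add, ha, hb, add_zero]
    | smul c a _ ha => intro x; rw [smul_eq_mul, ← mul_assoc, ha]
  have htop : G' = ⊤ := by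
    rw [eq_top_iff]
    intro g _
    have h1 : el g - 1 ∈ N := h0N _ (by rw [map_sub, aug_el, haug1, sub_self])
    have h2 := hvan _ h1 1
    rw [one_mul, map_sub, ← el_one, zl_el, zl_el, sub_eq_zero] at h2
    have h3 : ((g : G) : G ⧸ G') = ((1 : G) : G ⧸ G') :=
      Finsupp.single_left_injective (one_ne_zero) h2
    rw [eq_comm, QuotientGroup.eq] at h3
    simpa using h3
  rw [Group.fg_iff]
  exact ⟨T, htop, hTfin⟩

end PDT
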