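import Pool.Agent.Lib.PDT.Base
import Pool.Agent.Lib.PDT.Base2

/-!
# PDT/FinGen: if `M` is noetherian then `P2` is finitely generated

`s2 : P2 → (P2 →₀ Zg H)` a section of the canonical map; `V` the span of the vectors `m·s2(p)`;
`lt, Θ : (P2 →₀ M) → M^a` linear, and `B ⊆ M^a` a submodule such that for `v ∈ V` with `lt v = 0`,
`Θ v ∈ B` implies `v = 0`.  `M` is a noetherian `Λ`-module on which `ℤ[H]` acts faithfully.

Complete proof.  `M^a` is noetherian (`isNoetherian_pi`).  Let `K = V ⊓ ker lt`.  The map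
`K → M^a ⧸ B`, `v ↦ [Θ v]` is injective (kernel: `Θ v ∈ B`, so `v = 0`), so `K` is noetherian
(`isNoetherian_of_injective`, quotients of noetherian modules are noetherian).  The map
`lt : V → M^a` has kernel `K` and noetherian range, so `V` is noetherian
(`isNoetherian_of_range_eq_ker` or `isNoetherian_of_ker_range`-type lemma: for
`f : V → M^a`, `IsNoetherian ker` and `IsNoetherian (range)`), in particular `V` is finitely generated
as a submodule (`Submodule.FG V`): `V = span F`, `F` finite.  Let `J` be the finite union of the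
supports of the elements of `F`; all `v ∈ V` are supported in `J`
(`Submodule.span_le`, `Finsupp.supported`).  For `p : P2`, `i ∉ J`, `m : M`:
`0 = (mxS L (s2 p) m) i = actR L (s2 p i) m`, so `s2 p i = 0` by faithfulness.  So
`p = Σ_{i ∈ J} (s2 p i) • i` for all `p`: `P2` is spanned by the finite set `J`.
-/

namespace PDT

open Function

theorem fin_gen {H : Type*} [Group H] {Λ M : Type*} [Ring Λ] [AddCommGroup M] [Module Λ M]
    [IsNoetherian Λ M] (L : H →* Module.End Λ M)
    (hfaith : ∀ y : Zg H, (∀ m, actR L y m = 0) → y = 0) {P2 : Type*} [AddCommGroup P2]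
    [Module (Zg H) P2] (s2 : P2 →ₗ[Zg H] (P2 →₀ Zg H))
    (hs2 : ∀ p, Finsupp.linearCombination (Zg H) id (s2 p) = p) {a : ℕ}
    (lt Θ : (P2 →₀ M) →ₗ[Λ] (Fin a → M)) (B : Submodule Λ (Fin a → M))
    (hinj : ∀ v ∈ Submodule.span Λ {v : P2 →₀ M | ∃ p m, v = mxS L (s2 p) m}, lt v = 0 →
      Θ v ∈ B → v = 0) :
    Module.Finite (Zg H) P2 := by
  classical
  set V : Submodule Λ (P2 →₀ M) :=
    Submodule.span Λ {v : P2 →₀ M | ∃ p m, v = mxS L (s2 p) m} with hV
  let ltV : V →ₗ[Λ] (Fin a → M) := lt.comp V.subtype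
  have hK : IsNoetherian Λ (LinearMap.ker ltV) := by
    let φ : LinearMap.ker ltV →ₗ[Λ] ((Fin a → M) ⧸ B) :=
      (B.mkQ.comp (Θ.comp V.subtype)).comp (LinearMap.ker ltV).subtype
    have hφ : Injective φ := by
      rintro ⟨⟨v, hv⟩, hv0⟩ ⟨⟨v', hv'⟩, hv0'⟩ h
      have h1 : Θ (v - v') ∈ B := by
        rw [map_sub, ← Submodule.Quotient.eq B]
        exact h
      have h0 : lt (v - v') = 0 := by
        have e1 : lt v = 0 := hv0
        have e2 : lt v' = 0 := hv0'
        rw [map_sub, e1, e2, sub_zero]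
      have h2 : v - v' = 0 := hinj (v - v') (V.sub_mem hv hv') h0 h1
      apply Subtype.ext
      apply Subtype.ext
      exact sub_eq_zero.1 h2
    exact isNoetherian_of_injective φ hφ
  have hN : IsNoetherian Λ V := by
    have hr : LinearMap.range (LinearMap.ker ltV).subtype = LinearMap.ker ltV :=
      Submodule.range_subtype _
    exact isNoetherian_of_range_eq_ker (M := LinearMap.ker ltV) (N := V) (P := Fin a → M)
      (LinearMap.ker ltV).subtype ltV hr
  have hfg : V.FG := by
    rw [← Submodule.fg_top]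
    exact IsNoetherian.noetherian ⊤
  obtain ⟨F, hF⟩ := hfg
  let J : Finset P2 := F.biUnion fun v => v.support
  have hJ : V ≤ Finsupp.supported M Λ (J : Set P2) := by
    rw [← hF, Submodule.span_le]
    intro v hv
    rw [SetLike.mem_coe, Finsupp.mem_supported]
    intro i hi
    exact Finset.mem_coe.2 (Finset.mem_biUnion.2 ⟨v, hv, hi⟩)
  have key : ∀ (p : P2) (i : P2), i ∉ J → s2 p i = 0 := by
    intro p i hi
    apply hfaith
    intro m
    have h1 : mxS L (s2 p) m ∈ V := Submodule.subset_span ⟨p, m, rfl⟩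
    have h2 := hJ h1
    rw [Finsupp.mem_supported] at h2
    rw [← mxS_apply]
    by_contra h3
    exact hi (Finset.mem_coe.1 (h2 (Finsupp.mem_support_iff.2 h3)))
  refine ⟨⟨J, ?_⟩⟩
  rw [eq_top_iff]
  intro p _
  rw [← hs2 p, Finsupp.linearCombination_apply, Finsupp.sum]
  refine Submodule.sum_mem _ fun i hi => ?_
  refine Submodule.smul_mem _ _ (Submodule.subset_span ?_)
  by_contra h
  exact (Finsupp.mem_support_iff.1 hi) (key p i h)

end PDT
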