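import Pool.Agent.Lib.PDT.Base4

/-!
# PDT/NilP: Nakayama's lemma for finite modules of `p`-power exponent over a `p`-group

`X` a finite `ℤ[H]`-module with `p^n X = 0` on which the normal subgroup `N` acts trivially, `H ⧸ N` a finite
`p`-group.  If `X = 𝔐 X`, `𝔐 = {y | aug y = 0 mod p}`, then `X = 0`.

Complete proof.  Suppose `X ≠ 0`.  `p X ≠ X` (otherwise `X = p^n X = 0`), so `X / p X` is a nonzero vector
space over `ZMod p` and there is a nonzero `χ : X →+ ZMod p` (e.g. a nonzero functional on the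
`ZMod p`-module `X ⧸ p X`; `AddCommGroup.zmodModule`, `exists_dual_forall_apply_eq_zero_iff` or
`Module.exists_dual_ne_zero`-type lemmas or a basis).  Let `Y = X →+ ZMod p`, a finite group
(finitely many functions) with `p Y = 0`, `Y ≠ 0`, so `p` divides `|Y|` (`addOrderOf_dvd_natCard`: the nonzero `χ`
has order `p`).  `Γ = H ⧸ N` acts on `Y` by `(g • χ)(x) = χ(g⁻¹ • x)` (`h` acts on `X` by `el h`; if one does not want
to define the action of the quotient: let `H` act on `Y`, `MulAction H Y`, `N` acts trivially, and the image of `H` in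
`Equiv.Perm Y` is a `p`-group, `IsPGroup` of `(MulAction.toPermHom H Y).range`; or use `MulAction`
of the quotient by lifting `MulAction.toPermHom`, `QuotientGroup.lift`).  `Γ` is a `p`-group and `0` is a fixed
point, so there is a fixed `χ ≠ 0` (`IsPGroup.exists_fixed_point_of_prime_dvd_card_of_fixed_point`).
`χ(el h • x) = χ(x)`, hence `χ(y • x) = aug(y) χ(x)` (additive in `y`), which is `0` for `aug y = 0 mod p`.  By
`hgen`, `χ = 0` on `X`: contradiction.
-/

namespace PDT

section aux

variable {H : Type*} [Group H] {X : Type*} [AddCommGroup X] [Module (Zg H) X] (p : ℕ)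

/-- the contragredient action -/
private noncomputable def NilP_phi : H →* Equiv.Perm (X →+ ZMod p) where
  toFun h :=
    { toFun := fun χ => χ.comp (DistribSMul.toAddMonoidHom X (el h⁻¹))
      invFun := fun χ => χ.comp (DistribSMul.toAddMonoidHom X (el h))
      left_inv := fun χ => by
        ext x
        change χ (el h⁻¹ • el h • x) = χ x
        rw [el_inv_smul]
      right_inv := fun χ => by
        ext x
        change χ (el h • el h⁻¹ • x) = χ x
        rw [el_smul_inv] }
  map_one' := by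
    ext χ x
    change χ (el (1 : H)⁻¹ • x) = χ x
    rw [inv_one, el_one, one_smul]
  map_mul' g h := by
    ext χ x
    change χ (el (g * h)⁻¹ • x) = χ (el h⁻¹ • el g⁻¹ • x)
    rw [mul_inv_rev, el_mul, mul_smul]

private theorem NilP_phi_apply (h : H) (χ : X →+ ZMod p) (x : X) :
    (NilP_phi p h χ) x = χ (el h⁻¹ • x) := rfl

omit [Group H] [Module (Zg H) X] in
private theorem NilP_dual [Fact p.Prime] {Q : Type*} [AddCommGroup Q] [Module (ZMod p) Q]
    (q : Q) (hq : q ≠ 0) : ∃ χ : Q →+ ZMod p, χ q ≠ 0 := by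
  by_contra hcon
  push Not at hcon
  apply hq
  rw [← Module.forall_dual_apply_eq_zero_iff (ZMod p)]
  intro f
  exact hcon f.toAddMonoidHom

private theorem NilP_functional [Fact p.Prime] (n : ℕ) (hn : ∀ x : X, (p ^ n : ℕ) • x = 0)
    (x0 : X) (hx0 : x0 ≠ 0) : ∃ χ : X →+ ZMod p, χ ≠ 0 := by
  have h1 : ∃ x : X, ∀ y : X, p • y ≠ x := by
    by_contra hcon
    push Not at hcon
    have h2 : ∀ m : ℕ, ∀ x : X, ∃ y : X, (p ^ m : ℕ) • y = x := by
      intro m
      induction m with
      | zero => exact fun x => ⟨x, by simp⟩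
      | succ m ih =>
        intro x
        obtain ⟨y, hy⟩ := ih x
        obtain ⟨z, hz⟩ := hcon y
        exact ⟨z, by rw [pow_succ, mul_smul, hz, hy]⟩
    obtain ⟨y, hy⟩ := h2 n x0
    rw [hn] at hy
    exact hx0 hy.symm
  obtain ⟨x, hx⟩ := h1
  let S : AddSubgroup X := (nsmulAddMonoidHom p).range
  have hxS : x ∉ S := by
    rintro ⟨y, hy⟩
    exact hx y hy
  have hp0 : ∀ q : X ⧸ S, p • q = 0 := by
    intro q
    obtain ⟨y, rfl⟩ := QuotientAddGroup.mk'_surjective S q
    rw [← map_nsmul]
    change ((p • y : X) : X ⧸ S) = 0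
    rw [QuotientAddGroup.eq_zero_iff]
    exact ⟨y, rfl⟩
  have hq : (QuotientAddGroup.mk' S x) ≠ 0 := by
    intro h
    exact hxS ((QuotientAddGroup.eq_zero_iff x).1 h)
  obtain ⟨f, hf⟩ := @NilP_dual p _ (X ⧸ S) _ (AddCommGroup.zmodModule hp0) _ hq
  refine ⟨f.comp (QuotientAddGroup.mk' S), fun h => hf ?_⟩
  exact DFunLike.congr_fun h x

end aux

theorem nil_p (p : ℕ) (hp : p.Prime) {H : Type*} [Group H] {X : Type*} [AddCommGroup X]
    [Module (Zg H) X] [Finite X] (n : ℕ) (hn : ∀ x : X, (p ^ n : ℕ) • x = 0) (N : Subgroup H)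
    (hN : PQ p N) (hX : ∀ h ∈ N, ∀ x : X, el h • x = x)
    (hgen : ∀ x : X, x ∈ AddSubgroup.closure
      {z : X | ∃ (y : Zg H) (x' : X), (aug y : ZMod p) = 0 ∧ z = y • x'}) (x : X) : x = 0 := by
  classical
  have : Fact p.Prime := ⟨hp⟩
  by_contra hx
  obtain ⟨χ, hχ⟩ := NilP_functional p n hn x hx
  have : Finite (X →+ ZMod p) :=
    Finite.of_injective (fun χ : X →+ ZMod p => (χ : X → ZMod p)) DFunLike.coe_injective
  have hcard : p ∣ Nat.card (X →+ ZMod p) := by
    have h1 : addOrderOf χ = p := by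
      apply addOrderOf_eq_prime _ hχ
      ext z
      change p • χ z = 0
      rw [nsmul_eq_mul, ZMod.natCast_self, zero_mul]
    have h2 := addOrderOf_dvd_natCard χ
    rwa [h1] at h2
  have htriv : ∀ k ∈ N, NilP_phi (X := X) p k = 1 := by
    intro k hk
    ext ψ z
    change ψ (el k⁻¹ • z) = ψ z
    rw [hX _ (N.inv_mem hk)]
  have hPG : IsPGroup p (NilP_phi (H := H) (X := X) p).range := by
    rintro ⟨_, h, rfl⟩
    obtain ⟨m, hm⟩ := hN.2.2 h
    refine ⟨m, Subtype.ext ?_⟩
    change (NilP_phi p h) ^ p ^ m = 1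
    rw [← map_pow]
    exact htriv _ hm
  have hzero : (0 : X →+ ZMod p) ∈ MulAction.fixedPoints (NilP_phi (H := H) (X := X) p).range
      (X →+ ZMod p) := by
    rintro ⟨_, h, rfl⟩
    ext z
    rfl
  obtain ⟨b, hb, hb0⟩ := hPG.exists_fixed_point_of_prime_dvd_card_of_fixed_point _ hcard hzero
  have hbinv : ∀ (h : H) (z : X), b (el h • z) = b z := by
    intro h z
    have h1 := hb ⟨NilP_phi p h⁻¹, h⁻¹, rfl⟩
    have h2 : (NilP_phi p h⁻¹ b) z = b z := DFunLike.congr_fun h1 z
    rw [NilP_phi_apply, inv_inv] at h2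
    exact h2
  have hbaug : ∀ (y : Zg H) (z : X), b (y • z) = (aug y : ZMod p) * b z := by
    intro y z
    let F : Zg H →+ ZMod p :=
      { toFun := fun y => b (y • z)
        map_zero' := by rw [zero_smul, map_zero]
        map_add' := fun a c => by rw [add_smul, map_add] }
    let F' : Zg H →+ ZMod p :=
      { toFun := fun y => (aug y : ZMod p) * b z
        map_zero' := by rw [map_zero, Int.cast_zero, zero_mul]
        map_add' := fun a c => by rw [map_add, Int.cast_add, add_mul] }
    have h : F = F' := by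
      apply zhom_ext
      intro g
      change b (el g • z) = (aug (el g) : ZMod p) * b z
      rw [hbinv, aug_el, Int.cast_one, one_mul]
    exact DFunLike.congr_fun h y
  apply hb0
  symm
  ext z
  have hz := hgen z
  induction hz using AddSubgroup.closure_induction with
  | mem w hw =>
    obtain ⟨y, x', hy, rfl⟩ := hw
    rw [hbaug, hy, zero_mul]
    rfl
  | zero => rw [map_zero, map_zero]
  | add u v _ _ hu hv => rw [map_add, map_add, hu, hv]
  | neg u _ hu => rw [map_neg, map_neg, hu]

end PDT
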