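import Pool.Agent.Lib.PDT.ResFin
import Pool.Agent.Lib.PDT.NilP

/-!
# PDT/FinGenP: projective modules of bounded rank modulo `p` over a residually `p` group are finitely generated
-/

namespace PDT

/-- The image of `y` in `(ℤ/m)[H ⧸ N]`. -/
private noncomputable def FinGenP_phi {H : Type*} [Group H] (N : Subgroup H) (m : ℕ) :
    Zg H →+ ((H ⧸ N) → ZMod m) :=
  open Classical in
  zl fun h => fun c => if c = (h : H ⧸ N) then 1 else 0

private theorem FinGenP_phi_mul {H : Type*} [Group H] (N : Subgroup H) (m : ℕ) (h : H) (y : Zg H)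
    (c : H ⧸ N) : FinGenP_phi N m (el h * y) c = FinGenP_phi N m y (h⁻¹ • c) := by
  classical
  have key : (FinGenP_phi N m).comp (AddMonoidHom.mulLeft (el h)) =
      (AddMonoidHom.mk' (fun f : (H ⧸ N) → ZMod m => fun c => f (h⁻¹ • c))
        (fun a b => rfl)).comp (FinGenP_phi N m) := by
    apply zhom_ext
    intro x
    funext c
    simp only [FinGenP_phi, AddMonoidHom.coe_comp, Function.comp_apply,
      AddMonoidHom.coe_mulLeft, ← el_mul, zl_el, AddMonoidHom.mk'_apply]
    by_cases hc : c = ((h * x : H) : H ⧸ N)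
    · subst hc
      have e : h⁻¹ • ((h * x : H) : H ⧸ N) = (x : H ⧸ N) := by
        rw [MulAction.Quotient.smul_coe, smul_eq_mul, inv_mul_cancel_left]
      rw [e, if_pos rfl, if_pos rfl]
    · rw [if_neg hc, if_neg]
      intro h2
      apply hc
      have : h • h⁻¹ • c = h • (x : H ⧸ N) := by rw [h2]
      rw [smul_inv_smul] at this
      rw [this]
      rfl
  exact congrFun (DFunLike.congr_fun key y) c

private theorem FinGenP_phi_norm {H : Type*} [Group H] (N : Subgroup H) (hN : N.Normal) (m : ℕ)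
    (h : H) (hh : h ∈ N) (y : Zg H) : FinGenP_phi N m (el h * y) = FinGenP_phi N m y := by
  classical
  have key : (FinGenP_phi N m).comp (AddMonoidHom.mulLeft (el h)) = FinGenP_phi N m := by
    apply zhom_ext
    intro x
    simp only [FinGenP_phi, AddMonoidHom.coe_comp, Function.comp_apply,
      AddMonoidHom.coe_mulLeft, ← el_mul, zl_el]
    have e : ((h * x : H) : H ⧸ N) = (x : H ⧸ N) := by
      rw [QuotientGroup.eq]
      have := hN.conj_mem h⁻¹ (N.inv_mem hh) x⁻¹
      simpa [mul_assoc] using this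
    rw [e]
  exact DFunLike.congr_fun key y

/-- The left ideal of the elements which vanish in `(ℤ/m)[H ⧸ N]`. -/
private noncomputable def FinGenP_I {H : Type*} [Group H] (N : Subgroup H) (m : ℕ) :
    Submodule (Zg H) (Zg H) where
  carrier := {y | FinGenP_phi N m y = 0}
  zero_mem' := by simp
  add_mem' := by
    intro a b ha hb
    simp only [Set.mem_ofPred_eq] at *
    rw [map_add, ha, hb, add_zero]
  smul_mem' := by
    intro z y hy
    simp only [Set.mem_ofPred_eq, smul_eq_mul] at *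
    induction z using Zg.ind with
    | h0 => simp
    | hel g =>
      funext c
      rw [FinGenP_phi_mul, hy]
      rfl
    | hadd a b ha hb => rw [add_mul, map_add, ha, hb, add_zero]
    | hneg a ha => rw [neg_mul, map_neg, ha, neg_zero]

private theorem FinGenP_mem_I {H : Type*} [Group H] (N : Subgroup H) (m : ℕ) (y : Zg H) :
    y ∈ FinGenP_I N m ↔ FinGenP_phi N m y = 0 := Iff.rfl

private theorem FinGenP_fin {H : Type*} [Group H] (N : Subgroup H) [N.FiniteIndex] (m : ℕ)
    [NeZero m] : Finite (Zg H ⧸ FinGenP_I N m) := by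
  classical
  have hf : Finite (H ⧸ N) := inferInstance
  let r : Zg H ⧸ FinGenP_I N m → Zg H := Function.surjInv (Submodule.mkQ_surjective _)
  have hr : ∀ x, (FinGenP_I N m).mkQ (r x) = x := Function.surjInv_eq _
  refine Finite.of_injective (fun x => FinGenP_phi N m (r x)) ?_
  intro x y hxy
  have h1 : FinGenP_phi N m (r x - r y) = 0 := by
    rw [map_sub, sub_eq_zero]
    exact hxy
  have h2 : (FinGenP_I N m).mkQ (r x) = (FinGenP_I N m).mkQ (r y) := by
    rw [Submodule.mkQ_apply, Submodule.mkQ_apply, Submodule.Quotient.eq]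
    exact h1
  rw [hr, hr] at h2
  exact h2

private theorem FinGenP_all {p : ℕ} (hp : p.Prime) {H : Type*} [Group H] {P : Type*}
    [AddCommGroup P] [Module (Zg H) P] (g : P →ₗ[Zg H] Zg H)
    (hg : ∀ q, ∃ q', g q = g q' ∧ q' ∈ AddSubgroup.closure
      {z : P | ∃ (y : Zg H) (x' : P), (aug y : ZMod p) = 0 ∧ z = y • x'})
    (N : Subgroup H) (hN : PQ p N) (n : ℕ) (q : P) : FinGenP_phi N (p ^ n) (g q) = 0 := by
  classical
  have hnorm := hN.1
  have hfi := hN.2.1
  have : NeZero (p ^ n) := ⟨pow_ne_zero _ hp.ne_zero⟩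
  have hfin := FinGenP_fin N (p ^ n)
  let φ : P →ₗ[Zg H] LinearMap.range ((FinGenP_I N (p ^ n)).mkQ ∘ₗ g) :=
    ((FinGenP_I N (p ^ n)).mkQ ∘ₗ g).rangeRestrict
  have hφs : Function.Surjective φ := LinearMap.surjective_rangeRestrict _
  have hφ : ∀ q q', g q = g q' → φ q = φ q' := by
    intro q q' h
    apply Subtype.ext
    show (FinGenP_I N (p ^ n)).mkQ (g q) = (FinGenP_I N (p ^ n)).mkQ (g q')
    rw [h]
  have hφ0 : ∀ q, φ q = 0 ↔ FinGenP_phi N (p ^ n) (g q) = 0 := by
    intro q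
    rw [← FinGenP_mem_I, Subtype.ext_iff]
    show (FinGenP_I N (p ^ n)).mkQ (g q) = 0 ↔ _
    rw [Submodule.mkQ_apply, Submodule.Quotient.mk_eq_zero]
  rw [← hφ0]
  refine nil_p p hp n ?_ N hN ?_ ?_ (φ q)
  · intro x
    obtain ⟨q, rfl⟩ := hφs x
    rw [← map_nsmul, hφ0, map_nsmul, map_nsmul]
    funext c
    rw [Pi.smul_apply, nsmul_eq_mul, ZMod.natCast_self, zero_mul]
    rfl
  · intro h hh x
    obtain ⟨q, rfl⟩ := hφs x
    rw [← map_smul, ← sub_eq_zero, ← map_sub, hφ0, map_sub, map_sub, map_smul, smul_eq_mul,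
      FinGenP_phi_norm N hnorm _ h hh, sub_self]
  · intro x
    obtain ⟨q, rfl⟩ := hφs x
    obtain ⟨q', h1, h2⟩ := hg q
    rw [hφ q q' h1]
    have h3 : φ.toAddMonoidHom q' ∈ AddSubgroup.closure (φ.toAddMonoidHom ''
        {z : P | ∃ (y : Zg H) (x' : P), (aug y : ZMod p) = 0 ∧ z = y • x'}) := by
      rw [← AddMonoidHom.map_closure]
      exact AddSubgroup.mem_map_of_mem _ h2
    refine AddSubgroup.closure_mono ?_ h3
    rintro _ ⟨_, ⟨y, x', hy, rfl⟩, rfl⟩
    exact ⟨y, φ x', hy, map_smul φ y x'⟩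

private theorem FinGenP_coeff {H : Type*} [Group H] (N : Subgroup H) (m : ℕ) (y : Zg H) (h0 : H)
    (hsep : ∀ h ∈ y.coeff.support, h ≠ h0 → (h : H ⧸ N) ≠ (h0 : H ⧸ N)) :
    FinGenP_phi N m y (h0 : H ⧸ N) = (y.coeff h0 : ZMod m) := by
  classical
  rw [FinGenP_phi, zl_apply, Finsupp.sum, Finset.sum_apply]
  rw [Finset.sum_eq_single h0]
  · rw [Pi.smul_apply]
    simp
  · intro h hh hne
    rw [Pi.smul_apply]
    have := (hsep h hh hne).symm
    rw [if_neg this, smul_zero]
  · intro h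
    rw [Finsupp.notMem_support_iff.1 h, zero_smul]
    rfl

private theorem FinGenP_zero {p : ℕ} (hp : p.Prime) {H : Type*} [Group H] (hres : ResP p H)
    (y : Zg H) (hy : ∀ N : Subgroup H, PQ p N → ∀ n, FinGenP_phi N (p ^ n) y = 0) : y = 0 := by
  classical
  by_contra hne
  have h1 : y.coeff ≠ 0 := by
    intro h
    apply hne
    apply MonoidAlgebra.coeff_injective
    simpa using h
  obtain ⟨h0, hh0⟩ := Finsupp.support_nonempty_iff.2 h1
  obtain ⟨N, hN, hN2⟩ := res_fin hres ((y.coeff.support.filter (· ≠ h0)).image fun h => h⁻¹ * h0)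
    (by
      intro h hh
      obtain ⟨a, ha, rfl⟩ := Finset.mem_image.1 hh
      intro h2
      exact (Finset.mem_filter.1 ha).2 (inv_mul_eq_one.1 h2))
  have h2 : ∀ n, ((y.coeff h0 : ℤ) : ZMod (p ^ n)) = 0 := by
    intro n
    rw [← FinGenP_coeff N (p ^ n) y h0, hy N hN n]
    · rfl
    · intro h hh hne2 heq
      refine hN2 (h⁻¹ * h0) (Finset.mem_image.2 ⟨h, Finset.mem_filter.2 ⟨hh, hne2⟩, rfl⟩) ?_
      exact QuotientGroup.eq.1 heq
  have h3 : y.coeff h0 ≠ 0 := Finsupp.mem_support_iff.1 hh0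
  have h4 := h2 (y.coeff h0).natAbs
  rw [ZMod.intCast_zmod_eq_zero_iff_dvd] at h4
  have h5 : p ^ (y.coeff h0).natAbs ∣ (y.coeff h0).natAbs := Int.natCast_dvd.1 h4
  have h6 := Nat.le_of_dvd (Int.natAbs_pos.2 h3) h5
  exact absurd h6 (not_le.2 (Nat.lt_pow_self hp.one_lt))

theorem fin_gen_p (p : ℕ) (hp : p.Prime) {H : Type*} [Group H] (hres : ResP p H) {P : Type*}
    [AddCommGroup P] [Module (Zg H) P] (s2 : P →ₗ[Zg H] (P →₀ Zg H))
    (hs2 : ∀ q, Finsupp.linearCombination (Zg H) id (s2 q) = q) (A : ℕ)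
    (hA : ∀ (a : ℕ) (x : Fin a → P), IndP p H x → a ≤ A) : Module.Finite (Zg H) P := by
  classical
  have : Fact p.Prime := ⟨hp⟩
  obtain ⟨a, x, hx, hmax⟩ : ∃ (a : ℕ) (x : Fin a → P), IndP p H x ∧
      ∀ x' : Fin (a + 1) → P, ¬ IndP p H x' := by
    have h0 : ∃ x : Fin 0 → P, IndP p H x := ⟨fun i => i.elim0, fun c _ => Subsingleton.elim _ _⟩
    obtain ⟨x, hx⟩ := Nat.findGreatest_spec (P := fun a => ∃ x : Fin a → P, IndP p H x)
      (Nat.zero_le A) h0
    refine ⟨_, x, hx, fun x' hx' => ?_⟩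
    have := Nat.le_findGreatest (P := fun a => ∃ x : Fin a → P, IndP p H x) (hA _ x' hx') ⟨x', hx'⟩
    omega
  have key : ∀ q : P, ∃ n : Fin a → ℤ, ∀ f : P →ₗ[Zg H] Zg H,
      (aug (f (q - ∑ i, n i • x i)) : ZMod p) = 0 := by
    intro q
    have h1 := hmax (Fin.cons q x)
    rw [IndP] at h1
    push Not at h1
    obtain ⟨c, hc, hc0⟩ := h1
    have hc' : ∀ f : P →ₗ[Zg H] Zg H, c 0 * (aug (f q) : ZMod p) +
        ∑ i : Fin a, c i.succ * (aug (f (x i)) : ZMod p) = 0 := by
      intro f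
      have := hc f
      rw [Fin.sum_univ_succ] at this
      simpa using this
    have hne : c 0 ≠ 0 := by
      intro h0
      apply hc0
      have h2 : (fun i : Fin a => c i.succ) = 0 := by
        apply hx
        intro f
        have := hc' f
        rw [h0, zero_mul, zero_add] at this
        exact this
      funext i
      refine Fin.cases h0 (fun j => ?_) i
      exact congrFun h2 j
    choose n hn using fun i : Fin a => ZMod.intCast_surjective (-(c 0)⁻¹ * c i.succ)
    refine ⟨n, fun f => ?_⟩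
    have h3 := hc' f
    have h4 : (aug (f q) : ZMod p) = ∑ i, (n i : ZMod p) * (aug (f (x i)) : ZMod p) := by
      have : (aug (f q) : ZMod p) = -(c 0)⁻¹ * ∑ i : Fin a, c i.succ * (aug (f (x i)) : ZMod p) := by
        have h5 : ∑ i : Fin a, c i.succ * (aug (f (x i)) : ZMod p) =
            - (c 0 * (aug (f q) : ZMod p)) := by
          rw [eq_neg_iff_add_eq_zero, add_comm]
          exact h3
        rw [h5]
        field_simp
      rw [this, Finset.mul_sum]
      refine Finset.sum_congr rfl fun i _ => ?_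
      rw [hn, mul_assoc]
    rw [map_sub, map_sub, map_sum, map_sum]
    push_cast
    rw [h4, sub_eq_zero]
    refine Finset.sum_congr rfl fun i _ => ?_
    rw [map_zsmul, map_zsmul, zsmul_eq_mul]
    push_cast
    rfl
  have key2 : ∀ q : P, (∀ f : P →ₗ[Zg H] Zg H, (aug (f q) : ZMod p) = 0) →
      q ∈ AddSubgroup.closure
        {z : P | ∃ (y : Zg H) (x' : P), (aug y : ZMod p) = 0 ∧ z = y • x'} := by
    intro q hq
    rw [← hs2 q, Finsupp.linearCombination_apply, Finsupp.sum]
    refine AddSubgroup.sum_mem _ fun j _ => AddSubgroup.subset_closure ?_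
    exact ⟨s2 q j, j, hq ((Finsupp.lapply j) ∘ₗ s2), rfl⟩
  let J : Finset P := Finset.univ.biUnion fun i => (s2 (x i)).support
  have hJ : ∀ j, j ∉ J → ∀ q, s2 q j = 0 := by
    intro j hj q
    have hxj : ∀ i, s2 (x i) j = 0 := by
      intro i
      by_contra h
      exact hj (Finset.mem_biUnion.2 ⟨i, Finset.mem_univ _, Finsupp.mem_support_iff.2 h⟩)
    refine FinGenP_zero hp hres _ fun N hN n => ?_
    refine FinGenP_all hp ((Finsupp.lapply j) ∘ₗ s2) (fun q => ?_) N hN n q
    obtain ⟨m, hm⟩ := key q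
    refine ⟨q - ∑ i, m i • x i, ?_, key2 _ hm⟩
    rw [map_sub, map_sum]
    have : ∑ i, ((Finsupp.lapply j) ∘ₗ s2) (m i • x i) = 0 := by
      refine Finset.sum_eq_zero fun i _ => ?_
      rw [map_zsmul]
      have : ((Finsupp.lapply j) ∘ₗ s2) (x i) = 0 := hxj i
      rw [this, smul_zero]
    rw [this, sub_zero]
  refine ⟨⟨J, ?_⟩⟩
  rw [Submodule.eq_top_iff']
  intro q
  rw [← hs2 q, Finsupp.linearCombination_apply, Finsupp.sum]
  refine Submodule.sum_mem _ fun j hj => Submodule.smul_mem _ _ (Submodule.subset_span ?_)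
  by_contra hj2
  exact (Finsupp.mem_support_iff.1 hj) (hJ j hj2 q)

end PDT
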