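import Pool.Agent.Lib.PDT.Base5

/-!
# PDT/FixAtom: the stabiliser of an end of `(G, H)` fixes an end of `(G, K)`

`C` the set of ends of `(G, H)` (`HEnds`), `c0 ∈ C`, `K ≤ H` its stabiliser, `D` the set of ends of `(G, K)`.
Then some `u ∈ D` is invariant under `K`.

Complete proof.  `HF H X`: `X` meets finitely many cosets of `H`; lemmas `HF.mono, HF.union, HF.left, HF.right, HF.of_le`.
(F1) `X ⊆ c0` and `HF H X` imply `HF K X`: for every coset `g H`, `X ∩ g H` lies in one coset of `K`: if `a, b ∈ c0`, `b = a h`, `h ∈ H`,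
then `a ∈ c0` and `a ∈ {g | g h ∈ c0} ∈ C` (`tr`), so these two are equal (`disj`), i.e. `h ∈ K` (`hK`).  So the map
`G ⧸ K → G ⧸ H` is injective on the image of `X`.
(F3) `c0` is `K`-almost invariant: for all `x`, `HF K {g | ¬(x g ∈ c0 ↔ g ∈ c0)}`: the subset `{g ∈ c0 | x g ∉ c0}` is `HF H` by
`ai`, so `HF K` by (F1); the subset `{g ∉ c0 | x g ∈ c0}` is the preimage under `g ↦ x g` (`HF.left`) of
`{g' ∈ c0 | x⁻¹ g' ∉ c0}`, which is `HF K` in the same way.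
Let `f : G → ULift ℤ` be the indicator function of `c0` (`ULift.{u} ℤ : Type u`, an additive commutative group), with (F3) (for `x⁻¹`)
`HF K {g | f (x⁻¹ g) ≠ f g}`.  `st` for `D` gives `f' : Set G → ULift ℤ` with `Ex = {g | ∃ c ∈ D, g ∈ c ∧ f g ≠ f' c}` in `HF K`.
(1) There is `u ∈ D` with `f' u = 1`: `c0` is not `HF H` (`deep`), so not `HF K` (`HF.of_le`); so it is not contained in
`Ex ∪ {g | ∀ c ∈ D, g ∉ c}` (`co`): some `g ∈ c0` is in some `u ∈ D`, and `g ∉ Ex`, so `f' u = f g = 1`.  Fix `u`.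
`u \ c0 ⊆ Ex` is `HF K`.
(2) `c0 \ u` is `HF K`.  Let `X = u ∩ c0`.  For all `x`: `{g | ¬(x g ∈ X ↔ g ∈ X)}` is `HF K` (`ai` for `D` and (F3)), so `HF H`.
`st` for `C` and the indicator function of `X` gives `g'` with `{g ∈ c0 | 1_X(g) ≠ g' c0}` in `HF H`, so in `HF K` by (F1).
If `g' c0 ≠ 1` then `X` is contained in it, so `X` and `u ⊆ X ∪ (u \ c0)` are `HF K`, contradiction to `deep` for `D`.  So `g' c0 = 1` and
`c0 \ u = {g ∈ c0 | 1_X(g) ≠ 1}` is `HF K`.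
(3) Let `k ∈ K`, `u' = {g | g k ∈ u} ∈ D`.  Suppose `u' ≠ u`, so `u' ∩ u = ∅` (`disj`).  `u' ∩ c0 ⊆ c0 \ u` is `HF K`;
`u' \ c0 = {g | g k ∈ u \ c0}` (as `g ∈ c0 ↔ g k ∈ c0`, `k ∈ K`) is `HF K` (`HF.right`).  So `u'` is `HF K`, contradiction to `deep`.  So
`u' = u`.
-/

namespace PDT

open Function

universe u

theorem fix_atom {G : Type u} [Group G] (H K : Subgroup G) (hKH : K ≤ H) (C : Set (Set G))
    (hC : HEnds H C) (c0 : Set G) (hc0 : c0 ∈ C)
    (hK : ∀ h : H, (h : G) ∈ K ↔ {g | g * (h : G) ∈ c0} = c0) (D : Set (Set G))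
    (hD : HEnds K D) : ∃ u ∈ D, ∀ k : K, {g | g * (k : G) ∈ u} = u := by
  classical
  have F1 : ∀ X : Set G, X ⊆ c0 → HF H X → HF K X := by
    intro X hX hHX
    unfold HF at hHX ⊢
    refine Set.Finite.of_finite_image (f := Subgroup.quotientMapOfLE hKH) ?_ ?_
    · refine hHX.subset ?_
      rintro _ ⟨_, ⟨g, hg, rfl⟩, rfl⟩
      exact ⟨g, hg, rfl⟩
    · rintro _ ⟨a, ha, rfl⟩ _ ⟨b, hb, rfl⟩ hab
      have hab' : (a : G ⧸ H) = (b : G ⧸ H) := hab
      rw [QuotientGroup.eq] at hab'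
      show (a : G ⧸ K) = (b : G ⧸ K)
      rw [QuotientGroup.eq]
      have key := (hK ⟨a⁻¹ * b, hab'⟩).2 ?_
      · exact key
      · exact hC.disj _ (hC.tr c0 hc0 ⟨a⁻¹ * b, hab'⟩) c0 hc0 a
          (by
            show a * (a⁻¹ * b) ∈ c0
            rw [mul_inv_cancel_left]
            exact hX hb) (hX ha)
  have F3 : ∀ x : G, HF K {g | ¬ (x * g ∈ c0 ↔ g ∈ c0)} := by
    have h1 : ∀ x : G, HF K {g | g ∈ c0 ∧ x * g ∉ c0} := by
      intro x
      refine F1 _ (fun g hg => hg.1) ((hC.ai x).mono ?_)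
      rintro g ⟨hg1, hg2⟩
      exact ⟨c0, hc0, fun h => hg2 (h.2 hg1)⟩
    intro x
    refine ((h1 x).union ((h1 x⁻¹).left x)).mono ?_
    intro g hg
    by_cases hgc : g ∈ c0
    · left
      exact ⟨hgc, fun hx => hg ⟨fun _ => hgc, fun _ => hx⟩⟩
    · right
      show x * g ∈ c0 ∧ x⁻¹ * (x * g) ∉ c0
      have hxg : x * g ∈ c0 := by
        by_contra hx
        exact hg ⟨fun h => absurd h hx, fun h => absurd h hgc⟩
      refine ⟨hxg, ?_⟩
      rw [inv_mul_cancel_left]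
      exact hgc
  let ind : Set G → G → ULift.{u} ℤ := fun X g => if g ∈ X then 1 else 0
  have hind : ∀ (X : Set G) (a b : G), ind X a ≠ ind X b → ¬ (a ∈ X ↔ b ∈ X) := by
    intro X a b h hiff
    apply h
    show (if a ∈ X then (1 : ULift.{u} ℤ) else 0) = if b ∈ X then 1 else 0
    by_cases ha : a ∈ X
    · rw [if_pos ha, if_pos (hiff.1 ha)]
    · rw [if_neg ha, if_neg (fun h => ha (hiff.2 h))]
  obtain ⟨f', hf'⟩ := hD.st (ULift.{u} ℤ) (ind c0)
    (fun x => (F3 x⁻¹).mono fun g hg => hind _ _ _ hg)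
  have hnf : ¬ HF K c0 := fun h => hC.deep c0 hc0 (h.of_le hKH)
  obtain ⟨g1, hg1, hg1'⟩ : ∃ g ∈ c0,
      g ∉ ({g | ∃ c ∈ D, g ∈ c ∧ ind c0 g ≠ f' c} ∪ {g | ∀ c ∈ D, g ∉ c}) := by
    by_contra hcon
    exact hnf ((hf'.union hD.co).mono fun g hg => by_contra fun h => hcon ⟨g, hg, h⟩)
  have hg1a : ¬ ∃ c ∈ D, g1 ∈ c ∧ ind c0 g1 ≠ f' c := fun h => hg1' (Or.inl h)
  have hg1b : ¬ ∀ c ∈ D, g1 ∉ c := fun h => hg1' (Or.inr h)
  obtain ⟨u, hu, hgu⟩ : ∃ c ∈ D, g1 ∈ c := by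
    by_contra hcon
    exact hg1b fun c hc hgc => hcon ⟨c, hc, hgc⟩
  have hfu : f' u = 1 := by
    by_contra hne
    exact hg1a ⟨u, hu, hgu, fun h => hne (by rw [← h]; exact if_pos hg1)⟩
  have huc : HF K (u \ c0) := hf'.mono (by
    rintro g ⟨hgu, hgc⟩
    refine ⟨u, hu, hgu, ?_⟩
    rw [hfu]
    show (if g ∈ c0 then (1 : ULift.{u} ℤ) else 0) ≠ 1
    rw [if_neg hgc]
    exact zero_ne_one)
  have hcu : HF K (c0 \ u) := by
    have hX : ∀ x : G, HF K {g | ¬ (x * g ∈ u ∩ c0 ↔ g ∈ u ∩ c0)} := by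
      intro x
      refine ((hD.ai x).union (F3 x)).mono ?_
      intro g hg
      by_contra hcon
      apply hg
      have h1 : x * g ∈ u ↔ g ∈ u := by
        by_contra h
        exact hcon (Or.inl ⟨u, hu, h⟩)
      have h2 : x * g ∈ c0 ↔ g ∈ c0 := by
        by_contra h
        exact hcon (Or.inr h)
      exact and_congr h1 h2
    obtain ⟨g', hg'⟩ := hC.st (ULift.{u} ℤ) (ind (u ∩ c0))
      (fun x => ((hX x⁻¹).of_le hKH).mono fun g hg => hind _ _ _ hg)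
    have h1 : HF K {g | g ∈ c0 ∧ ind (u ∩ c0) g ≠ g' c0} :=
      F1 _ (fun g hg => hg.1) (hg'.mono (by
        rintro g ⟨h1, h2⟩
        exact ⟨c0, hc0, h1, h2⟩))
    by_cases hgc : g' c0 = 1
    · refine h1.mono ?_
      rintro g ⟨h1, h2⟩
      refine ⟨h1, ?_⟩
      rw [hgc]
      have h3 : ind (u ∩ c0) g = 0 := if_neg fun h => h2 h.1
      rw [h3]
      exact zero_ne_one
    · exfalso
      apply hD.deep u hu
      refine (h1.union huc).mono ?_
      intro g hg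
      by_cases hgc0 : g ∈ c0
      · left
        refine ⟨hgc0, ?_⟩
        have h3 : ind (u ∩ c0) g = 1 := if_pos ⟨hg, hgc0⟩
        rw [h3]
        exact fun h => hgc h.symm
      · right
        exact ⟨hg, hgc0⟩
  refine ⟨u, hu, fun k => ?_⟩
  by_contra hne
  have hu' := hD.tr u hu k
  have hdis : ∀ g, g * (k : G) ∈ u → g ∉ u := fun g h1 h2 => hne (hD.disj _ hu' u hu g h1 h2)
  have hkc : ∀ g, g * (k : G) ∈ c0 ↔ g ∈ c0 := by
    intro g
    have h := (hK ⟨k, hKH k.2⟩).1 k.2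
    exact Set.ext_iff.1 h g
  apply hD.deep _ hu'
  refine (hcu.union (huc.right k)).mono ?_
  intro g hg
  by_cases hgc : g ∈ c0
  · left
    exact ⟨hgc, hdis g hg⟩
  · right
    show g * (k : G) ∈ u \ c0
    exact ⟨hg, fun h => hgc ((hkc g).1 h)⟩

end PDT
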