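import Mathlib

/-!
# PDT/Geo: coinduced functions which are invariant modulo induced ones are induced

`H ≤ G` infinite, `H` acts on `M` by `a`, and the stabilisers in `H` of the non-zero elements of `M`
are finite.  `G` is finitely generated and has one end (`hOE`).  `φ : G → M` satisfies
`φ(g h) = h⁻¹ φ(g)`, and for each `x ∈ G`, `φ(x⁻¹ g) = φ(g)` for all `g` outside finitely many cosets
`g H`.  Then `φ` is supported on finitely many cosets `g H`.

Complete proof.  Let `im B` denote the image of `B ⊆ G` in `G ⧸ H`.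
(1) If `im C` is finite and `m ≠ 0` then `C ∩ {φ = m}` is finite: it is enough to treat one coset
`g₀ H`; `φ(g₀ h) = h⁻¹ φ(g₀) = m`; if `h, k` are two such elements then
`φ(g₀) = a h m = a k m`, so `h⁻¹ k` stabilises `m`; so the set of such `h` is empty or contained in
`h₀ Stab(m)`, finite.
(2) Let `m ≠ 0`, `A = {φ = m}`, `x ∈ G`.  `{g | ¬ (x g ∈ A ↔ g ∈ A)}` is contained in
`{g ∈ A | φ(x g) ≠ φ(g)} ∪ x⁻¹ {g ∈ A | φ(x⁻¹ g) ≠ φ(g)}`, which is finite by `hfin x⁻¹`, `hfin x` and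
(1).  By `hOE` `A` or its complement is finite.  If `Aᶜ` is finite then for every `h ∈ H` there is
`g ∈ A` with `g h ∈ A` (`G` is infinite as `H` is), so `a h⁻¹ m = m`; so the stabiliser of `m` is `H`,
which is infinite: contradiction.  So every `{φ = m}`, `m ≠ 0`, is finite.
(3) Let `E = ∪_{s ∈ S} {g | φ(s g) ≠ φ(g)} ∪ {g | φ(s⁻¹ g) ≠ φ(g)}`; `im E` is finite.  Every non-zero
value `m` of `φ` is taken on `E`: otherwise `A = {φ = m}` (non-empty) satisfies `s A ⊆ A`,
`s⁻¹ A ⊆ A` for `s ∈ S`, so `x A ⊆ A` for all `x` (`closure S = ⊤`), so `A = G` is infinite, against (2).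
(4) Let `g_1, …, g_k ∈ E` represent the finitely many cosets in `im E`, and `m_i = φ(g_i)`.  If
`φ(g) = m ≠ 0`, then `m = φ(g')` with `g' ∈ E`, `g' = g_i h`, so `φ(g) = h⁻¹ m_i`, `m_i ≠ 0`, and
`φ(g h⁻¹) = h φ(g) = m_i`.  So `g h⁻¹ ∈ {φ = m_i}`, which is finite by (2): `g H` is in the image of
one of the finitely many finite sets `{φ = m_i}`, `m_i ≠ 0`.
-/

namespace PDT

private theorem geo_fib {G : Type*} [Group G] (H : Subgroup G) {M : Type*} [AddCommGroup M]
    (a : H →* AddMonoid.End M) (hstab : ∀ m : M, m ≠ 0 → {h : H | a h m = m}.Finite)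
    (φ : G → M) (hφ : ∀ (g : G) (h : H), φ (g * h) = a h⁻¹ (φ g)) (q : G ⧸ H) {m : M}
    (hm : m ≠ 0) : {g : G | (g : G ⧸ H) = q ∧ φ g = m}.Finite := by
  by_cases hne : ∃ g0 : G, (g0 : G ⧸ H) = q ∧ φ g0 = m
  · obtain ⟨g0, hq0, hm0⟩ := hne
    refine ((hstab m hm).image (fun h : H => g0 * ((h⁻¹ : H) : G))).subset ?_
    rintro g ⟨hq, hg⟩
    have h1 : g0⁻¹ * g ∈ H := QuotientGroup.eq.1 (hq0.trans hq.symm)
    have h2 : φ (g0 * ((⟨g0⁻¹ * g, h1⟩ : H) : G)) = a (⟨g0⁻¹ * g, h1⟩ : H)⁻¹ (φ g0) := hφ g0 _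
    have h3 : g0 * ((⟨g0⁻¹ * g, h1⟩ : H) : G) = g := by
      change g0 * (g0⁻¹ * g) = g
      group
    rw [h3, hg, hm0] at h2
    refine ⟨(⟨g0⁻¹ * g, h1⟩ : H)⁻¹, h2.symm, ?_⟩
    change g0 * (((⟨g0⁻¹ * g, h1⟩ : H)⁻¹⁻¹ : H) : G) = g
    rw [inv_inv]
    exact h3
  · have : {g : G | (g : G ⧸ H) = q ∧ φ g = m} = ∅ := by
      ext g
      simp only [Set.mem_setOf_eq, Set.mem_empty_iff_false, iff_false]
      intro h
      exact hne ⟨g, h⟩
    rw [this]
    exact Set.finite_empty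

private theorem geo_one {G : Type*} [Group G] (H : Subgroup G) {M : Type*} [AddCommGroup M]
    (a : H →* AddMonoid.End M) (hstab : ∀ m : M, m ≠ 0 → {h : H | a h m = m}.Finite)
    (φ : G → M) (hφ : ∀ (g : G) (h : H), φ (g * h) = a h⁻¹ (φ g)) (C : Set G)
    (hC : ((fun g : G => (g : G ⧸ H)) '' C).Finite) {m : M} (hm : m ≠ 0) :
    (C ∩ {g | φ g = m}).Finite := by
  refine (hC.biUnion fun q _ => geo_fib H a hstab φ hφ q hm).subset ?_
  rintro g ⟨hg, hgm⟩
  simp only [Set.mem_iUnion]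
  exact ⟨(g : G ⧸ H), ⟨g, hg, rfl⟩, rfl, hgm⟩

private theorem geo_two {G : Type*} [Group G] (H : Subgroup G) [Infinite H] {M : Type*}
    [AddCommGroup M]
    (a : H →* AddMonoid.End M) (hstab : ∀ m : M, m ≠ 0 → {h : H | a h m = m}.Finite)
    (hOE : ∀ A : Set G, (∀ x : G, {g : G | ¬ (x * g ∈ A ↔ g ∈ A)}.Finite) → A.Finite ∨ Aᶜ.Finite)
    (φ : G → M) (hφ : ∀ (g : G) (h : H), φ (g * h) = a h⁻¹ (φ g))
    (hfin : ∀ x : G, ((fun g : G => (g : G ⧸ H)) '' {g | φ (x⁻¹ * g) ≠ φ g}).Finite)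
    {m : M} (hm : m ≠ 0) : {g | φ g = m}.Finite := by
  have hGinf : Infinite G := Infinite.of_injective (fun h : H => (h : G)) Subtype.val_injective
  have key : ∀ x : G, {g : G | ¬ (x * g ∈ {g | φ g = m} ↔ g ∈ {g | φ g = m})}.Finite := by
    intro x
    have f1 := geo_one H a hstab φ hφ _ (hfin x⁻¹) hm
    have f2 := (geo_one H a hstab φ hφ _ (hfin x) hm).image (fun g => x⁻¹ * g)
    refine (f1.union f2).subset ?_
    intro g hg
    simp only [Set.mem_setOf_eq] at hg
    by_cases h1 : φ g = m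
    · left
      have h2 : φ (x * g) ≠ m := fun h => hg ⟨fun _ => h1, fun _ => h⟩
      refine ⟨?_, h1⟩
      change φ (x⁻¹⁻¹ * g) ≠ φ g
      rw [inv_inv, h1]
      exact h2
    · right
      have h2 : φ (x * g) = m := by
        by_contra h
        exact hg ⟨fun h' => absurd h' h, fun h' => absurd h' h1⟩
      refine ⟨x * g, ⟨?_, h2⟩, ?_⟩
      · change φ (x⁻¹ * (x * g)) ≠ φ (x * g)
        rw [inv_mul_cancel_left, h2]
        exact h1
      · change x⁻¹ * (x * g) = g
        rw [inv_mul_cancel_left]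
  rcases hOE _ key with h | h
  · exact h
  · exfalso
    have hall : ∀ h : H, a h⁻¹ m = m := by
      intro k
      have h2 : {g : G | g * (k : G) ∈ ({g | φ g = m} : Set G)ᶜ}.Finite :=
        h.preimage (mul_left_injective (k : G)).injOn
      obtain ⟨g, hg⟩ := (h.union h2).exists_notMem
      have h3 : φ g = m := by
        by_contra hc
        exact hg (Or.inl hc)
      have h4 : φ (g * (k : G)) = m := by
        by_contra hc
        exact hg (Or.inr hc)
      rw [hφ, h3] at h4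
      exact h4
    have huniv : {h : H | a h m = m} = Set.univ := by
      ext k
      simp only [Set.mem_setOf_eq, Set.mem_univ, iff_true]
      have := hall k⁻¹
      rwa [inv_inv] at this
    have := hstab m hm
    rw [huniv] at this
    exact Set.infinite_univ this

theorem geo {G : Type*} [Group G] (H : Subgroup G) [Infinite H] {M : Type*} [AddCommGroup M]
    (a : H →* AddMonoid.End M) (hstab : ∀ m : M, m ≠ 0 → {h : H | a h m = m}.Finite)
    (S : Finset G) (hS : Subgroup.closure (S : Set G) = ⊤)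
    (hOE : ∀ A : Set G, (∀ x : G, {g : G | ¬ (x * g ∈ A ↔ g ∈ A)}.Finite) → A.Finite ∨ Aᶜ.Finite)
    (φ : G → M) (hφ : ∀ (g : G) (h : H), φ (g * h) = a h⁻¹ (φ g))
    (hfin : ∀ x : G, ((fun g : G => (g : G ⧸ H)) '' {g | φ (x⁻¹ * g) ≠ φ g}).Finite) :
    ((fun g : G => (g : G ⧸ H)) '' {g | φ g ≠ 0}).Finite := by
  classical
  have hGinf : Infinite G := Infinite.of_injective (fun h : H => (h : G)) Subtype.val_injective
  have h2 : ∀ m : M, m ≠ 0 → {g | φ g = m}.Finite := fun m hm =>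
    geo_two H a hstab hOE φ hφ hfin hm
  set E : Set G := {g | ∃ s ∈ S, φ (s * g) ≠ φ g ∨ φ (s⁻¹ * g) ≠ φ g} with hE
  have hEfin : ((fun g : G => (g : G ⧸ H)) '' E).Finite := by
    have f1 : (⋃ s ∈ (S : Set G), ((fun g : G => (g : G ⧸ H)) '' {g | φ (s⁻¹⁻¹ * g) ≠ φ g}) ∪
        ((fun g : G => (g : G ⧸ H)) '' {g | φ (s⁻¹ * g) ≠ φ g})).Finite :=
      S.finite_toSet.biUnion fun s _ => (hfin s⁻¹).union (hfin s)
    refine f1.subset ?_
    rintro _ ⟨g, ⟨s, hs, hg⟩, rfl⟩
    simp only [Set.mem_iUnion]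
    refine ⟨s, hs, ?_⟩
    rcases hg with hg | hg
    · left
      refine ⟨g, ?_, rfl⟩
      change φ (s⁻¹⁻¹ * g) ≠ φ g
      rw [inv_inv]
      exact hg
    · right
      exact ⟨g, hg, rfl⟩
  have h3 : ∀ g : G, φ g ≠ 0 → ∃ g' ∈ E, φ g' = φ g := by
    intro g0 hg0
    by_contra hno
    push Not at hno
    have hcl : ∀ x ∈ Subgroup.closure (S : Set G), ∀ g, φ g = φ g0 ↔ φ (x * g) = φ g0 := by
      intro x hx
      induction hx using Subgroup.closure_induction with
      | mem s hs =>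
        intro g
        constructor
        · intro h
          by_contra hc
          refine hno g ⟨s, hs, Or.inl ?_⟩ h
          rw [h]
          exact hc
        · intro h
          by_contra hc
          refine hno (s * g) ⟨s, hs, Or.inr ?_⟩ h
          rw [inv_mul_cancel_left, h]
          exact hc
      | one => intro g; rw [one_mul]
      | mul x y _ _ hx hy => intro g; rw [hy g, hx (y * g), mul_assoc]
      | inv x _ hx =>
        intro g
        have := hx (x⁻¹ * g)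
        rw [mul_inv_cancel_left] at this
        exact this.symm
    have huniv : {g | φ g = φ g0} = Set.univ := by
      ext g
      simp only [Set.mem_setOf_eq, Set.mem_univ, iff_true]
      have h5 : g * g0⁻¹ ∈ Subgroup.closure (S : Set G) := by rw [hS]; trivial
      have h6 := (hcl (g * g0⁻¹) h5 g0).1 rfl
      rwa [inv_mul_cancel_right] at h6
    have := h2 _ hg0
    rw [huniv] at this
    exact Set.infinite_univ this
  have h4 : (⋃ q ∈ ((fun g : G => (g : G ⧸ H)) '' E),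
      (fun g : G => (g : G ⧸ H)) '' {g | φ g = φ q.out ∧ φ q.out ≠ 0}).Finite := by
    refine hEfin.biUnion fun q _ => Set.Finite.image _ ?_
    by_cases hq : φ q.out = 0
    · have : {g | φ g = φ q.out ∧ φ q.out ≠ 0} = ∅ := by
        ext g
        simp [hq]
      rw [this]
      exact Set.finite_empty
    · exact (h2 _ hq).subset fun g hg => hg.1
  refine h4.subset ?_
  rintro _ ⟨g, hg, rfl⟩
  obtain ⟨g', hg'E, hg'⟩ := h3 g hg
  simp only [Set.mem_iUnion]
  refine ⟨(g' : G ⧸ H), ⟨g', hg'E, rfl⟩, ?_⟩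
  set q : G ⧸ H := (g' : G ⧸ H) with hq
  have e1 : ((q.out : G) : G ⧸ H) = q := QuotientGroup.out_eq' q
  have e2 : (q.out)⁻¹ * g' ∈ H := QuotientGroup.eq.1 (e1.trans hq)
  set k : H := ⟨(q.out)⁻¹ * g', e2⟩ with hk
  have e3 : q.out * (k : G) = g' := by
    change q.out * ((q.out)⁻¹ * g') = g'
    rw [mul_inv_cancel_left]
  have e4 : φ g = a k⁻¹ (φ q.out) := by
    rw [← hg', ← e3, hφ]
  have e5 : φ (g * ((k⁻¹ : H) : G)) = φ q.out := by
    rw [hφ, inv_inv, e4]
    have : a k (a k⁻¹ (φ q.out)) = (a k * a k⁻¹) (φ q.out) := rfl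
    rw [this, ← map_mul, mul_inv_cancel, map_one]
    rfl
  refine ⟨g * ((k⁻¹ : H) : G), ⟨e5, ?_⟩, ?_⟩
  · intro h0
    apply hg
    rw [e4, h0, map_zero]
  · change ((g * ((k⁻¹ : H) : G) : G) : G ⧸ H) = (g : G ⧸ H)
    rw [QuotientGroup.eq]
    have : (g * ((k⁻¹ : H) : G))⁻¹ * g = (k : G) := by
      rw [mul_inv_rev, mul_assoc, inv_mul_cancel, mul_one]
      simp
    rw [this]
    exact k.2

end PDT
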