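import Pool.Agent.Lib.PDT.Base5

/-!
# PDT/GeoCls: the ends of the pair `(G, H)`

`G` generated by the finite symmetric set `S`, with one end (`hOE`), `H ≤ G` infinite, `E ⊆ G ⧸ H` finite such that every almost
invariant function differs only on finitely many cosets from a function `f''` with `f'' (s g) = f'' g` for `s ∈ S`, `g H ∉ E` (`hSt`).
Very similar to the proved file `PDT/GeoRef` (`geo_ref`); `HF H X`: `X` meets finitely many cosets, lemmas in `PDT/Base5`.

Complete proof.  Let `r` be the equivalence relation on `G` generated by `(g, s g)`, `s ∈ S`, `(g : G ⧸ H) ∉ E` (`Relation.EqvGen`).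
(a) A function with `f'' (s⁻¹ g) = f'' g` for `s ∈ S`, `g H ∉ E` is constant on the classes (`S` symmetric).  (b) `r g g' → r (g h) (g' h)` for `h ∈ H`.
So the right translate `{g | g h ∈ U}` of a class `U` is a class, and it is `HF` iff `U` is.
`C = {U | U is a class of r, ¬ HF H U}`.  `tr`, `disj`, `deep` are clear.
`ai`: `{g | ∃ c ∈ C, ¬(x g ∈ c ↔ g ∈ c)} ⊆ {g | ¬ r (x g) g}`.  The set of the `x` for which `{g | ¬ r (x g) g}` is `HF` contains `S`
(`r (s g) g` if `g H ∉ E`), and is a subgroup (`HF.left`), so it is `G` (`hS`).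
`co`: `{g | ∀ c ∈ C, g ∉ c}` is the union of the `HF` classes.  If `E = ∅` then `r` is trivial (all elements of `G` are equivalent as `closure S = ⊤`), there is one class `G`, and the
set is `∅` or `HF`.  If `E ≠ ∅`: every `g` is equivalent to some `e` with `e H ∈ E` (otherwise the class of `g` is closed under multiplication by `s`, `s ∈ S`, so it
is `G`, which meets `E`), `e = e_c h` with `e_c = Quotient.out c`, `c ∈ E`, `h ∈ H`, so the class of `g` is a right translate of the class `U_c` of `e_c`; so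
the union of the `HF` classes is contained in the finite union over `c ∈ E` with `HF H U_c` of `U_c H`, and `U_c H` has the same image in `G ⧸ H` as
`U_c`.
`st`: for `f` take `f''` by `hSt` and `f' c = f'' g_c` for some `g_c ∈ c` (the classes in `C` are not empty); for `g ∈ c ∈ C`, `f'' g = f' c`, so the set is contained in
`{g | f g ≠ f'' g}`.
`inf`: let `U ∈ C`, `Stab = {h | {g | g h ∈ U} = U}`, suppose it is finite.  For `c' ∈ E`: if `e_c' h, e_c' h' ∈ U` then, with `k = h⁻¹ h'`, the class
`{g | g k ∈ U}` contains `e_c' h`, so it is `U`, `k ∈ Stab`; so `{h | e_c' h ∈ U}` is finite, and `U ∩ {g | g H ∈ E}` is finite.  For `s ∈ S`: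
`{g ∈ U | s g ∉ U} ⊆ U ∩ {g H ∈ E}` is finite and `{g ∉ U | s g ∈ U}` is a left translate of `{g' ∈ U | s⁻¹ g' ∉ U}`, finite.  The set of the `x : G` with
`{g | ¬ (x g ∈ U ↔ g ∈ U)}` finite is a subgroup containing `S`, so it is `G`.  By `hOE`, `U` or `Uᶜ` is finite.  `U` is not finite (`¬ HF`).  If `Uᶜ` is finite
then (`G` is infinite as `H` is) for every `h ∈ H` there is `g ∈ U` with `g h ∈ U`, so `{g | g h ∈ U}` is a class meeting `U`, equal to `U`: `Stab = H` is
infinite, contradiction.
-/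

namespace PDT

open Function

universe u

private def GeoCls_r {G : Type*} [Group G] (H : Subgroup G) (S : Finset G) (E : Set (G ⧸ H)) :
    G → G → Prop :=
  Relation.EqvGen (fun x y => (∃ s ∈ S, y = s * x) ∧ (x : G ⧸ H) ∉ E)

private theorem GeoCls_inv {G : Type*} [Group G] (H : Subgroup G) (S : Finset G) (E : Set (G ⧸ H))
    {M : Type*} (ν : G → M) (hν : ∀ s ∈ S, ∀ g : G, ν (s * g) ≠ ν g → (g : G ⧸ H) ∈ E)
    {g g' : G} (h : GeoCls_r H S E g g') : ν g = ν g' := by
  unfold GeoCls_r at h
  induction h with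
  | rel x y h =>
    obtain ⟨⟨s, hs, rfl⟩, hx⟩ := h
    by_contra hc
    exact hx (hν s hs x (fun h => hc h.symm))
  | refl x => rfl
  | symm x y _ ih => exact ih.symm
  | trans x y z _ _ ih1 ih2 => exact ih1.trans ih2

private theorem GeoCls_mul {G : Type*} [Group G] (H : Subgroup G) (S : Finset G) (E : Set (G ⧸ H))
    {g g' : G} (h : GeoCls_r H S E g g') (k : H) :
    GeoCls_r H S E (g * (k : G)) (g' * (k : G)) := by
  unfold GeoCls_r at h ⊢
  induction h with
  | rel x y h =>
    obtain ⟨⟨s, hs, rfl⟩, hx⟩ := h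
    refine Relation.EqvGen.rel _ _ ⟨⟨s, hs, by rw [mul_assoc]⟩, ?_⟩
    have : ((x * (k : G) : G) : G ⧸ H) = (x : G ⧸ H) := by
      rw [QuotientGroup.eq]
      have : (x * (k : G))⁻¹ * x = ((k⁻¹ : H) : G) := by
        rw [mul_inv_rev, mul_assoc, inv_mul_cancel, mul_one]
        rfl
      rw [this]
      exact (k⁻¹).2
    rw [this]
    exact hx
  | refl x => exact Relation.EqvGen.refl _
  | symm x y _ ih => exact Relation.EqvGen.symm _ _ ih
  | trans x y z _ _ ih1 ih2 => exact Relation.EqvGen.trans _ _ _ ih1 ih2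

private theorem GeoCls_symm {G : Type*} [Group G] {H : Subgroup G} {S : Finset G} {E : Set (G ⧸ H)}
    {g g' : G} (h : GeoCls_r H S E g g') : GeoCls_r H S E g' g :=
  Relation.EqvGen.symm _ _ h

private theorem GeoCls_trans {G : Type*} [Group G] {H : Subgroup G} {S : Finset G}
    {E : Set (G ⧸ H)} {g g' g'' : G} (h : GeoCls_r H S E g g') (h' : GeoCls_r H S E g' g'') :
    GeoCls_r H S E g g'' :=
  Relation.EqvGen.trans _ _ _ h h'

private theorem GeoCls_step {G : Type*} [Group G] {H : Subgroup G} {S : Finset G}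
    {E : Set (G ⧸ H)} {s : G} (hs : s ∈ S) {g : G} (hg : (g : G ⧸ H) ∉ E) :
    GeoCls_r H S E g (s * g) :=
  Relation.EqvGen.rel _ _ ⟨⟨s, hs, rfl⟩, hg⟩

private theorem GeoCls_step' {G : Type*} [Group G] {H : Subgroup G} {S : Finset G}
    {E : Set (G ⧸ H)} (hsymm : ∀ s ∈ S, s⁻¹ ∈ S) {s : G} (hs : s ∈ S) {g : G}
    (hg : ((s * g : G) : G ⧸ H) ∉ E) :
    GeoCls_r H S E (s * g) g := by
  have := GeoCls_step (hsymm s hs) hg
  rwa [inv_mul_cancel_left] at this

private theorem GeoCls_reach {G : Type*} [Group G] (H : Subgroup G) (S : Finset G)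
    (hS : Subgroup.closure (S : Set G) = ⊤) (hsymm : ∀ s ∈ S, s⁻¹ ∈ S)
    (E : Set (G ⧸ H)) (hne : E.Nonempty) (g : G) :
    ∃ e : G, (e : G ⧸ H) ∈ E ∧ GeoCls_r H S E g e := by
  by_contra hno
  push Not at hno
  have hout : ∀ g', GeoCls_r H S E g g' → (g' : G ⧸ H) ∉ E := fun g' h h' => hno g' h' h
  have hcl : ∀ x ∈ Subgroup.closure (S : Set G), ∀ g',
      GeoCls_r H S E g g' ↔ GeoCls_r H S E g (x * g') := by
    intro x hx
    induction hx using Subgroup.closure_induction with
    | mem s hs =>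
      intro g'
      constructor
      · intro h
        exact GeoCls_trans h (GeoCls_step hs (hout _ h))
      · intro h
        exact GeoCls_trans h (GeoCls_step' hsymm hs (hout _ h))
    | one => intro g'; rw [one_mul]
    | mul x y _ _ hx hy => intro g'; rw [hy g', hx (y * g'), mul_assoc]
    | inv x _ hx =>
      intro g'
      have := hx (x⁻¹ * g')
      rw [mul_inv_cancel_left] at this
      exact this.symm
  obtain ⟨c, hc⟩ := hne
  have h1 : c.out * g⁻¹ ∈ Subgroup.closure (S : Set G) := by rw [hS]; trivial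
  have h2 := (hcl _ h1 g).1 (Relation.EqvGen.refl _)
  rw [inv_mul_cancel_right] at h2
  refine hout _ h2 ?_
  have : ((c.out : G) : G ⧸ H) = c := QuotientGroup.out_eq' c
  rw [this]
  exact hc

private def GeoCls_K {G : Type*} [Group G] (H : Subgroup G) (S : Finset G) (E : Set (G ⧸ H))
    (e : G) : Subgroup H where
  carrier := {k | GeoCls_r H S E (e * (k : G)) e}
  mul_mem' := by
    intro k k' hk hk'
    have h1 := GeoCls_mul H S E hk k'
    simp only [Set.mem_setOf_eq] at hk' ⊢
    have h2 : e * ((k * k' : H) : G) = e * (k : G) * (k' : G) := by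
      rw [Subgroup.coe_mul, mul_assoc]
    rw [h2]
    exact GeoCls_trans h1 hk'
  one_mem' := by
    simp only [Set.mem_setOf_eq, OneMemClass.coe_one, mul_one]
    exact Relation.EqvGen.refl _
  inv_mem' := by
    intro k hk
    have h1 := GeoCls_mul H S E hk k⁻¹
    simp only [Set.mem_setOf_eq]
    have h2 : e * (k : G) * ((k⁻¹ : H) : G) = e := by
      rw [mul_assoc, ← Subgroup.coe_mul, mul_inv_cancel, OneMemClass.coe_one, mul_one]
    rw [h2] at h1
    exact GeoCls_symm h1

private theorem GeoCls_fin {G : Type*} [Group G] (H : Subgroup G) (S : Finset G)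
    (E : Set (G ⧸ H)) (hE : E.Finite) (e : G) (hK : Finite (GeoCls_K H S E e)) :
    {g : G | GeoCls_r H S E g e ∧ (g : G ⧸ H) ∈ E}.Finite := by
  have h1 : ∀ c : G ⧸ H, {g : G | GeoCls_r H S E g e ∧ (g : G ⧸ H) = c}.Finite := by
    intro c
    by_cases hne : ∃ g0 : G, GeoCls_r H S E g0 e ∧ (g0 : G ⧸ H) = c
    · obtain ⟨g0, hg0, hc0⟩ := hne
      refine (Set.finite_range (fun k : GeoCls_K H S E e => g0 * ((k : H) : G))).subset ?_
      rintro g ⟨hg, hgc⟩
      have h1 : g0⁻¹ * g ∈ H := QuotientGroup.eq.1 (hc0.trans hgc.symm)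
      have h3 : g0 * (g0⁻¹ * g) = g := mul_inv_cancel_left _ _
      have h2 : GeoCls_r H S E (e * ((⟨g0⁻¹ * g, h1⟩ : H) : G)) e := by
        have h4 := GeoCls_mul H S E hg0 ⟨g0⁻¹ * g, h1⟩
        have h5 : g0 * ((⟨g0⁻¹ * g, h1⟩ : H) : G) = g := h3
        rw [h5] at h4
        exact GeoCls_trans (GeoCls_symm h4) hg
      exact ⟨⟨⟨g0⁻¹ * g, h1⟩, h2⟩, h3⟩
    · have : {g : G | GeoCls_r H S E g e ∧ (g : G ⧸ H) = c} = ∅ := by
        ext g
        simp only [Set.mem_setOf_eq, Set.mem_empty_iff_false, iff_false]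
        intro h
        exact hne ⟨g, h⟩
      rw [this]
      exact Set.finite_empty
  refine (hE.biUnion fun c _ => h1 c).subset ?_
  rintro g ⟨hg, hgE⟩
  simp only [Set.mem_iUnion]
  exact ⟨(g : G ⧸ H), hgE, hg, rfl⟩

private theorem GeoCls_inf {G : Type*} [Group G] (H : Subgroup G) [Infinite H]
    (S : Finset G) (hS : Subgroup.closure (S : Set G) = ⊤) (hsymm : ∀ s ∈ S, s⁻¹ ∈ S)
    (hOE : ∀ A : Set G, (∀ x : G, {g : G | ¬ (x * g ∈ A ↔ g ∈ A)}.Finite) → A.Finite ∨ Aᶜ.Finite)
    (E : Set (G ⧸ H)) (hE : E.Finite) (e : G) (hU : {g : G | GeoCls_r H S E g e}.Infinite) :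
    Infinite (GeoCls_K H S E e) := by
  by_contra hK
  rw [not_infinite_iff_finite] at hK
  have hGinf : Infinite G := Infinite.of_injective (fun h : H => (h : G)) Subtype.val_injective
  have hfin := GeoCls_fin H S E hE e hK
  set U : Set G := {g : G | GeoCls_r H S E g e} with hUdef
  have key : ∀ x ∈ Subgroup.closure (S : Set G), {g : G | ¬ (x * g ∈ U ↔ g ∈ U)}.Finite := by
    intro x hx
    induction hx using Subgroup.closure_induction with
    | mem s hs =>
      have h2 : {g : G | s * g ∈ {g : G | GeoCls_r H S E g e ∧ (g : G ⧸ H) ∈ E}}.Finite :=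
        hfin.preimage (mul_right_injective s).injOn
      refine (hfin.union h2).subset ?_
      intro g hg
      simp only [Set.mem_setOf_eq] at hg
      by_cases h1 : g ∈ U
      · left
        refine ⟨h1, ?_⟩
        by_contra hc
        apply hg
        refine ⟨fun _ => h1, fun _ => ?_⟩
        exact GeoCls_trans (GeoCls_symm (GeoCls_step hs hc)) h1
      · right
        have h3 : s * g ∈ U := by
          by_contra hc
          exact hg ⟨fun h => absurd h hc, fun h => absurd h h1⟩
        refine ⟨h3, ?_⟩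
        by_contra hc
        apply h1
        exact GeoCls_trans (GeoCls_symm (GeoCls_step' hsymm hs hc)) h3
    | one => 
      have : {g : G | ¬ (1 * g ∈ U ↔ g ∈ U)} = ∅ := by
        ext g
        simp
      rw [this]
      exact Set.finite_empty
    | mul x y _ _ hx hy =>
      have h2 : {g : G | y * g ∈ {g : G | ¬ (x * g ∈ U ↔ g ∈ U)}}.Finite :=
        hx.preimage (mul_right_injective y).injOn
      refine (h2.union hy).subset ?_
      intro g hg
      simp only [Set.mem_setOf_eq] at hg
      by_cases h1 : (y * g ∈ U ↔ g ∈ U)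
      · left
        simp only [Set.mem_setOf_eq]
        intro h3
        apply hg
        rw [mul_assoc]
        exact h3.trans h1
      · right
        exact h1
    | inv x _ hx =>
      have h2 : {g : G | x⁻¹ * g ∈ {g : G | ¬ (x * g ∈ U ↔ g ∈ U)}}.Finite :=
        hx.preimage (mul_right_injective x⁻¹).injOn
      refine h2.subset ?_
      intro g hg
      simp only [Set.mem_setOf_eq] at hg ⊢
      rw [mul_inv_cancel_left]
      intro h
      exact hg h.symm
  have key' : ∀ x : G, {g : G | ¬ (x * g ∈ U ↔ g ∈ U)}.Finite := by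
    intro x
    apply key
    rw [hS]
    trivial
  rcases hOE U key' with h | h
  · exact hU h
  · have hall : ∀ k : H, k ∈ GeoCls_K H S E e := by
      intro k
      have h2 : {g : G | g * (k : G) ∈ Uᶜ}.Finite :=
        h.preimage (mul_left_injective (k : G)).injOn
      obtain ⟨g, hg⟩ := (h.union h2).exists_notMem
      have h3 : GeoCls_r H S E g e := by
        by_contra hc
        exact hg (Or.inl hc)
      have h4 : GeoCls_r H S E (g * (k : G)) e := by
        by_contra hc
        exact hg (Or.inr hc)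
      exact GeoCls_trans (GeoCls_symm (GeoCls_mul H S E h3 k)) h4
    have : Infinite (GeoCls_K H S E e) :=
      Infinite.of_injective (fun h : H => (⟨h, hall h⟩ : GeoCls_K H S E e))
        (fun a b hab => congrArg Subtype.val hab)
    exact not_finite (GeoCls_K H S E e)

private theorem GeoCls_cancel {G : Type*} [Group G] {H : Subgroup G} (g : G) (k : H) :
    g * (k : G) * ((k⁻¹ : H) : G) = g := by
  rw [mul_assoc, ← Subgroup.coe_mul, mul_inv_cancel, OneMemClass.coe_one, mul_one]

private theorem GeoCls_cancel' {G : Type*} [Group G] {H : Subgroup G} (g : G) (k : H) :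
    g * ((k⁻¹ : H) : G) * (k : G) = g := by
  rw [mul_assoc, ← Subgroup.coe_mul, inv_mul_cancel, OneMemClass.coe_one, mul_one]

private theorem GeoCls_ai {G : Type u} [Group G] (H : Subgroup G) (S : Finset G)
    (F : Set (G ⧸ H)) (hF : F.Finite) (x : G) (hx : x ∈ Subgroup.closure (S : Set G)) :
    HF H {g | ¬ GeoCls_r H S F (x * g) g} := by
  induction hx using Subgroup.closure_induction with
  | mem s hs =>
    refine hF.subset ?_
    rintro _ ⟨g, hg, rfl⟩
    by_contra hc
    exact hg (GeoCls_symm (GeoCls_step hs hc))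
  | one =>
    have : {g : G | ¬ GeoCls_r H S F (1 * g) g} = ∅ := by
      ext g
      simp only [one_mul, Set.mem_setOf_eq, Set.mem_empty_iff_false, iff_false, not_not]
      exact Relation.EqvGen.refl _
    rw [this]
    unfold HF
    rw [Set.image_empty]
    exact Set.finite_empty
  | mul x y _ _ hx hy =>
    refine ((hx.left y).union hy).mono ?_
    intro g hg
    simp only [Set.mem_setOf_eq] at hg
    by_cases h1 : GeoCls_r H S F (y * g) g
    · left
      simp only [Set.mem_setOf_eq]
      intro h3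
      apply hg
      rw [mul_assoc]
      exact GeoCls_trans h3 h1
    · right
      exact h1
  | inv x _ hx =>
    refine (hx.left x⁻¹).mono ?_
    intro g hg
    simp only [Set.mem_setOf_eq] at hg ⊢
    rw [mul_inv_cancel_left]
    intro h
    exact hg (GeoCls_symm h)

theorem geo_cls {G : Type u} [Group G] (H : Subgroup G) [Infinite H]
    (S : Finset G) (hS : Subgroup.closure (S : Set G) = ⊤) (hsymm : ∀ s ∈ S, s⁻¹ ∈ S)
    (hOE : ∀ A : Set G, (∀ x : G, {g : G | ¬ (x * g ∈ A ↔ g ∈ A)}.Finite) → A.Finite ∨ Aᶜ.Finite)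
    (E : Set (G ⧸ H)) (hE : E.Finite)
    (hSt : ∀ (A : Type u) [AddCommGroup A] (f : G → A), (∀ x : G, HF H {g | f (x⁻¹ * g) ≠ f g}) →
      ∃ f'' : G → A, (∀ s ∈ S, ∀ g : G, f'' (s⁻¹ * g) ≠ f'' g → (g : G ⧸ H) ∈ E) ∧
        HF H {g | f g ≠ f'' g}) :
    ∃ C : Set (Set G), HEnds H C := by
  classical
  set F : Set (G ⧸ H) := insert ((1 : G) : G ⧸ H) E with hF
  have hFfin : F.Finite := hE.insert _
  have hFne : F.Nonempty := ⟨_, Set.mem_insert _ _⟩
  refine ⟨{U | ∃ e : G, U = {g : G | GeoCls_r H S F g e} ∧ ¬ HF H U}, ?_, ?_, ?_, ?_, ?_, ?_, ?_⟩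
  · rintro _ ⟨e, rfl, hU⟩ h
    refine ⟨e * ((h⁻¹ : H) : G), ?_, ?_⟩
    · ext g
      simp only [Set.mem_setOf_eq]
      constructor
      · intro h1
        have h2 := GeoCls_mul H S F h1 h⁻¹
        rwa [GeoCls_cancel] at h2
      · intro h1
        have h2 := GeoCls_mul H S F h1 h
        rwa [GeoCls_cancel'] at h2
    · intro h1
      apply hU
      refine (h1.right h⁻¹).mono ?_
      intro g hg
      simp only [Set.mem_setOf_eq] at hg ⊢
      rwa [GeoCls_cancel']
  · rintro _ ⟨e, rfl, _⟩ _ ⟨e', rfl, _⟩ g h1 h2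
    simp only [Set.mem_setOf_eq] at h1 h2
    have h3 : GeoCls_r H S F e e' := GeoCls_trans (GeoCls_symm h1) h2
    ext g'
    simp only [Set.mem_setOf_eq]
    exact ⟨fun h => GeoCls_trans h h3, fun h => GeoCls_trans h (GeoCls_symm h3)⟩
  · rintro c ⟨e, _, hU⟩
    exact hU
  · intro x
    have hx : x ∈ Subgroup.closure (S : Set G) := by rw [hS]; trivial
    refine (GeoCls_ai H S F hFfin x hx).mono ?_
    rintro g ⟨_, ⟨e, rfl, _⟩, h2⟩ h3
    apply h2
    simp only [Set.mem_setOf_eq]
    exact ⟨fun h => GeoCls_trans (GeoCls_symm h3) h, fun h => GeoCls_trans h3 h⟩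
  · have hfin : (⋃ c ∈ {c ∈ F | HF H {g : G | GeoCls_r H S F g c.out}},
        (fun g : G => (g : G ⧸ H)) '' {g : G | GeoCls_r H S F g c.out}).Finite := by
      refine (hFfin.subset fun c hc => hc.1).biUnion fun c hc => ?_
      exact hc.2
    refine hfin.subset ?_
    rintro _ ⟨g, hg, rfl⟩
    simp only [Set.mem_setOf_eq] at hg
    have hcl : HF H {g' : G | GeoCls_r H S F g' g} := by
      by_contra hc
      exact hg _ ⟨g, rfl, hc⟩ (Relation.EqvGen.refl _)
    obtain ⟨e, heF, hge⟩ := GeoCls_reach H S hS hsymm F hFne g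
    have e1 : ((Quotient.out (e : G ⧸ H) : G) : G ⧸ H) = (e : G ⧸ H) :=
      QuotientGroup.out_eq' _
    have e2 : (Quotient.out (e : G ⧸ H))⁻¹ * e ∈ H := QuotientGroup.eq.1 e1
    set c : G ⧸ H := (e : G ⧸ H) with hc
    set k : H := ⟨(Quotient.out c)⁻¹ * e, e2⟩ with hk
    have e3 : Quotient.out c * (k : G) = e := by
      change Quotient.out c * ((Quotient.out c)⁻¹ * e) = e
      rw [mul_inv_cancel_left]
    have e4 : GeoCls_r H S F (g * ((k⁻¹ : H) : G)) (Quotient.out c) := by
      have h1 := GeoCls_mul H S F hge k⁻¹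
      have h2 : e * ((k⁻¹ : H) : G) = Quotient.out c := by
        rw [← e3, GeoCls_cancel]
      rw [h2] at h1
      exact h1
    have e5 : HF H {g' : G | GeoCls_r H S F g' (Quotient.out c)} := by
      refine (hcl.right k).mono ?_
      intro g' hg'
      simp only [Set.mem_setOf_eq] at hg' ⊢
      have h1 := GeoCls_mul H S F (GeoCls_trans hg' (GeoCls_symm e4)) k
      rwa [GeoCls_cancel'] at h1
    simp only [Set.mem_iUnion]
    refine ⟨c, ⟨heF, e5⟩, g * ((k⁻¹ : H) : G), e4, ?_⟩
    change ((g * ((k⁻¹ : H) : G) : G) : G ⧸ H) = (g : G ⧸ H)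
    rw [QuotientGroup.eq]
    have : (g * ((k⁻¹ : H) : G))⁻¹ * g = (k : G) := by
      rw [mul_inv_rev, mul_assoc, inv_mul_cancel, mul_one]
      simp
    rw [this]
    exact k.2
  · intro A _ f hf
    obtain ⟨f'', h1, h2⟩ := hSt A f hf
    have hν : ∀ s ∈ S, ∀ g : G, f'' (s * g) ≠ f'' g → (g : G ⧸ H) ∈ F := by
      intro s hs g h
      refine Set.mem_insert_of_mem _ (h1 s⁻¹ (hsymm s hs) g ?_)
      rwa [inv_inv]
    refine ⟨fun c => if h : c.Nonempty then f'' h.some else 0, h2.mono ?_⟩
    rintro g ⟨_, ⟨e, rfl, _⟩, hg, hne⟩ h3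
    have hg' : GeoCls_r H S F g e := hg
    have hN : {g : G | GeoCls_r H S F g e}.Nonempty := ⟨g, hg⟩
    apply hne
    simp only [dif_pos hN]
    rw [h3]
    have h4 : GeoCls_r H S F hN.some e := hN.some_mem
    exact GeoCls_inv H S F f'' hν (GeoCls_trans hg' (GeoCls_symm h4))
  · rintro _ ⟨e, rfl, hU⟩
    have hinf : {g : G | GeoCls_r H S F g e}.Infinite := fun hfin => hU (hfin.image _)
    have hK := GeoCls_inf H S hS hsymm hOE F hFfin e hinf
    have hmem : ∀ k : GeoCls_K H S F e,
        {g : G | g * ((k : H) : G) ∈ {g : G | GeoCls_r H S F g e}} =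
          {g : G | GeoCls_r H S F g e} := by
      rintro ⟨k, hk⟩
      have hk' : GeoCls_r H S F (e * (k : G)) e := hk
      ext g
      simp only [Set.mem_setOf_eq]
      constructor
      · intro h
        have h1 := GeoCls_mul H S F (GeoCls_trans h (GeoCls_symm hk')) k⁻¹
        rwa [GeoCls_cancel, GeoCls_cancel] at h1
      · intro h
        exact GeoCls_trans (GeoCls_mul H S F h k) hk'
    exact Infinite.of_injective (fun k : GeoCls_K H S F e => (⟨(k : H), hmem k⟩ :
      {h : H // {g : G | g * (h : G) ∈ {g : G | GeoCls_r H S F g e}} =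
        {g : G | GeoCls_r H S F g e}}))
      (fun a b hab => Subtype.ext (congrArg (fun z => (z.1 : H)) hab))

end PDT
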