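import Pool.Agent.Lib.PDT.Base

/-!
# PDT/GeoRef: finitely many base points with infinite stabilisers control the coinduced functions

`G` finitely generated with one end (`hOE`), `H ≤ G` infinite, `E ⊆ G ⧸ H` finite.  There are finitely
many elements `g_j` of `G` and infinite subgroups `K_j` of `H`, depending only on `E`, such that for
every `H`-module `M` and every `ν : G → M` with `ν(g h) = h⁻¹ ν(g)` and `ν(s g) = ν(g)` for `s ∈ S`,
`g H ∉ E`: `ν(g_j)` is fixed by `K_j`, and if all `ν(g_j) = 0` then `ν` is supported on finitely many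
cosets.

Complete proof.  Let `r : G → G → Prop` be the equivalence relation generated by `(g, s g)`, `s ∈ S`,
`(g : G ⧸ H) ∉ E` (`Relation.EqvGen`).  (a) `r g g' → ν g = ν g'` for all `ν` as above.  (b) `r g g' → r (g h) (g' h)` for
`h ∈ H` (as `g h H = g H`).  (c) If `E` is empty, then all elements of `G` are equivalent (`closure S = ⊤`:
for every `x` in the closure, `r g (x g)` for all `g`), so `ν` is constant: take one
index, `g_0 = 1`, `K_0 = H` (`⊤`; `ν(1) = ν(h) = h⁻¹ ν(1)`).  Otherwise, every `g` is equivalent to some `e` with `e H ∈ E`: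
otherwise the class of `g` is closed under `s` and `s⁻¹`, `s ∈ S` (if `g' ~ g` then `g' H ∉ E`, so `g' ~ s g'`;
and `s⁻¹ g'`: `S` is symmetric, `hsymm`), so it is
`G`, and it meets `E`.  (One can avoid the case distinction: add one point to `E`.)
For each coset `c ∈ E` let `e_c = Quotient.out c`, `K_c = {k ∈ H | r (e_c k) e_c}`, a subgroup by (b).
`ν(e_c) = ν(e_c k) = k⁻¹ ν(e_c)` for `k ∈ K_c`.  Call `c ∈ E` deep if the image in `G ⧸ H` of the class
`U_c = {g | r g e_c}` is infinite.  The index set is the set of deep `c ∈ E`.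
(d) If `ν(e_c) = 0` for all deep `c`, then `ν` has finite support in `G ⧸ H`: let `ν g ≠ 0`; `g ~ e`, `e H = c ∈ E`,
`e = e_c h`, so `g h⁻¹ ~ e_c`, and `ν(g) = h⁻¹ ν(g h⁻¹) = h⁻¹ ν(e_c)`, `ν(e_c) ≠ 0`, so `c` is not deep and
`g H = g h⁻¹ H` lies in the finite image of `U_c`.
(e) If `c` is deep then `K_c` is infinite.  Suppose `K_c` finite, `U = U_c`.  `U ∩ {g | g H ∈ E}` is finite: for each
`c' ∈ E`, if `e_c' h` and `e_c' h'` are both in `U`, then `e_c h⁻¹ ~ e_c' ~ e_c h'⁻¹`, so
`e_c ~ e_c h'⁻¹ h`, `h'⁻¹ h ∈ K_c`; so `{h | e_c' h ∈ U}` is finite.  For `s ∈ S`: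
`{g ∈ U | s g ∉ U}` is contained in `U ∩ {g H ∈ E}`, finite; `{g ∉ U | s g ∈ U}` is the translate by
`s⁻¹` of `{g' ∈ U | s⁻¹ g' ∉ U}`, finite.  The set of `x : G` with `{g | ¬ (x g ∈ U ↔ g ∈ U)}` finite contains `S` and is a
subgroup, so it is `G`.  By `hOE`, `U` or `Uᶜ` is finite.  `U` is infinite (deep).  If `Uᶜ` is finite
then, `G` being infinite, for every `h ∈ H` there is `g ∈ U` with `g h ∈ U`, so `e_c h ~ g h ~ e_c` and `h ∈ K_c`:
so `K_c = H` is infinite, contradiction.
-/

namespace PDT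

private def GeoRef_r {G : Type*} [Group G] (H : Subgroup G) (S : Finset G) (E : Set (G ⧸ H)) :
    G → G → Prop :=
  Relation.EqvGen (fun x y => (∃ s ∈ S, y = s * x) ∧ (x : G ⧸ H) ∉ E)

private theorem GeoRef_inv {G : Type*} [Group G] (H : Subgroup G) (S : Finset G) (E : Set (G ⧸ H))
    {M : Type*} (ν : G → M) (hν : ∀ s ∈ S, ∀ g : G, ν (s * g) ≠ ν g → (g : G ⧸ H) ∈ E)
    {g g' : G} (h : GeoRef_r H S E g g') : ν g = ν g' := by
  unfold GeoRef_r at h
  induction h with
  | rel x y h =>
    obtain ⟨⟨s, hs, rfl⟩, hx⟩ := h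
    by_contra hc
    exact hx (hν s hs x (fun h => hc h.symm))
  | refl x => rfl
  | symm x y _ ih => exact ih.symm
  | trans x y z _ _ ih1 ih2 => exact ih1.trans ih2

private theorem GeoRef_mul {G : Type*} [Group G] (H : Subgroup G) (S : Finset G) (E : Set (G ⧸ H))
    {g g' : G} (h : GeoRef_r H S E g g') (k : H) :
    GeoRef_r H S E (g * (k : G)) (g' * (k : G)) := by
  unfold GeoRef_r at h ⊢
  induction h with
  | rel x y h =>
    obtain ⟨⟨s, hs, rfl⟩, hx⟩ := h
    refine Relation.EqvGen.rel _ _ ⟨⟨s, hs, by rw [mul_assoc]⟩, ?_⟩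
    have : ((x * (k : G) : G) : G ⧸ H) = (x : G ⧸ H) := by
      rw [QuotientGroup.eq]
      have : (x * (k : G))⁻¹ * x = ((k⁻¹ : H) : G) := by
        rw [mul_inv_rev, mul_assoc, inv_mul_cancel, mul_one]
        rfl
      rw [this]
      exact (k⁻¹).2
    rw [this]
    exact hx
  | refl x => exact Relation.EqvGen.refl _
  | symm x y _ ih => exact Relation.EqvGen.symm _ _ ih
  | trans x y z _ _ ih1 ih2 => exact Relation.EqvGen.trans _ _ _ ih1 ih2

private theorem GeoRef_symm {G : Type*} [Group G] {H : Subgroup G} {S : Finset G} {E : Set (G ⧸ H)}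
    {g g' : G} (h : GeoRef_r H S E g g') : GeoRef_r H S E g' g :=
  Relation.EqvGen.symm _ _ h

private theorem GeoRef_trans {G : Type*} [Group G] {H : Subgroup G} {S : Finset G}
    {E : Set (G ⧸ H)} {g g' g'' : G} (h : GeoRef_r H S E g g') (h' : GeoRef_r H S E g' g'') :
    GeoRef_r H S E g g'' :=
  Relation.EqvGen.trans _ _ _ h h'

private theorem GeoRef_step {G : Type*} [Group G] {H : Subgroup G} {S : Finset G}
    {E : Set (G ⧸ H)} {s : G} (hs : s ∈ S) {g : G} (hg : (g : G ⧸ H) ∉ E) :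
    GeoRef_r H S E g (s * g) :=
  Relation.EqvGen.rel _ _ ⟨⟨s, hs, rfl⟩, hg⟩

private theorem GeoRef_step' {G : Type*} [Group G] {H : Subgroup G} {S : Finset G}
    {E : Set (G ⧸ H)} (hsymm : ∀ s ∈ S, s⁻¹ ∈ S) {s : G} (hs : s ∈ S) {g : G}
    (hg : ((s * g : G) : G ⧸ H) ∉ E) :
    GeoRef_r H S E (s * g) g := by
  have := GeoRef_step (hsymm s hs) hg
  rwa [inv_mul_cancel_left] at this

private theorem GeoRef_reach {G : Type*} [Group G] (H : Subgroup G) (S : Finset G)
    (hS : Subgroup.closure (S : Set G) = ⊤) (hsymm : ∀ s ∈ S, s⁻¹ ∈ S)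
    (E : Set (G ⧸ H)) (hne : E.Nonempty) (g : G) :
    ∃ e : G, (e : G ⧸ H) ∈ E ∧ GeoRef_r H S E g e := by
  by_contra hno
  push Not at hno
  have hout : ∀ g', GeoRef_r H S E g g' → (g' : G ⧸ H) ∉ E := fun g' h h' => hno g' h' h
  have hcl : ∀ x ∈ Subgroup.closure (S : Set G), ∀ g',
      GeoRef_r H S E g g' ↔ GeoRef_r H S E g (x * g') := by
    intro x hx
    induction hx using Subgroup.closure_induction with
    | mem s hs =>
      intro g'
      constructor
      · intro h
        exact GeoRef_trans h (GeoRef_step hs (hout _ h))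
      · intro h
        exact GeoRef_trans h (GeoRef_step' hsymm hs (hout _ h))
    | one => intro g'; rw [one_mul]
    | mul x y _ _ hx hy => intro g'; rw [hy g', hx (y * g'), mul_assoc]
    | inv x _ hx =>
      intro g'
      have := hx (x⁻¹ * g')
      rw [mul_inv_cancel_left] at this
      exact this.symm
  obtain ⟨c, hc⟩ := hne
  have h1 : c.out * g⁻¹ ∈ Subgroup.closure (S : Set G) := by rw [hS]; trivial
  have h2 := (hcl _ h1 g).1 (Relation.EqvGen.refl _)
  rw [inv_mul_cancel_right] at h2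
  refine hout _ h2 ?_
  have : ((c.out : G) : G ⧸ H) = c := QuotientGroup.out_eq' c
  rw [this]
  exact hc

private def GeoRef_K {G : Type*} [Group G] (H : Subgroup G) (S : Finset G) (E : Set (G ⧸ H))
    (e : G) : Subgroup H where
  carrier := {k | GeoRef_r H S E (e * (k : G)) e}
  mul_mem' := by
    intro k k' hk hk'
    have h1 := GeoRef_mul H S E hk k'
    simp only [Set.mem_setOf_eq] at hk' ⊢
    have h2 : e * ((k * k' : H) : G) = e * (k : G) * (k' : G) := by
      rw [Subgroup.coe_mul, mul_assoc]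
    rw [h2]
    exact GeoRef_trans h1 hk'
  one_mem' := by
    simp only [Set.mem_setOf_eq, OneMemClass.coe_one, mul_one]
    exact Relation.EqvGen.refl _
  inv_mem' := by
    intro k hk
    have h1 := GeoRef_mul H S E hk k⁻¹
    simp only [Set.mem_setOf_eq]
    have h2 : e * (k : G) * ((k⁻¹ : H) : G) = e := by
      rw [mul_assoc, ← Subgroup.coe_mul, mul_inv_cancel, OneMemClass.coe_one, mul_one]
    rw [h2] at h1
    exact GeoRef_symm h1

private theorem GeoRef_fin {G : Type*} [Group G] (H : Subgroup G) (S : Finset G)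
    (E : Set (G ⧸ H)) (hE : E.Finite) (e : G) (hK : Finite (GeoRef_K H S E e)) :
    {g : G | GeoRef_r H S E g e ∧ (g : G ⧸ H) ∈ E}.Finite := by
  have h1 : ∀ c : G ⧸ H, {g : G | GeoRef_r H S E g e ∧ (g : G ⧸ H) = c}.Finite := by
    intro c
    by_cases hne : ∃ g0 : G, GeoRef_r H S E g0 e ∧ (g0 : G ⧸ H) = c
    · obtain ⟨g0, hg0, hc0⟩ := hne
      refine (Set.finite_range (fun k : GeoRef_K H S E e => g0 * ((k : H) : G))).subset ?_
      rintro g ⟨hg, hgc⟩
      have h1 : g0⁻¹ * g ∈ H := QuotientGroup.eq.1 (hc0.trans hgc.symm)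
      have h3 : g0 * (g0⁻¹ * g) = g := mul_inv_cancel_left _ _
      have h2 : GeoRef_r H S E (e * ((⟨g0⁻¹ * g, h1⟩ : H) : G)) e := by
        have h4 := GeoRef_mul H S E hg0 ⟨g0⁻¹ * g, h1⟩
        have h5 : g0 * ((⟨g0⁻¹ * g, h1⟩ : H) : G) = g := h3
        rw [h5] at h4
        exact GeoRef_trans (GeoRef_symm h4) hg
      exact ⟨⟨⟨g0⁻¹ * g, h1⟩, h2⟩, h3⟩
    · have : {g : G | GeoRef_r H S E g e ∧ (g : G ⧸ H) = c} = ∅ := by
        ext g
        simp only [Set.mem_setOf_eq, Set.mem_empty_iff_false, iff_false]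
        intro h
        exact hne ⟨g, h⟩
      rw [this]
      exact Set.finite_empty
  refine (hE.biUnion fun c _ => h1 c).subset ?_
  rintro g ⟨hg, hgE⟩
  simp only [Set.mem_iUnion]
  exact ⟨(g : G ⧸ H), hgE, hg, rfl⟩

private theorem GeoRef_inf {G : Type*} [Group G] (H : Subgroup G) [Infinite H]
    (S : Finset G) (hS : Subgroup.closure (S : Set G) = ⊤) (hsymm : ∀ s ∈ S, s⁻¹ ∈ S)
    (hOE : ∀ A : Set G, (∀ x : G, {g : G | ¬ (x * g ∈ A ↔ g ∈ A)}.Finite) → A.Finite ∨ Aᶜ.Finite)
    (E : Set (G ⧸ H)) (hE : E.Finite) (e : G) (hU : {g : G | GeoRef_r H S E g e}.Infinite) :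
    Infinite (GeoRef_K H S E e) := by
  by_contra hK
  rw [not_infinite_iff_finite] at hK
  have hGinf : Infinite G := Infinite.of_injective (fun h : H => (h : G)) Subtype.val_injective
  have hfin := GeoRef_fin H S E hE e hK
  set U : Set G := {g : G | GeoRef_r H S E g e} with hUdef
  have key : ∀ x ∈ Subgroup.closure (S : Set G), {g : G | ¬ (x * g ∈ U ↔ g ∈ U)}.Finite := by
    intro x hx
    induction hx using Subgroup.closure_induction with
    | mem s hs =>
      have h2 : {g : G | s * g ∈ {g : G | GeoRef_r H S E g e ∧ (g : G ⧸ H) ∈ E}}.Finite :=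
        hfin.preimage (mul_right_injective s).injOn
      refine (hfin.union h2).subset ?_
      intro g hg
      simp only [Set.mem_setOf_eq] at hg
      by_cases h1 : g ∈ U
      · left
        refine ⟨h1, ?_⟩
        by_contra hc
        apply hg
        refine ⟨fun _ => h1, fun _ => ?_⟩
        exact GeoRef_trans (GeoRef_symm (GeoRef_step hs hc)) h1
      · right
        have h3 : s * g ∈ U := by
          by_contra hc
          exact hg ⟨fun h => absurd h hc, fun h => absurd h h1⟩
        refine ⟨h3, ?_⟩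
        by_contra hc
        apply h1
        exact GeoRef_trans (GeoRef_symm (GeoRef_step' hsymm hs hc)) h3
    | one => 
      have : {g : G | ¬ (1 * g ∈ U ↔ g ∈ U)} = ∅ := by
        ext g
        simp
      rw [this]
      exact Set.finite_empty
    | mul x y _ _ hx hy =>
      have h2 : {g : G | y * g ∈ {g : G | ¬ (x * g ∈ U ↔ g ∈ U)}}.Finite :=
        hx.preimage (mul_right_injective y).injOn
      refine (h2.union hy).subset ?_
      intro g hg
      simp only [Set.mem_setOf_eq] at hg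
      by_cases h1 : (y * g ∈ U ↔ g ∈ U)
      · left
        simp only [Set.mem_setOf_eq]
        intro h3
        apply hg
        rw [mul_assoc]
        exact h3.trans h1
      · right
        exact h1
    | inv x _ hx =>
      have h2 : {g : G | x⁻¹ * g ∈ {g : G | ¬ (x * g ∈ U ↔ g ∈ U)}}.Finite :=
        hx.preimage (mul_right_injective x⁻¹).injOn
      refine h2.subset ?_
      intro g hg
      simp only [Set.mem_setOf_eq] at hg ⊢
      rw [mul_inv_cancel_left]
      intro h
      exact hg h.symm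
  have key' : ∀ x : G, {g : G | ¬ (x * g ∈ U ↔ g ∈ U)}.Finite := by
    intro x
    apply key
    rw [hS]
    trivial
  rcases hOE U key' with h | h
  · exact hU h
  · have hall : ∀ k : H, k ∈ GeoRef_K H S E e := by
      intro k
      have h2 : {g : G | g * (k : G) ∈ Uᶜ}.Finite :=
        h.preimage (mul_left_injective (k : G)).injOn
      obtain ⟨g, hg⟩ := (h.union h2).exists_notMem
      have h3 : GeoRef_r H S E g e := by
        by_contra hc
        exact hg (Or.inl hc)
      have h4 : GeoRef_r H S E (g * (k : G)) e := by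
        by_contra hc
        exact hg (Or.inr hc)
      exact GeoRef_trans (GeoRef_symm (GeoRef_mul H S E h3 k)) h4
    have : Infinite (GeoRef_K H S E e) :=
      Infinite.of_injective (fun h : H => (⟨h, hall h⟩ : GeoRef_K H S E e))
        (fun a b hab => congrArg Subtype.val hab)
    exact not_finite (GeoRef_K H S E e)

theorem geo_ref {G : Type*} [Group G] (H : Subgroup G) [Infinite H]
    (S : Finset G) (hS : Subgroup.closure (S : Set G) = ⊤) (hsymm : ∀ s ∈ S, s⁻¹ ∈ S)
    (hOE : ∀ A : Set G, (∀ x : G, {g : G | ¬ (x * g ∈ A ↔ g ∈ A)}.Finite) → A.Finite ∨ Aᶜ.Finite)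
    (E : Set (G ⧸ H)) (hE : E.Finite) :
    ∃ (r : ℕ) (g : Fin r → G) (K : Fin r → Subgroup H), (∀ j, Infinite (K j)) ∧
      ∀ (M : Type*) [AddCommGroup M] (a : H →* AddMonoid.End M) (ν : G → M),
        (∀ (g : G) (h : H), ν (g * h) = a h⁻¹ (ν g)) →
        (∀ s ∈ S, ∀ g : G, ν (s * g) ≠ ν g → (g : G ⧸ H) ∈ E) →
        (∀ j, ∀ k ∈ K j, a k (ν (g j)) = ν (g j)) ∧
        ((∀ j, ν (g j) = 0) → ((fun g : G => (g : G ⧸ H)) '' {g | ν g ≠ 0}).Finite) := by
  classical
  set F : Set (G ⧸ H) := insert ((1 : G) : G ⧸ H) E with hF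
  have hFfin : F.Finite := hE.insert _
  have hFne : F.Nonempty := ⟨_, Set.mem_insert _ _⟩
  set D : Set (G ⧸ H) := {c ∈ F | ((fun g : G => (g : G ⧸ H)) ''
    {g : G | GeoRef_r H S F g c.out}).Infinite} with hD
  have hDfin : D.Finite := hFfin.subset fun c hc => hc.1
  let ee := hDfin.toFinset.equivFin
  refine ⟨hDfin.toFinset.card, fun j => (ee.symm j : G ⧸ H).out,
    fun j => GeoRef_K H S F (ee.symm j : G ⧸ H).out, ?_, ?_⟩
  · intro j
    have hj : (ee.symm j : G ⧸ H) ∈ D := hDfin.mem_toFinset.1 (ee.symm j).2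
    refine GeoRef_inf H S hS hsymm hOE F hFfin _ ?_
    intro hfin
    exact hj.2 (hfin.image _)
  · intro M _ a ν hν hνS
    have hνS' : ∀ s ∈ S, ∀ g : G, ν (s * g) ≠ ν g → (g : G ⧸ H) ∈ F :=
      fun s hs g h => Set.mem_insert_of_mem _ (hνS s hs g h)
    constructor
    · intro j k hk
      have h1 : GeoRef_r H S F ((ee.symm j : G ⧸ H).out * ((k⁻¹ : H) : G))
          (ee.symm j : G ⧸ H).out := (GeoRef_K H S F (ee.symm j : G ⧸ H).out).inv_mem hk
      have h2 := GeoRef_inv H S F ν hνS' h1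
      rw [hν, inv_inv] at h2
      exact h2
    · intro h0
      have hfin : (⋃ c ∈ F \ D, (fun g : G => (g : G ⧸ H)) ''
          {g : G | GeoRef_r H S F g c.out}).Finite := by
        refine (hFfin.subset Set.diff_subset).biUnion fun c hc => ?_
        by_contra hinf
        exact hc.2 ⟨hc.1, hinf⟩
      refine hfin.subset ?_
      rintro _ ⟨g, hg, rfl⟩
      obtain ⟨e, heF, hge⟩ := GeoRef_reach H S hS hsymm F hFne g
      have e1 : ((Quotient.out (e : G ⧸ H) : G) : G ⧸ H) = (e : G ⧸ H) :=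
        QuotientGroup.out_eq' _
      have e2 : (Quotient.out (e : G ⧸ H))⁻¹ * e ∈ H := QuotientGroup.eq.1 e1
      set c : G ⧸ H := (e : G ⧸ H) with hc
      set k : H := ⟨(Quotient.out c)⁻¹ * e, e2⟩ with hk
      have e3 : Quotient.out c * (k : G) = e := by
        change Quotient.out c * ((Quotient.out c)⁻¹ * e) = e
        rw [mul_inv_cancel_left]
      have e4 : GeoRef_r H S F (g * ((k⁻¹ : H) : G)) (Quotient.out c) := by
        have h1 := GeoRef_mul H S F hge k⁻¹
        have h2 : e * ((k⁻¹ : H) : G) = Quotient.out c := by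
          rw [← e3, mul_assoc, ← Subgroup.coe_mul, mul_inv_cancel, OneMemClass.coe_one, mul_one]
        rw [h2] at h1
        exact h1
      have e5 : ν g = a k⁻¹ (ν (Quotient.out c)) := by
        rw [GeoRef_inv H S F ν hνS' hge, ← e3, hν]
      have e6 : c ∉ D := by
        intro hcD
        apply hg
        have h1 := h0 (ee ⟨c, hDfin.mem_toFinset.2 hcD⟩)
        simp only [Equiv.symm_apply_apply] at h1
        rw [e5, h1, map_zero]
      simp only [Set.mem_iUnion]
      refine ⟨c, ⟨heF, e6⟩, g * ((k⁻¹ : H) : G), e4, ?_⟩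
      change ((g * ((k⁻¹ : H) : G) : G) : G ⧸ H) = (g : G ⧸ H)
      rw [QuotientGroup.eq]
      have : (g * ((k⁻¹ : H) : G))⁻¹ * g = (k : G) := by
        rw [mul_inv_rev, mul_assoc, inv_mul_cancel, mul_one]
        simp
      rw [this]
      exact k.2

end PDT
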