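import Pool.Agent.Lib.PDT.Base
import Pool.Agent.Lib.PDT.Base2
import Pool.Agent.Lib.PDT.Base5
import Pool.Agent.Lib.PDT.DerCo

/-!
# PDT/NuOf: a cocycle comes from an almost invariant function if `H^1(H; M) = 0`, with control of the support

Complete proof (compare the header of `PDT/InjRef`).  For every `x : G` choose `q_x : Q1` with `d1 q_x = el x • u0 - u0` (`R.ex0`, `ε_el`).
`E` = the set of the cosets of the elements of the supports of `(r i) (q_x)`, `i : Fin k`, `x ∈ S`: finite.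
Let `M, L, m` be given, `c = Σ_i gam H w L (r i) (m i)`.  `der_of_cocycle` gives `δ`, `δ (x y) = δ x + el x • δ y`, with
`δ x = c q` whenever `d1 q = el x • u0 - u0`.
`h ↦ (δ h)(1)` is a derivation `H → M`: `(δ (h h'))(1) = (δ h)(1) + (δ h')(h⁻¹)`, `(δ h')(h⁻¹) = L h ((δ h')(1))` (`Ind_equiv`, `hwH`).  By `hH1`
there is `μ` with `(δ h)(1) = L h μ - μ`.  Put `ν g = μ - (δ g)(g)`.
(1) `ν (g h) = L h⁻¹ (ν g)`: `(δ (g h))(g h) = (δ g)(g h) + (δ h)(h)`, `(δ g)(g h) = L h⁻¹ ((δ g)(g))`,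
`(δ h)(h) = L h⁻¹ ((δ h)(1)) = μ - L h⁻¹ μ`.
(2) `ν (x⁻¹ g) - ν g = (δ x)(g)`: `δ g = δ x + el x • δ (x⁻¹ g)` at `g`: `(δ g)(g) = (δ x)(g) + (δ (x⁻¹ g))(x⁻¹ g)`.  So `IsT` (`Ind_fin (δ x)`).
(3) If `s ∈ S` and `ν (s⁻¹ g) ≠ ν g` then `0 ≠ (δ s)(g) = Σ_i ((r i q_s) • th m_i)(g)`; `(y • th m)(g) ≠ 0` implies that the coset of `g` is the coset of
an element of the support of `y` (additive in `y`: `(el x • th m)(g) = (th m)(x⁻¹ g)` vanishes unless `x⁻¹ g ∈ H`; write `y` as the sum over its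
support).  So `(g : G ⧸ H) ∈ E`.
-/

namespace PDT

open Function

universe u

private theorem NuOf_supp {G : Type*} [Group G] (H : Subgroup G) (w : G →* ℤˣ) {M : Type*}
    [AddCommGroup M] (L : H →* Module.End ℤ M) (y : Zg G) (m : M) (g : G)
    (h : ((y • th H w L m : Ind H w L) : G → M) g ≠ 0) :
    ∃ x ∈ y.coeff.support, (g : G ⧸ H) = (x : G ⧸ H) := by
  have e : ((y • th H w L m : Ind H w L) : G → M) g =
      y.coeff.sum fun x n => n • ((el x • th H w L m : Ind H w L) : G → M) g := by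
    rw [← zl_apply (fun x => ((el x • th H w L m : Ind H w L) : G → M) g) y]
    have e1 : (⟨⟨fun y : Zg G => ((y • th H w L m : Ind H w L) : G → M) g, by simp⟩, by
        intro a b
        show (((a + b) • th H w L m : Ind H w L) : G → M) g = _
        rw [add_smul]
        rfl⟩ : Zg G →+ M) = zl (fun x => ((el x • th H w L m : Ind H w L) : G → M) g) := by
      apply zhom_ext
      intro x
      rw [zl_el]
      rfl
    exact DFunLike.congr_fun e1 y
  rw [e] at h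
  by_contra hn
  push Not at hn
  apply h
  apply Finset.sum_eq_zero
  intro x hx
  have h1 : ((el x • th H w L m : Ind H w L) : G → M) g = 0 := by
    rw [el_smul_ind_apply]
    apply th_apply_not_mem
    intro h2
    apply hn x hx
    rw [eq_comm, QuotientGroup.eq]
    exact h2
  simp only [h1, smul_zero]

private theorem NuOf_supp' {G : Type*} [Group G] (H : Subgroup G) (w : G →* ℤˣ) {M : Type*}
    [AddCommGroup M] (L : H →* Module.End ℤ M) {k : ℕ} (y : Fin k → Zg G) (m : Fin k → M) (g : G)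
    (h : ((∑ i, y i • th H w L (m i) : Ind H w L) : G → M) g ≠ 0) :
    ∃ i, ∃ x ∈ (y i).coeff.support, (g : G ⧸ H) = (x : G ⧸ H) := by
  have e : ((∑ i, y i • th H w L (m i) : Ind H w L) : G → M) g =
      ∑ i, ((y i • th H w L (m i) : Ind H w L) : G → M) g := by
    rw [Submodule.coe_sum, Finset.sum_apply]
  rw [e] at h
  obtain ⟨i, -, hi⟩ := Finset.exists_ne_zero_of_sum_ne_zero h
  exact ⟨i, NuOf_supp H w L (y i) (m i) g hi⟩

private theorem NuOf_eq {G : Type*} [Group G] (H : Subgroup G) (w : G →* ℤˣ)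
    (hwH : ∀ h : H, w h = 1) {M : Type*} [AddCommGroup M] (L : H →* Module.End ℤ M)
    (φ : Ind H w L) (g : G) (h : H) : (φ : G → M) (g * h) = L h⁻¹ ((φ : G → M) g) := by
  rw [Ind_equiv, hwH]
  simp

theorem nu_of {G : Type u} [Group G] (R : Res G) (H : Subgroup G) (w : G →* ℤˣ)
    (hwH : ∀ h : H, w h = 1) (S : Finset G) (u0 : R.Q0) (hu0 : R.ε u0 = 1) {k : ℕ}
    (r : Fin k → (R.Q1 →ₗ[Zg G] Zg G)) :
    ∃ E : Set (G ⧸ H), E.Finite ∧
      ∀ (M : Type u) [AddCommGroup M] (L : H →* Module.End ℤ M),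
        (∀ δ : H → M, (∀ x y, δ (x * y) = δ x + L x (δ y)) → ∃ μ, ∀ x, δ x = L x μ - μ) →
        ∀ m : Fin k → M, (∑ i, gam H w L (r i) (m i)) ∘ₗ R.d2 = 0 →
          ∃ ν : G → M, IsT H L ν ∧
            (∀ s ∈ S, ∀ g : G, ν (s⁻¹ * g) ≠ ν g → (g : G ⧸ H) ∈ E) ∧
            ∀ x q, R.d1 q = el x • u0 - u0 → ∀ g,
              (((∑ i, gam H w L (r i) (m i)) q : Ind H w L) : G → M) g = ν (x⁻¹ * g) - ν g := by
  classical
  choose q hq using fun x : G => (R.ex0 (el x • u0 - u0)).1 (by rw [map_sub, R.ε_el, sub_self])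
  refine ⟨⋃ i : Fin k, ⋃ s ∈ S, (fun g : G => (g : G ⧸ H)) '' ((r i (q s)).coeff.support : Set G),
    ?_, ?_⟩
  · refine Set.finite_iUnion fun i => ?_
    refine Set.Finite.biUnion S.finite_toSet fun s _ => ?_
    exact (Finset.finite_toSet _).image _
  intro M _ L hH1 m hc
  obtain ⟨δ, hδ1, hδ2, -⟩ := der_of_cocycle R (∑ i, gam H w L (r i) (m i)) hc u0 hu0
  have heq := NuOf_eq H w hwH L
  have hel : ∀ (x : G) (φ : Ind H w L) (g : G), ((el x • φ : Ind H w L) : G → M) g =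
      (φ : G → M) (x⁻¹ * g) := fun x φ g => el_smul_ind_apply H w L x φ g
  have hδv : ∀ (x y g : G), (δ (x * y) : G → M) g = (δ x : G → M) g + (δ y : G → M) (x⁻¹ * g) := by
    intro x y g
    rw [hδ1, ← hel]
    rfl
  obtain ⟨μ, hμ⟩ := hH1 (fun h => (δ (h : G) : G → M) 1) (by
    intro x y
    show (δ (((x * y : H)) : G) : G → M) 1 = (δ (x : G) : G → M) 1 + L x ((δ (y : G) : G → M) 1)
    rw [Subgroup.coe_mul, hδv]
    congr 1
    have h1 := heq (δ (y : G)) 1 x⁻¹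
    rw [inv_inv] at h1
    rw [← h1]
    simp)
  have hμ' : ∀ h : H, (δ (h : G) : G → M) 1 = L h μ - μ := hμ
  obtain ⟨ν, hν⟩ : ∃ ν : G → M, ∀ g, ν g = μ - (δ g : G → M) g := ⟨_, fun g => rfl⟩
  have h2 : ∀ x g : G, ν (x⁻¹ * g) - ν g = (δ x : G → M) g := by
    intro x g
    have h3 := hδv x (x⁻¹ * g) g
    rw [mul_inv_cancel_left] at h3
    rw [hν, hν, h3]
    abel
  have hcv : ∀ (x : G) (p : R.Q1), R.d1 p = el x • u0 - u0 → ∀ g,
      (((∑ i, gam H w L (r i) (m i)) p : Ind H w L) : G → M) g = ν (x⁻¹ * g) - ν g := by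
    intro x p hp g
    rw [h2, hδ2 x p hp]
  refine ⟨ν, ⟨?_, ?_⟩, ?_, hcv⟩
  · intro g h
    rw [hν, hν, hδv, heq]
    have e1 : g⁻¹ * (g * (h : G)) = 1 * h := by group
    rw [e1, heq, hμ' h, map_sub, map_sub]
    have e2 : L h⁻¹ (L h μ) = μ := by
      rw [← Module.End.mul_apply, ← map_mul, inv_mul_cancel, map_one]
      rfl
    rw [e2]
    abel
  · intro x
    refine (Ind_fin (δ x)).subset ?_
    rintro _ ⟨g, hg, rfl⟩
    refine ⟨g, ?_, rfl⟩
    intro h0
    apply hg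
    have h3 := h2 x g
    rw [h0] at h3
    exact sub_eq_zero.1 h3
  · intro s hs g hg
    have h3 : (((∑ i, gam H w L (r i) (m i)) (q s) : Ind H w L) : G → M) g ≠ 0 := by
      rw [hcv s (q s) (hq s) g]
      exact sub_ne_zero.2 hg
    have h4 : (∑ i, gam H w L (r i) (m i)) (q s) = ∑ i, (r i) (q s) • th H w L (m i) := by
      rw [LinearMap.sum_apply]
      rfl
    rw [h4] at h3
    obtain ⟨i, x, hx, hgx⟩ := NuOf_supp' H w L (fun i => r i (q s)) m g h3
    rw [Set.mem_iUnion]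
    refine ⟨i, ?_⟩
    rw [Set.mem_iUnion₂]
    exact ⟨s, hs, x, hx, hgx.symm⟩

end PDT
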