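import Pool.Agent.Lib.PDT.Base

/-!
# PDT/LiftD: H-equivariant maps out of the dual of a projective ℤ[G]-module can be lifted

The group acts on functionals `r : Q → ℤ[G]` by `(x·r)(q) = w(x) r(q) x⁻¹` (`tw w x r`).

Complete proof.  STEP 0 (functions).  Let `F : G → B` with
`(w h : ℤ) • F (g * h⁻¹) = el h • F g` for `h ∈ H`, and `F g ∈ range π` for all `g`.  Then there is
`F' : G → A` with the same equivariance and `π (F' g) = F g`.  Proof: let `t(g) = Quotient.out (g : G ⧸ H)`,
the representative of the left coset `g H`; `g = t(g) k` with `k = k(g) ∈ H`, i.e. `t(g) = g k⁻¹`;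
choose `a_g` with `π a_g = F g` and put `F' g = (w k : ℤ) • el k⁻¹ • a_{t(g)}`.  Check: replacing `g`
by `g h⁻¹` keeps `t` and replaces `k` by `k h⁻¹`, so
`w(h) F'(g h⁻¹) = w(h) w(k h⁻¹) el (h k⁻¹) • a = w(k) el h • el k⁻¹ • a = el h • F' g` (`w(h)² = 1`).
And `π (F' g) = w(k) el k⁻¹ • F (g k⁻¹) = F g` (equivariance of `F` with `h = k`, `w(k)² = 1`).
STEP 1.  By `dualBasis Q`: `q = Σ_i f_i(q) • e_i`, hence for every `r`: `r = Σ_i rm f_i (r e_i)`
(evaluate at `q`: `r q = Σ f_i(q) r(e_i)`).  Put `F_i(g) = f (rm f_i (el g))`; it satisfies the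
hypothesis of step 0: `tw w h (rm f_i (el g)) = (w h : ℤ) • rm f_i (el (g h⁻¹))`, so `hf` gives
`(w h) • F_i (g h⁻¹) = el h • F_i g`.  `zl F_i y = f (rm f_i y)` by `zhom_ext`, so
`f r = Σ_i zl F_i (r e_i)`.  Define `f' r = Σ_i zl F'_i (r e_i)`.  Equivariance: `(tw w h r) e_i =
(w h) • (r e_i * el h⁻¹)` and `(w h) • zl F'_i (y * el h⁻¹) = el h • zl F'_i y` (check on `y = el g`).
`π (f' r) = f r` as `π (zl F'_i y) = zl F_i y`.
-/

namespace PDT

open Function

private theorem LiftD_fun {G : Type*} [Group G] (H : Subgroup G) (w : G →* ℤˣ) {A B : Type*}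
    [AddCommGroup A] [Module (Zg H) A] [AddCommGroup B] [Module (Zg H) B] (π : A →ₗ[Zg H] B)
    (F : G → B) (hF : ∀ (h : H) (g : G), ((w (h : G) : ℤ)) • F (g * (h : G)⁻¹) = el h • F g)
    (hr : ∀ g, ∃ a, π a = F g) :
    ∃ F' : G → A, (∀ (h : H) (g : G), ((w (h : G) : ℤ)) • F' (g * (h : G)⁻¹) = el h • F' g) ∧
      ∀ g, π (F' g) = F g := by
  choose a ha using hr
  have hk : ∀ g : G, ∃ k : H, (g : G ⧸ H).out = g * k := fun g => QuotientGroup.mk_out_eq_mul H g
  choose κ hκ using hk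
  have hsq : ∀ x : G, ((w x : ℤ)) * (w x : ℤ) = 1 := by
    intro x
    rcases Int.units_eq_one_or (w x) with e | e <;> simp [e]
  refine ⟨fun g => ((w (κ g : G) : ℤ)) • el (κ g) • a ((g : G ⧸ H).out), ?_, ?_⟩
  · intro h g
    have h1 : ((g * (h : G)⁻¹ : G) : G ⧸ H) = (g : G ⧸ H) := by
      rw [QuotientGroup.eq]
      simp
    have h2 : κ (g * (h : G)⁻¹) = h * κ g := by
      apply Subtype.ext
      have h3 := hκ (g * (h : G)⁻¹)
      rw [h1, hκ g] at h3
      have h4 : (κ g : G) = (h : G)⁻¹ * (κ (g * (h : G)⁻¹) : G) := by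
        rw [mul_assoc] at h3
        exact mul_left_cancel h3
      rw [Subgroup.coe_mul, h4, mul_inv_cancel_left]
    beta_reduce
    rw [h1, h2, Subgroup.coe_mul, map_mul, Units.val_mul, el_mul, mul_smul (el h) (el (κ g)),
      smul_smul, ← mul_assoc, hsq, one_mul]
    rw [smul_comm]
  · intro g
    beta_reduce
    rw [map_zsmul, map_smul, ha, hκ g]
    have h1 := hF (κ g)⁻¹ g
    rw [Subgroup.coe_inv, inv_inv, map_inv] at h1
    have h2 : ((((w (κ g : G))⁻¹ : ℤˣ)) : ℤ) = (w (κ g : G) : ℤ) := by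
      rcases Int.units_eq_one_or (w (κ g : G)) with e | e <;> simp [e]
    rw [h2] at h1
    rw [smul_comm, h1, el_smul_inv]

theorem lift_D {G : Type*} [Group G] (H : Subgroup G) (w : G →* ℤˣ) {Q A B : Type*}
    [AddCommGroup Q] [Module (Zg G) Q] [Module.Finite (Zg G) Q] [Module.Projective (Zg G) Q]
    [AddCommGroup A] [Module (Zg H) A] [AddCommGroup B] [Module (Zg H) B] (π : A →ₗ[Zg H] B)
    (f : (Q →ₗ[Zg G] Zg G) →+ B)
    (hf : ∀ (h : H) (r : Q →ₗ[Zg G] Zg G), f (tw w (h : G) r) = el h • f r)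
    (hr : ∀ r, ∃ a, π a = f r) :
    ∃ f' : (Q →ₗ[Zg G] Zg G) →+ A,
      (∀ (h : H) (r : Q →ₗ[Zg G] Zg G), f' (tw w (h : G) r) = el h • f' r) ∧
      ∀ r, π (f' r) = f r := by
  obtain ⟨n, e, φ, hφ⟩ := dualBasis (G := G) Q
  have hrep : ∀ r : Q →ₗ[Zg G] Zg G, r = ∑ i, rm (φ i) (r (e i)) := by
    intro r
    apply LinearMap.ext
    intro q
    rw [LinearMap.sum_apply]
    conv_lhs => rw [hφ q]
    rw [map_sum]
    exact Finset.sum_congr rfl fun i _ => by rw [map_smul, smul_eq_mul, rm_apply]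
  have hF : ∀ (i : Fin n) (h : H) (g : G),
      ((w (h : G) : ℤ)) • f (rm (φ i) (el (g * (h : G)⁻¹))) = el h • f (rm (φ i) (el g)) := by
    intro i h g
    rw [← hf, ← map_zsmul]
    congr 1
    apply LinearMap.ext
    intro q
    rw [tw_apply, rm_apply, LinearMap.smul_apply, rm_apply, el_mul, mul_assoc]
  have hex : ∀ i : Fin n, ∃ F' : G → A,
      (∀ (h : H) (g : G), ((w (h : G) : ℤ)) • F' (g * (h : G)⁻¹) = el h • F' g) ∧
      ∀ g, π (F' g) = f (rm (φ i) (el g)) := fun i =>
    LiftD_fun H w π (fun g => f (rm (φ i) (el g))) (hF i) fun g => hr _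
  choose F' hF1 hF2 using hex
  have hz1 : ∀ (i : Fin n) (h : H) (y : Zg G),
      ((w (h : G) : ℤ)) • zl (F' i) (y * el (h : G)⁻¹) = el h • zl (F' i) y := by
    intro i h y
    induction y using Zg.ind with
    | h0 => rw [zero_mul, map_zero, smul_zero, smul_zero]
    | hel g => rw [← el_mul, zl_el, zl_el, hF1]
    | hadd x y hx hy => rw [add_mul, map_add, smul_add, hx, hy, map_add, smul_add]
    | hneg x hx => rw [neg_mul, map_neg, smul_neg, hx, map_neg, smul_neg]
  have hz2 : ∀ (i : Fin n) (y : Zg G), π (zl (F' i) y) = f (rm (φ i) y) := by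
    intro i y
    induction y using Zg.ind with
    | h0 =>
      have h1 : rm (φ i) (0 : Zg G) = 0 := by
        apply LinearMap.ext
        intro q
        simp
      rw [h1, map_zero, map_zero, map_zero]
    | hel g => rw [zl_el, hF2]
    | hadd x y hx hy =>
      have h1 : rm (φ i) (x + y) = rm (φ i) x + rm (φ i) y := by
        apply LinearMap.ext
        intro q
        simp [mul_add]
      rw [h1, map_add, map_add, hx, hy, map_add]
    | hneg x hx =>
      have h1 : rm (φ i) (-x) = -rm (φ i) x := by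
        apply LinearMap.ext
        intro q
        simp
      rw [h1, map_neg, map_neg, hx, map_neg]
  refine ⟨{ toFun := fun r => ∑ i, zl (F' i) (r (e i))
            map_zero' := by simp
            map_add' := fun r s => by
              rw [← Finset.sum_add_distrib]
              exact Finset.sum_congr rfl fun i _ => by rw [LinearMap.add_apply, map_add] }, ?_, ?_⟩
  · intro h r
    show ∑ i, zl (F' i) (tw w (h : G) r (e i)) = el h • ∑ i, zl (F' i) (r (e i))
    rw [Finset.smul_sum]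
    refine Finset.sum_congr rfl fun i _ => ?_
    rw [tw_apply, map_zsmul, hz1]
  · intro r
    show π (∑ i, zl (F' i) (r (e i))) = f r
    conv_rhs => rw [hrep r]
    rw [map_sum, map_sum]
    exact Finset.sum_congr rfl fun i _ => hz2 i _

end PDT
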