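import Pool.Agent.Lib.PDT.Base
import Pool.Agent.Lib.PDT.LiftD

/-!
# PDT/LiftD2: the lifting lemma `lift_D` for abelian groups with an action

Complete proof.  As in the proof of `lift_P` (`PDT/LiftP`): give `A` and `B` the `Zg H`-module structures
`Module.compHom _ ((MonoidAlgebra.lift ℤ (AddMonoid.End A) H) a).toRingHom`, for which `el h • x = a h x`, make `π` linear
(`Zg.ind`), and apply `lift_D`.
-/

namespace PDT

open Function

private theorem LiftD2_lin {H A B : Type*} [Group H] [AddCommGroup A] [AddCommGroup B]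
    [Module (Zg H) A] [Module (Zg H) B] (g : A →+ B)
    (hg : ∀ (h : H) (x : A), g (el h • x) = el h • g x) (y : Zg H) :
    ∀ x : A, g (y • x) = y • g x := by
  refine Zg.ind (P := fun y => ∀ x : A, g (y • x) = y • g x) y ?_ ?_ ?_ ?_
  · intro x
    rw [zero_smul, zero_smul, map_zero]
  · intro h x
    exact hg h x
  · intro y z hy hz x
    rw [add_smul, add_smul, map_add, hy, hz]
  · intro y hy x
    rw [neg_smul, neg_smul, map_neg, hy]

theorem lift_D2 {G : Type*} [Group G] (H : Subgroup G) (w : G →* ℤˣ) {Q A B : Type*}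
    [AddCommGroup Q] [Module (Zg G) Q] [Module.Finite (Zg G) Q] [Module.Projective (Zg G) Q]
    [AddCommGroup A] [AddCommGroup B] (a : H →* AddMonoid.End A) (b : H →* AddMonoid.End B)
    (π : A →+ B) (hπ : ∀ h x, π (a h x) = b h (π x)) (f : (Q →ₗ[Zg G] Zg G) →+ B)
    (hf : ∀ (h : H) (r : Q →ₗ[Zg G] Zg G), f (tw w (h : G) r) = b h (f r))
    (hr : ∀ r, ∃ x, π x = f r) :
    ∃ f' : (Q →ₗ[Zg G] Zg G) →+ A,
      (∀ (h : H) (r : Q →ₗ[Zg G] Zg G), f' (tw w (h : G) r) = a h (f' r)) ∧
      ∀ r, π (f' r) = f r := by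
  letI mA : Module (Zg H) A :=
    Module.compHom A ((MonoidAlgebra.lift ℤ (AddMonoid.End A) H) a).toRingHom
  letI mB : Module (Zg H) B :=
    Module.compHom B ((MonoidAlgebra.lift ℤ (AddMonoid.End B) H) b).toRingHom
  have hA : ∀ (h : H) (x : A), (el h : Zg H) • x = a h x := by
    intro h x
    change ((MonoidAlgebra.lift ℤ (AddMonoid.End A) H) a (el h)) x = a h x
    rw [el, MonoidAlgebra.lift_single, one_smul]
  have hB : ∀ (h : H) (y : B), (el h : Zg H) • y = b h y := by
    intro h y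
    change ((MonoidAlgebra.lift ℤ (AddMonoid.End B) H) b (el h)) y = b h y
    rw [el, MonoidAlgebra.lift_single, one_smul]
  let πL : A →ₗ[Zg H] B :=
    { toFun := π
      map_add' := π.map_add
      map_smul' := fun y x => LiftD2_lin π (fun h x => by rw [hA, hB, hπ]) y x }
  obtain ⟨f', h1, h2⟩ := lift_D H w πL f (fun h r => by rw [hf, hB]) hr
  exact ⟨f', fun h r => by rw [h1, hA], h2⟩

end PDT
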