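import Pool.Agent.Lib.PDT.Base
import Pool.Agent.Lib.PDT.LiftP
import Pool.Agent.Lib.PDT.LiftD
import Pool.Agent.Lib.PDT.LiftD2

/-!
# PDT/Pack2: the full homotopy equivalence of a ℤ[H]-resolution with the dual resolution

ADAPTATION of the proved file `PDT/Pack` (read its header; the maps `b0, b1, a0, α1, α2, s, β` are constructed there; copy its
proof and its private lemmas).  In addition to the conclusions of `package` there are: `β1 = b1` with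
`(β f : P1) = β1 (f ∘ d2)` (definition of `β`), and homotopies `t1, t2` for the other composition.

Complete proof of the additional part.  Write `D_i` for the functionals on `Q_i`, `δ_i` for the precomposition with `d_i`.
All maps are constructed with `lift_D2` with the actions `(twHom w).comp H.subtype`; the precompositions are equivariant.
`t3 : D_3 → D_2` with `(t3 r) ∘ d3 = a0 (b0 r) - r`: `e (a0 (b0 r) - r) = εP (b0 r) - e r = 0`, so the right side is in the range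
(`e_ker`).  `t2 : D_2 → D_1` with `(t2 r) ∘ d2 = α1 (b1 r) - r - t3 (r ∘ d3)`: composing the right side with `d3`:
`a0 (d (b1 r)) - r ∘ d3 - (t3 (r ∘ d3)) ∘ d3 = a0 (b0 (r ∘ d3)) - r ∘ d3 - (a0 (b0 (r ∘ d3)) - r ∘ d3) = 0`; use `dual2`.
`t1 : D_1 → D_0` with `(t1 r) ∘ d1 = α2 (β r) - r - t2 (r ∘ d2)`: composing the right side with `d2`:
`α1 (β r) - r ∘ d2 - (t2 (r ∘ d2)) ∘ d2 = α1 (b1 (r ∘ d2)) - r ∘ d2 - (α1 (b1 (r ∘ d2)) - r ∘ d2 - t3 (r ∘ d2 ∘ d3)) = 0`; use `dual1`.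
-/

namespace PDT

open Function

universe u

private theorem Pack2_lin {H A B : Type*} [Group H] [AddCommGroup A] [AddCommGroup B]
    [Module (Zg H) A] [Module (Zg H) B] (g : A →+ B)
    (hg : ∀ (h : H) (x : A), g (el h • x) = el h • g x) (y : Zg H) :
    ∀ x : A, g (y • x) = y • g x := by
  refine Zg.ind (P := fun y => ∀ x : A, g (y • x) = y • g x) y ?_ ?_ ?_ ?_
  · intro x
    rw [zero_smul, zero_smul, map_zero]
  · intro h x
    exact hg h x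
  · intro y z hy hz x
    rw [add_smul, add_smul, map_add, hy, hz]
  · intro y hy x
    rw [neg_smul, neg_smul, map_neg, hy]

/-- precomposition -/
private noncomputable def Pack2_pre {G : Type*} [Group G] {Q Q' : Type*} [AddCommGroup Q]
    [AddCommGroup Q'] [Module (Zg G) Q] [Module (Zg G) Q'] (d : Q →ₗ[Zg G] Q') :
    (Q' →ₗ[Zg G] Zg G) →+ (Q →ₗ[Zg G] Zg G) where
  toFun f := f ∘ₗ d
  map_zero' := by
    apply LinearMap.ext
    intro q
    rfl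
  map_add' a b := by
    apply LinearMap.ext
    intro q
    rfl

private theorem Pack2_pre_apply {G : Type*} [Group G] {Q Q' : Type*} [AddCommGroup Q]
    [AddCommGroup Q'] [Module (Zg G) Q] [Module (Zg G) Q'] (d : Q →ₗ[Zg G] Q')
    (f : Q' →ₗ[Zg G] Zg G) : Pack2_pre d f = f ∘ₗ d := rfl

private theorem Pack2_tw_comp {G : Type*} [Group G] {Q Q' : Type*} [AddCommGroup Q]
    [AddCommGroup Q'] [Module (Zg G) Q] [Module (Zg G) Q'] (d : Q →ₗ[Zg G] Q') (w : G →* ℤˣ)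
    (x : G) (f : Q' →ₗ[Zg G] Zg G) : (tw w x f) ∘ₗ d = tw w x (f ∘ₗ d) := by
  apply LinearMap.ext
  intro q
  rfl

private theorem Pack2_tw_sub {G : Type*} [Group G] {Q : Type*} [AddCommGroup Q]
    [Module (Zg G) Q] (w : G →* ℤˣ) (x : G) (f g : Q →ₗ[Zg G] Zg G) :
    tw w x (f - g) = tw w x f - tw w x g := map_sub (twHom w x) f g

theorem package2 {G : Type u} [Group G] (R : Res G) (H : Subgroup G) (w : G →* ℤˣ)
    (hw : ∀ (x : G) (f : R.Q3 →ₗ[Zg G] Zg G), R.e (tw w x f) = R.e f) {P0 P1 : Type*}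
    [AddCommGroup P0] [AddCommGroup P1] [Module (Zg H) P0] [Module (Zg H) P1]
    [Module.Projective (Zg H) P0] [Module.Projective (Zg H) P1] (εP : P0 →+ ℤ)
    (hε : ∀ (h : H) (p : P0), εP (el h • p) = εP p) (hs : Surjective εP) (d : P1 →ₗ[Zg H] P0)
    (hex : ∀ p : P0, εP p = 0 ↔ ∃ q, d q = p)
    (hproj : Module.Projective (Zg H) (LinearMap.ker d)) :
    ∃ (α1 : P1 →+ (R.Q2 →ₗ[Zg G] Zg G)) (α2 : LinearMap.ker d →+ (R.Q1 →ₗ[Zg G] Zg G))
      (β1 : (R.Q2 →ₗ[Zg G] Zg G) →+ P1)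
      (β : (R.Q1 →ₗ[Zg G] Zg G) →+ LinearMap.ker d) (s : P1 →ₗ[Zg H] LinearMap.ker d)
      (t1 : (R.Q1 →ₗ[Zg G] Zg G) →+ (R.Q0 →ₗ[Zg G] Zg G))
      (t2 : (R.Q2 →ₗ[Zg G] Zg G) →+ (R.Q1 →ₗ[Zg G] Zg G)),
      (∀ (h : H) (p : P1), α1 (el h • p) = tw w (h : G) (α1 p)) ∧
      (∀ (h : H) (p : LinearMap.ker d), α2 (el h • p) = tw w (h : G) (α2 p)) ∧
      (∀ p : LinearMap.ker d, α2 p ∘ₗ R.d2 = α1 p) ∧
      (∀ (h : H) (f : R.Q2 →ₗ[Zg G] Zg G), β1 (tw w (h : G) f) = el h • β1 f) ∧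
      (∀ (h : H) (f : R.Q1 →ₗ[Zg G] Zg G), β (tw w (h : G) f) = el h • β f) ∧
      (∀ f : R.Q1 →ₗ[Zg G] Zg G, ((β f : LinearMap.ker d) : P1) = β1 (f ∘ₗ R.d2)) ∧
      (∀ f : R.Q0 →ₗ[Zg G] Zg G, β (f ∘ₗ R.d1) = 0) ∧
      (∀ p : LinearMap.ker d, β (α2 p) = p + s p) ∧
      (∀ (h : H) (f : R.Q1 →ₗ[Zg G] Zg G), t1 (tw w (h : G) f) = tw w (h : G) (t1 f)) ∧
      (∀ (h : H) (f : R.Q2 →ₗ[Zg G] Zg G), t2 (tw w (h : G) f) = tw w (h : G) (t2 f)) ∧
      (∀ f : R.Q1 →ₗ[Zg G] Zg G, α2 (β f) = f + t2 (f ∘ₗ R.d2) + (t1 f) ∘ₗ R.d1) := by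
  obtain ⟨e₀, he₀⟩ := hs 1
  have hεd : ∀ q, εP (d q) = 0 := fun q => (hex (d q)).2 ⟨q, rfl⟩
  -- (a)
  obtain ⟨b0, hb0, hb0'⟩ : ∃ b0 : (R.Q3 →ₗ[Zg G] Zg G) →+ P0,
      (∀ (h : H) (r : R.Q3 →ₗ[Zg G] Zg G), b0 (tw w (h : G) r) = el h • b0 r) ∧
      ∀ r, εP (b0 r) = R.e r := by
    let f0 : (R.Q3 →ₗ[Zg G] Zg G) →+ (P0 ⧸ LinearMap.range d) :=
      { toFun := fun r => (LinearMap.range d).mkQ (R.e r • e₀)
        map_zero' := by rw [map_zero, zero_smul, map_zero]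
        map_add' := fun a b => by rw [map_add, add_smul, map_add] }
    have hf0 : ∀ r, f0 r = (LinearMap.range d).mkQ (R.e r • e₀) := fun r => rfl
    obtain ⟨b0, h1, h2⟩ := lift_D H w (LinearMap.range d).mkQ f0 (fun h r => by
      rw [hf0, hf0, hw, ← map_smul]
      rw [← sub_eq_zero, ← map_sub, Submodule.mkQ_apply, Submodule.Quotient.mk_eq_zero]
      obtain ⟨q, hq⟩ := (hex (R.e r • e₀ - el h • R.e r • e₀)).1 (by
        rw [map_sub, hε, sub_self])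
      exact ⟨q, hq⟩) (fun r => (LinearMap.range d).mkQ_surjective _)
    refine ⟨b0, h1, fun r => ?_⟩
    have h3 := h2 r
    rw [hf0, ← sub_eq_zero, ← map_sub, Submodule.mkQ_apply, Submodule.Quotient.mk_eq_zero] at h3
    obtain ⟨q, hq⟩ := h3
    have h4 := hεd q
    rw [hq, map_sub, map_zsmul, he₀, smul_eq_mul, mul_one] at h4
    exact sub_eq_zero.1 h4
  -- (b)
  obtain ⟨b1, hb1, hb1'⟩ : ∃ b1 : (R.Q2 →ₗ[Zg G] Zg G) →+ P1,
      (∀ (h : H) (r : R.Q2 →ₗ[Zg G] Zg G), b1 (tw w (h : G) r) = el h • b1 r) ∧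
      ∀ r, d (b1 r) = b0 (r ∘ₗ R.d3) := by
    obtain ⟨b1, h1, h2⟩ := lift_D H w d (b0.comp (Pack2_pre R.d3)) (fun h r => by
      rw [AddMonoidHom.comp_apply, AddMonoidHom.comp_apply, Pack2_pre_apply, Pack2_pre_apply,
        Pack2_tw_comp, hb0]) (fun r => by
      rw [AddMonoidHom.comp_apply, Pack2_pre_apply]
      refine (hex _).1 ?_
      rw [hb0', (R.e_ker _).2 ⟨r, rfl⟩])
    exact ⟨b1, h1, h2⟩
  -- (c)
  obtain ⟨a0, ha0, ha0'⟩ : ∃ a0 : P0 →+ (R.Q3 →ₗ[Zg G] Zg G),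
      (∀ (h : H) (p : P0), a0 (el h • p) = tw w (h : G) (a0 p)) ∧
      ∀ p, R.e (a0 p) = εP p := by
    exact lift_P ((twHom w).comp H.subtype) (1 : H →* AddMonoid.End ℤ) R.e
      (fun h x => hw h x) εP (fun h p => hε h p) (fun p => R.e_surj _)
  -- (d)
  obtain ⟨α1, hα1, hα1'⟩ : ∃ α1 : P1 →+ (R.Q2 →ₗ[Zg G] Zg G),
      (∀ (h : H) (p : P1), α1 (el h • p) = tw w (h : G) (α1 p)) ∧
      ∀ p, (α1 p) ∘ₗ R.d3 = a0 (d p) := by
    exact lift_P ((twHom w).comp H.subtype) ((twHom w).comp H.subtype) (Pack2_pre R.d3)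
      (fun h x => Pack2_tw_comp R.d3 w h x) (a0.comp d.toAddMonoidHom) (fun h p => by
        change a0 (d (el h • p)) = tw w (h : G) (a0 (d p))
        rw [map_smul, ha0]) (fun p => by
        obtain ⟨x, hx⟩ := (R.e_ker (a0 (d p))).1 (by rw [ha0', hεd])
        exact ⟨x, hx.symm⟩)
  -- (e)
  obtain ⟨α2, hα2, hα2'⟩ : ∃ α2 : LinearMap.ker d →+ (R.Q1 →ₗ[Zg G] Zg G),
      (∀ (h : H) (p : LinearMap.ker d), α2 (el h • p) = tw w (h : G) (α2 p)) ∧
      ∀ p : LinearMap.ker d, (α2 p) ∘ₗ R.d2 = α1 p := by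
    have := hproj
    exact lift_P ((twHom w).comp H.subtype) ((twHom w).comp H.subtype) (Pack2_pre R.d2)
      (fun h x => Pack2_tw_comp R.d2 w h x) (α1.comp (LinearMap.ker d).subtype.toAddMonoidHom)
      (fun h p => by
        change α1 (el h • (p : P1)) = tw w (h : G) (α1 p)
        rw [hα1]) (fun p => by
        obtain ⟨x, hx⟩ := R.dual2 (α1 p) (by
          rw [hα1', LinearMap.mem_ker.1 p.2, map_zero])
        exact ⟨x, hx.symm⟩)
  -- (f)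
  obtain ⟨s0, hs0⟩ : ∃ s0 : P0 →ₗ[Zg H] P1, ∀ p, d (s0 p) = b0 (a0 p) - p := by
    let k : P0 →+ P0 := b0.comp a0 - AddMonoidHom.id P0
    have hk : ∀ p, k p = b0 (a0 p) - p := fun p => rfl
    let kL : P0 →ₗ[Zg H] P0 :=
      { toFun := k
        map_add' := k.map_add
        map_smul' := fun y x => Pack2_lin k (fun h x => by
          rw [hk, hk, ha0, hb0, smul_sub]) y x }
    have hkL : ∀ p, kL p = b0 (a0 p) - p := fun p => rfl
    have hmem : ∀ p, kL p ∈ LinearMap.range d := by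
      intro p
      obtain ⟨q, hq⟩ := (hex (kL p)).1 (by rw [hkL, map_sub, hb0', ha0', sub_self])
      exact ⟨q, hq⟩
    obtain ⟨g, hg⟩ := Module.projective_lifting_property d.rangeRestrict
      (kL.codRestrict (LinearMap.range d) hmem) d.surjective_rangeRestrict
    refine ⟨g, fun p => ?_⟩
    have h1 := congrArg Subtype.val (LinearMap.congr_fun hg p)
    exact h1
  -- (g)
  have hdt : ∀ p, d (b1 (α1 p) - p - s0 (d p)) = 0 := by
    intro p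
    rw [map_sub, map_sub, hb1', hα1', hs0, sub_self]
  let t : P1 →+ P1 := b1.comp α1 - AddMonoidHom.id P1 - (s0 ∘ₗ d).toAddMonoidHom
  have ht : ∀ p, t p = b1 (α1 p) - p - s0 (d p) := fun p => rfl
  let tL : P1 →ₗ[Zg H] P1 :=
    { toFun := t
      map_add' := t.map_add
      map_smul' := fun y x => Pack2_lin t (fun h x => by
        rw [ht, ht, hα1, hb1, map_smul, map_smul, smul_sub, smul_sub]) y x }
  let s : P1 →ₗ[Zg H] LinearMap.ker d :=
    tL.codRestrict (LinearMap.ker d) (fun p => LinearMap.mem_ker.2 (hdt p))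
  have hsv : ∀ p, ((s p : LinearMap.ker d) : P1) = b1 (α1 p) - p - s0 (d p) := fun p => rfl
  -- (h)
  have h23 : ∀ f : R.Q1 →ₗ[Zg G] Zg G, (f ∘ₗ R.d2) ∘ₗ R.d3 = 0 := by
    intro f
    apply LinearMap.ext
    intro q
    change f (R.d2 (R.d3 q)) = 0
    rw [(R.ex2 _).2 ⟨q, rfl⟩, map_zero]
  have h12 : ∀ f : R.Q0 →ₗ[Zg G] Zg G, (f ∘ₗ R.d1) ∘ₗ R.d2 = 0 := by
    intro f
    apply LinearMap.ext
    intro q
    change f (R.d1 (R.d2 q)) = 0
    rw [(R.ex1 _).2 ⟨q, rfl⟩, map_zero]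
  let β : (R.Q1 →ₗ[Zg G] Zg G) →+ LinearMap.ker d :=
    { toFun := fun f => ⟨b1 (f ∘ₗ R.d2), by rw [LinearMap.mem_ker, hb1', h23, map_zero]⟩
      map_zero' := by
        apply Subtype.ext
        change b1 (Pack2_pre R.d2 0) = 0
        rw [map_zero, map_zero]
      map_add' := fun a b => by
        apply Subtype.ext
        change b1 (Pack2_pre R.d2 (a + b)) = b1 (Pack2_pre R.d2 a) + b1 (Pack2_pre R.d2 b)
        rw [map_add, map_add] }
  have hβ : ∀ f, ((β f : LinearMap.ker d) : P1) = b1 (f ∘ₗ R.d2) := fun f => rfl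
  have hβe : ∀ (h : H) (f : R.Q1 →ₗ[Zg G] Zg G), β (tw w (h : G) f) = el h • β f := by
    intro h f
    apply Subtype.ext
    rw [hβ, Submodule.coe_smul, hβ, Pack2_tw_comp, hb1]
  -- the homotopies of the other composition
  obtain ⟨t3, ht3, ht3'⟩ : ∃ t3 : (R.Q3 →ₗ[Zg G] Zg G) →+ (R.Q2 →ₗ[Zg G] Zg G),
      (∀ (h : H) (r : R.Q3 →ₗ[Zg G] Zg G), t3 (tw w (h : G) r) = tw w (h : G) (t3 r)) ∧
      ∀ r, (t3 r) ∘ₗ R.d3 = a0 (b0 r) - r := by
    let F : (R.Q3 →ₗ[Zg G] Zg G) →+ (R.Q3 →ₗ[Zg G] Zg G) := a0.comp b0 - AddMonoidHom.id _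
    have hF : ∀ r, F r = a0 (b0 r) - r := fun r => rfl
    exact lift_D2 H w ((twHom w).comp H.subtype) ((twHom w).comp H.subtype) (Pack2_pre R.d3)
      (fun h x => Pack2_tw_comp R.d3 w h x) F (fun h r => by
        change F (tw w (h : G) r) = tw w (h : G) (F r)
        rw [hF, hF, hb0, ha0, Pack2_tw_sub]) (fun r => by
        obtain ⟨x, hx⟩ := (R.e_ker (F r)).1 (by rw [hF, map_sub, ha0', hb0', sub_self])
        exact ⟨x, hx.symm⟩)
  obtain ⟨t2, ht2, ht2'⟩ : ∃ t2 : (R.Q2 →ₗ[Zg G] Zg G) →+ (R.Q1 →ₗ[Zg G] Zg G),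
      (∀ (h : H) (r : R.Q2 →ₗ[Zg G] Zg G), t2 (tw w (h : G) r) = tw w (h : G) (t2 r)) ∧
      ∀ r, (t2 r) ∘ₗ R.d2 = α1 (b1 r) - r - t3 (r ∘ₗ R.d3) := by
    let F : (R.Q2 →ₗ[Zg G] Zg G) →+ (R.Q2 →ₗ[Zg G] Zg G) :=
      α1.comp b1 - AddMonoidHom.id _ - t3.comp (Pack2_pre R.d3)
    have hF : ∀ r, F r = α1 (b1 r) - r - t3 (r ∘ₗ R.d3) := fun r => rfl
    exact lift_D2 H w ((twHom w).comp H.subtype) ((twHom w).comp H.subtype) (Pack2_pre R.d2)
      (fun h x => Pack2_tw_comp R.d2 w h x) F (fun h r => by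
        change F (tw w (h : G) r) = tw w (h : G) (F r)
        rw [hF, hF, hb1, hα1, Pack2_tw_comp, ht3, Pack2_tw_sub, Pack2_tw_sub]) (fun r => by
        obtain ⟨x, hx⟩ := R.dual2 (F r) (by
          rw [hF]
          change Pack2_pre R.d3 (α1 (b1 r) - r - t3 (r ∘ₗ R.d3)) = 0
          rw [map_sub, map_sub, Pack2_pre_apply, Pack2_pre_apply, Pack2_pre_apply, hα1', hb1',
            ht3', sub_self])
        exact ⟨x, hx.symm⟩)
  obtain ⟨t1, ht1, ht1'⟩ : ∃ t1 : (R.Q1 →ₗ[Zg G] Zg G) →+ (R.Q0 →ₗ[Zg G] Zg G),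
      (∀ (h : H) (r : R.Q1 →ₗ[Zg G] Zg G), t1 (tw w (h : G) r) = tw w (h : G) (t1 r)) ∧
      ∀ r, (t1 r) ∘ₗ R.d1 = α2 (β r) - r - t2 (r ∘ₗ R.d2) := by
    let F : (R.Q1 →ₗ[Zg G] Zg G) →+ (R.Q1 →ₗ[Zg G] Zg G) :=
      α2.comp β - AddMonoidHom.id _ - t2.comp (Pack2_pre R.d2)
    have hF : ∀ r, F r = α2 (β r) - r - t2 (r ∘ₗ R.d2) := fun r => rfl
    exact lift_D2 H w ((twHom w).comp H.subtype) ((twHom w).comp H.subtype) (Pack2_pre R.d1)
      (fun h x => Pack2_tw_comp R.d1 w h x) F (fun h r => by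
        change F (tw w (h : G) r) = tw w (h : G) (F r)
        rw [hF, hF, hβe, hα2, Pack2_tw_comp, ht2, Pack2_tw_sub, Pack2_tw_sub]) (fun r => by
        obtain ⟨x, hx⟩ := R.dual1 (F r) (by
          rw [hF]
          change Pack2_pre R.d2 (α2 (β r) - r - t2 (r ∘ₗ R.d2)) = 0
          rw [map_sub, map_sub, Pack2_pre_apply, Pack2_pre_apply, Pack2_pre_apply, hα2', ht2', h23,
            map_zero, hβ]
          abel)
        exact ⟨x, hx.symm⟩)
  refine ⟨α1, α2, b1, β, s, t1, t2, hα1, hα2, hα2', hb1, hβe, hβ, fun f => ?_, fun p => ?_, ht1,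
    ht2, fun f => ?_⟩
  · apply Subtype.ext
    rw [hβ, h12, map_zero]
    rfl
  · apply Subtype.ext
    rw [hβ, hα2', Submodule.coe_add, hsv, LinearMap.mem_ker.1 p.2, map_zero]
    abel
  · rw [ht1']
    abel

end PDT
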