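import Pool.Agent.Lib.PDT.Base6
import Pool.Agent.Lib.PDT.Univ
import Pool.Agent.Lib.PDT.DerCo
import Pool.Agent.Lib.PDT.Pack2
import Pool.Agent.Lib.PDT.CocOf
import Pool.Agent.Lib.PDT.CocCo
import Pool.Agent.Lib.PDT.ABMaps
import Pool.Agent.Lib.PDT.BNat
import Pool.Agent.Lib.PDT.NuOf

/-!
# PDT/Hom2: the second homology of `H` and the almost invariant functions on `G`

Assembly.
-/

namespace PDT

open Function

universe u

/-- An augmentation of `Q0` through the group ring. -/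
theorem exists_mu {G : Type u} [Group G] (R : Res G) :
    ∃ μ0 : R.Q0 →ₗ[Zg G] Zg G, ∀ u, aug (μ0 u) = R.ε u := by
  have hεs : ∀ (y : Zg G) (q : R.Q0), R.ε (y • q) = aug y * R.ε q := by
    intro y q
    induction y using Zg.ind with
    | h0 => simp
    | hel g => rw [R.ε_el, aug_el, one_mul]
    | hadd a b ha hb => rw [add_smul, map_add, ha, hb, map_add, add_mul]
    | hneg a ha => rw [neg_smul, map_neg, ha, map_neg, neg_mul]
  obtain ⟨n, e, f, hef⟩ := dualBasis (G := G) R.Q0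
  refine ⟨∑ i, (R.ε (e i)) • f i, fun q => ?_⟩
  rw [LinearMap.sum_apply, map_sum]
  conv_rhs => rw [hef q]
  rw [map_sum]
  refine Finset.sum_congr rfl fun i _ => ?_
  rw [LinearMap.smul_apply, map_zsmul, hεs, smul_eq_mul, mul_comm]

theorem hom2 {G : Type u} [Group G] (R : Res G) (H : Subgroup G) (w : G →* ℤˣ)
    (hw : ∀ (x : G) (f : R.Q3 →ₗ[Zg G] Zg G), R.e (tw w x f) = R.e f) (hwH : ∀ h : H, w h = 1)
    {a0 a1 : ℕ} (εP : (Fin a0 → Zg H) →+ ℤ)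
    (hε : ∀ (h : H) (p : Fin a0 → Zg H), εP (el h • p) = εP p) (hs : Surjective εP)
    (d : (Fin a1 → Zg H) →ₗ[Zg H] (Fin a0 → Zg H))
    (hex : ∀ p : Fin a0 → Zg H, εP p = 0 ↔ ∃ q, d q = p)
    (hproj : Module.Projective (Zg H) (LinearMap.ker d))
    (hfin : Module.Finite (Zg H) (LinearMap.ker d)) (S : Finset G) :
    ∃ (E : Set (G ⧸ H)) (Bc : ∀ (M : Type u) [AddCommGroup M], (H →* Module.End ℤ M) →
      (G → M) → (LinearMap.ker d →ₗ[Zg H] Zg H) → M), E.Finite ∧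
    (∀ (M : Type u) [AddCommGroup M] (L : H →* Module.End ℤ M) (ν ν' : G → M),
      IsT H L ν → IsT H L ν' → ∀ ξ, Bc M L (ν + ν') ξ = Bc M L ν ξ + Bc M L ν' ξ) ∧
    (∀ (M : Type u) [AddCommGroup M] (L : H →* Module.End ℤ M) (ν : G → M),
      IsT H L ν → ∀ ξ ξ', Bc M L ν (ξ + ξ') = Bc M L ν ξ + Bc M L ν ξ') ∧
    (∀ (M : Type u) [AddCommGroup M] (L : H →* Module.End ℤ M) (ν : G → M),
      IsT H L ν → ∀ (h : H) ξ, Bc M L ν (dl h ξ) = L h (Bc M L ν ξ)) ∧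
    (∀ (M : Type u) [AddCommGroup M] (L : H →* Module.End ℤ M) (ν : G → M),
      IsT H L ν → ∀ ξ' : (Fin a1 → Zg H) →ₗ[Zg H] Zg H,
        Bc M L ν (ξ' ∘ₗ (LinearMap.ker d).subtype) = 0) ∧
    (∀ (M : Type u) [AddCommGroup M] (L : H →* Module.End ℤ M) (ν : G → M),
      IsT H L ν → ((∀ ξ, Bc M L ν ξ = 0) ↔
        ∃ m0 : M, (∀ h, L h m0 = m0) ∧ HF H {g | ν g ≠ m0})) ∧
    (∀ (M M' : Type u) [AddCommGroup M] [AddCommGroup M'] (L : H →* Module.End ℤ M)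
      (L' : H →* Module.End ℤ M') (a : M →+ M'), (∀ h m, a (L h m) = L' h (a m)) →
      ∀ ν : G → M, IsT H L ν → ∀ ξ, Bc M' L' (fun g => a (ν g)) ξ = a (Bc M L ν ξ)) ∧
    (∀ (M : Type u) [AddCommGroup M] (L : H →* Module.End ℤ M),
      (∀ δ : H → M, (∀ x y, δ (x * y) = δ x + L x (δ y)) → ∃ μ, ∀ x, δ x = L x μ - μ) →
      ∀ φ : (LinearMap.ker d →ₗ[Zg H] Zg H) →+ M, (∀ (h : H) ξ, φ (dl h ξ) = L h (φ ξ)) →
        (∀ ξ' : (Fin a1 → Zg H) →ₗ[Zg H] Zg H, φ (ξ' ∘ₗ (LinearMap.ker d).subtype) = 0) →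
        ∃ ν : G → M, IsT H L ν ∧ (∀ s ∈ S, ∀ g : G, ν (s⁻¹ * g) ≠ ν g → (g : G ⧸ H) ∈ E) ∧
          ∀ ξ, Bc M L ν ξ = φ ξ) := by
  classical
  obtain ⟨α1, α2, β1, β, s, t1, t2, hα1, hα2, hα12, hβ1, hβ, hββ, hβ0, hβα, ht1, ht2, hαβ⟩ :=
    package2 R H w hw εP hε hs d hex hproj
  obtain ⟨μ0, hμ0⟩ := exists_mu R
  obtain ⟨u0, hu0⟩ := R.ε_surj 1
  obtain ⟨k, e, f, hef⟩ := dualBasis (G := H) (LinearMap.ker d)
  obtain ⟨E, hE, hν⟩ := nu_of R H w hwH S u0 hu0 fun i => α2 (e i)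
  have hAB := fun (M : Type u) (iM : AddCommGroup M) (L : H →* Module.End ℤ M) =>
    @ab_maps G _ R H w a0 a1 d α1 α2 β1 β s t1 t2 hα1 hα2 hα12 hβ1 hβ hββ hβ0 hβα ht1 ht2 hαβ
      k e f hef M iM L
  choose B hB1 hB2 hB3 hB4 hB5 hB6 hB7 using hAB
  let Bc : ∀ (M : Type u) [AddCommGroup M], (H →* Module.End ℤ M) → (G → M) →
      (LinearMap.ker d →ₗ[Zg H] Zg H) → M := fun M iM L ν =>
    if h : IsT H L ν then B M iM L (coc_of R H w hwH μ0 hμ0 L ν h).choose else 0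
  have hBc : ∀ (M : Type u) [iM : AddCommGroup M] (L : H →* Module.End ℤ M) (ν : G → M)
      (h : IsT H L ν), ∃ c : R.Q1 →ₗ[Zg G] Ind H w L,
      (∀ q g, (c q : G → M) g = zl (fun x => ν (x⁻¹ * g)) (μ0 (R.d1 q))) ∧ c ∘ₗ R.d2 = 0 ∧
      Bc M L ν = B M iM L c := by
    intro M iM L ν h
    obtain ⟨h1, h2⟩ := (coc_of R H w hwH μ0 hμ0 L ν h).choose_spec
    exact ⟨_, h1, h2, dif_pos h⟩
  have huniq : ∀ (M : Type u) [iM : AddCommGroup M] (L : H →* Module.End ℤ M) (ν : G → M)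
      (c c' : R.Q1 →ₗ[Zg G] Ind H w L),
      (∀ q g, (c q : G → M) g = zl (fun x => ν (x⁻¹ * g)) (μ0 (R.d1 q))) →
      (∀ q g, (c' q : G → M) g = zl (fun x => ν (x⁻¹ * g)) (μ0 (R.d1 q))) → c = c' := by
    intro M iM L ν c c' h h'
    apply LinearMap.ext
    intro q
    apply Subtype.ext
    funext g
    rw [h, h']
  have hzadd : ∀ (M : Type u) [iM : AddCommGroup M] (F F' : G → M) (y : Zg G),
      zl (fun x => F x + F' x) y = zl F y + zl F' y := by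
    intro M iM F F' y
    have h : zl (fun x => F x + F' x) = zl F + zl F' := by
      apply zhom_ext
      intro g
      simp
    exact DFunLike.congr_fun h y
  refine ⟨E, Bc, hE, ?_, ?_, ?_, ?_, ?_, ?_, ?_⟩
  · -- additivity
    intro M _ L ν ν' h h' ξ
    have h'' : IsT H L (ν + ν') := by
      refine ⟨fun g k => ?_, fun x => ?_⟩
      · rw [Pi.add_apply, Pi.add_apply, h.1, h'.1, map_add]
      · refine ((h.2 x).union (h'.2 x)).mono ?_
        intro g hg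
        by_contra hc
        rw [Set.mem_union, not_or, Set.mem_setOf_eq, Set.mem_setOf_eq, not_not, not_not] at hc
        apply hg
        rw [Pi.add_apply, Pi.add_apply, hc.1, hc.2]
    obtain ⟨c, h1, -, h3⟩ := hBc M L ν h
    obtain ⟨c', h1', -, h3'⟩ := hBc M L ν' h'
    obtain ⟨c'', h1'', -, h3''⟩ := hBc M L (ν + ν') h''
    have : c'' = c + c' := by
      apply LinearMap.ext
      intro q
      apply Subtype.ext
      funext g
      rw [h1'', LinearMap.add_apply, Submodule.coe_add, Pi.add_apply, h1, h1', ← hzadd]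
      rfl
    rw [h3, h3', h3'', this, map_add, Pi.add_apply]
  · intro M _ L ν h ξ ξ'
    obtain ⟨c, -, -, h3⟩ := hBc M L ν h
    rw [h3]
    exact hB2 M _ L c ξ ξ'
  · intro M _ L ν h k ξ
    obtain ⟨c, -, -, h3⟩ := hBc M L ν h
    rw [h3]
    exact hB3 M _ L c k ξ
  · intro M _ L ν h ξ'
    obtain ⟨c, -, h2, h3⟩ := hBc M L ν h
    rw [h3]
    exact hB5 M _ L c h2 ξ'
  · intro M _ L ν h
    obtain ⟨c, h1, h2, h3⟩ := hBc M L ν h
    rw [h3]
    constructor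
    · intro h0
      obtain ⟨b, hb⟩ := hB6 M _ L c h2 (funext h0)
      exact const_of_coc R H w hwH μ0 hμ0 L ν h c h1 b hb
    · rintro ⟨m0, hm0, hfin⟩ ξ
      obtain ⟨b, hb⟩ := coc_of_ind R H w hwH μ0 hμ0 L ν h m0 hm0 hfin c h1
      rw [hb, hB4]
      rfl
  · intro M M' _ _ L L' a ha ν h ξ
    have h' : IsT H L' fun g => a (ν g) := by
      refine ⟨fun g k => ?_, fun x => ?_⟩
      · beta_reduce
        rw [h.1, ha]
      · refine (h.2 x).mono ?_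
        intro g hg h2
        apply hg
        beta_reduce
        rw [h2]
    obtain ⟨c, h1, -, h3⟩ := hBc M L ν h
    obtain ⟨c', h1', -, h3'⟩ := hBc M' L' _ h'
    rw [h3, h3']
    refine b_nat H w L L' a ha (fun r ξ => ξ (β r)) (B M _ L) (hB1 M _ L) (B M' _ L')
      (hB1 M' _ L') c c' ?_ ξ
    intro q g
    rw [h1', h1]
    have h4 : zl (fun x => a (ν (x⁻¹ * g))) = a.comp (zl fun x => ν (x⁻¹ * g)) := by
      apply zhom_ext
      intro x
      simp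
    rw [h4]
    rfl
  · intro M _ L hH1 φ hφ hφ0
    obtain ⟨h1, h2⟩ := hB7 M _ L φ hφ hφ0
    obtain ⟨ν, hT, hEν, hq⟩ := hν M L hH1 (fun i => φ (f i)) h1
    refine ⟨ν, hT, hEν, fun ξ => ?_⟩
    obtain ⟨c, h3, -, h5⟩ := hBc M L ν hT
    obtain ⟨b, hb⟩ := coc_cohom R H w hwH μ0 hμ0 L ν hT c h3 _ h1 u0 hu0 hq
    rw [h5, ← h2, hb, map_add, hB4, add_zero]

end PDT
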