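import Pool.Agent.Lib.PDT.Base5
import Pool.Agent.Lib.PDT.LiftP

/-!
# PDT/HomotX: a chain map from a resolution to itself with coefficients in ℤ[X] is homotopic to a scalar

`P2 → P1 → P0 → ℤ` a projective resolution (`0 → P2` exact), `χ_j : P_j → (X →₀ P_j)` an equivariant chain map.

Complete proof.  Choose `e` with `ε e = 1` and put `m x = ε (χ0 e x)` (`m = Finsupp.mapRange ε`, finitely supported).
For `p : P0`: `ε (p - ε(p) • e) = 0`, so `p - ε(p) • e = d1 q` and `χ0 (d1 q) x = d1 (χ1 q x)`, on which `ε` is zero: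
`ε (χ0 p x) = ε(p) m(x)`.  `m (k • x) = m x`: `χ0 (el k • e) (k • x) = el k • χ0 e x`, so
`m(x) = ε (χ0 e x) = ε (χ0 (el k • e) (k • x)) = ε (el k • e) m (k • x) = m (k • x)`.
For a `K`-module `A` the group `K` acts on `X →₀ A` by `(k·F)(x) = el k • F (k⁻¹ • x)` (a homomorphism
`K →* AddMonoid.End (X →₀ A)`).  `s0 : P0 → (X →₀ P1)` equivariant with `d1 (s0 p x) = χ0 p x - m x • p`: `lift_P` with
`π = Finsupp.mapRange d1 : (X →₀ P1) → (X →₀ P0)` and `f p = χ0 p - (x ↦ m x • p)`, equivariant by the invariance of `m`; each value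
`f p x` is killed by `ε`, hence in the range of `d1` (choose preimages for the finitely many `x` in the support).
`s1 : P1 → (X →₀ P2)` with `d2 (s1 p x) = χ1 p x - m x • p - s0 (d1 p) x`: `lift_P`; the right side is killed by `d1`:
`d1 (χ1 p x) = χ0 (d1 p) x`, `d1 (s0 (d1 p) x) = χ0 (d1 p) x - m x • d1 p`; use `ex1`.
For `p : P2`: `d2 (χ2 p x - m x • p - s1 (d2 p) x) = χ1 (d2 p) x - m x • d2 p - (χ1 (d2 p) x - m x • d2 p - s0 (d1 (d2 p)) x) = 0`
(`d1 (d2 p) = 0`), and `d2` is injective.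
-/

namespace PDT

open Function

private theorem HomotX_act {K X A : Type*} [Group K] [MulAction K X] [AddCommGroup A]
    [Module (Zg K) A] :
    ∃ a : K →* AddMonoid.End (X →₀ A), ∀ (k : K) (F : X →₀ A) (x : X),
      (a k F) x = el k • F (k⁻¹ • x) := by
  refine ⟨{ toFun := fun k =>
              { toFun := fun F => Finsupp.mapRange (fun y : A => (el k : Zg K) • y) (smul_zero _)
                  (Finsupp.equivMapDomain (MulAction.toPerm k) F)
                map_zero' := ?_
                map_add' := ?_ }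
            map_one' := ?_
            map_mul' := ?_ }, ?_⟩
  · apply Finsupp.ext
    intro x
    rw [Finsupp.mapRange_apply, Finsupp.equivMapDomain_apply, Finsupp.zero_apply,
      Finsupp.zero_apply, smul_zero]
  · intro F F'
    apply Finsupp.ext
    intro x
    rw [Finsupp.mapRange_apply, Finsupp.equivMapDomain_apply, Finsupp.add_apply,
      Finsupp.add_apply, Finsupp.mapRange_apply, Finsupp.mapRange_apply,
      Finsupp.equivMapDomain_apply, Finsupp.equivMapDomain_apply, smul_add]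
  · apply AddMonoidHom.ext
    intro F
    apply Finsupp.ext
    intro x
    change el (1 : K) • F ((MulAction.toPerm (1 : K)).symm x) = F x
    rw [MulAction.toPerm_symm_apply, inv_one, one_smul, el_one, one_smul]
  · intro k k'
    apply AddMonoidHom.ext
    intro F
    apply Finsupp.ext
    intro x
    change el (k * k') • F ((MulAction.toPerm (k * k')).symm x) =
      el k • (el k' • F ((MulAction.toPerm k').symm ((MulAction.toPerm k).symm x)))
    rw [MulAction.toPerm_symm_apply, MulAction.toPerm_symm_apply, MulAction.toPerm_symm_apply,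
      mul_inv_rev, mul_smul, el_mul, mul_smul]
  · intro k F x
    change el k • F ((MulAction.toPerm k).symm x) = _
    rw [MulAction.toPerm_symm_apply]

private theorem HomotX_mul {X P : Type*} [AddCommGroup P] (m : X →₀ ℤ) :
    ∃ M : P →+ (X →₀ P), ∀ p x, M p x = m x • p := by
  refine ⟨{ toFun := fun p => Finsupp.mapRange (fun n : ℤ => n • p) (zero_smul ℤ p) m
            map_zero' := ?_
            map_add' := ?_ }, ?_⟩
  · apply Finsupp.ext
    intro x
    rw [Finsupp.mapRange_apply, smul_zero, Finsupp.zero_apply]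
  · intro p q
    apply Finsupp.ext
    intro x
    rw [Finsupp.mapRange_apply, Finsupp.add_apply, Finsupp.mapRange_apply,
      Finsupp.mapRange_apply, smul_add]
  · intro p x
    change (Finsupp.mapRange (fun n : ℤ => n • p) (zero_smul ℤ p) m) x = _
    rw [Finsupp.mapRange_apply]

private theorem HomotX_pre {X A B : Type*} [AddCommGroup A] [AddCommGroup B] (g : A →+ B)
    (F : X →₀ B) (h : ∀ x, ∃ a, g a = F x) : ∃ F' : X →₀ A, ∀ x, g (F' x) = F x := by
  classical
  have hs : ∃ s : B → A, s 0 = 0 ∧ ∀ b, (∃ a, g a = b) → g (s b) = b := by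
    refine ⟨fun b => if b = 0 then 0 else if hb : ∃ a, g a = b then hb.choose else 0, ?_, ?_⟩
    · exact if_pos rfl
    · intro b hb
      by_cases h0 : b = 0
      · simp only [if_pos h0, map_zero]
        exact h0.symm
      · simp only [if_neg h0, dif_pos hb]
        exact hb.choose_spec
  obtain ⟨s, hs0, hs⟩ := hs
  refine ⟨Finsupp.mapRange s hs0 F, fun x => ?_⟩
  rw [Finsupp.mapRange_apply]
  exact hs _ (h x)

/-- One lifting step: a homomorphism `f : P → (X →₀ B)` with values in the range of `d` lifts. -/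
private theorem HomotX_lift {K X P A B : Type*} [Group K] [MulAction K X] [AddCommGroup P]
    [Module (Zg K) P] [Module.Projective (Zg K) P] [AddCommGroup A] [Module (Zg K) A]
    [AddCommGroup B] [Module (Zg K) B] (d : A →ₗ[Zg K] B) (f : P →+ (X →₀ B))
    (hf : ∀ (k : K) p x, f (el k • p) x = el k • f p (k⁻¹ • x))
    (hr : ∀ p x, ∃ a, d a = f p x) :
    ∃ s : P →+ (X →₀ A), (∀ (k : K) p x, s (el k • p) x = el k • s p (k⁻¹ • x)) ∧
      ∀ p x, d (s p x) = f p x := by
  obtain ⟨a, ha⟩ := HomotX_act (K := K) (X := X) (A := A)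
  obtain ⟨b, hb⟩ := HomotX_act (K := K) (X := X) (A := B)
  have hpi : ∀ (F : X →₀ A) (x : X),
      (Finsupp.mapRange.addMonoidHom d.toAddMonoidHom F) x = d (F x) := by
    intro F x
    rw [Finsupp.mapRange.addMonoidHom_apply, Finsupp.mapRange_apply]
    rfl
  obtain ⟨s, hs1, hs2⟩ := lift_P a b (Finsupp.mapRange.addMonoidHom d.toAddMonoidHom)
    (by
      intro k F
      apply Finsupp.ext
      intro x
      rw [hpi, ha, hb, hpi, map_smul])
    f
    (by
      intro k p
      apply Finsupp.ext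
      intro x
      rw [hb, hf])
    (by
      intro p
      obtain ⟨F, hF⟩ := HomotX_pre d.toAddMonoidHom (f p) (hr p)
      refine ⟨F, ?_⟩
      apply Finsupp.ext
      intro x
      rw [hpi]
      exact hF x)
  refine ⟨s, fun k p x => ?_, fun p x => ?_⟩
  · rw [hs1, ha]
  · have h1 := DFunLike.congr_fun (hs2 p) x
    rw [hpi] at h1
    exact h1

theorem homot_X {K : Type*} [Group K] {P0 P1 P2 : Type*} [AddCommGroup P0] [Module (Zg K) P0]
    [AddCommGroup P1] [Module (Zg K) P1] [AddCommGroup P2] [Module (Zg K) P2]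
    [Module.Projective (Zg K) P0] [Module.Projective (Zg K) P1] (ε : P0 →+ ℤ)
    (hε : ∀ (k : K) p, ε (el k • p) = ε p) (hs : Surjective ε)
    (d1 : P1 →ₗ[Zg K] P0) (d2 : P2 →ₗ[Zg K] P1) (ex0 : ∀ p, ε p = 0 ↔ ∃ q, d1 q = p)
    (ex1 : ∀ p, d1 p = 0 ↔ ∃ q, d2 q = p) (inj2 : Injective d2)
    {X : Type*} [MulAction K X] (χ0 : P0 →+ (X →₀ P0)) (χ1 : P1 →+ (X →₀ P1))
    (χ2 : P2 →+ (X →₀ P2)) (h0 : ∀ (k : K) p x, χ0 (el k • p) (k • x) = el k • χ0 p x)
    (h1 : ∀ (k : K) p x, χ1 (el k • p) (k • x) = el k • χ1 p x)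
    (h01 : ∀ p x, χ0 (d1 p) x = d1 (χ1 p x)) (h12 : ∀ p x, χ1 (d2 p) x = d2 (χ2 p x)) :
    ∃ (m : X →₀ ℤ) (s1 : P1 →+ (X →₀ P2)),
      (∀ (k : K) p x, s1 (el k • p) (k • x) = el k • s1 p x) ∧
      ∀ p x, χ2 p x = m x • p + s1 (d2 p) x := by
  obtain ⟨e, he⟩ := hs 1
  obtain ⟨m, hm⟩ : ∃ m : X →₀ ℤ, ∀ x, m x = ε (χ0 e x) :=
    ⟨Finsupp.mapRange ε (map_zero ε) (χ0 e), fun x => by rw [Finsupp.mapRange_apply]⟩
  have hzs : ∀ p, ε (ε p • e) = ε p := by
    intro p
    rw [map_zsmul, he, smul_eq_mul, mul_one]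
  have key : ∀ p x, ε (χ0 p x) = ε p * m x := by
    intro p x
    have h1 : ε (p - ε p • e) = 0 := by
      rw [map_sub, hzs, sub_self]
    obtain ⟨q, hq⟩ := (ex0 _).1 h1
    have h2 : ε (χ0 (p - ε p • e) x) = 0 := by
      rw [← hq, h01]
      exact (ex0 _).2 ⟨_, rfl⟩
    rw [map_sub, map_zsmul, Finsupp.sub_apply, Finsupp.smul_apply, map_sub, map_zsmul, ← hm,
      smul_eq_mul] at h2
    exact sub_eq_zero.1 h2
  have minv : ∀ (k : K) x, m (k • x) = m x := by
    intro k x
    have h1 := key (el k • e) (k • x)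
    rw [h0, hε, hε, ← hm, he, one_mul] at h1
    exact h1.symm
  have minv' : ∀ (k : K) x, m (k⁻¹ • x) = m x := fun k x => minv k⁻¹ x
  obtain ⟨M0, hM0⟩ := HomotX_mul (P := P0) m
  obtain ⟨M1, hM1⟩ := HomotX_mul (P := P1) m
  have h0' : ∀ (k : K) p x, χ0 (el k • p) x = el k • χ0 p (k⁻¹ • x) := by
    intro k p x
    have h1 := h0 k p (k⁻¹ • x)
    rwa [smul_inv_smul] at h1
  have h1' : ∀ (k : K) p x, χ1 (el k • p) x = el k • χ1 p (k⁻¹ • x) := by
    intro k p x
    have h2 := h1 k p (k⁻¹ • x)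
    rwa [smul_inv_smul] at h2
  obtain ⟨s0, hs0, hd0⟩ := HomotX_lift (X := X) d1 (χ0 - M0)
    (by
      intro k p x
      rw [AddMonoidHom.sub_apply, AddMonoidHom.sub_apply, Finsupp.sub_apply, Finsupp.sub_apply,
        h0', hM0, hM0, minv', smul_sub, smul_comm (m x) (el k) p])
    (by
      intro p x
      apply (ex0 _).1
      rw [AddMonoidHom.sub_apply, Finsupp.sub_apply, map_sub, key, hM0, map_zsmul, smul_eq_mul,
        mul_comm, sub_self])
  obtain ⟨s1, hs1, hd1⟩ := HomotX_lift (X := X) d2 (χ1 - M1 - s0.comp d1.toAddMonoidHom)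
    (by
      intro k p x
      have e1 : ∀ q y, (χ1 - M1 - s0.comp d1.toAddMonoidHom) q y =
          χ1 q y - m y • q - s0 (d1 q) y := by
        intro q y
        rw [AddMonoidHom.sub_apply, AddMonoidHom.sub_apply, Finsupp.sub_apply,
          Finsupp.sub_apply, hM1]
        rfl
      rw [e1, e1, h1', LinearMap.map_smul d1, hs0, minv', smul_sub, smul_sub, smul_comm (m x) (el k) p])
    (by
      intro p x
      apply (ex1 _).1
      rw [AddMonoidHom.sub_apply, AddMonoidHom.sub_apply, Finsupp.sub_apply,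
        Finsupp.sub_apply, hM1]
      change d1 (χ1 p x - m x • p - s0 (d1 p) x) = 0
      rw [map_sub, map_sub, hd0, ← h01, map_zsmul, AddMonoidHom.sub_apply, Finsupp.sub_apply,
        hM0, sub_self])
  refine ⟨m, s1, fun k p x => ?_, fun p x => ?_⟩
  · rw [hs1, inv_smul_smul]
  · apply inj2
    have h3 : d1 (d2 p) = 0 := (ex1 _).2 ⟨p, rfl⟩
    rw [map_add, hd1, ← h12, map_zsmul]
    rw [AddMonoidHom.sub_apply, AddMonoidHom.sub_apply, Finsupp.sub_apply,
        Finsupp.sub_apply, hM1]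
    change χ1 (d2 p) x = m x • d2 p + (χ1 (d2 p) x - m x • d2 p - s0 (d1 (d2 p)) x)
    rw [h3, map_zero, Finsupp.zero_apply, sub_zero, add_sub_cancel]

end PDT
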