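import Mathlib

/-!
# PDT/IdemRank: the rank of an idempotent integer matrix over any field is its trace

For a field `k` write `B_k = B.map Int.cast`, idempotent.
(1) The subgroup `B ℤ^N` of `ℤ^N` is free of some rank `s`, and `s = trace B`.  A basis gives a
factorisation `B = C D` through `ℤ^s`, so `rank B_k ≤ s = trace B`.
(2) Apply (1) to `B` and `1 - B`: `rank B_k ≤ trace B`, `rank (1 - B)_k ≤ N - trace B`, while
`rank B_k + rank (1 - B)_k ≥ rank 1 = N`.
-/

namespace PDT

private theorem idem_rank_le {N : Type*} [Fintype N] [DecidableEq N] (B : Matrix N N ℤ)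
    (hB : B * B = B) (k : Type*) [Field k] :
    ((B.map (Int.cast : ℤ → k)).rank : ℤ) ≤ B.trace := by
  classical
  set f : (N → ℤ) →ₗ[ℤ] (N → ℤ) := Matrix.toLin' B with hf
  have hfi : IsIdempotentElem f := by
    show f ∘ₗ f = f
    rw [hf, ← Matrix.toLin'_mul, hB]
  have htr : B.trace = (Module.finrank ℤ (LinearMap.range f) : ℤ) := by
    rw [← Matrix.trace_toLin'_eq, ← hf]
    exact (LinearMap.IsIdempotentElem.isProj_range f hfi).trace
  rw [htr]
  set s := Module.finrank ℤ (LinearMap.range f) with hs
  let b : Module.Basis (Fin s) ℤ (LinearMap.range f) := Module.finBasis ℤ (LinearMap.range f)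
  let C : Matrix N (Fin s) ℤ := fun i j => (b j : N → ℤ) i
  let D : Matrix (Fin s) N ℤ := fun j n => b.repr ⟨f (Pi.single n 1), LinearMap.mem_range_self f _⟩ j
  have hCD : B = C * D := by
    ext i n
    have h1 : (∑ j, D j n • b j) = (⟨f (Pi.single n 1), LinearMap.mem_range_self f _⟩ :
        LinearMap.range f) := b.sum_repr _
    have h2 := congrArg (fun v : LinearMap.range f => (v : N → ℤ) i) h1
    have h3 : f (Pi.single n 1) i = B i n := by
      rw [hf, Matrix.toLin'_apply, Matrix.mulVec_single_one]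
      rfl
    have h2' : ((∑ j, D j n • b j : LinearMap.range f) : N → ℤ) i = f (Pi.single n 1) i := h2
    rw [← h3, ← h2', Matrix.mul_apply]
    simp only [Submodule.coe_sum, Submodule.coe_smul, Finset.sum_apply, Pi.smul_apply, smul_eq_mul]
    exact Finset.sum_congr rfl fun j _ => mul_comm _ _
  have hk : B.map (Int.cast : ℤ → k) = C.map (Int.cast : ℤ → k) * D.map (Int.cast : ℤ → k) := by
    rw [hCD]
    exact Matrix.map_mul (f := Int.castRingHom k)
  rw [hk]
  have h4 := Matrix.rank_mul_le_left (C.map (Int.cast : ℤ → k)) (D.map (Int.cast : ℤ → k))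
  have h5 := Matrix.rank_le_card_width (C.map (Int.cast : ℤ → k))
  rw [Fintype.card_fin] at h5
  exact_mod_cast h4.trans h5

theorem idem_rank {N : Type*} [Fintype N] [DecidableEq N] (B : Matrix N N ℤ) (hB : B * B = B)
    (k : Type*) [Field k] : ((B.map (Int.cast : ℤ → k)).rank : ℤ) = B.trace := by
  classical
  have h1 := idem_rank_le B hB k
  have hB' : (1 - B) * (1 - B) = 1 - B := by
    rw [sub_mul, one_mul, mul_sub, mul_one, hB, sub_self, sub_zero]
  have h2 := idem_rank_le (1 - B) hB' k
  rw [Matrix.trace_sub, Matrix.trace_one] at h2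
  have h3 : (B.map (Int.cast : ℤ → k)) + ((1 - B).map (Int.cast : ℤ → k)) = 1 := by
    ext i j
    simp only [Matrix.add_apply, Matrix.map_apply, Matrix.sub_apply, Int.cast_sub, Matrix.one_apply]
    split_ifs <;> simp
  have h4 : Fintype.card N ≤ (B.map (Int.cast : ℤ → k)).rank +
      ((1 - B).map (Int.cast : ℤ → k)).rank := by
    have h5 : (1 : Matrix N N k).rank = Fintype.card N := Matrix.rank_one
    rw [← h5, ← h3]
    have h7 : ((B.map (Int.cast : ℤ → k)) + ((1 - B).map (Int.cast : ℤ → k))).mulVecLin =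
        (B.map (Int.cast : ℤ → k)).mulVecLin + ((1 - B).map (Int.cast : ℤ → k)).mulVecLin :=
      Matrix.mulVecLin_add _ _
    have h8 : LinearMap.range ((B.map (Int.cast : ℤ → k)).mulVecLin +
        ((1 - B).map (Int.cast : ℤ → k)).mulVecLin) ≤
        LinearMap.range (B.map (Int.cast : ℤ → k)).mulVecLin ⊔
          LinearMap.range ((1 - B).map (Int.cast : ℤ → k)).mulVecLin := by
      rintro _ ⟨x, rfl⟩
      exact Submodule.add_mem_sup (LinearMap.mem_range_self _ x) (LinearMap.mem_range_self _ x)
    have h9 := Submodule.finrank_add_le_finrank_add_finrank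
      (LinearMap.range (B.map (Int.cast : ℤ → k)).mulVecLin)
      (LinearMap.range ((1 - B).map (Int.cast : ℤ → k)).mulVecLin)
    have h10 := Submodule.finrank_mono h8
    rw [← h7] at h10
    exact h10.trans h9
  have h6 : (Fintype.card N : ℤ) ≤ ((B.map (Int.cast : ℤ → k)).rank : ℤ) +
      (((1 - B).map (Int.cast : ℤ → k)).rank : ℤ) := by exact_mod_cast h4
  linarith

end PDT
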