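import Pool.Agent.Lib.PDT.Base
import Pool.Agent.Lib.PDT.Base3
import Pool.Agent.Lib.PDT.IdemRank

/-!
# PDT/InfAb: if the rank of the second syzygy is smaller than the number of generators then the
abelianization is infinite

`d : (Zg H)^n → (Zg H)^1` with image the kernel of the augmentation, `P2 = ker d` with a finite dual
basis `(e_i, f_i)` and `Σ_i aug (f_i(e_i)) < n`.

Complete proof.  Let `a_ij = aug (f_j(e_i))`, an idempotent integer matrix (`aug_mul`,
`f_j(e_i) = Σ_l f_l(e_i) f_j(e_l)`), of rank `Σ_i a_ii < n` over `ℚ` (`idem_rank`).  Let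
`B_ij = aug ((e_i)_j)`, `k × n`.  From `e_i = Σ_l f_l(e_i) • e_l`: `B = a B`, so
`rank B ≤ rank a < n` over `ℚ`, and there is `v ∈ ℚ^n`, `v ≠ 0`, with `B v = 0`.  Let
`vh : (Zg H)^n →+ ℚ`, `vh x = Σ_j aug(x_j) v_j`; `vh (el h • x) = vh x`, and `vh = 0` on `P2`
(`vh (y • e_i) = aug(y) vh(e_i) = 0`, `p = Σ f_i(p) • e_i`).  For `h : H` the element
`fun _ => el h - 1` has augmentation `0`, so it is `d x_h` for some `x_h`; put `θ(h) = vh x_h`
(independent of the choice: two choices differ by an element of `P2`).  `θ(h h') = θ(h) + θ(h')`: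
`el (h h') - 1 = el h (el h' - 1) + (el h - 1)`, so `el h • x_{h'} + x_h` is a choice for `h h'`.
`θ ≠ 0`: suppose `θ = 0`.  Every `d x` is a finite `ℤ`-combination of the elements `el h - 1`
(`y = Σ n_h el h` with `Σ n_h = 0` is `Σ n_h (el h - 1)`), so `x` is congruent modulo `P2` to the
corresponding combination of the `x_h`, and `vh x = 0` for all `x`; with `x` the basis vectors `v = 0`,
contradiction.  So there is a nonzero homomorphism `H → Multiplicative ℚ` (or to the additive group
`ℚ`); it factors through `Abelianization H` (`Abelianization.lift`), and its image contains an element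
`θ(h) ≠ 0` and all `θ(h^n) = n θ(h)`, so the abelianization is infinite.
-/

namespace PDT

open Function

private theorem InfAb_exists_vec {k n : ℕ} (B : Matrix (Fin k) (Fin n) ℚ) (hB : B.rank < n) :
    ∃ v : Fin n → ℚ, v ≠ 0 ∧ B.mulVec v = 0 := by
  by_contra hcon
  push Not at hcon
  have hker : LinearMap.ker B.mulVecLin = ⊥ := by
    rw [LinearMap.ker_eq_bot']
    intro v hv
    by_contra hne
    exact hcon v hne hv
  have h1 := LinearMap.finrank_range_add_finrank_ker B.mulVecLin
  rw [hker, finrank_bot, add_zero, Module.finrank_fin_fun] at h1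
  have h2 : B.rank = n := h1
  omega

theorem infinite_ab {H : Type*} [Group H] {n : ℕ} (d : (Fin n → Zg H) →ₗ[Zg H] (Fin 1 → Zg H))
    (hd : ∀ y : Fin 1 → Zg H, aug (y 0) = 0 ↔ ∃ x, d x = y) {k : ℕ}
    (e : Fin k → LinearMap.ker d) (f : Fin k → (LinearMap.ker d →ₗ[Zg H] Zg H))
    (hef : ∀ q, q = ∑ i, f i q • e i) (hr : ∑ i, aug (f i (e i)) < (n : ℤ)) :
    Infinite (Abelianization H) := by
  classical
  let A : Matrix (Fin k) (Fin k) ℤ := fun i j => aug (f j (e i))
  let B : Matrix (Fin k) (Fin n) ℤ := fun i j => aug ((e i : Fin n → Zg H) j)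
  have hA : A * A = A := by
    ext i j
    rw [Matrix.mul_apply]
    change ∑ l, aug (f l (e i)) * aug (f j (e l)) = aug (f j (e i))
    conv_rhs => rw [hef (e i)]
    rw [map_sum, map_sum]
    refine Finset.sum_congr rfl fun l _ => ?_
    rw [map_smul, smul_eq_mul, aug_mul]
  have hAB : A * B = B := by
    ext i j
    rw [Matrix.mul_apply]
    change ∑ l, aug (f l (e i)) * aug ((e l : Fin n → Zg H) j) = aug ((e i : Fin n → Zg H) j)
    have h1 : (e i : Fin n → Zg H) j = ∑ l, f l (e i) * (e l : Fin n → Zg H) j := by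
      have h2 := congrArg (fun q : LinearMap.ker d => (q : Fin n → Zg H) j) (hef (e i))
      simpa using h2
    rw [h1, map_sum]
    refine Finset.sum_congr rfl fun l _ => ?_
    rw [aug_mul]
  have hrk : (B.map (Int.cast : ℤ → ℚ)).rank < n := by
    have h1 : B.map (Int.cast : ℤ → ℚ) =
        A.map (Int.cast : ℤ → ℚ) * B.map (Int.cast : ℤ → ℚ) := by
      conv_lhs => rw [← hAB]
      exact Matrix.map_mul (f := Int.castRingHom ℚ)
    have h2 : (B.map (Int.cast : ℤ → ℚ)).rank ≤ (A.map (Int.cast : ℤ → ℚ)).rank := by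
      rw [h1]
      exact Matrix.rank_mul_le_left _ _
    have h3 := idem_rank A hA ℚ
    have h4 : A.trace < (n : ℤ) := hr
    rw [← h3] at h4
    have h5 : (A.map (Int.cast : ℤ → ℚ)).rank < n := by exact_mod_cast h4
    omega
  obtain ⟨v, hv0, hv⟩ := InfAb_exists_vec _ hrk
  let vh : (Fin n → Zg H) →+ ℚ := AddMonoidHom.mk' (fun x => ∑ j, (aug (x j) : ℚ) * v j) (by
    intro a b
    simp [add_mul, Finset.sum_add_distrib])
  have vh_apply : ∀ x, vh x = ∑ j, (aug (x j) : ℚ) * v j := fun x => rfl
  have vh_smul : ∀ (y : Zg H) (x : Fin n → Zg H), vh (y • x) = (aug y : ℚ) * vh x := by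
    intro y x
    rw [vh_apply, vh_apply, Finset.mul_sum]
    refine Finset.sum_congr rfl fun j _ => ?_
    rw [Pi.smul_apply, smul_eq_mul, aug_mul]
    push_cast
    ring
  have vh_e : ∀ i, vh (e i : Fin n → Zg H) = 0 := by
    intro i
    have h1 := congrFun hv i
    rw [vh_apply]
    simpa [Matrix.mulVec, dotProduct, B] using h1
  have vh_ker : ∀ x, d x = 0 → vh x = 0 := by
    intro x hx
    have h1 := congrArg (fun q : LinearMap.ker d => (q : Fin n → Zg H)) (hef ⟨x, hx⟩)
    have h2 : x = ∑ i, f i ⟨x, hx⟩ • (e i : Fin n → Zg H) := by simpa using h1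
    rw [h2, map_sum]
    refine Finset.sum_eq_zero fun i _ => ?_
    rw [vh_smul, vh_e, mul_zero]
  have vh_eq : ∀ x x', d x = d x' → vh x = vh x' := by
    intro x x' h
    have h1 := vh_ker (x - x') (by rw [map_sub, h, sub_self])
    rw [map_sub, sub_eq_zero] at h1
    exact h1
  have hx : ∀ h : H, ∃ x, d x = fun _ => el h - 1 := by
    intro h
    refine (hd _).1 ?_
    rw [map_sub, aug_el, aug_one, sub_self]
  choose X hX using hx
  have hmul : ∀ h h', vh (X (h * h')) = vh (X h) + vh (X h') := by
    intro h h'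
    have h1 : d (X (h * h')) = d (el h • X h' + X h) := by
      rw [map_add, map_smul, hX, hX, hX]
      funext i
      simp only [Pi.add_apply, Pi.smul_apply, smul_eq_mul]
      rw [el_mul, mul_sub, mul_one]
      abel
    rw [vh_eq _ _ h1, map_add, vh_smul, aug_el]
    push_cast
    ring
  let φ : H →* Multiplicative ℚ := MonoidHom.mk' (fun h => Multiplicative.ofAdd (vh (X h)))
    (fun h h' => by rw [hmul, ofAdd_add])
  have hφ : ∀ h, Multiplicative.toAdd (φ h) = vh (X h) := fun h => rfl
  obtain ⟨h, hh⟩ : ∃ h, vh (X h) ≠ 0 := by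
    by_contra hcon
    push Not at hcon
    have h1 : ∀ y : Zg H, ∃ x, d x = (fun _ => y - (aug y) • (1 : Zg H)) ∧ vh x = 0 := by
      intro y
      induction y using Zg.ind with
      | h0 =>
        refine ⟨0, ?_, map_zero _⟩
        funext i
        simp
      | hel g =>
        refine ⟨X g, ?_, hcon g⟩
        rw [hX]
        funext i
        simp
      | hadd a b ha hb =>
        obtain ⟨x, hx, hx'⟩ := ha
        obtain ⟨y, hy, hy'⟩ := hb
        refine ⟨x + y, ?_, by rw [map_add, hx', hy', add_zero]⟩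
        rw [map_add, hx, hy]
        funext i
        simp only [Pi.add_apply, map_add, add_smul]
        abel
      | hneg a ha =>
        obtain ⟨x, hx, hx'⟩ := ha
        refine ⟨-x, ?_, by rw [map_neg, hx', neg_zero]⟩
        rw [map_neg, hx]
        funext i
        simp only [Pi.neg_apply, map_neg, neg_smul]
        abel
    have h2 : ∀ x, vh x = 0 := by
      intro x
      obtain ⟨x', hx1, hx2⟩ := h1 (d x 0)
      have h3 : aug (d x 0) = 0 := (hd (d x)).2 ⟨x, rfl⟩
      rw [← hx2]
      apply vh_eq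
      rw [hx1, h3]
      funext i
      rw [Subsingleton.elim i 0]
      simp
    apply hv0
    funext j
    have h3 := h2 (Pi.single j 1)
    rw [vh_apply, Finset.sum_eq_single j] at h3
    · simpa [aug_one] using h3
    · intro l _ hl
      simp [Pi.single_eq_of_ne hl]
    · intro h
      exact absurd (Finset.mem_univ _) h
  rw [← not_finite_iff_infinite]
  intro hfin
  obtain ⟨m, hm, hm'⟩ := (isOfFinOrder_iff_pow_eq_one.1
    (isOfFinOrder_of_finite (Abelianization.of h)))
  have h1 : (Abelianization.lift φ (Abelianization.of h)) ^ m = 1 := by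
    rw [← map_pow, hm', map_one]
  rw [Abelianization.lift_apply_of] at h1
  have h2 := congrArg Multiplicative.toAdd h1
  rw [toAdd_pow, hφ, toAdd_one, smul_eq_zero] at h2
  rcases h2 with h2 | h2
  · omega
  · exact hh h2

end PDT
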