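import Pool.Agent.Lib.PDT.Base
import Pool.Agent.Lib.PDT.LiftP
import Pool.Agent.Lib.PDT.LiftD

/-!
# PDT/Pack: comparison of a ℤ[H]-resolution with the dual resolution

Write `D_i = (R.Q_i →ₗ ℤ[G])` with the twisted action `tw w`.  By `dual0, dual1, dual2, e_ker` the
sequence `0 → D_0 → D_1 → D_2 → D_3 → ℤ → 0` (precomposition with `d1, d2, d3`, then `e`) is exact,
and all maps are `tw`-equivariant (`tw w x f ∘ d = tw w x (f ∘ d)`, `hw`).

Complete proof.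
(a) `b0 : D_3 →+ P0`, `b0 (tw w h f) = el h • b0 f`, `εP (b0 f) = e f`: by `lift_D` with
`π = (LinearMap.range d).mkQ : P0 → P0 ⧸ range d` and `f ↦ mkQ (e(f) • e₀)`, where `εP e₀ = 1`
(equivariant since `el h • e₀ - e₀ ∈ ker εP = range d`): `b0 f - e(f) e₀ ∈ range d` i.e.
`εP (b0 f) = e f`.
(b) `b1 : D_2 →+ P1` equivariant, `d (b1 f) = b0 (f ∘ d3)`: `lift_D` with `π = d`; values in the range
of `d` by `hex`: `εP (b0 (f ∘ d3)) = e (f ∘ d3) = 0` by `e_ker`.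
(c) `a0 : P0 →+ D_3` equivariant (`a0 (el h • p) = tw w h (a0 p)`) with `e (a0 p) = εP p`: `lift_P`
with `X = D_3`, action `(twHom w).comp H.subtype`, `Y = ℤ` trivial action, `π = e`.
(d) `α1 : P1 →+ D_2` with `(α1 p) ∘ d3 = a0 (d p)`: `lift_P` with `X = D_2`, `Y = D_3`,
`π = (· ∘ d3)`; values in the range since `e (a0 (d p)) = εP (d p) = 0` and `e_ker`.
(e) `α2 : ker d →+ D_1` with `(α2 p) ∘ d2 = α1 p`: `lift_P` for the projective module `ker d`
(hypothesis `hproj`), `π = (· ∘ d2)`: `(α1 p) ∘ d3 = a0 (d p) = 0`, so `α1 p` is in the range by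
`dual2`.
(f) `s0 : P0 →ₗ P1` with `d (s0 p) = b0 (a0 p) - p`: `b0 ∘ a0 - id` is additive and equivariant,
hence `ℤ[H]`-linear, with values in `ker εP = range d`; use that `P0` is projective.
(g) `s p := b1 (α1 p) - p - s0 (d p)`; `d (b1 (α1 p)) = b0 ((α1 p) ∘ d3) = b0 (a0 (d p))`, so
`s p ∈ ker d`; `s : P1 →ₗ ker d`.
(h) `β f := b1 (f ∘ d2)` for `f : D_1`; it is in `ker d`: `d (b1 (f ∘ d2)) = b0 (f ∘ d2 ∘ d3) = 0`
(`ex2`: `d2 ∘ d3 = 0`).  `β (f ∘ d1) = b1 (f ∘ d1 ∘ d2) = b1 0 = 0` (`ex1`).  For `p ∈ ker d`: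
`β (α2 p) = b1 ((α2 p) ∘ d2) = b1 (α1 p) = p + s0 (d p) + s p = p + s p`.
(To make an additive equivariant map `P →+ P'` linear: `Zg.ind` on the scalar, or
`MonoidAlgebra.equivariantOfLinearOfComm`.)
-/

namespace PDT

open Function

universe u

private theorem pack_lin {H A B : Type*} [Group H] [AddCommGroup A] [AddCommGroup B]
    [Module (Zg H) A] [Module (Zg H) B] (g : A →+ B)
    (hg : ∀ (h : H) (x : A), g (el h • x) = el h • g x) (y : Zg H) :
    ∀ x : A, g (y • x) = y • g x := by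
  refine Zg.ind (P := fun y => ∀ x : A, g (y • x) = y • g x) y ?_ ?_ ?_ ?_
  · intro x
    rw [zero_smul, zero_smul, map_zero]
  · intro h x
    exact hg h x
  · intro y z hy hz x
    rw [add_smul, add_smul, map_add, hy, hz]
  · intro y hy x
    rw [neg_smul, neg_smul, map_neg, hy]

/-- precomposition -/
private noncomputable def pack_pre {G : Type*} [Group G] {Q Q' : Type*} [AddCommGroup Q]
    [AddCommGroup Q'] [Module (Zg G) Q] [Module (Zg G) Q'] (d : Q →ₗ[Zg G] Q') :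
    (Q' →ₗ[Zg G] Zg G) →+ (Q →ₗ[Zg G] Zg G) where
  toFun f := f ∘ₗ d
  map_zero' := by
    apply LinearMap.ext
    intro q
    rfl
  map_add' a b := by
    apply LinearMap.ext
    intro q
    rfl

private theorem pack_pre_apply {G : Type*} [Group G] {Q Q' : Type*} [AddCommGroup Q]
    [AddCommGroup Q'] [Module (Zg G) Q] [Module (Zg G) Q'] (d : Q →ₗ[Zg G] Q')
    (f : Q' →ₗ[Zg G] Zg G) : pack_pre d f = f ∘ₗ d := rfl

private theorem pack_tw_comp {G : Type*} [Group G] {Q Q' : Type*} [AddCommGroup Q]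
    [AddCommGroup Q'] [Module (Zg G) Q] [Module (Zg G) Q'] (d : Q →ₗ[Zg G] Q') (w : G →* ℤˣ)
    (x : G) (f : Q' →ₗ[Zg G] Zg G) : (tw w x f) ∘ₗ d = tw w x (f ∘ₗ d) := by
  apply LinearMap.ext
  intro q
  rfl

theorem package {G : Type u} [Group G] (R : Res G) (H : Subgroup G) (w : G →* ℤˣ)
    (hw : ∀ (x : G) (f : R.Q3 →ₗ[Zg G] Zg G), R.e (tw w x f) = R.e f) {P0 P1 : Type*}
    [AddCommGroup P0] [AddCommGroup P1] [Module (Zg H) P0] [Module (Zg H) P1]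
    [Module.Projective (Zg H) P0] [Module.Projective (Zg H) P1] (εP : P0 →+ ℤ)
    (hε : ∀ (h : H) (p : P0), εP (el h • p) = εP p) (hs : Surjective εP) (d : P1 →ₗ[Zg H] P0)
    (hex : ∀ p : P0, εP p = 0 ↔ ∃ q, d q = p)
    (hproj : Module.Projective (Zg H) (LinearMap.ker d)) :
    ∃ (α1 : P1 →+ (R.Q2 →ₗ[Zg G] Zg G)) (α2 : LinearMap.ker d →+ (R.Q1 →ₗ[Zg G] Zg G))
      (β : (R.Q1 →ₗ[Zg G] Zg G) →+ LinearMap.ker d) (s : P1 →ₗ[Zg H] LinearMap.ker d),
      (∀ (h : H) (p : P1), α1 (el h • p) = tw w (h : G) (α1 p)) ∧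
      (∀ (h : H) (p : LinearMap.ker d), α2 (el h • p) = tw w (h : G) (α2 p)) ∧
      (∀ p : LinearMap.ker d, α2 p ∘ₗ R.d2 = α1 p) ∧
      (∀ (h : H) (f : R.Q1 →ₗ[Zg G] Zg G), β (tw w (h : G) f) = el h • β f) ∧
      (∀ f : R.Q0 →ₗ[Zg G] Zg G, β (f ∘ₗ R.d1) = 0) ∧
      (∀ p : LinearMap.ker d, β (α2 p) = p + s p) := by
  obtain ⟨e₀, he₀⟩ := hs 1
  have hεd : ∀ q, εP (d q) = 0 := fun q => (hex (d q)).2 ⟨q, rfl⟩
  -- (a)
  obtain ⟨b0, hb0, hb0'⟩ : ∃ b0 : (R.Q3 →ₗ[Zg G] Zg G) →+ P0,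
      (∀ (h : H) (r : R.Q3 →ₗ[Zg G] Zg G), b0 (tw w (h : G) r) = el h • b0 r) ∧
      ∀ r, εP (b0 r) = R.e r := by
    let f0 : (R.Q3 →ₗ[Zg G] Zg G) →+ (P0 ⧸ LinearMap.range d) :=
      { toFun := fun r => (LinearMap.range d).mkQ (R.e r • e₀)
        map_zero' := by rw [map_zero, zero_smul, map_zero]
        map_add' := fun a b => by rw [map_add, add_smul, map_add] }
    have hf0 : ∀ r, f0 r = (LinearMap.range d).mkQ (R.e r • e₀) := fun r => rfl
    obtain ⟨b0, h1, h2⟩ := lift_D H w (LinearMap.range d).mkQ f0 (fun h r => by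
      rw [hf0, hf0, hw, ← map_smul]
      rw [← sub_eq_zero, ← map_sub, Submodule.mkQ_apply, Submodule.Quotient.mk_eq_zero]
      obtain ⟨q, hq⟩ := (hex (R.e r • e₀ - el h • R.e r • e₀)).1 (by
        rw [map_sub, hε, sub_self])
      exact ⟨q, hq⟩) (fun r => (LinearMap.range d).mkQ_surjective _)
    refine ⟨b0, h1, fun r => ?_⟩
    have h3 := h2 r
    rw [hf0, ← sub_eq_zero, ← map_sub, Submodule.mkQ_apply, Submodule.Quotient.mk_eq_zero] at h3
    obtain ⟨q, hq⟩ := h3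
    have h4 := hεd q
    rw [hq, map_sub, map_zsmul, he₀, smul_eq_mul, mul_one] at h4
    exact sub_eq_zero.1 h4
  -- (b)
  obtain ⟨b1, hb1, hb1'⟩ : ∃ b1 : (R.Q2 →ₗ[Zg G] Zg G) →+ P1,
      (∀ (h : H) (r : R.Q2 →ₗ[Zg G] Zg G), b1 (tw w (h : G) r) = el h • b1 r) ∧
      ∀ r, d (b1 r) = b0 (r ∘ₗ R.d3) := by
    obtain ⟨b1, h1, h2⟩ := lift_D H w d (b0.comp (pack_pre R.d3)) (fun h r => by
      rw [AddMonoidHom.comp_apply, AddMonoidHom.comp_apply, pack_pre_apply, pack_pre_apply,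
        pack_tw_comp, hb0]) (fun r => by
      rw [AddMonoidHom.comp_apply, pack_pre_apply]
      refine (hex _).1 ?_
      rw [hb0', (R.e_ker _).2 ⟨r, rfl⟩])
    exact ⟨b1, h1, h2⟩
  -- (c)
  obtain ⟨a0, ha0, ha0'⟩ : ∃ a0 : P0 →+ (R.Q3 →ₗ[Zg G] Zg G),
      (∀ (h : H) (p : P0), a0 (el h • p) = tw w (h : G) (a0 p)) ∧
      ∀ p, R.e (a0 p) = εP p := by
    exact lift_P ((twHom w).comp H.subtype) (1 : H →* AddMonoid.End ℤ) R.e
      (fun h x => hw h x) εP (fun h p => hε h p) (fun p => R.e_surj _)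
  -- (d)
  obtain ⟨α1, hα1, hα1'⟩ : ∃ α1 : P1 →+ (R.Q2 →ₗ[Zg G] Zg G),
      (∀ (h : H) (p : P1), α1 (el h • p) = tw w (h : G) (α1 p)) ∧
      ∀ p, (α1 p) ∘ₗ R.d3 = a0 (d p) := by
    exact lift_P ((twHom w).comp H.subtype) ((twHom w).comp H.subtype) (pack_pre R.d3)
      (fun h x => pack_tw_comp R.d3 w h x) (a0.comp d.toAddMonoidHom) (fun h p => by
        change a0 (d (el h • p)) = tw w (h : G) (a0 (d p))
        rw [map_smul, ha0]) (fun p => by
        obtain ⟨x, hx⟩ := (R.e_ker (a0 (d p))).1 (by rw [ha0', hεd])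
        exact ⟨x, hx.symm⟩)
  -- (e)
  obtain ⟨α2, hα2, hα2'⟩ : ∃ α2 : LinearMap.ker d →+ (R.Q1 →ₗ[Zg G] Zg G),
      (∀ (h : H) (p : LinearMap.ker d), α2 (el h • p) = tw w (h : G) (α2 p)) ∧
      ∀ p : LinearMap.ker d, (α2 p) ∘ₗ R.d2 = α1 p := by
    haveI := hproj
    exact lift_P ((twHom w).comp H.subtype) ((twHom w).comp H.subtype) (pack_pre R.d2)
      (fun h x => pack_tw_comp R.d2 w h x) (α1.comp (LinearMap.ker d).subtype.toAddMonoidHom)
      (fun h p => by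
        change α1 (el h • (p : P1)) = tw w (h : G) (α1 p)
        rw [hα1]) (fun p => by
        obtain ⟨x, hx⟩ := R.dual2 (α1 p) (by
          rw [hα1', LinearMap.mem_ker.1 p.2, map_zero])
        exact ⟨x, hx.symm⟩)
  -- (f)
  obtain ⟨s0, hs0⟩ : ∃ s0 : P0 →ₗ[Zg H] P1, ∀ p, d (s0 p) = b0 (a0 p) - p := by
    let k : P0 →+ P0 := b0.comp a0 - AddMonoidHom.id P0
    have hk : ∀ p, k p = b0 (a0 p) - p := fun p => rfl
    let kL : P0 →ₗ[Zg H] P0 :=
      { toFun := k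
        map_add' := k.map_add
        map_smul' := fun y x => pack_lin k (fun h x => by
          rw [hk, hk, ha0, hb0, smul_sub]) y x }
    have hkL : ∀ p, kL p = b0 (a0 p) - p := fun p => rfl
    have hmem : ∀ p, kL p ∈ LinearMap.range d := by
      intro p
      obtain ⟨q, hq⟩ := (hex (kL p)).1 (by rw [hkL, map_sub, hb0', ha0', sub_self])
      exact ⟨q, hq⟩
    obtain ⟨g, hg⟩ := Module.projective_lifting_property d.rangeRestrict
      (kL.codRestrict (LinearMap.range d) hmem) d.surjective_rangeRestrict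
    refine ⟨g, fun p => ?_⟩
    have h1 := congrArg Subtype.val (LinearMap.congr_fun hg p)
    exact h1
  -- (g)
  have hdt : ∀ p, d (b1 (α1 p) - p - s0 (d p)) = 0 := by
    intro p
    rw [map_sub, map_sub, hb1', hα1', hs0, sub_self]
  let t : P1 →+ P1 := b1.comp α1 - AddMonoidHom.id P1 - (s0 ∘ₗ d).toAddMonoidHom
  have ht : ∀ p, t p = b1 (α1 p) - p - s0 (d p) := fun p => rfl
  let tL : P1 →ₗ[Zg H] P1 :=
    { toFun := t
      map_add' := t.map_add
      map_smul' := fun y x => pack_lin t (fun h x => by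
        rw [ht, ht, hα1, hb1, map_smul, map_smul, smul_sub, smul_sub]) y x }
  let s : P1 →ₗ[Zg H] LinearMap.ker d :=
    tL.codRestrict (LinearMap.ker d) (fun p => LinearMap.mem_ker.2 (hdt p))
  have hsv : ∀ p, ((s p : LinearMap.ker d) : P1) = b1 (α1 p) - p - s0 (d p) := fun p => rfl
  -- (h)
  have h23 : ∀ f : R.Q1 →ₗ[Zg G] Zg G, (f ∘ₗ R.d2) ∘ₗ R.d3 = 0 := by
    intro f
    apply LinearMap.ext
    intro q
    change f (R.d2 (R.d3 q)) = 0
    rw [(R.ex2 _).2 ⟨q, rfl⟩, map_zero]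
  have h12 : ∀ f : R.Q0 →ₗ[Zg G] Zg G, (f ∘ₗ R.d1) ∘ₗ R.d2 = 0 := by
    intro f
    apply LinearMap.ext
    intro q
    change f (R.d1 (R.d2 q)) = 0
    rw [(R.ex1 _).2 ⟨q, rfl⟩, map_zero]
  let β : (R.Q1 →ₗ[Zg G] Zg G) →+ LinearMap.ker d :=
    { toFun := fun f => ⟨b1 (f ∘ₗ R.d2), by rw [LinearMap.mem_ker, hb1', h23, map_zero]⟩
      map_zero' := by
        apply Subtype.ext
        change b1 (pack_pre R.d2 0) = 0
        rw [map_zero, map_zero]
      map_add' := fun a b => by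
        apply Subtype.ext
        change b1 (pack_pre R.d2 (a + b)) = b1 (pack_pre R.d2 a) + b1 (pack_pre R.d2 b)
        rw [map_add, map_add] }
  have hβ : ∀ f, ((β f : LinearMap.ker d) : P1) = b1 (f ∘ₗ R.d2) := fun f => rfl
  refine ⟨α1, α2, β, s, hα1, hα2, hα2', fun h f => ?_, fun f => ?_, fun p => ?_⟩
  · apply Subtype.ext
    rw [hβ, Submodule.coe_smul, hβ, pack_tw_comp, hb1]
  · apply Subtype.ext
    rw [hβ, h12, map_zero]
    rfl
  · apply Subtype.ext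
    rw [hβ, hα2', Submodule.coe_add, hsv, LinearMap.mem_ker.1 p.2, map_zero]
    abel

end PDT
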