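import Pool.Agent.Lib.PDT.Base

/-!
# PDT/Shap: a derivation into the induced module which is inner on `H` at `1` is inner

`hgeo` is the conclusion of `PDT/Geo` for the twisted action.

Complete proof.  Let `θ = th H w L μ` (supported on `H`, `θ(1) = μ`).  For `h ∈ H`:
`(el h • θ - θ)(1) = w(h) L(h) μ - μ` (`el_smul_th`, `th_apply_one`).  Replace `δ` by
`δ'(x) = δ(x) - (el x • θ - θ)`: again a derivation, and `δ'(h)(1) = 0` for `h ∈ H`.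
Put `φ(g) = - δ'(g)(g)` (a function `G → M`).
(1) `φ(g h) = w(h) L(h⁻¹) φ(g)`: `δ'(g h)(g h) = δ'(g)(g h) + (el g • δ'(h))(g h) =
w(h) L(h⁻¹) δ'(g)(g) + δ'(h)(h)`, and `δ'(h)(h) = δ'(h)(1·h) = w(h) L(h⁻¹) δ'(h)(1) = 0`.
(2) `φ(x⁻¹ g) - φ(g) = δ'(x)(g)`: `δ'(x⁻¹ g) = δ'(x⁻¹) + el x⁻¹ • δ'(g)`, evaluated at `x⁻¹ g`:
`δ'(x⁻¹)(x⁻¹ g) + δ'(g)(g)`; and `0 = δ'(1) = δ'(x) + el x • δ'(x⁻¹)` gives
`δ'(x⁻¹)(x⁻¹ g) = (el x • δ'(x⁻¹))(g) = - δ'(x)(g)`.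
(3) So for every `x` the set `{g | φ(x⁻¹ g) ≠ φ(g)}` is contained in the support of `δ'(x)`, whose
image in `G ⧸ H` is finite (`Ind_fin`).  By `hgeo`, `φ ∈ Ind H w L`.  And (2) says
`el x • φ - φ = δ'(x)`.  So `δ(x) = el x • (φ + θ) - (φ + θ)`.
-/

namespace PDT

open Function

theorem shap {G : Type*} [Group G] (H : Subgroup G) {Λ M : Type*} [Ring Λ] [AddCommGroup M]
    [Module Λ M] (w : G →* ℤˣ) (L : H →* Module.End Λ M)
    (hgeo : ∀ φ : G → M, (∀ (g : G) (h : H), φ (g * h) = (w h : ℤ) • L h⁻¹ (φ g)) →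
      (∀ x : G, ((fun g : G => (g : G ⧸ H)) '' {g | φ (x⁻¹ * g) ≠ φ g}).Finite) →
      ((fun g : G => (g : G ⧸ H)) '' {g | φ g ≠ 0}).Finite)
    (δ : G → Ind H w L) (hδ : ∀ x y, δ (x * y) = δ x + el x • δ y) (μ : M)
    (hμ : ∀ h : H, (δ (h : G) : G → M) 1 = (w h : ℤ) • L h μ - μ) :
    ∃ ν : Ind H w L, ∀ x, δ x = el x • ν - ν := by
  obtain ⟨θ, hθ⟩ : ∃ θ : Ind H w L, θ = th H w L μ := ⟨_, rfl⟩
  obtain ⟨D, hD⟩ : ∃ D : G → Ind H w L, ∀ x, D x = δ x - (el x • θ - θ) := ⟨_, fun _ => rfl⟩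
  have hDm : ∀ x y, D (x * y) = D x + el x • D y := by
    intro x y
    rw [hD, hD, hD, hδ, ← el_smul_smul, smul_sub, smul_sub]
    abel
  have hDp : ∀ x y g : G, (D (x * y) : G → M) g = (D x : G → M) g + (D y : G → M) (x⁻¹ * g) := by
    intro x y g
    rw [hDm, Submodule.coe_add, Pi.add_apply, el_smul_ind_apply]
  have hD1 : ∀ h : H, (D (h : G) : G → M) 1 = 0 := by
    intro h
    rw [hD, Submodule.coe_sub, Pi.sub_apply, Submodule.coe_sub, Pi.sub_apply, hμ h, hθ, el_smul_th,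
      th_apply_one, th_apply_one, sub_self]
  have hDh : ∀ h : H, (D (h : G) : G → M) (h : G) = 0 := by
    intro h
    have e := Ind_equiv (D (h : G)) 1 h
    rw [one_mul, hD1, map_zero, smul_zero] at e
    exact e
  have hDo : ∀ g : G, (D 1 : G → M) g = 0 := by
    intro g
    have e := hDp 1 1 g
    rw [one_mul, inv_one, one_mul] at e
    exact left_eq_add.1 e
  obtain ⟨φ, hφ⟩ : ∃ φ : G → M, ∀ g, φ g = - (D g : G → M) g := ⟨_, fun _ => rfl⟩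
  have h1 : ∀ (g : G) (h : H), φ (g * h) = (w h : ℤ) • L h⁻¹ (φ g) := by
    intro g h
    rw [hφ, hφ, hDp, Ind_equiv, inv_mul_cancel_left, hDh, add_zero, map_neg, smul_neg]
  have h2 : ∀ x g : G, φ (x⁻¹ * g) - φ g = (D x : G → M) g := by
    intro x g
    have e1 := hDp x⁻¹ g (x⁻¹ * g)
    rw [inv_inv, mul_inv_cancel_left] at e1
    have e2 := hDp x x⁻¹ g
    rw [mul_inv_cancel, hDo] at e2
    rw [hφ, hφ, e1, eq_neg_of_add_eq_zero_left e2.symm]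
    abel
  have h3 : ∀ x : G, ((fun g : G => (g : G ⧸ H)) '' {g | φ (x⁻¹ * g) ≠ φ g}).Finite := by
    intro x
    have e : {g | φ (x⁻¹ * g) ≠ φ g} = {g | (D x : G → M) g ≠ 0} := by
      ext g
      rw [Set.mem_setOf_eq, Set.mem_setOf_eq, ← h2 x g, sub_ne_zero]
    rw [e]
    exact Ind_fin (D x)
  refine ⟨⟨φ, h1, hgeo φ h1 h3⟩ + θ, fun x => ?_⟩
  have e3 : D x = el x • (⟨φ, h1, hgeo φ h1 h3⟩ : Ind H w L) - ⟨φ, h1, hgeo φ h1 h3⟩ := by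
    apply Subtype.ext
    funext g
    rw [Submodule.coe_sub, Pi.sub_apply, el_smul_ind_apply]
    exact (h2 x g).symm
  have e4 : δ x = D x + (el x • θ - θ) := by
    rw [hD]
    abel
  rw [e4, e3, smul_add]
  abel

end PDT
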