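import Pool.Agent.Lib.PDT.Base
import Pool.Agent.Lib.PDT.Base2
import Pool.Agent.Lib.PDT.Pack
import Pool.Agent.Lib.PDT.ChainQ
import Pool.Agent.Lib.PDT.DerCo
import Pool.Agent.Lib.PDT.Shap
import Pool.Agent.Lib.PDT.Univ

/-!
# PDT/Inj: the second homology with coefficients in `M` embeds in the first cohomology

`P1 = (Zg H)^a1`, `P0 = (Zg H)^a0`, `d : P1 → P0` with `ker εP = im d`, `P2 = ker d` projective, with
a section `s2 : P2 → (P2 →₀ Zg H)`, `Σ_i s2(p)_i • i = p`.  The vectors `mxS L (s2 p) m = m·s2(p)`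
span `V = M ⊗_H P2` inside `P2 →₀ M`; `lt : (P2 →₀ M) → M^a1` is the map `M ⊗ P2 → M ⊗ P1`.
`T = actT L (w restricted to H)`.

Complete proof.  Take `α1, α2, β, s` from `package`, `l0, l1` from `chain_to_Q`.  Write `γ = gam H w L`.
(0) `At : (P2 →₀ M) →ₗ[Λ] (Q1 →ₗ Ind)`, `At (single i m) = γ(α2 i, m)` (`Finsupp.lsum` of `gamL`).
CLAIM 1: `At (mxS L x m) = γ(α2 (Σ_i x_i • i), m)` for `x : P2 →₀ Zg H`.  Both sides are additive in
`x`; for `x = single i (el h)`: `mxS = single i (L h⁻¹ m)`, `At = γ(α2 i, L h⁻¹ m) =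
γ(tw w h (α2 i), m) = γ(α2 (el h • i), m)` by `gam_tw` and the equivariance of `α2`.
CLAIM 2: `lt (mxS L x m) = mxF L (Σ_i x_i • i) m` (additive in `x`; on `single i (el h)` it is
`hlt`-definition: `lt (single i m) = mxF L i m`, and `mxF_el_smul`).
(1) `C : M^a1 →ₗ (Q2 →ₗ Ind)`, `C u = Σ_k γ(α1 e_k, u_k)`, `e_k = Pi.single k 1`.  CLAIM 3:
`C (mxF L x m) = γ(α1 x, m)` for `x : Fin a1 → Zg H` (additive in `x`; `x = el h • e_k`).  Since
`γ(r, m) ∘ d2 = γ(r ∘ d2, m)` and `α2 p ∘ d2 = α1 p`: for `v = mxS L (s2 p) m`: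
`At v ∘ d2 = γ(α1 p, m) = C (mxF L p m) = C (lt v)`; by linearity `At v ∘ d2 = C (lt v)` for `v ∈ V`.
(2) `univ` for `Q = Q1` and `lam r m = mxS L (s2 (β r)) m` (balanced: `β (tw w h r) = el h • β r`,
`s2` linear, `mxS_el_smul`) gives `B : (Q1 →ₗ Ind) →ₗ (P2 →₀ M)`, `B (γ(r, m)) = mxS L (s2 (β r)) m`.
`Sg : M^a1 →ₗ (P2 →₀ M)`, `Sg u = Σ_k mxS L (s2 (s e_k)) (u_k)`; CLAIM 4:
`Sg (mxF L x m) = mxS L (s2 (s x)) m`.  So for `v = mxS L (s2 p) m`: `B (At v) = mxS L (s2 (β (α2 p))) m
= mxS L (s2 (p + s p)) m = v + Sg (mxF L p m) = v + Sg (lt v)`; by linearity for all `v ∈ V`.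
(3) `B (c ∘ d1) = 0` for every `c : Q0 →ₗ Ind`: by `gam_span` it is enough to take `c = γ(r, m)`, and
`γ(r, m) ∘ d1 = γ(r ∘ d1, m)`, `β (r ∘ d1) = 0`.
(4) `Θ v = fun k => ((At v) (l1 e_k) : G → M) 1`, a linear map.  Let `v ∈ V`, `lt v = 0` and
`c = At v`; by (1) `c ∘ d2 = 0`.  For `x : P1` put `u(x) = (c (l1 x) : G → M) 1`.  Then
`u (el h • x) = w(h) L(h) u(x)` (`(el h • φ)(1) = φ(h⁻¹) = φ(1·h⁻¹)`, `Ind_equiv`), so
`u x = Σ_k T(x_k) (Θ v)_k` (additive in `x`, check on `x = el h • e_k`).  If `x = p ∈ ker d`: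
`d1 (l1 p) = l0 (d p) = 0`, so `l1 p = d2 q` and `u p = 0`.  This is the first assertion.
(5) Suppose `(Θ v)_k = Σ_l T((d e_k)_l) b_l`.  Let `bh : P0 →+ M`, `bh y = Σ_l T(y_l) b_l`;
`bh (el h • y) = w(h) L(h) bh y` (`actT_mul`), and `u x = bh (d x)` for all `x` (additive and
equivariant in `x`; check on `e_k`).  Let `e : P0` with `εP e = 1` and `u0 = l0 e`, `ε u0 = 1`.
`der_of_cocycle` for `N = Ind H w L`, `c`, `u0` gives `δ`.  For `h ∈ H`: `εP (el h • e - e) = 0`, so
`el h • e - e = d x_h`, and `d1 (l1 x_h) = l0 (d x_h) = el h • u0 - u0`; so `δ h = c (l1 x_h)` and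
`δ(h)(1) = u x_h = bh (el h • e - e) = w(h) L(h) (bh e) - bh e`.  By `shap` (`μ = bh e`) `δ` is inner,
so `c = b' ∘ d1`, and `B c = 0` by (3).  By (2) `v = v + Sg (lt v) = B (At v) = 0`.
-/

namespace PDT

open Function

universe u

section aux

variable {G : Type*} [Group G] (H : Subgroup G) {Λ M : Type*} [Ring Λ] [AddCommGroup M]
  [Module Λ M] (w : G →* ℤˣ) (L : H →* Module.End Λ M)

/-- `gam` as an additive map in the first variable. -/
private noncomputable def Inj_gamR {Q : Type*} [AddCommGroup Q] [Module (Zg G) Q] (m : M) :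
    (Q →ₗ[Zg G] Zg G) →+ (Q →ₗ[Zg G] Ind H w L) where
  toFun r := gam H w L r m
  map_zero' := gam_zero_left H w L m
  map_add' a b := gam_add_left H w L a b m

private theorem Inj_gam_zero {Q : Type*} [AddCommGroup Q] [Module (Zg G) Q]
    (r : Q →ₗ[Zg G] Zg G) : gam H w L r (0 : M) = 0 := (gamL H w L r).map_zero

private theorem Inj_gam_act {Q : Type*} [AddCommGroup Q] [Module (Zg G) Q] {P : Type*}
    [AddCommGroup P] [Module (Zg H) P] (α : P →+ (Q →ₗ[Zg G] Zg G))
    (hα : ∀ (h : H) (p : P), α (el h • p) = tw w (h : G) (α p)) (y : Zg H) (p : P) (m : M) :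
    gam H w L (α (y • p)) m = gam H w L (α p) (actR L y m) := by
  let F : Zg H →+ (Q →ₗ[Zg G] Ind H w L) :=
    { toFun := fun y => gam H w L (α (y • p)) m
      map_zero' := by rw [zero_smul, map_zero, gam_zero_left]
      map_add' := fun a b => by rw [add_smul, map_add, gam_add_left] }
  let F' : Zg H →+ (Q →ₗ[Zg G] Ind H w L) :=
    { toFun := fun y => gam H w L (α p) (actR L y m)
      map_zero' := by rw [map_zero, LinearMap.zero_apply, Inj_gam_zero]
      map_add' := fun a b => by rw [map_add, LinearMap.add_apply, gam_add_right] }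
  have h : F = F' := by
    refine zhom_ext (A := Q →ₗ[Zg G] Ind H w L) fun g => ?_
    change gam H w L (α (el g • p)) m = gam H w L (α p) (actR L (el g) m)
    rw [hα, gam_tw, actR_el]
  exact DFunLike.congr_fun h y

private theorem Inj_mxF_act {a : ℕ} (y : Zg H) (x : Fin a → Zg H) (m : M) :
    mxF L (y • x) m = mxF L x (actR L y m) := by
  ext k
  rw [mxF_apply, mxF_apply, Pi.smul_apply, smul_eq_mul, actR_mul, Module.End.mul_apply]

private theorem Inj_mxS_act {I : Type*} (y : Zg H) (x : I →₀ Zg H) (m : M) :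
    mxS L (y • x) m = mxS L x (actR L y m) := by
  ext k
  rw [mxS_apply, mxS_apply, Finsupp.smul_apply, smul_eq_mul, actR_mul, Module.End.mul_apply]

/-- `mxS` as an additive map. -/
private noncomputable def Inj_mxA (I : Type*) (m : M) : (I →₀ Zg H) →+ (I →₀ M) where
  toFun x := mxS L x m
  map_zero' := mxS_zero L m
  map_add' a b := mxS_add L a b m

private theorem Inj_basis {a : ℕ} (x : Fin a → Zg H) :
    x = ∑ k, x k • (Pi.single k (1 : Zg H) : Fin a → Zg H) := by
  ext1 j
  simp [Finset.sum_apply, Pi.single_apply]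

private theorem Inj_actT {P : Type*} [AddCommGroup P] [Module (Zg H) P] (u : P →+ M)
    (hu : ∀ (h : H) (x : P), u (el h • x) = (w h : ℤ) • L h (u x)) (y : Zg H) (x : P) :
    u (y • x) = actT L (w.comp H.subtype) y (u x) := by
  let F : Zg H →+ M :=
    { toFun := fun y => u (y • x)
      map_zero' := by rw [zero_smul, map_zero]
      map_add' := fun a b => by rw [add_smul, map_add] }
  let F' : Zg H →+ M :=
    { toFun := fun y => actT L (w.comp H.subtype) y (u x)
      map_zero' := by rw [map_zero, LinearMap.zero_apply]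
      map_add' := fun a b => by rw [map_add, LinearMap.add_apply] }
  have h : F = F' := by
    apply zhom_ext
    intro g
    change u (el g • x) = actT L (w.comp H.subtype) (el g) (u x)
    rw [hu, actT_el]
    rfl
  exact DFunLike.congr_fun h y

private theorem Inj_expand {a : ℕ} (u : (Fin a → Zg H) →+ M)
    (hu : ∀ (h : H) (x : Fin a → Zg H), u (el h • x) = (w h : ℤ) • L h (u x))
    (x : Fin a → Zg H) :
    u x = ∑ k, actT L (w.comp H.subtype) (x k) (u (Pi.single k 1)) := by
  conv_lhs => rw [Inj_basis H x]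
  rw [map_sum]
  exact Finset.sum_congr rfl fun k _ => Inj_actT H w L u hu _ _

/-- the additive map `y ↦ Σ y_l ⋆ b_l` -/
private noncomputable def Inj_bh {a : ℕ} (b : Fin a → M) : (Fin a → Zg H) →+ M where
  toFun y := ∑ l, actT L (w.comp H.subtype) (y l) (b l)
  map_zero' := by simp
  map_add' x y := by
    rw [← Finset.sum_add_distrib]
    refine Finset.sum_congr rfl fun l _ => ?_
    rw [Pi.add_apply, map_add, LinearMap.add_apply]

private theorem Inj_bh_apply {a : ℕ} (b : Fin a → M) (y : Fin a → Zg H) :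
    Inj_bh H w L b y = ∑ l, actT L (w.comp H.subtype) (y l) (b l) := rfl

private theorem Inj_bh_el {a : ℕ} (b : Fin a → M) (h : H) (y : Fin a → Zg H) :
    Inj_bh H w L b (el h • y) = (w h : ℤ) • L h (Inj_bh H w L b y) := by
  rw [Inj_bh_apply, Inj_bh_apply, map_sum, Finset.smul_sum]
  refine Finset.sum_congr rfl fun l _ => ?_
  rw [Pi.smul_apply, smul_eq_mul, actT_mul, Module.End.mul_apply, actT_el]
  rfl

end aux

theorem inj_main {G : Type u} [Group G] (R : Res G) (H : Subgroup G) (w : G →* ℤˣ)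
    (hw : ∀ (x : G) (f : R.Q3 →ₗ[Zg G] Zg G), R.e (tw w x f) = R.e f) {Λ M : Type*} [Ring Λ]
    [AddCommGroup M] [Module Λ M] (L : H →* Module.End Λ M)
    (hgeo : ∀ φ : G → M, (∀ (g : G) (h : H), φ (g * h) = (w h : ℤ) • L h⁻¹ (φ g)) →
      (∀ x : G, ((fun g : G => (g : G ⧸ H)) '' {g | φ (x⁻¹ * g) ≠ φ g}).Finite) →
      ((fun g : G => (g : G ⧸ H)) '' {g | φ g ≠ 0}).Finite)
    {a0 a1 : ℕ} (εP : (Fin a0 → Zg H) →+ ℤ)
    (hε : ∀ (h : H) (p : Fin a0 → Zg H), εP (el h • p) = εP p) (hs : Surjective εP)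
    (d : (Fin a1 → Zg H) →ₗ[Zg H] (Fin a0 → Zg H))
    (hex : ∀ p : Fin a0 → Zg H, εP p = 0 ↔ ∃ q, d q = p)
    (hproj : Module.Projective (Zg H) (LinearMap.ker d))
    (s2 : LinearMap.ker d →ₗ[Zg H] (LinearMap.ker d →₀ Zg H))
    (hs2 : ∀ p, Finsupp.linearCombination (Zg H) id (s2 p) = p)
    (lt : (LinearMap.ker d →₀ M) →ₗ[Λ] (Fin a1 → M))
    (hlt : ∀ (i : LinearMap.ker d) (m : M), lt (Finsupp.single i m) = mxF L (i : Fin a1 → Zg H) m) :
    ∃ Θ : (LinearMap.ker d →₀ M) →ₗ[Λ] (Fin a1 → M),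
      ∀ v ∈ Submodule.span Λ {v : LinearMap.ker d →₀ M | ∃ p m, v = mxS L (s2 p) m}, lt v = 0 →
        (∀ p : LinearMap.ker d,
          ∑ k, actT L (w.comp H.subtype) ((p : Fin a1 → Zg H) k) (Θ v k) = 0) ∧
        ((∃ b : Fin a0 → M, ∀ k, Θ v k = ∑ l, actT L (w.comp H.subtype)
          (d (Pi.single k 1) l) (b l)) → v = 0) := by
  classical
  obtain ⟨α1, α2, β, s, hα1, hα2, hα12, hβ, hβ0, hβα⟩ :=
    package R H w hw εP hε hs d hex hproj
  obtain ⟨l0, l1, hl0, hl1, hεl, hdl⟩ := chain_to_Q R H εP hε d hex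
  -- the map `At`
  let At : (LinearMap.ker d →₀ M) →ₗ[Λ] (R.Q1 →ₗ[Zg G] Ind H w L) :=
    Finsupp.lsum ℕ fun i => gamL H w L (α2 i)
  have hAt_single : ∀ (i : LinearMap.ker d) (m : M),
      At (Finsupp.single i m) = gam H w L (α2 i) m := by
    intro i m
    change Finsupp.lsum ℕ (fun i => gamL H w L (α2 i)) (Finsupp.single i m) = _
    rw [Finsupp.lsum_single, gamL_apply]
  have claim1 : ∀ (x : LinearMap.ker d →₀ Zg H) (m : M),
      At (mxS L x m) = gam H w L (α2 (Finsupp.linearCombination (Zg H) id x)) m := by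
    intro x m
    induction x using Finsupp.induction_linear with
    | zero => rw [mxS_zero, map_zero, map_zero, map_zero, gam_zero_left]
    | add x y hx hy => rw [mxS_add, map_add, hx, hy, map_add, map_add, gam_add_left]
    | single i y =>
      rw [mxS_single, hAt_single, Finsupp.linearCombination_single, id_eq,
        Inj_gam_act H w L α2 hα2]
  have claim2 : ∀ (x : LinearMap.ker d →₀ Zg H) (m : M),
      lt (mxS L x m) =
        mxF L ((Finsupp.linearCombination (Zg H) id x : LinearMap.ker d) : Fin a1 → Zg H) m := by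
    intro x m
    induction x using Finsupp.induction_linear with
    | zero => rw [mxS_zero, map_zero, map_zero, Submodule.coe_zero, mxF_zero]
    | add x y hx hy => rw [mxS_add, map_add, hx, hy, map_add, Submodule.coe_add, mxF_add]
    | single i y =>
      rw [mxS_single, hlt, Finsupp.linearCombination_single, id_eq, Submodule.coe_smul,
        Inj_mxF_act]
  have hAt : ∀ (p : LinearMap.ker d) (m : M), At (mxS L (s2 p) m) = gam H w L (α2 p) m := by
    intro p m
    rw [claim1, hs2]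
  have hlt2 : ∀ (p : LinearMap.ker d) (m : M), lt (mxS L (s2 p) m) = mxF L (p : Fin a1 → Zg H) m := by
    intro p m
    rw [claim2, hs2]
  -- (1)
  have claim3 : ∀ (x : Fin a1 → Zg H) (m : M),
      ∑ k, gam H w L (α1 (Pi.single k 1)) (mxF L x m k) = gam H w L (α1 x) m := by
    intro x m
    have h1 : ∀ k, gam H w L (α1 (Pi.single k 1)) (mxF L x m k) =
        Inj_gamR H w L m (α1 (x k • Pi.single k 1)) := by
      intro k
      rw [mxF_apply, ← Inj_gam_act H w L α1 hα1]
      rfl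
    rw [Finset.sum_congr rfl fun k _ => h1 k, ← map_sum, ← map_sum, ← Inj_basis H x]
    rfl
  have step1 : ∀ v ∈ Submodule.span Λ {v : LinearMap.ker d →₀ M | ∃ p m, v = mxS L (s2 p) m},
      At v ∘ₗ R.d2 = ∑ k, gam H w L (α1 (Pi.single k 1)) (lt v k) := by
    intro v hv
    induction hv using Submodule.span_induction with
    | mem v hv =>
      obtain ⟨p, m, rfl⟩ := hv
      rw [hAt, hlt2, claim3, ← gam_comp, hα12]
    | zero =>
      rw [map_zero, map_zero, LinearMap.zero_comp]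
      symm
      apply Finset.sum_eq_zero
      intro k _
      exact Inj_gam_zero H w L _
    | add x y _ _ hx hy =>
      rw [map_add, map_add, LinearMap.add_comp, hx, hy, ← Finset.sum_add_distrib]
      refine Finset.sum_congr rfl fun k _ => ?_
      rw [Pi.add_apply, gam_add_right]
    | smul c x _ hx =>
      rw [map_smul, map_smul, LinearMap.smul_comp, hx, Finset.smul_sum]
      refine Finset.sum_congr rfl fun k _ => ?_
      rw [Pi.smul_apply, gam_smul_right]
  -- (2)
  let lam : (R.Q1 →ₗ[Zg G] Zg G) →+ (M →ₗ[Λ] (LinearMap.ker d →₀ M)) :=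
    { toFun := fun r => mxS L (s2 (β r))
      map_zero' := by
        apply LinearMap.ext
        intro m
        rw [map_zero, map_zero, mxS_zero, LinearMap.zero_apply]
      map_add' := fun a b => by
        apply LinearMap.ext
        intro m
        rw [map_add, map_add, mxS_add, LinearMap.add_apply] }
  have hlam : ∀ (h : H) (r : R.Q1 →ₗ[Zg G] Zg G) (m : M),
      lam (tw w (h : G) r) m = lam r (L h⁻¹ m) := by
    intro h r m
    change mxS L (s2 (β (tw w (h : G) r))) m = mxS L (s2 (β r)) (L h⁻¹ m)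
    rw [hβ, map_smul, mxS_el_smul]
  obtain ⟨B, hB⟩ := univ H w L lam hlam
  have hB' : ∀ r m, B (gam H w L r m) = mxS L (s2 (β r)) m := fun r m => hB r m
  have claim4 : ∀ (x : Fin a1 → Zg H) (m : M),
      ∑ k, mxS L (s2 (s (Pi.single k 1))) (mxF L x m k) = mxS L (s2 (s x)) m := by
    intro x m
    have h1 : ∀ k, mxS L (s2 (s (Pi.single k 1))) (mxF L x m k) =
        Inj_mxA H L (LinearMap.ker d) m (s2 (s (x k • Pi.single k 1))) := by
      intro k
      rw [mxF_apply, ← Inj_mxS_act, map_smul s, map_smul s2]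
      rfl
    rw [Finset.sum_congr rfl fun k _ => h1 k, ← map_sum, ← map_sum, ← map_sum, ← Inj_basis H x]
    rfl
  have step2 : ∀ v ∈ Submodule.span Λ {v : LinearMap.ker d →₀ M | ∃ p m, v = mxS L (s2 p) m},
      B (At v) = v + ∑ k, mxS L (s2 (s (Pi.single k 1))) (lt v k) := by
    intro v hv
    induction hv using Submodule.span_induction with
    | mem v hv =>
      obtain ⟨p, m, rfl⟩ := hv
      rw [hAt, hB', hβα, map_add, mxS_add, hlt2, claim4]
    | zero =>
      rw [map_zero, map_zero, map_zero, zero_add]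
      symm
      apply Finset.sum_eq_zero
      intro k _
      rw [Pi.zero_apply, map_zero]
    | add x y _ _ hx hy =>
      have h1 : ∑ k, mxS L (s2 (s (Pi.single k 1))) (lt (x + y) k) =
          ∑ k, mxS L (s2 (s (Pi.single k 1))) (lt x k) +
            ∑ k, mxS L (s2 (s (Pi.single k 1))) (lt y k) := by
        rw [← Finset.sum_add_distrib]
        refine Finset.sum_congr rfl fun k _ => ?_
        rw [map_add, Pi.add_apply, map_add]
      rw [map_add, map_add, hx, hy, h1]
      abel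
    | smul c x _ hx =>
      have h1 : ∑ k, mxS L (s2 (s (Pi.single k 1))) (lt (c • x) k) =
          c • ∑ k, mxS L (s2 (s (Pi.single k 1))) (lt x k) := by
        rw [Finset.smul_sum]
        refine Finset.sum_congr rfl fun k _ => ?_
        rw [map_smul, Pi.smul_apply, map_smul]
      rw [map_smul, map_smul, hx, h1, smul_add]
  -- (3)
  have step3 : ∀ c : R.Q0 →ₗ[Zg G] Ind H w L, B (c ∘ₗ R.d1) = 0 := by
    intro c
    have hc := gam_span H w L c
    induction hc using AddSubgroup.closure_induction with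
    | mem x hx =>
      obtain ⟨r, m, rfl⟩ := hx
      rw [← gam_comp, hB', hβ0, map_zero, mxS_zero]
    | zero => rw [LinearMap.zero_comp, map_zero]
    | add x y _ _ hx hy => rw [LinearMap.add_comp, map_add, hx, hy, add_zero]
    | neg x _ hx =>
      have h1 : x ∘ₗ R.d1 + (-x) ∘ₗ R.d1 = 0 := by
        apply LinearMap.ext
        intro q
        change x (R.d1 q) + -(x (R.d1 q)) = 0
        exact add_neg_cancel _
      have h2 : B (x ∘ₗ R.d1) + B ((-x) ∘ₗ R.d1) = 0 := by
        rw [← map_add, h1, map_zero]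
      rwa [hx, zero_add] at h2
  -- (4)
  let Θ : (LinearMap.ker d →₀ M) →ₗ[Λ] (Fin a1 → M) :=
    { toFun := fun v k => ((At v) (l1 (Pi.single k 1)) : G → M) 1
      map_add' := fun a b => by
        rw [map_add]
        rfl
      map_smul' := fun a b => by
        rw [map_smul]
        rfl }
  have hΘ : ∀ v k, Θ v k = ((At v) (l1 (Pi.single k 1)) : G → M) 1 := fun _ _ => rfl
  refine ⟨Θ, fun v hv hltv => ?_⟩
  have hc2 : At v ∘ₗ R.d2 = 0 := by
    rw [step1 v hv, hltv]
    apply Finset.sum_eq_zero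
    intro k _
    exact Inj_gam_zero H w L _
  let u : (Fin a1 → Zg H) →+ M :=
    { toFun := fun x => ((At v) (l1 x) : G → M) 1
      map_zero' := by
        rw [map_zero, map_zero]
        rfl
      map_add' := fun a b => by
        rw [map_add, map_add]
        rfl }
  have hu : ∀ (h : H) (x : Fin a1 → Zg H), u (el h • x) = (w h : ℤ) • L h (u x) := by
    intro h x
    change ((At v) (l1 (el h • x)) : G → M) 1 = (w h : ℤ) • L h (((At v) (l1 x) : G → M) 1)
    rw [hl1, map_smul, el_smul_ind_apply]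
    have h1 := Ind_equiv (At v (l1 x)) 1 h⁻¹
    rw [inv_inv, one_mul] at h1
    have h2 : (h : G)⁻¹ * 1 = ((h⁻¹ : H) : G) := by simp
    rw [h2, h1]
    congr 1
    rw [Subgroup.coe_inv, map_inv]
    rcases Int.units_eq_one_or (w (h : G)) with e | e <;> simp [e]
  have hux : ∀ x : Fin a1 → Zg H,
      u x = ∑ k, actT L (w.comp H.subtype) (x k) (Θ v k) := by
    intro x
    rw [Inj_expand H w L u hu x]
    rfl
  constructor
  · intro p
    rw [← hux]
    have h1 : R.d1 (l1 (p : Fin a1 → Zg H)) = 0 := by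
      rw [hdl, LinearMap.mem_ker.1 p.2, map_zero]
    obtain ⟨q, hq⟩ := (R.ex1 _).1 h1
    change ((At v) (l1 (p : Fin a1 → Zg H)) : G → M) 1 = 0
    rw [← hq]
    have h2 : (At v) (R.d2 q) = 0 := DFunLike.congr_fun hc2 q
    rw [h2]
    rfl
  · rintro ⟨b, hb⟩
    have hud : ∀ x, u x = Inj_bh H w L b (d x) := by
      intro x
      rw [hux]
      conv_rhs => rw [Inj_basis H x, map_sum, map_sum]
      refine Finset.sum_congr rfl fun k _ => ?_
      rw [map_smul, Inj_actT H w L (Inj_bh H w L b) (Inj_bh_el H w L b), hb k]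
      rfl
    obtain ⟨e, he⟩ := hs 1
    have hu0 : R.ε (l0 e) = 1 := by rw [hεl, he]
    obtain ⟨δ, hδ, hδq, hδin⟩ := der_of_cocycle R (At v) hc2 (l0 e) hu0
    have hδh : ∀ h : H, (δ (h : G) : G → M) 1 =
        (w h : ℤ) • L h (Inj_bh H w L b e) - Inj_bh H w L b e := by
      intro h
      have h1 : εP (el h • e - e) = 0 := by rw [map_sub, hε, sub_self]
      obtain ⟨x, hx⟩ := (hex _).1 h1
      have h2 : R.d1 (l1 x) = el (h : G) • l0 e - l0 e := by
        rw [hdl, hx, map_sub, hl0]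
      rw [hδq _ _ h2]
      change u x = _
      rw [hud, hx, map_sub, Inj_bh_el]
    obtain ⟨ν, hν⟩ := shap H w L hgeo δ hδ (Inj_bh H w L b e) hδh
    obtain ⟨b', hb'⟩ := hδin ⟨ν, hν⟩
    have h3 := step2 v hv
    rw [hltv, hb', step3] at h3
    have h4 : ∑ k, mxS L (s2 (s (Pi.single k 1))) ((0 : Fin a1 → M) k) = 0 := by
      apply Finset.sum_eq_zero
      intro k _
      rw [Pi.zero_apply, map_zero]
    rw [h4, add_zero] at h3
    exact h3.symm

end PDT
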