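import Pool.Agent.Lib.PDT.Base
import Pool.Agent.Lib.PDT.Base2
import Pool.Agent.Lib.PDT.Pack
import Pool.Agent.Lib.PDT.ChainQ
import Pool.Agent.Lib.PDT.DerCo
import Pool.Agent.Lib.PDT.Univ

/-!
# PDT/InjRef: the refined form of `inj_main`, for a finite family and with support control

ADAPTATION of the proved file `PDT/Inj` (copy its private lemmas and its steps (1)-(4); read its header).
The differences: `v = Ψ m := Σ_i mxS L (s2 (p i)) (m i)` for `m : Fin a → M`; there is no hypothesis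
`hgeo`; the derivation is described by an explicit function `ν`; the finite set `E` of cosets is chosen
before `Λ, M, L`.

Complete proof.  Take `α1, α2, β, s` from `package`, `l0, l1` from `chain_to_Q`, `e : P0` with `εP e = 1`,
`u0 = l0 e` (`ε u0 = 1`), and for every `x : G` choose `q_x : Q1` with `d1 q_x = el x • u0 - u0` (`R.ex0`).
`E = ` the set of the cosets `(g : G ⧸ H)` for `g` in the support of one of the group ring elements
`(α2 (p i)) (q_x)`, `i : Fin a`, `x ∈ S`: finite.  Now let `Λ, M, L` be given, `γ = gam H w L`.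
`c_m = Σ_i γ(α2 (p i), m_i) : Q1 →ₗ Ind`, linear in `m`.  `Θ m k = (c_m (l1 e_k))(1)`,
`ν (m, b) g = bh_b(e) - (c_m q_g)(g)` where `bh_b y = Σ_l T(y_l) b_l` (`Inj_bh`), `T = actT L (w.comp H.subtype)`:
both are linear (over `Λ`) in `m`, resp. `(m, b)`.
Let `m` be with `Σ_i actR L ((p i) k) (m i) = 0` for all `k`.  `c_m ∘ d2 = Σ_i γ(α1 (p i), m_i) =
Σ_k γ(α1 e_k, Σ_i actR L ((p i) k) (m i)) = 0` (claim 3 of `Inj`).  First assertion: as in `Inj` (4).
Let now `b` be with `Θ m k = Σ_l T((d e_k)_l) b_l`, `c = c_m`, `μ = bh_b e`.  `der_of_cocycle` for `c`, `u0` gives `δ` with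
`δ x = c q_x`.  As in `Inj` (5): `(δ h)(1) = w(h) L(h) μ - μ` for `h ∈ H`.  `ν g = μ - (δ g)(g)`.
(1) `ν(g h) = w(h) L(h⁻¹) ν(g)`: `δ(g h)(g h) = (δ g)(g h) + (δ h)(h)`, `(δ g)(g h) = w(h) L(h⁻¹) (δ g)(g)`,
`(δ h)(h) = w(h) L(h⁻¹) (δ h)(1) = μ - w(h) L(h⁻¹) μ`.
(2) `ν(x⁻¹ g) - ν(g) = (δ x)(g)`: by the cocycle rule `δ(g) = δ(x) + el x • δ(x⁻¹ g)`, evaluated at `g`:
`(δ g)(g) = (δ x)(g) + (δ (x⁻¹ g))(x⁻¹ g)`.
(3) If `x ∈ S` and `ν(x⁻¹ g) ≠ ν(g)` then `0 ≠ (δ x)(g) = Σ_i (((α2 (p i)) q_x) • th m_i)(g)`, and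
`(y • th m)(g) ≠ 0` implies `g ∈ supp(y) H` [`(el x • th m)(g) = (th m)(x⁻¹ g)`, zero unless `x⁻¹ g ∈ H`, i.e.
`x H = g H`]: so `(g : G ⧸ H) ∈ E`.
(4) If `ν` has finite support in `G ⧸ H` then with (1) `ν ∈ Ind`, and (2) says `δ x = el x • ν - ν`, so by `der_of_cocycle`
`c = b' ∘ d1`.  As in `Inj` (2), (3): `univ` for `lam r m = mxS L (s2 (β r)) m` gives `B` with
`B (γ(r, m)) = mxS L (s2 (β r)) m`, `B (b' ∘ d1) = 0`, and `B (c_m) = Σ_i mxS L (s2 (p i + s (p i))) (m i) =
Ψ m + Σ_k mxS L (s2 (s e_k)) (Σ_i actR L ((p i) k) (m i)) = Ψ m` (claim 4 of `Inj`).  So `Ψ m = 0`.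
-/

namespace PDT

open Function

universe u

section aux

variable {G : Type*} [Group G] (H : Subgroup G) {Λ M : Type*} [Ring Λ] [AddCommGroup M]
  [Module Λ M] (w : G →* ℤˣ) (L : H →* Module.End Λ M)

/-- `gam` as an additive map in the first variable. -/
private noncomputable def InjRef_gamR {Q : Type*} [AddCommGroup Q] [Module (Zg G) Q] (m : M) :
    (Q →ₗ[Zg G] Zg G) →+ (Q →ₗ[Zg G] Ind H w L) where
  toFun r := gam H w L r m
  map_zero' := gam_zero_left H w L m
  map_add' a b := gam_add_left H w L a b m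

private theorem InjRef_gam_zero {Q : Type*} [AddCommGroup Q] [Module (Zg G) Q]
    (r : Q →ₗ[Zg G] Zg G) : gam H w L r (0 : M) = 0 := (gamL H w L r).map_zero

private theorem InjRef_gam_act {Q : Type*} [AddCommGroup Q] [Module (Zg G) Q] {P : Type*}
    [AddCommGroup P] [Module (Zg H) P] (α : P →+ (Q →ₗ[Zg G] Zg G))
    (hα : ∀ (h : H) (p : P), α (el h • p) = tw w (h : G) (α p)) (y : Zg H) (p : P) (m : M) :
    gam H w L (α (y • p)) m = gam H w L (α p) (actR L y m) := by
  let F : Zg H →+ (Q →ₗ[Zg G] Ind H w L) :=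
    { toFun := fun y => gam H w L (α (y • p)) m
      map_zero' := by rw [zero_smul, map_zero, gam_zero_left]
      map_add' := fun a b => by rw [add_smul, map_add, gam_add_left] }
  let F' : Zg H →+ (Q →ₗ[Zg G] Ind H w L) :=
    { toFun := fun y => gam H w L (α p) (actR L y m)
      map_zero' := by rw [map_zero, LinearMap.zero_apply, InjRef_gam_zero]
      map_add' := fun a b => by rw [map_add, LinearMap.add_apply, gam_add_right] }
  have h : F = F' := by
    refine zhom_ext (A := Q →ₗ[Zg G] Ind H w L) fun g => ?_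
    change gam H w L (α (el g • p)) m = gam H w L (α p) (actR L (el g) m)
    rw [hα, gam_tw, actR_el]
  exact DFunLike.congr_fun h y

private theorem InjRef_mxF_act {a : ℕ} (y : Zg H) (x : Fin a → Zg H) (m : M) :
    mxF L (y • x) m = mxF L x (actR L y m) := by
  ext k
  rw [mxF_apply, mxF_apply, Pi.smul_apply, smul_eq_mul, actR_mul, Module.End.mul_apply]

private theorem InjRef_mxS_act {I : Type*} (y : Zg H) (x : I →₀ Zg H) (m : M) :
    mxS L (y • x) m = mxS L x (actR L y m) := by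
  ext k
  rw [mxS_apply, mxS_apply, Finsupp.smul_apply, smul_eq_mul, actR_mul, Module.End.mul_apply]

/-- `mxS` as an additive map. -/
private noncomputable def InjRef_mxA (I : Type*) (m : M) : (I →₀ Zg H) →+ (I →₀ M) where
  toFun x := mxS L x m
  map_zero' := mxS_zero L m
  map_add' a b := mxS_add L a b m

private theorem InjRef_basis {a : ℕ} (x : Fin a → Zg H) :
    x = ∑ k, x k • (Pi.single k (1 : Zg H) : Fin a → Zg H) := by
  ext1 j
  simp [Finset.sum_apply, Pi.single_apply]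

private theorem InjRef_actT {P : Type*} [AddCommGroup P] [Module (Zg H) P] (u : P →+ M)
    (hu : ∀ (h : H) (x : P), u (el h • x) = (w h : ℤ) • L h (u x)) (y : Zg H) (x : P) :
    u (y • x) = actT L (w.comp H.subtype) y (u x) := by
  let F : Zg H →+ M :=
    { toFun := fun y => u (y • x)
      map_zero' := by rw [zero_smul, map_zero]
      map_add' := fun a b => by rw [add_smul, map_add] }
  let F' : Zg H →+ M :=
    { toFun := fun y => actT L (w.comp H.subtype) y (u x)
      map_zero' := by rw [map_zero, LinearMap.zero_apply]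
      map_add' := fun a b => by rw [map_add, LinearMap.add_apply] }
  have h : F = F' := by
    apply zhom_ext
    intro g
    change u (el g • x) = actT L (w.comp H.subtype) (el g) (u x)
    rw [hu, actT_el]
    rfl
  exact DFunLike.congr_fun h y

private theorem InjRef_expand {a : ℕ} (u : (Fin a → Zg H) →+ M)
    (hu : ∀ (h : H) (x : Fin a → Zg H), u (el h • x) = (w h : ℤ) • L h (u x))
    (x : Fin a → Zg H) :
    u x = ∑ k, actT L (w.comp H.subtype) (x k) (u (Pi.single k 1)) := by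
  conv_lhs => rw [InjRef_basis H x]
  rw [map_sum]
  exact Finset.sum_congr rfl fun k _ => InjRef_actT H w L u hu _ _

/-- the additive map `y ↦ Σ y_l ⋆ b_l` -/
private noncomputable def InjRef_bh {a : ℕ} (b : Fin a → M) : (Fin a → Zg H) →+ M where
  toFun y := ∑ l, actT L (w.comp H.subtype) (y l) (b l)
  map_zero' := by simp
  map_add' x y := by
    rw [← Finset.sum_add_distrib]
    refine Finset.sum_congr rfl fun l _ => ?_
    rw [Pi.add_apply, map_add, LinearMap.add_apply]

private theorem InjRef_bh_apply {a : ℕ} (b : Fin a → M) (y : Fin a → Zg H) :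
    InjRef_bh H w L b y = ∑ l, actT L (w.comp H.subtype) (y l) (b l) := rfl

private theorem InjRef_bh_el {a : ℕ} (b : Fin a → M) (h : H) (y : Fin a → Zg H) :
    InjRef_bh H w L b (el h • y) = (w h : ℤ) • L h (InjRef_bh H w L b y) := by
  rw [InjRef_bh_apply, InjRef_bh_apply, map_sum, Finset.smul_sum]
  refine Finset.sum_congr rfl fun l _ => ?_
  rw [Pi.smul_apply, smul_eq_mul, actT_mul, Module.End.mul_apply, actT_el]
  rfl

private theorem InjRef_bh_add {a : ℕ} (b b' : Fin a → M) (y : Fin a → Zg H) :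
    InjRef_bh H w L (b + b') y = InjRef_bh H w L b y + InjRef_bh H w L b' y := by
  rw [InjRef_bh_apply, InjRef_bh_apply, InjRef_bh_apply, ← Finset.sum_add_distrib]
  refine Finset.sum_congr rfl fun l _ => ?_
  rw [Pi.add_apply, map_add]

private theorem InjRef_bh_smul {a : ℕ} (c : Λ) (b : Fin a → M) (y : Fin a → Zg H) :
    InjRef_bh H w L (c • b) y = c • InjRef_bh H w L b y := by
  rw [InjRef_bh_apply, InjRef_bh_apply, Finset.smul_sum]
  refine Finset.sum_congr rfl fun l _ => ?_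
  rw [Pi.smul_apply, map_smul]

private theorem InjRef_smul_apply (y : Zg G) (φ : Ind H w L) (g : G) :
    ((y • φ : Ind H w L) : G → M) g = zl (fun x : G => (φ : G → M) (x⁻¹ * g)) y := by
  let F : Zg G →+ M :=
    { toFun := fun y => ((y • φ : Ind H w L) : G → M) g
      map_zero' := by rw [zero_smul]; rfl
      map_add' := fun a b => by rw [add_smul]; rfl }
  have h : F = zl (fun x : G => (φ : G → M) (x⁻¹ * g)) := by
    apply zhom_ext
    intro x
    change ((el x • φ : Ind H w L) : G → M) g = _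
    rw [el_smul_ind_apply, zl_el]
  exact DFunLike.congr_fun h y

private theorem InjRef_supp (y : Zg G) (m : M) (g : G)
    (h : ((y • th H w L m : Ind H w L) : G → M) g ≠ 0) :
    (g : G ⧸ H) ∈ (fun g : G => (g : G ⧸ H)) '' (y.coeff.support : Set G) := by
  rw [InjRef_smul_apply, zl_apply, Finsupp.sum] at h
  obtain ⟨x, hx, hne⟩ := Finset.exists_ne_zero_of_sum_ne_zero h
  refine ⟨x, hx, ?_⟩
  have h1 : x⁻¹ * g ∈ H := by
    by_contra h2
    apply hne
    rw [th_apply_not_mem H w L m _ h2, smul_zero]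
  exact QuotientGroup.eq.mpr h1

end aux

theorem inj_ref {G : Type u} [Group G] (R : Res G) (H : Subgroup G) (w : G →* ℤˣ)
    (hw : ∀ (x : G) (f : R.Q3 →ₗ[Zg G] Zg G), R.e (tw w x f) = R.e f)
    {a0 a1 : ℕ} (εP : (Fin a0 → Zg H) →+ ℤ)
    (hε : ∀ (h : H) (p : Fin a0 → Zg H), εP (el h • p) = εP p) (hs : Surjective εP)
    (d : (Fin a1 → Zg H) →ₗ[Zg H] (Fin a0 → Zg H))
    (hex : ∀ p : Fin a0 → Zg H, εP p = 0 ↔ ∃ q, d q = p)
    (hproj : Module.Projective (Zg H) (LinearMap.ker d))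
    (s2 : LinearMap.ker d →ₗ[Zg H] (LinearMap.ker d →₀ Zg H))
    (hs2 : ∀ p, Finsupp.linearCombination (Zg H) id (s2 p) = p)
    {a : ℕ} (p : Fin a → LinearMap.ker d) (S : Finset G) :
    ∃ E : Set (G ⧸ H), E.Finite ∧
      ∀ (Λ : Type) (M : Type u) [Ring Λ] [AddCommGroup M] [Module Λ M] (L : H →* Module.End Λ M),
        ∃ (Θ : (Fin a → M) →ₗ[Λ] (Fin a1 → M)) (ν : ((Fin a → M) × (Fin a0 → M)) →ₗ[Λ] (G → M)),
          ∀ m : Fin a → M, (∀ k, ∑ i, actR L ((p i : Fin a1 → Zg H) k) (m i) = 0) →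
            (∀ q : LinearMap.ker d,
              ∑ k, actT L (w.comp H.subtype) ((q : Fin a1 → Zg H) k) (Θ m k) = 0) ∧
            ∀ b : Fin a0 → M,
              (∀ k, Θ m k = ∑ l, actT L (w.comp H.subtype) (d (Pi.single k 1) l) (b l)) →
              (∀ (g : G) (h : H), ν (m, b) (g * h) = (w h : ℤ) • L h⁻¹ (ν (m, b) g)) ∧
              (∀ s ∈ S, ∀ g : G, ν (m, b) (s⁻¹ * g) ≠ ν (m, b) g → (g : G ⧸ H) ∈ E) ∧
              (((fun g : G => (g : G ⧸ H)) '' {g | ν (m, b) g ≠ 0}).Finite →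
                ∑ i, mxS L (s2 (p i)) (m i) = 0) := by
  classical
  obtain ⟨α1, α2, β, s, hα1, hα2, hα12, hβ, hβ0, hβα⟩ :=
    package R H w hw εP hε hs d hex hproj
  obtain ⟨l0, l1, hl0, hl1, hεl, hdl⟩ := chain_to_Q R H εP hε d hex
  obtain ⟨e, he⟩ := hs 1
  have hu0 : R.ε (l0 e) = 1 := by rw [hεl, he]
  have hex0 : ∀ x : G, R.ε (el x • l0 e - l0 e) = 0 := by
    intro x
    rw [map_sub, R.ε_el, sub_self]
  choose q hq using fun x : G => (R.ex0 (el x • l0 e - l0 e)).1 (hex0 x)
  refine ⟨⋃ i : Fin a, ⋃ x ∈ S,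
    (fun g : G => (g : G ⧸ H)) '' (((α2 (p i)) (q x)).coeff.support : Set G), ?_, ?_⟩
  · refine Set.finite_iUnion fun i => ?_
    refine Set.Finite.biUnion S.finite_toSet fun x _ => ?_
    exact (Finset.finite_toSet _).image _
  intro Λ M _ _ _ L
  -- the cochain attached to a vector
  let C : (Fin a → M) →ₗ[Λ] (R.Q1 →ₗ[Zg G] Ind H w L) :=
    ∑ i, (gamL H w L (α2 (p i))).comp (LinearMap.proj i)
  have hC : ∀ m : Fin a → M, C m = ∑ i, gam H w L (α2 (p i)) (m i) := by
    intro m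
    change (∑ i, (gamL H w L (α2 (p i))).comp (LinearMap.proj i)) m = _
    rw [LinearMap.sum_apply]
    rfl
  let Θ : (Fin a → M) →ₗ[Λ] (Fin a1 → M) :=
    { toFun := fun m k => ((C m) (l1 (Pi.single k 1)) : G → M) 1
      map_add' := fun a b => by
        rw [map_add]
        rfl
      map_smul' := fun a b => by
        rw [map_smul]
        rfl }
  have hΘ : ∀ m k, Θ m k = ((C m) (l1 (Pi.single k 1)) : G → M) 1 := fun _ _ => rfl
  let ν : ((Fin a → M) × (Fin a0 → M)) →ₗ[Λ] (G → M) :=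
    { toFun := fun mb g => InjRef_bh H w L mb.2 e - ((C mb.1) (q g) : G → M) g
      map_add' := fun x y => by
        funext g
        rw [Prod.fst_add, Prod.snd_add, map_add, InjRef_bh_add, Pi.add_apply,
          LinearMap.add_apply, Submodule.coe_add, Pi.add_apply]
        abel
      map_smul' := fun c x => by
        funext g
        rw [Prod.smul_fst, Prod.smul_snd, map_smul, InjRef_bh_smul, LinearMap.smul_apply,
          RingHom.id_apply, Pi.smul_apply, Submodule.coe_smul, Pi.smul_apply, smul_sub] }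
  have hν : ∀ m b g, ν (m, b) g = InjRef_bh H w L b e - ((C m) (q g) : G → M) g :=
    fun _ _ _ => rfl
  have claim3 : ∀ (x : Fin a1 → Zg H) (m : M),
      ∑ k, gam H w L (α1 (Pi.single k 1)) (mxF L x m k) = gam H w L (α1 x) m := by
    intro x m
    have h1 : ∀ k, gam H w L (α1 (Pi.single k 1)) (mxF L x m k) =
        InjRef_gamR H w L m (α1 (x k • Pi.single k 1)) := by
      intro k
      rw [mxF_apply, ← InjRef_gam_act H w L α1 hα1]
      rfl
    rw [Finset.sum_congr rfl fun k _ => h1 k, ← map_sum, ← map_sum, ← InjRef_basis H x]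
    rfl
  -- the universal map
  let lam : (R.Q1 →ₗ[Zg G] Zg G) →+ (M →ₗ[Λ] (LinearMap.ker d →₀ M)) :=
    { toFun := fun r => mxS L (s2 (β r))
      map_zero' := by
        apply LinearMap.ext
        intro m
        rw [map_zero, map_zero, mxS_zero, LinearMap.zero_apply]
      map_add' := fun a b => by
        apply LinearMap.ext
        intro m
        rw [map_add, map_add, mxS_add, LinearMap.add_apply] }
  have hlam : ∀ (h : H) (r : R.Q1 →ₗ[Zg G] Zg G) (m : M),
      lam (tw w (h : G) r) m = lam r (L h⁻¹ m) := by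
    intro h r m
    change mxS L (s2 (β (tw w (h : G) r))) m = mxS L (s2 (β r)) (L h⁻¹ m)
    rw [hβ, map_smul, mxS_el_smul]
  obtain ⟨B, hB⟩ := univ H w L lam hlam
  have hB' : ∀ r m, B (gam H w L r m) = mxS L (s2 (β r)) m := fun r m => hB r m
  have claim4 : ∀ (x : Fin a1 → Zg H) (m : M),
      ∑ k, mxS L (s2 (s (Pi.single k 1))) (mxF L x m k) = mxS L (s2 (s x)) m := by
    intro x m
    have h1 : ∀ k, mxS L (s2 (s (Pi.single k 1))) (mxF L x m k) =
        InjRef_mxA H L (LinearMap.ker d) m (s2 (s (x k • Pi.single k 1))) := by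
      intro k
      rw [mxF_apply, ← InjRef_mxS_act, map_smul s, map_smul s2]
      rfl
    rw [Finset.sum_congr rfl fun k _ => h1 k, ← map_sum, ← map_sum, ← map_sum,
      ← InjRef_basis H x]
    rfl
  have step3 : ∀ c : R.Q0 →ₗ[Zg G] Ind H w L, B (c ∘ₗ R.d1) = 0 := by
    intro c
    have hc := gam_span H w L c
    induction hc using AddSubgroup.closure_induction with
    | mem x hx =>
      obtain ⟨r, m, rfl⟩ := hx
      rw [← gam_comp, hB', hβ0, map_zero, mxS_zero]
    | zero => rw [LinearMap.zero_comp, map_zero]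
    | add x y _ _ hx hy => rw [LinearMap.add_comp, map_add, hx, hy, add_zero]
    | neg x _ hx =>
      have h1 : x ∘ₗ R.d1 + (-x) ∘ₗ R.d1 = 0 := by
        apply LinearMap.ext
        intro q
        change x (R.d1 q) + -(x (R.d1 q)) = 0
        exact add_neg_cancel _
      have h2 : B (x ∘ₗ R.d1) + B ((-x) ∘ₗ R.d1) = 0 := by
        rw [← map_add, h1, map_zero]
      rwa [hx, zero_add] at h2
  refine ⟨Θ, ν, fun m hm => ?_⟩
  have hc2 : C m ∘ₗ R.d2 = 0 := by
    have h1 : C m ∘ₗ R.d2 = ∑ i, gam H w L (α1 (p i : Fin a1 → Zg H)) (m i) := by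
      apply LinearMap.ext
      intro r
      rw [LinearMap.comp_apply, hC, LinearMap.sum_apply, LinearMap.sum_apply]
      refine Finset.sum_congr rfl fun i _ => ?_
      rw [← hα12 (p i), gam_comp]
      rfl
    rw [h1, Finset.sum_congr rfl fun i _ => (claim3 (p i : Fin a1 → Zg H) (m i)).symm,
      Finset.sum_comm]
    apply Finset.sum_eq_zero
    intro k _
    have h2 : ∀ i, gam H w L (α1 (Pi.single k 1)) (mxF L (p i : Fin a1 → Zg H) (m i) k) =
        gamL H w L (α1 (Pi.single k 1)) (actR L ((p i : Fin a1 → Zg H) k) (m i)) := fun i => rfl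
    rw [Finset.sum_congr rfl fun i _ => h2 i, ← map_sum, hm k, map_zero]
  let u : (Fin a1 → Zg H) →+ M :=
    { toFun := fun x => ((C m) (l1 x) : G → M) 1
      map_zero' := by
        rw [map_zero, map_zero]
        rfl
      map_add' := fun a b => by
        rw [map_add, map_add]
        rfl }
  have hu : ∀ (h : H) (x : Fin a1 → Zg H), u (el h • x) = (w h : ℤ) • L h (u x) := by
    intro h x
    change ((C m) (l1 (el h • x)) : G → M) 1 = (w h : ℤ) • L h (((C m) (l1 x) : G → M) 1)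
    rw [hl1, map_smul, el_smul_ind_apply]
    have h1 := Ind_equiv (C m (l1 x)) 1 h⁻¹
    rw [inv_inv, one_mul] at h1
    have h2 : (h : G)⁻¹ * 1 = ((h⁻¹ : H) : G) := by simp
    rw [h2, h1]
    congr 1
    rw [Subgroup.coe_inv, map_inv]
    rcases Int.units_eq_one_or (w (h : G)) with e | e <;> simp [e]
  have hux : ∀ x : Fin a1 → Zg H,
      u x = ∑ k, actT L (w.comp H.subtype) (x k) (Θ m k) := by
    intro x
    rw [InjRef_expand H w L u hu x]
    rfl
  constructor
  · intro p'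
    rw [← hux]
    have h1 : R.d1 (l1 (p' : Fin a1 → Zg H)) = 0 := by
      rw [hdl, LinearMap.mem_ker.1 p'.2, map_zero]
    obtain ⟨q', hq'⟩ := (R.ex1 _).1 h1
    change ((C m) (l1 (p' : Fin a1 → Zg H)) : G → M) 1 = 0
    rw [← hq']
    have h2 : (C m) (R.d2 q') = 0 := DFunLike.congr_fun hc2 q'
    rw [h2]
    rfl
  intro b hb
  have hud : ∀ x, u x = InjRef_bh H w L b (d x) := by
    intro x
    rw [hux]
    conv_rhs => rw [InjRef_basis H x, map_sum, map_sum]
    refine Finset.sum_congr rfl fun k _ => ?_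
    rw [map_smul, InjRef_actT H w L (InjRef_bh H w L b) (InjRef_bh_el H w L b), hb k]
    rfl
  obtain ⟨δ, hδ, hδq, hδin⟩ := der_of_cocycle R (C m) hc2 (l0 e) hu0
  have hδx : ∀ x, δ x = C m (q x) := fun x => hδq x (q x) (hq x)
  have hδh : ∀ h : H, (δ (h : G) : G → M) 1 =
      (w h : ℤ) • L h (InjRef_bh H w L b e) - InjRef_bh H w L b e := by
    intro h
    have h1 : εP (el h • e - e) = 0 := by rw [map_sub, hε, sub_self]
    obtain ⟨x, hx⟩ := (hex _).1 h1
    have h2 : R.d1 (l1 x) = el (h : G) • l0 e - l0 e := by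
      rw [hdl, hx, map_sub, hl0]
    rw [hδq _ _ h2]
    change u x = _
    rw [hud, hx, map_sub, InjRef_bh_el]
  obtain ⟨μ, hμ⟩ : ∃ μ, μ = InjRef_bh H w L b e := ⟨_, rfl⟩
  rw [← hμ] at hδh
  have hνδ : ∀ g, ν (m, b) g = μ - (δ g : G → M) g := by
    intro g
    rw [hν, hδx, hμ]
  have hww : ∀ h : H, ((w (h : G) : ℤˣ) : ℤ) * ((w (h : G) : ℤˣ) : ℤ) = 1 := by
    intro h
    rcases Int.units_eq_one_or (w (h : G)) with e | e <;> simp [e]
  have hsplit : ∀ x y g : G, (δ (x * y) : G → M) g = (δ x : G → M) g + (δ y : G → M) (x⁻¹ * g) := by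
    intro x y g
    rw [hδ, Submodule.coe_add, Pi.add_apply, el_smul_ind_apply]
  have hequiv : ∀ (g : G) (h : H), ν (m, b) (g * h) = (w h : ℤ) • L h⁻¹ (ν (m, b) g) := by
    intro g h
    have h3 : (δ (h : G) : G → M) (h : G) = μ - (w h : ℤ) • L h⁻¹ μ := by
      have h4 := Ind_equiv (δ (h : G)) 1 h
      rw [one_mul, hδh] at h4
      rw [h4, map_sub, map_zsmul, smul_sub, smul_smul, hww, one_smul,
        ← Module.End.mul_apply, ← map_mul, inv_mul_cancel, map_one, Module.End.one_apply]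
    rw [hνδ, hνδ, hsplit, Ind_equiv, inv_mul_cancel_left, h3, map_sub, smul_sub]
    abel
  have hdiff : ∀ x g : G, ν (m, b) (x⁻¹ * g) - ν (m, b) g = (δ x : G → M) g := by
    intro x g
    have h5 := hsplit x (x⁻¹ * g) g
    rw [mul_inv_cancel_left] at h5
    rw [hνδ, hνδ, h5]
    abel
  refine ⟨hequiv, ?_, ?_⟩
  · intro x hx g hne
    have h6 : (δ x : G → M) g ≠ 0 := by
      rw [← hdiff]
      exact sub_ne_zero.mpr hne
    rw [hδx, hC, LinearMap.sum_apply, AddSubmonoidClass.coe_finsetSum, Finset.sum_apply] at h6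
    obtain ⟨i, -, hi⟩ := Finset.exists_ne_zero_of_sum_ne_zero h6
    rw [gam_apply] at hi
    have h7 := InjRef_supp H w L _ _ _ hi
    simp only [Set.mem_iUnion]
    exact ⟨i, x, hx, h7⟩
  · intro hfin
    obtain ⟨b', hb'⟩ := hδin ⟨⟨ν (m, b), hequiv, hfin⟩, fun x => by
      apply Subtype.ext
      funext g
      rw [Submodule.coe_sub, Pi.sub_apply, el_smul_ind_apply]
      exact (hdiff x g).symm⟩
    have h8 : B (C m) = 0 := by rw [hb', step3]
    rw [hC, map_sum] at h8
    have h9 : ∀ i, B (gam H w L (α2 (p i)) (m i)) =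
        mxS L (s2 (p i)) (m i) + ∑ k, mxS L (s2 (s (Pi.single k 1)))
          (actR L ((p i : Fin a1 → Zg H) k) (m i)) := by
      intro i
      rw [hB', hβα, map_add, mxS_add, ← claim4]
      rfl
    rw [Finset.sum_congr rfl fun i _ => h9 i, Finset.sum_add_distrib, Finset.sum_comm] at h8
    have h10 : ∑ k, ∑ i, mxS L (s2 (s (Pi.single k 1)))
        (actR L ((p i : Fin a1 → Zg H) k) (m i)) = 0 := by
      apply Finset.sum_eq_zero
      intro k _
      rw [← map_sum, hm k, map_zero]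
    rw [h10, add_zero] at h8
    exact h8

end PDT
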