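import Pool.Agent.Lib.PDT.Base

/-!
# PDT/LiftQ: H-equivariant maps out of a projective ℤ[G]-module can be lifted

Complete proof.  STEP 0 (functions).  Let `F : G → B` with `F (h g) = el h • F g` for `h ∈ H` and
`F g ∈ range π` for all `g`.  Then there is `F' : G → A` with `F' (h g) = el h • F' g`,
`π (F' g) = F g`.  Proof: choose a representative `t(g)` of every right coset `H g` (e.g. with
`Quotient.out` of `QuotientGroup.rightRel H`, or `t(g) = (Quotient.out (g⁻¹ : G ⧸ H))⁻¹`), so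
`t(h g) = t(g)` and `g t(g)⁻¹ ∈ H`; choose `a_g` with `π a_g = F g`; put
`F' g = el (g t(g)⁻¹) • a_{t(g)}`.
STEP 1.  By `dualBasis Q`: `q = Σ_i f_i(q) • e_i`.  Put `F_i(g) = f (el g • e_i)`; this satisfies the
hypothesis of step 0 (`hf`, `el_mul`).  So `f q = Σ_i zl F_i (f_i q)` (both sides additive in
`y = f_i q`, use `zhom_ext`: `zl F_i y = f (y • e_i)`).  Take the lifts `F'_i` and define
`f' q = Σ_i zl F'_i (f_i q)`.  Equivariance: `zl F'_i (el h * y) = el h • zl F'_i y` (additive in `y`,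
check on `y = el g`), and `f_i (el h • q) = el h * f_i q`.  `π (f' q) = Σ zl F_i (f_i q) = f q`
(`π (zl F'_i y) = zl F_i y`, check on `el g`).
-/

namespace PDT

open Function

private theorem LiftQ_step {G : Type*} [Group G] (H : Subgroup G) {A B : Type*} [AddCommGroup A]
    [Module (Zg H) A] [AddCommGroup B] [Module (Zg H) B] (π : A →ₗ[Zg H] B) (F : G → B)
    (hF : ∀ (h : H) (g : G), F (h * g) = el h • F g) (hr : ∀ g, ∃ a, π a = F g) :
    ∃ F' : G → A, (∀ (h : H) (g : G), F' (h * g) = el h • F' g) ∧ ∀ g, π (F' g) = F g := by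
  choose a ha using hr
  let t : G → G := fun g => ((((g⁻¹ : G) : G ⧸ H)).out)⁻¹
  have ht : ∀ g, g * (t g)⁻¹ ∈ H := by
    intro g
    obtain ⟨h, hh⟩ := QuotientGroup.mk_out_eq_mul H (g⁻¹ : G)
    have h1 : (t g)⁻¹ = g⁻¹ * h := by
      show ((((g⁻¹ : G) : G ⧸ H)).out)⁻¹⁻¹ = _
      rw [inv_inv, hh]
    rw [h1, mul_inv_cancel_left]
    exact h.2
  have ht2 : ∀ (h : H) (g : G), t (h * g) = t g := by
    intro h g
    show ((((((h : G) * g)⁻¹ : G) : G ⧸ H)).out)⁻¹ = ((((g⁻¹ : G) : G ⧸ H)).out)⁻¹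
    have h2 : ((((h : G) * g)⁻¹ : G) : G ⧸ H) = ((g⁻¹ : G) : G ⧸ H) := by
      rw [mul_inv_rev, QuotientGroup.eq]
      simp
    rw [h2]
  refine ⟨fun g => el (⟨g * (t g)⁻¹, ht g⟩ : H) • a (t g), ?_, ?_⟩
  · intro h g
    have h1 : (⟨(h : G) * g * (t (h * g))⁻¹, ht _⟩ : H) = h * ⟨g * (t g)⁻¹, ht g⟩ := by
      apply Subtype.ext
      show (h : G) * g * (t (h * g))⁻¹ = (h : G) * (g * (t g)⁻¹)
      rw [ht2, mul_assoc]
    show el (⟨(h : G) * g * (t (h * g))⁻¹, ht _⟩ : H) • a (t (h * g)) =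
      el h • el (⟨g * (t g)⁻¹, ht g⟩ : H) • a (t g)
    rw [h1, el_mul, mul_smul, ht2]
  · intro g
    show π (el (⟨g * (t g)⁻¹, ht g⟩ : H) • a (t g)) = F g
    rw [map_smul, ha, ← hF]
    congr 1
    show g * (t g)⁻¹ * t g = g
    rw [inv_mul_cancel_right]

private theorem LiftQ_zl {G : Type*} [Group G] (H : Subgroup G) {A : Type*} [AddCommGroup A]
    [Module (Zg H) A] (F : G → A) (hF : ∀ (h : H) (g : G), F (h * g) = el h • F g) (h : H)
    (y : Zg G) : zl F (el (h : G) * y) = el h • zl F y := by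
  have e : (zl F).comp (AddMonoidHom.mulLeft (el (h : G))) =
      (DistribSMul.toAddMonoidHom A (el h)).comp (zl F) := by
    apply zhom_ext
    intro g
    show zl F (el (h : G) * el g) = el h • zl F (el g)
    rw [← el_mul, zl_el, zl_el, hF]
  exact DFunLike.congr_fun e y

theorem lift_Q {G : Type*} [Group G] (H : Subgroup G) {Q A B : Type*} [AddCommGroup Q]
    [Module (Zg G) Q] [Module.Finite (Zg G) Q] [Module.Projective (Zg G) Q] [AddCommGroup A]
    [Module (Zg H) A] [AddCommGroup B] [Module (Zg H) B] (π : A →ₗ[Zg H] B) (f : Q →+ B)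
    (hf : ∀ (h : H) (q : Q), f (el (h : G) • q) = el h • f q) (hr : ∀ q, ∃ a, π a = f q) :
    ∃ f' : Q →+ A, (∀ (h : H) (q : Q), f' (el (h : G) • q) = el h • f' q) ∧
      ∀ q, π (f' q) = f q := by
  obtain ⟨n, e, φ, hφ⟩ := dualBasis (G := G) Q
  have hF : ∀ (i : Fin n), ∃ F' : G → A, (∀ (h : H) (g : G), F' (h * g) = el h • F' g) ∧
      ∀ g, π (F' g) = f (el g • e i) := by
    intro i
    refine LiftQ_step H π (fun g => f (el g • e i)) ?_ fun g => hr _
    intro h g
    show f (el ((h : G) * g) • e i) = el h • f (el g • e i)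
    rw [← hf, el_smul_smul]
  choose F' h1 h2 using hF
  have h3 : ∀ (i : Fin n) (y : Zg G), π (zl (F' i) y) = f (y • e i) := by
    intro i y
    have e1 : π.toAddMonoidHom.comp (zl (F' i)) =
        f.comp ((smulAddHom (Zg G) Q).flip (e i)) := by
      apply zhom_ext
      intro g
      show π (zl (F' i) (el g)) = f (el g • e i)
      rw [zl_el, h2]
    exact DFunLike.congr_fun e1 y
  refine ⟨∑ i, (zl (F' i)).comp (φ i).toAddMonoidHom, ?_, ?_⟩
  · intro h q
    rw [AddMonoidHom.finsetSum_apply, AddMonoidHom.finsetSum_apply, Finset.smul_sum]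
    refine Finset.sum_congr rfl fun i _ => ?_
    show zl (F' i) (φ i (el (h : G) • q)) = el h • zl (F' i) (φ i q)
    rw [map_smul, smul_eq_mul]
    exact LiftQ_zl H (F' i) (h1 i) h _
  · intro q
    rw [AddMonoidHom.finsetSum_apply, map_sum]
    conv_rhs => rw [hφ q, map_sum]
    exact Finset.sum_congr rfl fun i _ => h3 i _

end PDT
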