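import Pool.Agent.Lib.PDT.Base
import Pool.Agent.Lib.PDT.ChainQ
import Pool.Agent.Lib.PDT.LiftQ

/-!
# PDT/KerProj: the second syzygy over ℤ[H] is projective

`P1 → P0 → ℤ → 0` exact, `P0, P1` projective over `ℤ[H]`, and `r : Q2 → Q3` an `H`-equivariant
retraction of `d3` (`PDT/Strebel`).  Claim: `P2 = ker d` is projective.

Complete proof.  Let `l0, l1` be as in `chain_to_Q`.
(a) `μ0 : Q0 →+ P0` equivariant with `εP (μ0 q) = ε q`: `lift_Q` for `π = εP : P0 → ℤ`.  (To have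
`Zg H`-linear `π` use on `ℤ` the module structure through the augmentation; or avoid it: first make
the lift for the target `P0 / ker εP`: `π = (LinearMap.range d).mkQ`, and `f : Q0 → P0 ⧸ range d`,
`f q = mkQ (ε q • e)` with `e : P0`, `εP e = 1`: it is additive, and equivariant since
`el h • e - e ∈ ker εP = range d`.  Then `π (μ0 q) = f q` means `μ0 q - ε(q) e ∈ range d`, i.e.
`εP (μ0 q) = ε q`.)
(b) `μ1 : Q1 →+ P1` equivariant with `d (μ1 q) = μ0 (d1 q)`: `lift_Q` for `π = d`, `f = μ0 ∘ d1`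
(values in `range d` by `hex`, as `εP (μ0 (d1 q)) = ε (d1 q) = 0`).
(c) `s0 : P0 →ₗ P1` with `d (s0 p) = μ0 (l0 p) - p`: `μ0 ∘ l0 - id` is `ℤ[H]`-linear (additive and
commutes with all `el h`; make it linear with `MonoidAlgebra.equivariantOfLinearOfComm` or the
induction `Zg.ind`) with values in `ker εP = range d`, and `P0` is projective
(`Module.projective_lifting_property` onto the range, or `lift_P`).
(d) `s1 p := μ1 (l1 p) - p - s0 (d p)` is in `ker d`: `d (μ1 (l1 p)) = μ0 (d1 (l1 p)) = μ0 (l0 (d p))`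
and `d (s0 (d p)) = μ0 (l0 (d p)) - d p`.  `s1 : P1 →ₗ ker d` is linear.
(e) For `p ∈ ker d`: `d1 (l1 p) = l0 (d p) = 0`, so `l1 p = d2 q` for some `q` (`ex1`), and
`σ(p) := q - d3 (r q)` does not depend on `q` (two choices differ by `d3 x`, and
`d3 x - d3 (r (d3 x)) = 0`), is additive and equivariant in `p`, and `d2 (σ p) = l1 p`.  So
`p = μ1 (d2 (σ p)) - s1 p` for all `p ∈ ker d`.  (*)
(f) To show `Module.Projective (Zg H) (ker d)`: let `A → ker d` be a surjective linear map `π` (take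
`Module.Projective.of_lifting_property''` or `Module.projective_def'`: `A = (ker d →₀ Zg H)`).  The map
`f : Q2 →+ ker d`, `f q = μ1 (d2 q)` (in `ker d`: `d (μ1 (d2 q)) = μ0 (d1 (d2 q)) = 0`) is equivariant;
by `lift_Q` it lifts to `f' : Q2 →+ A` equivariant.  The linear map `s1 : P1 → ker d` lifts to
`s1' : P1 →ₗ A` as `P1` is projective.  Then `p ↦ f' (σ p) - s1' p` is additive and equivariant, so
`ℤ[H]`-linear, and it is a section of `π` by (*).
-/

namespace PDT

open Function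

universe u

private theorem kerProj_smul {K : Type*} [Group K] {A B : Type*} [AddCommGroup A]
    [AddCommGroup B] [Module (Zg K) A] [Module (Zg K) B] (f : A →+ B)
    (h : ∀ (k : K) (a : A), f (el k • a) = el k • f a) (y : Zg K) (a : A) :
    f (y • a) = y • f a := by
  refine Zg.ind (P := fun y => f (y • a) = y • f a) y ?_ (fun k => h k a) ?_ ?_
  · simp
  · intro x z hx hz
    rw [add_smul, map_add, hx, hz, add_smul]
  · intro x hx
    rw [neg_smul, map_neg, hx, neg_smul]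

/-- an equivariant additive map is linear -/
private def kerProj_lin {K : Type*} [Group K] {A B : Type*} [AddCommGroup A]
    [AddCommGroup B] [Module (Zg K) A] [Module (Zg K) B] (f : A →+ B)
    (h : ∀ (k : K) (a : A), f (el k • a) = el k • f a) : A →ₗ[Zg K] B where
  toFun := f
  map_add' := f.map_add
  map_smul' y a := kerProj_smul f h y a

private theorem kerProj_lin_apply {K : Type*} [Group K] {A B : Type*} [AddCommGroup A]
    [AddCommGroup B] [Module (Zg K) A] [Module (Zg K) B] (f : A →+ B)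
    (h : ∀ (k : K) (a : A), f (el k • a) = el k • f a) (a : A) : kerProj_lin f h a = f a := rfl

/-- step (a) -/
private theorem kerProj_mu0 {G : Type u} [Group G] (R : Res G) (H : Subgroup G) {P0 P1 : Type*}
    [AddCommGroup P0] [AddCommGroup P1] [Module (Zg H) P0] [Module (Zg H) P1]
    (εP : P0 →+ ℤ)
    (hε : ∀ (h : H) (p : P0), εP (el h • p) = εP p) (hs : Surjective εP) (d : P1 →ₗ[Zg H] P0)
    (hex : ∀ p : P0, εP p = 0 ↔ ∃ q, d q = p) :
    ∃ μ0 : R.Q0 →+ P0, (∀ (h : H) (q : R.Q0), μ0 (el (h : G) • q) = el h • μ0 q) ∧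
      ∀ q, εP (μ0 q) = R.ε q := by
  obtain ⟨e0, he0⟩ := hs 1
  let f0 : R.Q0 →+ P0 ⧸ LinearMap.range d :=
    AddMonoidHom.mk' (fun q => (LinearMap.range d).mkQ (R.ε q • e0)) (fun a b => by
      rw [map_add, add_smul, map_add])
  have hf0 : ∀ q, f0 q = (LinearMap.range d).mkQ (R.ε q • e0) := fun _ => rfl
  obtain ⟨μ0, h1, h2⟩ := lift_Q H (LinearMap.range d).mkQ f0 (fun h q => by
    rw [hf0, hf0, R.ε_el, ← map_smul, ← sub_eq_zero, ← map_sub]
    rw [Submodule.mkQ_apply, Submodule.Quotient.mk_eq_zero, LinearMap.mem_range]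
    have h3 : εP (R.ε q • e0 - el h • R.ε q • e0) = 0 := by
      rw [map_sub, hε, sub_self]
    exact (hex _).1 h3) (fun q => (LinearMap.range d).mkQ_surjective (f0 q))
  refine ⟨μ0, h1, fun q => ?_⟩
  have h3 := h2 q
  rw [hf0, ← sub_eq_zero, ← map_sub, Submodule.mkQ_apply, Submodule.Quotient.mk_eq_zero,
    LinearMap.mem_range] at h3
  have h4 := (hex _).2 h3
  rw [map_sub, map_zsmul, he0, sub_eq_zero] at h4
  simpa using h4

theorem ker_projective {G : Type u} [Group G] (R : Res G) (H : Subgroup G) {P0 P1 : Type*}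
    [AddCommGroup P0] [AddCommGroup P1] [Module (Zg H) P0] [Module (Zg H) P1]
    [Module.Projective (Zg H) P0] [Module.Projective (Zg H) P1] (εP : P0 →+ ℤ)
    (hε : ∀ (h : H) (p : P0), εP (el h • p) = εP p) (hs : Surjective εP) (d : P1 →ₗ[Zg H] P0)
    (hex : ∀ p : P0, εP p = 0 ↔ ∃ q, d q = p) (r : R.Q2 →+ R.Q3)
    (hr : ∀ (h : H) (q : R.Q2), r (el (h : G) • q) = el (h : G) • r q)
    (hr2 : ∀ q, r (R.d3 q) = q) :
    Module.Projective (Zg H) (LinearMap.ker d) := by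
  obtain ⟨l0, l1, hl0, hl1, hl0ε, hl1d⟩ := chain_to_Q R H εP hε d hex
  obtain ⟨μ0, hμ0, hμ0ε⟩ := kerProj_mu0 R H εP hε hs d hex
  -- (b)
  obtain ⟨μ1, hμ1, hμ1d⟩ := lift_Q H d (μ0.comp R.d1.toAddMonoidHom) (fun h q => by
    show μ0 (R.d1 (el (h : G) • q)) = el h • μ0 (R.d1 q)
    rw [map_smul, hμ0]) (fun q => by
    refine (hex _).1 ?_
    show εP (μ0 (R.d1 q)) = 0
    rw [hμ0ε]
    exact (R.ex0 _).2 ⟨q, rfl⟩)
  have hμ1d' : ∀ q, d (μ1 q) = μ0 (R.d1 q) := hμ1d
  -- (c)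
  let A0 : P0 →ₗ[Zg H] P0 := kerProj_lin (μ0.comp l0) (fun h p => by
    show μ0 (l0 (el h • p)) = el h • μ0 (l0 p)
    rw [hl0, hμ0])
  have hA0 : ∀ p, A0 p = μ0 (l0 p) := fun _ => rfl
  let B0 : P0 →ₗ[Zg H] P0 := A0 - LinearMap.id
  have hB0 : ∀ p, B0 p = μ0 (l0 p) - p := fun _ => rfl
  have hA0r : ∀ p, B0 p ∈ LinearMap.range d := fun p => by
    rw [LinearMap.mem_range]
    refine (hex _).1 ?_
    rw [hB0, map_sub, hμ0ε, hl0ε, sub_self]
  obtain ⟨s0, hs0⟩ := Module.projective_lifting_property d.rangeRestrict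
    (B0.codRestrict (LinearMap.range d) hA0r) d.surjective_rangeRestrict
  have hs0' : ∀ p, d (s0 p) = μ0 (l0 p) - p := fun p => by
    have h1 := congrArg Subtype.val (LinearMap.congr_fun hs0 p)
    exact h1
  -- (d)
  let A1 : P1 →ₗ[Zg H] P1 := kerProj_lin (μ1.comp l1) (fun h p => by
    show μ1 (l1 (el h • p)) = el h • μ1 (l1 p)
    rw [hl1, hμ1])
  have hA1 : ∀ p, A1 p = μ1 (l1 p) := fun _ => rfl
  let C1 : P1 →ₗ[Zg H] P1 := A1 - LinearMap.id - s0 ∘ₗ d
  have hC1 : ∀ p, C1 p = μ1 (l1 p) - p - s0 (d p) := fun _ => rfl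
  have hA1k : ∀ p, C1 p ∈ LinearMap.ker d := fun p => by
    rw [LinearMap.mem_ker, hC1, map_sub, map_sub, hμ1d', hl1d, hs0']
    abel
  let s1 : P1 →ₗ[Zg H] LinearMap.ker d := C1.codRestrict (LinearMap.ker d) hA1k
  have hs1 : ∀ p, (s1 p : P1) = μ1 (l1 p) - p - s0 (d p) := fun _ => rfl
  -- (e)
  have hd23 : ∀ x, R.d2 (R.d3 x) = 0 := fun x => (R.ex2 _).2 ⟨x, rfl⟩
  have hd12 : ∀ x, R.d1 (R.d2 x) = 0 := fun x => (R.ex1 _).2 ⟨x, rfl⟩
  have hwd : ∀ q q' : R.Q2, R.d2 q = R.d2 q' → q - R.d3 (r q) = q' - R.d3 (r q') := by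
    intro q q' h
    have h1 : R.d2 (q - q') = 0 := by rw [map_sub, h, sub_self]
    obtain ⟨x, hx⟩ := (R.ex2 _).1 h1
    have h2 : R.d3 (r q) - R.d3 (r q') = q - q' := by
      rw [← map_sub, ← map_sub, ← hx, hr2]
    rw [sub_eq_sub_iff_sub_eq_sub, ← h2]
  have hexq : ∀ p : LinearMap.ker d, ∃ q, R.d2 q = l1 (p : P1) := fun p => by
    refine (R.ex1 _).1 ?_
    rw [hl1d]
    have h1 : d (p : P1) = 0 := p.2
    rw [h1, map_zero]
  choose qq hqq using hexq
  let σ : LinearMap.ker d →+ R.Q2 := AddMonoidHom.mk' (fun p => qq p - R.d3 (r (qq p)))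
    (fun a b => by
      have h1 := hwd (qq (a + b)) (qq a + qq b) (by
        rw [map_add, hqq, hqq, hqq, Submodule.coe_add, map_add])
      rw [h1, map_add, map_add]
      abel)
  have hσ : ∀ p, σ p = qq p - R.d3 (r (qq p)) := fun _ => rfl
  have hσe : ∀ (h : H) (p : LinearMap.ker d), σ (el h • p) = el (h : G) • σ p := by
    intro h p
    rw [hσ, hσ, hwd (qq (el h • p)) (el (h : G) • qq p) (by
      rw [map_smul, hqq, hqq, Submodule.coe_smul, hl1]), hr, map_smul, smul_sub]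
  have hσd : ∀ p : LinearMap.ker d, R.d2 (σ p) = l1 (p : P1) := fun p => by
    rw [hσ, map_sub, hd23, sub_zero, hqq]
  -- (f)
  refine Module.Projective.of_lifting_property'' fun π hπ => ?_
  have hk : ∀ q, μ1 (R.d2 q) ∈ LinearMap.ker d := fun q => by
    rw [LinearMap.mem_ker, hμ1d', hd12, map_zero]
  let f : R.Q2 →+ LinearMap.ker d := AddMonoidHom.mk' (fun q => ⟨μ1 (R.d2 q), hk q⟩)
    (fun a b => by
      apply Subtype.ext
      show μ1 (R.d2 (a + b)) = μ1 (R.d2 a) + μ1 (R.d2 b)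
      rw [map_add, map_add])
  have hf : ∀ q, (f q : P1) = μ1 (R.d2 q) := fun _ => rfl
  obtain ⟨f', hf'e, hf'⟩ := lift_Q H π f (fun h q => by
    apply Subtype.ext
    rw [Submodule.coe_smul, hf, hf, map_smul, hμ1]) (fun q => hπ _)
  obtain ⟨s1', hs1'⟩ := Module.projective_lifting_property π s1 hπ
  let B1 : LinearMap.ker d →ₗ[Zg H] (LinearMap.ker d →₀ Zg H) :=
    kerProj_lin (f'.comp σ) (fun h p => by
      show f' (σ (el h • p)) = el h • f' (σ p)
      rw [hσe, hf'e])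
  have hB1 : ∀ p, B1 p = f' (σ p) := fun _ => rfl
  refine ⟨B1 - s1' ∘ₗ (LinearMap.ker d).subtype, ?_⟩
  apply LinearMap.ext
  intro p
  rw [LinearMap.comp_apply, LinearMap.sub_apply, LinearMap.comp_apply, map_sub, hB1, hf',
    Submodule.subtype_apply, LinearMap.id_apply]
  have h1 : π (s1' (p : P1)) = s1 (p : P1) := LinearMap.congr_fun hs1' (p : P1)
  rw [h1]
  apply Subtype.ext
  have h2 : d (p : P1) = 0 := p.2
  rw [Submodule.coe_sub, hf, hs1, hσd, h2, map_zero]
  abel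

end PDT
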