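import Mathlib

/-!
# PDT/NoMax: a function without local maxima on an infinite transitive G-set

A finitely generated group `G` (finite symmetric generating set `S`) acts transitively on an infinite
set `X`.  Claim: there is `ρ : X → ℕ` such that every `x` has a neighbour `s • x`, `s ∈ S`, with
`ρ x < ρ (s • x)`.

Call `x, y` adjacent if `y = s • x` with `s ∈ S`. Let `n x` be the distance from a fixed `x₀`.
`D k x` says: there is an increasing path of length `k` from `x`. `x` is good if `D k x` for all `k`;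
for bad `x` let `h x` be the least `k` with `¬ D k x`.
`ρ x = n x + 1 + m (n x + 1)` if `x` is good, and `ρ x = h x` if `x` is bad, where `m j` is the
supremum of `h` on the ball of radius `j`.
-/

namespace PDT

section

variable {X : Type*} {G : Type*} [Group G] [MulAction G X]

open Classical in
/-- balls around `x₀` -/
private noncomputable def NoMaxB (S : Finset G) (x₀ : X) : ℕ → Finset X
  | 0 => {x₀}
  | k + 1 => NoMaxB S x₀ k ∪ S.biUnion fun s => (NoMaxB S x₀ k).image fun x => s • x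

private theorem NoMaxB_succ (S : Finset G) (x₀ : X) (k : ℕ) (x : X) :
    x ∈ NoMaxB S x₀ (k + 1) ↔
      x ∈ NoMaxB S x₀ k ∨ ∃ s ∈ S, ∃ y ∈ NoMaxB S x₀ k, s • y = x := by
  simp [NoMaxB]

private theorem NoMaxB_mono (S : Finset G) (x₀ : X) {k l : ℕ} (h : k ≤ l) {x : X}
    (hx : x ∈ NoMaxB S x₀ k) : x ∈ NoMaxB S x₀ l := by
  induction l, h using Nat.le_induction with
  | base => exact hx
  | succ l _ ih => exact (NoMaxB_succ S x₀ l x).2 (Or.inl ih)

private theorem NoMaxB_smul (S : Finset G) (x₀ : X) {k : ℕ} {s : G} (hs : s ∈ S) {x : X}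
    (hx : x ∈ NoMaxB S x₀ k) : s • x ∈ NoMaxB S x₀ (k + 1) :=
  (NoMaxB_succ S x₀ k (s • x)).2 (Or.inr ⟨s, hs, x, hx, rfl⟩)

private theorem NoMaxB_ex [MulAction.IsPretransitive G X] (S : Finset G)
    (hS : Subgroup.closure (S : Set G) = ⊤) (hsymm : ∀ s ∈ S, s⁻¹ ∈ S) (x₀ x : X) :
    ∃ k, x ∈ NoMaxB S x₀ k := by
  have key : ∀ g ∈ Subgroup.closure (S : Set G), ∀ y : X,
      (∃ k, y ∈ NoMaxB S x₀ k) ↔ (∃ l, g • y ∈ NoMaxB S x₀ l) := by
    intro g hg
    induction hg using Subgroup.closure_induction with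
    | mem s hs =>
      intro y
      constructor
      · rintro ⟨k, hk⟩
        exact ⟨k + 1, NoMaxB_smul S x₀ hs hk⟩
      · rintro ⟨l, hl⟩
        refine ⟨l + 1, ?_⟩
        have := NoMaxB_smul S x₀ (hsymm s hs) hl
        rwa [inv_smul_smul] at this
    | one =>
      intro y
      rw [one_smul]
    | mul a b _ _ ha hb =>
      intro y
      rw [hb y, ha (b • y), mul_smul]
    | inv a _ ha =>
      intro y
      rw [ha (a⁻¹ • y), smul_inv_smul]
  obtain ⟨g, hg⟩ := MulAction.exists_smul_eq G x₀ x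
  rw [← hg]
  refine (key g (by rw [hS]; exact Subgroup.mem_top g) x₀).1 ⟨0, ?_⟩
  simp [NoMaxB]

/-- there is an increasing path of length `k` from `x` -/
private def NoMaxD (S : Finset G) (n : X → ℕ) : ℕ → X → Prop
  | 0, _ => True
  | k + 1, x => ∃ s ∈ S, n (s • x) = n x + 1 ∧ NoMaxD S n k (s • x)

private theorem NoMaxD_succ {S : Finset G} {n : X → ℕ} :
    ∀ (k : ℕ) (x : X), NoMaxD S n (k + 1) x → NoMaxD S n k x
  | 0, _, _ => trivial
  | k + 1, x, h => by
    obtain ⟨s, hs, h1, h2⟩ := h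
    exact ⟨s, hs, h1, NoMaxD_succ k (s • x) h2⟩

private theorem NoMaxD_anti {S : Finset G} {n : X → ℕ} {k l : ℕ} (hkl : k ≤ l) {x : X}
    (h : NoMaxD S n l x) : NoMaxD S n k x := by
  induction l, hkl using Nat.le_induction with
  | base => exact h
  | succ l _ ih => exact ih (NoMaxD_succ l x h)

private theorem NoMaxD_good {S : Finset G} {n : X → ℕ} {x : X} (h : ∀ k, NoMaxD S n k x) :
    ∃ s ∈ S, n (s • x) = n x + 1 ∧ ∀ k, NoMaxD S n k (s • x) := by
  classical
  by_contra hcon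
  push Not at hcon
  have hex : ∀ s : G, ∃ k : ℕ, s ∈ S → n (s • x) = n x + 1 → ¬ NoMaxD S n k (s • x) := by
    intro s
    by_cases hs : s ∈ S ∧ n (s • x) = n x + 1
    · obtain ⟨k, hk⟩ := hcon s hs.1 hs.2
      exact ⟨k, fun _ _ => hk⟩
    · exact ⟨0, fun h1 h2 => absurd ⟨h1, h2⟩ hs⟩
  choose f hf using hex
  obtain ⟨s, hs, h1, h2⟩ := h (S.sup f + 1)
  exact hf s hs h1 (NoMaxD_anti (Finset.le_sup hs) h2)

private theorem NoMax_core [Infinite X] (S : Finset G) (hsymm : ∀ s ∈ S, s⁻¹ ∈ S) (x₀ : X)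
    (n : X → ℕ) (B : ℕ → Finset X) (hB : ∀ k x, x ∈ B k ↔ n x ≤ k)
    (h0 : ∀ x, n x = 0 → x = x₀) (hdown : ∀ x, 0 < n x → ∃ s ∈ S, n (s • x) + 1 = n x) :
    ∃ ρ : X → ℕ, ∀ x, ∃ s ∈ S, ρ x < ρ (s • x) := by
  classical
  -- the base point is good
  have hgood : ∀ k, NoMaxD S n k x₀ := by
    intro k
    obtain ⟨z, hz⟩ := Infinite.exists_notMem_finset (B k)
    have hzk : k < n z := by
      rw [hB] at hz
      omega
    have hstep : ∀ j, j ≤ n z → ∃ y, n y + j = n z ∧ NoMaxD S n j y := by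
      intro j
      induction j with
      | zero => exact fun _ => ⟨z, rfl, trivial⟩
      | succ j ih =>
        intro hj
        obtain ⟨y, hy1, hy2⟩ := ih (by omega)
        obtain ⟨s, hs, hs1⟩ := hdown y (by omega)
        refine ⟨s • y, by omega, s⁻¹, hsymm s hs, ?_, ?_⟩
        · rw [inv_smul_smul]
          omega
        · rw [inv_smul_smul]
          exact hy2
    obtain ⟨y, hy1, hy2⟩ := hstep (n z) le_rfl
    have hy0 : y = x₀ := h0 y (by omega)
    rw [← hy0]
    exact NoMaxD_anti hzk.le hy2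
  set h : X → ℕ := fun x => sInf {k | ¬ NoMaxD S n k x} with hh
  set m : ℕ → ℕ := fun k => (B k).sup h with hm
  have hBm : ∀ {k l : ℕ}, k ≤ l → B k ⊆ B l := by
    intro k l hkl x hx
    rw [hB] at hx ⊢
    omega
  refine ⟨fun x => if ∀ k, NoMaxD S n k x then n x + 1 + m (n x + 1) else h x, fun x => ?_⟩
  by_cases hx : ∀ k, NoMaxD S n k x
  · obtain ⟨s, hs, h1, h2⟩ := NoMaxD_good hx
    refine ⟨s, hs, ?_⟩
    beta_reduce
    rw [if_pos hx, if_pos h2, h1]
    have : m (n x + 1) ≤ m (n x + 1 + 1) := Finset.sup_mono (hBm (by omega))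
    omega
  · have hpos : 0 < n x := by
      rcases Nat.eq_zero_or_pos (n x) with h1 | h1
      · rw [h0 x h1] at hx
        exact absurd hgood hx
      · exact h1
    obtain ⟨s, hs, h1⟩ := hdown x hpos
    refine ⟨s, hs, ?_⟩
    beta_reduce
    rw [if_neg hx]
    by_cases hy : ∀ k, NoMaxD S n k (s • x)
    · rw [if_pos hy]
      have : h x ≤ m (n (s • x) + 1) := Finset.le_sup ((hB _ _).2 (by omega))
      omega
    · rw [if_neg hy]
      push Not at hy
      have hmem : ¬ NoMaxD S n (h (s • x)) (s • x) := Nat.sInf_mem hy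
      obtain ⟨k, hk⟩ : ∃ k, h (s • x) = k + 1 := by
        rcases Nat.eq_zero_or_pos (h (s • x)) with h2 | h2
        · rw [h2] at hmem
          exact absurd trivial hmem
        · exact ⟨h (s • x) - 1, by omega⟩
      rw [hk] at hmem ⊢
      have hxk : ¬ NoMaxD S n k x := by
        intro hcon
        refine hmem ⟨s⁻¹, hsymm s hs, ?_, ?_⟩
        · rw [inv_smul_smul]
          omega
        · rw [inv_smul_smul]
          exact hcon
      have : h x ≤ k := Nat.sInf_le hxk
      omega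

end

theorem exists_noMax {X : Type*} [Infinite X] {G : Type*} [Group G] [MulAction G X]
    [MulAction.IsPretransitive G X] (S : Finset G) (hS : Subgroup.closure (S : Set G) = ⊤)
    (hsymm : ∀ s ∈ S, s⁻¹ ∈ S) :
    ∃ ρ : X → ℕ, ∀ x, ∃ s ∈ S, ρ x < ρ (s • x) := by
  classical
  obtain ⟨x₀⟩ : Nonempty X := inferInstance
  have hex := NoMaxB_ex S hS hsymm x₀
  have hB : ∀ k x, x ∈ NoMaxB S x₀ k ↔ Nat.find (hex x) ≤ k := by
    intro k x
    constructor
    · intro hx
      exact Nat.find_min' (hex x) hx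
    · intro hx
      exact NoMaxB_mono S x₀ hx (Nat.find_spec (hex x))
  refine NoMax_core S hsymm x₀ (fun x => Nat.find (hex x)) (NoMaxB S x₀) hB ?_ ?_
  · intro x hx
    have h1 : x ∈ NoMaxB S x₀ 0 := (hB 0 x).2 (le_of_eq hx)
    simpa [NoMaxB] using h1
  · intro x hx
    obtain ⟨k, hk⟩ : ∃ k, Nat.find (hex x) = k + 1 := ⟨Nat.find (hex x) - 1, by omega⟩
    have h1 : x ∈ NoMaxB S x₀ (k + 1) := (hB _ _).2 hk.le
    rcases (NoMaxB_succ S x₀ k x).1 h1 with h2 | ⟨s, hs, y, hy, hyx⟩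
    · have := (hB _ _).1 h2
      omega
    · refine ⟨s⁻¹, hsymm s hs, ?_⟩
      have e : s⁻¹ • x = y := by rw [← hyx, inv_smul_smul]
      have h3 : Nat.find (hex y) ≤ k := (hB _ _).1 hy
      have h4 : x ∈ NoMaxB S x₀ (Nat.find (hex y) + 1) := by
        rw [← hyx]
        exact NoMaxB_smul S x₀ hs (Nat.find_spec (hex y))
      have h5 := (hB _ _).1 h4
      show Nat.find (hex (s⁻¹ • x)) + 1 = Nat.find (hex x)
      rw [e]
      omega

end PDT
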