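import Pool.Agent.Lib.PDT.Base

/-!
# PDT/OneEnd: a PD(3)-group has one end

Complete proof.  STEP 1: every derivation `δ : G → ℤ[G]`, `δ (x y) = δ x + el x * δ y`, is inner.
Let `D := zl δ : ℤ[G] →+ ℤ[G]`; `D (el x * y) = aug(y) • δ x + el x * D y` (additive in `y`; check on
`y = el g`).  Choose `μ0 : Q0 →ₗ ℤ[G]` with `aug (μ0 q) = ε q`: [`Q0` is projective; choose `u` with
`ε u = 1` and apply the lifting property for `ℤ[G] → ℤ`; concretely, with `dualBasis Q0`,
`q = Σ f_i(q) • e_i`, put `μ0 q = Σ_i ε(e_i) • f_i(q)`: then `aug (μ0 q) = Σ ε(e_i) aug (f_i q) = ε q`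
because `ε (y • e) = aug(y) ε(e)`].  For `q : Q1` put `c q = D (μ0 (d1 q))`.  Since
`aug (μ0 (d1 q)) = ε (d1 q) = 0`, the formula for `D` shows that `c` commutes with `el x`, so it is
linear, and `c ∘ d2 = 0`.  By `dual1`, `c = h ∘ d1` with `h : Q0 → ℤ[G]` linear.  For `x : G` take
`q` with `d1 q = el x • u - u`.  With `y = μ0 u`, `aug y = 1`:
`c q = D (el x * y - y) = δ x + el x * D y - D y` and `c q = h (el x • u - u) = el x * h u - h u`.  So
`δ x = el x * a - a` with `a = h u - D y`.
STEP 2.  Let `A` be as in the statement.  For `x : G` let `δ x : ℤ[G]` have the coefficient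
`[x⁻¹ g ∈ A] - [g ∈ A]` at `g` (finitely many non-zero by `hA`; build it with `Finsupp.onFinset` or
`Finsupp.ofSupportFinite` and `MonoidAlgebra.ofCoeff`).  The coefficient of `el x * y` at `g` is that
of `y` at `x⁻¹ g` (`MonoidAlgebra.coeff_single_mul_apply`).  So `δ` is a derivation, and by step 1
`[x⁻¹ g ∈ A] - [g ∈ A] = a(x⁻¹ g) - a(g)` for all `x, g`, i.e. `g ↦ [g ∈ A] - a(g)` is constant, `= k`.
Off the finite support of `a`, `[g ∈ A] = k`: if `k = 0` then `A ⊆ supp a`; if `k = 1` then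
`Aᶜ ⊆ supp a`; otherwise `supp a` is everything and `A` is finite.
-/

namespace PDT

open Function

universe u

/-- Every derivation of a PD(3)-group into its group ring is inner. -/
theorem one_end_inner {G : Type u} [Group G] (R : Res G) (δ : G → Zg G)
    (hδ : ∀ x y, δ (x * y) = δ x + el x * δ y) : ∃ a : Zg G, ∀ x, δ x = el x * a - a := by
  have hD : ∀ (x : G) (y : Zg G), zl δ (el x * y) = aug y • δ x + el x * zl δ y := by
    intro x y
    induction y using Zg.ind with
    | h0 => simp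
    | hel g =>
      rw [← el_mul, zl_el, hδ, aug_el, one_smul, zl_el]
    | hadd a b ha hb =>
      rw [mul_add, map_add, ha, hb, map_add, map_add, add_smul, mul_add]
      abel
    | hneg a ha =>
      rw [mul_neg, map_neg, ha, map_neg, map_neg, neg_smul, mul_neg]
      abel
  have hεs : ∀ (y : Zg G) (q : R.Q0), R.ε (y • q) = aug y * R.ε q := by
    intro y q
    induction y using Zg.ind with
    | h0 => simp
    | hel g => rw [R.ε_el, aug_el, one_mul]
    | hadd a b ha hb => rw [add_smul, map_add, ha, hb, map_add, add_mul]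
    | hneg a ha => rw [neg_smul, map_neg, ha, map_neg, neg_mul]
  obtain ⟨n, e, f, hef⟩ := dualBasis (G := G) R.Q0
  let μ0 : R.Q0 →ₗ[Zg G] Zg G := ∑ i, (R.ε (e i)) • f i
  have hμ0 : ∀ q, μ0 q = ∑ i, (R.ε (e i)) • f i q := by
    intro q
    simp only [μ0, LinearMap.sum_apply, LinearMap.smul_apply]
  have hμ : ∀ q, aug (μ0 q) = R.ε q := by
    intro q
    rw [hμ0, map_sum]
    conv_rhs => rw [hef q]
    rw [map_sum]
    refine Finset.sum_congr rfl fun i _ => ?_
    rw [map_zsmul, hεs, smul_eq_mul, mul_comm]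
  have hd1 : ∀ q : R.Q1, aug (μ0 (R.d1 q)) = 0 := by
    intro q
    rw [hμ]
    exact (R.ex0 _).2 ⟨q, rfl⟩
  let c : R.Q1 →ₗ[Zg G] Zg G :=
    { toFun := fun q => zl δ (μ0 (R.d1 q))
      map_add' := by
        intro a b
        rw [map_add, map_add, map_add]
      map_smul' := by
        intro y q
        simp only [RingHom.id_apply, map_smul, smul_eq_mul]
        induction y using Zg.ind with
        | h0 => simp
        | hel g => rw [hD, hd1, zero_smul, zero_add]
        | hadd a b ha hb => rw [add_mul, map_add, ha, hb, add_mul]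
        | hneg a ha => rw [neg_mul, map_neg, ha, neg_mul] }
  have hc : ∀ q, c q = zl δ (μ0 (R.d1 q)) := fun q => rfl
  obtain ⟨h, hh⟩ := R.dual1 c (by
    apply LinearMap.ext
    intro r
    rw [LinearMap.comp_apply, hc, (R.ex1 (R.d2 r)).2 ⟨r, rfl⟩, map_zero, map_zero]
    rfl)
  obtain ⟨u, hu⟩ := R.ε_surj 1
  refine ⟨h u - zl δ (μ0 u), fun x => ?_⟩
  obtain ⟨q, hq⟩ := (R.ex0 (el x • u - u)).1 (by rw [map_sub, R.ε_el, sub_self])
  have h1 : c q = h (R.d1 q) := DFunLike.congr_fun hh q
  rw [hc, hq, μ0.map_sub, μ0.map_smul, map_sub, h.map_sub, h.map_smul, smul_eq_mul, smul_eq_mul,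
    hD, hμ, hu, one_smul] at h1
  have h2 : δ x = (el x * h u - h u) - el x * zl δ (μ0 u) + zl δ (μ0 u) := by
    rw [← h1]
    abel
  rw [h2, mul_sub]
  abel

theorem one_end {G : Type u} [Group G] (R : Res G) (A : Set G)
    (hA : ∀ x : G, {g : G | ¬ (x * g ∈ A ↔ g ∈ A)}.Finite) : A.Finite ∨ Aᶜ.Finite := by
  classical
  let χ : G → ℤ := fun g => if g ∈ A then 1 else 0
  have hfin : ∀ x : G, (Function.support fun g => χ (x⁻¹ * g) - χ g).Finite := by
    intro x
    refine (hA x⁻¹).subset ?_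
    intro g hg hiff
    apply hg
    simp only [χ, hiff, sub_self]
  let δ : G → Zg G := fun x =>
    MonoidAlgebra.ofCoeff (Finsupp.ofSupportFinite (fun g => χ (x⁻¹ * g) - χ g) (hfin x))
  have hδ : ∀ x g, (δ x).coeff g = χ (x⁻¹ * g) - χ g := fun x g => rfl
  have hel : ∀ (x : G) (y : Zg G) (g : G), (el x * y).coeff g = y.coeff (x⁻¹ * g) := by
    intro x y g
    rw [el, MonoidAlgebra.coeff_single_mul_apply, one_mul]
  obtain ⟨a, ha⟩ := one_end_inner R δ (by
    intro x y
    ext g
    rw [hδ, MonoidAlgebra.coeff_add, Finsupp.add_apply, hδ, hel, hδ, mul_inv_rev, mul_assoc]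
    ring)
  have hk : ∀ x g, χ (x⁻¹ * g) - χ g = a.coeff (x⁻¹ * g) - a.coeff g := by
    intro x g
    rw [← hδ, ha, MonoidAlgebra.coeff_sub, Finsupp.sub_apply, hel]
  have hk2 : ∀ g, χ g - a.coeff g = χ 1 - a.coeff 1 := by
    intro g
    have := hk g⁻¹ 1
    rw [inv_inv, mul_one] at this
    linarith
  by_cases h1 : (χ 1 - a.coeff 1) = 1
  · right
    refine (a.coeff.support.finite_toSet).subset ?_
    intro g hg
    rw [Finset.mem_coe, Finsupp.mem_support_iff]
    intro h0
    have h2 := hk2 g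
    rw [h1, h0, sub_zero] at h2
    have h3 : χ g = 0 := if_neg hg
    rw [h3] at h2
    norm_num at h2
  · left
    refine (a.coeff.support.finite_toSet).subset ?_
    intro g hg
    rw [Finset.mem_coe, Finsupp.mem_support_iff]
    intro h0
    have h2 := hk2 g
    have h3 : χ g = 1 := if_pos hg
    rw [h0, h3, sub_zero] at h2
    exact h1 h2.symm

end PDT
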