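import Pool.Agent.Lib.PDT.Base

/-!
# PDT/Orient: the orientation character

Complete proof.  For `x : G` the map `f ↦ rm f (el x)` (`(f·x)(q) = f(q) x`) is additive on
`Q3 → ℤ[G]` and maps `ker e` to itself: by `e_ker` an element of `ker e` is `h ∘ d3`, and
`rm (h ∘ d3) y = (rm h y) ∘ d3`.  Choose `f₀` with `e f₀ = 1` (`e_surj`).  Every `f` is
`(e f) • f₀ + k` with `k ∈ ker e`, so `e (rm f (el x)) = c(x) e(f)` with `c(x) = e (rm f₀ (el x))`.
From `rm (rm f (el x)) (el y) = rm f (el (x * y))`: `c(x y) = c(x) c(y)`, `c(1) = 1`; so `c` takes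
values in the units of `ℤ` (`c(x) c(x⁻¹) = 1`); let `w : G →* ℤˣ` be the corresponding homomorphism
(`MonoidHom.toHomUnits`).  Then `e (tw w x f) = w(x) c(x⁻¹) e(f) = e(f)`, since
`w(x) c(x⁻¹) = c(x) c(x⁻¹) = 1`.
-/

namespace PDT

open Function

universe u

theorem exists_w {G : Type u} [Group G] (R : Res G) :
    ∃ w : G →* ℤˣ, ∀ (x : G) (f : R.Q3 →ₗ[Zg G] Zg G), R.e (tw w x f) = R.e f := by
  obtain ⟨f₀, hf₀⟩ := R.e_surj 1
  have hker : ∀ (y : Zg G) (k : R.Q3 →ₗ[Zg G] Zg G), R.e k = 0 → R.e (rm k y) = 0 := by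
    intro y k hk
    obtain ⟨h, rfl⟩ := (R.e_ker k).1 hk
    exact (R.e_ker _).2 ⟨rm h y, rfl⟩
  have hc : ∀ (y : Zg G) (f : R.Q3 →ₗ[Zg G] Zg G),
      R.e (rm f y) = R.e (rm f₀ y) * R.e f := by
    intro y f
    have h1 : R.e (f - (R.e f) • f₀) = 0 := by
      rw [map_sub, map_zsmul, hf₀]
      simp
    have h2 := hker y _ h1
    have h3 : rm (f - (R.e f) • f₀) y = rm f y - (R.e f) • rm f₀ y := by
      apply LinearMap.ext
      intro q
      simp [sub_mul, mul_assoc]
    rw [h3, map_sub, map_zsmul] at h2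
    rw [sub_eq_zero.1 h2, smul_eq_mul, mul_comm]
  let c : G →* ℤ :=
    { toFun := fun x => R.e (rm f₀ (el x))
      map_one' := by
        have : rm f₀ (el (1 : G)) = f₀ := by
          apply LinearMap.ext
          intro q
          simp [el_one]
        rw [this, hf₀]
      map_mul' := fun x y => by
        have : rm f₀ (el (x * y)) = rm (rm f₀ (el x)) (el y) := by
          apply LinearMap.ext
          intro q
          simp [el_mul, mul_assoc]
        rw [this, hc (el y) (rm f₀ (el x)), mul_comm] }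
  refine ⟨c.toHomUnits, fun x f => ?_⟩
  have hcx : ((c.toHomUnits x : ℤˣ) : ℤ) = c x := rfl
  have h1 : tw c.toHomUnits x f = (c x) • rm f (el x⁻¹) := rfl
  have h2 : R.e (rm f₀ (el x⁻¹)) = c x⁻¹ := rfl
  rw [h1, map_zsmul, hc, h2, smul_eq_mul, ← mul_assoc, ← map_mul, mul_inv_cancel, map_one,
    one_mul]

end PDT
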