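import Pool.Agent.Lib.PDT.Base
import Pool.Agent.Lib.PDT.Coinv

/-!
# PDT/Strebel: over a subgroup of infinite index `d3 : Q3 → Q2` splits

(Strebel: subgroups of infinite index of PD(n)-groups have cohomological dimension < n.)

Complete proof.  `dualBasis R.Q3`: `q = Σ_i f_i(q) • e_i`.  For each `i` put `F_i(g) = el g • e_i`, so
`F_i (h g) = el h • F_i g`; `q = Σ_i zl F_i (f_i q)` (`zl F_i y = y • e_i` by `zhom_ext`).
Apply `coinv H (a := (acHom R.Q3).comp H.subtype) w S ρ hρ F_i` to get `N_i : G → G → Q3`,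
`N_i s (h g) = el h • N_i s g` and `F_i(g) = Σ_{s ∈ S} (N_i s (g s) - w(s) N_i s g)`.  Hence for `y : Zg G`
  `zl F_i y = Σ_s (zl (N_i s) (y * el s) - w(s) • zl (N_i s) y)`            (`zhom_ext`)
            `= Σ_s zl (N_i s) (y * el s - w(s) • y)`.
For `s ∈ S`: the functional `rm f_i (el s) - (w s) • f_i` is in the kernel of `R.e`: indeed
`tw w s⁻¹ f_i = (w s) • rm f_i (el s)` (`w(s⁻¹) = w(s)`), so `hw` gives
`e (rm f_i (el s)) = w(s) e(f_i)` (`w(s)² = 1`).  By `e_ker` it is `k_{i,s} ∘ d3` with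
`k_{i,s} : Q2 → ℤ[G]` linear.  DEFINE `r(q') = Σ_i Σ_{s ∈ S} zl (N_i s) (k_{i,s} q')`, an additive map
`Q2 → Q3`.  `r (d3 q) = Σ_{i,s} zl (N_i s) (f_i(q) el s - w(s) f_i(q)) = Σ_i zl F_i (f_i q) = q`.
Equivariance: `zl (N_i s) (el h * y) = el h • zl (N_i s) y` (check on `y = el g`), and `k_{i,s}` is
linear: `k (el h • q') = el h * k q'`.
-/

namespace PDT

open Function

universe u

private theorem Strebel_eqv {G : Type u} [Group G] {Q : Type u} [AddCommGroup Q]
    [Module (Zg G) Q] (H : Subgroup G) (N : G → Q)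
    (hN : ∀ (h : H) (g : G), N (h * g) = el (h : G) • N g) (h : H) (y : Zg G) :
    zl N (el (h : G) * y) = el (h : G) • zl N y := by
  have h1 : (zl N).comp (AddMonoidHom.mulLeft (el (h : G))) =
      (DistribSMul.toAddMonoidHom Q (el (h : G))).comp (zl N) := by
    apply zhom_ext
    intro g
    simp only [AddMonoidHom.comp_apply, AddMonoidHom.coe_mulLeft, ← el_mul, zl_el,
      DistribSMul.toAddMonoidHom_apply]
    exact hN h g
  exact DFunLike.congr_fun h1 y

private theorem Strebel_sum {G : Type u} [Group G] {Q : Type u} [AddCommGroup Q]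
    [Module (Zg G) Q] (w : G →* ℤˣ) (S : Finset G) (N : G → G → Q) (e : Q)
    (hN : ∀ g, el g • e = ∑ s ∈ S, (N s (g * s) - (w s : ℤ) • N s g)) (y : Zg G) :
    ∑ s ∈ S, zl (N s) (y * el s - (w s : ℤ) • y) = y • e := by
  have h1 : ∑ s ∈ S, ((zl (N s)).comp (AddMonoidHom.mulRight (el s)) - (w s : ℤ) • zl (N s)) =
      (smulAddHom (Zg G) Q).flip e := by
    apply zhom_ext
    intro g
    rw [AddMonoidHom.finsetSum_apply]
    simp only [AddMonoidHom.sub_apply, AddMonoidHom.comp_apply, AddMonoidHom.coe_mulRight,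
      ← el_mul, zl_el, AddMonoidHom.smul_apply, AddMonoidHom.flip_apply, smulAddHom_apply]
    exact (hN g).symm
  have h2 := DFunLike.congr_fun h1 y
  rw [AddMonoidHom.finsetSum_apply] at h2
  simp only [AddMonoidHom.sub_apply, AddMonoidHom.comp_apply, AddMonoidHom.coe_mulRight,
    AddMonoidHom.smul_apply, AddMonoidHom.flip_apply, smulAddHom_apply] at h2
  rw [← h2]
  refine Finset.sum_congr rfl fun s _ => ?_
  rw [map_sub, map_zsmul]

theorem retraction {G : Type u} [Group G] (R : Res G) (H : Subgroup G) (w : G →* ℤˣ)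
    (hw : ∀ (x : G) (f : R.Q3 →ₗ[Zg G] Zg G), R.e (tw w x f) = R.e f) (S : Finset G)
    (ρ : G ⧸ H → ℕ) (hρ : ∀ c : G ⧸ H, ∃ s ∈ S, ρ c < ρ (s • c)) :
    ∃ r : R.Q2 →+ R.Q3, (∀ (h : H) (q : R.Q2), r (el (h : G) • q) = el (h : G) • r q) ∧
      ∀ q, r (R.d3 q) = q := by
  obtain ⟨n, e, f, hef⟩ := dualBasis (G := G) R.Q3
  have hcoinv := fun i : Fin n => coinv H ((acHom R.Q3).comp H.subtype) w S ρ hρ
    (fun g => el g • e i) (fun h g => by
      change el ((h : G) * g) • e i = el (h : G) • el g • e i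
      rw [el_smul_smul])
  choose N hN1 hN2 using hcoinv
  have hk : ∀ (i : Fin n) (s : G), ∃ k : R.Q2 →ₗ[Zg G] Zg G,
      rm (f i) (el s) - (w s : ℤ) • f i = k ∘ₗ R.d3 := by
    intro i s
    rw [← R.e_ker, map_sub, map_zsmul]
    have h1 := hw s⁻¹ (f i)
    rw [tw, inv_inv, map_zsmul] at h1
    rw [← h1, smul_smul]
    have h2 : (w s : ℤ) * (w s⁻¹ : ℤ) = 1 := by
      rw [map_inv]
      rcases Int.units_eq_one_or (w s) with h | h <;> simp [h]
    rw [h2, one_smul, sub_self]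
  choose k hk using hk
  refine ⟨∑ i, ∑ s ∈ S, (zl (N i s)).comp (k i s).toAddMonoidHom, ?_, ?_⟩
  · intro h q
    simp only [AddMonoidHom.finsetSum_apply, AddMonoidHom.comp_apply, LinearMap.toAddMonoidHom_coe,
      Finset.smul_sum]
    refine Finset.sum_congr rfl fun i _ => Finset.sum_congr rfl fun s _ => ?_
    rw [map_smul, smul_eq_mul]
    exact Strebel_eqv H (N i s) (fun h g => hN1 i s h g) h _
  · intro q
    simp only [AddMonoidHom.finsetSum_apply, AddMonoidHom.comp_apply, LinearMap.toAddMonoidHom_coe]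
    conv_rhs => rw [hef q]
    refine Finset.sum_congr rfl fun i _ => ?_
    rw [← Strebel_sum w S (N i) (e i) (fun g => hN2 i g) (f i q)]
    refine Finset.sum_congr rfl fun s _ => ?_
    have h3 := LinearMap.congr_fun (hk i s) q
    rw [LinearMap.sub_apply, rm_apply, LinearMap.smul_apply, LinearMap.comp_apply] at h3
    rw [← h3]

end PDT
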