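import Pool.Agent.Lib.PDT.Base
import Pool.Agent.Lib.PDT.Base2
import Pool.Agent.Lib.PDT.NoMax
import Pool.Agent.Lib.PDT.Coinv
import Pool.Agent.Lib.PDT.Orient
import Pool.Agent.Lib.PDT.Strebel
import Pool.Agent.Lib.PDT.KerProj
import Pool.Agent.Lib.PDT.OneEnd
import Pool.Agent.Lib.PDT.Geo
import Pool.Agent.Lib.PDT.Inj
import Pool.Agent.Lib.PDT.FinGen
import Pool.Agent.Lib.PDT.AugPres
import Pool.Agent.Lib.PDT.FGRes

/-!
# PDT/MainA: the finiteness theorem

`G` a PD(3)-group, `H ≤ G` finitely generated of infinite index, with a representation `L` on a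
noetherian module `M` over a ring `Λ` such that `ℤ[H] → End_Λ(M)` is injective and no infinite
subgroup of `H` fixes a non-zero vector.  Then `H` is of type FP (and of cohomological dimension ≤ 2).

Proof: assembly.  `syz` gives the projectivity of the second syzygy, for every exact
`P1 → P0 → ℤ → 0` with `P0, P1` projective.
-/

namespace PDT

open Function

universe u

/-- A symmetric finite generating set. -/
theorem exists_symm_gen {G : Type*} [Group G] (hG : Group.FG G) :
    ∃ S : Finset G, Subgroup.closure (S : Set G) = ⊤ ∧ ∀ s ∈ S, s⁻¹ ∈ S := by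
  classical
  obtain ⟨T, hT⟩ := (Group.fg_iff_subgroup_fg (⊤ : Subgroup G)).mp (by
    exact (Group.fg_iff_subgroup_fg _).mpr hG.1) |> fun h => h
  refine ⟨T ∪ T.image (fun s => s⁻¹), ?_, ?_⟩
  · rw [eq_top_iff, ← hT]
    apply Subgroup.closure_mono
    intro s hs
    simp only [Finset.coe_union, Set.mem_union, Finset.mem_coe]
    exact Or.inl hs
  · intro s hs
    rw [Finset.mem_union, Finset.mem_image] at hs ⊢
    rcases hs with hs | ⟨t, ht, rfl⟩
    · exact Or.inr ⟨s, hs, rfl⟩
    · left; simpa using ht

/-- Second syzygies over subgroups of infinite index are projective (Strebel). -/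
theorem syz {G : Type u} [Group G] (R : Res G) (H : Subgroup G) (hidx : Infinite (G ⧸ H))
    {P0 P1 : Type*} [AddCommGroup P0] [AddCommGroup P1] [Module (Zg H) P0] [Module (Zg H) P1]
    [Module.Projective (Zg H) P0] [Module.Projective (Zg H) P1] (εP : P0 →+ ℤ)
    (hε : ∀ (h : H) (p : P0), εP (el h • p) = εP p) (hs : Surjective εP) (d : P1 →ₗ[Zg H] P0)
    (hex : ∀ p : P0, εP p = 0 ↔ ∃ q, d q = p) :
    Module.Projective (Zg H) (LinearMap.ker d) := by
  obtain ⟨S, hS, hsymm⟩ := exists_symm_gen (fg_of_res R)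
  obtain ⟨ρ, hρ⟩ := exists_noMax (X := G ⧸ H) S hS hsymm
  obtain ⟨w, hw⟩ := exists_w R
  obtain ⟨r, hr, hr2⟩ := retraction R H w hw S ρ hρ
  exact ker_projective R H εP hε hs d hex r hr hr2

/-- The geometric lemma for twisted representations without invariants. -/
theorem geo_twisted {G : Type u} [Group G] (R : Res G) (H : Subgroup G) (hH : Infinite H)
    (w : G →* ℤˣ) {Λ M : Type*} [Ring Λ] [AddCommGroup M] [Module Λ M]
    (L : H →* Module.End Λ M)
    (hinv : ∀ K : Subgroup H, Infinite K → ∀ m : M, (∀ k ∈ K, L k m = m) → m = 0)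
    (φ : G → M) (hφ : ∀ (g : G) (h : H), φ (g * h) = (w h : ℤ) • L h⁻¹ (φ g))
    (hfin : ∀ x : G, ((fun g : G => (g : G ⧸ H)) '' {g | φ (x⁻¹ * g) ≠ φ g}).Finite) :
    ((fun g : G => (g : G ⧸ H)) '' {g | φ g ≠ 0}).Finite := by
  classical
  obtain ⟨S, hS, -⟩ := exists_symm_gen (fg_of_res R)
  let a : H →* AddMonoid.End M :=
    { toFun := fun h => (((w h : ℤ)) • L h : Module.End Λ M).toAddMonoidHom
      map_one' := by
        apply AddMonoidHom.ext
        intro m
        change (((w ((1 : H) : G) : ℤ)) • L 1 : Module.End Λ M) m = m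
        simp
      map_mul' := by
        intro x y
        apply AddMonoidHom.ext
        intro m
        change (((w ((x * y : H) : G) : ℤ)) • L (x * y) : Module.End Λ M) m =
          (((w (x : G) : ℤ)) • L x : Module.End Λ M) ((((w (y : G) : ℤ)) • L y : Module.End Λ M) m)
        simp only [map_mul, LinearMap.smul_apply, Module.End.mul_apply, Subgroup.coe_mul,
          map_zsmul, smul_smul]
        push_cast
        rw [mul_comm ((w (x : G) : ℤˣ) : ℤ)] }
  have ha : ∀ (h : H) (m : M), a h m = (w h : ℤ) • L h m := fun h m => rfl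
  refine geo H a ?_ S hS (one_end R) φ ?_ hfin
  · intro m hm
    by_contra hinf
    apply hm
    -- the subgroup of elements of the stabiliser on which `w` is trivial
    let St : Subgroup H :=
      { carrier := {h | a h m = m}
        one_mem' := by simp
        mul_mem' := by
          intro x y hx hy
          change a (x * y) m = m
          rw [map_mul]
          change a x (a y m) = m
          rw [show a y m = m from hy, show a x m = m from hx]
        inv_mem' := by
          intro x hx
          change a x⁻¹ m = m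
          have h1 : a x m = m := hx
          conv_lhs => rw [← h1]
          change (a x⁻¹ * a x) m = m
          rw [← map_mul]
          simp }
    have hSt : Infinite St := Set.infinite_coe_iff.mpr hinf
    let K0 : Subgroup H := St ⊓ (w.comp H.subtype).ker
    have hfi : (w.comp H.subtype).ker.FiniteIndex := inferInstance
    have hK0 : Infinite K0 := by
      by_contra hfinK
      rw [not_infinite_iff_finite] at hfinK
      have h1 : ((w.comp H.subtype).ker.subgroupOf St).FiniteIndex := inferInstance
      have h2 : Finite ((w.comp H.subtype).ker.subgroupOf St) := by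
        apply Finite.of_injective (β := K0)
          (fun x => ⟨x.1.1, x.1.2, x.2⟩)
        intro x y hxy
        ext
        simpa using congrArg (fun z : K0 => (z : H)) hxy
      have h3 : Finite St := by
        have := ((w.comp H.subtype).ker.subgroupOf St)
        exact Finite.of_subgroup_quotient ((w.comp H.subtype).ker.subgroupOf St)
      exact not_finite_iff_infinite.mpr hSt h3
    apply hinv K0 hK0 m
    intro k hk
    have h1 : a k m = m := hk.1
    have h2 : w (k : G) = 1 := hk.2
    rw [ha, h2] at h1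
    simpa using h1
  · intro g h
    rw [ha, hφ]
    congr 1
    rcases Int.units_eq_one_or (w (h : G)) with e | e <;> simp [e]

/-- The second syzygy is finitely generated, for every free presentation. -/
theorem ker_fin {G : Type u} [Group G] (R : Res G) (H : Subgroup G) (hQ : Infinite (G ⧸ H))
    {Λ M : Type*} [Ring Λ] [AddCommGroup M] [Module Λ M] [IsNoetherian Λ M]
    (L : H →* Module.End Λ M) (hfaith : ∀ y : Zg H, (∀ m, actR L y m = 0) → y = 0)
    (hinv : ∀ K : Subgroup H, Infinite K → ∀ m : M, (∀ k ∈ K, L k m = m) → m = 0)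
    {a0 a1 : ℕ} (εP : (Fin a0 → Zg H) →+ ℤ)
    (hε : ∀ (h : H) (p : Fin a0 → Zg H), εP (el h • p) = εP p) (hs : Surjective εP)
    (d : (Fin a1 → Zg H) →ₗ[Zg H] (Fin a0 → Zg H))
    (hex : ∀ p : Fin a0 → Zg H, εP p = 0 ↔ ∃ q, d q = p) :
    Module.Finite (Zg H) (LinearMap.ker d) := by
  classical
  have hproj : Module.Projective (Zg H) (LinearMap.ker d) := syz R H hQ εP hε hs d hex
  by_cases hH : Infinite H
  · obtain ⟨w, hw⟩ := exists_w R
    obtain ⟨s2, hs2⟩ := hproj.out
    have hs2' : ∀ p, Finsupp.linearCombination (Zg H) id (s2 p) = p := hs2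
    let lt : (LinearMap.ker d →₀ M) →ₗ[Λ] (Fin a1 → M) :=
      Finsupp.lsum ℕ fun i => mxF L (i : Fin a1 → Zg H)
    have hlt : ∀ (i : LinearMap.ker d) (m : M),
        lt (Finsupp.single i m) = mxF L (i : Fin a1 → Zg H) m := by
      intro i m
      simp [lt]
    obtain ⟨Θ, hΘ⟩ := inj_main R H w hw L (geo_twisted R H hH w L hinv) εP hε hs d hex hproj
      s2 hs2' lt hlt
    -- the submodule of coboundaries
    let cob : (Fin a0 → M) →ₗ[Λ] (Fin a1 → M) :=
      LinearMap.pi fun k => ∑ l, (actT L (w.comp H.subtype) (d (Pi.single k 1) l)) ∘ₗ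
        LinearMap.proj l
    refine fin_gen L hfaith s2 hs2' lt Θ (LinearMap.range cob) ?_
    intro v hv hv0 hB
    apply (hΘ v hv hv0).2
    obtain ⟨b, hb⟩ := hB
    refine ⟨b, fun k => ?_⟩
    rw [← hb]
    simp [cob]
  · rw [not_infinite_iff_finite] at hH
    have := hH
    have h1 : Module.Finite ℤ (Zg H) := by
      have e : Zg H ≃ₗ[ℤ] (H →₀ ℤ) := MonoidAlgebra.coeffAddEquiv.toIntLinearEquiv
      exact Module.Finite.equiv e.symm
    have h2 : IsNoetherian ℤ (Fin a1 → Zg H) := inferInstance
    have h3 : IsNoetherian (Zg H) (Fin a1 → Zg H) := isNoetherian_of_tower ℤ h2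
    exact Module.IsNoetherian.finite (Zg H) (LinearMap.ker d)

/-- Properties of the augmentation of the free module of rank one. -/
theorem aug1_props (H : Type*) [Group H] :
    (∀ (h : H) (p : Fin 1 → Zg H), (aug.comp (Pi.evalAddMonoidHom (fun _ : Fin 1 => Zg H) 0))
      (el h • p) = (aug.comp (Pi.evalAddMonoidHom (fun _ : Fin 1 => Zg H) 0)) p) ∧
    Surjective (aug.comp (Pi.evalAddMonoidHom (fun _ : Fin 1 => Zg H) 0)) := by
  refine ⟨fun h p => aug_el_mul h (p 0), fun z => ⟨fun _ => z • el (1 : H), ?_⟩⟩
  change aug (z • el (1 : H)) = z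
  rw [map_zsmul, aug_el, smul_eq_mul, mul_one]

theorem infinite_quot {G : Type*} [Group G] (H : Subgroup G) (hidx : H.index = 0) :
    Infinite (G ⧸ H) := by
  by_contra h
  rw [not_infinite_iff_finite] at h
  exact (Subgroup.index_ne_zero_of_finite (H := H)) hidx

theorem mainA {G : Type u} [Group G] (hG : IsPD3 G) (H : Subgroup G) (hfg : H.FG)
    (hidx : H.index = 0) {Λ M : Type*} [Ring Λ] [AddCommGroup M] [Module Λ M] [IsNoetherian Λ M]
    (L : H →* Module.End Λ M) (hfaith : ∀ y : Zg H, (∀ m, actR L y m = 0) → y = 0)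
    (hinv : ∀ K : Subgroup H, Infinite K → ∀ m : M, (∀ k ∈ K, L k m = m) → m = 0) :
    IsFP2 H := by
  obtain ⟨R⟩ := hG
  have hQ : Infinite (G ⧸ H) := infinite_quot H hidx
  obtain ⟨n, d, hd⟩ := aug_presentation H (Group.fg_iff_subgroup_fg H |>.mpr hfg)
  obtain ⟨hε, hs⟩ := aug1_props H
  have hproj : Module.Projective (Zg H) (LinearMap.ker d) := syz R H hQ _ hε hs d hd
  have hfin : Module.Finite (Zg H) (LinearMap.ker d) := ker_fin R H hQ L hfaith hinv _ hε hs d hd
  exact ⟨{ P0 := Fin 1 → Zg H, P1 := Fin n → Zg H, P2 := LinearMap.ker d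
           ε := _, d1 := d, d2 := (LinearMap.ker d).subtype
           ε_el := hε, ε_surj := hs, ex0 := hd
           ex1 := by
             intro q
             constructor
             · intro h; exact ⟨⟨q, h⟩, rfl⟩
             · rintro ⟨r, rfl⟩; exact r.2
           inj2 := Subtype.val_injective }⟩

end PDT
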