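import Pool.Agent.Lib.PDT.Base
import Pool.Agent.Lib.PDT.Base2
import Pool.Agent.Lib.PDT.Base4
import Pool.Agent.Lib.PDT.MainA
import Pool.Agent.Lib.PDT.GeoRef
import Pool.Agent.Lib.PDT.InjRef

/-!
# PDT/InjGeo: combination of `inj_ref` and `geo_ref`
-/

namespace PDT

open Function

universe u

theorem inj_geo {G : Type u} [Group G] (R : Res G) (H : Subgroup G) (hH : Infinite H) (w : G →* ℤˣ)
    (hw : ∀ (x : G) (f : R.Q3 →ₗ[Zg G] Zg G), R.e (tw w x f) = R.e f) (hwH : ∀ h : H, w h = 1)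
    {a0 a1 : ℕ} (εP : (Fin a0 → Zg H) →+ ℤ)
    (hε : ∀ (h : H) (p : Fin a0 → Zg H), εP (el h • p) = εP p) (hs : Surjective εP)
    (d : (Fin a1 → Zg H) →ₗ[Zg H] (Fin a0 → Zg H))
    (hex : ∀ p : Fin a0 → Zg H, εP p = 0 ↔ ∃ q, d q = p)
    (hproj : Module.Projective (Zg H) (LinearMap.ker d))
    (s2 : LinearMap.ker d →ₗ[Zg H] (LinearMap.ker d →₀ Zg H))
    (hs2 : ∀ p, Finsupp.linearCombination (Zg H) id (s2 p) = p)
    {a : ℕ} (p : Fin a → LinearMap.ker d) :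
    ∃ (r : ℕ) (K : Fin r → Subgroup H), (∀ j, Infinite (K j)) ∧
      ∀ (Λ : Type) (M : Type u) [Ring Λ] [AddCommGroup M] [Module Λ M] (L : H →* Module.End Λ M),
        ∃ (Θ : (Fin a → M) →ₗ[Λ] (Fin a1 → M))
          (Ξ : ((Fin a → M) × (Fin a0 → M)) →ₗ[Λ] (Fin r → M)),
          ∀ m : Fin a → M, (∀ k, ∑ i, actR L ((p i : Fin a1 → Zg H) k) (m i) = 0) →
            (∀ q : LinearMap.ker d, ∑ k, actT L 1 ((q : Fin a1 → Zg H) k) (Θ m k) = 0) ∧
            ∀ b : Fin a0 → M,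
              (∀ k, Θ m k = ∑ l, actT L 1 (d (Pi.single k 1) l) (b l)) →
              (∀ j, ∀ k ∈ K j, L k (Ξ (m, b) j) = Ξ (m, b) j) ∧
              (Ξ (m, b) = 0 → ∑ i, mxS L (s2 (p i)) (m i) = 0) := by
  classical
  obtain ⟨S, hS, hsymm⟩ := exists_symm_gen (fg_of_res R)
  obtain ⟨E, hE, hinj⟩ := inj_ref R H w hw εP hε hs d hex hproj s2 hs2 p S
  obtain ⟨r, g, K, hK, hgeo⟩ := geo_ref H S hS hsymm (one_end R) E hE
  refine ⟨r, K, hK, fun Λ M _ _ _ L => ?_⟩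
  have hw1 : w.comp H.subtype = 1 := by
    ext h
    simpa using congrArg (fun z : ℤˣ => (z : ℤ)) (hwH h)
  obtain ⟨Θ, ν, hν⟩ := hinj Λ M L
  rw [hw1] at hν
  refine ⟨Θ, (LinearMap.pi fun j => LinearMap.proj (g j)).comp ν, fun m hm => ?_⟩
  obtain ⟨h1, h2⟩ := hν m hm
  refine ⟨h1, fun b hb => ?_⟩
  obtain ⟨h3, h4, h5⟩ := h2 b hb
  let a' : H →* AddMonoid.End M :=
    { toFun := fun h => (L h).toAddMonoidHom
      map_one' := by
        apply AddMonoidHom.ext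
        intro m
        change L 1 m = m
        rw [map_one]
        rfl
      map_mul' := by
        intro x y
        apply AddMonoidHom.ext
        intro m
        change L (x * y) m = L x (L y m)
        rw [map_mul]
        rfl }
  obtain ⟨h6, h7⟩ := hgeo M a' (ν (m, b)) (by
    intro g h
    rw [h3, hwH]
    change ((1 : ℤˣ) : ℤ) • L h⁻¹ (ν (m, b) g) = L h⁻¹ (ν (m, b) g)
    simp) (by
    intro s hs g hg
    apply h4 s⁻¹ (hsymm s hs) g
    rwa [inv_inv])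
  refine ⟨fun j k hk => h6 j k hk, fun hΞ => h5 (h7 fun j => congrFun hΞ j)⟩

end PDT
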