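import Pool.Agent.Lib.PDT.Base4

/-!
# PDT/InvDim: the dimension of the invariants in the functions on `H ⧸ N`

`N` normal of finite index, `K ≤ H`, with at least `c` different images in `H ⧸ N` (`f`).  Then the functions
on `H ⧸ N` invariant under `K` form a space of dimension at most `|H ⧸ N| / c`.

Complete proof.  A function `m` is invariant iff `m(h⁻¹ q) = m(q)` for `h ∈ K`, i.e. iff it is constant on the orbits of `K` on
`H ⧸ N`.  So the space `W` is contained in (equal to) the image of the injective linear map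
`(Ω → k) → (H ⧸ N → k)`, `Ω = MulAction.orbitRel.Quotient K (H ⧸ N)`, so `dim W ≤ |Ω|`.  Every orbit has at least `c` elements: the elements
`f_i • (g N) = f_i g N`, `i : Fin c`, are different: `f_i g N = f_j g N` implies `g⁻¹ f_i⁻¹ f_j g ∈ N`, so
`f_i⁻¹ f_j ∈ N` (`N` normal), `i = j` by `hf`.  Summing the sizes of the orbits, `c |Ω| ≤ |H ⧸ N|` (e.g. the map `Ω × Fin c → H ⧸ N`,
`(ω, i) ↦ f_i • (out ω)` is injective).
-/

namespace PDT

open Module

theorem inv_dim {H : Type*} [Group H] (N : Subgroup H) [N.Normal] [N.FiniteIndex] (k : Type*)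
    [Field k] (K : Subgroup H) {c : ℕ} (f : Fin c → H) (hfK : ∀ i, f i ∈ K)
    (hf : ∀ i j, (f i)⁻¹ * f j ∈ N → i = j) (W : Submodule k ((H ⧸ N) → k))
    (hW : ∀ m ∈ W, ∀ h ∈ K, trQ N k h m = m) :
    c * finrank k W ≤ Nat.card (H ⧸ N) := by
  classical
  haveI : Fintype (H ⧸ N) := Fintype.ofFinite _
  let Ω := MulAction.orbitRel.Quotient K (H ⧸ N)
  haveI : Finite Ω := Quotient.finite _
  haveI : Fintype Ω := Fintype.ofFinite _
  let π : (H ⧸ N) → Ω := fun q => Quotient.mk (MulAction.orbitRel K (H ⧸ N)) q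
  let Ψ : (Ω → k) →ₗ[k] ((H ⧸ N) → k) := LinearMap.funLeft k k π
  have hWr : W ≤ LinearMap.range Ψ := by
    intro m hm
    refine ⟨fun ω => m ω.out, ?_⟩
    funext q
    change m (π q).out = m q
    have h1 : (MulAction.orbitRel K (H ⧸ N)) (π q).out q := Quotient.mk_out q
    rw [MulAction.orbitRel_apply] at h1
    obtain ⟨h, hh⟩ := h1
    have h2 : (h : H) • q = (π q).out := hh
    have h3 := congrFun (hW m hm (h : H)⁻¹ (K.inv_mem h.2)) q
    rw [trQ_apply, inv_inv, h2] at h3
    exact h3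
  have hfin : finrank k W ≤ Fintype.card Ω := by
    calc finrank k W ≤ finrank k (LinearMap.range Ψ) := Submodule.finrank_mono hWr
      _ ≤ finrank k (Ω → k) := LinearMap.finrank_range_le Ψ
      _ = Fintype.card Ω := Module.finrank_fintype_fun_eq_card k
  have hinj : Function.Injective (fun x : Fin c × Ω => f x.1 • (x.2.out : H ⧸ N)) := by
    rintro ⟨i, ω⟩ ⟨j, ω'⟩ h
    have h' : f i • (ω.out : H ⧸ N) = f j • (ω'.out : H ⧸ N) := h
    have hω : ω = ω' := by
      rw [← Quotient.out_eq ω, ← Quotient.out_eq ω']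
      refine Quotient.sound ?_
      change (MulAction.orbitRel K (H ⧸ N)) ω.out ω'.out
      rw [MulAction.orbitRel_apply]
      refine ⟨⟨(f i)⁻¹ * f j, K.mul_mem (K.inv_mem (hfK i)) (hfK j)⟩, ?_⟩
      change ((f i)⁻¹ * f j) • (ω'.out : H ⧸ N) = ω.out
      rw [mul_smul, ← h', inv_smul_smul]
    subst hω
    have hij : i = j := by
      refine hf i j ?_
      obtain ⟨g, hg⟩ := QuotientGroup.mk_surjective (ω.out : H ⧸ N)
      rw [← hg] at h'
      have h4 : ((f i * g : H) : H ⧸ N) = ((f j * g : H) : H ⧸ N) := h'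
      rw [QuotientGroup.eq] at h4
      have h5 := (inferInstance : N.Normal).conj_mem _ h4 g
      have h6 : g * ((f i * g)⁻¹ * (f j * g)) * g⁻¹ = (f i)⁻¹ * f j := by group
      rwa [h6] at h5
    rw [hij]
  have hcard := Fintype.card_le_of_injective _ hinj
  rw [Fintype.card_prod, Fintype.card_fin] at hcard
  rw [Nat.card_eq_fintype_card]
  exact (Nat.mul_le_mul_left c hfin).trans hcard

end PDT
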