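import Mathlib

/-!
# PDT/NoethLift: a `t`-adically complete ring `T` with `T/tT` left noetherian is left noetherian

`T` not necessarily commutative, `t` central, `ker π = tT`.

Complete proof.  Let `J` be a left ideal of `T` (`Submodule T T`).  For `k : ℕ` let
`J_k = {π a | t^k a ∈ J}`, a left ideal of `R'` (`π` surjective; `t` central), increasing in `k`.
`R'` is noetherian, so `J_k = J_K` for all `k ≥ K`.  For `k ≤ K` choose finitely many `a_{k,i}`,
`t^k a_{k,i} ∈ J`, such that the `π a_{k,i}` generate `J_k` (take the same number `n` of generators for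
every `k`, e.g. by adding zeros, or use finite sets).  CLAIM: `J` is generated by the
`t^k a_{k,i}`, `k ≤ K`.  Let `x ∈ J`.  Construct `x_k ∈ J`, `x_k = t^k y_k`, `x_0 = x`: given `x_k`,
`π y_k ∈ J_k = J_{min(k,K)}`, so `π y_k = Σ_i π(c_{k,i}) π(a_{min(k,K),i})`, and
`x_{k+1} := x_k - Σ_i c_{k,i} t^k a_{min(k,K),i}` is `t^k (y_k - Σ_i c_{k,i} a_{min(k,K),i})`, where the
bracket is in `ker π = tT`; so `x_{k+1} ∈ t^(k+1) T`, and `x_{k+1} ∈ J` because
`t^k a_{min(k,K),i} = t^(k - min) · t^min a_{min,i} ∈ J`.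
So for all `n`: `x - Σ_{k<n} Σ_i c_{k,i} t^k a_{min(k,K),i} ∈ t^n T`.  By `hcomp` there are `s_i` with
`s_i - Σ_{j<n} t^j c_{K+j,i} ∈ t^n T` for all `n`.  Then
`x - Σ_{k<K} Σ_i c_{k,i} t^k a_{k,i} - Σ_i s_i t^K a_{K,i} ∈ t^n T` for all `n`
(`c_{K+j,i} t^(K+j) a_{K,i} = t^j c_{K+j,i} · t^K a_{K,i}`), so it is `0` by `hsep`.
-/

namespace PDT

open Function

theorem noeth_lift {T R' : Type*} [Ring T] [Ring R'] [IsNoetherianRing R'] (t : T)
    (ht : ∀ a, t * a = a * t) (hsep : ∀ a : T, (∀ n : ℕ, ∃ b, a = t ^ n * b) → a = 0)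
    (hcomp : ∀ b : ℕ → T, ∃ s, ∀ n : ℕ, ∃ r, s = ∑ k ∈ Finset.range n, t ^ k * b k + t ^ n * r)
    (π : T →+* R') (hπ : Surjective π) (hker : ∀ a, π a = 0 ↔ ∃ b, a = t * b) :
    IsNoetherianRing T := by
  classical
  have hc : ∀ (k : ℕ) (a : T), t ^ k * a = a * t ^ k := fun k a =>
    ((show Commute t a from ht a).pow_left k).eq
  refine (isNoetherianRing_iff_ideal_fg T).2 fun J => ?_
  let L : ℕ → Ideal R' := fun k =>
    { carrier := {r | ∃ a, π a = r ∧ t ^ k * a ∈ J}
      add_mem' := by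
        rintro _ _ ⟨a, rfl, ha⟩ ⟨b, rfl, hb⟩
        exact ⟨a + b, map_add _ _ _, by rw [mul_add]; exact J.add_mem ha hb⟩
      zero_mem' := ⟨0, map_zero _, by rw [mul_zero]; exact J.zero_mem⟩
      smul_mem' := by
        rintro c _ ⟨a, rfl, ha⟩
        obtain ⟨d, rfl⟩ := hπ c
        refine ⟨d * a, map_mul _ _ _, ?_⟩
        rw [← mul_assoc, hc k d, mul_assoc]
        exact J.mul_mem_left d ha }
  have hLmem : ∀ k r, r ∈ L k ↔ ∃ a, π a = r ∧ t ^ k * a ∈ J := fun k r => Iff.rfl
  have hmono : Monotone L := monotone_nat_of_le_succ fun k => by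
    rintro _ ⟨a, rfl, ha⟩
    refine ⟨a, rfl, ?_⟩
    rw [pow_succ', mul_assoc]
    exact J.mul_mem_left t ha
  obtain ⟨K, hK⟩ := monotone_stabilizes_iff_noetherian.2
    (inferInstance : IsNoetherian R' R') ⟨L, hmono⟩
  have hK' : ∀ m, K ≤ m → L m = L K := fun m hm => (hK m hm).symm
  have hfg : ∀ k, ∃ (n : ℕ) (a : Fin n → T), (∀ i, t ^ k * a i ∈ J) ∧
      Submodule.span R' (Set.range fun i => π (a i)) = L k := by
    intro k
    obtain ⟨n, s, hs⟩ := Submodule.fg_iff_exists_fin_generating_family.1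
      (IsNoetherian.noetherian (L k))
    have h1 : ∀ i, ∃ a, π a = s i ∧ t ^ k * a ∈ J := by
      intro i
      rw [← hLmem, ← hs]
      exact Submodule.subset_span ⟨i, rfl⟩
    choose a ha hb using h1
    refine ⟨n, a, hb, ?_⟩
    rw [← hs]
    congr 2
    funext i
    exact ha i
  choose n a ha hspan using hfg
  obtain ⟨g, hg⟩ := hπ.hasRightInverse
  have hstep : ∀ k m y, L k = L m → m ≤ k → t ^ k * y ∈ J →
      ∃ (c : Fin (n m) → T) (z : T), y = ∑ i, c i * a m i + t * z ∧ t ^ (k + 1) * z ∈ J := by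
    intro k m y hkm hmk hy
    have h1 : π y ∈ L m := by
      rw [← hkm]
      exact ⟨y, rfl, hy⟩
    rw [← hspan m, Submodule.mem_span_range_iff_exists_fun] at h1
    obtain ⟨c, hc1⟩ := h1
    have h2 : π (y - ∑ i, g (c i) * a m i) = 0 := by
      rw [map_sub, map_sum, ← hc1, sub_eq_zero]
      refine Finset.sum_congr rfl fun i _ => ?_
      rw [map_mul, hg, smul_eq_mul]
    obtain ⟨z, hz⟩ := (hker _).1 h2
    refine ⟨fun i => g (c i), z, ?_, ?_⟩
    · rw [← hz]
      abel
    · rw [pow_succ, mul_assoc, ← hz, mul_sub, Finset.mul_sum]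
      refine J.sub_mem hy (J.sum_mem fun i _ => ?_)
      rw [← mul_assoc, hc k, mul_assoc]
      refine J.mul_mem_left _ ?_
      obtain ⟨l, rfl⟩ := Nat.exists_eq_add_of_le hmk
      rw [add_comm, pow_add, mul_assoc]
      exact J.mul_mem_left _ (ha m i)
  -- the generators
  let G : Set T := {x | ∃ k, k ≤ K ∧ ∃ i, x = t ^ k * a k i}
  have hGfin : G.Finite := by
    have h1 : G ⊆ ⋃ k ∈ Finset.range (K + 1), Set.range fun i => t ^ k * a k i := by
      rintro x ⟨k, hk, i, rfl⟩
      simp only [Set.mem_iUnion]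
      exact ⟨k, Finset.mem_range.2 (by omega), i, rfl⟩
    refine Set.Finite.subset ?_ h1
    exact Set.Finite.biUnion (Finset.finite_toSet _) fun k _ => Set.finite_range _
  have hGJ : Submodule.span T G ≤ J := by
    rw [Submodule.span_le]
    rintro x ⟨k, -, i, rfl⟩
    exact ha k i
  have hGmem : ∀ k, k ≤ K → ∀ (c : Fin (n k) → T),
      t ^ k * ∑ i, c i * a k i ∈ Submodule.span T G := by
    intro k hk c
    rw [Finset.mul_sum]
    refine Submodule.sum_mem _ fun i _ => ?_
    rw [← mul_assoc, hc k, mul_assoc]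
    exact Submodule.smul_mem _ (c i) (Submodule.subset_span ⟨k, hk, i, rfl⟩)
  have hphase2 : ∀ y, t ^ K * y ∈ J → t ^ K * y ∈ Submodule.span T G := by
    intro y hy
    have hst : ∀ (j : ℕ) (y : T), t ^ (K + j) * y ∈ J →
        ∃ (c : Fin (n K) → T) (z : T), y = ∑ i, c i * a K i + t * z ∧
          t ^ (K + (j + 1)) * z ∈ J := fun j y hy =>
      hstep (K + j) K y (hK' _ (by omega)) (by omega) hy
    choose! cf zf h1 h2 using hst
    let Y : ℕ → T := fun j => Nat.rec y (fun j yj => zf j yj) j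
    have hY : ∀ j, t ^ (K + j) * Y j ∈ J := by
      intro j
      induction j with
      | zero => exact hy
      | succ j ih => exact h2 j (Y j) ih
    have hYs : ∀ j, Y j = ∑ i, cf j (Y j) i * a K i + t * Y (j + 1) := fun j => h1 j (Y j) (hY j)
    have hsum : ∀ m, y = ∑ i, (∑ k ∈ Finset.range m, t ^ k * cf k (Y k) i) * a K i
        + t ^ m * Y m := by
      intro m
      induction m with
      | zero =>
        simp only [Finset.range_zero, Finset.sum_empty, zero_mul, Finset.sum_const_zero, zero_add,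
          pow_zero, one_mul]
        rfl
      | succ m ih =>
        rw [ih]
        simp only [Finset.sum_range_succ, add_mul, Finset.sum_add_distrib]
        rw [add_assoc]
        congr 1
        conv_lhs => rw [hYs m, mul_add, Finset.mul_sum, ← mul_assoc, ← pow_succ]
        congr 1
        exact Finset.sum_congr rfl fun i _ => (mul_assoc _ _ _).symm
    choose s hs using fun i => hcomp fun k => cf k (Y k) i
    have hd : y - ∑ i, s i * a K i = 0 := by
      apply hsep
      intro m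
      choose r hr using fun i => hs i m
      refine ⟨Y m - ∑ i, r i * a K i, ?_⟩
      have h3 : ∑ i, s i * a K i = ∑ i, (∑ k ∈ Finset.range m, t ^ k * cf k (Y k) i) * a K i
          + t ^ m * ∑ i, r i * a K i := by
        rw [Finset.mul_sum, ← Finset.sum_add_distrib]
        refine Finset.sum_congr rfl fun i _ => ?_
        rw [hr i, add_mul, mul_assoc]
      rw [h3, mul_sub]
      conv_lhs => rw [hsum m]
      abel
    rw [sub_eq_zero] at hd
    rw [hd]
    exact hGmem K le_rfl s
  have hphase1 : ∀ k, k ≤ K → ∀ y, t ^ k * y ∈ J → t ^ k * y ∈ Submodule.span T G := by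
    intro k hk
    refine Nat.decreasingInduction
      (motive := fun k _ => ∀ y, t ^ k * y ∈ J → t ^ k * y ∈ Submodule.span T G) ?_ hphase2 hk
    intro k hk ih y hy
    obtain ⟨c, z, hyz, hz⟩ := hstep k k y rfl le_rfl hy
    rw [hyz, mul_add, ← mul_assoc, ← pow_succ]
    exact Submodule.add_mem _ (hGmem k hk.le c) (ih z hz)
  have hJ : J = Submodule.span T G := by
    refine le_antisymm ?_ hGJ
    intro x hx
    have := hphase1 0 (Nat.zero_le _) x (by rwa [pow_zero, one_mul])
    rwa [pow_zero, one_mul] at this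
  rw [hJ]
  exact Submodule.fg_span hGfin

end PDT
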