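import Pool.Agent.Lib.PDT.StBase

/-!
# PDT/StAssoc: the star product is associative

Let `A = R⟦X⟧` and `T = (A → A → A → A)`, an additive group. The endomorphisms `a12, a13, a23` of `T`
  `(a12 F) f g h = Σ_i F (D_i f) (P_i g) h`, `(a13 F) f g h = Σ_i F (D_i f) g (P_i h)`,
  `(a23 F) f g h = Σ_i F f (D_i g) (P_i h)`
commute pairwise. With `μ f g h = f g h`:
  `br k (br l f g) h = (a12^l (a13 + a23)^k μ) f g h`,
  `br k f (br l g h) = (a23^l (a12 + a13)^k μ) f g h`,
and the binomial theorem for `(a12 + a13 + a23)^n` gives the identity (A); then the coefficients of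
`X^n` are compared.
-/

namespace PDT

open PowerSeries

section StAssoc

variable {R : Type*} [CommRing R] {ι : Type*} [Fintype ι] (S : StarData R ι)

private noncomputable def StAssoc12 : AddMonoid.End (R⟦X⟧ → R⟦X⟧ → R⟦X⟧ → R⟦X⟧) where
  toFun F := fun f g h => ∑ i, F (cw (S.D i) f) (cw (S.P i) g) h
  map_zero' := by funext f g h; simp
  map_add' F G := by funext f g h; simp [Finset.sum_add_distrib]

private noncomputable def StAssoc13 : AddMonoid.End (R⟦X⟧ → R⟦X⟧ → R⟦X⟧ → R⟦X⟧) where
  toFun F := fun f g h => ∑ i, F (cw (S.D i) f) g (cw (S.P i) h)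
  map_zero' := by funext f g h; simp
  map_add' F G := by funext f g h; simp [Finset.sum_add_distrib]

private noncomputable def StAssoc23 : AddMonoid.End (R⟦X⟧ → R⟦X⟧ → R⟦X⟧ → R⟦X⟧) where
  toFun F := fun f g h => ∑ i, F f (cw (S.D i) g) (cw (S.P i) h)
  map_zero' := by funext f g h; simp
  map_add' F G := by funext f g h; simp [Finset.sum_add_distrib]

private theorem StAssoc12_apply (F : R⟦X⟧ → R⟦X⟧ → R⟦X⟧ → R⟦X⟧) (f g h : R⟦X⟧) :
    StAssoc12 S F f g h = ∑ i, F (cw (S.D i) f) (cw (S.P i) g) h := rfl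

private theorem StAssoc13_apply (F : R⟦X⟧ → R⟦X⟧ → R⟦X⟧ → R⟦X⟧) (f g h : R⟦X⟧) :
    StAssoc13 S F f g h = ∑ i, F (cw (S.D i) f) g (cw (S.P i) h) := rfl

private theorem StAssoc23_apply (F : R⟦X⟧ → R⟦X⟧ → R⟦X⟧ → R⟦X⟧) (f g h : R⟦X⟧) :
    StAssoc23 S F f g h = ∑ i, F f (cw (S.D i) g) (cw (S.P i) h) := rfl

private theorem StAssoc_comm1 : StAssoc12 S * StAssoc13 S = StAssoc13 S * StAssoc12 S := by
  apply AddMonoidHom.ext
  intro F
  funext f g h
  change StAssoc12 S (StAssoc13 S F) f g h = StAssoc13 S (StAssoc12 S F) f g h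
  simp only [StAssoc12_apply, StAssoc13_apply]
  rw [Finset.sum_comm]
  refine Finset.sum_congr rfl fun i _ => Finset.sum_congr rfl fun j _ => ?_
  rw [cw_comm (S.D i) (S.D j) (S.DD i j)]

private theorem StAssoc_comm2 : StAssoc12 S * StAssoc23 S = StAssoc23 S * StAssoc12 S := by
  apply AddMonoidHom.ext
  intro F
  funext f g h
  change StAssoc12 S (StAssoc23 S F) f g h = StAssoc23 S (StAssoc12 S F) f g h
  simp only [StAssoc12_apply, StAssoc23_apply]
  rw [Finset.sum_comm]
  refine Finset.sum_congr rfl fun i _ => Finset.sum_congr rfl fun j _ => ?_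
  rw [cw_comm (S.D i) (S.P j) (S.DP i j)]

private theorem StAssoc_comm3 : StAssoc13 S * StAssoc23 S = StAssoc23 S * StAssoc13 S := by
  apply AddMonoidHom.ext
  intro F
  funext f g h
  change StAssoc13 S (StAssoc23 S F) f g h = StAssoc23 S (StAssoc13 S F) f g h
  simp only [StAssoc13_apply, StAssoc23_apply]
  rw [Finset.sum_comm]
  refine Finset.sum_congr rfl fun i _ => Finset.sum_congr rfl fun j _ => ?_
  rw [cw_comm (S.P i) (S.P j) (S.PP i j)]

/-- the triple product -/
private noncomputable def StAssocMu (R : Type*) [CommRing R] : R⟦X⟧ → R⟦X⟧ → R⟦X⟧ → R⟦X⟧ :=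
  fun f g h => f * g * h

private theorem StAssoc_left (k : ℕ) (f g h : R⟦X⟧) :
    ((StAssoc13 S + StAssoc23 S) ^ k) (StAssocMu R) f g h = br S k (f * g) h := by
  induction k generalizing f g h with
  | zero => rfl
  | succ k ih =>
    rw [pow_succ']
    change StAssoc13 S (((StAssoc13 S + StAssoc23 S) ^ k) (StAssocMu R)) f g h +
      StAssoc23 S (((StAssoc13 S + StAssoc23 S) ^ k) (StAssocMu R)) f g h = _
    rw [StAssoc13_apply, StAssoc23_apply, br_succ, ← Finset.sum_add_distrib]
    refine Finset.sum_congr rfl fun i _ => ?_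
    rw [ih, ih, cw_mul _ (S.D_mul i), br_add_left]

private theorem StAssoc_right (k : ℕ) (f g h : R⟦X⟧) :
    ((StAssoc12 S + StAssoc13 S) ^ k) (StAssocMu R) f g h = br S k f (g * h) := by
  induction k generalizing f g h with
  | zero => exact mul_assoc f g h
  | succ k ih =>
    rw [pow_succ']
    change StAssoc12 S (((StAssoc12 S + StAssoc13 S) ^ k) (StAssocMu R)) f g h +
      StAssoc13 S (((StAssoc12 S + StAssoc13 S) ^ k) (StAssocMu R)) f g h = _
    rw [StAssoc12_apply, StAssoc13_apply, br_succ, ← Finset.sum_add_distrib]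
    refine Finset.sum_congr rfl fun i _ => ?_
    rw [ih, ih, cw_mul _ (S.P_mul i), br_add_right]

private theorem StAssoc_sum_left (k : ℕ) (F : ι → R⟦X⟧) (h : R⟦X⟧) :
    br S k (∑ i, F i) h = ∑ i, br S k (F i) h := by
  rw [← brH_apply, map_sum, AddMonoidHom.finsetSum_apply]
  rfl

private theorem StAssoc_sum_right (k : ℕ) (f : R⟦X⟧) (F : ι → R⟦X⟧) :
    br S k f (∑ i, F i) = ∑ i, br S k f (F i) := by
  rw [← brH_apply, map_sum]
  rfl

private theorem StAssoc_left2 (k l : ℕ) (f g h : R⟦X⟧) :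
    ((StAssoc12 S) ^ l) (((StAssoc13 S + StAssoc23 S) ^ k) (StAssocMu R)) f g h =
      br S k (br S l f g) h := by
  induction l generalizing f g h with
  | zero => exact StAssoc_left S k f g h
  | succ l ih =>
    rw [pow_succ']
    change StAssoc12 S (((StAssoc12 S) ^ l)
      (((StAssoc13 S + StAssoc23 S) ^ k) (StAssocMu R))) f g h = _
    rw [StAssoc12_apply, br_succ, StAssoc_sum_left]
    exact Finset.sum_congr rfl fun i _ => ih _ _ _

private theorem StAssoc_right2 (k l : ℕ) (f g h : R⟦X⟧) :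
    ((StAssoc23 S) ^ l) (((StAssoc12 S + StAssoc13 S) ^ k) (StAssocMu R)) f g h =
      br S k f (br S l g h) := by
  induction l generalizing f g h with
  | zero => exact StAssoc_right S k f g h
  | succ l ih =>
    rw [pow_succ']
    change StAssoc23 S (((StAssoc23 S) ^ l)
      (((StAssoc12 S + StAssoc13 S) ^ k) (StAssocMu R))) f g h = _
    rw [StAssoc23_apply, br_succ, StAssoc_sum_right]
    exact Finset.sum_congr rfl fun i _ => ih _ _ _

/-- evaluation -/
private noncomputable def StAssocEv (f g h : R⟦X⟧) :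
    AddMonoid.End (R⟦X⟧ → R⟦X⟧ → R⟦X⟧ → R⟦X⟧) →+ R⟦X⟧ where
  toFun E := E (StAssocMu R) f g h
  map_zero' := rfl
  map_add' _ _ := rfl

private theorem StAssoc_A (n : ℕ) (f g h : R⟦X⟧) :
    ∑ m ∈ Finset.HasAntidiagonal.antidiagonal n, n.choose m.1 • br S m.1 (br S m.2 f g) h =
      ∑ m ∈ Finset.HasAntidiagonal.antidiagonal n, n.choose m.1 • br S m.1 f (br S m.2 g h) := by
  have c1 : Commute (StAssoc13 S + StAssoc23 S) (StAssoc12 S) :=
    Commute.add_left (StAssoc_comm1 S).symm (StAssoc_comm2 S).symm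
  have c2 : Commute (StAssoc12 S + StAssoc13 S) (StAssoc23 S) :=
    Commute.add_left (StAssoc_comm2 S) (StAssoc_comm3 S)
  have h1 : ∑ m ∈ Finset.HasAntidiagonal.antidiagonal n, n.choose m.1 • br S m.1 (br S m.2 f g) h =
      StAssocEv f g h ((StAssoc13 S + StAssoc23 S + StAssoc12 S) ^ n) := by
    rw [c1.add_pow', map_sum]
    refine Finset.sum_congr rfl fun m _ => ?_
    rw [map_nsmul, (c1.pow_pow m.1 m.2).eq]
    congr 1
    exact (StAssoc_left2 S m.1 m.2 f g h).symm
  have h2 : ∑ m ∈ Finset.HasAntidiagonal.antidiagonal n, n.choose m.1 • br S m.1 f (br S m.2 g h) =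
      StAssocEv f g h ((StAssoc12 S + StAssoc13 S + StAssoc23 S) ^ n) := by
    rw [c2.add_pow', map_sum]
    refine Finset.sum_congr rfl fun m _ => ?_
    rw [map_nsmul, (c2.pow_pow m.1 m.2).eq]
    congr 1
    exact (StAssoc_right2 S m.1 m.2 f g h).symm
  rw [h1, h2]
  congr 2
  abel

private theorem StAssoc_sumle (n : ℕ) (F : ℕ → ℕ → R) :
    ∑ k ∈ Finset.range (n + 1), ∑ l ∈ Finset.range (n + 1), (if k + l ≤ n then F k l else 0) =
      ∑ s ∈ Finset.range (n + 1), ∑ m ∈ Finset.HasAntidiagonal.antidiagonal s, F m.1 m.2 := by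
  rw [← Finset.sum_product', ← Finset.sum_filter]
  rw [← Finset.sum_fiberwise_of_maps_to (s := (Finset.range (n + 1) ×ˢ
    Finset.range (n + 1)).filter fun x => x.1 + x.2 ≤ n) (t := Finset.range (n + 1))
    (g := fun x => x.1 + x.2)]
  · refine Finset.sum_congr rfl fun s hs => ?_
    refine Finset.sum_congr ?_ fun _ _ => rfl
    ext x
    rw [Finset.mem_range] at hs
    simp only [Finset.mem_filter, Finset.mem_product, Finset.mem_range,
      Finset.HasAntidiagonal.mem_antidiagonal]
    omega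
  · intro x hx
    simp only [Finset.mem_filter, Finset.mem_product, Finset.mem_range] at hx ⊢
    omega

private theorem StAssoc_coeff (n : ℕ) (B : ℕ → ℕ → R⟦X⟧) :
    coeff n (∑ k ∈ Finset.range (n + 1), X ^ k * (C (S.c k) *
      ∑ l ∈ Finset.range (n + 1), X ^ l * (C (S.c l) * B k l))) =
    ∑ s ∈ Finset.range (n + 1), coeff (n - s) (C (S.c s) *
      ∑ m ∈ Finset.HasAntidiagonal.antidiagonal s, s.choose m.1 • B m.1 m.2) := by
  have e1 : coeff n (∑ k ∈ Finset.range (n + 1), X ^ k * (C (S.c k) *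
      ∑ l ∈ Finset.range (n + 1), X ^ l * (C (S.c l) * B k l))) =
      ∑ k ∈ Finset.range (n + 1), ∑ l ∈ Finset.range (n + 1),
        (if k + l ≤ n then coeff (n - (k + l)) (C (S.c k * S.c l) * B k l) else 0) := by
    rw [map_sum]
    refine Finset.sum_congr rfl fun k _ => ?_
    rw [Finset.mul_sum, Finset.mul_sum, map_sum]
    refine Finset.sum_congr rfl fun l _ => ?_
    have e2 : X ^ k * (C (S.c k) * (X ^ l * (C (S.c l) * B k l))) =
        X ^ (k + l) * (C (S.c k * S.c l) * B k l) := by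
      rw [pow_add, map_mul]
      ring
    rw [e2, coeff_X_pow_mul']
  rw [e1, StAssoc_sumle n fun k l => coeff (n - (k + l)) (C (S.c k * S.c l) * B k l)]
  refine Finset.sum_congr rfl fun s _ => ?_
  rw [Finset.mul_sum, map_sum]
  refine Finset.sum_congr rfl fun m hm => ?_
  rw [Finset.HasAntidiagonal.mem_antidiagonal] at hm
  have e3 : C (S.c m.1 * S.c m.2) * B m.1 m.2 = C (S.c s) * (s.choose m.1 • B m.1 m.2) := by
    rw [← S.cc, hm, RingHom.map_mul C, map_natCast C, nsmul_eq_mul]
    ring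
  rw [hm, e3]

private theorem StAssoc_stn_left (n : ℕ) (u v h : R⟦X⟧) (huv : ∀ m ≤ n, coeff m u = coeff m v) :
    coeff n (stn S n u h) = coeff n (stn S n v h) := by
  have h1 : (X : R⟦X⟧) ^ (n + 1) ∣ u - v := by
    rw [X_pow_dvd_iff]
    intro m hm
    rw [map_sub, huv m (by omega), sub_self]
  obtain ⟨r, hr⟩ := h1
  have h2 : u = v + X ^ (n + 1) * r := by
    rw [← hr]
    ring
  have h3 : stn S n u h = stn S n v h + X ^ (n + 1) * stn S n r h := by
    rw [h2]
    unfold stn
    rw [Finset.mul_sum, ← Finset.sum_add_distrib]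
    refine Finset.sum_congr rfl fun k _ => ?_
    rw [br_add_left, br_X_pow_left]
    ring
  rw [h3, map_add, coeff_X_pow_mul', if_neg (by omega), add_zero]

private theorem StAssoc_stn_right (n : ℕ) (f u v : R⟦X⟧) (huv : ∀ m ≤ n, coeff m u = coeff m v) :
    coeff n (stn S n f u) = coeff n (stn S n f v) := by
  have h1 : (X : R⟦X⟧) ^ (n + 1) ∣ u - v := by
    rw [X_pow_dvd_iff]
    intro m hm
    rw [map_sub, huv m (by omega), sub_self]
  obtain ⟨r, hr⟩ := h1
  have h2 : u = v + X ^ (n + 1) * r := by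
    rw [← hr]
    ring
  have h3 : stn S n f u = stn S n f v + X ^ (n + 1) * stn S n f r := by
    rw [h2]
    unfold stn
    rw [Finset.mul_sum, ← Finset.sum_add_distrib]
    refine Finset.sum_congr rfl fun k _ => ?_
    rw [br_add_right, br_X_pow_right]
    ring
  rw [h3, map_add, coeff_X_pow_mul', if_neg (by omega), add_zero]

private theorem StAssoc_fin_left (n k : ℕ) (f g h : R⟦X⟧) :
    br S k (stn S n f g) h = ∑ l ∈ Finset.range (n + 1),
      X ^ l * (C (S.c l) * br S k (br S l f g) h) := by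
  unfold stn
  rw [← brH_apply, map_sum, AddMonoidHom.finsetSum_apply]
  refine Finset.sum_congr rfl fun l _ => ?_
  rw [brH_apply, br_X_pow_left, br_C_left S k _ fun i => S.Dc i l]

private theorem StAssoc_fin_right (n k : ℕ) (f g h : R⟦X⟧) :
    br S k f (stn S n g h) = ∑ l ∈ Finset.range (n + 1),
      X ^ l * (C (S.c l) * br S k f (br S l g h)) := by
  unfold stn
  rw [← brH_apply, map_sum]
  refine Finset.sum_congr rfl fun l _ => ?_
  rw [brH_apply, br_X_pow_right, br_C_right S k _ fun i => S.Pc i l]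

end StAssoc

theorem star'_assoc {R : Type*} [CommRing R] {ι : Type*} [Fintype ι] (S : StarData R ι)
    (f g h : R⟦X⟧) : star' S (star' S f g) h = star' S f (star' S g h) := by
  ext n
  rw [coeff_star', coeff_star']
  rw [StAssoc_stn_left S n (star' S f g) (stn S n f g) h
    (fun m hm => coeff_star'_of_le S hm f g)]
  rw [StAssoc_stn_right S n f (star' S g h) (stn S n g h)
    (fun m hm => coeff_star'_of_le S hm g h)]
  have e1 : stn S n (stn S n f g) h = ∑ k ∈ Finset.range (n + 1), X ^ k * (C (S.c k) *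
      ∑ l ∈ Finset.range (n + 1), X ^ l * (C (S.c l) * br S k (br S l f g) h)) := by
    conv_lhs => unfold stn
    refine Finset.sum_congr rfl fun k _ => ?_
    rw [← StAssoc_fin_left]
    rfl
  have e2 : stn S n f (stn S n g h) = ∑ k ∈ Finset.range (n + 1), X ^ k * (C (S.c k) *
      ∑ l ∈ Finset.range (n + 1), X ^ l * (C (S.c l) * br S k f (br S l g h))) := by
    conv_lhs => unfold stn
    refine Finset.sum_congr rfl fun k _ => ?_
    rw [← StAssoc_fin_right]
    rfl
  rw [e1, e2, StAssoc_coeff S n fun k l => br S k (br S l f g) h,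
    StAssoc_coeff S n fun k l => br S k f (br S l g h)]
  refine Finset.sum_congr rfl fun s _ => ?_
  rw [StAssoc_A]

end PDT
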