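import Pool.Agent.Lib.PDT.StBase
import Pool.Agent.Lib.PDT.StAssoc
import Pool.Agent.Lib.PDT.NoethLift

/-!
# PDT/StRing: the star product ring and its quotient by `X - a`

`StarQuot S a Λ`: a ring `Λ` with a surjection `q : R⟦X⟧ → Λ`, multiplicative for the star product,
with kernel the multiples of `X - a`.

Complete proof of `exists_starQuot`.  Let `T` be `R⟦X⟧` with the usual addition and the star product:
make a type synonym `def Star (S) := R⟦X⟧` (not reducible) with
`instance : AddCommGroup (Star S) := inferInstanceAs (AddCommGroup R⟦X⟧)` and a `Ring` instance with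
`mul = star' S`, `one = 1`: associativity `star'_assoc`, distributivity `star'_add_left/right`,
`star'_zero_left/right`, `1 * g = g` and `g * 1 = g` by `star'_of_D_eq_zero`, `star'_of_P_eq_zero`
(`D 1 = 0` from Leibniz).  The element `z = X - C a` satisfies `z * f = f * z = (X - C a) f` (usual
product; `cw D z = 0`).  Let `Λ = T ⧸ I`, `I = Ideal.span {z}`, a two-sided ideal
(`Ideal.IsTwoSided`, `Ideal.Quotient` ring instance for two-sided ideals), or, if you prefer, the
quotient by a `RingCon`/`TwoSidedIdeal`.  `q` the quotient map; its kernel is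
`{f * z} = {(X - C a) f}`.
Noetherian: `T` is noetherian by `noeth_lift` for `t = X` (`X * f = f * X = X f` usual product;
`t^n * f = X^n f`), `R' = R`, `π = constantCoeff` (multiplicative: `coeff 0 (star' f g) =
coeff 0 (stn 0 f g) = coeff 0 f · coeff 0 g` as `c_0 = 1`); `hsep`, `hcomp` are clear coefficientwise
(`s = mk fun n => Σ_{k ≤ n} coeff (n-k) (b k)`; `PowerSeries.X_pow_dvd_iff`); then
`isNoetherianRing_of_surjective`.  For `starQuot_noeth` build from a general `Q` the ring homomorphism
`T → Λ`, `f ↦ Q.q f`.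
-/

namespace PDT

open PowerSeries Function

universe v

/-- A quotient of the star product ring by the central element `X - a`. -/
structure StarQuot {R : Type*} [CommRing R] {ι : Type*} [Fintype ι] (S : StarData R ι) (a : R)
    (Λ : Type*) [Ring Λ] where
  /-- the quotient map -/
  q : R⟦X⟧ →+ Λ
  surj : Surjective q
  map_star : ∀ f g, q (star' S f g) = q f * q g
  map_one : q 1 = 1
  ker : ∀ f, q f = 0 ↔ ∃ g, f = (X - C a) * g

/-- `R⟦X⟧` with the star product. -/
def StRingT {R : Type*} [CommRing R] {ι : Type*} [Fintype ι] (_S : StarData R ι) : Type _ := R⟦X⟧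

noncomputable instance StRing_addCommGroup {R : Type*} [CommRing R] {ι : Type*} [Fintype ι]
    (S : StarData R ι) : AddCommGroup (StRingT S) := inferInstanceAs (AddCommGroup R⟦X⟧)

/-- The identity map from power series to the star product ring. -/
noncomputable def StRing_e {R : Type*} [CommRing R] {ι : Type*} [Fintype ι]
    (S : StarData R ι) : R⟦X⟧ ≃+ StRingT S := AddEquiv.refl R⟦X⟧

private theorem StRing_map_one {R : Type*} [CommRing R] (D : R →+ R)
    (hD : ∀ x y, D (x * y) = D x * y + x * D y) : D 1 = 0 := by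
  have h := hD 1 1
  simp only [mul_one, one_mul] at h
  exact left_eq_add.mp h

private theorem StRing_cw_zero {R : Type*} [CommRing R] (D : R →+ R) (f : R⟦X⟧)
    (h : ∀ n, D (coeff n f) = 0) : cw D f = 0 := by
  ext n
  simp [h]

private theorem StRing_cw_one {R : Type*} [CommRing R] (D : R →+ R)
    (hD : ∀ x y, D (x * y) = D x * y + x * D y) : cw D (1 : R⟦X⟧) = 0 := by
  apply StRing_cw_zero
  intro n
  rw [coeff_one]
  split_ifs
  · exact StRing_map_one D hD
  · exact map_zero D

private theorem StRing_cw_X {R : Type*} [CommRing R] (D : R →+ R)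
    (hD : ∀ x y, D (x * y) = D x * y + x * D y) : cw D (X : R⟦X⟧) = 0 := by
  apply StRing_cw_zero
  intro n
  rw [coeff_X]
  split_ifs
  · exact StRing_map_one D hD
  · exact map_zero D

private theorem StRing_cw_C {R : Type*} [CommRing R] (D : R →+ R) (a : R) (ha : D a = 0) :
    cw D (C a : R⟦X⟧) = 0 := by
  apply StRing_cw_zero
  intro n
  rw [coeff_C]
  split_ifs
  · exact ha
  · exact map_zero D

private theorem StRing_one_mul {R : Type*} [CommRing R] {ι : Type*} [Fintype ι]
    (S : StarData R ι) (f : R⟦X⟧) : star' S 1 f = f := by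
  rw [star'_of_D_eq_zero S 1 f fun i => StRing_cw_one _ (S.D_mul i), one_mul]

private theorem StRing_mul_one {R : Type*} [CommRing R] {ι : Type*} [Fintype ι]
    (S : StarData R ι) (f : R⟦X⟧) : star' S f 1 = f := by
  rw [star'_of_P_eq_zero S f 1 fun i => StRing_cw_one _ (S.P_mul i), mul_one]

noncomputable instance StRing_ring {R : Type*} [CommRing R] {ι : Type*} [Fintype ι]
    (S : StarData R ι) : Ring (StRingT S) :=
  { StRing_addCommGroup S with
    mul := fun f g => StRing_e S (star' S ((StRing_e S).symm f) ((StRing_e S).symm g))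
    one := StRing_e S 1
    mul_assoc := fun f g h => star'_assoc S ((StRing_e S).symm f) ((StRing_e S).symm g)
      ((StRing_e S).symm h)
    one_mul := fun f => StRing_one_mul S ((StRing_e S).symm f)
    mul_one := fun f => StRing_mul_one S ((StRing_e S).symm f)
    zero_mul := fun f => star'_zero_left S ((StRing_e S).symm f)
    mul_zero := fun f => star'_zero_right S ((StRing_e S).symm f)
    left_distrib := fun f g h => star'_add_right S ((StRing_e S).symm f) ((StRing_e S).symm g)
      ((StRing_e S).symm h)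
    right_distrib := fun f g h => star'_add_left S ((StRing_e S).symm f) ((StRing_e S).symm g)
      ((StRing_e S).symm h) }

private theorem StRing_e_mul {R : Type*} [CommRing R] {ι : Type*} [Fintype ι]
    (S : StarData R ι) (f g : R⟦X⟧) :
    StRing_e S f * StRing_e S g = StRing_e S (star' S f g) := rfl

private theorem StRing_e_one {R : Type*} [CommRing R] {ι : Type*} [Fintype ι]
    (S : StarData R ι) : StRing_e S 1 = 1 := rfl

private theorem StRing_e_surj {R : Type*} [CommRing R] {ι : Type*} [Fintype ι]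
    (S : StarData R ι) (x : StRingT S) : ∃ f : R⟦X⟧, StRing_e S f = x :=
  ⟨(StRing_e S).symm x, (StRing_e S).apply_symm_apply x⟩

theorem exists_starQuot {R : Type v} [CommRing R] {ι : Type*} [Fintype ι] (S : StarData R ι) (a : R)
    (hD : ∀ i, S.D i a = 0) (hP : ∀ i, S.P i a = 0) :
    ∃ (Λ : Type v) (_ : Ring Λ), Nonempty (StarQuot S a Λ) := by
  have hDz : ∀ i, cw (S.D i) (X - C a : R⟦X⟧) = 0 := by
    intro i
    rw [map_sub, StRing_cw_X _ (S.D_mul i), StRing_cw_C _ a (hD i), sub_zero]
  have hPz : ∀ i, cw (S.P i) (X - C a : R⟦X⟧) = 0 := by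
    intro i
    rw [map_sub, StRing_cw_X _ (S.P_mul i), StRing_cw_C _ a (hP i), sub_zero]
  have hzl : ∀ f : R⟦X⟧, StRing_e S (X - C a) * StRing_e S f = StRing_e S ((X - C a) * f) := by
    intro f
    rw [StRing_e_mul, star'_of_D_eq_zero S _ f hDz]
  have hzr : ∀ f : R⟦X⟧, StRing_e S f * StRing_e S (X - C a) = StRing_e S ((X - C a) * f) := by
    intro f
    rw [StRing_e_mul, star'_of_P_eq_zero S f _ hPz, mul_comm]
  let I : Ideal (StRingT S) := Ideal.span {StRing_e S (X - C a)}
  have hI : I.IsTwoSided := by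
    refine ⟨?_⟩
    intro x b hx
    obtain ⟨c, hc⟩ := Ideal.mem_span_singleton'.mp hx
    refine Ideal.mem_span_singleton'.mpr ⟨c * b, ?_⟩
    rw [← hc, mul_assoc, mul_assoc]
    obtain ⟨b', rfl⟩ := StRing_e_surj S b
    rw [hzr, hzl]
  refine ⟨StRingT S ⧸ I, inferInstance, ⟨?_⟩⟩
  refine
    { q := (Ideal.Quotient.mk I).toAddMonoidHom.comp (StRing_e S).toAddMonoidHom
      surj := ?_
      map_star := ?_
      map_one := ?_
      ker := ?_ }
  · intro y
    obtain ⟨x, hx⟩ := Ideal.Quotient.mk_surjective y
    obtain ⟨x', rfl⟩ := StRing_e_surj S x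
    exact ⟨x', hx⟩
  · intro f g
    exact map_mul (Ideal.Quotient.mk I) (StRing_e S f) (StRing_e S g)
  · exact map_one (Ideal.Quotient.mk I)
  · intro f
    change Ideal.Quotient.mk I (StRing_e S f) = 0 ↔ _
    rw [Ideal.Quotient.eq_zero_iff_mem, Ideal.mem_span_singleton']
    constructor
    · rintro ⟨g, hg⟩
      obtain ⟨g', rfl⟩ := StRing_e_surj S g
      rw [hzr] at hg
      exact ⟨g', ((StRing_e S).injective hg).symm⟩
    · rintro ⟨g, hg⟩
      exact ⟨StRing_e S g, by rw [hzr, hg]⟩

private theorem StRing_coeff_zero {R : Type*} [CommRing R] {ι : Type*} [Fintype ι]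
    (S : StarData R ι) (f g : R⟦X⟧) : coeff 0 (star' S f g) = coeff 0 f * coeff 0 g := by
  rw [coeff_star', stn]
  simp [br_zero, S.c0]

private theorem StRing_t_mul {R : Type*} [CommRing R] {ι : Type*} [Fintype ι]
    (S : StarData R ι) (f : R⟦X⟧) : StRing_e S X * StRing_e S f = StRing_e S (X * f) := by
  rw [StRing_e_mul, star'_of_D_eq_zero S X f fun i => StRing_cw_X _ (S.D_mul i)]

private theorem StRing_mul_t {R : Type*} [CommRing R] {ι : Type*} [Fintype ι]
    (S : StarData R ι) (f : R⟦X⟧) : StRing_e S f * StRing_e S X = StRing_e S (X * f) := by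
  rw [StRing_e_mul, star'_of_P_eq_zero S f X fun i => StRing_cw_X _ (S.P_mul i), mul_comm]

private theorem StRing_t_pow_mul {R : Type*} [CommRing R] {ι : Type*} [Fintype ι]
    (S : StarData R ι) (n : ℕ) (f : R⟦X⟧) :
    StRing_e S X ^ n * StRing_e S f = StRing_e S (X ^ n * f) := by
  induction n generalizing f with
  | zero => rw [pow_zero, pow_zero, one_mul, one_mul]
  | succ n ih => rw [pow_succ, mul_assoc, StRing_t_mul, ih, pow_succ, mul_assoc]

private noncomputable def StRing_pi {R : Type*} [CommRing R] {ι : Type*} [Fintype ι]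
    (S : StarData R ι) : StRingT S →+* R where
  toFun f := coeff 0 ((StRing_e S).symm f)
  map_one' := by
    rw [← StRing_e_one, AddEquiv.symm_apply_apply]
    simp
  map_mul' f g := by
    obtain ⟨f', rfl⟩ := StRing_e_surj S f
    obtain ⟨g', rfl⟩ := StRing_e_surj S g
    rw [StRing_e_mul, AddEquiv.symm_apply_apply, AddEquiv.symm_apply_apply,
      AddEquiv.symm_apply_apply]
    exact StRing_coeff_zero S f' g'
  map_zero' := by rw [map_zero, map_zero]
  map_add' f g := by rw [map_add, map_add]

private theorem StRing_pi_e {R : Type*} [CommRing R] {ι : Type*} [Fintype ι]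
    (S : StarData R ι) (f : R⟦X⟧) : StRing_pi S (StRing_e S f) = coeff 0 f := rfl

private theorem StRing_noeth {R : Type*} [CommRing R] [IsNoetherianRing R] {ι : Type*} [Fintype ι]
    (S : StarData R ι) : IsNoetherianRing (StRingT S) := by
  refine noeth_lift (StRing_e S X) ?_ ?_ ?_ (StRing_pi S) ?_ ?_
  · intro f
    obtain ⟨f', rfl⟩ := StRing_e_surj S f
    rw [StRing_t_mul, StRing_mul_t]
  · intro f hf
    obtain ⟨f', rfl⟩ := StRing_e_surj S f
    have h0 : f' = 0 := by
      refine PowerSeries.ext fun n => ?_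
      obtain ⟨b, hb⟩ := hf (n + 1)
      obtain ⟨b', rfl⟩ := StRing_e_surj S b
      rw [StRing_t_pow_mul] at hb
      rw [(StRing_e S).injective hb, coeff_X_pow_mul', if_neg (by omega), map_zero]
    rw [h0, map_zero]
  · intro b
    choose b' hb' using fun k => StRing_e_surj S (b k)
    refine ⟨StRing_e S (PowerSeries.mk fun n =>
      ∑ k ∈ Finset.range (n + 1), coeff (n - k) (b' k)), fun n => ?_⟩
    have hdvd : (X : R⟦X⟧) ^ n ∣ (PowerSeries.mk fun n =>
        ∑ k ∈ Finset.range (n + 1), coeff (n - k) (b' k)) -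
        ∑ k ∈ Finset.range n, X ^ k * b' k := by
      rw [X_pow_dvd_iff]
      intro m hm
      rw [map_sub, map_sum, coeff_mk, sub_eq_zero]
      have h1 : ∀ k ∈ Finset.range n, coeff m (X ^ k * b' k) =
          if k ≤ m then coeff (m - k) (b' k) else 0 := fun k _ => coeff_X_pow_mul' _ _ _
      rw [Finset.sum_congr rfl h1, ← Finset.sum_filter]
      refine Finset.sum_congr ?_ fun _ _ => rfl
      ext k
      simp only [Finset.mem_range, Finset.mem_filter]
      omega
    obtain ⟨r, hr⟩ := hdvd
    refine ⟨StRing_e S r, ?_⟩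
    have hsum : (∑ k ∈ Finset.range n, StRing_e S X ^ k * b k) =
        StRing_e S (∑ k ∈ Finset.range n, X ^ k * b' k) := by
      rw [map_sum]
      refine Finset.sum_congr rfl fun k _ => ?_
      rw [← hb' k, StRing_t_pow_mul]
    rw [hsum, StRing_t_pow_mul, ← map_add, ← hr]
    congr 1
    ring
  · intro x
    refine ⟨StRing_e S (C x), ?_⟩
    rw [StRing_pi_e]
    simp
  · intro f
    obtain ⟨f', rfl⟩ := StRing_e_surj S f
    rw [StRing_pi_e, coeff_zero_eq_constantCoeff_apply, ← X_dvd_iff]
    constructor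
    · rintro ⟨g, hg⟩
      exact ⟨StRing_e S g, by rw [StRing_t_mul, ← hg]⟩
    · rintro ⟨g, hg⟩
      obtain ⟨g', rfl⟩ := StRing_e_surj S g
      rw [StRing_t_mul] at hg
      exact ⟨g', (StRing_e S).injective hg⟩

theorem starQuot_noeth {R : Type v} [CommRing R] [IsNoetherianRing R] {ι : Type*} [Fintype ι]
    (S : StarData R ι) (a : R) {Λ : Type*} [Ring Λ] (Q : StarQuot S a Λ) : IsNoetherianRing Λ := by
  have := StRing_noeth S
  let φ : StRingT S →+* Λ :=
    { toFun := fun f => Q.q ((StRing_e S).symm f)
      map_one' := by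
        rw [← StRing_e_one, AddEquiv.symm_apply_apply]
        exact Q.map_one
      map_mul' := fun f g => by
        obtain ⟨f', rfl⟩ := StRing_e_surj S f
        obtain ⟨g', rfl⟩ := StRing_e_surj S g
        rw [StRing_e_mul, AddEquiv.symm_apply_apply, AddEquiv.symm_apply_apply,
          AddEquiv.symm_apply_apply]
        exact Q.map_star f' g'
      map_zero' := by rw [map_zero, map_zero]
      map_add' := fun f g => by rw [map_add, map_add] }
  refine isNoetherianRing_of_surjective (StRingT S) Λ φ ?_
  intro y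
  obtain ⟨f, hf⟩ := Q.surj y
  exact ⟨StRing_e S f, hf⟩

end PDT
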