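import Pool.Agent.Lib.PDT.StBase
import Pool.Agent.Lib.PDT.StRing

/-!
# PDT/StDom: the quotient of the star product ring by `X - a` is a domain

`R` a domain, `ϖ` a constant (killed by all derivations) generating a prime ideal, `a = ϖ a'`,
`ϖ^e = a a''`, `a ≠ 0`.  Write `x = q(C ϖ)`.

Complete proof.  In `Λ`: `q(C b) q(f) = q(C b · f) = q(f) q(C b)` for constants `b` (usual product,
`star'_of_D_eq_zero`, `star'_of_P_eq_zero`), `q(X f) = q(X) q(f)`, and `q(X) = q(C a)`.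
(1) `π : Λ → R/ϖ`, `π (q f) = [coeff 0 f]`: well-defined since `f = (X - C a) g` has
`coeff 0 f = - a coeff 0 g ∈ (ϖ)`; multiplicative since `coeff 0 (star' f g) = coeff 0 f · coeff 0 g`
(`coeff_star'`, `stn`, `c_0 = 1`).
(2) Kernel: if `coeff 0 f = ϖ b`, then `f = C (ϖ b) + X f₁`, and `q (X f₁) = q (C a · f₁) =
q(C ϖ) q(C a' f₁)`; here `a'` need not be a constant, but `C a f₁ = C ϖ · (C a' f₁)` as power series,
so `q (C a · f₁) = q (C ϖ · (C a' f₁)) = x · q(C a' · f₁)`.  So `q f = x y`.  Conversely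
`π(x y) = [ϖ] π(y) = 0`.
(3) `x y = 0 → y = 0`: let `y = q f`; `q (C ϖ f) = 0`, so `C ϖ f = (X - C a) g`, so
`X g = C ϖ (f + C a' g)`; coefficientwise `ϖ` divides all coefficients of `g`: `g = C ϖ g'`, and
cancelling `ϖ ≠ 0` (`R` a domain), `f = (X - C a) g'`, `y = 0`.
(4) Separated: let `q f` be divisible by `x^n` for all `n`.  Since `ϖ^e = a a''`,
`x^(e n) = q(C (a a'')^n)` and, for every `g`, `q (C (a^n) g') = q (X^n g')` (`q(X h) = q(C a h)`); so for
every `n` there are `b_n, c_n : R⟦X⟧` with `f = (X - C a) c_n + X^n b_n`.  For `n ≤ m`: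
`(X - C a)(c_n - c_m)` is divisible by `X^n`, so, `a` being a non-zero-divisor, `c_n - c_m` has
zero coefficients in degrees `< n` (induction: coefficient `0`: `- a e_0 = 0`; coefficient `k`:
`e_{k-1} - a e_k = 0`).  Put `c = mk fun k => coeff k (c_{k+1})`; then `c ≡ c_n` in degrees `< n` and
`f - (X - C a) c` is divisible by `X^n` for all `n`, so it is zero, and `q f = 0`.
(5) `NoZeroDivisors`: if `u v = 0`, `u, v ≠ 0`: by (4) write `u = x^i u'`, `v = x^j v'` with `u', v'` not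
divisible by `x` (maximal `i, j`; `x` central); by (3) `u' v' = 0`, so `π(u') π(v') = 0` in the domain
`R/ϖ`, so one of them is in `ker π = x Λ`, contradiction.  Nontrivial: `π 1 = 1 ≠ 0`.
-/

namespace PDT

open PowerSeries Function

private theorem StDom_coeff_zero {R : Type*} [CommRing R] {ι : Type*} [Fintype ι]
    (S : StarData R ι) (f g : R⟦X⟧) : coeff 0 (star' S f g) = coeff 0 f * coeff 0 g := by
  rw [coeff_star', stn]
  simp [br_zero, S.c0]

private theorem StDom_cw_C {R : Type*} [CommRing R] (D : R →+ R) (a : R) (ha : D a = 0) :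
    cw D (C a : R⟦X⟧) = 0 := by
  ext n
  rw [coeff_cw, coeff_C]
  split_ifs
  · rw [ha, map_zero]
  · rw [map_zero, map_zero]

private theorem StDom_qC {R : Type*} [CommRing R] {ι : Type*} [Fintype ι] (S : StarData R ι)
    (a : R) {Λ : Type*} [Ring Λ] (Q : StarQuot S a Λ) (b : R) (hD : ∀ i, S.D i b = 0)
    (f : R⟦X⟧) : Q.q (C b) * Q.q f = Q.q (C b * f) := by
  rw [← Q.map_star, star'_of_D_eq_zero S _ f fun i => StDom_cw_C _ b (hD i)]

private theorem StDom_Cq {R : Type*} [CommRing R] {ι : Type*} [Fintype ι] (S : StarData R ι)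
    (a : R) {Λ : Type*} [Ring Λ] (Q : StarQuot S a Λ) (b : R) (hP : ∀ i, S.P i b = 0)
    (f : R⟦X⟧) : Q.q f * Q.q (C b) = Q.q (C b * f) := by
  rw [← Q.map_star, star'_of_P_eq_zero S f _ fun i => StDom_cw_C _ b (hP i), mul_comm]

private theorem StDom_qX {R : Type*} [CommRing R] {ι : Type*} [Fintype ι] (S : StarData R ι)
    (a : R) {Λ : Type*} [Ring Λ] (Q : StarQuot S a Λ) (f : R⟦X⟧) :
    Q.q (X * f) = Q.q (C a * f) := by
  rw [← sub_eq_zero, ← map_sub, Q.ker]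
  exact ⟨f, by ring⟩

private theorem StDom_qXn {R : Type*} [CommRing R] {ι : Type*} [Fintype ι] (S : StarData R ι)
    (a : R) {Λ : Type*} [Ring Λ] (Q : StarQuot S a Λ) (n : ℕ) (f : R⟦X⟧) :
    Q.q (X ^ n * f) = Q.q (C (a ^ n) * f) := by
  induction n generalizing f with
  | zero => simp
  | succ n ih =>
    rw [pow_succ, mul_assoc, ih, ← mul_assoc, mul_comm (C (a ^ n)) X, mul_assoc, StDom_qX,
      ← mul_assoc, ← map_mul, pow_succ, mul_comm a]

private theorem StDom_qCn {R : Type*} [CommRing R] {ι : Type*} [Fintype ι] (S : StarData R ι)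
    (a : R) {Λ : Type*} [Ring Λ] (Q : StarQuot S a Λ) (b : R) (hD : ∀ i, S.D i b = 0)
    (n : ℕ) (f : R⟦X⟧) : Q.q (C b) ^ n * Q.q f = Q.q (C (b ^ n) * f) := by
  induction n generalizing f with
  | zero => simp
  | succ n ih =>
    rw [pow_succ, mul_assoc, StDom_qC S a Q b hD, ih, ← mul_assoc, ← map_mul, pow_succ]

private theorem StDom_wd {R : Type*} [CommRing R] {ι : Type*} [Fintype ι] (S : StarData R ι)
    (a ϖ a' : R) (ha : a = ϖ * a') {Λ : Type*} [Ring Λ] (Q : StarQuot S a Λ) (f g : R⟦X⟧)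
    (h : Q.q f = Q.q g) :
    Ideal.Quotient.mk (Ideal.span {ϖ}) (coeff 0 f) =
      Ideal.Quotient.mk (Ideal.span {ϖ}) (coeff 0 g) := by
  rw [Ideal.Quotient.eq, ← map_sub]
  rw [← sub_eq_zero, ← map_sub, Q.ker] at h
  obtain ⟨k, hk⟩ := h
  rw [hk, Ideal.mem_span_singleton]
  refine ⟨-(a' * coeff 0 k), ?_⟩
  rw [sub_mul, map_sub, coeff_zero_X_mul, coeff_C_mul, ha]
  ring

private theorem StDom_pi {R : Type*} [CommRing R] {ι : Type*} [Fintype ι] (S : StarData R ι)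
    (a ϖ a' : R) (ha : a = ϖ * a') {Λ : Type*} [Ring Λ] (Q : StarQuot S a Λ) :
    ∃ π : Λ →+* R ⧸ Ideal.span {ϖ},
      ∀ f, π (Q.q f) = Ideal.Quotient.mk (Ideal.span {ϖ}) (coeff 0 f) := by
  have key : ∀ f, Ideal.Quotient.mk (Ideal.span {ϖ}) (coeff 0 (surjInv Q.surj (Q.q f))) =
      Ideal.Quotient.mk (Ideal.span {ϖ}) (coeff 0 f) := fun f =>
    StDom_wd S a ϖ a' ha Q _ _ (surjInv_eq Q.surj (Q.q f))
  refine ⟨{ toFun := fun y => Ideal.Quotient.mk _ (coeff 0 (surjInv Q.surj y))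
            map_one' := ?_
            map_mul' := ?_
            map_zero' := ?_
            map_add' := ?_ }, key⟩
  · rw [← Q.map_one, key, coeff_zero_one, map_one]
  · intro x y
    obtain ⟨f, rfl⟩ := Q.surj x
    obtain ⟨g, rfl⟩ := Q.surj y
    rw [key, key, ← Q.map_star, key, StDom_coeff_zero, map_mul]
  · rw [← map_zero Q.q, key, map_zero, map_zero]
  · intro x y
    obtain ⟨f, rfl⟩ := Q.surj x
    obtain ⟨g, rfl⟩ := Q.surj y
    rw [key, key, ← map_add, key, map_add, map_add]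

private theorem StDom_sep {R : Type*} [CommRing R] [IsDomain R] (a : R) (ha0 : a ≠ 0)
    (f : R⟦X⟧) (h : ∀ n : ℕ, ∃ c b : R⟦X⟧, f = (X - C a) * c + X ^ n * b) :
    ∃ c, f = (X - C a) * c := by
  choose c b hcb using h
  have h1 : ∀ n m : ℕ, n ≤ m → ∀ k, k < n → coeff k (c n) = coeff k (c m) := by
    intro n m hnm k
    have h2 : (X - C a) * (c n - c m) = X ^ m * b m - X ^ n * b n := by
      have := hcb n
      have h' := hcb m
      linear_combination h' - this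
    have h3 : ∀ j, j < n → coeff j ((X - C a) * (c n - c m)) = 0 := by
      intro j hj
      rw [h2, map_sub, coeff_X_pow_mul', coeff_X_pow_mul', if_neg (by omega), if_neg (by omega),
        sub_zero]
    have h4 : ∀ j, j < n → coeff j (c n - c m) = 0 := by
      intro j
      induction j with
      | zero =>
        intro hj
        have := h3 0 hj
        rw [sub_mul, map_sub, coeff_zero_X_mul, coeff_C_mul, zero_sub, neg_eq_zero] at this
        exact (mul_eq_zero.mp this).resolve_left ha0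
      | succ j ih =>
        intro hj
        have := h3 (j + 1) hj
        rw [sub_mul, map_sub, coeff_succ_X_mul, coeff_C_mul, ih (by omega), zero_sub,
          neg_eq_zero] at this
        exact (mul_eq_zero.mp this).resolve_left ha0
    intro hk
    have := h4 k hk
    rw [map_sub, sub_eq_zero] at this
    exact this
  refine ⟨PowerSeries.mk fun k => coeff k (c (k + 1)), ?_⟩
  ext k
  have h5 := congrArg (coeff k) (hcb (k + 1))
  rw [map_add, coeff_X_pow_mul', if_neg (by omega), add_zero] at h5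
  rw [h5]
  cases k with
  | zero =>
    rw [sub_mul, sub_mul, map_sub, map_sub, coeff_zero_X_mul, coeff_zero_X_mul, coeff_C_mul,
      coeff_C_mul, coeff_mk]
  | succ k =>
    rw [sub_mul, sub_mul, map_sub, map_sub, coeff_succ_X_mul, coeff_succ_X_mul, coeff_C_mul,
      coeff_C_mul, coeff_mk, coeff_mk, ← h1 (k + 1) (k + 1 + 1) (by omega) k (by omega)]

theorem star_dom {R : Type*} [CommRing R] [IsDomain R] {ι : Type*} [Fintype ι] (S : StarData R ι)
    (a ϖ a' a'' : R) (e : ℕ) (hDa : ∀ i, S.D i a = 0) (hPa : ∀ i, S.P i a = 0)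
    (hDϖ : ∀ i, S.D i ϖ = 0) (hPϖ : ∀ i, S.P i ϖ = 0) (ha0 : a ≠ 0) (ha : a = ϖ * a')
    (he : ϖ ^ e = a * a'') (hprime : (Ideal.span {ϖ}).IsPrime) {Λ : Type*} [Ring Λ]
    (Q : StarQuot S a Λ) :
    (∀ y : Λ, Q.q (C ϖ) * y = y * Q.q (C ϖ)) ∧ (∀ y : Λ, Q.q (C ϖ) * y = 0 → y = 0) ∧
    (∀ x : Λ, (∀ n : ℕ, ∃ y, x = Q.q (C ϖ) ^ n * y) → x = 0) ∧
    NoZeroDivisors Λ ∧ Nontrivial Λ ∧
    ∃ π : Λ →+* R ⧸ Ideal.span {ϖ}, (∀ f, π (Q.q f) = Ideal.Quotient.mk _ (coeff 0 f)) ∧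
      ∀ x : Λ, π x = 0 ↔ ∃ y, x = Q.q (C ϖ) * y := by
  have hϖ0 : ϖ ≠ 0 := by
    rintro rfl
    exact ha0 (by rw [ha, zero_mul])
  have hcomm : ∀ y : Λ, Q.q (C ϖ) * y = y * Q.q (C ϖ) := by
    intro y
    obtain ⟨f, rfl⟩ := Q.surj y
    rw [StDom_qC S a Q ϖ hDϖ, StDom_Cq S a Q ϖ hPϖ]
  have hreg : ∀ y : Λ, Q.q (C ϖ) * y = 0 → y = 0 := by
    intro y hy
    obtain ⟨f, rfl⟩ := Q.surj y
    rw [StDom_qC S a Q ϖ hDϖ, Q.ker] at hy
    obtain ⟨g, hg⟩ := hy
    have hXg : X * g = C ϖ * (f + C a' * g) := by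
      have : C a = C ϖ * C a' := by rw [← map_mul, ← ha]
      rw [this] at hg
      linear_combination -hg
    have hg' : g = C ϖ * PowerSeries.mk fun k => coeff (k + 1) (f + C a' * g) := by
      ext k
      rw [← coeff_succ_X_mul k g, hXg, coeff_C_mul, coeff_C_mul, coeff_mk]
    rw [Q.ker]
    refine ⟨PowerSeries.mk fun k => coeff (k + 1) (f + C a' * g), ?_⟩
    generalize (PowerSeries.mk fun k => coeff (k + 1) (f + C a' * g)) = g₁ at hg' ⊢
    have hC : (C ϖ : R⟦X⟧) ≠ 0 := by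
      intro h0
      exact hϖ0 (by simpa using congrArg (coeff 0) h0)
    apply mul_left_cancel₀ hC
    rw [hg, hg']
    ring
  have hsep : ∀ x : Λ, (∀ n : ℕ, ∃ y, x = Q.q (C ϖ) ^ n * y) → x = 0 := by
    intro x hx
    obtain ⟨f, rfl⟩ := Q.surj x
    rw [Q.ker]
    refine StDom_sep a ha0 f fun n => ?_
    obtain ⟨y, hy⟩ := hx (e * n)
    obtain ⟨g, rfl⟩ := Q.surj y
    have hC : (C (ϖ ^ (e * n)) : R⟦X⟧) * g = C (a ^ n) * (C (a'' ^ n) * g) := by
      rw [← mul_assoc, ← map_mul, pow_mul, he, mul_pow]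
    rw [StDom_qCn S a Q ϖ hDϖ, hC, ← StDom_qXn S a Q, ← sub_eq_zero, ← map_sub, Q.ker] at hy
    obtain ⟨c, hc⟩ := hy
    exact ⟨c, C (a'' ^ n) * g, by linear_combination hc⟩
  obtain ⟨π, hπ⟩ := StDom_pi S a ϖ a' ha Q
  have hker : ∀ x : Λ, π x = 0 ↔ ∃ y, x = Q.q (C ϖ) * y := by
    intro x
    constructor
    · intro hx
      obtain ⟨f, rfl⟩ := Q.surj x
      rw [hπ, Ideal.Quotient.eq_zero_iff_mem, Ideal.mem_span_singleton] at hx
      obtain ⟨b, hb⟩ := hx
      have hX : (X : R⟦X⟧) ∣ f - C (coeff 0 f) := by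
        rw [X_dvd_iff, map_sub]
        simp
      obtain ⟨f₁, hf₁⟩ := hX
      have hf : f = C (ϖ * b) + X * f₁ := by
        rw [← hb, ← hf₁]
        ring
      refine ⟨Q.q (C b + C a' * f₁), ?_⟩
      rw [StDom_qC S a Q ϖ hDϖ, mul_add, map_add, ← map_mul, ← mul_assoc, ← map_mul, ← ha,
        ← StDom_qX S a Q, ← map_add, ← hf]
    · rintro ⟨y, rfl⟩
      rw [map_mul, hπ]
      have : coeff 0 (C ϖ : R⟦X⟧) = ϖ := by simp
      rw [this, Ideal.Quotient.eq_zero_iff_mem.mpr (Ideal.mem_span_singleton_self ϖ), zero_mul]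
  have hdom : IsDomain (R ⧸ Ideal.span {ϖ}) := Ideal.Quotient.isDomain _
  have hcpow : ∀ (n : ℕ) (y : Λ), Q.q (C ϖ) ^ n * y = y * Q.q (C ϖ) ^ n := by
    intro n y
    exact ((show Commute (Q.q (C ϖ)) y from hcomm y).pow_left n).eq
  have hregn : ∀ (n : ℕ) (y : Λ), Q.q (C ϖ) ^ n * y = 0 → y = 0 := by
    intro n
    induction n with
    | zero => intro y hy; simpa using hy
    | succ n ih =>
      intro y hy
      rw [pow_succ, mul_assoc] at hy
      exact hreg y (ih _ hy)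
  have hmax : ∀ u : Λ, u ≠ 0 → ∃ (n : ℕ) (u' : Λ), u = Q.q (C ϖ) ^ n * u' ∧ π u' ≠ 0 := by
    intro u hu
    by_contra hcon
    push Not at hcon
    apply hu
    apply hsep
    intro n
    induction n with
    | zero => exact ⟨u, by rw [pow_zero, one_mul]⟩
    | succ n ih =>
      obtain ⟨y, hy⟩ := ih
      obtain ⟨z, hz⟩ := (hker y).mp (hcon n y hy)
      exact ⟨z, by rw [hy, hz, pow_succ, mul_assoc]⟩
  refine ⟨hcomm, hreg, hsep, ⟨?_⟩, ⟨⟨0, 1, ?_⟩⟩, π, hπ, hker⟩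
  · intro u v huv
    by_contra hcon
    push Not at hcon
    obtain ⟨n, u', hu, hu'⟩ := hmax u hcon.1
    obtain ⟨m, v', hv, hv'⟩ := hmax v hcon.2
    have h0 : u' * v' = 0 := by
      apply hregn n
      apply hregn m
      have h2 : u' * Q.q (C ϖ) ^ m = Q.q (C ϖ) ^ m * u' := (hcpow m u').symm
      have h3 : Q.q (C ϖ) ^ n * Q.q (C ϖ) ^ m = Q.q (C ϖ) ^ m * Q.q (C ϖ) ^ n := by
        rw [← pow_add, ← pow_add, add_comm]
      calc Q.q (C ϖ) ^ m * (Q.q (C ϖ) ^ n * (u' * v'))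
          = (Q.q (C ϖ) ^ m * Q.q (C ϖ) ^ n) * u' * v' := by simp only [mul_assoc]
        _ = Q.q (C ϖ) ^ n * (Q.q (C ϖ) ^ m * u') * v' := by rw [← h3]; simp only [mul_assoc]
        _ = (Q.q (C ϖ) ^ n * u') * (Q.q (C ϖ) ^ m * v') := by rw [← h2]; simp only [mul_assoc]
        _ = 0 := by rw [← hu, ← hv, huv]
    have h1 : π u' * π v' = 0 := by rw [← map_mul, h0, map_zero]
    exact (mul_eq_zero.mp h1).elim hu' hv'
  · intro h01
    have : π 0 = π 1 := by rw [h01]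
    rw [map_zero, map_one] at this
    exact zero_ne_one this

end PDT
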