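import Pool.Agent.Lib.PDT.StBase

/-!
# PDT/StExp: exponentials in the star product ring

`Ex c φ = Σ_k c_k X^k φ^k` (think of `c_k = p^k / k!`, `Ex c φ = exp(p X φ)`).

Complete proof.
* `coeff_Ex_of_le`: the coefficient of `X^n` in `Ex c φ` is that of `exn c m φ` for every `m ≥ n`.
* `Ex_zero`: clear (`c 0 = 1`).
* `Ex_add`: modulo `X^(n+1)`, `exn n φ · exn n ψ = Σ_{k,l ≤ n} c_k c_l X^(k+l) φ^k ψ^l`, and the terms with
`k + l ≤ n` are `Σ_{s ≤ n} X^s Σ_{k+l=s} c_k c_l φ^k ψ^l = Σ_s X^s c_s Σ binom(s,k) φ^k ψ^l =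
Σ_s c_s X^s (φ+ψ)^s` (`cc`, `add_pow`).
* `cw_Ex`: `k c_k = c_1 c_{k-1}` (`cc` for `(1, k-1)`); `D(φ^k) = k φ^(k-1) D φ` (from Leibniz;
`D` is `cw D`); so `D(c_k X^k φ^k) = c_1 X · Dφ · c_{k-1} X^(k-1) φ^(k-1)`; sum over `k`
(compare coefficients of `X^n`).
* `star_Ex`.  Write `y = C (c 1) * X`, `u_i = D_i φ`, `v_i = P_i ψ`, `χ = Σ_i u_i v_i`.  CLAIM: for all `k`
and all `A, B` with `D_i A = 0`, `P_i B = 0` for all `i`:
`br k (A · Ex φ) (B · Ex ψ) = A B (y² χ)^k Ex φ Ex ψ`.  `k = 0` clear.  `k + 1`: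
`Σ_i br k (D_i (A Ex φ)) (P_i (B Ex ψ)) = Σ_i br k (A y u_i Ex φ) (B y v_i Ex ψ)` by `cw_mul`, `cw_Ex`;
`A y u_i` is killed by all `D_j` (`hφ`; `y` is killed), `B y v_i` by all `P_j`; so by induction it is
`Σ_i A B y² u_i v_i (y² χ)^k Ex φ Ex ψ`.  Then `stn n (Ex φ) (Ex ψ) = exn n (y² χ) · Ex φ · Ex ψ`, whose
coefficient of `X^n` is that of `Ex (y² χ) Ex φ Ex ψ = Ex (φ + ψ + y² χ)` (`Ex_add`).
* `Ex_congr`: `φ^k - ψ^k = (φ - ψ) g_k = (X - C a) h g_k` (`sub_dvd_pow_sub_pow`), so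
`Ex φ - Ex ψ = (X - C a) · Σ_k c_k X^k h g_k`, where the last series converges
(`mk fun n => coeff n (Σ_{k ≤ n} …)`).
-/

namespace PDT

open PowerSeries

variable {R : Type*} [CommRing R]

/-- The truncated exponential. -/
noncomputable def exn (c : ℕ → R) (n : ℕ) (φ : R⟦X⟧) : R⟦X⟧ :=
  ∑ k ∈ Finset.range (n + 1), X ^ k * (C (c k) * φ ^ k)

/-- The exponential `Σ_k c_k X^k φ^k`. -/
noncomputable def Ex (c : ℕ → R) (φ : R⟦X⟧) : R⟦X⟧ := PowerSeries.mk fun n => coeff n (exn c n φ)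

private noncomputable def StExpSer (a : ℕ → R⟦X⟧) : R⟦X⟧ :=
  PowerSeries.mk fun n => coeff n (∑ k ∈ Finset.range (n + 1), X ^ k * a k)

private theorem StExp_ser (a : ℕ → R⟦X⟧) {n m : ℕ} (h : n ≤ m) :
    coeff n (StExpSer a) = coeff n (∑ k ∈ Finset.range (m + 1), X ^ k * a k) := by
  rw [StExpSer, coeff_mk, map_sum, map_sum]
  apply Finset.sum_subset
  · intro k hk
    rw [Finset.mem_range] at hk ⊢
    omega
  · intro k _ hk
    rw [Finset.mem_range, not_lt] at hk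
    rw [coeff_X_pow_mul', if_neg (by omega)]

private theorem StExp_congr (G F F' : R⟦X⟧) (n : ℕ) (h : ∀ m ≤ n, coeff m F = coeff m F') :
    coeff n (G * F) = coeff n (G * F') := by
  rw [coeff_mul, coeff_mul]
  refine Finset.sum_congr rfl fun p hp => ?_
  rw [Finset.HasAntidiagonal.mem_antidiagonal] at hp
  rw [h p.2 (by omega)]

private theorem StExp_mulser (G : R⟦X⟧) (a : ℕ → R⟦X⟧) (n : ℕ) :
    coeff n (G * StExpSer a) = coeff n (G * ∑ k ∈ Finset.range (n + 1), X ^ k * a k) :=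
  StExp_congr _ _ _ _ fun _ hm => StExp_ser a hm

private theorem StExp_Ex (c : ℕ → R) (φ : R⟦X⟧) :
    Ex c φ = StExpSer (fun k => C (c k) * φ ^ k) := rfl

theorem coeff_Ex_of_le (c : ℕ → R) (φ : R⟦X⟧) {n m : ℕ} (h : n ≤ m) :
    coeff n (Ex c φ) = coeff n (exn c m φ) := by
  rw [StExp_Ex, StExp_ser _ h]
  rfl

theorem Ex_zero (c : ℕ → R) (c0 : c 0 = 1) : Ex c (0 : R⟦X⟧) = 1 := by
  ext n
  rw [StExp_Ex, StExp_ser _ (le_refl n), Finset.sum_range_succ', Finset.sum_eq_zero]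
  · simp [c0]
  · intro k _
    simp

private theorem StExp_cauchy (n : ℕ) (f : ℕ → ℕ → R) (hf : ∀ k l, n < k + l → f k l = 0) :
    ∑ k ∈ Finset.range (n + 1), ∑ l ∈ Finset.range (n + 1), f k l =
      ∑ s ∈ Finset.range (n + 1), ∑ p ∈ Finset.HasAntidiagonal.antidiagonal s, f p.1 p.2 := by
  rw [← Finset.sum_product']
  have h1 : ∑ x ∈ Finset.range (n + 1) ×ˢ Finset.range (n + 1), f x.1 x.2 =
      ∑ x ∈ (Finset.range (n + 1) ×ˢ Finset.range (n + 1)).filter (fun x => x.1 + x.2 ≤ n),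
        f x.1 x.2 := by
    rw [Finset.sum_filter]
    refine Finset.sum_congr rfl fun x _ => ?_
    by_cases hx : x.1 + x.2 ≤ n
    · rw [if_pos hx]
    · rw [if_neg hx, hf _ _ (by omega)]
  rw [h1, ← Finset.sum_fiberwise_of_maps_to (t := Finset.range (n + 1)) (g := fun x => x.1 + x.2)]
  · refine Finset.sum_congr rfl fun s hs => ?_
    refine Finset.sum_congr ?_ fun _ _ => rfl
    ext x
    simp only [Finset.mem_filter, Finset.mem_product, Finset.mem_range,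
      Finset.HasAntidiagonal.mem_antidiagonal] at hs ⊢
    omega
  · intro x hx
    simp only [Finset.mem_filter, Finset.mem_product, Finset.mem_range] at hx ⊢
    omega

theorem Ex_add (c : ℕ → R) (cc : ∀ k l, ((k + l).choose k : R) * c (k + l) = c k * c l)
    (φ ψ : R⟦X⟧) : Ex c (φ + ψ) = Ex c φ * Ex c ψ := by
  ext n
  have h1 : coeff n (Ex c φ * Ex c ψ) = coeff n (exn c n φ * exn c n ψ) := by
    rw [StExp_Ex c ψ, StExp_mulser, mul_comm, StExp_Ex c φ, StExp_mulser, mul_comm]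
    rfl
  rw [h1, coeff_Ex_of_le c _ (le_refl n), exn, exn, exn, Finset.sum_mul_sum, map_sum, map_sum]
  simp only [map_sum]
  rw [StExp_cauchy]
  · refine Finset.sum_congr rfl fun s _ => ?_
    rw [(Commute.all φ ψ).add_pow' s, Finset.mul_sum, Finset.mul_sum, map_sum]
    refine Finset.sum_congr rfl fun p hp => ?_
    rw [Finset.HasAntidiagonal.mem_antidiagonal] at hp
    congr 1
    have h2 := cc p.1 p.2
    rw [hp] at h2
    have h3 : (C (c s) : R⟦X⟧) * ((s.choose p.1 : ℕ) : R⟦X⟧) = C (c p.1) * C (c p.2) := by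
      rw [← map_mul, ← h2, map_mul, map_natCast, mul_comm]
    have h4 : (X : R⟦X⟧) ^ s = X ^ p.1 * X ^ p.2 := by rw [← pow_add, hp]
    rw [nsmul_eq_mul, h4]
    linear_combination (X ^ p.1 * X ^ p.2 * (φ ^ p.1 * ψ ^ p.2) : R⟦X⟧) * h3
  · intro k l hkl
    have : (X : R⟦X⟧) ^ k * (C (c k) * φ ^ k) * (X ^ l * (C (c l) * ψ ^ l)) =
        X ^ (k + l) * (C (c k) * φ ^ k * (C (c l) * ψ ^ l)) := by
      rw [pow_add]; ring
    rw [this, coeff_X_pow_mul', if_neg (by omega)]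

private theorem StExp_cwpow (D : R →+ R) (hD : ∀ x y, D (x * y) = D x * y + x * D y)
    (φ : R⟦X⟧) (k : ℕ) : cw D (φ ^ (k + 1)) = ((k + 1 : ℕ) : R⟦X⟧) * φ ^ k * cw D φ := by
  induction k with
  | zero => simp
  | succ k ih =>
    rw [pow_succ, cw_mul D hD, ih]
    push_cast
    ring

private theorem StExp_D1 (D : R →+ R) (hD : ∀ x y, D (x * y) = D x * y + x * D y) : D 1 = 0 := by
  have := hD 1 1
  simp only [mul_one, one_mul] at this
  have h2 : D 1 + 0 = D 1 + D 1 := by rw [add_zero]; exact this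
  exact (add_left_cancel h2).symm

theorem cw_Ex (c : ℕ → R) (cc : ∀ k l, ((k + l).choose k : R) * c (k + l) = c k * c l)
    (D : R →+ R) (hD : ∀ x y, D (x * y) = D x * y + x * D y) (Dc : ∀ k, D (c k) = 0) (φ : R⟦X⟧) :
    cw D (Ex c φ) = C (c 1) * X * cw D φ * Ex c φ := by
  ext n
  have hc : ∀ k, ((k + 1 : ℕ) : R) * c (k + 1) = c 1 * c k := by
    intro k
    have := cc 1 k
    rw [Nat.choose_one_right, add_comm 1 k] at this
    exact this
  have hc' : ∀ k, (C (c (k + 1)) : R⟦X⟧) * ((k + 1 : ℕ) : R⟦X⟧) = C (c 1) * C (c k) := by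
    intro k
    rw [← map_mul, ← hc, map_mul, map_natCast, mul_comm]
  have h0 : cw D (C (c 0) * φ ^ 0) = 0 := by
    rw [cw_C_mul D hD _ (Dc 0), pow_zero]
    have : cw D (1 : R⟦X⟧) = 0 := by
      ext m
      rw [coeff_cw, coeff_one]
      split_ifs
      · simp [StExp_D1 D hD]
      · simp
    rw [this, mul_zero]
  have h1 : coeff n (cw D (Ex c φ)) = coeff n (cw D (exn c n φ)) := by
    rw [coeff_cw, coeff_cw, coeff_Ex_of_le c φ (le_refl n)]
  have h2 : cw D (exn c n φ) = ∑ k ∈ Finset.range n,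
      X ^ (k + 1) * (C (c 1) * (C (c k) * φ ^ k) * cw D φ) := by
    rw [exn, map_sum, Finset.sum_range_succ']
    rw [pow_zero, one_mul, h0, add_zero]
    refine Finset.sum_congr rfl fun k _ => ?_
    rw [cw_X_pow_mul, cw_C_mul D hD _ (Dc _), StExp_cwpow D hD]
    linear_combination (X ^ (k + 1) * φ ^ k * cw D φ : R⟦X⟧) * hc' k
  rw [h1, h2]
  cases n with
  | zero => simp
  | succ n =>
    have h3 : C (c 1) * X * cw D φ * Ex c φ = X * ((C (c 1) * cw D φ) * Ex c φ) := by ring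
    rw [h3, coeff_succ_X_mul, StExp_Ex, StExp_mulser]
    have h4 : ∑ k ∈ Finset.range (n + 1), (X : R⟦X⟧) ^ (k + 1) *
        (C (c 1) * (C (c k) * φ ^ k) * cw D φ) = X * (C (c 1) * cw D φ *
          ∑ k ∈ Finset.range (n + 1), X ^ k * (C (c k) * φ ^ k)) := by
      rw [Finset.mul_sum, Finset.mul_sum]
      refine Finset.sum_congr rfl fun k _ => ?_
      ring
    rw [h4, coeff_succ_X_mul]

private theorem StExp_br {ι : Type*} [Fintype ι] (S : StarData R ι) (φ ψ : R⟦X⟧)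
    (hφ : ∀ i j, cw (S.D j) (cw (S.D i) φ) = 0) (hψ : ∀ i j, cw (S.P j) (cw (S.P i) ψ) = 0)
    (k : ℕ) : ∀ A B : R⟦X⟧, (∀ i, cw (S.D i) A = 0) → (∀ i, cw (S.P i) B = 0) →
    br S k (A * Ex S.c φ) (B * Ex S.c ψ) = A * B *
      ((C (S.c 1) * X) ^ 2 * ∑ i, cw (S.D i) φ * cw (S.P i) ψ) ^ k *
        (Ex S.c φ * Ex S.c ψ) := by
  induction k with
  | zero =>
    intro A B _ _
    rw [br_zero]; ring
  | succ k ih =>
    intro A B hA hB
    rw [br_succ]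
    have h1 : ∀ i, br S k (cw (S.D i) (A * Ex S.c φ)) (cw (S.P i) (B * Ex S.c ψ)) =
        A * B * ((C (S.c 1) * X) ^ 2 * (cw (S.D i) φ * cw (S.P i) ψ)) *
          ((C (S.c 1) * X) ^ 2 * ∑ i, cw (S.D i) φ * cw (S.P i) ψ) ^ k *
        (Ex S.c φ * Ex S.c ψ) := by
      intro i
      have e1 : cw (S.D i) (A * Ex S.c φ) = (A * (C (S.c 1) * (X * cw (S.D i) φ))) * Ex S.c φ := by
        rw [cw_mul _ (S.D_mul i), hA, cw_Ex S.c S.cc _ (S.D_mul i) (S.Dc i)]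
        ring
      have e2 : cw (S.P i) (B * Ex S.c ψ) = (B * (C (S.c 1) * (X * cw (S.P i) ψ))) * Ex S.c ψ := by
        rw [cw_mul _ (S.P_mul i), hB, cw_Ex S.c S.cc _ (S.P_mul i) (S.Pc i)]
        ring
      rw [e1, e2, ih]
      · ring
      · intro j
        rw [cw_mul _ (S.D_mul j), hA, cw_C_mul _ (S.D_mul j) _ (S.Dc j 1), cw_X_mul, hφ]
        ring
      · intro j
        rw [cw_mul _ (S.P_mul j), hB, cw_C_mul _ (S.P_mul j) _ (S.Pc j 1), cw_X_mul, hψ]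
        ring
    rw [Finset.sum_congr rfl fun i _ => h1 i, ← Finset.sum_mul, ← Finset.sum_mul, ← Finset.mul_sum,
      ← Finset.mul_sum]
    rw [pow_succ]
    ring

theorem star_Ex {ι : Type*} [Fintype ι] (S : StarData R ι) (φ ψ : R⟦X⟧)
    (hφ : ∀ i j, cw (S.D j) (cw (S.D i) φ) = 0) (hψ : ∀ i j, cw (S.P j) (cw (S.P i) ψ) = 0) :
    star' S (Ex S.c φ) (Ex S.c ψ) =
      Ex S.c (φ + ψ + (C (S.c 1) * X) ^ 2 * ∑ i, cw (S.D i) φ * cw (S.P i) ψ) := by
  have hD1 : ∀ i, cw (S.D i) (1 : R⟦X⟧) = 0 := by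
    intro i
    ext m
    rw [coeff_cw, coeff_one]
    split_ifs
    · simp [StExp_D1 (S.D i) (S.D_mul i)]
    · simp
  have hP1 : ∀ i, cw (S.P i) (1 : R⟦X⟧) = 0 := by
    intro i
    ext m
    rw [coeff_cw, coeff_one]
    split_ifs
    · simp [StExp_D1 (S.P i) (S.P_mul i)]
    · simp
  ext n
  rw [coeff_star', Ex_add S.c S.cc, Ex_add S.c S.cc, StExp_Ex S.c (_ ^ 2 * _), StExp_mulser, stn]
  congr 1
  rw [Finset.mul_sum]
  refine Finset.sum_congr rfl fun k _ => ?_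
  have := StExp_br S φ ψ hφ hψ k 1 1 hD1 hP1
  rw [one_mul, one_mul] at this
  rw [this]
  ring

theorem Ex_congr (c : ℕ → R) (a : R) (φ ψ h : R⟦X⟧) (hh : φ - ψ = (X - C a) * h) :
    ∃ g, Ex c φ - Ex c ψ = (X - C a) * g := by
  have h1 : ∀ k, ∃ g : R⟦X⟧, φ ^ k - ψ ^ k = (φ - ψ) * g := fun k => sub_dvd_pow_sub_pow φ ψ k
  choose g hg using h1
  refine ⟨StExpSer (fun k => C (c k) * (h * g k)), ?_⟩
  ext n
  rw [StExp_mulser, map_sub, coeff_Ex_of_le c φ (le_refl n), coeff_Ex_of_le c ψ (le_refl n),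
    ← map_sub]
  congr 1
  rw [exn, exn, ← Finset.sum_sub_distrib, Finset.mul_sum]
  refine Finset.sum_congr rfl fun k _ => ?_
  have := hg k
  rw [hh] at this
  linear_combination (X ^ k * C (c k) : R⟦X⟧) * this

end PDT
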