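import Pool.Agent.Lib.PDT.StBase
import Pool.Agent.Lib.PDT.StExp

/-!
# PDT/StInd: exponentials are linearly independent modulo `X - a`

`R` a domain of characteristic zero with derivations `D i`, constants `c k`, a constant `a ≠ 0` with
`∩ a^n R = 0`, `φ_j ∈ R` with `D_k D_i φ_j = 0`, distinct `j` having distinct gradients `(D_i φ_j)_i`.
Everything is in the commutative ring `R⟦X⟧`.

Complete proof.  Write `E_j = Ex c (C (φ j))`, `u_{ij} = D_i φ_j`, and `f ≡ g` if `f - g` is a multiple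
of `X - C a`.  CLAIM: for every finite `s` and all `λ : J → R` with `D_i (λ j) = 0` for all `i, j`: if
`Σ_{j ∈ s} C(λ_j) E_j ≡ 0` then `λ_j = 0` for `j ∈ s`.  Induction on `s`; let `m ∈ s`,
`s = insert m s'`.  Apply `cw (D i)`: it maps multiples of `X - C a` to multiples (`cw_mul`,
`cw D (X - C a) = 0`), and `cw D (C λ_j E_j) = C λ_j C(c 1) X C(u_{ij}) E_j` (`cw_Ex`).  As `X g ≡ C a g`,
`Σ_{j ∈ s} C(λ_j c_1 a u_{ij}) E_j ≡ 0`.  Subtract `C(c_1 a u_{im})` times the relation:
`Σ_{j ∈ s'} C(λ_j c_1 a (u_{ij} - u_{im})) E_j ≡ 0`.  The new coefficients are killed by all `D_k`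
(`D_k u_{ij} = 0`), so by induction `λ_j c_1 a (u_{ij} - u_{im}) = 0` for all `i` and `j ∈ s'`; choose
`i` with `u_{ij} ≠ u_{im}` (`hinj`): `λ_j = 0` for `j ∈ s'`.  So `C(λ_m) E_m ≡ 0`; multiply by
`Ex c (- C φ_m)` (`Ex_add`, `Ex_zero`): `C(λ_m) = (X - C a) g`.  Coefficients:
`λ_m = - a g_0`, `0 = g_{k} - a g_{k+1}`; so `g_0 = a^n g_n` for all `n` and `λ_m ∈ ∩ a^n R = 0`.
Now take `λ_j = (n j : R)` (killed by `D_i`: `D 1 = 0`).
-/

namespace PDT

open PowerSeries

private theorem StInd_sep {R : Type*} [CommRing R] (a : R)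
    (hsep : ∀ r : R, (∀ n : ℕ, a ^ n ∣ r) → r = 0) (r : R)
    (h : (X - C a : R⟦X⟧) ∣ C r) : r = 0 := by
  obtain ⟨g, hg⟩ := h
  have h0 : r = -(a * coeff 0 g) := by
    have := congrArg (coeff 0) hg
    rw [sub_mul, map_sub, coeff_zero_C, coeff_C_mul, coeff_zero_X_mul, zero_sub] at this
    exact this
  have h1 : ∀ k, coeff k g = a * coeff (k + 1) g := by
    intro k
    have := congrArg (coeff (k + 1)) hg
    rw [sub_mul, map_sub, coeff_C_mul, coeff_succ_X_mul, coeff_C, if_neg (Nat.succ_ne_zero k)]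
      at this
    exact (sub_eq_zero.1 this.symm)
  have h2 : ∀ n, coeff 0 g = a ^ n * coeff n g := by
    intro n
    induction n with
    | zero => rw [pow_zero, one_mul]
    | succ n ih => rw [ih, h1 n, pow_succ, mul_assoc]
  refine hsep r fun n => ?_
  rw [h0, h2 n]
  exact ⟨-(a * coeff n g), by ring⟩

private theorem StInd_one {R : Type*} [CommRing R] (D : R →+ R)
    (hD : ∀ x y, D (x * y) = D x * y + x * D y) : D 1 = 0 := by
  have h := hD 1 1
  rw [mul_one, mul_one, one_mul] at h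
  exact left_eq_add.1 h

private theorem StInd_cwC {R : Type*} [CommRing R] (D : R →+ R) (a : R) :
    cw D (C a) = C (D a) := by
  ext n
  rw [coeff_cw, coeff_C, coeff_C]
  split_ifs <;> simp

private theorem StInd_cwX {R : Type*} [CommRing R] (D : R →+ R) (h1 : D 1 = 0) :
    cw D X = 0 := by
  ext n
  rw [coeff_cw, coeff_X]
  split_ifs <;> simp [h1]

private theorem StInd_main {R : Type*} [CommRing R] [IsDomain R] {ι : Type*}
    (D : ι → R →+ R) (hD : ∀ i x y, D i (x * y) = D i x * y + x * D i y) (c : ℕ → R)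
    (c0 : c 0 = 1) (cc : ∀ k l, ((k + l).choose k : R) * c (k + l) = c k * c l)
    (Dc : ∀ i k, D i (c k) = 0) (hc1 : c 1 ≠ 0) (a : R) (ha : a ≠ 0) (hDa : ∀ i, D i a = 0)
    (hsep : ∀ r : R, (∀ n : ℕ, a ^ n ∣ r) → r = 0) {J : Type*} (φ : J → R)
    (hφ : ∀ j i k, D k (D i (φ j)) = 0)
    (hinj : ∀ j j', (∀ i, D i (φ j) = D i (φ j')) → j = j') (s : Finset J) :
    ∀ lam : J → R, (∀ i j, D i (lam j) = 0) →
      (X - C a : R⟦X⟧) ∣ ∑ j ∈ s, C (lam j) * Ex c (C (φ j)) → ∀ j ∈ s, lam j = 0 := by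
  classical
  induction s using Finset.induction_on with
  | empty =>
    intro lam _ _ j hj
    exact absurd hj (Finset.notMem_empty j)
  | insert m s hm ih =>
    intro lam hlam hrel
    have hs : ∀ j ∈ s, lam j = 0 := by
      intro j hj
      have hjm : j ≠ m := fun h => hm (h ▸ hj)
      by_contra hne
      apply hjm
      apply hinj
      intro i
      -- derivative of the relation
      have h1 : (X - C a : R⟦X⟧) ∣
          cw (D i) (∑ j ∈ insert m s, C (lam j) * Ex c (C (φ j))) := by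
        obtain ⟨g, hg⟩ := hrel
        rw [hg, cw_mul _ (hD i), map_sub, StInd_cwX _ (StInd_one _ (hD i)), StInd_cwC, hDa,
          map_zero, sub_zero, zero_mul, zero_add]
        exact dvd_mul_right _ _
      have h2 : cw (D i) (∑ j ∈ insert m s, C (lam j) * Ex c (C (φ j))) =
          ∑ j ∈ insert m s, C (lam j) * (C (c 1) * X * C (D i (φ j)) * Ex c (C (φ j))) := by
        rw [map_sum]
        refine Finset.sum_congr rfl fun k _ => ?_
        rw [cw_C_mul _ (hD i) _ (hlam i k), cw_Ex c cc _ (hD i) (Dc i), StInd_cwC]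
      rw [h2] at h1
      have h3 : (X - C a : R⟦X⟧) ∣
          ∑ j ∈ insert m s, C (lam j * c 1 * a * D i (φ j)) * Ex c (C (φ j)) := by
        have h4 : ∑ j ∈ insert m s, C (lam j) * (C (c 1) * X * C (D i (φ j)) * Ex c (C (φ j))) -
            ∑ j ∈ insert m s, C (lam j * c 1 * a * D i (φ j)) * Ex c (C (φ j)) =
            (X - C a : R⟦X⟧) * ∑ j ∈ insert m s,
              C (lam j) * (C (c 1) * C (D i (φ j)) * Ex c (C (φ j))) := by
          rw [Finset.mul_sum, ← Finset.sum_sub_distrib]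
          refine Finset.sum_congr rfl fun k _ => ?_
          rw [map_mul, map_mul, map_mul]
          ring
        have h5 : (X - C a : R⟦X⟧) ∣
            ∑ j ∈ insert m s, C (lam j) * (C (c 1) * X * C (D i (φ j)) * Ex c (C (φ j))) -
            ∑ j ∈ insert m s, C (lam j * c 1 * a * D i (φ j)) * Ex c (C (φ j)) :=
          h4 ▸ dvd_mul_right _ _
        exact (dvd_sub_right h1).1 h5
      have h6 : (X - C a : R⟦X⟧) ∣
          ∑ j ∈ s, C (lam j * c 1 * a * (D i (φ j) - D i (φ m))) * Ex c (C (φ j)) := by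
        have h7 : ∑ j ∈ s, C (lam j * c 1 * a * (D i (φ j) - D i (φ m))) * Ex c (C (φ j)) =
            ∑ j ∈ insert m s, C (lam j * c 1 * a * D i (φ j)) * Ex c (C (φ j)) -
            (∑ j ∈ insert m s, C (lam j) * Ex c (C (φ j))) * C (c 1 * a * D i (φ m)) := by
          rw [Finset.sum_mul, ← Finset.sum_sub_distrib, Finset.sum_insert hm]
          have h8 : C (lam m * c 1 * a * D i (φ m)) * Ex c (C (φ m)) -
              C (lam m) * Ex c (C (φ m)) * C (c 1 * a * D i (φ m)) = 0 := by
            simp only [map_mul]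
            ring
          rw [h8, zero_add]
          refine Finset.sum_congr rfl fun k _ => ?_
          simp only [map_mul, map_sub]
          ring
        rw [h7]
        exact dvd_sub h3 (Dvd.dvd.mul_right hrel _)
      have h9 := ih (fun j => lam j * c 1 * a * (D i (φ j) - D i (φ m))) (by
        intro k j
        rw [hD, map_sub, hφ, hφ, sub_zero, mul_zero, add_zero, hD, hDa, mul_zero, add_zero, hD,
          Dc, mul_zero, add_zero, hlam, zero_mul, zero_mul, zero_mul]) h6 j hj
      have h10 : D i (φ j) - D i (φ m) = 0 := by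
        rcases mul_eq_zero.1 h9 with h | h
        · rcases mul_eq_zero.1 h with h | h
          · rcases mul_eq_zero.1 h with h | h
            · exact absurd h hne
            · exact absurd h hc1
          · exact absurd h ha
        · exact h
      exact sub_eq_zero.1 h10
    have hmz : lam m = 0 := by
      have h1 : ∑ j ∈ insert m s, C (lam j) * Ex c (C (φ j)) = C (lam m) * Ex c (C (φ m)) := by
        rw [Finset.sum_insert hm, Finset.sum_eq_zero, add_zero]
        intro j hj
        rw [hs j hj, map_zero, zero_mul]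
      rw [h1] at hrel
      have h2 : Ex c (C (φ m)) * Ex c (-C (φ m)) = 1 := by
        rw [← Ex_add c cc, add_neg_cancel, Ex_zero c c0]
      have h3 : (X - C a : R⟦X⟧) ∣ C (lam m) := by
        have := Dvd.dvd.mul_right hrel (Ex c (-C (φ m)))
        rw [mul_assoc, h2, mul_one] at this
        exact this
      exact StInd_sep a hsep _ h3
    intro j hj
    rcases Finset.mem_insert.1 hj with h | h
    · rw [h]
      exact hmz
    · exact hs j h

theorem exp_indep {R : Type*} [CommRing R] [IsDomain R] [CharZero R] {ι : Type*}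
    (D : ι → R →+ R) (hD : ∀ i x y, D i (x * y) = D i x * y + x * D i y) (c : ℕ → R)
    (c0 : c 0 = 1) (cc : ∀ k l, ((k + l).choose k : R) * c (k + l) = c k * c l)
    (Dc : ∀ i k, D i (c k) = 0) (hc1 : c 1 ≠ 0) (a : R) (ha : a ≠ 0) (hDa : ∀ i, D i a = 0)
    (hsep : ∀ r : R, (∀ n : ℕ, a ^ n ∣ r) → r = 0) {J : Type*} (φ : J → R)
    (hφ : ∀ j i k, D k (D i (φ j)) = 0)
    (hinj : ∀ j j', (∀ i, D i (φ j) = D i (φ j')) → j = j') (s : Finset J) (n : J → ℤ)
    (h : ∃ g, ∑ j ∈ s, n j • Ex c (C (φ j)) = (X - C a) * g) : ∀ j ∈ s, n j = 0 := by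
  intro j hj
  have h1 : ∀ k : J, (n k • Ex c (C (φ k)) : R⟦X⟧) = C ((n k : ℤ) : R) * Ex c (C (φ k)) := by
    intro k
    rw [zsmul_eq_mul, map_intCast]
  have h2 : (X - C a : R⟦X⟧) ∣ ∑ j ∈ s, C ((n j : ℤ) : R) * Ex c (C (φ j)) := by
    obtain ⟨g, hg⟩ := h
    refine ⟨g, ?_⟩
    rw [← hg]
    exact Finset.sum_congr rfl fun k _ => (h1 k).symm
  have h3 := StInd_main D hD c c0 cc Dc hc1 a ha hDa hsep φ hφ hinj s (fun j => ((n j : ℤ) : R))
    (by
      intro i k
      have h4 : ((n k : ℤ) : R) = n k • (1 : R) := (zsmul_one _).symm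
      show D i ((n k : ℤ) : R) = 0
      rw [h4, map_zsmul, StInd_one _ (hD i), smul_zero]) h2 j hj
  exact Int.cast_eq_zero.1 h3

end PDT
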