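import Pool.Agent.Lib.PDT.StBase

/-!
# PDT/StMv: star product data on polynomials in `2N` variables over a discrete valuation ring

`V` a domain of characteristic zero in which the integers prime to `p` are units; variables
`x_i = X (inl i)`, `y_i = X (inr i)`; `D_i = ∂/∂y_i`, `P_i = ∂/∂x_i`; `k! c_k = p^k`;
`φ_C = Σ_{ij} x_i C_{ij} y_j`.

Complete proof.
`exists_c`: `k! = p^b m` with `p ∤ m` and `b ≤ k` (Legendre; e.g. `(p - 1) * padicValNat p k! =
k - digit sum`, `sub_one_mul_padicValNat_factorial`, so `padicValNat p (k!) ≤ k`); `m` is a unit of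
`V`, put `c_k = p^(k-b) m⁻¹`.  `c 0 = 1` and `c 1 = p` and `cc` follow from `k! c_k = p^k` by
cancelling factorials (`CharZero`, domain): `k! l! binom(k+l,k) c_{k+l} = (k+l)! c_{k+l} = p^(k+l) =
k! c_k l! c_l` (`Nat.add_choose_mul_factorial_mul_factorial`).
`mvStar`: `D i = (MvPolynomial.pderiv (Sum.inr i)).toLinearMap.toAddMonoidHom`, etc.; they commute
(`MvPolynomial.pderiv` of `pderiv`: prove by induction on the polynomial, or because the commutator
`⁅pderiv i, pderiv j⁆` is a derivation which vanishes on the variables: `MvPolynomial.derivation_ext`,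
`Derivation.commutator`); constants are killed (`pderiv_C`).
`D_phi`: `D_j φ_C = Σ_i x_i C_{ij}`; `P_phi`: `P_i φ_C = Σ_j C_{ij} y_j`; second derivatives of the same
kind vanish; `Σ_i D_i φ_C · P_i φ_{C'} = φ_{C C'}`.
-/

namespace PDT

open MvPolynomial

private theorem StMv_fact (V : Type*) [CommRing V] (p : ℕ) (hp : p.Prime)
    (hu : ∀ m : ℕ, m.Coprime p → IsUnit (m : V)) (k : ℕ) :
    ∃ c : V, ((k.factorial : ℕ) : V) * c = (p : V) ^ k := by
  obtain ⟨e, m, hm, hk⟩ := Nat.exists_eq_pow_mul_and_not_dvd (Nat.factorial_ne_zero k) p hp.ne_one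
  have hcop : m.Coprime p := ((Nat.Prime.coprime_iff_not_dvd hp).mpr hm).symm
  obtain ⟨u, hu'⟩ := hu m hcop
  have hek : e ≤ k := by
    have : Fact p.Prime := ⟨hp⟩
    have h1 : p ^ e ∣ k.factorial := ⟨m, hk⟩
    have h2 : e ≤ padicValNat p k.factorial :=
      (padicValNat_dvd_iff_le (Nat.factorial_ne_zero k)).mp h1
    have h3 := sub_one_mul_padicValNat_factorial (p := p) k
    have h4 : 1 * padicValNat p k.factorial ≤ (p - 1) * padicValNat p k.factorial :=
      Nat.mul_le_mul_right _ (by have := hp.two_le; omega)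
    omega
  refine ⟨(p : V) ^ (k - e) * ((u⁻¹ : Vˣ) : V), ?_⟩
  rw [hk]
  push_cast
  rw [← hu']
  calc (p : V) ^ e * (u : V) * ((p : V) ^ (k - e) * ((u⁻¹ : Vˣ) : V)) =
      ((p : V) ^ e * (p : V) ^ (k - e)) * ((u : V) * ((u⁻¹ : Vˣ) : V)) := by ring
    _ = (p : V) ^ k := by
      rw [← pow_add, Units.mul_inv, mul_one, Nat.add_sub_cancel' hek]

theorem exists_c (V : Type*) [CommRing V] [IsDomain V] [CharZero V] (p : ℕ) (hp : p.Prime)
    (hu : ∀ m : ℕ, m.Coprime p → IsUnit (m : V)) :
    ∃ c : ℕ → V, c 0 = 1 ∧ c 1 = (p : V) ∧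
      ∀ k l, ((k + l).choose k : V) * c (k + l) = c k * c l := by
  choose c hc using StMv_fact V p hp hu
  refine ⟨c, ?_, ?_, ?_⟩
  · have := hc 0
    simpa using this
  · have := hc 1
    simpa using this
  · intro k l
    have hk : ((k.factorial : ℕ) : V) ≠ 0 := Nat.cast_ne_zero.mpr (Nat.factorial_ne_zero k)
    have hl : ((l.factorial : ℕ) : V) ≠ 0 := Nat.cast_ne_zero.mpr (Nat.factorial_ne_zero l)
    have h1 : (((k + l).choose k : ℕ) : V) * ((k.factorial : ℕ) : V) * ((l.factorial : ℕ) : V) =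
        (((k + l).factorial : ℕ) : V) := by
      have h0 := Nat.choose_mul_factorial_mul_factorial (Nat.le_add_right k l)
      rw [Nat.add_sub_cancel_left] at h0
      rw [← Nat.cast_mul, ← Nat.cast_mul, h0]
    have h2 : ((k.factorial : ℕ) : V) * ((l.factorial : ℕ) : V) *
        ((((k + l).choose k : ℕ) : V) * c (k + l)) =
        ((k.factorial : ℕ) : V) * ((l.factorial : ℕ) : V) * (c k * c l) := by
      calc ((k.factorial : ℕ) : V) * ((l.factorial : ℕ) : V) *
          ((((k + l).choose k : ℕ) : V) * c (k + l)) =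
          (((k + l).choose k : ℕ) : V) * ((k.factorial : ℕ) : V) * ((l.factorial : ℕ) : V) *
            c (k + l) := by ring
        _ = (p : V) ^ k * (p : V) ^ l := by rw [h1, hc, pow_add]
        _ = (((k.factorial : ℕ) : V) * c k) * (((l.factorial : ℕ) : V) * c l) := by
          rw [hc, hc]
        _ = _ := by ring
    exact mul_left_cancel₀ (mul_ne_zero hk hl) h2

private theorem StMv_comm {σ V : Type*} [CommRing V] (i j : σ) (f : MvPolynomial σ V) :
    pderiv i (pderiv j f) = pderiv j (pderiv i f) := by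
  classical
  have h : ⁅(pderiv i : Derivation V (MvPolynomial σ V) (MvPolynomial σ V)),
      (pderiv j : Derivation V (MvPolynomial σ V) (MvPolynomial σ V))⁆ = 0 := by
    apply MvPolynomial.derivation_ext
    intro k
    rw [Derivation.commutator_apply, pderiv_X, pderiv_X]
    simp only [Pi.single_apply]
    split_ifs <;> simp
  have h2 := DFunLike.congr_fun h f
  rw [Derivation.commutator_apply] at h2
  exact sub_eq_zero.mp h2

theorem exists_mvStar (V : Type*) [CommRing V] (N : ℕ) (c : ℕ → V) (c0 : c 0 = 1)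
    (cc : ∀ k l, ((k + l).choose k : V) * c (k + l) = c k * c l) :
    ∃ S : StarData (MvPolynomial (Fin N ⊕ Fin N) V) (Fin N), (∀ k, S.c k = C (c k)) ∧
      (∀ i f, S.D i f = pderiv (Sum.inr i) f) ∧ (∀ i f, S.P i f = pderiv (Sum.inl i) f) := by
  refine ⟨{ D := fun i => (pderiv (Sum.inr i) : Derivation V (MvPolynomial (Fin N ⊕ Fin N) V)
              (MvPolynomial (Fin N ⊕ Fin N) V)).toLinearMap.toAddMonoidHom
            P := fun i => (pderiv (Sum.inl i) : Derivation V (MvPolynomial (Fin N ⊕ Fin N) V)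
              (MvPolynomial (Fin N ⊕ Fin N) V)).toLinearMap.toAddMonoidHom
            c := fun k => C (c k)
            D_mul := ?_
            P_mul := ?_
            DD := ?_
            PP := ?_
            DP := ?_
            c0 := ?_
            cc := ?_
            Dc := ?_
            Pc := ?_ }, fun k => rfl, fun i f => rfl, fun i f => rfl⟩
  · intro i x y
    exact pderiv_mul
  · intro i x y
    exact pderiv_mul
  · intro i j x
    exact StMv_comm _ _ x
  · intro i j x
    exact StMv_comm _ _ x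
  · intro i j x
    exact StMv_comm _ _ x
  · show C (c 0) = 1
    rw [c0, C_1]
  · intro k l
    show (((k + l).choose k : ℕ) : MvPolynomial (Fin N ⊕ Fin N) V) * C (c (k + l)) =
      C (c k) * C (c l)
    rw [← C_mul, ← cc k l, C_mul, map_natCast]
  · intro i k
    exact pderiv_C
  · intro i k
    exact pderiv_C

/-- The polynomial `Σ x_i C_{ij} y_j`. -/
noncomputable def phi {V : Type*} [CommRing V] {N : ℕ} (M : Matrix (Fin N) (Fin N) V) :
    MvPolynomial (Fin N ⊕ Fin N) V :=
  ∑ i, ∑ j, X (Sum.inl i) * C (M i j) * X (Sum.inr j)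

theorem phi_zero {V : Type*} [CommRing V] {N : ℕ} :
    phi (0 : Matrix (Fin N) (Fin N) V) = 0 := by
  simp [phi]

theorem phi_add {V : Type*} [CommRing V] {N : ℕ} (M M' : Matrix (Fin N) (Fin N) V) :
    phi (M + M') = phi M + phi M' := by
  unfold phi
  rw [← Finset.sum_add_distrib]
  refine Finset.sum_congr rfl fun i _ => ?_
  rw [← Finset.sum_add_distrib]
  refine Finset.sum_congr rfl fun j _ => ?_
  rw [Matrix.add_apply, C_add]
  ring

theorem phi_smul {V : Type*} [CommRing V] {N : ℕ} (b : V) (M : Matrix (Fin N) (Fin N) V) :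
    phi (b • M) = C b * phi M := by
  unfold phi
  rw [Finset.mul_sum]
  refine Finset.sum_congr rfl fun i _ => ?_
  rw [Finset.mul_sum]
  refine Finset.sum_congr rfl fun j _ => ?_
  rw [Matrix.smul_apply, smul_eq_mul, C_mul]
  ring

private theorem StMv_D1 {V : Type*} [CommRing V] {N : ℕ} (a : V) (i k j : Fin N) :
    pderiv (Sum.inr j : Fin N ⊕ Fin N) (X (Sum.inl i) * C a * X (Sum.inr k)) =
      if k = j then X (Sum.inl i) * C a else 0 := by
  rw [pderiv_mul, pderiv_mul, pderiv_C, pderiv_X_of_ne (by simp)]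
  by_cases h : k = j
  · subst h
    rw [if_pos rfl, pderiv_X_self]
    ring
  · rw [if_neg h, pderiv_X_of_ne (by simpa using h)]
    ring

private theorem StMv_P1 {V : Type*} [CommRing V] {N : ℕ} (a : V) (i k j : Fin N) :
    pderiv (Sum.inl j : Fin N ⊕ Fin N) (X (Sum.inl i) * C a * X (Sum.inr k)) =
      if i = j then C a * X (Sum.inr k) else 0 := by
  rw [pderiv_mul, pderiv_mul, pderiv_C, pderiv_X_of_ne (i := Sum.inl j) (j := Sum.inr k) (by simp)]
  by_cases h : i = j
  · subst h
    rw [if_pos rfl, pderiv_X_self]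
    ring
  · rw [if_neg h, pderiv_X_of_ne (by simpa using h)]
    ring

theorem D_phi {V : Type*} [CommRing V] {N : ℕ} (M : Matrix (Fin N) (Fin N) V) (j : Fin N) :
    pderiv (Sum.inr j) (phi M) = ∑ i, X (Sum.inl i) * C (M i j) := by
  unfold phi
  rw [map_sum]
  refine Finset.sum_congr rfl fun i _ => ?_
  rw [map_sum]
  simp only [StMv_D1]
  rw [Finset.sum_ite_eq' Finset.univ j (fun k => X (Sum.inl i) * C (M i k))]
  rw [if_pos (Finset.mem_univ j)]

theorem P_phi {V : Type*} [CommRing V] {N : ℕ} (M : Matrix (Fin N) (Fin N) V) (i : Fin N) :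
    pderiv (Sum.inl i) (phi M) = ∑ j, C (M i j) * X (Sum.inr j) := by
  unfold phi
  rw [map_sum]
  have h : ∀ i' : Fin N, pderiv (Sum.inl i : Fin N ⊕ Fin N)
      (∑ j, X (Sum.inl i') * C (M i' j) * X (Sum.inr j)) =
      if i' = i then ∑ j, C (M i' j) * X (Sum.inr j) else 0 := by
    intro i'
    rw [map_sum]
    simp only [StMv_P1]
    split_ifs
    · rfl
    · exact Finset.sum_const_zero
  rw [Finset.sum_congr rfl fun i' _ => h i']
  rw [Finset.sum_ite_eq' Finset.univ i (fun i' => ∑ j, C (M i' j) * X (Sum.inr j))]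
  rw [if_pos (Finset.mem_univ i)]

theorem DD_phi {V : Type*} [CommRing V] {N : ℕ} (M : Matrix (Fin N) (Fin N) V) (j k : Fin N) :
    pderiv (Sum.inr k) (pderiv (Sum.inr j) (phi M)) = 0 := by
  rw [D_phi, map_sum]
  refine Finset.sum_eq_zero fun i _ => ?_
  rw [pderiv_mul, pderiv_C, pderiv_X_of_ne (by simp)]
  ring

theorem PP_phi {V : Type*} [CommRing V] {N : ℕ} (M : Matrix (Fin N) (Fin N) V) (i k : Fin N) :
    pderiv (Sum.inl k) (pderiv (Sum.inl i) (phi M)) = 0 := by
  rw [P_phi, map_sum]
  refine Finset.sum_eq_zero fun j _ => ?_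
  rw [pderiv_mul, pderiv_C, pderiv_X_of_ne (by simp)]
  ring

theorem sum_phi {V : Type*} [CommRing V] {N : ℕ} (M M' : Matrix (Fin N) (Fin N) V) :
    ∑ i, pderiv (Sum.inr i) (phi M) * pderiv (Sum.inl i) (phi M') = phi (M * M') := by
  have h1 : ∀ i : Fin N, pderiv (Sum.inr i) (phi M) * pderiv (Sum.inl i) (phi M') =
      ∑ a, ∑ b, X (Sum.inl a) * C (M a i * M' i b) * X (Sum.inr b) := by
    intro i
    rw [D_phi, P_phi, Finset.sum_mul_sum]
    refine Finset.sum_congr rfl fun a _ => Finset.sum_congr rfl fun b _ => ?_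
    rw [C_mul]
    ring
  rw [Finset.sum_congr rfl fun i _ => h1 i, Finset.sum_comm]
  unfold phi
  refine Finset.sum_congr rfl fun a _ => ?_
  rw [Finset.sum_comm]
  refine Finset.sum_congr rfl fun b _ => ?_
  rw [Matrix.mul_apply, map_sum, Finset.mul_sum, Finset.sum_mul]

theorem phi_inj {V : Type*} [CommRing V] {N : ℕ} (M M' : Matrix (Fin N) (Fin N) V)
    (h : ∀ j, pderiv (Sum.inr j) (phi M) = pderiv (Sum.inr j) (phi M')) : M = M' := by
  classical
  ext i j
  have h1 := congrArg (pderiv (Sum.inl i)) (h j)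
  have h2 : ∀ A : Matrix (Fin N) (Fin N) V,
      pderiv (Sum.inl i) (pderiv (Sum.inr j) (phi A)) = C (A i j) := by
    intro A
    rw [D_phi, map_sum]
    have h3 : ∀ a : Fin N, pderiv (Sum.inl i : Fin N ⊕ Fin N) (X (Sum.inl a) * C (A a j)) =
        if a = i then C (A a j) else 0 := by
      intro a
      rw [pderiv_mul, pderiv_C, mul_zero, add_zero]
      by_cases hai : a = i
      · subst hai
        rw [if_pos rfl, pderiv_X_self, one_mul]
      · rw [if_neg hai, pderiv_X_of_ne (by simpa using hai), zero_mul]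
    rw [Finset.sum_congr rfl fun a _ => h3 a,
      Finset.sum_ite_eq' Finset.univ i (fun a => C (A a j)), if_pos (Finset.mem_univ i)]
  rw [h2, h2] at h1
  exact C_injective _ _ h1

end PDT
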