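import Pool.Agent.Lib.PDT.StBase
import Pool.Agent.Lib.PDT.StRing

/-!
# PDT/StOp: the quotient of the star product ring is also right noetherian

Let `S' : StarData R ι` be `S` with `D` and `P` exchanged (`DP` becomes
`P i (D j x) = D j (P i x)`, from `S.DP`).  By induction on `k` (all `f, g`): `br S' k g f = br S k f g`
(`k = 0`: commutativity of the usual product).  So `stn S' n g f = stn S n f g` and
`star' S' g f = star' S f g`.  Hence `q' : R⟦X⟧ →+ Λᵐᵒᵖ`, `q' f = op (Q.q f)` is a `StarQuot S' a Λᵐᵒᵖ`:
`q' (star' S' g f) = op (Q.q (star' S f g)) = op (q f * q g) = op (q g) * op (q f) = q' g * q' f`.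
By `starQuot_noeth`, `Λᵐᵒᵖ` is noetherian.
-/

namespace PDT

open PowerSeries Function

universe v

/-- The star product data with the two families of derivations exchanged. -/
private def StOp_swap {R : Type*} [CommRing R] {ι : Type*} [Fintype ι] (S : StarData R ι) :
    StarData R ι where
  D := S.P
  P := S.D
  c := S.c
  D_mul := S.P_mul
  P_mul := S.D_mul
  DD := S.PP
  PP := S.DD
  DP := fun i j x => (S.DP j i x).symm
  c0 := S.c0
  cc := S.cc
  Dc := S.Pc
  Pc := S.Dc

private theorem StOp_br {R : Type*} [CommRing R] {ι : Type*} [Fintype ι] (S : StarData R ι)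
    (k : ℕ) (f g : R⟦X⟧) : br (StOp_swap S) k g f = br S k f g := by
  induction k generalizing f g with
  | zero => rw [br_zero, br_zero, mul_comm]
  | succ k ih =>
    rw [br_succ, br_succ]
    exact Finset.sum_congr rfl fun i _ => ih _ _

private theorem StOp_stn {R : Type*} [CommRing R] {ι : Type*} [Fintype ι] (S : StarData R ι)
    (n : ℕ) (f g : R⟦X⟧) : stn (StOp_swap S) n g f = stn S n f g := by
  unfold stn
  refine Finset.sum_congr rfl fun k _ => ?_
  rw [StOp_br]
  rfl

private theorem StOp_star {R : Type*} [CommRing R] {ι : Type*} [Fintype ι] (S : StarData R ι)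
    (f g : R⟦X⟧) : star' (StOp_swap S) g f = star' S f g := by
  ext n
  rw [coeff_star', coeff_star', StOp_stn]

theorem starQuot_noeth_op {R : Type v} [CommRing R] [IsNoetherianRing R] {ι : Type*} [Fintype ι]
    (S : StarData R ι) (a : R) {Λ : Type*} [Ring Λ] (Q : StarQuot S a Λ) :
    IsNoetherianRing Λᵐᵒᵖ := by
  let Q' : StarQuot (StOp_swap S) a Λᵐᵒᵖ :=
    { q := (MulOpposite.opAddEquiv : Λ ≃+ Λᵐᵒᵖ).toAddMonoidHom.comp Q.q
      surj := by
        intro y
        obtain ⟨f, hf⟩ := Q.surj (MulOpposite.unop y)
        exact ⟨f, by simp [hf]⟩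
      map_star := by
        intro f g
        have h := Q.map_star g f
        simp only [AddMonoidHom.coe_comp, Function.comp_apply]
        rw [StOp_star S g f, h]
        rfl
      map_one := by
        simp [Q.map_one]
      ker := by
        intro f
        rw [← Q.ker f]
        simp }
  exact starQuot_noeth (StOp_swap S) a Q'

end PDT
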