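import Pool.Agent.Lib.PDT.StBase
import Pool.Agent.Lib.PDT.StRing
import Pool.Agent.Lib.PDT.StDom
import Pool.Agent.Lib.PDT.StExp
import Pool.Agent.Lib.PDT.StInd
import Pool.Agent.Lib.PDT.StMv
import Pool.Agent.Lib.PDT.StOp

/-!
# PDT/StMain: the group ring of a congruence subgroup embeds in a noetherian domain

`V` a discrete valuation ring of characteristic zero with `p` in its maximal ideal.  There is a
noetherian domain `Λ` and a map `E` from matrices over `V` to `Λ` with `E(0) = 1`,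
`E(C) E(C') = E(C + C' + p⁴ C C')` (so `1 + p⁴ C ↦ E(C)` is multiplicative), with values linearly
independent over `ℤ`; moreover `Λ` has a central non-zero-divisor `x` with `∩ xⁿ Λ = 0` and a
homomorphism `π` onto a commutative domain `F` with kernel `x Λ` and `π(E(C)) = 1`; `p` is zero in `F`.

Complete proof.  Integers prime to `p` are units of `V` (they are not in the maximal ideal, since `p`
is and a combination is `1`).  `exists_c` gives `c` in `V`, `exists_mvStar` the data `S` on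
`R = MvPolynomial (Fin N ⊕ Fin N) V`, a noetherian domain of characteristic zero.  Let `a = C p` (a
constant), `ϖ = C ϖ₀` with `ϖ₀` a uniformizer of `V`: `Ideal.span {C ϖ₀}` is prime
(`MvPolynomial.isPrime_C_iff`/`Ideal.map C`: `MvPolynomial.isPrime_map_C...`; or `Prime (C ϖ₀)` by
`MvPolynomial.prime_C_iff`), `p = ϖ₀ a'` and `ϖ₀^e = p a''` for some `e` (`p ≠ 0` in a discrete
valuation ring: `p = unit · ϖ₀^e`).  `exists_starQuot` gives `Λ`, `Q`; `starQuot_noeth`, `star_dom`.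
`E(M) = Q.q (Ex S.c (C (phi M)))` (inner `C = PowerSeries.C`).
`E(0) = q(Ex 0) = q 1 = 1`.  Multiplicativity: `star_Ex` with `φ = C (phi M)`, `ψ = C (phi M')`
(`cw D (C f) = C (D f)`; `DD_phi`, `PP_phi`, `sum_phi`):
`star' (Ex φ) (Ex ψ) = Ex (C (phi M) + C (phi M') + (C (C p) X)² C (phi (M M')))`, and
`C(phi M) + C(phi M') + (C (C p) X)² C(phi(M M')) - C (phi (M + M' + p⁴ M M')) =
C(C p)² (X² - C(a)²) C(phi (M M')) = (X - C a)(…)`, so `Ex_congr` and `Q.ker` give the claim.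
Independence: a relation `Σ n_M E(M) = 0` is `q (Σ n_M • Ex …) = 0`, so by `Q.ker` it is a multiple of
`X - C a`; `exp_indep` with `J` = matrices, `φ = phi` (`phi_inj`, `DD_phi`), `hsep`: `∩ p^n R = 0`
(coefficientwise: `∩ p^n V = 0` in a discrete valuation ring; or `Ideal.iInf_pow_eq_bot_of_isDomain`
for the noetherian domain `R` and the proper ideal `(p)`).  `π` from `star_dom`:
`π (E(M)) = [coeff 0 (Ex …)] = [1] = 1`.  `F = R ⧸ (ϖ)`; `p = ϖ₀ a'` is zero in it.  `x = Q.q (C ϖ)`,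
`x ≠ 0` as `Λ` is nontrivial and `x y = 0 → y = 0`.
-/

namespace PDT

open Function

universe v

private theorem StMain_unit (V : Type*) [CommRing V] [IsLocalRing V] (p : ℕ)
    (hpm : (p : V) ∈ IsLocalRing.maximalIdeal V) (m : ℕ) (hm : m.Coprime p) :
    IsUnit (m : V) := by
  by_contra hnu
  have h1 : (m : V) ∈ IsLocalRing.maximalIdeal V := (IsLocalRing.mem_maximalIdeal _).2 hnu
  obtain ⟨a, b, hab⟩ := Nat.isCoprime_iff_coprime.2 hm
  have h2 : ((a : ℤ) : V) * (m : V) + ((b : ℤ) : V) * (p : V) = 1 := by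
    have := congrArg (fun z : ℤ => (z : V)) hab
    push_cast at this
    exact this
  have h3 : (1 : V) ∈ IsLocalRing.maximalIdeal V := by
    rw [← h2]
    exact Ideal.add_mem _ (Ideal.mul_mem_left _ _ h1) (Ideal.mul_mem_left _ _ hpm)
  exact (Ideal.ne_top_iff_one _).1 (IsLocalRing.maximalIdeal.isMaximal V).ne_top h3

private theorem StMain_sep (V : Type*) [CommRing V] [IsDomain V] [IsDiscreteValuationRing V]
    (p : V) (hpm : p ∈ IsLocalRing.maximalIdeal V) (σ : Type*) (r : MvPolynomial σ V)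
    (h : ∀ n : ℕ, (MvPolynomial.C p : MvPolynomial σ V) ^ n ∣ r) : r = 0 := by
  ext i
  rw [MvPolynomial.coeff_zero]
  have h1 : ∀ n : ℕ, p ^ n ∣ r.coeff i := by
    intro n
    have := h n
    rw [← MvPolynomial.C_pow, MvPolynomial.C_dvd_iff_dvd_coeff] at this
    exact this i
  have h2 : r.coeff i ∈ ⨅ n : ℕ, (IsLocalRing.maximalIdeal V) ^ n := by
    rw [Ideal.mem_iInf]
    intro n
    obtain ⟨c, hc⟩ := h1 n
    rw [hc]
    exact Ideal.mul_mem_right _ _ (Ideal.pow_mem_pow hpm n)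
  rw [Ideal.iInf_pow_eq_bot_of_isLocalRing _ (IsLocalRing.maximalIdeal.isMaximal V).ne_top] at h2
  exact (Ideal.mem_bot).1 h2

open PowerSeries in
private theorem StMain_cwC {R : Type*} [CommRing R] (D : R →+ R) (b : R) :
    cw D (C b) = C (D b) := by
  ext n
  rw [coeff_cw, coeff_C, coeff_C]
  split_ifs
  · rfl
  · exact map_zero _

theorem star_main (V : Type v) [CommRing V] [IsDomain V] [IsDiscreteValuationRing V] [CharZero V]
    (p : ℕ) (hp : p.Prime) (hpm : (p : V) ∈ IsLocalRing.maximalIdeal V) (N : ℕ) :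
    ∃ (Λ : Type v) (_ : Ring Λ) (E : Matrix (Fin N) (Fin N) V → Λ) (x : Λ) (F : Type v)
      (_ : CommRing F) (π : Λ →+* F),
      IsNoetherianRing Λ ∧ IsNoetherianRing Λᵐᵒᵖ ∧ NoZeroDivisors Λ ∧ Nontrivial Λ ∧ E 0 = 1 ∧
      (∀ M M', E M * E M' = E (M + M' + (p : V) ^ 4 • (M * M'))) ∧ LinearIndependent ℤ E ∧
      (∀ y : Λ, x * y = y * x) ∧ x ≠ 0 ∧ (∀ y : Λ, (∀ n : ℕ, ∃ z, y = x ^ n * z) → y = 0) ∧
      IsDomain F ∧ Surjective π ∧ (∀ y, π y = 0 ↔ ∃ z, y = x * z) ∧ (∀ M, π (E M) = 1) ∧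
      (p : F) = 0 := by
  classical
  have hp0 : (p : V) ≠ 0 := Nat.cast_ne_zero.2 hp.ne_zero
  obtain ⟨c, c0, c1, cc⟩ := exists_c V p hp (fun m hm => StMain_unit V p hpm m hm)
  obtain ⟨S, hSc, hSD, hSP⟩ := exists_mvStar V N c c0 cc
  obtain ⟨ϖ₀, hϖ₀⟩ := IsDiscreteValuationRing.exists_irreducible V
  have hmax : IsLocalRing.maximalIdeal V = Ideal.span {ϖ₀} := hϖ₀.maximalIdeal_eq
  obtain ⟨a', ha'⟩ : ∃ a', (p : V) = ϖ₀ * a' := by
    rw [hmax, Ideal.mem_span_singleton] at hpm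
    exact hpm
  obtain ⟨e, u, hu⟩ := IsDiscreteValuationRing.associated_pow_irreducible hp0 hϖ₀
  have hDC : ∀ i (b : V), S.D i (MvPolynomial.C b) = 0 := by
    intro i b
    rw [hSD]
    exact MvPolynomial.pderiv_C
  have hPC : ∀ i (b : V), S.P i (MvPolynomial.C b) = 0 := by
    intro i b
    rw [hSP]
    exact MvPolynomial.pderiv_C
  have hSc1 : S.c 1 = MvPolynomial.C (p : V) := by rw [hSc, c1]
  obtain ⟨Λ, hΛ, ⟨Q⟩⟩ := exists_starQuot S (MvPolynomial.C (p : V)) (fun i => hDC i _)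
    (fun i => hPC i _)
  have hprime : (Ideal.span {(MvPolynomial.C ϖ₀ : MvPolynomial (Fin N ⊕ Fin N) V)}).IsPrime := by
    rw [Ideal.span_singleton_prime]
    · exact (MvPolynomial.prime_C_iff _).2 hϖ₀.prime
    · rw [Ne, MvPolynomial.C_eq_zero]
      exact hϖ₀.ne_zero
  have ha0 : (MvPolynomial.C (p : V) : MvPolynomial (Fin N ⊕ Fin N) V) ≠ 0 := by
    rw [Ne, MvPolynomial.C_eq_zero]
    exact hp0
  obtain ⟨hcomm, hreg, hsepx, hnzd, hnt, π, hπ, hker⟩ := star_dom S (MvPolynomial.C (p : V))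
    (MvPolynomial.C ϖ₀) (MvPolynomial.C a') (MvPolynomial.C (u : V)) e (fun i => hDC i _)
    (fun i => hPC i _) (fun i => hDC i _) (fun i => hPC i _) ha0
    (by rw [← MvPolynomial.C_mul, ← ha'])
    (by rw [← MvPolynomial.C_pow, ← MvPolynomial.C_mul, hu]) hprime Q
  have hnoeth : IsNoetherianRing Λ := starQuot_noeth S _ Q
  refine ⟨Λ, hΛ, fun M => Q.q (Ex S.c (PowerSeries.C (phi M))),
    Q.q (PowerSeries.C (MvPolynomial.C ϖ₀)),
    MvPolynomial (Fin N ⊕ Fin N) V ⧸
      Ideal.span {(MvPolynomial.C ϖ₀ : MvPolynomial (Fin N ⊕ Fin N) V)},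
    inferInstance, π, hnoeth, starQuot_noeth_op S _ Q, hnzd, hnt, ?_, ?_, ?_, hcomm, ?_, hsepx, ?_, ?_, hker, ?_, ?_⟩
  · show Q.q (Ex S.c (PowerSeries.C (phi 0))) = 1
    rw [phi_zero, map_zero, Ex_zero _ S.c0, Q.map_one]
  · intro M M'
    show Q.q _ * Q.q _ = Q.q _
    rw [← Q.map_star, star_Ex]
    · have h1 : ∑ i, cw (S.D i) (PowerSeries.C (phi M)) * cw (S.P i) (PowerSeries.C (phi M')) =
          PowerSeries.C (phi (M * M')) := by
        rw [← sum_phi, map_sum]
        refine Finset.sum_congr rfl fun i _ => ?_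
        rw [StMain_cwC, StMain_cwC, hSD, hSP, map_mul]
      rw [h1, ← sub_eq_zero, ← map_sub, Q.ker]
      refine Ex_congr _ _ _ _ (PowerSeries.C (MvPolynomial.C (p : V)) ^ 2 *
        (PowerSeries.X + PowerSeries.C (MvPolynomial.C (p : V))) *
          PowerSeries.C (phi (M * M'))) ?_
      rw [phi_add, phi_add, phi_smul, hSc1, map_add, map_add, map_mul, map_pow, map_pow]
      ring
    · intro i j
      rw [StMain_cwC, StMain_cwC, hSD, hSD, DD_phi, map_zero]
    · intro i j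
      rw [StMain_cwC, StMain_cwC, hSP, hSP, PP_phi, map_zero]
  · rw [linearIndependent_iff']
    intro s n hn
    have h1 : Q.q (∑ M ∈ s, n M • Ex S.c (PowerSeries.C (phi M))) = 0 := by
      rw [map_sum, ← hn]
      refine Finset.sum_congr rfl fun M _ => ?_
      rw [map_zsmul]
    rw [Q.ker] at h1
    have : CharZero (MvPolynomial (Fin N ⊕ Fin N) V) := inferInstance
    refine exp_indep S.D S.D_mul S.c S.c0 S.cc S.Dc ?_ (MvPolynomial.C (p : V)) ha0
      (fun i => hDC i _) (fun r hr => StMain_sep V _ hpm _ r hr)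
      (fun M : Matrix (Fin N) (Fin N) V => phi M) ?_ ?_ s n h1
    · rw [hSc1]
      exact ha0
    · intro M i k
      rw [hSD, hSD, DD_phi]
    · intro M M' h
      refine phi_inj M M' fun j => ?_
      have := h j
      rw [hSD, hSD] at this
      exact this
  · intro h0
    obtain ⟨y, hy⟩ := exists_ne (0 : Λ)
    exact hy (hreg y (by rw [h0, zero_mul]))
  · exact (Ideal.Quotient.isDomain_iff_prime _).2 hprime
  · intro y
    obtain ⟨r, rfl⟩ := Ideal.Quotient.mk_surjective y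
    refine ⟨Q.q (PowerSeries.C r), ?_⟩
    rw [hπ, PowerSeries.coeff_zero_C]
  · intro M
    show π (Q.q _) = 1
    rw [hπ]
    have h1 : PowerSeries.coeff 0 (Ex S.c (PowerSeries.C (phi M))) = 1 := by
      rw [coeff_Ex_of_le S.c _ (le_refl 0), exn]
      simp [S.c0]
    rw [h1, map_one]
  · have h1 : ((p : ℕ) : MvPolynomial (Fin N ⊕ Fin N) V ⧸
        Ideal.span {(MvPolynomial.C ϖ₀ : MvPolynomial (Fin N ⊕ Fin N) V)}) =
        Ideal.Quotient.mk _ (MvPolynomial.C (p : V)) := by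
      rw [map_natCast, map_natCast]
    rw [h1, Ideal.Quotient.eq_zero_iff_mem, Ideal.mem_span_singleton, ha', MvPolynomial.C_mul]
    exact dvd_mul_right _ _

end PDT
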