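import Pool.Agent.Lib.PDT.Base
import Pool.Agent.Lib.PDT.DvrExists
import Pool.Agent.Lib.PDT.StMain

/-!
# PDT/LinGrp: finitely generated linear groups of characteristic zero

`H` finitely generated, `ρ : H → GL_N(K)` injective, `char K = 0`.  There is a subgroup `H0` of finite
index whose group ring embeds in a noetherian domain `Λ`, with the additional structure of
`PDT/StMain` (an element `x` and a residue map `π` with `π(τ(h)) = 1`).

Complete proof.  Let `A ⊆ K` be the subring generated by all the entries of `ρ(h)` and `ρ(h)⁻¹`, `h` in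
a finite generating set of `H`: a finitely generated domain of characteristic zero; `ρ` takes values in
matrices with entries in `A` (closure induction: the set of `h` with `ρ(h)`, `ρ(h⁻¹)` over `A` is a
subgroup).  `exists_dvr A` gives `p, V, i`, `m` the maximal ideal of `V`.  `V` has characteristic zero.
As `p⁴ ≠ 0` in the discrete valuation ring `V`, there is `k` with `m^k ≤ (p⁴)`
(`IsDiscreteValuationRing.associated_pow_irreducible`: `p⁴ = unit · ϖ^k`).  Let `I = i⁻¹((p⁴))`, an ideal
of `A`, which contains `(i⁻¹ m)^k`; `A/(i⁻¹ m)` is finite and `A` noetherian, so `A/(i⁻¹ m)^k` is finite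
(`Ideal.finite_quotient_pow`) and so is `A/I`.  Let `H0 = {h | ρ(h) ≡ 1 mod I entrywise}`, the kernel of
`H → GL_N(A/I)` (or of `H → (Matrix (Fin N) (Fin N) (A/I))ˣ`), a finite group: finite index.
For `h ∈ H0`: `i(ρ(h)) = 1 + p⁴ C(h)` with `C(h)` a matrix over `V`, unique as `V` is a domain.
`1 + p⁴ C(h h') = (1 + p⁴ C(h))(1 + p⁴ C(h'))` gives `C(h h') = C(h) + C(h') + p⁴ C(h) C(h')`, `C(1) = 0`.
With `E` from `star_main`, `h ↦ E(C(h))` is multiplicative, `1 ↦ 1`, so it extends to a ring
homomorphism `τ : ℤ[H0] → Λ` (`MonoidAlgebra.lift ℤ Λ H0`), `τ (el h) = E (C h)`.  `C` is injective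
(`i`, `ρ` are), `E` is linearly independent over `ℤ`, so `τ` is injective.  `π (τ (el h)) = 1`.
-/

namespace PDT

open Function

universe u v

theorem lg_subalg {H : Type u} [Group H] (hfg : Group.FG H) {K : Type v} [Field K]
    (N : ℕ) (ρ : H →* GL (Fin N) K) :
    ∃ A : Subalgebra ℤ K, A.FG ∧ ∀ (h : H) (i j), (ρ h : Matrix (Fin N) (Fin N) K) i j ∈ A := by
  obtain ⟨S, hS⟩ := Group.fg_def.1 hfg
  let f : H × Fin N × Fin N → K := fun q => (ρ q.1 : Matrix (Fin N) (Fin N) K) q.2.1 q.2.2
  let f' : H × Fin N × Fin N → K := fun q => (ρ q.1⁻¹ : Matrix (Fin N) (Fin N) K) q.2.1 q.2.2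
  let B : Set (H × Fin N × Fin N) := (S : Set H) ×ˢ Set.univ
  have hB : B.Finite := S.finite_toSet.prod Set.finite_univ
  refine ⟨Algebra.adjoin ℤ (f '' B ∪ f' '' B),
    Subalgebra.fg_def.2 ⟨_, (hB.image f).union (hB.image f'), rfl⟩, ?_⟩
  have key : ∀ h : H, (∀ i j, (ρ h : Matrix (Fin N) (Fin N) K) i j ∈
      Algebra.adjoin ℤ (f '' B ∪ f' '' B)) ∧ (∀ i j, (ρ h⁻¹ : Matrix (Fin N) (Fin N) K) i j ∈
      Algebra.adjoin ℤ (f '' B ∪ f' '' B)) := by
    intro h
    have hh : h ∈ Subgroup.closure (S : Set H) := by rw [hS]; trivial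
    induction hh using Subgroup.closure_induction with
    | mem x hx =>
      refine ⟨fun i j => ?_, fun i j => ?_⟩
      · exact Algebra.subset_adjoin (Or.inl ⟨(x, i, j), ⟨hx, trivial⟩, rfl⟩)
      · exact Algebra.subset_adjoin (Or.inr ⟨(x, i, j), ⟨hx, trivial⟩, rfl⟩)
    | one =>
      refine ⟨fun i j => ?_, fun i j => ?_⟩
      · rw [map_one]
        simp only [Units.val_one, Matrix.one_apply]
        split_ifs
        · exact one_mem _
        · exact zero_mem _
      · rw [inv_one, map_one]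
        simp only [Units.val_one, Matrix.one_apply]
        split_ifs
        · exact one_mem _
        · exact zero_mem _
    | mul x y hx hy ihx ihy =>
      refine ⟨fun i j => ?_, fun i j => ?_⟩
      · rw [map_mul]
        simp only [Units.val_mul, Matrix.mul_apply]
        exact sum_mem fun k _ => mul_mem (ihx.1 _ _) (ihy.1 _ _)
      · rw [mul_inv_rev, map_mul]
        simp only [Units.val_mul, Matrix.mul_apply]
        exact sum_mem fun k _ => mul_mem (ihy.2 _ _) (ihx.2 _ _)
    | inv x hx ih =>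
      refine ⟨ih.2, fun i j => ?_⟩
      rw [inv_inv]
      exact ih.1 i j
  exact fun h => (key h).1

/-- The representation with coefficients in a subalgebra. -/
theorem lg_rep {H : Type u} [Group H] {K : Type v} [Field K] (N : ℕ) (ρ : H →* GL (Fin N) K)
    (hρ : Injective ρ) (A : Subalgebra ℤ K)
    (hA : ∀ (h : H) (i j), (ρ h : Matrix (Fin N) (Fin N) K) i j ∈ A) :
    ∃ r : H →* Matrix (Fin N) (Fin N) A, Injective r := by
  refine ⟨{ toFun := fun h => Matrix.of fun i j => ⟨(ρ h : Matrix (Fin N) (Fin N) K) i j, hA h i j⟩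
            map_one' := ?_
            map_mul' := ?_ }, ?_⟩
  · ext i j
    simp only [Matrix.of_apply, map_one, Units.val_one, Matrix.one_apply]
    split_ifs <;> rfl
  · intro x y
    ext i j
    simp only [Matrix.of_apply, map_mul, Units.val_mul, Matrix.mul_apply]
    push_cast
    rfl
  · intro x y hxy
    apply hρ
    apply Units.ext
    ext i j
    have := congrArg (fun M : Matrix (Fin N) (Fin N) A => ((M i j : A) : K)) hxy
    exact this

/-- The preimage of `(p⁴)` has finite index. -/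
theorem lg_finite (A : Type v) [CommRing A] (hfg : Algebra.FiniteType ℤ A)
    (V : Type v) [CommRing V] [IsDomain V] [IsDiscreteValuationRing V] (i : A →+* V) (a : V)
    (ha : a ≠ 0) (hfin : Finite (A ⧸ (IsLocalRing.maximalIdeal V).comap i)) :
    Finite (A ⧸ (Ideal.span {a}).comap i) := by
  have : IsNoetherianRing A := Algebra.FiniteType.isNoetherianRing ℤ A
  obtain ⟨ϖ, hϖ⟩ := IsDiscreteValuationRing.exists_irreducible V
  obtain ⟨n, hn⟩ := IsDiscreteValuationRing.associated_pow_irreducible ha hϖ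
  have h1 : (IsLocalRing.maximalIdeal V) ^ n = Ideal.span {a} := by
    rw [hϖ.maximalIdeal_eq, Ideal.span_singleton_pow, Ideal.span_singleton_eq_span_singleton]
    exact hn.symm
  have h2 : ((IsLocalRing.maximalIdeal V).comap i) ^ n ≤ (Ideal.span {a}).comap i := by
    rw [← h1]
    exact Ideal.le_comap_pow i n
  have : Finite (A ⧸ ((IsLocalRing.maximalIdeal V).comap i) ^ n) :=
    Ideal.finite_quotient_pow (IsNoetherian.noetherian _) n
  exact Finite.of_surjective (Ideal.Quotient.factor h2) (Ideal.Quotient.factor_surjective h2)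

theorem lg_cong {A : Type v} [CommRing A] {V : Type v} [CommRing V] [IsDomain V] (i : A →+* V)
    (hi : Injective i) (a : V) (ha : a ≠ 0) (hfin : Finite (A ⧸ (Ideal.span {a}).comap i))
    {H : Type u} [Group H] (N : ℕ) (r : H →* Matrix (Fin N) (Fin N) A) (hr : Injective r) :
    ∃ (H0 : Subgroup H) (C : H0 → Matrix (Fin N) (Fin N) V), H0.FiniteIndex ∧ Injective C ∧
      C 1 = 0 ∧ ∀ h h', C (h * h') = C h + C h' + a • (C h * C h') := by
  let I := (Ideal.span {a}).comap i
  let f : H →* Matrix (Fin N) (Fin N) (A ⧸ I) :=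
    ((Ideal.Quotient.mk I).mapMatrix : Matrix (Fin N) (Fin N) A →+* _).toMonoidHom.comp r
  let g : H →* (Matrix (Fin N) (Fin N) (A ⧸ I))ˣ := f.toHomUnits
  have : Finite (A ⧸ I) := hfin
  have : Finite (Matrix (Fin N) (Fin N) (A ⧸ I)) := by unfold Matrix; infer_instance
  have hC : ∀ h : g.ker, ∃ M : Matrix (Fin N) (Fin N) V, i.mapMatrix (r h) = 1 + a • M := by
    intro h
    have h1 : f h = 1 := by
      have := h.2
      rw [MonoidHom.mem_ker] at this
      have h3 := congrArg Units.val this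
      exact h3
    have h2 : ∀ k l, ∃ c, i (r h k l) = (1 : Matrix (Fin N) (Fin N) V) k l + a * c := by
      intro k l
      have h3 : Ideal.Quotient.mk I (r h k l) =
          Ideal.Quotient.mk I ((1 : Matrix (Fin N) (Fin N) A) k l) := by
        have := congrArg (fun M => M k l) h1
        change Ideal.Quotient.mk I (r h k l) = (1 : Matrix (Fin N) (Fin N) (A ⧸ I)) k l at this
        rw [this, Matrix.one_apply, Matrix.one_apply]
        split_ifs <;> simp
      rw [Ideal.Quotient.eq, Ideal.mem_comap, Ideal.mem_span_singleton] at h3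
      obtain ⟨c, hc⟩ := h3
      refine ⟨c, ?_⟩
      rw [← hc, map_sub]
      have h4 : i ((1 : Matrix (Fin N) (Fin N) A) k l) = (1 : Matrix (Fin N) (Fin N) V) k l := by
        rw [Matrix.one_apply, Matrix.one_apply]
        split_ifs <;> simp
      rw [h4]
      ring
    choose c hc using h2
    refine ⟨Matrix.of c, ?_⟩
    ext k l
    exact hc k l
  choose C hC using hC
  have hcancel : ∀ M M' : Matrix (Fin N) (Fin N) V, a • M = a • M' → M = M' := by
    intro M M' h
    ext k l
    have := congrArg (fun M => M k l) h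
    exact mul_left_cancel₀ ha this
  refine ⟨g.ker, C, inferInstance, ?_, ?_, ?_⟩
  · intro h h' he
    have h1 : i.mapMatrix (r h) = i.mapMatrix (r h') := by rw [hC, hC, he]
    apply Subtype.ext
    apply hr
    ext k l
    apply hi
    exact congrArg (fun M => M k l) h1
  · apply hcancel
    have h1 := hC 1
    simp only [OneMemClass.coe_one, map_one] at h1
    rw [smul_zero]
    exact (left_eq_add.1 h1)
  · intro h h'
    apply hcancel
    have h1 := hC (h * h')
    simp only [Subgroup.coe_mul, map_mul, hC h, hC h'] at h1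
    have h2 : (1 + a • C h) * (1 + a • C h') = 1 + a • (C h + C h' + a • (C h * C h')) := by
      simp only [mul_add, add_mul, one_mul, mul_one, smul_add, Matrix.smul_mul, Matrix.mul_smul]
      abel
    rw [h2] at h1
    exact (add_left_cancel h1).symm

theorem linear_embedding (H : Type u) [Group H] (hfg : Group.FG H) {K : Type v} [Field K]
    [CharZero K] (N : ℕ) (ρ : H →* GL (Fin N) K) (hρ : Injective ρ) :
    ∃ (H0 : Subgroup H) (_ : H0.FiniteIndex) (Λ : Type v) (_ : Ring Λ) (τ : Zg H0 →+* Λ) (x : Λ)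
      (p : ℕ) (F : Type v) (_ : CommRing F) (π : Λ →+* F),
      Injective τ ∧ IsNoetherianRing Λ ∧ IsNoetherianRing Λᵐᵒᵖ ∧ NoZeroDivisors Λ ∧ Nontrivial Λ ∧
      (∀ y : Λ, x * y = y * x) ∧ x ≠ 0 ∧ (∀ y : Λ, (∀ n : ℕ, ∃ z, y = x ^ n * z) → y = 0) ∧
      IsDomain F ∧ Surjective π ∧ (∀ y, π y = 0 ↔ ∃ z, y = x * z) ∧
      (∀ h : H0, π (τ (el h)) = 1) ∧ p.Prime ∧ (p : F) = 0 := by
  obtain ⟨A, hAfg, hA⟩ := lg_subalg hfg N ρ
  obtain ⟨r, hr⟩ := lg_rep N ρ hρ A hA
  have hft : Algebra.FiniteType ℤ A := Subalgebra.fg_iff_finiteType A |>.1 hAfg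
  have hcz : CharZero A := charZero_of_injective_ringHom (f := algebraMap ℤ A)
    (RingHom.injective_int (algebraMap ℤ A))
  obtain ⟨p, V, iV1, iV2, iV3, i, hp, hi, hpm, hfin⟩ := exists_dvr A hft
  have hczV : CharZero V := charZero_of_injective_ringHom (f := i) hi
  have hp0 : ((p : V) ^ 4) ≠ 0 := pow_ne_zero _ (Nat.cast_ne_zero.2 hp.ne_zero)
  have hfin2 := lg_finite A hft V i _ hp0 hfin
  obtain ⟨H0, C, hH0, hCi, hC1, hCm⟩ := lg_cong i hi _ hp0 hfin2 N r hr
  obtain ⟨Λ, iΛ, E, x, F, iF, π, hnoe, hnoe2, hnzd, hnt, hE0, hEm, hEi, hxc, hx0, hxi, hFd, hπs, hπk, hπE,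
    hpF⟩ := star_main V p hp hpm N
  let φ : H0 →* Λ :=
    { toFun := fun h => E (C h)
      map_one' := by rw [hC1, hE0]
      map_mul' := fun h h' => by rw [hCm, hEm] }
  let τ : Zg H0 →+* Λ := (MonoidAlgebra.lift ℤ Λ H0 φ).toRingHom
  have hτe : ∀ h : H0, τ (el h) = E (C h) := by
    intro h
    change MonoidAlgebra.lift ℤ Λ H0 φ (MonoidAlgebra.single h 1) = E (C h)
    rw [MonoidAlgebra.lift_single, one_smul]
    rfl
  have hEC : LinearIndependent ℤ (fun h : H0 => E (C h)) := hEi.comp C hCi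
  have hτi : Injective τ := by
    rw [injective_iff_map_eq_zero]
    intro y hy
    have h1 : MonoidAlgebra.lift ℤ Λ H0 φ y = 0 := hy
    rw [MonoidAlgebra.lift_apply] at h1
    have h2 : Finsupp.linearCombination ℤ (fun h : H0 => E (C h)) y.coeff = 0 := by
      rw [Finsupp.linearCombination_apply]
      exact h1
    have h3 : y.coeff = 0 := (linearIndependent_iff.1 hEC) _ h2
    exact MonoidAlgebra.coeff_injective (by rw [h3]; rfl)
  refine ⟨H0, hH0, Λ, iΛ, τ, x, p, F, iF, π, hτi, hnoe, hnoe2, hnzd, hnt, hxc, hx0, hxi, hFd, hπs, hπk,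
    fun h => ?_, hp, hpF⟩
  rw [hτe, hπE]

end PDT
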