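import Pool.Agent.Lib.PDT.ResFin
import Pool.Agent.Lib.PDT.LinGrp

/-!
# PDT/LinRes: finitely generated linear groups over any field are virtually residually `p`

Complete proof (Malcev, Platonov).  By `lg_subalg` (in `PDT/LinGrp`, any field) there is a finitely generated
`ℤ`-subalgebra `A ⊆ K` containing all the entries of all the `ρ(h)`.  So there are matrices `M h` over `A` with
`M (h h') = M h * M h'`, `M 1 = 1`, `M` injective (the inclusion `A → K` and `ρ` are injective).  `A` is a noetherian domain.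
Let `m` be a maximal ideal of `A`.  `A ⧸ m` is a field of finite type over `ℤ`, hence a finite `ℤ`-module
(`ℤ` is a Jacobson ring: `finite_of_finite_type_of_isJacobsonRing`), hence a finite field [if its characteristic
is `0` then `ℚ` embeds in it, a submodule of a finite `ℤ`-module; or: a finite `ℤ`-module of positive characteristic is finite; see also
`PDT/NoetherNorm`, `PDT/DvrExists` for similar arguments].  Let `p` be its characteristic (prime), so
`(p : A) ∈ m`.  For `k : ℕ`, `A ⧸ m^k` is finite (`Ideal.finite_quotient_pow`).  Let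
`N_k = {h | ∀ i j, M h i j - (1 : Matrix _ _ _) i j ∈ m^k}`, the kernel of `H → (Matrix (Fin N) (Fin N) (A ⧸ m^k))ˣ` (or of the monoid
homomorphism to the matrices), a normal subgroup of finite index.  `H0 = N_1`.
(1) If `h ∈ N_k`, `k ≥ 1`, then `h^p ∈ N_(k+1)`: `M h = 1 + X`, `X` with entries in `m^k`;
`(1 + X)^p = 1 + p X + Σ_{i≥2} binom(p,i) X^i` (`Commute.add_pow`, `1` and `X` commute), `p X` has entries in
`m^(k+1)` and so has `X^i`, `i ≥ 2` (entries in `m^(2k)`).  [Simpler: `(1 + X)^p - 1 = X * Σ_{i<p} (1 + X)^i` (`geom_sum_mul`-type identity) and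
`Σ_{i<p} (1+X)^i ≡ p ≡ 0 mod m`.]
(2) So for `h ∈ N_1`, `h^(p^k) ∈ N_(k+1)`: the subgroup `N_(k+1)` of `H0` satisfies `PQ p`
(as a subgroup of `H0`: `(N_(k+1)).subgroupOf H0`, normal of finite index).
(3) If `h ∈ N_k` for all `k` then `M h - 1` has entries in `⋂ m^k = 0` (`Ideal.iInf_pow_eq_bot_of_isDomain`), `M h = 1`, `h = 1`.
-/

namespace PDT

open Function

universe u v

private theorem LinRes_jac : IsJacobsonRing ℤ := by
  rw [isJacobsonRing_iff_prime_eq]
  intro P hP
  by_cases h : P = ⊥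
  · subst h
    rw [eq_bot_iff]
    intro x hx
    rw [Ideal.mem_jacobson_bot] at hx
    have h1 := Int.isUnit_iff.1 (hx x)
    have h2 : x = 0 := by
      rcases h1 with h1 | h1 <;> nlinarith [mul_self_nonneg x]
    rw [h2]
    exact Ideal.zero_mem _
  · have : P.IsMaximal := hP.isMaximal h
    exact Ideal.jacobson_eq_self_of_isMaximal

/-- A maximal ideal of a ring of finite type over `ℤ` has a finite residue field. -/
private theorem LinRes_max (A : Type v) [CommRing A] (hft : Algebra.FiniteType ℤ A) (m : Ideal A)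
    (hm : m.IsMaximal) : ∃ p : ℕ, p.Prime ∧ (p : A) ∈ m ∧ Finite (A ⧸ m) := by
  let _ : Field (A ⧸ m) := Ideal.Quotient.field m
  have hJ : IsJacobsonRing ℤ := LinRes_jac
  have hft' : Algebra.FiniteType ℤ (A ⧸ m) :=
    hft.of_surjective (Ideal.Quotient.mkₐ ℤ m) (Ideal.Quotient.mkₐ_surjective ℤ m)
  have hfin : Module.Finite ℤ (A ⧸ m) := finite_of_finite_type_of_isJacobsonRing ℤ (A ⧸ m)
  obtain ⟨p, hp⟩ := CharP.exists (A ⧸ m)
  rcases CharP.char_is_prime_or_zero (A ⧸ m) p with hpp | hp0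
  · have hp1 : (p : A ⧸ m) = 0 := CharP.cast_eq_zero _ _
    refine ⟨p, hpp, ?_, ?_⟩
    · rw [← Ideal.Quotient.eq_zero_iff_mem, map_natCast]
      exact hp1
    · refine Module.finite_of_fg_torsion _ ?_
      intro y
      refine ⟨⟨(p : ℤ), mem_nonZeroDivisors_of_ne_zero (by exact_mod_cast hpp.ne_zero)⟩, ?_⟩
      change (p : ℤ) • y = 0
      rw [zsmul_eq_mul, Int.cast_natCast, hp1, zero_mul]
  · exfalso
    subst hp0
    have : CharZero (A ⧸ m) := CharP.charP_to_charZero _
    exact Int.not_isField (isField_of_isIntegral_of_isField (R := ℤ) (S := A ⧸ m)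
      (RingHom.injective_int (algebraMap ℤ (A ⧸ m))) (Field.toIsField _))

/-- The congruence subgroup. -/
private noncomputable def LinRes_f {A : Type v} [CommRing A] {H : Type u} [Group H] {N : ℕ}
    (r : H →* Matrix (Fin N) (Fin N) A) (I : Ideal A) : H →* (Matrix (Fin N) (Fin N) (A ⧸ I))ˣ :=
  (((Ideal.Quotient.mk I).mapMatrix : Matrix (Fin N) (Fin N) A →+* _).toMonoidHom.comp
    r).toHomUnits

private theorem LinRes_mem {A : Type v} [CommRing A] {H : Type u} [Group H] {N : ℕ}
    (r : H →* Matrix (Fin N) (Fin N) A) (I : Ideal A) (h : H) :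
    h ∈ (LinRes_f r I).ker ↔ ∀ i j, (r h - 1) i j ∈ I := by
  rw [MonoidHom.mem_ker]
  have h1 : LinRes_f r I h = 1 ↔ (Ideal.Quotient.mk I).mapMatrix (r h) = 1 := by
    constructor
    · intro h2
      exact congrArg Units.val h2
    · intro h2
      exact Units.ext h2
  rw [h1]
  have h3 : (Ideal.Quotient.mk I).mapMatrix (r h) = 1 ↔
      (Ideal.Quotient.mk I).mapMatrix (r h - 1) = 0 := by
    rw [map_sub, map_one, sub_eq_zero]
  rw [h3]
  constructor
  · intro h4 i j
    have h5 := congrArg (fun M => M i j) h4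
    change Ideal.Quotient.mk I ((r h - 1) i j) = 0 at h5
    exact Ideal.Quotient.eq_zero_iff_mem.1 h5
  · intro h4
    ext i j
    change Ideal.Quotient.mk I ((r h - 1) i j) = 0
    exact Ideal.Quotient.eq_zero_iff_mem.2 (h4 i j)

private theorem LinRes_fin {A : Type v} [CommRing A] {H : Type u} [Group H] {N : ℕ}
    (r : H →* Matrix (Fin N) (Fin N) A) (I : Ideal A) (hI : Finite (A ⧸ I)) :
    (LinRes_f r I).ker.FiniteIndex := by
  have : Finite (Matrix (Fin N) (Fin N) (A ⧸ I)) := by unfold Matrix; infer_instance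
  infer_instance

/-- The `p`-th power raises the level. -/
private theorem LinRes_step {A : Type v} [CommRing A] {H : Type u} [Group H] {N : ℕ}
    (r : H →* Matrix (Fin N) (Fin N) A) (m : Ideal A) (p : ℕ) (hp : (p : A) ∈ m) (k : ℕ) (h : H)
    (h1 : h ∈ (LinRes_f r (m ^ 1)).ker) (hk : h ∈ (LinRes_f r (m ^ k)).ker) :
    h ^ p ∈ (LinRes_f r (m ^ (k + 1))).ker := by
  rw [LinRes_mem] at h1 hk ⊢
  rw [pow_one] at h1
  have h2 : (Ideal.Quotient.mk m).mapMatrix (r h) = 1 := by
    have h3 : (Ideal.Quotient.mk m).mapMatrix (r h - 1) = 0 := by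
      ext i j
      change Ideal.Quotient.mk m ((r h - 1) i j) = 0
      exact Ideal.Quotient.eq_zero_iff_mem.2 (h1 i j)
    rwa [map_sub, map_one, sub_eq_zero] at h3
  have h4 : ∀ i j, (∑ l ∈ Finset.range p, r h ^ l) i j ∈ m := by
    intro i j
    have h5 : (Ideal.Quotient.mk m).mapMatrix (∑ l ∈ Finset.range p, r h ^ l) = 0 := by
      rw [map_sum]
      have h6 : ∀ l ∈ Finset.range p, (Ideal.Quotient.mk m).mapMatrix (r h ^ l) = 1 := by
        intro l _
        rw [map_pow, h2, one_pow]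
      rw [Finset.sum_congr rfl h6, Finset.sum_const, Finset.card_range]
      have h7 : (p : A ⧸ m) = 0 := by
        rw [← map_natCast (Ideal.Quotient.mk m)]
        exact Ideal.Quotient.eq_zero_iff_mem.2 hp
      ext a b
      rw [Matrix.smul_apply, nsmul_eq_mul, h7, zero_mul]
      rfl
    have h8 := congrArg (fun M => M i j) h5
    change Ideal.Quotient.mk m ((∑ l ∈ Finset.range p, r h ^ l) i j) = 0 at h8
    exact Ideal.Quotient.eq_zero_iff_mem.1 h8
  intro i j
  rw [map_pow, ← geom_sum_mul, Matrix.mul_apply, pow_succ, mul_comm (m ^ k) m]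
  refine Ideal.sum_mem _ ?_
  intro l _
  exact Ideal.mul_mem_mul (h4 i l) (hk l j)

theorem lin_res {H : Type u} [Group H] (hfg : Group.FG H) {K : Type v} [Field K] (N : ℕ)
    (ρ : H →* GL (Fin N) K) (hρ : Injective ρ) :
    ∃ (p : ℕ) (H0 : Subgroup H), p.Prime ∧ H0.FiniteIndex ∧ ResP p H0 := by
  obtain ⟨A, hAfg, hA⟩ := lg_subalg hfg N ρ
  obtain ⟨r, hr⟩ := lg_rep N ρ hρ A hA
  have hft : Algebra.FiniteType ℤ A := Subalgebra.fg_iff_finiteType A |>.1 hAfg
  have hnoe : IsNoetherianRing A := Algebra.FiniteType.isNoetherianRing ℤ A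
  obtain ⟨m, hm⟩ := Ideal.exists_maximal A
  obtain ⟨p, hp, hpm, hfin⟩ := LinRes_max A hft m hm
  have hfink : ∀ k, Finite (A ⧸ m ^ k) := fun k =>
    Ideal.finite_quotient_pow (IsNoetherian.noetherian _) k
  have hpow : ∀ (h : H), h ∈ (LinRes_f r (m ^ 1)).ker → ∀ k,
      h ^ p ^ k ∈ (LinRes_f r (m ^ (k + 1))).ker := by
    intro h hh k
    induction k with
    | zero =>
      have h1 : h ^ p ^ 0 = h := by rw [pow_zero, pow_one]
      rw [h1]
      exact hh
    | succ k ih =>
      have h1 : h ^ p ^ (k + 1) = (h ^ p ^ k) ^ p := by rw [← pow_mul, ← pow_succ]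
      rw [h1]
      exact LinRes_step r m p hpm (k + 1) _ (Subgroup.pow_mem _ hh _) ih
  refine ⟨p, (LinRes_f r (m ^ 1)).ker, hp, LinRes_fin r _ (hfink 1), ?_⟩
  rintro ⟨h, hh⟩ hne
  have hex : ∃ k, h ∉ (LinRes_f r (m ^ k)).ker := by
    by_contra hcon
    push Not at hcon
    apply hne
    have h1 : r h = 1 := by
      rw [← sub_eq_zero]
      ext i j
      have h2 : (r h - 1) i j ∈ (⨅ k : ℕ, m ^ k : Ideal A) := by
        rw [Ideal.mem_iInf]
        intro k
        exact (LinRes_mem r (m ^ k) h).1 (hcon k) i j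
      rw [Ideal.iInf_pow_eq_bot_of_isDomain m hm.ne_top] at h2
      rw [(Ideal.mem_bot.1 h2)]
      rfl
    have h3 : h = 1 := hr (by rw [h1, map_one])
    exact Subtype.ext h3
  obtain ⟨k, hk⟩ := hex
  refine ⟨((LinRes_f r (m ^ k)).ker).subgroupOf (LinRes_f r (m ^ 1)).ker, ⟨?_, ?_, ?_⟩, ?_⟩
  · infer_instance
  · have := LinRes_fin r _ (hfink k)
    infer_instance
  · rintro ⟨x, hx⟩
    refine ⟨k, ?_⟩
    rw [Subgroup.mem_subgroupOf]
    change x ^ p ^ k ∈ (LinRes_f r (m ^ k)).ker
    have h1 := hpow x hx k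
    rw [LinRes_mem] at h1 ⊢
    exact fun i j => Ideal.pow_le_pow_right (Nat.le_succ k) (h1 i j)
  · rw [Subgroup.mem_subgroupOf]
    exact hk

end PDT
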