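import Mathlib

/-!
# PDT/OreFrac: the skew field of fractions of a noetherian domain

Complete proof.  A left noetherian domain satisfies the left Ore condition: for `a, s ≠ 0` there are
`(b, t) ≠ 0`, `t ≠ 0`, with `t a = b s` (Mathlib: `OreLocalization.nonempty_oreSet_of_strongRankCondition`,
noetherian rings satisfy the strong rank condition; or directly: the left ideals
`Σ_{i ≤ n} Λ s a^i` form an increasing sequence).  So the nonzero elements form an Ore set and
`E = OreLocalization (nonZeroDivisors Λ) Λ` is a division ring (Mathlib instance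
`OreLocalization` + `nonZeroDivisors`), `ι` the canonical map `r ↦ r /ₒ 1`, injective; every element
is `r /ₒ s`, i.e. `ι(s)⁻¹ ι(r)`.  Common left denominators for finitely many elements: induction on `n`:
given `s` for `e_0, …, e_{n-1}` and `ι(s') e_n = ι(a')`, choose by Ore `t s = b s' ≠ 0`; then `t s`
works for all.  Right denominators: `e = ι(s)⁻¹ ι(a)`; the right Ore condition (the left Ore condition
for the noetherian domain `Λᵐᵒᵖ`) gives `a t = s b`, `t ≠ 0`, so `e ι(t) = ι(b)`; common right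
denominators by the same induction.  (Check which side Mathlib's `OreLocalization` uses; by symmetry of
the statement it does not matter: if it is the other one, apply the construction to `Λᵐᵒᵖ` and take
`Eᵐᵒᵖ`.)
-/

namespace PDT

open Function

universe v

/-- the left Ore condition -/
private theorem OreFrac_left (Λ : Type v) [Ring Λ] [IsNoetherianRing Λ] [NoZeroDivisors Λ]
    [Nontrivial Λ] (a s : Λ) (hs : s ≠ 0) : ∃ b t : Λ, t ≠ 0 ∧ t * a = b * s := by
  have : IsDomain Λ := NoZeroDivisors.to_isDomain Λ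
  obtain ⟨h⟩ := nonempty_oreSet_of_strongRankCondition (R := Λ)
  have := OreLocalization.ore_eq a (⟨s, mem_nonZeroDivisors_of_ne_zero hs⟩ : nonZeroDivisors Λ)
  exact ⟨_, _, nonZeroDivisors.coe_ne_zero _, this⟩

/-- the right Ore condition -/
private theorem OreFrac_right (Λ : Type v) [Ring Λ] [IsNoetherianRing Λᵐᵒᵖ] [NoZeroDivisors Λ]
    [Nontrivial Λ] (a s : Λ) (hs : s ≠ 0) : ∃ b t : Λ, t ≠ 0 ∧ a * t = s * b := by
  obtain ⟨b, t, ht, h⟩ := OreFrac_left Λᵐᵒᵖ (MulOpposite.op a) (MulOpposite.op s)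
    (fun h => hs (MulOpposite.op_injective h))
  refine ⟨b.unop, t.unop, fun h' => ht (MulOpposite.unop_injective h'), ?_⟩
  have := congrArg MulOpposite.unop h
  simpa using this

theorem ore_frac (Λ : Type v) [Ring Λ] [IsNoetherianRing Λ] [IsNoetherianRing Λᵐᵒᵖ]
    [NoZeroDivisors Λ] [Nontrivial Λ] :
    ∃ (E : Type v) (_ : DivisionRing E) (ι : Λ →+* E), Injective ι ∧
      (∀ (n : ℕ) (e : Fin n → E), ∃ s : Λ, s ≠ 0 ∧ ∀ i, ∃ a, ι s * e i = ι a) ∧
      (∀ (n : ℕ) (e : Fin n → E), ∃ s : Λ, s ≠ 0 ∧ ∀ i, ∃ a, e i * ι s = ι a) := by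
  have : IsDomain Λ := NoZeroDivisors.to_isDomain Λ
  obtain ⟨hO⟩ := nonempty_oreSet_of_strongRankCondition (R := Λ)
  let ι : Λ →+* OreLocalization (nonZeroDivisors Λ) Λ := OreLocalization.numeratorRingHom
  have hι : Injective ι := OreLocalization.numeratorHom_inj inf_le_left
  -- left fractions
  have hl : ∀ e : OreLocalization (nonZeroDivisors Λ) Λ, ∃ s : Λ, s ≠ 0 ∧ ∃ a, ι s * e = ι a := by
    intro e
    induction e with
    | _ r s =>
      refine ⟨s, nonZeroDivisors.coe_ne_zero s, r, ?_⟩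
      exact OreLocalization.mul_cancel
  have hr : ∀ e : OreLocalization (nonZeroDivisors Λ) Λ, ∃ s : Λ, s ≠ 0 ∧ ∃ a, e * ι s = ι a := by
    intro e
    obtain ⟨s, hs, a, ha⟩ := hl e
    obtain ⟨b, t, ht, h⟩ := OreFrac_right Λ a s hs
    refine ⟨t, ht, b, ?_⟩
    have hs' : ι s ≠ 0 := fun h0 => hs (hι (by rw [h0, map_zero]))
    refine mul_left_cancel₀ hs' ?_
    rw [← mul_assoc, ha, ← map_mul, ← map_mul, h]
  refine ⟨OreLocalization (nonZeroDivisors Λ) Λ, inferInstance, ι, hι, ?_, ?_⟩
  · intro n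
    induction n with
    | zero => exact fun e => ⟨1, one_ne_zero, fun i => i.elim0⟩
    | succ n ih =>
      intro e
      obtain ⟨s, hs, h⟩ := ih (fun i => e i.succ)
      obtain ⟨s', hs', a', ha'⟩ := hl (e 0)
      obtain ⟨b, t, ht, hb⟩ := OreFrac_left Λ s s' hs'
      refine ⟨t * s, mul_ne_zero ht hs, fun i => ?_⟩
      refine Fin.cases ?_ (fun j => ?_) i
      · exact ⟨b * a', by rw [hb, map_mul, mul_assoc, ha', map_mul]⟩
      · obtain ⟨a, ha⟩ := h j
        exact ⟨t * a, by rw [map_mul, mul_assoc, ha, map_mul]⟩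
  · intro n
    induction n with
    | zero => exact fun e => ⟨1, one_ne_zero, fun i => i.elim0⟩
    | succ n ih =>
      intro e
      obtain ⟨s, hs, h⟩ := ih (fun i => e i.succ)
      obtain ⟨s', hs', a', ha'⟩ := hr (e 0)
      obtain ⟨b, t, ht, hb⟩ := OreFrac_right Λ s s' hs'
      refine ⟨s * t, mul_ne_zero hs ht, fun i => ?_⟩
      refine Fin.cases ?_ (fun j => ?_) i
      · exact ⟨a' * b, by rw [hb, map_mul, ← mul_assoc, ha', map_mul]⟩
      · obtain ⟨a, ha⟩ := h j
        exact ⟨a * t, by rw [map_mul, ← mul_assoc, ha, map_mul]⟩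

end PDT
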