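import Pool.Agent.Lib.PDT.Base
import Pool.Agent.Lib.PDT.Base3
import Pool.Agent.Lib.PDT.IdemRank

/-!
# PDT/SwanAb: idempotent matrices over the integral group ring of a finite abelian group

`C` a finite commutative group, `A` an idempotent matrix over `ℤ[C]`.  Then the trace of `A` is an
integer (its coefficients at `c ≠ 1` vanish).

Complete proof.  (1) `ℤ[C]` has no idempotents except `0, 1`: let `e² = e`; multiplication by `e` on
`ℤ[C] ≅ ℤ^C` is an idempotent integer matrix `B(g, g') = e(g⁻¹ g')` with trace `|C| e(1)`; by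
`idem_rank` its rank (over `ℚ`) is `|C| e(1)`, between `0` and `|C|`, so `e(1) ∈ {0, 1}`
and the rank is `0` or `|C|`; in the first case `B = 0` and `e = 0`; in the second, `B_ℚ` is an
invertible idempotent, so `B = 1` and `e = 1`.
(2) Let `R = ℤ[C]` (a commutative ring) and `φ(X) = det (1 + (X - 1) A) ∈ R[X]`, the determinant of
the matrix `1 + (X - 1) • A.map C`.  In `R[X][Y]` (or evaluating at two commuting elements of any
commutative `R`-algebra): `(1 + (X-1) A)(1 + (Y-1) A) = 1 + (XY - 1) A` as `A² = A`, so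
`φ(X) φ(Y) = φ(XY)`: comparing coefficients of `X^i Y^j`: `e_i e_j = 0` for `i ≠ j`, `e_i² = e_i`, where
`φ = Σ e_i X^i`; and `Σ e_i = φ(1) = det 1 = 1`.  By (1) each `e_i` is `0` or `1`; exactly one of them,
`e_r`, is `1` (orthogonality and the sum).  So `φ = X^r`.
(3) The derivative of `φ` at `X = 1` is `trace A` (`Matrix.derivative_det_one_add_X_smul` or
`det (1 + X • A)` has linear coefficient `trace A`: `Matrix.coeff_det_one_add_X_smul_one`; substitute
`X → X + 1`: `φ(1 + X) = det (1 + X A) = (1 + X)^r`, linear coefficient `r`).  So `trace A = r`.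
(To use `Matrix.det` over a commutative ring: `MonoidAlgebra ℤ C` is a `CommRing` for commutative `C`.)
-/

namespace PDT

open Polynomial in
private theorem SwanAb_coeff_mul {C : Type*} [CommGroup C] [Fintype C] (x y : Zg C) (m : C) :
    (x * y).coeff m = ∑ g, x.coeff g * y.coeff (g⁻¹ * m) := by
  classical
  rw [MonoidAlgebra.coeff_mul, Finsupp.sum_fintype _ _ (by simp)]
  refine Finset.sum_congr rfl fun g _ => ?_
  rw [Finsupp.sum_fintype _ _ (by simp)]
  rw [Finset.sum_eq_single (g⁻¹ * m)]
  · rw [if_pos (by group)]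
  · intro h _ hh
    rw [if_neg]
    rintro rfl
    exact hh (by group)
  · intro h
    exact absurd (Finset.mem_univ _) h

private theorem SwanAb_rank_zero {N : Type*} [Fintype N] [DecidableEq N] (B : Matrix N N ℚ)
    (h : B.rank = 0) : B = 0 := by
  rw [Matrix.rank, Submodule.finrank_eq_zero, LinearMap.range_eq_bot] at h
  ext i j
  have h1 := congrArg (fun f => f (Pi.single j 1) i) h
  simpa [Matrix.mulVecLin_apply, Matrix.mulVec_single] using h1

private theorem SwanAb_idem0 {C : Type*} [CommGroup C] [Fintype C] (e : Zg C) (he : e * e = e) :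
    (e.coeff 1 = 0 ∨ e.coeff 1 = 1) ∧ (e.coeff 1 = 0 → e = 0) := by
  classical
  set B : Matrix C C ℤ := Matrix.of fun g g' => e.coeff (g⁻¹ * g') with hBdef
  have hB : B * B = B := by
    ext g g'
    rw [Matrix.mul_apply]
    simp only [hBdef, Matrix.of_apply]
    conv_rhs => rw [← he, SwanAb_coeff_mul]
    refine Fintype.sum_equiv (Equiv.mulLeft g⁻¹) _ _ fun x => ?_
    simp only [Equiv.coe_mulLeft]
    congr 2
    group
  have htr : B.trace = (Fintype.card C : ℤ) * e.coeff 1 := by
    rw [Matrix.trace]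
    simp [hBdef]
  have hr := idem_rank B hB ℚ
  rw [htr] at hr
  have hle : ((B.map (Int.cast : ℤ → ℚ)).rank : ℤ) ≤ Fintype.card C := by
    exact_mod_cast Matrix.rank_le_card_width _
  have hc : (0 : ℤ) < Fintype.card C := by
    exact_mod_cast Fintype.card_pos
  have h0 : 0 ≤ (Fintype.card C : ℤ) * e.coeff 1 := by
    rw [← hr]
    positivity
  have h1 : 0 ≤ e.coeff 1 := nonneg_of_mul_nonneg_right h0 hc
  have h2 : e.coeff 1 ≤ 1 := by
    rw [hr] at hle
    by_contra hcon
    push Not at hcon
    nlinarith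
  refine ⟨by omega, fun h3 => ?_⟩
  rw [h3, mul_zero] at hr
  have h4 := SwanAb_rank_zero _ (by exact_mod_cast hr)
  ext g
  have h5 := congrFun (congrFun h4 1) g
  simpa [hBdef] using h5

private theorem SwanAb_idem {C : Type*} [CommGroup C] [Fintype C] (e : Zg C) (he : e * e = e) :
    e = 0 ∨ e = 1 := by
  rcases (SwanAb_idem0 e he).1 with h | h
  · exact Or.inl ((SwanAb_idem0 e he).2 h)
  · right
    have h1 : (1 - e) * (1 - e) = 1 - e := by
      rw [mul_sub, mul_one, sub_mul, one_mul, he]
      simp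
    have h2 : (1 - e).coeff 1 = 0 := by
      rw [MonoidAlgebra.coeff_sub, Finsupp.sub_apply, MonoidAlgebra.coeff_one_one, h, sub_self]
    have h3 := (SwanAb_idem0 (1 - e) h1).2 h2
    rw [sub_eq_zero] at h3
    exact h3.symm

open Polynomial in
private theorem SwanAb_mulphi {R S : Type*} [CommRing R] [CommRing S] [Algebra R S]
    {n : Type*} [Fintype n] [DecidableEq n] (A : Matrix n n R) (hA : A * A = A) (s t : S) :
    aeval s (Matrix.det (1 + ((X : R[X]) - 1) • A.map C)) *
      aeval t (Matrix.det (1 + ((X : R[X]) - 1) • A.map C)) =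
    aeval (s * t) (Matrix.det (1 + ((X : R[X]) - 1) • A.map C)) := by
  have key : ∀ u : S, aeval u (Matrix.det (1 + ((X : R[X]) - 1) • A.map C)) =
      Matrix.det (1 + (u - 1) • A.map (algebraMap R S)) := by
    intro u
    rw [AlgHom.map_det]
    congr 1
    ext i j
    simp [Matrix.one_apply, apply_ite]
  rw [key, key, key, ← Matrix.det_mul]
  congr 1
  have h1 : A.map (algebraMap R S) * A.map (algebraMap R S) = A.map (algebraMap R S) := by
    rw [← Matrix.map_mul, hA]
  simp only [mul_add, add_mul, Matrix.smul_mul, Matrix.mul_smul, h1, mul_one, one_mul, smul_smul]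
  have h2 : s * t - 1 = (s - 1) + (t - 1) + (s - 1) * (t - 1) := by ring
  rw [h2, add_smul, add_smul, mul_comm (t - 1) (s - 1)]
  abel

open Polynomial in
private theorem SwanAb_orth {R : Type*} [CommRing R]
    {n : Type*} [Fintype n] [DecidableEq n] (A : Matrix n n R) (hA : A * A = A) (i j : ℕ) :
    (Matrix.det (1 + ((X : R[X]) - 1) • A.map C)).coeff i *
      (Matrix.det (1 + ((X : R[X]) - 1) • A.map C)).coeff j =
      if i = j then (Matrix.det (1 + ((X : R[X]) - 1) • A.map C)).coeff j else 0 := by
  have h := SwanAb_mulphi (S := R[X][X]) A hA (C X) X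
  generalize (Matrix.det (1 + ((X : R[X]) - 1) • A.map C)) = φ at h ⊢
  have h1 : aeval (C X : R[X][X]) φ = C φ := by
    have : (aeval (C X : R[X][X])) φ = C (aeval (X : R[X]) φ) := by
      rw [aeval_def, aeval_def, hom_eval₂]
      rfl
    rw [this, aeval_X_left_apply]
  have h2 : aeval (X : R[X][X]) φ = φ.map C := by
    rw [aeval_def, eval₂_eq_sum_range]
    conv_rhs => rw [φ.as_sum_range]
    simp only [Polynomial.map_sum, Polynomial.map_mul, Polynomial.map_pow, Polynomial.map_C,
      Polynomial.map_X, ← C_mul_X_pow_eq_monomial]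
    rfl
  have h3 : aeval (C X * X : R[X][X]) φ =
      ∑ k ∈ Finset.range (φ.natDegree + 1), C (C (φ.coeff k) * X ^ k) * X ^ k := by
    rw [aeval_def, eval₂_eq_sum_range]
    refine Finset.sum_congr rfl fun k _ => ?_
    rw [mul_pow, C_mul, C_pow, mul_assoc]
    rfl
  rw [h1, h2, h3] at h
  have e1 : ((C φ * φ.map C : R[X][X]).coeff j).coeff i = φ.coeff i * φ.coeff j := by
    rw [coeff_C_mul, coeff_map, coeff_mul_C]
  have h5 : ∀ k, (C (C (φ.coeff k) * X ^ k) * X ^ k : R[X][X]).coeff j =
      if j = k then C (φ.coeff k) * X ^ k else 0 := by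
    intro k
    rw [coeff_C_mul, coeff_X_pow]
    split_ifs <;> simp
  rw [← e1, h, finsetSum_coeff]
  simp only [h5]
  by_cases hj : j ∈ Finset.range (φ.natDegree + 1)
  · rw [Finset.sum_eq_single_of_mem j hj (fun k _ hk => by rw [if_neg (Ne.symm hk)]),
      if_pos rfl, coeff_C_mul, coeff_X_pow]
    split_ifs <;> simp
  · have : φ.coeff j = 0 := by
      apply coeff_eq_zero_of_natDegree_lt
      simpa using hj
    rw [this, ite_self, Finset.sum_eq_zero, coeff_zero]
    intro k hk
    rw [if_neg]
    rintro rfl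
    exact hj hk

open Polynomial in
theorem swan_ab {C : Type*} [CommGroup C] [Finite C] {n : Type*} [Fintype n] [DecidableEq n]
    (A : Matrix n n (Zg C)) (hA : A * A = A) (c : C) (hc : c ≠ 1) :
    ∑ i, (A i i).coeff c = 0 := by
  classical
  have := Fintype.ofFinite C
  set φ : (Zg C)[X] := Matrix.det (1 + ((X : (Zg C)[X]) - 1) • A.map Polynomial.C) with hφ
  have horth := SwanAb_orth A hA
  rw [← hφ] at horth
  have h1 : φ.eval 1 = 1 := by
    rw [hφ, ← coe_evalRingHom, RingHom.map_det]
    have : (evalRingHom (1 : Zg C)).mapMatrix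
        (1 + ((X : (Zg C)[X]) - 1) • A.map Polynomial.C) = 1 := by
      refine Matrix.ext fun i j => ?_
      rcases eq_or_ne i j with rfl | hij
      · simp
      · simp [Matrix.one_apply_ne hij]
    rw [this, Matrix.det_one]
  have hid : ∀ i, φ.coeff i = 0 ∨ φ.coeff i = 1 := fun i =>
    SwanAb_idem _ (by rw [horth, if_pos rfl])
  obtain ⟨r, hr⟩ : ∃ r, φ.coeff r = 1 := by
    by_contra hcon
    push Not at hcon
    have h0 : φ = 0 := by
      ext1 i
      exact (hid i).resolve_right (hcon i)
    rw [h0, eval_zero] at h1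
    exact zero_ne_one h1
  have hφr : φ = X ^ r := by
    ext1 i
    rw [coeff_X_pow]
    split_ifs with h
    · rw [h, hr]
    · have := horth i r
      rwa [hr, mul_one, if_neg h] at this
  have hcomp : φ.comp (X + 1) = Matrix.det (1 + (X : (Zg C)[X]) • A.map Polynomial.C) := by
    rw [hφ, ← coe_compRingHom_apply, RingHom.map_det]
    congr 1
    refine Matrix.ext fun i j => ?_
    rcases eq_or_ne i j with rfl | hij
    · simp
    · simp [Matrix.one_apply_ne hij]
  have htr : A.trace = (r : Zg C) := by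
    rw [← Matrix.coeff_det_one_add_X_smul_one, ← hcomp, hφr, X_pow_comp, coeff_X_add_one_pow]
    simp
  have h2 : (A.trace).coeff c = ∑ i, (A i i).coeff c := by
    rw [Matrix.trace]
    simp [MonoidAlgebra.coeff_sum]
  rw [← h2, htr, MonoidAlgebra.coeff_natCast, Finsupp.single_apply, if_neg (Ne.symm hc)]

end PDT
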