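import Pool.Agent.Lib.PDT.Base
import Pool.Agent.Lib.PDT.Base3
import Pool.Agent.Lib.PDT.SwanAb

/-!
# PDT/SwanGen: Swan's theorem for finite groups, in the form: `Σ_{g ≠ 1} t(g) = 0`

`A` an idempotent matrix over `ℤ[F]`, `F` finite, `t(g) = Σ_i (A i i)(g)`.  Then
`aug (trace A) = Σ_g t(g) = t(1)`.

Complete proof.  Fix `g ≠ 1` and let `C = Subgroup.zpowers g`, a finite commutative group.  Let `X` be
a set of representatives of the right cosets `C x` of `C` in `F` (e.g. inverses of `Quotient.out`).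
Consider the matrix over `ℤ[C]` indexed by `X × Fin k`:
  `A'_{(x,i),(x',j)} = Σ_{c ∈ C} (A i j)(x⁻¹ c x') · el c`.
It is idempotent: `(A' A')_{(x,i),(x'',l)}(c'') = Σ_{x',j} Σ_{c c' = c''} A_ij(x⁻¹ c x') A_jl(x'⁻¹ c' x'')`;
substitute `z = c x'` (every element `z` of `F` is uniquely `c x'`): it is
`Σ_j Σ_{z ∈ F} A_ij(x⁻¹ z) A_jl(z⁻¹ c'' x'') = Σ_j (A_ij A_jl)(x⁻¹ c'' x'') = A_il(x⁻¹ c'' x'')`.
By `swan_ab` at `c = g`: `Σ_{x ∈ X} t(x⁻¹ g x) = 0`.  For `y = c x` (`c ∈ C`): `y⁻¹ g y = x⁻¹ g x`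
(`C` is commutative), so `Σ_{y ∈ F} t(y⁻¹ g y) = |C| Σ_{x ∈ X} t(x⁻¹ g x) = 0`.
Sum over all `g ≠ 1`: `0 = Σ_{g ≠ 1} Σ_y t(y⁻¹ g y) = Σ_y Σ_{g ≠ 1} t(g) = |F| Σ_{g ≠ 1} t(g)`
(conjugation by `y` permutes `F ∖ {1}`), so `Σ_{g ≠ 1} t(g) = 0`.
-/

namespace PDT

section

variable {F : Type*} [Group F] (C : Subgroup F)

theorem sg_smul (f : F) (q : F ⧸ C) : f • q = ((f * q.out : F) : F ⧸ C) := by
  conv_lhs => rw [← QuotientGroup.out_eq' q]
  rfl

/-- The cocycle of the action on the cosets. -/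
noncomputable def sgK (f : F) (q : F ⧸ C) : C :=
  ⟨(f • q).out⁻¹ * (f * q.out), by
    rw [← QuotientGroup.eq, QuotientGroup.out_eq', sg_smul]⟩

theorem sgK_mul (f f' : F) (q : F ⧸ C) :
    sgK C (f * f') q = sgK C f (f' • q) * sgK C f' q := by
  apply Subtype.ext
  simp only [sgK, Subgroup.coe_mul, mul_smul]
  group

theorem sgK_one (q : F ⧸ C) : sgK C 1 q = 1 := by
  apply Subtype.ext
  simp [sgK]

open Classical in
/-- The induced representation by monomial matrices. -/
noncomputable def sgRep [Fintype (F ⧸ C)] : F →* Matrix (F ⧸ C) (F ⧸ C) (Zg C) where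
  toFun f := Matrix.of fun q q' => if f • q' = q then el (sgK C f q') else 0
  map_one' := by
    ext1 q q'
    simp only [Matrix.of_apply, one_smul, Matrix.one_apply, sgK_one, el_one]
    by_cases h : q' = q
    · rw [if_pos h, if_pos h.symm]
    · rw [if_neg h, if_neg (Ne.symm h)]
  map_mul' f f' := by
    ext1 q q''
    rw [Matrix.mul_apply, Finset.sum_eq_single (f' • q'')]
    · simp only [Matrix.of_apply, mul_smul, if_true]
      by_cases h : f • f' • q'' = q
      · rw [if_pos h, if_pos h, sgK_mul, el_mul]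
      · rw [if_neg h, if_neg h, zero_mul]
    · intro b _ hb
      simp only [Matrix.of_apply]
      rw [if_neg (Ne.symm hb), mul_zero]
    · intro h
      exact absurd (Finset.mem_univ _) h

open Classical in
/-- The induced representation of the group ring. -/
noncomputable def sgPsi [Fintype (F ⧸ C)] : Zg F →+* Matrix (F ⧸ C) (F ⧸ C) (Zg C) :=
  (MonoidAlgebra.lift ℤ (Matrix (F ⧸ C) (F ⧸ C) (Zg C)) F (sgRep C)).toRingHom

open Classical in
theorem sgPsi_el [Fintype (F ⧸ C)] (f : F) : sgPsi C (el f) = sgRep C f := by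
  change MonoidAlgebra.lift ℤ (Matrix (F ⧸ C) (F ⧸ C) (Zg C)) F (sgRep C)
    (MonoidAlgebra.single f 1) = sgRep C f
  rw [MonoidAlgebra.lift_single, one_smul]

/-- coefficients, as additive homomorphisms -/
noncomputable def sgCo {G : Type*} [Group G] (g : G) : Zg G →+ ℤ :=
  zl fun x => by classical exact if x = g then 1 else 0

theorem sgCo_eq {G : Type*} [Group G] (g : G) (y : Zg G) : sgCo g y = y.coeff g := by
  classical
  unfold sgCo
  rw [zl_apply, Finsupp.sum_eq_single g]
  · simp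
  · intro b _ hb
    simp [hb]
  · intro _
    simp

theorem sg_coeff [Fintype (F ⧸ C)] (y : Zg F) (q : F ⧸ C) (c : C) :
    (sgPsi C y q q).coeff c = y.coeff (q.out * c * q.out⁻¹) := by
  classical
  rw [← sgCo_eq, ← sgCo_eq]
  have h : (sgCo c).comp ((Matrix.entryAddMonoidHom (Zg C) q q).comp
      (sgPsi C).toAddMonoidHom) = sgCo (q.out * (c : F) * q.out⁻¹) := by
    apply zhom_ext
    intro f
    change sgCo c (sgPsi C (el f) q q) = sgCo (q.out * (c : F) * q.out⁻¹) (el f)
    rw [sgPsi_el]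
    change sgCo c (if f • q = q then el (sgK C f q) else 0) = _
    have h1 : sgCo (q.out * (c : F) * q.out⁻¹) (el f) =
        if f = q.out * (c : F) * q.out⁻¹ then 1 else 0 := by
      unfold sgCo
      rw [zl_el]
    rw [h1]
    by_cases h2 : f = q.out * (c : F) * q.out⁻¹
    · have h3 : f • q = q := by
        rw [sg_smul, h2]
        simp only [inv_mul_cancel_right]
        conv_rhs => rw [← QuotientGroup.out_eq' q]
        rw [QuotientGroup.eq]
        simp
      have h4 : sgK C f q = c := by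
        apply Subtype.ext
        simp only [sgK]
        rw [h3]
        rw [h2]
        group
      rw [if_pos h2, if_pos h3, h4]
      unfold sgCo
      rw [zl_el]
      simp
    · rw [if_neg h2]
      by_cases h3 : f • q = q
      · rw [if_pos h3]
        unfold sgCo
        rw [zl_el, if_neg]
        intro h4
        apply h2
        rw [← h4]
        simp only [sgK]
        rw [h3]
        group
      · rw [if_neg h3, map_zero]
  exact DFunLike.congr_fun h y

/-- every element is uniquely a representative times an element of `C` -/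
noncomputable def sgEquiv : (F ⧸ C) × C ≃ F where
  toFun x := x.1.out * x.2
  invFun y := ((y : F ⧸ C), ⟨(y : F ⧸ C).out⁻¹ * y, by
    rw [← QuotientGroup.eq, QuotientGroup.out_eq']⟩)
  left_inv x := by
    obtain ⟨q, c⟩ := x
    have h : ((q.out * (c : F) : F) : F ⧸ C) = q := by
      conv_rhs => rw [← QuotientGroup.out_eq' q]
      rw [QuotientGroup.eq]
      simp
    apply Prod.ext
    · exact h
    · apply Subtype.ext
      change ((q.out * (c : F) : F) : F ⧸ C).out⁻¹ * (q.out * (c : F)) = c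
      rw [h]
      group
  right_inv y := by
    change (y : F ⧸ C).out * ((y : F ⧸ C).out⁻¹ * y) = y
    group

end

theorem sg_zero {F : Type*} [Group F] [Fintype F] {k : ℕ} (A : Matrix (Fin k) (Fin k) (Zg F))
    (hA : A * A = A) (g : F) (hg : g ≠ 1) :
    ∑ y : F, ∑ i, (A i i).coeff (y * g * y⁻¹) = 0 := by
  classical
  let C := Subgroup.zpowers g
  have hcomm : ∀ a b : C, a * b = b * a := by
    rintro ⟨a, m, rfl⟩ ⟨b, n, rfl⟩
    apply Subtype.ext
    change g ^ m * g ^ n = g ^ n * g ^ m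
    rw [← zpow_add, ← zpow_add, add_comm]
  letI iC : CommGroup C := { (inferInstance : Group C) with mul_comm := hcomm }
  let A' : Matrix (Fin k × (F ⧸ C)) (Fin k × (F ⧸ C)) (Zg C) :=
    Matrix.compRingEquiv (Fin k) (F ⧸ C) (Zg C) ((sgPsi C).mapMatrix A)
  have hA' : A' * A' = A' := by
    change Matrix.compRingEquiv (Fin k) (F ⧸ C) (Zg C) ((sgPsi C).mapMatrix A) *
      Matrix.compRingEquiv (Fin k) (F ⧸ C) (Zg C) ((sgPsi C).mapMatrix A) =
      Matrix.compRingEquiv (Fin k) (F ⧸ C) (Zg C) ((sgPsi C).mapMatrix A)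
    rw [← map_mul, ← map_mul, hA]
  have hgC : (⟨g, Subgroup.mem_zpowers g⟩ : C) ≠ 1 := by
    intro h
    exact hg (congrArg Subtype.val h)
  have h1 := swan_ab A' hA' ⟨g, Subgroup.mem_zpowers g⟩ hgC
  have h2 : ∀ (i : Fin k) (q : F ⧸ C), (A' (i, q) (i, q)).coeff
      (⟨g, Subgroup.mem_zpowers g⟩ : C) = (A i i).coeff (q.out * g * q.out⁻¹) := by
    intro i q
    exact sg_coeff C (A i i) q ⟨g, Subgroup.mem_zpowers g⟩
  rw [Fintype.sum_prod_type] at h1
  simp only [h2] at h1
  rw [Finset.sum_comm] at h1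
  rw [← (sgEquiv C).sum_comp, Fintype.sum_prod_type]
  have h3 : ∀ (q : F ⧸ C) (c : C), ∑ i, (A i i).coeff
      (sgEquiv C (q, c) * g * (sgEquiv C (q, c))⁻¹) = ∑ i, (A i i).coeff (q.out * g * q.out⁻¹) := by
    intro q c
    have h4 : sgEquiv C (q, c) * g * (sgEquiv C (q, c))⁻¹ = q.out * g * q.out⁻¹ := by
      change q.out * (c : F) * g * (q.out * (c : F))⁻¹ = q.out * g * q.out⁻¹
      have h5 : (c : F) * g = g * c := by
        have := congrArg Subtype.val (hcomm c ⟨g, Subgroup.mem_zpowers g⟩)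
        exact this
      rw [mul_inv_rev, mul_assoc q.out, h5]
      group
    rw [h4]
  simp only [h3, Finset.sum_const, ← Finset.smul_sum, h1, smul_zero]

theorem swan_gen {F : Type*} [Group F] [Finite F] {k : ℕ} (A : Matrix (Fin k) (Fin k) (Zg F))
    (hA : A * A = A) : ∑ i, aug (A i i) = ∑ i, (A i i).coeff 1 := by
  classical
  have iF : Fintype F := Fintype.ofFinite F
  have haug : ∀ y : Zg F, aug y = ∑ g, y.coeff g := by
    intro y
    unfold aug
    rw [zl_apply, Finsupp.sum_fintype]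
    · simp
    · simp
  simp only [haug]
  rw [Finset.sum_comm]
  have h1 : ∀ g ∈ (Finset.univ : Finset F).erase 1,
      ∑ y : F, ∑ i, (A i i).coeff (y * g * y⁻¹) = 0 := by
    intro g hg
    exact sg_zero A hA g (Finset.ne_of_mem_erase hg)
  have h2 := Finset.sum_eq_zero h1
  rw [Finset.sum_comm] at h2
  have h3 : ∀ y : F, ∑ g ∈ (Finset.univ : Finset F).erase 1, ∑ i, (A i i).coeff (y * g * y⁻¹) =
      (∑ g, ∑ i, (A i i).coeff g) - ∑ i, (A i i).coeff 1 := by
    intro y
    have h4 := Finset.add_sum_erase Finset.univ (fun g : F => ∑ i, (A i i).coeff (y * g * y⁻¹))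
      (Finset.mem_univ 1)
    have h5 : ∑ g : F, ∑ i, (A i i).coeff (y * g * y⁻¹) = ∑ g, ∑ i, (A i i).coeff g :=
      (MulAut.conj y).toEquiv.sum_comp (fun g => ∑ i, (A i i).coeff g)
    rw [h5] at h4
    simp only [mul_one, mul_inv_cancel] at h4
    rw [← h4]
    ring
  simp only [h3, Finset.sum_const, Finset.card_univ] at h2
  have h6 : (Fintype.card F) ≠ 0 := Fintype.card_ne_zero
  have h7 := (smul_eq_zero.1 h2).resolve_left h6
  linarith

end PDT
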