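import Pool.Agent.Lib.PDT.Base
import Pool.Agent.Lib.PDT.Base3
import Pool.Agent.Lib.PDT.IdemRank
import Pool.Agent.Lib.PDT.SwanGen

/-!
# PDT/RankCount: independent elements of a projective module over a finite index subgroup

`P` a module over `ℤ[H]` with a finite dual basis `(e_i, f_i)`, `K ≤ H` normal of finite index `m`,
`pr` a prime, `F` a domain with `pr = 0`.  With `r' = Σ_i aug (f_i(e_i))` there are `m r'` elements of
`P` which are independent over `F` after applying all `K`-equivariant maps `P → ℤ[K]` and the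
augmentation.

Complete proof.  Let `Γ = H ⧸ K`, a finite group of order `m`, and `q : Zg H → Zg Γ` the canonical ring
homomorphism (`MonoidAlgebra.mapDomainRingHom` of the quotient map, or `zl (fun h => el (h : H ⧸ K))`).
`A_ij = f_j(e_i) ∈ Zg H`: `A A = A` since `e_i = Σ_l f_l(e_i) e_l`, so `f_j(e_i) = Σ_l f_l(e_i) f_j(e_l)`.
Let `Ā = q(A)`, idempotent over `ℤ[Γ]`, and `B` the integer matrix indexed by `Fin k × Γ`,
`B((i,g),(j,g')) = Ā_ij(g⁻¹ g')`, idempotent; `trace B = |Γ| Σ_i Ā_ii(1) = m Σ_i aug(Ā_ii) = m r'` by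
`swan_gen` (`aug (q y) = aug y`).  In particular `r' ≥ 0` (as `trace B` is a rank, `idem_rank`, and
`m > 0`), so `r'` is a natural number.  Let `k₀ = ZMod pr`, a field (`Fact pr.Prime`).  By `idem_rank`
`B` over `k₀` has rank `m r'`.
For `x ∈ (Zg H)^k` let `x̄ ∈ k₀^(Fin k × Γ)`, `x̄(j, g) = (q(x_j)(g) : k₀)`.  Then
`(x A)‾ = x̄ B_{k₀}` (row vector times matrix): `q(Σ_i x_i A_ij)(g') = Σ_i Σ_g q(x_i)(g) Ā_ij(g⁻¹ g')`.
The map `x ↦ x̄` is onto `k₀^(Fin k × Γ)` (take `x_j = Σ_g n_{j,g} el (out g)`, `n` integers lifting).  The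
row space `{v B}` has dimension `m r'`; choose `m r'` linearly independent vectors `v_l B` in it, lift
`v_l = x̄_l`, and put `p_l = Σ_i (x_l)_i • e_i ∈ P`; then `f_j(p_l) = (x_l A)_j`, so the vectors
`(f_j(p_l))_j‾ = v_l B` are independent over `k₀`.
The equivariant maps: for `j ∈ Fin k` and `g ∈ Γ` with representative `t = out g ∈ H` define
`g_{j,t} : P →+ Zg K`, `g_{j,t}(q') = ` the element `y ∈ Zg K` with coefficients `y(u) = (f_j q')(u t)`,
`u ∈ K` (`Finsupp.comapDomain`, or `zl` of the function `h ↦ el (h t⁻¹)` if `h t⁻¹ ∈ K`, `0`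
otherwise, composed with `f_j`).  It is `K`-equivariant: `f_j(el k • q') = el k * f_j(q')`.  Its
augmentation is the sum of the coefficients of `f_j q'` over the coset `K t = t K`, i.e.
`q(f_j q')(g)`.  So the hypothesis on `c : Fin (m r') → F` gives `Σ_l c_l (v_l B)(j, g) = 0` in `F` for
all `j, g`, where the entries of the independent vectors `v_l B` over `ZMod pr` are mapped to `F`
(`ZMod.castHom`/algebra structure on `F`, `CharP`).  Vectors independent over `k₀` stay independent over
the domain `F ⊇ k₀`: e.g. `LinearIndependent` over a field `k₀` gives a `k₀`-dual system (a left inverse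
matrix `W` with `W V = 1`), apply it: `c = 0`.
-/

namespace PDT

open Function

section RankCountAux

variable {H : Type*} [Group H] (K : Subgroup H) [K.Normal]

/-- the ring homomorphism to the group ring of the quotient -/
private noncomputable def RankCount_q : Zg H →+* Zg (H ⧸ K) :=
  MonoidAlgebra.mapDomainRingHom ℤ (QuotientGroup.mk' K)

private theorem RankCount_q_el (h : H) : RankCount_q K (el h) = el (h : H ⧸ K) := by
  simp [RankCount_q, el]

private theorem RankCount_aug_q (y : Zg H) : aug (RankCount_q K y) = aug y := by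
  have : (aug : Zg (H ⧸ K) →+ ℤ).comp (RankCount_q K).toAddMonoidHom = aug := by
    apply zhom_ext
    intro g
    simp [RankCount_q_el]
  exact DFunLike.congr_fun this y

/-- a coefficient as an additive map -/
private noncomputable def RankCount_co {G : Type*} [Group G] (g : G) : Zg G →+ ℤ where
  toFun y := y.coeff g
  map_zero' := by simp
  map_add' x y := by simp

private theorem RankCount_co_el {G : Type*} [Group G] [DecidableEq G] (g h : G) :
    (el h).coeff g = if h = g then 1 else 0 := by
  simp [el, Finsupp.single_apply]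

private theorem RankCount_coeff_mul {G : Type*} [Group G] [Fintype G] (x y : Zg G) (g : G) :
    (x * y).coeff g = ∑ h, x.coeff h * y.coeff (h⁻¹ * g) := by
  rw [MonoidAlgebra.coeff_mul_apply_left, Finsupp.sum_fintype]
  simp

/-- the restriction to the coset `K t` -/
private noncomputable def RankCount_pr (t : H) : Zg H →+ Zg K := by
  classical
  exact zl fun h => if hh : h * t⁻¹ ∈ K then el (⟨h * t⁻¹, hh⟩ : K) else 0

private theorem RankCount_pr_mem (t h : H) (hh : h * t⁻¹ ∈ K) :
    RankCount_pr K t (el h) = el (⟨h * t⁻¹, hh⟩ : K) := by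
  classical
  unfold RankCount_pr
  rw [zl_el, dif_pos hh]

private theorem RankCount_pr_not (t h : H) (hh : h * t⁻¹ ∉ K) :
    RankCount_pr K t (el h) = 0 := by
  classical
  unfold RankCount_pr
  rw [zl_el, dif_neg hh]

private theorem RankCount_pr_equiv (t : H) (u : K) (y : Zg H) :
    RankCount_pr K t (el (u : H) * y) = el u * RankCount_pr K t y := by
  have : (RankCount_pr K t).comp (AddMonoidHom.mulLeft (el (u : H))) =
      (AddMonoidHom.mulLeft (el u)).comp (RankCount_pr K t) := by
    apply zhom_ext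
    intro h
    change RankCount_pr K t (el (u : H) * el h) = el u * RankCount_pr K t (el h)
    rw [← el_mul]
    by_cases hh : h * t⁻¹ ∈ K
    · have h2 : (u : H) * h * t⁻¹ ∈ K := by
        rw [mul_assoc]
        exact K.mul_mem u.2 hh
      rw [RankCount_pr_mem K t _ h2, RankCount_pr_mem K t _ hh, ← el_mul]
      congr 1
      ext
      simp [mul_assoc]
    · have h2 : (u : H) * h * t⁻¹ ∉ K := by
        rw [mul_assoc]
        intro h3
        apply hh
        have := K.mul_mem (K.inv_mem u.2) h3
        simpa using this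
      rw [RankCount_pr_not K t _ h2, RankCount_pr_not K t _ hh, mul_zero]
  exact DFunLike.congr_fun this y

private theorem RankCount_aug_pr (t : H) (y : Zg H) :
    aug (RankCount_pr K t y) = (RankCount_q K y).coeff (t : H ⧸ K) := by
  classical
  have : (aug : Zg K →+ ℤ).comp (RankCount_pr K t) =
      (RankCount_co (t : H ⧸ K)).comp (RankCount_q K).toAddMonoidHom := by
    apply zhom_ext
    intro h
    change aug (RankCount_pr K t (el h)) = (RankCount_q K (el h)).coeff (t : H ⧸ K)
    rw [RankCount_q_el, RankCount_co_el]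
    have hiff : h * t⁻¹ ∈ K ↔ ((h : H ⧸ K) = (t : H ⧸ K)) := by
      rw [QuotientGroup.eq]
      constructor
      · intro h1
        have h2 := K.inv_mem h1
        rw [mul_inv_rev, inv_inv] at h2
        have h3 := (inferInstance : K.Normal).conj_mem _ h2 h⁻¹
        simpa [mul_assoc] using h3
      · intro h1
        have h2 := K.inv_mem h1
        rw [mul_inv_rev, inv_inv] at h2
        have h3 := (inferInstance : K.Normal).conj_mem _ h2 t
        simpa [mul_assoc] using h3
    by_cases hh : h * t⁻¹ ∈ K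
    · rw [RankCount_pr_mem K t _ hh, aug_el, if_pos (hiff.1 hh)]
    · rw [RankCount_pr_not K t _ hh, map_zero, if_neg (fun h1 => hh (hiff.2 h1))]
  exact DFunLike.congr_fun this y

/-- integer vectors whose reductions are independent over `ZMod pr` are independent over every
commutative ring in which `pr = 0` -/
private theorem RankCount_indep {X : Type*} [Fintype X] [DecidableEq X] {n : ℕ} (pr : ℕ)
    [Fact pr.Prime] (u : Fin n → X → ℤ)
    (hu : LinearIndependent (ZMod pr) (fun l => fun x => ((u l x : ℤ) : ZMod pr)))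
    {F : Type*} [CommRing F] (hF : (pr : F) = 0) (c : Fin n → F)
    (hc : ∀ x, ∑ l, c l * ((u l x : ℤ) : F) = 0) : c = 0 := by
  classical
  have hcast : ∀ a b : ℤ, ((a : ℤ) : ZMod pr) = ((b : ℤ) : ZMod pr) → ((a : ℤ) : F) = ((b : ℤ) : F) := by
    intro a b hab
    rw [ZMod.intCast_eq_intCast_iff_dvd_sub] at hab
    obtain ⟨d, hd⟩ := hab
    have h1 : ((b - a : ℤ) : F) = ((pr : ℤ) : F) * ((d : ℤ) : F) := by
      rw [hd]
      push_cast
      ring
    rw [Int.cast_natCast, hF, zero_mul] at h1
    push_cast at h1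
    exact (sub_eq_zero.1 h1).symm
  set φ : (Fin n → ZMod pr) →ₗ[ZMod pr] (X → ZMod pr) :=
    Fintype.linearCombination (ZMod pr) (fun l => fun x => ((u l x : ℤ) : ZMod pr)) with hφ
  have hinj : LinearMap.ker φ = ⊥ := by
    rw [LinearMap.ker_eq_bot]
    exact linearIndependent_iff_injective_fintypeLinearCombination.1 hu
  obtain ⟨L, hL⟩ := LinearMap.exists_leftInverse_of_injective φ hinj
  have hL1 : ∀ l, L (fun x => ((u l x : ℤ) : ZMod pr)) = Pi.single l 1 := by
    intro l
    have h1 : φ (Pi.single l 1) = fun x => ((u l x : ℤ) : ZMod pr) := by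
      rw [hφ, Fintype.linearCombination_apply_single, one_smul]
    rw [← h1]
    exact DFunLike.congr_fun hL (Pi.single l 1)
  have hL2 : ∀ w : X → ZMod pr, L w = ∑ x, w x • L (Pi.single x 1) := by
    intro w
    have h1 : w = ∑ x, w x • (Pi.single x (1 : ZMod pr) : X → ZMod pr) := by
      ext y
      simp [Finset.sum_apply, Pi.single_apply]
    conv_lhs => rw [h1]
    rw [map_sum]
    simp only [map_smul]
  choose z hz using fun (x : X) (l : Fin n) => ZMod.intCast_surjective (L (Pi.single x 1) l)
  have hkey : ∀ l l' : Fin n, ∑ x, ((u l x : ℤ) : F) * ((z x l' : ℤ) : F) =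
      if l = l' then 1 else 0 := by
    intro l l'
    have h1 : ((∑ x, u l x * z x l' : ℤ) : ZMod pr) = (((if l = l' then 1 else 0 : ℤ)) : ZMod pr) := by
      have h2 := congrFun (hL1 l) l'
      rw [hL2] at h2
      rw [Finset.sum_apply] at h2
      push_cast
      rw [show (∑ x, ((u l x : ℤ) : ZMod pr) * ((z x l' : ℤ) : ZMod pr)) =
        ∑ x, (((u l x : ℤ) : ZMod pr) • L (Pi.single x 1)) l' from
          Finset.sum_congr rfl fun x _ => by rw [Pi.smul_apply, smul_eq_mul, hz]]
      rw [h2, Pi.single_apply]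
      by_cases h : l = l'
      · simp [h]
      · rw [if_neg h, if_neg (fun h' => h h'.symm)]
    have h3 := hcast _ _ h1
    push_cast at h3
    exact h3
  ext l'
  have h4 : c l' = ∑ l, c l * (if l = l' then 1 else 0) := by simp
  rw [h4, Pi.zero_apply]
  calc ∑ l, c l * (if l = l' then (1 : F) else 0)
      = ∑ l, c l * ∑ x, ((u l x : ℤ) : F) * ((z x l' : ℤ) : F) := by
        refine Finset.sum_congr rfl fun l _ => ?_
        rw [hkey]
    _ = ∑ x, (∑ l, c l * ((u l x : ℤ) : F)) * ((z x l' : ℤ) : F) := by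
        simp_rw [Finset.mul_sum, Finset.sum_mul]
        rw [Finset.sum_comm]
        refine Finset.sum_congr rfl fun x _ => Finset.sum_congr rfl fun l _ => ?_
        ring
    _ = 0 := by simp [hc]

end RankCountAux

theorem rank_count {H : Type*} [Group H] (K : Subgroup H) [K.Normal] [K.FiniteIndex] {P : Type*}
    [AddCommGroup P] [Module (Zg H) P] {k : ℕ} (e : Fin k → P) (f : Fin k → (P →ₗ[Zg H] Zg H))
    (hef : ∀ q, q = ∑ i, f i q • e i) (pr : ℕ) (hpr : pr.Prime) {F : Type*} [CommRing F]
    [IsDomain F] (hF : (pr : F) = 0) :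
    ∃ (r' : ℕ) (p : Fin (K.index * r') → P), (r' : ℤ) = ∑ i, aug (f i (e i)) ∧
      ∀ c : Fin (K.index * r') → F,
        (∀ g : P →+ Zg K, (∀ (u : K) (q : P), g (el (u : H) • q) = el u • g q) →
          ∑ i, c i * (aug (g (p i)) : F) = 0) → c = 0 := by
  classical
  haveI : Fact pr.Prime := ⟨hpr⟩
  haveI : Finite (H ⧸ K) := inferInstance
  haveI : Fintype (H ⧸ K) := Fintype.ofFinite _
  -- the idempotent matrix
  set A : Matrix (Fin k) (Fin k) (Zg H) := fun i j => f j (e i) with hAdef
  have hA : A * A = A := by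
    ext1 i j
    rw [Matrix.mul_apply]
    change ∑ l, f l (e i) * f j (e l) = f j (e i)
    conv_rhs => rw [hef (e i)]
    rw [map_sum]
    simp only [map_smul, smul_eq_mul]
  set Ab : Matrix (Fin k) (Fin k) (Zg (H ⧸ K)) := A.map (RankCount_q K) with hAbdef
  have hAb : Ab * Ab = Ab := by
    rw [hAbdef, ← Matrix.map_mul, hA]
  have hsw := swan_gen Ab hAb
  have htr : ∑ i, (Ab i i).coeff 1 = ∑ i, aug (f i (e i)) := by
    rw [← hsw]
    refine Finset.sum_congr rfl fun i _ => ?_
    exact RankCount_aug_q K (f i (e i))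
  set B : Matrix (Fin k × (H ⧸ K)) (Fin k × (H ⧸ K)) ℤ :=
    fun x y => (Ab x.1 y.1).coeff (x.2⁻¹ * y.2) with hBdef
  have hB : B * B = B := by
    ext x y
    rw [Matrix.mul_apply, Fintype.sum_prod_type]
    have h1 : ∀ j : Fin k, ∑ g : H ⧸ K, B x (j, g) * B (j, g) y =
        (Ab x.1 j * Ab j y.1).coeff (x.2⁻¹ * y.2) := by
      intro j
      rw [RankCount_coeff_mul]
      refine Fintype.sum_equiv (Equiv.mulLeft x.2⁻¹) _ _ fun g => ?_
      change (Ab x.1 j).coeff (x.2⁻¹ * g) * (Ab j y.1).coeff (g⁻¹ * y.2) =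
        (Ab x.1 j).coeff (x.2⁻¹ * g) * (Ab j y.1).coeff ((x.2⁻¹ * g)⁻¹ * (x.2⁻¹ * y.2))
      congr 2
      group
    rw [Finset.sum_congr rfl fun j _ => h1 j]
    have h2 := congrFun (congrFun hAb x.1) y.1
    rw [Matrix.mul_apply] at h2
    change _ = (Ab x.1 y.1).coeff (x.2⁻¹ * y.2)
    rw [← h2]
    change ∑ j, RankCount_co (x.2⁻¹ * y.2) (Ab x.1 j * Ab j y.1) =
      RankCount_co (x.2⁻¹ * y.2) (∑ j, Ab x.1 j * Ab j y.1)
    rw [map_sum]
  have hcard : (Fintype.card (H ⧸ K)) = K.index := by
    rw [Subgroup.index, Nat.card_eq_fintype_card]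
  have hBtr : B.trace = (K.index : ℤ) * ∑ i, aug (f i (e i)) := by
    rw [Matrix.trace, Fintype.sum_prod_type, ← htr, Finset.mul_sum]
    refine Finset.sum_congr rfl fun i _ => ?_
    change ∑ g : H ⧸ K, (Ab i i).coeff (g⁻¹ * g) = _
    simp only [inv_mul_cancel, Finset.sum_const, Finset.card_univ, hcard, nsmul_eq_mul]
  have hrank := idem_rank B hB (ZMod pr)
  set Bk : Matrix (Fin k × (H ⧸ K)) (Fin k × (H ⧸ K)) (ZMod pr) :=
    B.map (Int.cast : ℤ → ZMod pr) with hBk
  have hidx : 0 < K.index := Nat.pos_of_ne_zero Subgroup.FiniteIndex.index_ne_zero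
  have hnn : 0 ≤ ∑ i, aug (f i (e i)) := by
    by_contra h
    push Not at h
    have h1 : (K.index : ℤ) * ∑ i, aug (f i (e i)) < 0 :=
      mul_neg_of_pos_of_neg (by exact_mod_cast hidx) h
    rw [← hBtr, ← hrank] at h1
    omega
  obtain ⟨r', hr'⟩ := Int.eq_ofNat_of_zero_le hnn
  have hrk : Bk.rank = K.index * r' := by
    have : (Bk.rank : ℤ) = ((K.index * r' : ℕ) : ℤ) := by
      rw [hrank, hBtr, hr']
      push_cast
      rfl
    exact_mod_cast this
  -- the row space
  have hrkT : Module.finrank (ZMod pr) (LinearMap.range Bk.transpose.mulVecLin) = K.index * r' := by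
    have h1 : Bk.transpose.rank = K.index * r' := by
      rw [Matrix.rank_transpose, hrk]
    exact h1
  obtain ⟨bs⟩ : Nonempty (Module.Basis (Fin (K.index * r')) (ZMod pr)
      (LinearMap.range Bk.transpose.mulVecLin)) :=
    ⟨Module.finBasisOfFinrankEq _ _ hrkT⟩
  have hbs : LinearIndependent (ZMod pr) (fun l => ((bs l : LinearMap.range
      Bk.transpose.mulVecLin) : Fin k × (H ⧸ K) → ZMod pr)) :=
    bs.linearIndependent.map' (Submodule.subtype _) (Submodule.ker_subtype _)
  choose v hv using fun l => (bs l).2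
  choose n hn using fun (l : Fin (K.index * r')) (x : Fin k × (H ⧸ K)) =>
    ZMod.intCast_surjective (v l x)
  -- the elements
  set xl : Fin (K.index * r') → Fin k → Zg H := fun l j =>
    ∑ g : H ⧸ K, n l (j, g) • el (Quotient.out g) with hxl
  have hqx : ∀ l j, RankCount_q K (xl l j) = ∑ g : H ⧸ K, n l (j, g) • el g := by
    intro l j
    rw [hxl]
    simp only [map_sum, map_zsmul, RankCount_q_el]
    refine Finset.sum_congr rfl fun g _ => ?_
    rw [QuotientGroup.out_eq' g]
  have hqxc : ∀ l j (g : H ⧸ K), (RankCount_q K (xl l j)).coeff g = n l (j, g) := by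
    intro l j g
    rw [hqx]
    change RankCount_co g (∑ g : H ⧸ K, n l (j, g) • el g) = _
    rw [map_sum]
    simp only [map_zsmul]
    change ∑ g' : H ⧸ K, n l (j, g') • (el g').coeff g = _
    simp [RankCount_co_el]
  refine ⟨r', fun l => ∑ i, xl l i • e i, hr'.symm, fun c hc => ?_⟩
  -- the values
  set u : Fin (K.index * r') → (Fin k × (H ⧸ K)) → ℤ := fun l x =>
    (RankCount_q K (f x.1 (∑ i, xl l i • e i))).coeff x.2 with hudef
  have hu1 : ∀ l x, u l x = ∑ y, n l y * B y x := by
    intro l x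
    have h1 : RankCount_q K (f x.1 (∑ i, xl l i • e i)) =
        ∑ i, RankCount_q K (xl l i) * Ab i x.1 := by
      rw [map_sum, map_sum]
      refine Finset.sum_congr rfl fun i _ => ?_
      rw [map_smul, smul_eq_mul, map_mul]
      rfl
    change (RankCount_q K (f x.1 (∑ i, xl l i • e i))).coeff x.2 = _
    rw [h1, Fintype.sum_prod_type]
    change RankCount_co x.2 (∑ i, RankCount_q K (xl l i) * Ab i x.1) = _
    rw [map_sum]
    refine Finset.sum_congr rfl fun i _ => ?_
    change (RankCount_q K (xl l i) * Ab i x.1).coeff x.2 = _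
    rw [RankCount_coeff_mul]
    refine Finset.sum_congr rfl fun g _ => ?_
    rw [hqxc]
  have hu2 : ∀ l, (fun x => ((u l x : ℤ) : ZMod pr)) = ((bs l : LinearMap.range
      Bk.transpose.mulVecLin) : Fin k × (H ⧸ K) → ZMod pr) := by
    intro l
    rw [← hv l]
    ext x
    rw [hu1, Matrix.mulVecLin_apply, Matrix.mulVec, dotProduct]
    push_cast
    refine Finset.sum_congr rfl fun y _ => ?_
    rw [hn, mul_comm]
    rfl
  refine RankCount_indep pr u ?_ hF c ?_
  · rw [show (fun l => fun x => ((u l x : ℤ) : ZMod pr)) = (fun l => ((bs l : LinearMap.range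
      Bk.transpose.mulVecLin) : Fin k × (H ⧸ K) → ZMod pr)) from funext hu2]
    exact hbs
  · rintro ⟨j, g⟩
    have h1 := hc ((RankCount_pr K (Quotient.out g)).comp (f j).toAddMonoidHom) ?_
    · rw [← h1]
      refine Finset.sum_congr rfl fun l _ => ?_
      congr 2
      change u l (j, g) = aug (RankCount_pr K (Quotient.out g) (f j (∑ i, xl l i • e i)))
      rw [RankCount_aug_pr, QuotientGroup.out_eq' g]
    · intro w q
      change RankCount_pr K (Quotient.out g) (f j (el (w : H) • q)) =
        el w • RankCount_pr K (Quotient.out g) (f j q)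
      rw [map_smul, smul_eq_mul, RankCount_pr_equiv, smul_eq_mul]

end PDT
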