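import Pool.Agent.Lib.PDT.Base
import Pool.Agent.Lib.PDT.Base2
import Pool.Agent.Lib.PDT.Base3
import Pool.Agent.Lib.PDT.Inj
import Pool.Agent.Lib.PDT.MainA
import Pool.Agent.Lib.PDT.DivAnn

/-!
# PDT/RankOne: the rank inequality

`K ≤ G` infinite, `w` trivial on `K`, `τ : ℤ[K] → E` injective, `E` a division ring, `θ : E → E'` an
anti-isomorphism and `τ'(y) = θ(τ(y*))`.  `P1 = (Zg K)^a1 → P0 = (Zg K)^a0`, `P2 = ker d` finitely
generated projective, and `p_1, …, p_r ∈ P2` independent in the sense of `hp`.  With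
`κ = dim_E span {τ(q)}`, `κ' = dim_{E'} span {τ'(q)}`, `q ∈ P2 ⊆ (Zg K)^a1`: `r + a0 + κ' ≤ a1 + κ`.

Complete proof.  `M = E` as a left `E`-module, `L(k) m = m τ(el k⁻¹)` (`L : K →* Module.End E E`).
Then `actR L y m = m τ(y)`, `actT L (w.comp K.subtype) y m = m τ(ivo y)` (`zhom_ext`; `w = 1` on `K`).
No invariants: `L k m = m` with `k ≠ 1` gives `m (τ(el k⁻¹) - 1) = 0`, so `m = 0` (`τ` injective,
`el k⁻¹ ≠ 1`); an infinite subgroup has an element `k ≠ 1`.  So `geo_twisted R K hK w L` gives `hgeo`
for `inj_main`.  Let `s2` be a section (`hproj.out`), `lt = Finsupp.lsum (mxF L ·)` as in `PDT/MainA`,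
`Θ` from `inj_main`; `V = span {mxS L (s2 q) m}`.
(1) `V` is finite-dimensional: `mxS L (s2 (y • q)) m = mxS L (s2 q) (m τ(y))` (additive in `y`,
`mxS_el_smul`), so `V` is spanned by `mxS L (s2 g) 1`, `g` in a finite generating set of `P2`
(`mxS L x m = m • mxS L x 1`).
(2) `dim V ≥ r`: the vectors `v_i = mxS L (s2 (p_i)) 1` are independent: if `Σ λ_i v_i = 0`, then
`Σ_i λ_i τ((s2 p_i)_q) = 0` for every `q ∈ P2`, and for every functional `f`,
`f(p_i) = Σ_q (s2 p_i)_q f(q)`, so `Σ_i λ_i τ(f(p_i)) = Σ_q (Σ_i λ_i τ((s2 p_i)_q)) τ(f q) = 0`; by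
`hp` `λ = 0`.
(3) `lt V = span {τ(q)}` (`lt (mxS L (s2 q) m) = m • τ(q)`: this is CLAIM 2 in the proof of `inj_main`;
`lt (mxS L x m) = mxF L (Σ_i x_i • i) m`), so `dim (V ⊓ ker lt) = dim V - κ ≥ r - κ`.
(4) `U = {u | ∀ q ∈ P2, Σ_k actT … (q_k) (u_k) = 0} = {u | Σ_k u_k τ(ivo q_k) = 0}`; applying `θ`:
`Σ_k τ'(q_k) θ(u_k) = 0`.  `div_ann` with `X = {τ'(q)}`: `dim U = a1 - κ'`.
(5) `cob b = (Σ_l actT (d(e_k)_l) b_l)_k`, `E^a0 → E^a1`, has range in `U`
(`Σ_k T(q_k) Σ_l T(d(e_k)_l) b_l = Σ_l T((d q)_l) b_l = 0`, `actT_mul`), and it is injective: if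
`cob b = 0` put `bh y = Σ_l T(y_l) b_l` for `y ∈ P0`; it vanishes on `range d = ker εP`.  For `k ∈ K`,
`k ≠ 1`, and every `y`: `el k • y - y ∈ ker εP`, so `bh y = bh (el k • y) = bh(y) τ(el k⁻¹)`, so
`bh y = 0`; with `y` the basis vectors, `b = 0`.
(6) `inj_main`: for `v ∈ V ⊓ ker lt`: `Θ v ∈ U`, and `Θ v ∈ range cob → v = 0`.  So the linear map
`(V ⊓ ker lt) × E^a0 → U`, `(v, b) ↦ Θ v - cob b` is injective (if `Θ v = cob b` then `v = 0`, so
`cob b = 0`, `b = 0`), and `(dim V - κ) + a0 ≤ dim U = a1 - κ'`.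
-/

namespace PDT

open Function

universe u

section aux

variable {K : Type*} [Group K] {E : Type*} [DivisionRing E] (τ : Zg K →+* E)

/-- the representation `k ↦ (m ↦ m τ(k⁻¹))` -/
private noncomputable def RO_L : K →* Module.End E E where
  toFun k := LinearMap.toSpanSingleton E E (τ (el k⁻¹))
  map_one' := by
    apply LinearMap.ext
    intro m
    rw [LinearMap.toSpanSingleton_apply, inv_one, el_one, map_one, smul_eq_mul, mul_one]
    rfl
  map_mul' x y := by
    apply LinearMap.ext
    intro m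
    rw [Module.End.mul_apply, LinearMap.toSpanSingleton_apply, LinearMap.toSpanSingleton_apply,
      LinearMap.toSpanSingleton_apply, mul_inv_rev, el_mul, map_mul, smul_eq_mul, smul_eq_mul,
      smul_eq_mul, mul_assoc]

private theorem RO_L_apply (k : K) (m : E) : RO_L τ k m = m * τ (el k⁻¹) := rfl

private theorem RO_actR (y : Zg K) (m : E) : actR (RO_L τ) y m = m * τ y := by
  let F : Zg K →+ E :=
    { toFun := fun y => actR (RO_L τ) y m
      map_zero' := by rw [map_zero, LinearMap.zero_apply]
      map_add' := fun a b => by rw [map_add, LinearMap.add_apply] }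
  let F' : Zg K →+ E :=
    { toFun := fun y => m * τ y
      map_zero' := by rw [map_zero, mul_zero]
      map_add' := fun a b => by rw [map_add, mul_add] }
  have h : F = F' := by
    apply zhom_ext
    intro g
    change actR (RO_L τ) (el g) m = m * τ (el g)
    rw [actR_el, RO_L_apply, inv_inv]
  exact DFunLike.congr_fun h y

private theorem RO_actT (w : K →* ℤˣ) (hw : ∀ k, w k = 1) (y : Zg K) (m : E) :
    actT (RO_L τ) w y m = m * τ (ivo y) := by
  let F : Zg K →+ E :=
    { toFun := fun y => actT (RO_L τ) w y m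
      map_zero' := by rw [map_zero, LinearMap.zero_apply]
      map_add' := fun a b => by rw [map_add, LinearMap.add_apply] }
  let F' : Zg K →+ E :=
    { toFun := fun y => m * τ (ivo y)
      map_zero' := by rw [map_zero, map_zero, mul_zero]
      map_add' := fun a b => by rw [map_add, map_add, mul_add] }
  have h : F = F' := by
    apply zhom_ext
    intro g
    change actT (RO_L τ) w (el g) m = m * τ (ivo (el g))
    rw [actT_el, ivo_el, hw, Units.val_one, one_smul, RO_L_apply]
  exact DFunLike.congr_fun h y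

private theorem RO_mxS_act {I : Type*} (y : Zg K) (x : I →₀ Zg K) (m : E) :
    mxS (RO_L τ) (y • x) m = mxS (RO_L τ) x (actR (RO_L τ) y m) := by
  ext k
  rw [mxS_apply, mxS_apply, Finsupp.smul_apply, smul_eq_mul, actR_mul, Module.End.mul_apply]

private theorem RO_mxF_act {a : ℕ} (y : Zg K) (x : Fin a → Zg K) (m : E) :
    mxF (RO_L τ) (y • x) m = mxF (RO_L τ) x (actR (RO_L τ) y m) := by
  ext k
  rw [mxF_apply, mxF_apply, Pi.smul_apply, smul_eq_mul, actR_mul, Module.End.mul_apply]

private theorem RO_el_inj {g h : K} (hgh : el g = el h) : g = h :=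
  MonoidAlgebra.of_injective (R := ℤ) (M := K) hgh

private theorem RO_basis {a : ℕ} (x : Fin a → Zg K) :
    x = ∑ k, x k • (Pi.single k (1 : Zg K) : Fin a → Zg K) := by
  ext1 j
  simp [Finset.sum_apply, Pi.single_apply]

private theorem RO_cancel (hτ : Injective τ) {k : K} (hk : k ≠ 1) {m : E}
    (hm : m * τ (el k⁻¹) = m) : m = 0 := by
  have h1 : m * τ (el k⁻¹ - 1) = 0 := by
    rw [map_sub, map_one, mul_sub, mul_one, hm, sub_self]
  rcases mul_eq_zero.1 h1 with h | h
  · exact h
  · exfalso
    have h2 : el k⁻¹ - 1 = (0 : Zg K) := hτ (by rw [h, map_zero])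
    have h3 : el k⁻¹ = el (1 : K) := by
      rw [el_one]
      exact sub_eq_zero.1 h2
    exact hk (inv_eq_one.1 (RO_el_inj h3))

end aux

private theorem RO_count {E : Type*} [DivisionRing E] {X Y : Type*} [AddCommGroup X] [Module E X]
    [AddCommGroup Y] [Module E Y] [Module.Finite E Y] (V : Submodule E X) (hV : Module.Finite E V)
    (lt Θ : X →ₗ[E] Y) {a0 : ℕ} (cob : (Fin a0 → E) →ₗ[E] Y) (U : Submodule E Y)
    (hcob : ∀ b, cob b ∈ U) (hcobinj : ∀ b, cob b = 0 → b = 0)
    (h1 : ∀ v ∈ V, lt v = 0 → Θ v ∈ U)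
    (h2 : ∀ v ∈ V, lt v = 0 → ∀ b, Θ v = cob b → v = 0) :
    Module.finrank E V + a0 ≤ Module.finrank E U + Module.finrank E (Submodule.map lt V) := by
  have hrn := LinearMap.finrank_range_add_finrank_ker (lt.domRestrict V)
  rw [LinearMap.range_domRestrict] at hrn
  let N : Submodule E V := LinearMap.ker (lt.domRestrict V)
  let Φ : (N × (Fin a0 → E)) →ₗ[E] Y := (Θ ∘ₗ V.subtype ∘ₗ N.subtype).coprod (-cob)
  have hΦ : ∀ z, Φ z = Θ ((z.1 : V) : X) - cob z.2 := by
    intro z
    simp [Φ, LinearMap.coprod_apply, sub_eq_add_neg]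
  have hzlt : ∀ z : N, lt ((z : V) : X) = 0 := fun z => LinearMap.mem_ker.1 z.2
  have hinj : Injective Φ := by
    rw [injective_iff_map_eq_zero]
    rintro ⟨z, b⟩ hz
    rw [hΦ] at hz
    have h3 : Θ ((z : V) : X) = cob b := sub_eq_zero.1 hz
    have h4 : ((z : V) : X) = 0 := h2 _ (z : V).2 (hzlt z) b h3
    have h5 : cob b = 0 := by
      rw [← h3, h4, map_zero]
    have h6 := hcobinj b h5
    have h7 : z = 0 := Subtype.ext (Subtype.ext h4)
    rw [h6, h7]
    rfl
  have hrange : LinearMap.range Φ ≤ U := by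
    rintro _ ⟨z, rfl⟩
    rw [hΦ]
    exact U.sub_mem (h1 _ (z.1 : V).2 (hzlt z.1)) (hcob _)
  have h3 := LinearMap.finrank_range_of_inj hinj
  have h4 := Submodule.finrank_mono hrange
  rw [h3, Module.finrank_prod, Module.finrank_fin_fun] at h4
  have h5 : Module.finrank E N = Module.finrank E (LinearMap.ker (lt.domRestrict V)) := rfl
  omega

theorem rank_one {G : Type u} [Group G] (R : Res G) (K : Subgroup G) (hK : Infinite K)
    (w : G →* ℤˣ) (hw : ∀ (x : G) (f : R.Q3 →ₗ[Zg G] Zg G), R.e (tw w x f) = R.e f)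
    (hwK : ∀ k : K, w k = 1) {E E' : Type*} [DivisionRing E] [DivisionRing E'] (θ : E ≃+ E')
    (hθ : ∀ a b, θ (a * b) = θ b * θ a) (τ : Zg K →+* E) (hτ : Injective τ) (τ' : Zg K →+* E')
    (hτ' : ∀ y, τ' y = θ (τ (ivo y))) {a0 a1 : ℕ} (εP : (Fin a0 → Zg K) →+ ℤ)
    (hε : ∀ (h : K) (p : Fin a0 → Zg K), εP (el h • p) = εP p) (hs : Surjective εP)
    (d : (Fin a1 → Zg K) →ₗ[Zg K] (Fin a0 → Zg K))
    (hex : ∀ p : Fin a0 → Zg K, εP p = 0 ↔ ∃ q, d q = p)
    (hproj : Module.Projective (Zg K) (LinearMap.ker d))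
    (hfin : Module.Finite (Zg K) (LinearMap.ker d)) {r : ℕ} (p : Fin r → LinearMap.ker d)
    (hp : ∀ lam : Fin r → E, (∀ f : LinearMap.ker d →ₗ[Zg K] Zg K,
      ∑ i, lam i * τ (f (p i)) = 0) → lam = 0) :
    r + a0 + Module.finrank E' (Submodule.span E' {v : Fin a1 → E' |
        ∃ q : LinearMap.ker d, v = fun k => τ' ((q : Fin a1 → Zg K) k)}) ≤
      a1 + Module.finrank E (Submodule.span E {v : Fin a1 → E |
        ∃ q : LinearMap.ker d, v = fun k => τ ((q : Fin a1 → Zg K) k)}) := by
  classical
  set L : K →* Module.End E E := RO_L τ with hLdef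
  have hL : ∀ (k : K) (m : E), L k m = m * τ (el k⁻¹) := fun k m => rfl
  have haR : ∀ (y : Zg K) (m : E), actR L y m = m * τ y := RO_actR τ
  have haT : ∀ (y : Zg K) (m : E), actT L (w.comp K.subtype) y m = m * τ (ivo y) :=
    RO_actT τ (w.comp K.subtype) hwK
  have hinv : ∀ K' : Subgroup K, Infinite K' → ∀ m : E, (∀ k ∈ K', L k m = m) → m = 0 := by
    intro K' hK' m hm
    obtain ⟨k, hk⟩ := exists_ne (1 : K')
    have h1 : (k : K) ≠ 1 := fun h => hk (Subtype.ext h)
    exact RO_cancel τ hτ h1 (hm _ k.2)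
  have hgeo := geo_twisted R K hK w L hinv
  obtain ⟨s2, hs2'⟩ := hproj.out
  have hs2 : ∀ p, Finsupp.linearCombination (Zg K) id (s2 p) = p := hs2'
  let lt : (LinearMap.ker d →₀ E) →ₗ[E] (Fin a1 → E) :=
    Finsupp.lsum ℕ fun i => mxF L (i : Fin a1 → Zg K)
  have hlt : ∀ (i : LinearMap.ker d) (m : E),
      lt (Finsupp.single i m) = mxF L (i : Fin a1 → Zg K) m := by
    intro i m
    simp [lt]
  obtain ⟨Θ, hΘ⟩ := inj_main R K w hw L hgeo εP hε hs d hex hproj s2 hs2 lt hlt
  set V : Submodule E (LinearMap.ker d →₀ E) :=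
    Submodule.span E {v : LinearMap.ker d →₀ E | ∃ p m, v = mxS L (s2 p) m} with hV
  have hone : ∀ (x : LinearMap.ker d →₀ Zg K) (m : E), mxS L x m = m • mxS L x 1 := by
    intro x m
    rw [← map_smul, smul_eq_mul, mul_one]
  -- (1) finite-dimensionality
  have hVfin : Module.Finite E V := by
    obtain ⟨S, hS⟩ := hfin.fg_top
    have key : ∀ q : LinearMap.ker d, ∀ m : E,
        mxS L (s2 q) m ∈ Submodule.span E ((fun g => mxS L (s2 g) (1 : E)) '' (S : Set (LinearMap.ker d))) := by
      intro q
      have hq : q ∈ Submodule.span (Zg K) (S : Set (LinearMap.ker d)) := by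
        rw [hS]; trivial
      induction hq using Submodule.span_induction with
      | mem g hg =>
        intro m
        rw [hone]
        exact Submodule.smul_mem _ _ (Submodule.subset_span ⟨g, hg, rfl⟩)
      | zero =>
        intro m
        rw [map_zero, mxS_zero]
        exact Submodule.zero_mem _
      | add x y _ _ hx hy =>
        intro m
        rw [map_add, mxS_add]
        exact Submodule.add_mem _ (hx m) (hy m)
      | smul c x _ hx =>
        intro m
        rw [map_smul, RO_mxS_act]
        exact hx _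
    have hVeq : V = Submodule.span E ((fun g => mxS L (s2 g) (1 : E)) '' (S : Set (LinearMap.ker d))) := by
      apply le_antisymm
      · rw [hV, Submodule.span_le]
        rintro _ ⟨q, m, rfl⟩
        exact key q m
      · rw [Submodule.span_le]
        rintro _ ⟨g, _, rfl⟩
        exact Submodule.subset_span ⟨g, 1, rfl⟩
    rw [hVeq]
    exact Module.Finite.span_of_finite E (S.finite_toSet.image _)
  -- (2) the dimension of `V`
  have hdimV : r ≤ Module.finrank E V := by
    let v : Fin r → V := fun i => ⟨mxS L (s2 (p i)) 1, Submodule.subset_span ⟨p i, 1, rfl⟩⟩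
    have hv : LinearIndependent E v := by
      refine (Fintype.linearIndependent_iff (R := E) (M := V) (v := v)).2 ?_
      intro lam hlam
      have h0 : ∑ i, lam i • mxS L (s2 (p i)) (1 : E) = 0 := by
        have := congrArg (V.subtype) hlam
        rw [map_sum, map_zero] at this
        exact this
      have h1 : lam = 0 := by
        apply hp
        intro f
        let F : (LinearMap.ker d →₀ E) →ₗ[E] E :=
          Finsupp.lsum ℕ fun q => LinearMap.toSpanSingleton E E (τ (f q))
        have hFs : ∀ (q : LinearMap.ker d) (m : E), F (Finsupp.single q m) = m * τ (f q) := by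
          intro q m
          simp [F]
        have hF : ∀ (x : LinearMap.ker d →₀ Zg K) (m : E),
            F (mxS L x m) = m * τ (f (Finsupp.linearCombination (Zg K) id x)) := by
          intro x m
          induction x using Finsupp.induction_linear with
          | zero => rw [mxS_zero, map_zero, map_zero, map_zero, map_zero, mul_zero]
          | add x y hx hy => rw [mxS_add, map_add, hx, hy, map_add, map_add, map_add, mul_add]
          | single i y =>
            rw [mxS_single, hFs, Finsupp.linearCombination_single, id_eq, haR, map_smul,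
              smul_eq_mul, map_mul, mul_assoc]
        have h2 := congrArg F h0
        rw [map_sum, map_zero] at h2
        rw [← h2]
        refine Finset.sum_congr rfl fun i _ => ?_
        rw [map_smul, hF, hs2, one_mul, smul_eq_mul]
      intro i
      rw [h1]
      rfl
    have := hv.fintype_card_le_finrank
    rwa [Fintype.card_fin] at this
  -- (3) the image of `V`
  have claim2 : ∀ (x : LinearMap.ker d →₀ Zg K) (m : E),
      lt (mxS L x m) =
        mxF L ((Finsupp.linearCombination (Zg K) id x : LinearMap.ker d) : Fin a1 → Zg K) m := by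
    intro x m
    induction x using Finsupp.induction_linear with
    | zero => rw [mxS_zero, map_zero, map_zero, Submodule.coe_zero, mxF_zero]
    | add x y hx hy => rw [mxS_add, map_add, hx, hy, map_add, Submodule.coe_add, mxF_add]
    | single i y =>
      rw [mxS_single, hlt, Finsupp.linearCombination_single, id_eq, Submodule.coe_smul,
        RO_mxF_act]
  have hltq : ∀ (q : LinearMap.ker d) (m : E),
      lt (mxS L (s2 q) m) = m • (fun k => τ ((q : Fin a1 → Zg K) k)) := by
    intro q m
    rw [claim2, hs2]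
    ext k
    rw [mxF_apply, haR]
    rfl
  have hmap : Submodule.map lt V = Submodule.span E {v : Fin a1 → E |
        ∃ q : LinearMap.ker d, v = fun k => τ ((q : Fin a1 → Zg K) k)} := by
    apply le_antisymm
    · rw [hV, Submodule.map_span, Submodule.span_le]
      rintro _ ⟨_, ⟨q, m, rfl⟩, rfl⟩
      rw [hltq]
      exact Submodule.smul_mem _ _ (Submodule.subset_span ⟨q, rfl⟩)
    · rw [Submodule.span_le]
      rintro _ ⟨q, rfl⟩
      refine ⟨mxS L (s2 q) 1, Submodule.subset_span ⟨q, 1, rfl⟩, ?_⟩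
      rw [hltq, one_smul]
  -- (4) the annihilator
  let U : Submodule E (Fin a1 → E) :=
    { carrier := {u | ∀ q : LinearMap.ker d,
        ∑ k, actT L (w.comp K.subtype) ((q : Fin a1 → Zg K) k) (u k) = 0}
      zero_mem' := by
        intro q
        apply Finset.sum_eq_zero
        intro k _
        rw [Pi.zero_apply, map_zero]
      add_mem' := by
        intro a b ha hb q
        have h1 := ha q
        have h2 := hb q
        have h3 : ∑ k, actT L (w.comp K.subtype) ((q : Fin a1 → Zg K) k) ((a + b) k) =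
            ∑ k, actT L (w.comp K.subtype) ((q : Fin a1 → Zg K) k) (a k) +
            ∑ k, actT L (w.comp K.subtype) ((q : Fin a1 → Zg K) k) (b k) := by
          rw [← Finset.sum_add_distrib]
          refine Finset.sum_congr rfl fun k _ => ?_
          rw [Pi.add_apply, map_add]
        rw [h3, h1, h2, add_zero]
      smul_mem' := by
        intro c a ha q
        have h1 := ha q
        have h3 : ∑ k, actT L (w.comp K.subtype) ((q : Fin a1 → Zg K) k) ((c • a) k) =
            c • ∑ k, actT L (w.comp K.subtype) ((q : Fin a1 → Zg K) k) (a k) := by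
          rw [Finset.smul_sum]
          refine Finset.sum_congr rfl fun k _ => ?_
          rw [Pi.smul_apply, map_smul]
        rw [h3, h1, smul_zero] }
  have hUmem : ∀ u, u ∈ U ↔ ∀ q : LinearMap.ker d,
      ∑ k, actT L (w.comp K.subtype) ((q : Fin a1 → Zg K) k) (u k) = 0 := fun u => Iff.rfl
  have hann := div_ann θ hθ {v : Fin a1 → E' |
        ∃ q : LinearMap.ker d, v = fun k => τ' ((q : Fin a1 → Zg K) k)} U (by
    intro u
    rw [hUmem]
    have h1 : ∀ q : LinearMap.ker d,
        θ (∑ k, actT L (w.comp K.subtype) ((q : Fin a1 → Zg K) k) (u k)) =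
          ∑ k, τ' ((q : Fin a1 → Zg K) k) * θ (u k) := by
      intro q
      rw [map_sum]
      refine Finset.sum_congr rfl fun k _ => ?_
      rw [haT, hθ, hτ']
    constructor
    · rintro h _ ⟨q, rfl⟩
      rw [← h1, h q, map_zero]
    · intro h q
      have h2 := h _ ⟨q, rfl⟩
      beta_reduce at h2
      rw [← h1] at h2
      exact (map_eq_zero_iff θ θ.injective).1 h2)
  -- (5) the coboundaries
  let cob : (Fin a0 → E) →ₗ[E] (Fin a1 → E) :=
    LinearMap.pi fun k => ∑ l, (actT L (w.comp K.subtype) (d (Pi.single k 1) l)) ∘ₗ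
      LinearMap.proj l
  have hcob : ∀ b k, cob b k = ∑ l, actT L (w.comp K.subtype) (d (Pi.single k 1) l) (b l) := by
    intro b k
    simp [cob]
  let bh : (Fin a0 → E) → (Fin a0 → Zg K) →+ E := fun b =>
    { toFun := fun y => ∑ l, actT L (w.comp K.subtype) (y l) (b l)
      map_zero' := by simp
      map_add' := by
        intro x y
        rw [← Finset.sum_add_distrib]
        refine Finset.sum_congr rfl fun l _ => ?_
        rw [Pi.add_apply, map_add, LinearMap.add_apply] }
  have hbh : ∀ b y, bh b y = ∑ l, actT L (w.comp K.subtype) (y l) (b l) := fun _ _ => rfl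
  have hbhs : ∀ b (c : Zg K) y, bh b (c • y) = actT L (w.comp K.subtype) c (bh b y) := by
    intro b c y
    rw [hbh, hbh, map_sum]
    refine Finset.sum_congr rfl fun l _ => ?_
    rw [Pi.smul_apply, smul_eq_mul, actT_mul, Module.End.mul_apply]
  have hbhd : ∀ b (q : Fin a1 → Zg K),
      ∑ k, actT L (w.comp K.subtype) (q k) (cob b k) = bh b (d q) := by
    intro b q
    conv_rhs => rw [RO_basis q, map_sum, map_sum]
    refine Finset.sum_congr rfl fun k _ => ?_
    rw [map_smul, hbhs, hcob]
    rfl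
  have hcobU : ∀ b, cob b ∈ U := by
    intro b
    rw [hUmem]
    intro q
    rw [hbhd, LinearMap.mem_ker.1 q.2, map_zero]
  have hcobinj : ∀ b, cob b = 0 → b = 0 := by
    intro b hb
    have h1 : ∀ q, bh b (d q) = 0 := by
      intro q
      rw [← hbhd, hb]
      apply Finset.sum_eq_zero
      intro k _
      rw [Pi.zero_apply, map_zero]
    have h2 : ∀ y, εP y = 0 → bh b y = 0 := by
      intro y hy
      obtain ⟨q, hq⟩ := (hex y).1 hy
      rw [← hq]
      exact h1 q
    obtain ⟨k, hk⟩ := exists_ne (1 : K)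
    have h3 : ∀ y, bh b y = 0 := by
      intro y
      have h4 : bh b (el k • y - y) = 0 := by
        apply h2
        rw [map_sub, hε, sub_self]
      rw [map_sub, hbhs, haT, ivo_el, sub_eq_zero] at h4
      exact RO_cancel τ hτ hk h4
    ext l
    have h5 := h3 (Pi.single l 1)
    rw [hbh, Finset.sum_eq_single l] at h5
    · rw [Pi.single_eq_same, actT_one, Module.End.one_apply] at h5
      exact h5
    · intro j _ hj
      rw [Pi.single_eq_of_ne hj, map_zero, LinearMap.zero_apply]
    · intro h
      exact absurd (Finset.mem_univ l) h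
  -- (6) the count
  have hcount := RO_count V hVfin lt Θ cob U hcobU hcobinj
    (fun v hv hv0 => (hUmem _).2 (hΘ v hv hv0).1)
    (fun v hv hv0 b hb => (hΘ v hv hv0).2 ⟨b, fun k => by rw [hb, hcob]⟩)
  rw [hmap] at hcount
  omega

end PDT
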