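import Pool.Agent.Lib.PDT.Base
import Pool.Agent.Lib.PDT.Base3

/-!
# PDT/SpecInd: independence after specialization implies independence

`τ : ℤ[K] → Λ`, `Λ` without zero divisors, `ι : Λ → E` injective with left denominators, `x ∈ Λ`
central, `∩ xⁿ Λ = 0`, `π : Λ → F` with kernel `xΛ`, `π(τ(el k)) = 1`.

Complete proof.  `π (τ y) = (aug y : F)` for all `y : Zg K` (`zhom_ext` for
`π ∘ τ` and `Int.cast ∘ aug`).  Let `lam` be as in the statement.  Choose `s ≠ 0`, `a_i` with
`ι s * lam i = ι a_i`.  Then `ι (Σ a_i τ(f p_i)) = ι s * Σ lam_i ι(τ(f p_i)) = 0`, so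
`Σ_i a_i τ(f p_i) = 0` for every functional `f`.  Suppose some `a_i ≠ 0`.  There is a largest `n` such
that all `a_i` are divisible by `x^n` (by `hsep` for the nonzero `a_i`: divisibility by `x^n` for all
`n` is impossible; it is monotone in `n`): `a_i = x^n b_i`, not all `b_i` divisible by `x` (otherwise all
`a_i` are divisible by `x^(n+1)`).  `x^n Σ b_i τ(f p_i) = 0` and `x^n ≠ 0`, so `Σ b_i τ(f p_i) = 0`;
apply `π`: `Σ π(b_i) (aug (f p_i) : F) = 0` for all `f`, so `π(b_i) = 0` for all `i` by `hp`, i.e. all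
`b_i` are divisible by `x`: contradiction.  So all `a_i = 0` and `ι s * lam i = 0`, `lam i = 0`.
-/

namespace PDT

open Function

theorem spec_ind {K : Type*} [Group K] {P : Type*} [AddCommGroup P] [Module (Zg K) P]
    {Λ E F : Type*} [Ring Λ] [NoZeroDivisors Λ] [DivisionRing E] [CommRing F] (τ : Zg K →+* Λ)
    (ι : Λ →+* E) (hι : Injective ι)
    (hfr : ∀ (n : ℕ) (e : Fin n → E), ∃ s : Λ, s ≠ 0 ∧ ∀ i, ∃ a, ι s * e i = ι a) (x : Λ)
    (hx : ∀ y : Λ, x * y = y * x) (hx0 : x ≠ 0)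
    (hsep : ∀ y : Λ, (∀ n : ℕ, ∃ z, y = x ^ n * z) → y = 0) (π : Λ →+* F)
    (hker : ∀ y, π y = 0 ↔ ∃ z, y = x * z) (hπ : ∀ k : K, π (τ (el k)) = 1) {r : ℕ}
    (p : Fin r → P)
    (hp : ∀ c : Fin r → F, (∀ f : P →ₗ[Zg K] Zg K, ∑ i, c i * (aug (f (p i)) : F) = 0) → c = 0) :
    ∀ lam : Fin r → E, (∀ f : P →ₗ[Zg K] Zg K, ∑ i, lam i * ι (τ (f (p i))) = 0) → lam = 0 := by
  have hπτ : ∀ y : Zg K, π (τ y) = (aug y : F) := by
    have h1 : ((π.comp τ : Zg K →+* F) : Zg K →+ F) =
        ((Int.castRingHom F : ℤ →+* F) : ℤ →+ F).comp aug := by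
      apply zhom_ext
      intro g
      simp [hπ]
    intro y
    exact DFunLike.congr_fun h1 y
  intro lam hlam
  obtain ⟨s, hs, hsl⟩ := hfr r lam
  choose a ha using hsl
  have h0 : ∀ f : P →ₗ[Zg K] Zg K, ∑ i, a i * τ (f (p i)) = 0 := by
    intro f
    apply hι
    rw [map_sum, map_zero]
    have h2 : ∀ i, ι (a i * τ (f (p i))) = ι s * (lam i * ι (τ (f (p i)))) := by
      intro i
      rw [map_mul, ← ha i, mul_assoc]
    simp_rw [h2]
    rw [← Finset.mul_sum, hlam f, mul_zero]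
  have key : ∀ n : ℕ, ∃ b : Fin r → Λ, ∀ i, a i = x ^ n * b i := by
    intro n
    induction n with
    | zero => exact ⟨a, fun i => by rw [pow_zero, one_mul]⟩
    | succ n ih =>
      obtain ⟨b, hb⟩ := ih
      have h3 : ∀ f : P →ₗ[Zg K] Zg K, ∑ i, b i * τ (f (p i)) = 0 := by
        intro f
        have h4 : x ^ n * ∑ i, b i * τ (f (p i)) = 0 := by
          rw [Finset.mul_sum, ← h0 f]
          refine Finset.sum_congr rfl fun i _ => ?_
          rw [hb i, mul_assoc]
        rcases mul_eq_zero.1 h4 with h5 | h5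
        · exact absurd h5 (pow_ne_zero n hx0)
        · exact h5
      have h6 : (fun i => π (b i)) = 0 := by
        apply hp
        intro f
        have h7 := congrArg π (h3 f)
        rw [map_sum, map_zero] at h7
        rw [← h7]
        refine Finset.sum_congr rfl fun i _ => ?_
        rw [map_mul, hπτ]
      have h8 : ∀ i, ∃ z, b i = x * z := fun i => (hker (b i)).1 (congrFun h6 i)
      choose z hz using h8
      exact ⟨z, fun i => by rw [hb i, hz i, pow_succ, mul_assoc]⟩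
  have h9 : ∀ i, a i = 0 := by
    intro i
    apply hsep
    intro n
    obtain ⟨b, hb⟩ := key n
    exact ⟨b i, hb i⟩
  funext i
  have h10 : ι s * lam i = 0 := by rw [ha i, h9 i, map_zero]
  have h11 : ι s ≠ 0 := by
    intro h
    exact hs (hι (by rw [h, map_zero]))
  exact (mul_eq_zero.1 h10).resolve_left h11

end PDT
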