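import Pool.Agent.Lib.PDT.MainA
import Pool.Agent.Lib.PDT.CoindRep
import Pool.Agent.Lib.PDT.LinGrp
import Pool.Agent.Lib.PDT.OreFrac
import Pool.Agent.Lib.PDT.RankOne
import Pool.Agent.Lib.PDT.SpecInd
import Pool.Agent.Lib.PDT.Restr
import Pool.Agent.Lib.PDT.RankCount
import Pool.Agent.Lib.PDT.InfAb

/-!
# PDT/MainB: linear subgroups of PD(3)-groups

`G` a PD(3)-group, `H ≤ G` finitely generated, of infinite index, linear over a field of
characteristic zero.  Then `H` is of type FP, and if `H` is infinite, its abelianization is infinite.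
-/

namespace PDT

open Function MulOpposite

universe u v

/-- Finite type from an embedding of the group ring of a finite index subgroup in a noetherian ring
without zero divisors. -/
theorem fp_of_virtual {G : Type u} [Group G] (hG : IsPD3 G) (H : Subgroup G) (hfg : H.FG)
    (hidx : H.index = 0) (H0 : Subgroup H) [H0.FiniteIndex] {Λ : Type*} [Ring Λ]
    [IsNoetherianRing Λ] [NoZeroDivisors Λ] (τ : Zg H0 →+* Λ) (hτ : Injective τ) : IsFP2 H := by
  obtain ⟨M, L, hM, hfaith, hinv⟩ := coind_rep H0 τ hτ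
  exact mainA hG H hfg hidx L hfaith hinv

section rank

variable {G : Type u} [Group G]

/-- Right multiplication representation. -/
noncomputable def rmRep {K : Type*} [Group K] {Λ : Type*} [Ring Λ] (τ : Zg K →+* Λ) : K →* Module.End Λ Λ where
  toFun k := LinearMap.toSpanSingleton Λ Λ (τ (el k⁻¹))
  map_one' := by
    ext
    simp [el_one]
  map_mul' x y := by
    ext
    simp [el_mul]

theorem rmRep_apply {K : Type*} [Group K] {Λ : Type*} [Ring Λ] (τ : Zg K →+* Λ) (k : K) (m : Λ) :
    rmRep τ k m = m * τ (el k⁻¹) := rfl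

theorem actR_rmRep {K : Type*} [Group K] {Λ : Type*} [Ring Λ] (τ : Zg K →+* Λ) (y : Zg K)
    (m : Λ) : actR (rmRep τ) y m = m * τ y := by
  have h : (LinearMap.evalAddMonoidHom m : (Module.End Λ Λ) →+ Λ).comp (actR (rmRep τ)) =
      (AddMonoidHom.mulLeft m).comp τ.toAddMonoidHom := by
    apply zhom_ext
    intro k
    simp [rmRep_apply]
  exact DFunLike.congr_fun h y

theorem rmRep_inv {K : Type*} [Group K] {Λ : Type*} [Ring Λ] [NoZeroDivisors Λ]
    (τ : Zg K →+* Λ) (hτ : Injective τ) (K' : Subgroup K) (hK' : Infinite K') (m : Λ)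
    (h : ∀ k ∈ K', rmRep τ k m = m) : m = 0 := by
  obtain ⟨⟨k, hk⟩, hne⟩ := exists_ne (1 : K')
  have h1 := h k hk
  rw [rmRep_apply] at h1
  have h2 : m * (τ (el k⁻¹) - 1) = 0 := by rw [mul_sub, h1, mul_one, sub_self]
  rcases mul_eq_zero.mp h2 with h3 | h3
  · exact h3
  · exfalso
    apply hne
    have h4 : τ (el k⁻¹) = τ 1 := by rw [map_one]; exact sub_eq_zero.mp h3
    have h5 := hτ h4
    rw [← el_one] at h5
    have h6 : k⁻¹ = 1 := by
      have := congrArg (fun y : Zg K => y.coeff 1) h5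
      by_contra hk1
      simp [el, hk1] at this
    ext
    simpa using h6

/-- The rank inequality, summed over `E` and its opposite. -/
theorem rank_sum (R : Res G) (K : Subgroup G) (hK : Infinite K)
    (w : G →* ℤˣ) (hw : ∀ (x : G) (f : R.Q3 →ₗ[Zg G] Zg G), R.e (tw w x f) = R.e f)
    (hwK : ∀ k : K, w k = 1) {E : Type*} [DivisionRing E] (τ : Zg K →+* E) (hτ : Injective τ)
    {a0 a1 : ℕ} (εP : (Fin a0 → Zg K) →+ ℤ)
    (hε : ∀ (h : K) (p : Fin a0 → Zg K), εP (el h • p) = εP p) (hs : Surjective εP)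
    (d : (Fin a1 → Zg K) →ₗ[Zg K] (Fin a0 → Zg K))
    (hex : ∀ p : Fin a0 → Zg K, εP p = 0 ↔ ∃ q, d q = p)
    (hproj : Module.Projective (Zg K) (LinearMap.ker d))
    (hfin : Module.Finite (Zg K) (LinearMap.ker d)) {r : ℕ} (p : Fin r → LinearMap.ker d)
    (hp : ∀ lam : Fin r → E, (∀ f : LinearMap.ker d →ₗ[Zg K] Zg K,
      ∑ i, lam i * τ (f (p i)) = 0) → lam = 0)
    (hp' : ∀ lam : Fin r → Eᵐᵒᵖ, (∀ f : LinearMap.ker d →ₗ[Zg K] Zg K,
      ∑ i, lam i * op (τ (ivo (f (p i)))) = 0) → lam = 0) :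
    r + a0 ≤ a1 := by
  let τ' : Zg K →+* Eᵐᵒᵖ :=
    { toFun := fun y => op (τ (ivo y))
      map_one' := by rw [ivo_one, map_one]; rfl
      map_mul' := by intro x y; rw [ivo_mul, map_mul]; rfl
      map_zero' := by simp
      map_add' := by intro x y; simp }
  have hτ'e : ∀ y, τ' y = op (τ (ivo y)) := fun y => rfl
  have hτ'i : Injective τ' := by
    intro x y hxy
    have h1 : ivo x = ivo y := hτ (op_injective hxy)
    rw [← ivo_ivo x, h1, ivo_ivo]
  have h1 := rank_one R K hK w hw hwK (opAddEquiv : E ≃+ Eᵐᵒᵖ) (fun a b => rfl) τ hτ τ'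
    (fun y => rfl) εP hε hs d hex hproj hfin p hp
  have h2 := rank_one R K hK w hw hwK (opAddEquiv : E ≃+ Eᵐᵒᵖ).symm (fun a b => rfl) τ' hτ'i τ
    (fun y => by
      change τ y = unop (op (τ (ivo (ivo y))))
      rw [ivo_ivo, unop_op]) εP hε hs d hex hproj hfin p hp'
  omega

/-- An additive equivariant map is linear. -/
theorem exists_lin {K : Type*} [Group K] {P Q : Type*} [AddCommGroup P] [Module (Zg K) P]
    [AddCommGroup Q] [Module (Zg K) Q] (f : P →+ Q) (hf : ∀ (k : K) p, f (el k • p) = el k • f p) :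
    ∃ f' : P →ₗ[Zg K] Q, ∀ p, f' p = f p := by
  refine ⟨{ toFun := f, map_add' := map_add f, map_smul' := ?_ }, fun p => rfl⟩
  intro y p
  change f (y • p) = y • f p
  induction y using Zg.ind with
  | h0 => simp
  | hel g => exact hf g p
  | hadd x y hx hy => rw [add_smul, map_add, hx, hy, add_smul]
  | hneg x hx => rw [neg_smul, map_neg, hx, neg_smul]

theorem mainB (hG : IsPD3 G) (H : Subgroup G) (hfg : H.FG)
    (hidx : H.index = 0) {K : Type v} [Field K] [CharZero K] (N : ℕ) (ρ : H →* GL (Fin N) K)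
    (hρ : Injective ρ) : IsFP2 H ∧ (Infinite H → Infinite (Abelianization H)) := by
  classical
  have hFG : Group.FG H := (Group.fg_iff_subgroup_fg H).mpr hfg
  obtain ⟨H0, hH0, Λ, iΛ, τ, x, p, F, iF, π, hτ, hn1, hn2, hnzd, hnt, hxc, hx0, hxs, hFd, hπs, hπk,
    hπ, hp, hpF⟩ := linear_embedding H hFG N ρ hρ
  refine ⟨fp_of_virtual hG H hfg hidx H0 τ hτ, fun hH => ?_⟩
  obtain ⟨R⟩ := hG
  obtain ⟨w, hw⟩ := exists_w R
  have hQ := infinite_quot H hidx
  obtain ⟨M, L, hM, hfaith, hinv⟩ := coind_rep H0 τ hτ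
  obtain ⟨n, d, hd⟩ := aug_presentation H hFG
  obtain ⟨hε, hs⟩ := aug1_props H
  have hproj : Module.Projective (Zg H) (LinearMap.ker d) := syz R H hQ _ hε hs d hd
  have hfin : Module.Finite (Zg H) (LinearMap.ker d) := ker_fin R H hQ L hfaith hinv _ hε hs d hd
  obtain ⟨k, e, f, hef⟩ := dualBasis (G := H) (LinearMap.ker d)
  -- the normal subgroup
  let N0 : Subgroup H := H0.normalCore ⊓ (w.comp H.subtype).ker
  have hNn : N0.Normal := inferInstance
  have hNf : N0.FiniteIndex := inferInstance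
  obtain ⟨r', q, hr', hq⟩ := rank_count N0 e f hef p hp hpF
  apply infinite_ab d hd e f hef
  rw [← hr']
  let Kg : Subgroup G := N0.map H.subtype
  have hKgH : Kg ≤ H := Subgroup.map_subtype_le N0
  let j : Kg →* H := Subgroup.inclusion hKgH
  have hj : Injective j := Subgroup.inclusion_injective hKgH
  let σ : N0 ≃* Kg := N0.equivMapOfInjective H.subtype H.subtype_injective
  have hσ : ∀ u : N0, j (σ u) = (u : H) := by
    intro u
    apply Subtype.ext
    rfl
  have hjN : ∀ u : Kg, j u ∈ N0 := by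
    intro u
    obtain ⟨v, rfl⟩ := σ.surjective u
    rw [hσ]
    exact v.2
  have hjr : j.range = N0 := by
    ext u
    constructor
    · rintro ⟨v, rfl⟩; exact hjN v
    · intro hu; exact ⟨σ ⟨u, hu⟩, hσ ⟨u, hu⟩⟩
  have hfi : j.range.FiniteIndex := by rw [hjr]; exact hNf
  have hNinf : Infinite N0 := by
    by_contra hc
    rw [not_infinite_iff_finite] at hc
    exact not_finite_iff_infinite.mpr hH (Finite.of_subgroup_quotient N0)
  have hKinf : Infinite Kg := Infinite.of_injective σ σ.injective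
  have hQ' : Infinite (G ⧸ Kg) := by
    apply infinite_quot
    have := Subgroup.index_dvd_of_le hKgH
    rw [hidx] at this
    exact zero_dvd_iff.mp this
  have hwK : ∀ u : Kg, w u = 1 := fun u => (hjN u).2
  let c : Kg →* H0 :=
    { toFun := fun u => ⟨j u, Subgroup.normalCore_le H0 (hjN u).1⟩
      map_one' := by ext; simp
      map_mul' := by intro u v; ext; simp }
  have hc : Injective c := by
    intro u v huv
    apply hj
    exact congrArg (fun z : H0 => (z : H)) huv
  let τK : Zg Kg →+* Λ := τ.comp (MonoidAlgebra.mapDomainRingHom ℤ c)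
  have hτK : Injective τK := hτ.comp (MonoidAlgebra.mapDomain_injective hc)
  have hτKe : ∀ u : Kg, τK (el u) = τ (el (c u)) := by
    intro u
    change τ (MonoidAlgebra.mapDomain c (MonoidAlgebra.single u 1)) = τ (MonoidAlgebra.single (c u) 1)
    rw [MonoidAlgebra.mapDomain_single]
  obtain ⟨εP', d', Φ, hε', hs', hex', hΦ⟩ := restr j hj hfi _ hε hs d hd
  have hproj' : Module.Projective (Zg Kg) (LinearMap.ker d') := syz R Kg hQ' εP' hε' hs' d' hex'
  have hfin' : Module.Finite (Zg Kg) (LinearMap.ker d') := by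
    refine ker_fin R Kg hQ' (rmRep τK) ?_ (fun K' hK' m h => rmRep_inv τK hτK K' hK' m h)
      εP' hε' hs' d' hex'
    intro y hy
    have h1 := hy 1
    rw [actR_rmRep, one_mul] at h1
    exact hτK (by rw [h1, map_zero])
  let p' : Fin (N0.index * r') → LinearMap.ker d' := fun i => Φ (q i)
  have hp0 : ∀ cc : Fin (N0.index * r') → F, (∀ f : LinearMap.ker d' →ₗ[Zg Kg] Zg Kg,
      ∑ i, cc i * (aug (f (p' i)) : F) = 0) → cc = 0 := by
    intro cc hcc
    apply hq cc
    intro g hg
    let T' : Zg N0 →+ Zg Kg := zl fun u => el (σ u)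
    have hT'mul : ∀ (u : N0) y, T' (el u * y) = el (σ u) * T' y := by
      intro u y
      have h : T'.comp (AddMonoidHom.mulLeft (el u)) =
          (AddMonoidHom.mulLeft (el (σ u))).comp T' := by
        apply zhom_ext
        intro v
        simp [T', ← el_mul]
      exact DFunLike.congr_fun h y
    have hT'aug : ∀ y, aug (T' y) = aug y := by
      intro y
      have h : (aug : Zg Kg →+ ℤ).comp T' = aug := by
        apply zhom_ext
        intro v
        simp [T']
      exact DFunLike.congr_fun h y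
    obtain ⟨f', hf'⟩ := exists_lin (T'.comp (g.comp Φ.symm.toAddMonoidHom)) (by
      intro u y
      obtain ⟨v, rfl⟩ := σ.surjective u
      have h1 : Φ.symm (el (σ v) • y) = el (v : H) • Φ.symm y := by
        apply Φ.injective
        rw [Φ.apply_symm_apply, ← hσ v, hΦ, Φ.apply_symm_apply]
      change T' (g (Φ.symm (el (σ v) • y))) = el (σ v) • T' (g (Φ.symm y))
      rw [h1, hg, smul_eq_mul, hT'mul, smul_eq_mul])
    have h2 := hcc f'
    refine (Finset.sum_congr rfl fun i _ => ?_).trans h2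
    rw [hf']
    change cc i * ((aug (g (q i)) : ℤ) : F) = cc i * ((aug (T' (g (Φ.symm (Φ (q i))))) : ℤ) : F)
    rw [Φ.symm_apply_apply, hT'aug]
  obtain ⟨E, iE, ι, hι, hfrL, hfrR⟩ := ore_frac Λ
  have hπK : ∀ u : Kg, π (τK (el u)) = 1 := fun u => by rw [hτKe, hπ]
  have hpE := spec_ind τK ι hι hfrL x hxc hx0 hxs π hπk hπK p' hp0
  let τK' : Zg Kg →+* Λᵐᵒᵖ :=
    { toFun := fun y => op (τK (ivo y))
      map_one' := by rw [ivo_one, map_one]; rfl
      map_mul' := by intro x y; rw [ivo_mul, map_mul]; rfl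
      map_zero' := by simp
      map_add' := by intro x y; simp }
  let π' : Λᵐᵒᵖ →+* F := RingHom.fromOpposite π fun a b => mul_comm _ _
  have hπ'a : ∀ y : Λᵐᵒᵖ, π' y = π (unop y) := fun y => rfl
  have hfr' : ∀ (n : ℕ) (e : Fin n → Eᵐᵒᵖ), ∃ s : Λᵐᵒᵖ, s ≠ 0 ∧
      ∀ i, ∃ a, (RingHom.op ι) s * e i = (RingHom.op ι) a := by
    intro n e
    obtain ⟨s, hs0, hs1⟩ := hfrR n fun i => unop (e i)
    refine ⟨op s, by simpa using hs0, fun i => ?_⟩
    obtain ⟨a, ha⟩ := hs1 i
    refine ⟨op a, ?_⟩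
    apply unop_injective
    exact ha
  have hpE' := spec_ind τK' (RingHom.op ι) (by
      intro a b hab
      apply unop_injective
      exact hι (congrArg unop hab)) hfr' (op x)
    (fun y => by
      apply unop_injective
      exact (hxc (unop y)).symm) (by simpa using hx0)
    (fun y hy => by
      apply unop_injective
      apply hxs (unop y)
      intro n
      obtain ⟨z, hz⟩ := hy n
      refine ⟨unop z, ?_⟩
      have h1 : ∀ n : ℕ, ∀ t : Λ, x ^ n * t = t * x ^ n := by
        intro n t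
        exact ((show Commute x t from hxc t).pow_left n).eq
      rw [h1, hz]
      simp) π'
    (fun y => by
      rw [hπ'a, hπk]
      constructor
      · rintro ⟨z, hz⟩
        refine ⟨op z, ?_⟩
        apply unop_injective
        rw [hz, hxc]
        rfl
      · rintro ⟨z, rfl⟩
        refine ⟨unop z, ?_⟩
        rw [hxc]
        rfl)
    (fun u => by
      change π (τK (ivo (el u))) = 1
      rw [ivo_el, hπK]) p' hp0
  have key := rank_sum R Kg hKinf w hw hwK (ι.comp τK) (hι.comp hτK) εP' hε' hs' d' hex' hproj'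
    hfin' p' hpE hpE'
  have hm : j.range.index = N0.index := by rw [hjr]
  rw [hm] at key
  have hm0 : 0 < N0.index := Nat.pos_of_ne_zero hNf.index_ne_zero
  have h3 : N0.index * (r' + 1) ≤ N0.index * n := by linarith [mul_comm n N0.index]
  have h4 : r' + 1 ≤ n := Nat.le_of_mul_le_mul_left h3 hm0
  exact_mod_cast h4

end rank

end PDT
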