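import Pool.Agent.Lib.PDT.Base4

/-!
# PDT/NakP: Nakayama's lemma for a finite `p`-group

`P` an `H`-module with a section `s2 : P → (P →₀ Zg H)`, `x : Fin a → P` independent modulo `p`, `N` a normal
subgroup with `H ⧸ N` a finite `p`-group, `M = (H ⧸ N → ZMod p)`.  If `Σ_i mxS L (s2 (x i)) (m i) = 0` then
`m = 0`.

The finite `p`-group `H ⧸ N` acts by right translations on the finite vector space of the solutions `m`;
if this is nonzero there is a nonzero fixed point, that is a solution with constant coordinates `c i`,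
and then `c = 0` by the independence of `x` modulo `p`.
-/

namespace PDT

section NakP_aux

variable {H : Type*} [Group H] (N : Subgroup H) [N.Normal] (k : Type*) [CommRing k]

/-- Right translations of the functions on `H ⧸ N`. -/
private def NakP_rt (g : H ⧸ N) : Module.End k ((H ⧸ N) → k) :=
  LinearMap.funLeft k k fun q => q * g

private theorem NakP_rt_apply (g : H ⧸ N) (f : (H ⧸ N) → k) (q : H ⧸ N) :
    NakP_rt N k g f q = f (q * g) := rfl

private theorem NakP_smul_mul (h : H) (q g : H ⧸ N) : (h • q) * g = h • (q * g) := by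
  induction q using QuotientGroup.induction_on with
  | H a =>
    induction g using QuotientGroup.induction_on with
    | H b =>
      rw [← QuotientGroup.mk_mul, MulAction.Quotient.smul_coe, MulAction.Quotient.smul_coe,
        ← QuotientGroup.mk_mul, smul_eq_mul, smul_eq_mul, mul_assoc]

private theorem NakP_comm (y : Zg H) (g : H ⧸ N) (f : (H ⧸ N) → k) :
    actR (trQ N k) y (NakP_rt N k g f) = NakP_rt N k g (actR (trQ N k) y f) := by
  refine Zg.ind (P := fun y => actR (trQ N k) y (NakP_rt N k g f) =
    NakP_rt N k g (actR (trQ N k) y f)) y ?_ ?_ ?_ ?_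
  · simp
  · intro h
    ext q
    rw [actR_el, NakP_rt_apply, trQ_apply, trQ_apply, NakP_rt_apply, NakP_smul_mul]
  · intro a b ha hb
    rw [map_add, LinearMap.add_apply, LinearMap.add_apply, map_add, ha, hb]
  · intro a ha
    rw [map_neg, LinearMap.neg_apply, LinearMap.neg_apply, map_neg, ha]

omit [N.Normal] in
private theorem NakP_const (y : Zg H) (c : k) :
    actR (trQ N k) y (fun _ => c) = fun _ => (aug y : k) * c := by
  refine Zg.ind (P := fun y => actR (trQ N k) y (fun _ => c) = fun _ => (aug y : k) * c)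
    y ?_ ?_ ?_ ?_
  · ext q
    simp
  · intro h
    ext q
    rw [actR_el, trQ_apply, aug_el]
    simp
  · intro a b ha hb
    rw [map_add, LinearMap.add_apply, ha, hb, map_add]
    ext q
    simp only [Pi.add_apply]
    push_cast
    ring
  · intro a ha
    rw [map_neg, LinearMap.neg_apply, ha, map_neg]
    ext q
    simp only [Pi.neg_apply]
    push_cast
    ring

end NakP_aux

private theorem NakP_dual {H : Type*} [Group H] {P : Type*} [AddCommGroup P]
    [Module (Zg H) P] (s2 : P →ₗ[Zg H] (P →₀ Zg H))
    (hs2 : ∀ q, Finsupp.linearCombination (Zg H) id (s2 q) = q) (f : P →ₗ[Zg H] Zg H) (q : P)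
    (S : Finset P) (hS : (s2 q).support ⊆ S) :
    aug (f q) = ∑ j ∈ S, aug (s2 q j) * aug (f j) := by
  have h1 : f q = ∑ j ∈ S, (s2 q j) * f j := by
    conv_lhs => rw [← hs2 q]
    rw [Finsupp.linearCombination_apply, Finsupp.sum, map_sum]
    rw [← Finset.sum_subset hS]
    · apply Finset.sum_congr rfl
      intro j _
      rw [map_smul, smul_eq_mul, id]
    · intro j _ hj
      rw [Finsupp.notMem_support_iff.mp hj, zero_mul]
  rw [h1, map_sum]
  exact Finset.sum_congr rfl fun j _ => aug_mul _ _

theorem nak_p (p : ℕ) [Fact p.Prime] {H : Type*} [Group H] {P : Type*} [AddCommGroup P]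
    [Module (Zg H) P] (s2 : P →ₗ[Zg H] (P →₀ Zg H))
    (hs2 : ∀ q, Finsupp.linearCombination (Zg H) id (s2 q) = q) {a : ℕ} (x : Fin a → P)
    (hx : IndP p H x) (N : Subgroup H) (hN : PQ p N) (m : Fin a → (H ⧸ N) → ZMod p)
    (hm : ∑ i, mxS (trQ N (ZMod p)) (s2 (x i)) (m i) = 0) : m = 0 := by
  classical
  have : N.Normal := hN.1
  have : N.FiniteIndex := hN.2.1
  have : Finite (H ⧸ N) := Subgroup.finite_quotient_of_finiteIndex
  have hP : IsPGroup p (H ⧸ N) := by
    intro g
    induction g using QuotientGroup.induction_on with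
    | H h =>
      obtain ⟨n, hn⟩ := hN.2.2 h
      refine ⟨n, ?_⟩
      rw [← QuotientGroup.mk_pow]
      exact (QuotientGroup.eq_one_iff _).2 hn
  let A : Submodule (ZMod p) (Fin a → (H ⧸ N) → ZMod p) :=
    LinearMap.ker (∑ i, (mxS (trQ N (ZMod p)) (s2 (x i))) ∘ₗ LinearMap.proj i)
  have hA : ∀ v : Fin a → (H ⧸ N) → ZMod p, v ∈ A ↔
      ∑ i, mxS (trQ N (ZMod p)) (s2 (x i)) (v i) = 0 := by
    intro v
    rw [LinearMap.mem_ker, LinearMap.sum_apply]
    rfl
  have hAj : ∀ v : Fin a → (H ⧸ N) → ZMod p, v ∈ A ↔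
      ∀ j, ∑ i, actR (trQ N (ZMod p)) (s2 (x i) j) (v i) = 0 := by
    intro v
    rw [hA]
    constructor
    · intro h j
      have := DFunLike.congr_fun h j
      rw [Finsupp.finsetSum_apply] at this
      simpa using this
    · intro h
      ext1 j
      rw [Finsupp.finsetSum_apply]
      simpa using h j
  have hAg : ∀ (g : H ⧸ N) (v : Fin a → (H ⧸ N) → ZMod p), v ∈ A →
      (fun i => NakP_rt N (ZMod p) g (v i)) ∈ A := by
    intro g v hv
    rw [hAj] at hv ⊢
    intro j
    have h1 : ∑ i, actR (trQ N (ZMod p)) (s2 (x i) j) (NakP_rt N (ZMod p) g (v i)) =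
        NakP_rt N (ZMod p) g (∑ i, actR (trQ N (ZMod p)) (s2 (x i) j) (v i)) := by
      rw [map_sum]
      exact Finset.sum_congr rfl fun i _ => NakP_comm N (ZMod p) _ g _
    rw [h1, hv j, map_zero]
  let act : MulAction (H ⧸ N) A :=
    { smul := fun g v => ⟨fun i => NakP_rt N (ZMod p) g (v.1 i), hAg g v.1 v.2⟩
      one_smul := by
        intro v
        apply Subtype.ext
        funext i q
        change v.1 i (q * 1) = v.1 i q
        rw [mul_one]
      mul_smul := by
        intro g g' v
        apply Subtype.ext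
        funext i q
        change v.1 i (q * (g * g')) = v.1 i (q * g * g')
        rw [mul_assoc] }
  have hact : ∀ (g : H ⧸ N) (v : A) (i : Fin a) (q : H ⧸ N), (g • v).1 i q = v.1 i (q * g) :=
    fun _ _ _ _ => rfl
  by_contra hm0
  have hmA : m ∈ A := (hA m).2 hm
  have hdvd : p ∣ Nat.card A := by
    have h1 : addOrderOf (⟨m, hmA⟩ : A) = p := by
      apply addOrderOf_eq_prime
      · apply Subtype.ext
        funext i q
        change p • m i q = 0
        rw [nsmul_eq_mul, CharP.cast_eq_zero, zero_mul]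
      · intro h
        exact hm0 (congrArg Subtype.val h)
    have h2 := addOrderOf_dvd_natCard (⟨m, hmA⟩ : A)
    generalize Nat.card A = K at h2 ⊢
    rw [h1] at h2
    exact h2
  have h0 : (0 : A) ∈ MulAction.fixedPoints (H ⧸ N) A := by
    intro g
    apply Subtype.ext
    funext i q
    rfl
  obtain ⟨b, hb, hb0⟩ := hP.exists_fixed_point_of_prime_dvd_card_of_fixed_point A hdvd h0
  have hbc : ∀ i, b.1 i = fun _ => b.1 i 1 := by
    intro i
    funext q
    have := hact q b i 1
    rw [hb q, one_mul] at this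
    exact this.symm
  have hc0 : (fun i => b.1 i 1) = 0 := by
    apply hx
    intro f
    have hsum : ∀ j, ∑ i, (aug (s2 (x i) j) : ZMod p) * b.1 i 1 = 0 := by
      intro j
      have h1 := (hAj b.1).1 b.2 j
      have h2 := congrFun h1 1
      rw [Finset.sum_apply] at h2
      refine Eq.trans ?_ h2
      apply Finset.sum_congr rfl
      intro i _
      conv_rhs => rw [hbc i]
      rw [NakP_const]
    let S : Finset P := Finset.univ.biUnion fun i => (s2 (x i)).support
    have hS : ∀ i, (s2 (x i)).support ⊆ S := fun i =>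
      Finset.subset_biUnion_of_mem (fun i => (s2 (x i)).support) (Finset.mem_univ i)
    have h3 : ∀ i, b.1 i 1 * (aug (f (x i)) : ZMod p) =
        ∑ j ∈ S, ((aug (s2 (x i) j) : ZMod p) * b.1 i 1) * (aug (f j) : ZMod p) := by
      intro i
      rw [NakP_dual s2 hs2 f (x i) S (hS i)]
      push_cast
      rw [Finset.mul_sum]
      apply Finset.sum_congr rfl
      intro j _
      ring
    rw [Finset.sum_congr rfl fun i _ => h3 i, Finset.sum_comm]
    apply Finset.sum_eq_zero
    intro j _
    rw [← Finset.sum_mul, hsum j, zero_mul]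
  apply hb0
  apply Subtype.ext
  funext i q
  rw [hbc i]
  exact (congrFun hc0 i).symm

end PDT
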