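import Pool.Agent.Lib.PDT.ResFin

/-!
# PDT/ResSel: choice of a finite quotient

`H` residually a finite `p`-group, `K_1, …, K_r` infinite subgroups, `c : ℕ`.  There is `N` with `H ⧸ N` a
finite `p`-group such that every `K_j` has at least `c` different images in `H ⧸ N`.

Complete proof.  For every `j` choose an injective `f j : Fin c → K_j` (`Infinite.natEmbedding`), and apply
`res_fin` to `F = ` all the elements `(f j i)⁻¹ * f j i'`, `i ≠ i'`, which are `≠ 1`.
-/

namespace PDT

theorem res_sel (p : ℕ) {H : Type*} [Group H] (hH : ResP p H) {r : ℕ} (K : Fin r → Subgroup H)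
    (hK : ∀ j, Infinite (K j)) (c : ℕ) :
    ∃ (N : Subgroup H) (f : Fin r → Fin c → H), PQ p N ∧ (∀ j i, f j i ∈ K j) ∧
      ∀ j i i', (f j i)⁻¹ * f j i' ∈ N → i = i' := by
  classical
  have hg : ∀ j, ∃ g : Fin c → K j, Function.Injective g := by
    intro j
    have := hK j
    exact ⟨fun i => Infinite.natEmbedding (K j) (i : ℕ),
      fun a b hab => Fin.ext ((Infinite.natEmbedding (K j)).injective hab)⟩
  choose g hg using hg
  let f : Fin r → Fin c → H := fun j i => (g j i : H)
  let F : Finset H := ((Finset.univ : Finset (Fin r × Fin c × Fin c)).image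
    (fun t => (f t.1 t.2.1)⁻¹ * f t.1 t.2.2)).filter (fun x => x ≠ 1)
  have hF : ∀ x ∈ F, x ≠ 1 := fun x hx => (Finset.mem_filter.1 hx).2
  obtain ⟨N, hN, hNF⟩ := res_fin hH F hF
  refine ⟨N, f, hN, fun j i => (g j i).2, fun j i i' hmem => ?_⟩
  by_contra hne
  refine hNF ((f j i)⁻¹ * f j i') (Finset.mem_filter.2 ⟨Finset.mem_image.2
    ⟨(j, i, i'), Finset.mem_univ _, rfl⟩, fun h1 => hne ?_⟩) hmem
  have h2 : f j i = f j i' := by
    have h3 := congrArg (fun x => f j i * x) h1
    simpa using h3.symm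
  exact hg j (Subtype.ext h2)

end PDT
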