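import Pool.Agent.Lib.PDT.Base4

/-!
# PDT/TransRank: the matrix of `actT` is the transpose of the matrix of `actR`

`k` a field, `M = (H ⧸ N → k)`, `L = trQ N k`, `[H : N] < ∞`, `x : Fin a → Fin b → Zg H`.  `R : M^a → M^b`,
`(R m)_k = Σ_i actR L (x i k) (m i)` and `T : M^b → M^a`, `(T u)_i = Σ_k actT L 1 (x i k) (u k)`.

Complete proof.  On `M` consider the form `⟨m, m'⟩ = Σ_q m(q) m'(q)` (the dot product).
`⟨L(h) m, m'⟩ = Σ_q m(h⁻¹ q) m'(q) = ⟨m, L(h⁻¹) m'⟩`, so, additively in `y`,
`⟨actT L 1 y m, m'⟩ = ⟨m, actR L y m'⟩` for `y : Zg H` (`Zg.ind` or `zhom_ext`).  Hence for the forms on `M^a` and `M^b`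
(sums over the coordinates) `⟨T u, m⟩ = ⟨u, R m⟩`.  So `ker T = (range R)^⊥`, and `dim (range R)^⊥ =
dim M^b - dim (range R)` (nondegenerate form; `LinearMap.BilinForm.finrank_orthogonal`, or dual spaces:
`u ↦ ⟨u, ·⟩` is an isomorphism of `M^b` with its dual which maps `ker T` onto the
annihilator of `range R`, `Subspace.finrank_add_finrank_dualAnnihilator_eq`; or write both maps as matrices
indexed by `Fin b × (H ⧸ N)`, `Fin a × (H ⧸ N)`, `Matrix.rank_transpose`).
So `rank T = dim M^b - dim (ker T) = rank R`.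
-/

namespace PDT

open Module

private theorem TransRank_adj {H : Type*} [Group H] (N : Subgroup H) [Fintype (H ⧸ N)]
    (k : Type*) [Field k] (y : Zg H) : ∀ (m m' : (H ⧸ N) → k),
    ∑ q, actT (trQ N k) 1 y m q * m' q = ∑ q, m q * actR (trQ N k) y m' q := by
  refine Zg.ind (P := fun y => ∀ (m m' : (H ⧸ N) → k),
    ∑ q, actT (trQ N k) 1 y m q * m' q = ∑ q, m q * actR (trQ N k) y m' q) y ?_ ?_ ?_ ?_
  · intro m m'
    simp
  · intro g m m'
    have h1 : ∀ q, actT (trQ N k) 1 (el g) m q = m (g⁻¹ • q) := by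
      intro q
      rw [actT_el]
      simp
    have h2 : ∀ q, actR (trQ N k) (el g) m' q = m' (g • q) := by
      intro q
      rw [actR_el, trQ_apply, inv_inv]
    simp only [h1, h2]
    rw [← Equiv.sum_comp (MulAction.toPerm g : Equiv.Perm (H ⧸ N))]
    refine Finset.sum_congr rfl fun q _ => ?_
    simp
  · intro x y hx hy m m'
    have e1 : ∀ q, actT (trQ N k) 1 (x + y) m q =
        actT (trQ N k) 1 x m q + actT (trQ N k) 1 y m q := fun q => by
      rw [map_add]; rfl
    have e2 : ∀ q, actR (trQ N k) (x + y) m' q =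
        actR (trQ N k) x m' q + actR (trQ N k) y m' q := fun q => by
      rw [map_add]; rfl
    simp only [e1, e2, add_mul, mul_add, Finset.sum_add_distrib, hx m m', hy m m']
  · intro x hx m m'
    have e1 : ∀ q, actT (trQ N k) 1 (-x) m q = - actT (trQ N k) 1 x m q := fun q => by
      rw [map_neg]; rfl
    have e2 : ∀ q, actR (trQ N k) (-x) m' q = - actR (trQ N k) x m' q := fun q => by
      rw [map_neg]; rfl
    simp only [e1, e2, neg_mul, mul_neg, Finset.sum_neg_distrib, hx m m']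

private theorem TransRank_adj2 {H : Type*} [Group H] (N : Subgroup H) [Fintype (H ⧸ N)]
    (k : Type*) [Field k] {a b : ℕ} (x : Fin a → Fin b → Zg H)
    (R : (Fin a → (H ⧸ N) → k) →ₗ[k] (Fin b → (H ⧸ N) → k))
    (hR : ∀ m j, R m j = ∑ i, actR (trQ N k) (x i j) (m i))
    (T : (Fin b → (H ⧸ N) → k) →ₗ[k] (Fin a → (H ⧸ N) → k))
    (hT : ∀ u i, T u i = ∑ j, actT (trQ N k) 1 (x i j) (u j))
    (u : Fin b → (H ⧸ N) → k) (m : Fin a → (H ⧸ N) → k) :
    ∑ i, ∑ q, T u i q * m i q = ∑ j, ∑ q, u j q * R m j q := by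
  have h1 : ∀ i, ∑ q, T u i q * m i q =
      ∑ j, ∑ q, u j q * actR (trQ N k) (x i j) (m i) q := by
    intro i
    rw [hT u i, Finset.sum_comm]
    have e : ∀ q, (∑ j, actT (trQ N k) 1 (x i j) (u j)) q * m i q =
        ∑ j, actT (trQ N k) 1 (x i j) (u j) q * m i q := by
      intro q
      rw [Finset.sum_apply, Finset.sum_mul]
    simp only [e]
    rw [Finset.sum_comm]
    rw [Finset.sum_comm (s := Finset.univ (α := H ⧸ N))]
    exact Finset.sum_congr rfl fun j _ => TransRank_adj N k (x i j) (u j) (m i)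
  have h2 : ∀ j, ∑ q, u j q * R m j q =
      ∑ i, ∑ q, u j q * actR (trQ N k) (x i j) (m i) q := by
    intro j
    rw [hR m j, Finset.sum_comm]
    refine Finset.sum_congr rfl fun q _ => ?_
    rw [Finset.sum_apply, Finset.mul_sum]
  simp only [h1, h2]
  exact Finset.sum_comm

theorem trans_rank {H : Type*} [Group H] (N : Subgroup H) [N.FiniteIndex] (k : Type*) [Field k]
    {a b : ℕ} (x : Fin a → Fin b → Zg H)
    (R : (Fin a → (H ⧸ N) → k) →ₗ[k] (Fin b → (H ⧸ N) → k))
    (hR : ∀ m j, R m j = ∑ i, actR (trQ N k) (x i j) (m i))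
    (T : (Fin b → (H ⧸ N) → k) →ₗ[k] (Fin a → (H ⧸ N) → k))
    (hT : ∀ u i, T u i = ∑ j, actT (trQ N k) 1 (x i j) (u j)) :
    finrank k (LinearMap.range R) = finrank k (LinearMap.range T) := by
  classical
  haveI : Fintype (H ⧸ N) := Fintype.ofFinite _
  let ea : (Fin a × (H ⧸ N) → k) ≃ₗ[k] (Fin a → (H ⧸ N) → k) := LinearEquiv.curry k k (Fin a) (H ⧸ N)
  let eb : (Fin b × (H ⧸ N) → k) ≃ₗ[k] (Fin b → (H ⧸ N) → k) := LinearEquiv.curry k k (Fin b) (H ⧸ N)
  let R' : (Fin a × (H ⧸ N) → k) →ₗ[k] (Fin b × (H ⧸ N) → k) :=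
    eb.symm.toLinearMap ∘ₗ R ∘ₗ ea.toLinearMap
  let T' : (Fin b × (H ⧸ N) → k) →ₗ[k] (Fin a × (H ⧸ N) → k) :=
    ea.symm.toLinearMap ∘ₗ T ∘ₗ eb.toLinearMap
  have hrR : finrank k (LinearMap.range R') = finrank k (LinearMap.range R) := by
    have : LinearMap.range R' = (LinearMap.range R).map eb.symm.toLinearMap := by
      rw [LinearMap.range_comp, LinearMap.range_comp_of_range_eq_top]
      exact LinearEquiv.range ea
    rw [this]
    exact LinearEquiv.finrank_map_eq eb.symm _
  have hrT : finrank k (LinearMap.range T') = finrank k (LinearMap.range T) := by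
    have : LinearMap.range T' = (LinearMap.range T).map ea.symm.toLinearMap := by
      rw [LinearMap.range_comp, LinearMap.range_comp_of_range_eq_top]
      exact LinearEquiv.range eb
    rw [this]
    exact LinearEquiv.finrank_map_eq ea.symm _
  have hadj : ∀ (u : Fin b × (H ⧸ N) → k) (m : Fin a × (H ⧸ N) → k),
      ∑ i, T' u i * m i = ∑ j, u j * R' m j := by
    intro u m
    rw [Fintype.sum_prod_type, Fintype.sum_prod_type]
    exact TransRank_adj2 N k x R hR T hT (eb u) (ea m)
  have hmat : LinearMap.toMatrix' T' = (LinearMap.toMatrix' R').transpose := by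
    ext i j
    rw [Matrix.transpose_apply, LinearMap.toMatrix'_apply, LinearMap.toMatrix'_apply]
    have h := hadj (Pi.single j 1) (Pi.single i 1)
    rw [Finset.sum_eq_single i, Finset.sum_eq_single j] at h
    · simpa using h
    · intro j' _ hj'
      rw [Pi.single_eq_of_ne hj', zero_mul]
    · intro hj
      exact absurd (Finset.mem_univ j) hj
    · intro i' _ hi'
      rw [Pi.single_eq_of_ne hi', mul_zero]
    · intro hi
      exact absurd (Finset.mem_univ i) hi
  have h1 : (LinearMap.toMatrix' R').rank = finrank k (LinearMap.range R') := by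
    rw [Matrix.rank, ← Matrix.toLin'_apply', Matrix.toLin'_toMatrix']
  have h2 : (LinearMap.toMatrix' T').rank = finrank k (LinearMap.range T') := by
    rw [Matrix.rank, ← Matrix.toLin'_apply', Matrix.toLin'_toMatrix']
  rw [← hrR, ← hrT, ← h1, ← h2, hmat, Matrix.rank_transpose]

end PDT
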