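import Pool.Agent.Lib.PDT.Base4
import Pool.Agent.Lib.PDT.InjGeo
import Pool.Agent.Lib.PDT.DimCount
import Pool.Agent.Lib.PDT.TransRank
import Pool.Agent.Lib.PDT.CobKer
import Pool.Agent.Lib.PDT.InvDim
import Pool.Agent.Lib.PDT.NakP
import Pool.Agent.Lib.PDT.ResSel

/-!
# PDT/RankP: the rank inequality for residually `p` subgroups
-/

namespace PDT

open Module Function

universe u

theorem rank_p {G : Type u} [Group G] (R : Res G) (H : Subgroup G) (hH : Infinite H) (w : G →* ℤˣ)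
    (hw : ∀ (x : G) (f : R.Q3 →ₗ[Zg G] Zg G), R.e (tw w x f) = R.e f) (hwH : ∀ h : H, w h = 1)
    {a0 a1 : ℕ} (εP : (Fin a0 → Zg H) →+ ℤ)
    (hε : ∀ (h : H) (p : Fin a0 → Zg H), εP (el h • p) = εP p) (hs : Surjective εP)
    (d : (Fin a1 → Zg H) →ₗ[Zg H] (Fin a0 → Zg H))
    (hex : ∀ p : Fin a0 → Zg H, εP p = 0 ↔ ∃ q, d q = p)
    (hproj : Module.Projective (Zg H) (LinearMap.ker d)) (p : ℕ) (hp : p.Prime) (hres : ResP p H)
    {a : ℕ} (x : Fin a → LinearMap.ker d) (hx : IndP p H x) : a + a0 ≤ a1 := by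
  classical
  haveI : Fact p.Prime := ⟨hp⟩
  obtain ⟨s2, hs2⟩ := hproj.out
  have hs2' : ∀ p, Finsupp.linearCombination (Zg H) id (s2 p) = p := hs2
  obtain ⟨r, K, hK, hinj⟩ := inj_geo R H hH w hw hwH εP hε hs d hex hproj s2 hs2' x
  have hKtop : Infinite (⊤ : Subgroup H) := by
    exact Infinite.of_injective (fun h : H => (⟨h, trivial⟩ : (⊤ : Subgroup H)))
      (fun a b h => congrArg (fun z : (⊤ : Subgroup H) => (z : H)) h)
  obtain ⟨N, f, hN, hfK, hf⟩ := res_sel p hres (Fin.cons ⊤ K) (by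
    intro j
    refine Fin.cases ?_ (fun j => ?_) j
    · simpa using hKtop
    · simpa using hK j) (r + 2)
  haveI := hN.1
  haveI := hN.2.1
  haveI : Finite (H ⧸ N) := Subgroup.finite_quotient_of_finiteIndex
  haveI : Fintype (H ⧸ N) := Fintype.ofFinite _
  obtain ⟨Θ, Ξ, hΘΞ⟩ := hinj (ZMod p) ((H ⧸ N) → ZMod p) (trQ N (ZMod p))
  let Rm : (Fin a → (H ⧸ N) → ZMod p) →ₗ[ZMod p] (Fin a1 → (H ⧸ N) → ZMod p) :=
    LinearMap.pi fun j => ∑ i, (actR (trQ N (ZMod p)) ((x i : Fin a1 → Zg H) j)) ∘ₗ LinearMap.proj i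
  have hRm : ∀ m j, Rm m j = ∑ i, actR (trQ N (ZMod p)) ((x i : Fin a1 → Zg H) j) (m i) := by
    intro m j
    simp [Rm]
  let Tm : (Fin a1 → (H ⧸ N) → ZMod p) →ₗ[ZMod p] (Fin a → (H ⧸ N) → ZMod p) :=
    LinearMap.pi fun i => ∑ j, (actT (trQ N (ZMod p)) 1 ((x i : Fin a1 → Zg H) j)) ∘ₗ
      LinearMap.proj j
  have hTm : ∀ u i, Tm u i = ∑ j, actT (trQ N (ZMod p)) 1 ((x i : Fin a1 → Zg H) j) (u j) := by
    intro m j
    simp [Tm]
  let cob : (Fin a0 → (H ⧸ N) → ZMod p) →ₗ[ZMod p] (Fin a1 → (H ⧸ N) → ZMod p) :=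
    LinearMap.pi fun j => ∑ l, (actT (trQ N (ZMod p)) 1 (d (Pi.single j 1) l)) ∘ₗ
      LinearMap.proj l
  have hcob : ∀ b j, cob b j = ∑ l, actT (trQ N (ZMod p)) 1 (d (Pi.single j 1) l) (b l) := by
    intro m j
    simp [cob]
  have hdx : ∀ (i : Fin a) (l : Fin a0),
      ∑ j, (x i : Fin a1 → Zg H) j * d (Pi.single j 1) l = 0 := by
    intro i l
    have h1 : d (x i : Fin a1 → Zg H) = 0 := LinearMap.mem_ker.1 (x i).2
    have h2 : (x i : Fin a1 → Zg H) =
        ∑ j, (x i : Fin a1 → Zg H) j • (Pi.single j (1 : Zg H) : Fin a1 → Zg H) := by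
      ext1 j
      simp [Finset.sum_apply, Pi.single_apply]
    rw [h2, map_sum] at h1
    have h3 := congrFun h1 l
    rw [Finset.sum_apply] at h3
    simpa using h3
  -- the invariants
  let W : Fin r → Submodule (ZMod p) ((H ⧸ N) → ZMod p) := fun j =>
    { carrier := {m | ∀ h ∈ K j, trQ N (ZMod p) h m = m}
      zero_mem' := by intro h _; rw [map_zero]
      add_mem' := by intro m m' hm hm' h hh; rw [map_add, hm h hh, hm' h hh]
      smul_mem' := by intro c m hm h hh; rw [map_smul, hm h hh] }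
  have hWd : ∀ j, (r + 2) * finrank (ZMod p) (W j) ≤ Nat.card (H ⧸ N) := by
    intro j
    refine inv_dim N (ZMod p) (K j) (f j.succ) ?_ (hf j.succ) (W j) (fun m hm => hm)
    intro i
    have := hfK j.succ i
    simpa using this
  have hQ : r + 2 ≤ Nat.card (H ⧸ N) := by
    have h1 := inv_dim N (ZMod p) ⊤ (f 0) (fun i => trivial) (hf 0)
      (Submodule.span (ZMod p) {fun _ => (1 : ZMod p)}) (by
        intro m hm h _
        obtain ⟨c, rfl⟩ := Submodule.mem_span_singleton.1 hm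
        ext q
        simp)
    rwa [finrank_span_singleton (by
      intro h0
      have := congrFun h0 ((1 : H) : H ⧸ N)
      simp at this), mul_one] at h1
  have hpi : finrank (ZMod p) (Submodule.pi Set.univ W) = ∑ j, finrank (ZMod p) (W j) := by
    have e : (Submodule.pi Set.univ W) ≃ₗ[ZMod p] (∀ j, W j) :=
      { toFun := fun v j => ⟨v.1 j, v.2 j trivial⟩
        map_add' := fun a b => rfl
        map_smul' := fun a b => rfl
        invFun := fun v => ⟨fun j => (v j : (H ⧸ N) → ZMod p), fun j _ => (v j).2⟩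
        left_inv := fun v => rfl
        right_inv := fun v => rfl }
    rw [e.finrank_eq, Module.finrank_pi_fintype]
  have hcount := dim_count Rm Tm Θ cob Ξ (Submodule.pi Set.univ W)
    (le_of_eq (trans_rank N (ZMod p) (fun i j => (x i : Fin a1 → Zg H) j) Rm hRm Tm hTm))
    (by
      intro b
      ext1 i
      rw [hTm]
      have h1 : ∀ j, actT (trQ N (ZMod p)) 1 ((x i : Fin a1 → Zg H) j) (cob b j) =
          ∑ l, actT (trQ N (ZMod p)) 1 ((x i : Fin a1 → Zg H) j * d (Pi.single j 1) l) (b l) := by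
        intro j
        rw [hcob, map_sum]
        refine Finset.sum_congr rfl fun l _ => ?_
        rw [actT_mul, Module.End.mul_apply]
      rw [Finset.sum_congr rfl fun j _ => h1 j, Finset.sum_comm]
      apply Finset.sum_eq_zero
      intro l _
      have h2 : ∑ j, actT (trQ N (ZMod p)) 1 ((x i : Fin a1 → Zg H) j * d (Pi.single j 1) l) (b l) =
          actT (trQ N (ZMod p)) 1 (∑ j, (x i : Fin a1 → Zg H) j * d (Pi.single j 1) l) (b l) := by
        rw [map_sum, LinearMap.sum_apply]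
      rw [h2, hdx, map_zero, LinearMap.zero_apply])
    (by
      intro m hm
      ext1 i
      rw [hTm]
      exact (hΘΞ m (fun k => by rw [← hRm, hm]; rfl)).1 (x i))
    (by
      intro m b hm hb
      obtain ⟨h1, h2⟩ := (hΘΞ m (fun k => by rw [← hRm, hm]; rfl)).2 b (fun k => by
        rw [hb, hcob])
      refine ⟨?_, fun h0 => nak_p p s2 hs2' x hx N hN m (h2 h0)⟩
      intro j _ h hh
      exact h1 j h hh)
  rw [hpi] at hcount
  have hck := cob_ker N (ZMod p) εP hε hs d hex cob hcob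
  have hdimM : ∀ n : ℕ, finrank (ZMod p) (Fin n → (H ⧸ N) → ZMod p) = n * Nat.card (H ⧸ N) := by
    intro n
    rw [Module.finrank_pi_fintype]
    simp
  rw [hdimM, hdimM, hdimM] at hcount
  have hsum : (r + 2) * ∑ j, finrank (ZMod p) (W j) ≤ r * Nat.card (H ⧸ N) := by
    rw [Finset.mul_sum]
    calc ∑ j, (r + 2) * finrank (ZMod p) (W j) ≤ ∑ _j : Fin r, Nat.card (H ⧸ N) :=
          Finset.sum_le_sum fun j _ => hWd j
      _ = r * Nat.card (H ⧸ N) := by simp
  by_contra hc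
  have hc' : a1 + 1 ≤ a + a0 := by omega
  have h1 : (a1 + 1) * Nat.card (H ⧸ N) ≤ (a + a0) * Nat.card (H ⧸ N) := Nat.mul_le_mul_right _ hc'
  have h2 : Nat.card (H ⧸ N) ≤ 1 + ∑ j, finrank (ZMod p) (W j) := by
    have : (a + a0) * Nat.card (H ⧸ N) = a * Nat.card (H ⧸ N) + a0 * Nat.card (H ⧸ N) := by ring
    have h3 : (a1 + 1) * Nat.card (H ⧸ N) = a1 * Nat.card (H ⧸ N) + Nat.card (H ⧸ N) := by ring
    omega
  have h3 : (r + 2) * Nat.card (H ⧸ N) ≤ (r + 2) + r * Nat.card (H ⧸ N) := by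
    calc (r + 2) * Nat.card (H ⧸ N) ≤ (r + 2) * (1 + ∑ j, finrank (ZMod p) (W j)) :=
          Nat.mul_le_mul_left _ h2
      _ = (r + 2) + (r + 2) * ∑ j, finrank (ZMod p) (W j) := by ring
      _ ≤ (r + 2) + r * Nat.card (H ⧸ N) := by omega
  have h4 : (r + 2) * Nat.card (H ⧸ N) = r * Nat.card (H ⧸ N) + 2 * Nat.card (H ⧸ N) := by ring
  omega

end PDT
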