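import Pool.Agent.Lib.PDT.MainA
import Pool.Agent.Lib.PDT.MainB
import Pool.Agent.Lib.PDT.Restr
import Pool.Agent.Lib.PDT.RankCount
import Pool.Agent.Lib.PDT.InfAb
import Pool.Agent.Lib.PDT.RankP
import Pool.Agent.Lib.PDT.FinGenP
import Pool.Agent.Lib.PDT.LinRes

/-!
# PDT/MainC: virtually residually `p` subgroups of PD(3)-groups

`G` a PD(3)-group, `H ≤ G` finitely generated, of infinite index, virtually residually a finite
`p`-group (for example linear over any field).  Then `H` is of type FP, and if `H` is infinite, its
abelianization is infinite.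
-/

namespace PDT

open Function MulOpposite

universe u v

/-- Residual properties pass to subgroups. -/
theorem resP_of_injective {p : ℕ} {H K : Type*} [Group H] [Group K] (f : K →* H)
    (hf : Injective f) (hH : ResP p H) : ResP p K := by
  intro k hk
  obtain ⟨N, ⟨h1, h2, h3⟩, h4⟩ := hH (f k) (fun h => hk (hf (by rw [h, map_one])))
  have h5 : (N.comap f).FiniteIndex := by
    refine ⟨?_⟩
    rw [Subgroup.index_comap]
    intro h0
    have h6 := Subgroup.relIndex_dvd_index_of_normal N f.range
    rw [h0] at h6
    exact h2.index_ne_zero (Nat.eq_zero_of_zero_dvd h6)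
  refine ⟨N.comap f, ⟨inferInstance, h5, fun x => ?_⟩, h4⟩
  obtain ⟨n, hn⟩ := h3 (f x)
  exact ⟨n, by rw [Subgroup.mem_comap, map_pow]; exact hn⟩

theorem mainC {G : Type u} [Group G] (hG : IsPD3 G) (H : Subgroup G) (hfg : H.FG)
    (hidx : H.index = 0) (p : ℕ) (hp : p.Prime) (H0 : Subgroup H) (hH0 : H0.FiniteIndex)
    (hres : ResP p H0) : IsFP2 H ∧ (Infinite H → Infinite (Abelianization H)) := by
  classical
  have hFG : Group.FG H := (Group.fg_iff_subgroup_fg H).mpr hfg
  obtain ⟨R⟩ := hG
  obtain ⟨w, hw⟩ := exists_w R
  have hQ := infinite_quot H hidx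
  obtain ⟨n, d, hd⟩ := aug_presentation H hFG
  obtain ⟨hε, hs⟩ := aug1_props H
  have hproj : Module.Projective (Zg H) (LinearMap.ker d) := syz R H hQ _ hε hs d hd
  -- the normal subgroup
  let N0 : Subgroup H := H0.normalCore ⊓ (w.comp H.subtype).ker
  have hNn : N0.Normal := inferInstance
  have hNf : N0.FiniteIndex := inferInstance
  let Kg : Subgroup G := N0.map H.subtype
  have hKgH : Kg ≤ H := Subgroup.map_subtype_le N0
  let j : Kg →* H := Subgroup.inclusion hKgH
  have hj : Injective j := Subgroup.inclusion_injective hKgH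
  let σ : N0 ≃* Kg := N0.equivMapOfInjective H.subtype H.subtype_injective
  have hσ : ∀ u : N0, j (σ u) = (u : H) := by
    intro u
    apply Subtype.ext
    rfl
  have hjN : ∀ u : Kg, j u ∈ N0 := by
    intro u
    obtain ⟨v, rfl⟩ := σ.surjective u
    rw [hσ]
    exact v.2
  have hjr : j.range = N0 := by
    ext u
    constructor
    · rintro ⟨v, rfl⟩; exact hjN v
    · intro hu; exact ⟨σ ⟨u, hu⟩, hσ ⟨u, hu⟩⟩
  have hfi : j.range.FiniteIndex := by rw [hjr]; exact hNf
  have hQ' : Infinite (G ⧸ Kg) := by
    apply infinite_quot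
    have := Subgroup.index_dvd_of_le hKgH
    rw [hidx] at this
    exact zero_dvd_iff.mp this
  have hwK : ∀ u : Kg, w u = 1 := fun u => (hjN u).2
  let c : Kg →* H0 :=
    { toFun := fun u => ⟨j u, Subgroup.normalCore_le H0 (hjN u).1⟩
      map_one' := by ext; simp
      map_mul' := by intro u v; ext; simp }
  have hc : Injective c := by
    intro u v huv
    apply hj
    exact congrArg (fun z : H0 => (z : H)) huv
  have hresK : ResP p Kg := resP_of_injective c hc hres
  obtain ⟨εP', d', Φ, hε', hs', hex', hΦ⟩ := restr j hj hfi _ hε hs d hd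
  have hproj' : Module.Projective (Zg Kg) (LinearMap.ker d') := syz R Kg hQ' εP' hε' hs' d' hex'
  have hfinK : Module.Finite (Zg H) (LinearMap.ker d) := by
    by_cases hH : Infinite H
    · have hNinf : Infinite N0 := by
        by_contra hc
        rw [not_infinite_iff_finite] at hc
        exact not_finite_iff_infinite.mpr hH (Finite.of_subgroup_quotient N0)
      have hKinf : Infinite Kg := Infinite.of_injective σ σ.injective
      obtain ⟨s2, hs2⟩ := hproj'.out
      have hfin' : Module.Finite (Zg Kg) (LinearMap.ker d') :=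
        fin_gen_p p hp hresK s2 hs2 (n * j.range.index) (fun a x hx => by
          have := rank_p R Kg hKinf w hw hwK εP' hε' hs' d' hex' hproj' p hp hresK x hx
          omega)
      obtain ⟨T, hT⟩ := hfin'.fg_top
      refine ⟨⟨T.image Φ.symm, ?_⟩⟩
      rw [eq_top_iff]
      intro x _
      have hx : Φ x ∈ Submodule.span (Zg Kg) (T : Set (LinearMap.ker d')) := by rw [hT]; trivial
      have key : ∀ y ∈ Submodule.span (Zg Kg) (T : Set (LinearMap.ker d')),
          Φ.symm y ∈ Submodule.span (Zg H) ((T.image Φ.symm : Finset (LinearMap.ker d)) :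
            Set (LinearMap.ker d)) := by
        intro y hy
        induction hy using Submodule.span_induction with
        | mem y hy =>
          apply Submodule.subset_span
          rw [Finset.coe_image]
          exact ⟨y, hy, rfl⟩
        | zero => rw [map_zero]; exact zero_mem _
        | add y z _ _ hy hz => rw [map_add]; exact add_mem hy hz
        | smul r y _ hy =>
          induction r using Zg.ind with
          | h0 => rw [zero_smul, map_zero]; exact zero_mem _
          | hel u =>
            have h1 : Φ.symm (el u • y) = el (j u) • Φ.symm y := by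
              apply Φ.injective
              rw [Φ.apply_symm_apply, hΦ, Φ.apply_symm_apply]
            rw [h1]
            exact Submodule.smul_mem _ _ hy
          | hadd a b ha hb => rw [add_smul, map_add]; exact add_mem ha hb
          | hneg a ha => rw [neg_smul, map_neg]; exact neg_mem ha
      have := key _ hx
      rwa [Φ.symm_apply_apply] at this
    · rw [not_infinite_iff_finite] at hH
      have h1 : Module.Finite ℤ (Zg H) := by
        have e : Zg H ≃ₗ[ℤ] (H →₀ ℤ) := MonoidAlgebra.coeffAddEquiv.toIntLinearEquiv
        exact Module.Finite.equiv e.symm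
      have h2 : IsNoetherian ℤ (Fin n → Zg H) := inferInstance
      have h3 : IsNoetherian (Zg H) (Fin n → Zg H) := isNoetherian_of_tower ℤ h2
      exact Module.IsNoetherian.finite (Zg H) (LinearMap.ker d)
  refine ⟨⟨{ P0 := Fin 1 → Zg H, P1 := Fin n → Zg H, P2 := LinearMap.ker d
             ε := _, d1 := d, d2 := (LinearMap.ker d).subtype
             ε_el := hε, ε_surj := hs, ex0 := hd
             ex1 := by
               intro q
               constructor
               · intro h; exact ⟨⟨q, h⟩, rfl⟩
               · rintro ⟨r, rfl⟩; exact r.2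
             inj2 := Subtype.val_injective }⟩, fun hH => ?_⟩
  have hNinf : Infinite N0 := by
    by_contra hc
    rw [not_infinite_iff_finite] at hc
    exact not_finite_iff_infinite.mpr hH (Finite.of_subgroup_quotient N0)
  have hKinf : Infinite Kg := Infinite.of_injective σ σ.injective
  obtain ⟨k, e, f, hef⟩ := dualBasis (G := H) (LinearMap.ker d)
  haveI : Fact p.Prime := ⟨hp⟩
  obtain ⟨r', q, hr', hq⟩ := rank_count N0 e f hef p hp (F := ZMod p) (by simp)
  apply infinite_ab d hd e f hef
  rw [← hr']
  let p' : Fin (N0.index * r') → LinearMap.ker d' := fun i => Φ (q i)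
  have hp0 : IndP p Kg p' := by
    intro cc hcc
    apply hq cc
    intro g hg
    let T' : Zg N0 →+ Zg Kg := zl fun u => el (σ u)
    have hT'mul : ∀ (u : N0) y, T' (el u * y) = el (σ u) * T' y := by
      intro u y
      have h : T'.comp (AddMonoidHom.mulLeft (el u)) =
          (AddMonoidHom.mulLeft (el (σ u))).comp T' := by
        apply zhom_ext
        intro v
        simp [T', ← el_mul]
      exact DFunLike.congr_fun h y
    have hT'aug : ∀ y, aug (T' y) = aug y := by
      intro y
      have h : (aug : Zg Kg →+ ℤ).comp T' = aug := by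
        apply zhom_ext
        intro v
        simp [T']
      exact DFunLike.congr_fun h y
    obtain ⟨f', hf'⟩ := exists_lin (T'.comp (g.comp Φ.symm.toAddMonoidHom)) (by
      intro u y
      obtain ⟨v, rfl⟩ := σ.surjective u
      have h1 : Φ.symm (el (σ v) • y) = el (v : H) • Φ.symm y := by
        apply Φ.injective
        rw [Φ.apply_symm_apply, ← hσ v, hΦ, Φ.apply_symm_apply]
      change T' (g (Φ.symm (el (σ v) • y))) = el (σ v) • T' (g (Φ.symm y))
      rw [h1, hg, smul_eq_mul, hT'mul, smul_eq_mul])
    have h2 := hcc f'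
    refine (Finset.sum_congr rfl fun i _ => ?_).trans h2
    rw [hf']
    change cc i * ((aug (g (q i)) : ℤ) : ZMod p) =
      cc i * ((aug (T' (g (Φ.symm (Φ (q i))))) : ℤ) : ZMod p)
    rw [Φ.symm_apply_apply, hT'aug]
  have key := rank_p R Kg hKinf w hw hwK εP' hε' hs' d' hex' hproj' p hp hresK p' hp0
  have hm : j.range.index = N0.index := by rw [hjr]
  rw [hm] at key
  have hm0 : 0 < N0.index := Nat.pos_of_ne_zero hNf.index_ne_zero
  have h3 : N0.index * (r' + 1) ≤ N0.index * n := by linarith [mul_comm n N0.index]
  have h4 : r' + 1 ≤ n := Nat.le_of_mul_le_mul_left h3 hm0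
  exact_mod_cast h4

/-- Linear subgroups over an arbitrary field. -/
theorem mainC_linear {G : Type u} [Group G] (hG : IsPD3 G) (H : Subgroup G) (hfg : H.FG)
    (hidx : H.index = 0) {K : Type v} [Field K] (N : ℕ) (ρ : H →* GL (Fin N) K)
    (hρ : Injective ρ) : IsFP2 H ∧ (Infinite H → Infinite (Abelianization H)) := by
  obtain ⟨p, H0, hp, hH0, hres⟩ := lin_res ((Group.fg_iff_subgroup_fg H).mpr hfg) N ρ hρ
  exact mainC hG H hfg hidx p hp H0 hH0 hres

end PDT
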