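import Pool.Agent.Lib.PDT.Base5

/-!
# PDT/OneEndD: groups with one end, finite index subgroups and derivations

A group `H` has one end if it is infinite and every almost invariant subset is finite or cofinite.

Complete proof of `oneEnd_finiteIndex`.  Let `A ⊆ N` be almost invariant, and `A' = {h : H | (out h)⁻¹ h ∈ A}`, where `out h = Quotient.out (h : H ⧸ N)`
(so `(out h)⁻¹ h ∈ N`).  For `x : H`: if `h = t n` with `t = out h`, then `x h = x t n`, `x t = t' n'` with `t' = out (x t) = out (x h)`, `n' ∈ N`, so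
`(out (x h))⁻¹ (x h) = n' n`; `n'` depends only on `x` and `t`, and there are finitely many `t`.  So `{h | ¬(x h ∈ A' ↔ h ∈ A')}` is contained in the
finite union over the representatives `t` of `t {n | ¬(n' n ∈ A ↔ n ∈ A)}`, finite.  So `A'` is finite or cofinite.  With `t0 = out 1 ∈ N`, for `n ∈ N`:
`t0 n ∈ A' ↔ n ∈ A` (`out (t0 n) = t0`), so `A` (the preimage of `A'` under the injective map `n ↦ t0 n`) is finite or cofinite.
Complete proof of `der_of_oneEnd`.  Let `ν g = - (δ g).coeff g`.  The coefficient of `δ x` at `g` is `ν (x⁻¹ g) - ν g`: `δ g = δ x + el x * δ (x⁻¹ g)`, and the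
coefficient of `el x * y` at `g` is that of `y` at `x⁻¹ g` (`MonoidAlgebra.coeff_single_mul_apply`; compare `LF_inner` in `PDT/Base6`).  So for every `x` the set
`{g | ν (x⁻¹ g) ≠ ν g}` is finite, and every level set `{ν = n}` is almost invariant, so finite or cofinite.
If `{ν = n}` is cofinite let `a` be the element with coefficients `ν g - n` (finitely supported): `δ x = el x * a - a`.
Otherwise all level sets are finite.  Let `S` be a finite generating set and `E = {g | ∃ s ∈ S, ν (s g) ≠ ν g ∨ ν (s⁻¹ g) ≠ ν g}`, finite.  Every nonempty level set meets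
`E` (otherwise it is closed under `s`, `s⁻¹`, so it is `H`, which is infinite).  So `ν` takes finitely many values and `H` is a finite union of finite sets,
contradiction.  (Compare the proof of `geo` in `PDT/Geo`.)
-/

namespace PDT

open Function

theorem oneEnd_finiteIndex {H : Type*} [Group H]
    (hOE : ∀ A : Set H, (∀ x : H, {g : H | ¬ (x * g ∈ A ↔ g ∈ A)}.Finite) → A.Finite ∨ Aᶜ.Finite)
    (N : Subgroup H) (hN : N.FiniteIndex) (A : Set N)
    (hA : ∀ x : N, {g : N | ¬ (x * g ∈ A ↔ g ∈ A)}.Finite) : A.Finite ∨ Aᶜ.Finite := by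
  classical
  obtain ⟨o, ho⟩ : ∃ o : H ⧸ N → H, ∀ q, ((o q : H) : H ⧸ N) = q :=
    ⟨Quotient.out, fun q => QuotientGroup.out_eq' q⟩
  have hmem : ∀ h : H, (o (h : H ⧸ N))⁻¹ * h ∈ N := fun h => QuotientGroup.eq.1 (ho _)
  have hmul : ∀ (h : H) (n : N), ((h * (n : H) : H) : H ⧸ N) = (h : H ⧸ N) := by
    intro h n
    rw [QuotientGroup.eq]
    simp
  obtain ⟨A', hA'⟩ : ∃ A' : Set H, ∀ h : H, h ∈ A' ↔
      (⟨(o (h : H ⧸ N))⁻¹ * h, hmem h⟩ : N) ∈ A :=
    ⟨{h | (⟨(o (h : H ⧸ N))⁻¹ * h, hmem h⟩ : N) ∈ A}, fun h => Iff.rfl⟩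
  have hfin : Finite (H ⧸ N) := Subgroup.finite_quotient_of_finiteIndex
  have hA'ai : ∀ x : H, {g : H | ¬ (x * g ∈ A' ↔ g ∈ A')}.Finite := by
    intro x
    have hU : (⋃ q : H ⧸ N, (fun n : N => o q * (n : H)) ''
        {n : N | ¬ ((⟨(o ((x * o q : H) : H ⧸ N))⁻¹ * (x * o q), hmem _⟩ : N) * n ∈ A ↔ n ∈ A)}).Finite :=
      Set.finite_iUnion fun q => (hA _).image _
    refine hU.subset ?_
    intro h hh
    have hh' : ¬ (x * h ∈ A' ↔ h ∈ A') := hh
    rw [hA', hA'] at hh'
    refine Set.mem_iUnion.2 ⟨(h : H ⧸ N), ⟨⟨(o (h : H ⧸ N))⁻¹ * h, hmem h⟩, ?_, ?_⟩⟩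
    · show ¬ ((⟨(o ((x * o (h : H ⧸ N) : H) : H ⧸ N))⁻¹ * (x * o (h : H ⧸ N)), hmem _⟩ : N) *
        ⟨(o (h : H ⧸ N))⁻¹ * h, hmem h⟩ ∈ A ↔ _ ∈ A)
      have e : (⟨(o ((x * o (h : H ⧸ N) : H) : H ⧸ N))⁻¹ * (x * o (h : H ⧸ N)), hmem _⟩ : N) *
        ⟨(o (h : H ⧸ N))⁻¹ * h, hmem h⟩ = ⟨(o ((x * h : H) : H ⧸ N))⁻¹ * (x * h), hmem _⟩ := by
        apply Subtype.ext
        show (o ((x * o (h : H ⧸ N) : H) : H ⧸ N))⁻¹ * (x * o (h : H ⧸ N)) *
          ((o (h : H ⧸ N))⁻¹ * h) = (o ((x * h : H) : H ⧸ N))⁻¹ * (x * h)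
        have e2 : ((x * o (h : H ⧸ N) : H) : H ⧸ N) = ((x * h : H) : H ⧸ N) := by
          have := hmul (x * o (h : H ⧸ N)) ⟨(o (h : H ⧸ N))⁻¹ * h, hmem h⟩
          rw [← this]
          congr 1
          simp [mul_assoc]
        rw [e2]
        group
      rw [e]
      exact hh'
    · simp
  rcases hOE A' hA'ai with h1 | h1
  · left
    have h2 : (fun n : N => o ((1 : H) : H ⧸ N) * (n : H)) ⁻¹' A' = A := by
      ext n
      show o ((1 : H) : H ⧸ N) * (n : H) ∈ A' ↔ n ∈ A
      rw [hA']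
      have e : (⟨(o ((o ((1 : H) : H ⧸ N) * (n : H) : H) : H ⧸ N))⁻¹ *
          (o ((1 : H) : H ⧸ N) * (n : H)), hmem _⟩ : N) = n := by
        apply Subtype.ext
        show (o ((o ((1 : H) : H ⧸ N) * (n : H) : H) : H ⧸ N))⁻¹ *
          (o ((1 : H) : H ⧸ N) * (n : H)) = n
        rw [hmul, ho]
        simp
      rw [e]
    rw [← h2]
    refine h1.preimage ?_
    intro a _ b _ hab
    exact Subtype.ext (mul_left_cancel hab)
  · right
    have h2 : (fun n : N => o ((1 : H) : H ⧸ N) * (n : H)) ⁻¹' A'ᶜ = Aᶜ := by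
      ext n
      show ¬ (o ((1 : H) : H ⧸ N) * (n : H) ∈ A') ↔ ¬ (n ∈ A)
      rw [hA']
      have e : (⟨(o ((o ((1 : H) : H ⧸ N) * (n : H) : H) : H ⧸ N))⁻¹ *
          (o ((1 : H) : H ⧸ N) * (n : H)), hmem _⟩ : N) = n := by
        apply Subtype.ext
        show (o ((o ((1 : H) : H ⧸ N) * (n : H) : H) : H ⧸ N))⁻¹ *
          (o ((1 : H) : H ⧸ N) * (n : H)) = n
        rw [hmul, ho]
        simp
      rw [e]
    rw [← h2]
    refine h1.preimage ?_
    intro a _ b _ hab
    exact Subtype.ext (mul_left_cancel hab)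

private theorem OneEndD_coeff {H : Type*} [Group H] (x : H) (y : Zg H) (g : H) :
    (el x * y).coeff g = y.coeff (x⁻¹ * g) := by
  rw [el, MonoidAlgebra.coeff_single_mul_apply, one_mul]

theorem der_of_oneEnd {H : Type*} [Group H] [Infinite H] (hfg : Group.FG H)
    (hOE : ∀ A : Set H, (∀ x : H, {g : H | ¬ (x * g ∈ A ↔ g ∈ A)}.Finite) → A.Finite ∨ Aᶜ.Finite)
    (δ : H → Zg H) (hδ : ∀ x y, δ (x * y) = δ x + el x * δ y) :
    ∃ a, ∀ x, δ x = el x * a - a := by
  classical
  obtain ⟨ν, hν⟩ : ∃ ν : H → ℤ, ∀ g, ν g = - (δ g).coeff g := ⟨_, fun g => rfl⟩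
  have hc : ∀ x g : H, (δ x).coeff g = ν (x⁻¹ * g) - ν g := by
    intro x g
    have h1 := hδ x (x⁻¹ * g)
    rw [mul_inv_cancel_left] at h1
    have h2 : (δ g).coeff g = (δ x).coeff g + (δ (x⁻¹ * g)).coeff (x⁻¹ * g) := by
      rw [h1, MonoidAlgebra.coeff_add, Finsupp.add_apply, OneEndD_coeff]
    rw [hν, hν, h2]
    ring
  have hfinx : ∀ x : H, {g : H | ν (x⁻¹ * g) ≠ ν g}.Finite := by
    intro x
    refine ((δ x).coeff.support.finite_toSet).subset ?_
    intro g hg
    have hg' : ν (x⁻¹ * g) ≠ ν g := hg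
    rw [Finset.mem_coe, Finsupp.mem_support_iff, hc]
    exact sub_ne_zero.2 hg'
  have hfinx' : ∀ x : H, {g : H | ν (x * g) ≠ ν g}.Finite := by
    intro x
    have := hfinx x⁻¹
    rwa [inv_inv] at this
  have hlev : ∀ n : ℤ, {g : H | ν g = n}.Finite ∨ {g : H | ν g = n}ᶜ.Finite := by
    intro n
    apply hOE
    intro x
    refine (hfinx' x).subset ?_
    intro g hg
    have hg' : ¬ (ν (x * g) = n ↔ ν g = n) := hg
    intro h1
    apply hg'
    rw [h1]
  by_cases hco : ∃ n : ℤ, {g : H | ν g = n}ᶜ.Finite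
  · obtain ⟨n, hn⟩ := hco
    have hs : ((fun g => ν g - n).support).Finite := by
      refine hn.subset ?_
      intro g hg h1
      have h2 : ν g = n := h1
      apply hg
      show ν g - n = 0
      rw [h2, sub_self]
    obtain ⟨a, ha⟩ : ∃ a : Zg H, ∀ g, a.coeff g = ν g - n :=
      ⟨MonoidAlgebra.ofCoeff (Finsupp.ofSupportFinite (fun g => ν g - n) hs), fun g => rfl⟩
    refine ⟨a, fun x => ?_⟩
    apply MonoidAlgebra.coeff_injective
    apply Finsupp.ext
    intro g
    rw [hc, MonoidAlgebra.coeff_sub, Finsupp.sub_apply, OneEndD_coeff, ha, ha]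
    ring
  · exfalso
    have hfl : ∀ n : ℤ, {g : H | ν g = n}.Finite := by
      intro n
      rcases hlev n with h | h
      · exact h
      · exact absurd ⟨n, h⟩ hco
    obtain ⟨S, hS, hSf⟩ := Group.fg_iff.1 hfg
    have hE : ((⋃ s ∈ S, {g : H | ν (s * g) ≠ ν g}) ∪
        (⋃ s ∈ S, {g : H | ν (s⁻¹ * g) ≠ ν g})).Finite := by
      refine Set.Finite.union ?_ ?_
      · exact hSf.biUnion fun s _ => hfinx' s
      · exact hSf.biUnion fun s _ => hfinx s
    have hmeet : ∀ n : ℤ, (∃ g, ν g = n) → ∃ g ∈ ((⋃ s ∈ S, {g : H | ν (s * g) ≠ ν g}) ∪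
        (⋃ s ∈ S, {g : H | ν (s⁻¹ * g) ≠ ν g})), ν g = n := by
      rintro n ⟨g0, hg0⟩
      by_contra hcon
      have hno : ∀ g, ν g = n → g ∉ ((⋃ s ∈ S, {g : H | ν (s * g) ≠ ν g}) ∪
        (⋃ s ∈ S, {g : H | ν (s⁻¹ * g) ≠ ν g})) := fun g hg hh => hcon ⟨g, hh, hg⟩
      have hs1 : ∀ s ∈ S, ∀ g, ν g = n → ν (s * g) = n := by
        intro s hs g hg
        by_contra h1
        apply hno g hg
        left
        refine Set.mem_biUnion hs ?_
        show ν (s * g) ≠ ν g
        rwa [hg]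
      have hs2 : ∀ s ∈ S, ∀ g, ν g = n → ν (s⁻¹ * g) = n := by
        intro s hs g hg
        by_contra h1
        apply hno g hg
        right
        refine Set.mem_biUnion hs ?_
        show ν (s⁻¹ * g) ≠ ν g
        rwa [hg]
      have hall : ∀ x : H, x ∈ Subgroup.closure S → ∀ g, ν (x * g) = n ↔ ν g = n := by
        intro x hx
        induction hx using Subgroup.closure_induction with
        | mem s hs =>
          intro g
          refine ⟨fun h => ?_, hs1 s hs g⟩
          have := hs2 s hs _ h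
          rwa [inv_mul_cancel_left] at this
        | one =>
          intro g
          rw [one_mul]
        | mul a b _ _ iha ihb =>
          intro g
          rw [mul_assoc, iha, ihb]
        | inv a _ iha =>
          intro g
          rw [← iha (a⁻¹ * g), mul_inv_cancel_left]
      have huniv : {g : H | ν g = n} = Set.univ := by
        ext g
        refine ⟨fun _ => Set.mem_univ _, fun _ => ?_⟩
        have h1 := (hall (g * g0⁻¹) (by rw [hS]; exact Subgroup.mem_top _) g0).2 hg0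
        rwa [inv_mul_cancel_right] at h1
      have := hfl n
      rw [huniv] at this
      exact Set.infinite_univ this
    have hrange : (Set.range ν).Finite := by
      refine (hE.image ν).subset ?_
      rintro _ ⟨g, rfl⟩
      obtain ⟨g', hg', h1⟩ := hmeet (ν g) ⟨g, rfl⟩
      exact ⟨g', hg', h1⟩
    have hun : (Set.univ : Set H).Finite := by
      refine (hrange.biUnion fun n _ => hfl n).subset ?_
      intro g _
      exact Set.mem_biUnion (Set.mem_range_self g) rfl
    exact Set.infinite_univ hun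

end PDT
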