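import Pool.Agent.Lib.PDT.Base5

/-!
# PDT/Transp: transposition of equivariant maps with values in finitely supported functions

`K` acts on the set `X`.  For finitely generated projective modules `P, P'` the equivariant maps
`ψ : P'* → (X →₀ P*)` and `χ : P → (X →₀ P')` correspond to each other by
`[f(χ(p)(x))]_1 = [ψ(f)(x)(p)]_1`, where `[y]_1 = y.coeff 1`.  Write `[y]_k = y.coeff k`.

Complete proof of `transp`.  Let `(e_i, f_i)` be a dual basis of `P'` (`dualBasis`).  For `f : P' →ₗ Zg K` let
`L_f(p, x) = Σ_k [ψ f (k⁻¹ • x) p]_k el k` (a finite sum: `ψ f` has finite support `Y ⊆ X`, for `y ∈ Y` the element `ψ f y p` has finite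
support in `K`, and `k⁻¹ • x = y` with `k` in this support).  (In Lean: e.g.
`L_f(p,x) = Σ_{y ∈ supp ψ f} Σ_{k ∈ supp (ψ f y p), k • y = x} [ψ f y p]_k el k`, with coefficient `[ψ f (k⁻¹ • x) p]_k` at `k`.)
`L_f` is additive in `f` and `p`; `L_{rm f y} = L_f * y` (additive in `y`; for `y = el j⁻¹`, `rm f (el j⁻¹) = dl j f`, and
`[ψ (dl j f) (k⁻¹ x) p]_k = [(ψ f (j⁻¹ k⁻¹ x) p) * el j⁻¹]_k = [ψ f ((k j)⁻¹ x) p]_(k j)`, using `hψ`).
Define `χ p x = Σ_i L_{f_i}(p, x) • e_i`; its support in `x` is finite (`x = k • y`, `y` in the support of `ψ f_i`, `k` in the support of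
`ψ f_i y p`).  `f (χ p x) = Σ_i L_{f_i}(p,x) * f(e_i) = L_{Σ_i rm f_i (f e_i)}(p, x) = L_f(p, x)`, with coefficient at `1`
equal to `[ψ f x p]_1`.  Equivariance: by the dual basis it is enough that
`f (χ (el j • p) (j • x)) = el j * f (χ p x)` for all `f`: `[ψ f (k⁻¹ j x) (el j • p)]_k = [el j * ψ f (k⁻¹ j x) p]_k =
[ψ f ((j⁻¹k)⁻¹ x) p]_(j⁻¹ k)`.
Complete proof of `transp'`.  Define `ψ f x : P →ₗ Zg K` by `ψ f x p = Σ_k [f (χ p (k • x))]_k el k` (finite: `χ p` has finite support
and for `y` in it `f (χ p y)` has finite support).  It commutes with `el j`: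
`[f (χ (el j • p) (k x))]_k = [f (el j • χ p (j⁻¹ k x))]_k = [f (χ p (j⁻¹ k x))]_(j⁻¹ k)`.  The support of `x ↦ ψ f x` is finite: with
generators `p_j` of `P` (dual basis) `ψ f x ≠ 0` implies `ψ f x p_j ≠ 0` for some `j`, so `x = k⁻¹ • y` with `y ∈ supp χ(p_j)`,
`k ∈ supp f(χ p_j y)`.  `[ψ f x p]_1 = [f (χ p x)]_1`.  Equivariance: `[ψ (dl j f) (j x) p]_k = [f (χ p (k j x)) * el j⁻¹]_k =
[f (χ p (k j x))]_(k j) = [ψ f x p]_(k j) = [ψ f x p * el j⁻¹]_k`.
-/

namespace PDT

open Function

section aux

variable {K : Type*} [Group K]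

/-- The coefficient at `k` as a homomorphism. -/
private noncomputable def transp_cf (k : K) : Zg K →+ ℤ :=
  AddMonoidHom.mk' (fun z => z.coeff k) (fun a b => by simp [MonoidAlgebra.coeff_add])

private theorem transp_cf_apply (k : K) (z : Zg K) : transp_cf k z = z.coeff k := rfl

private theorem transp_coeff_el (g k : K) [Decidable (g = k)] :
    (el g : Zg K).coeff k = if g = k then 1 else 0 := by
  rw [el, MonoidAlgebra.coeff_single, Finsupp.single_apply]

/-- Right multiplication by a group element shifts the coefficients. -/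
private theorem transp_coeff_mul (z : Zg K) (j k : K) : (z * el j⁻¹).coeff k = z.coeff (k * j) := by
  classical
  have h : (transp_cf k).comp (AddMonoidHom.mulRight (el j⁻¹)) = transp_cf (k * j) := by
    apply zhom_ext
    intro g
    simp only [AddMonoidHom.comp_apply, AddMonoidHom.coe_mulRight, transp_cf_apply]
    rw [← el_mul, transp_coeff_el, transp_coeff_el]
    by_cases h1 : g = k * j
    · rw [if_pos h1, if_pos]
      rw [h1, mul_inv_cancel_right]
    · rw [if_neg h1, if_neg]
      intro h2
      apply h1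
      rw [← h2, inv_mul_cancel_right]
  exact DFunLike.congr_fun h z

/-- Left multiplication by a group element shifts the coefficients. -/
private theorem transp_mul_coeff (z : Zg K) (j k : K) : (el j * z).coeff k = z.coeff (j⁻¹ * k) := by
  classical
  have h : (transp_cf k).comp (AddMonoidHom.mulLeft (el j)) = transp_cf (j⁻¹ * k) := by
    apply zhom_ext
    intro g
    simp only [AddMonoidHom.comp_apply, AddMonoidHom.coe_mulLeft, transp_cf_apply]
    rw [← el_mul, transp_coeff_el, transp_coeff_el]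
    by_cases h1 : g = j⁻¹ * k
    · rw [if_pos h1, if_pos]
      rw [h1, mul_inv_cancel_left]
    · rw [if_neg h1, if_neg]
      intro h2
      apply h1
      rw [← h2, inv_mul_cancel_left]
  exact DFunLike.congr_fun h z

private theorem transp_coeff_ext {z z' : Zg K} (h : ∀ k, z.coeff k = z'.coeff k) : z = z' := by
  apply MonoidAlgebra.ext
  exact Finsupp.ext h

variable {X : Type*} [MulAction K X]

/-- `z ↦ Σ_k z_k el k` placed at `k • y`. -/
private noncomputable def transp_E (y : X) : Zg K →+ (X →₀ Zg K) :=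
  zl fun k => Finsupp.single (k • y) (el k)

private theorem transp_E_coeff (y x : X) (z : Zg K) (k : K) [Decidable (y = k⁻¹ • x)] :
    (transp_E y z x).coeff k = if y = k⁻¹ • x then z.coeff k else 0 := by
  classical
  have h : (transp_cf k).comp ((Finsupp.applyAddHom x).comp (transp_E y)) =
      if y = k⁻¹ • x then transp_cf k else 0 := by
    apply zhom_ext
    intro g
    simp only [AddMonoidHom.comp_apply, Finsupp.applyAddHom_apply, transp_cf_apply]
    have e1 : transp_E y (el g) = Finsupp.single (g • y) (el g : Zg K) := by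
      rw [transp_E, zl_el]
    rw [e1, Finsupp.single_apply]
    by_cases h1 : y = k⁻¹ • x
    · rw [if_pos h1, transp_cf_apply, transp_coeff_el]
      by_cases h2 : g = k
      · subst h2
        rw [if_pos rfl, if_pos, transp_coeff_el, if_pos rfl]
        rw [h1, smul_inv_smul]
      · rw [if_neg h2]
        split_ifs
        · rw [transp_coeff_el, if_neg h2]
        · rfl
    · rw [if_neg h1]
      simp only [AddMonoidHom.zero_apply]
      split_ifs with h3
      · rw [transp_coeff_el, if_neg]
        intro h4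
        apply h1
        rw [← h3, h4, inv_smul_smul]
      · rfl
  have h2 := DFunLike.congr_fun h z
  simp only [AddMonoidHom.comp_apply, Finsupp.applyAddHom_apply, transp_cf_apply] at h2
  rw [h2]
  split_ifs <;> rfl

/-- `z ↦ Σ_k z_k el k` placed at `k⁻¹ • y`. -/
private noncomputable def transp_E' (y : X) : Zg K →+ (X →₀ Zg K) :=
  zl fun k => Finsupp.single (k⁻¹ • y) (el k)

private theorem transp_E'_coeff (y x : X) (z : Zg K) (k : K) [Decidable (y = k • x)] :
    (transp_E' y z x).coeff k = if y = k • x then z.coeff k else 0 := by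
  classical
  have h : (transp_cf k).comp ((Finsupp.applyAddHom x).comp (transp_E' y)) =
      if y = k • x then transp_cf k else 0 := by
    apply zhom_ext
    intro g
    simp only [AddMonoidHom.comp_apply, Finsupp.applyAddHom_apply, transp_cf_apply]
    have e1 : transp_E' y (el g) = Finsupp.single (g⁻¹ • y) (el g : Zg K) := by
      rw [transp_E', zl_el]
    rw [e1, Finsupp.single_apply]
    by_cases h1 : y = k • x
    · rw [if_pos h1, transp_cf_apply, transp_coeff_el]
      by_cases h2 : g = k
      · subst h2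
        rw [if_pos rfl, if_pos, transp_coeff_el, if_pos rfl]
        rw [h1, inv_smul_smul]
      · rw [if_neg h2]
        split_ifs
        · rw [transp_coeff_el, if_neg h2]
        · rfl
    · rw [if_neg h1]
      simp only [AddMonoidHom.zero_apply]
      split_ifs with h3
      · rw [transp_coeff_el, if_neg]
        intro h4
        apply h1
        rw [← h3, h4, smul_inv_smul]
      · rfl
  have h2 := DFunLike.congr_fun h z
  simp only [AddMonoidHom.comp_apply, Finsupp.applyAddHom_apply, transp_cf_apply] at h2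
  rw [h2]
  split_ifs <;> rfl

/-- Sum over the support: with values in a group `A` and homomorphisms `ev : A →+ Zg K`. -/
private noncomputable def transp_Φ {A : Type*} [AddCommGroup A] (ev : A →+ Zg K) :
    (X →₀ A) →+ (X →₀ Zg K) :=
  Finsupp.liftAddHom fun y => (transp_E y).comp ev

private theorem transp_Φ_coeff {A : Type*} [AddCommGroup A] (ev : A →+ Zg K) (u : X →₀ A) (x : X)
    (k : K) : (transp_Φ ev u x).coeff k = (ev (u (k⁻¹ • x))).coeff k := by
  classical
  have h : ((transp_cf k).comp (Finsupp.applyAddHom x)).comp (transp_Φ ev) =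
      ((transp_cf k).comp ev).comp (Finsupp.applyAddHom (k⁻¹ • x)) := by
    apply Finsupp.addHom_ext
    intro y a
    simp only [AddMonoidHom.comp_apply, Finsupp.applyAddHom_apply, transp_cf_apply]
    rw [transp_Φ, Finsupp.liftAddHom_apply_single, AddMonoidHom.comp_apply, transp_E_coeff,
      Finsupp.single_apply]
    split_ifs
    · rfl
    · simp
  have h2 := DFunLike.congr_fun h u
  simpa only [AddMonoidHom.comp_apply, Finsupp.applyAddHom_apply, transp_cf_apply] using h2

private noncomputable def transp_Φ' {A : Type*} [AddCommGroup A] (ev : A →+ Zg K) :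
    (X →₀ A) →+ (X →₀ Zg K) :=
  Finsupp.liftAddHom fun y => (transp_E' y).comp ev

private theorem transp_Φ'_coeff {A : Type*} [AddCommGroup A] (ev : A →+ Zg K) (u : X →₀ A) (x : X)
    (k : K) : (transp_Φ' ev u x).coeff k = (ev (u (k • x))).coeff k := by
  classical
  have h : ((transp_cf k).comp (Finsupp.applyAddHom x)).comp (transp_Φ' ev) =
      ((transp_cf k).comp ev).comp (Finsupp.applyAddHom (k • x)) := by
    apply Finsupp.addHom_ext
    intro y a
    simp only [AddMonoidHom.comp_apply, Finsupp.applyAddHom_apply, transp_cf_apply]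
    rw [transp_Φ', Finsupp.liftAddHom_apply_single, AddMonoidHom.comp_apply, transp_E'_coeff,
      Finsupp.single_apply]
    split_ifs
    · rfl
    · simp
  have h2 := DFunLike.congr_fun h u
  simpa only [AddMonoidHom.comp_apply, Finsupp.applyAddHom_apply, transp_cf_apply] using h2

end aux

theorem transp {K : Type*} [Group K] {P P' : Type*} [AddCommGroup P] [Module (Zg K) P]
    [AddCommGroup P'] [Module (Zg K) P'] [Module.Finite (Zg K) P'] [Module.Projective (Zg K) P']
    {X : Type*} [MulAction K X] (ψ : (P' →ₗ[Zg K] Zg K) →+ (X →₀ (P →ₗ[Zg K] Zg K)))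
    (hψ : ∀ (k : K) f x, ψ (dl k f) (k • x) = dl k (ψ f x)) :
    ∃ χ : P →+ (X →₀ P'), (∀ (k : K) p x, χ (el k • p) (k • x) = el k • χ p x) ∧
      ∀ (f : P' →ₗ[Zg K] Zg K) p x, (f (χ p x)).coeff 1 = (ψ f x p).coeff 1 := by
  classical
  obtain ⟨n, e, f0, he⟩ := dualBasis (G := K) P'
  -- evaluation at `p`
  let ev : P → ((P →ₗ[Zg K] Zg K) →+ Zg K) := fun p =>
    AddMonoidHom.mk' (fun φ => φ p) (fun a b => rfl)
  let L : (P' →ₗ[Zg K] Zg K) → P → (X →₀ Zg K) := fun f p => transp_Φ (ev p) (ψ f)
  have hL : ∀ f p x k, (L f p x).coeff k = (ψ f (k⁻¹ • x) p).coeff k := fun f p x k =>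
    transp_Φ_coeff (ev p) (ψ f) x k
  have hLp : ∀ f p p', L f (p + p') = L f p + L f p' := by
    intro f p p'
    refine Finsupp.ext fun x => transp_coeff_ext fun k => ?_
    rw [hL, map_add, Finsupp.add_apply, MonoidAlgebra.coeff_add, MonoidAlgebra.coeff_add,
      Finsupp.add_apply, Finsupp.add_apply, hL, hL]
  have hLf : ∀ f f' p, L (f + f') p = L f p + L f' p := by
    intro f f' p
    change transp_Φ (ev p) (ψ (f + f')) = transp_Φ (ev p) (ψ f) + transp_Φ (ev p) (ψ f')
    rw [map_add, map_add]
  have hLel : ∀ f p x (j : K), L (rm f (el j⁻¹)) p x = L f p x * el j⁻¹ := by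
    intro f p x j
    refine transp_coeff_ext fun k => ?_
    rw [hL, transp_coeff_mul, hL]
    have h1 := hψ j f ((k * j)⁻¹ • x)
    have h2 : j • ((k * j)⁻¹ • x) = k⁻¹ • x := by
      rw [smul_smul, mul_inv_rev, mul_inv_cancel_left]
    rw [h2] at h1
    have h3 : ψ (rm f (el j⁻¹)) (k⁻¹ • x) = dl j (ψ f ((k * j)⁻¹ • x)) := h1
    rw [h3, dl_apply, transp_coeff_mul]
  have hLrm : ∀ f p x (y : Zg K), L (rm f y) p x = L f p x * y := by
    intro f p x y
    have hrm : ∀ a b : Zg K, rm f (a + b) = rm f a + rm f b := by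
      intro a b
      apply LinearMap.ext
      intro q
      simp [mul_add]
    have h : (AddMonoidHom.mk' (fun y : Zg K => L (rm f y) p x) (fun a b => by
        rw [hrm, hLf, Finsupp.add_apply])) = AddMonoidHom.mulLeft (L f p x) := by
      apply zhom_ext
      intro g
      have := hLel f p x g⁻¹
      rw [inv_inv] at this
      exact this
    exact DFunLike.congr_fun h y
  have hLeq : ∀ f p x (j : K), L f (el j • p) (j • x) = el j * L f p x := by
    intro f p x j
    refine transp_coeff_ext fun k => ?_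
    rw [hL, transp_mul_coeff, hL, map_smul, smul_eq_mul, transp_mul_coeff]
    congr 3
    rw [smul_smul, mul_inv_rev, inv_inv]
  have hL0 : ∀ p, L 0 p = 0 := by
    intro p
    change transp_Φ (ev p) (ψ 0) = 0
    rw [map_zero, map_zero]
  have hLsum : ∀ (s : Finset (Fin n)) (F : Fin n → (P' →ₗ[Zg K] Zg K)) p,
      L (∑ i ∈ s, F i) p = ∑ i ∈ s, L (F i) p := by
    intro s F p
    change transp_Φ (ev p) (ψ (∑ i ∈ s, F i)) = ∑ i ∈ s, transp_Φ (ev p) (ψ (F i))
    rw [map_sum, map_sum]
  let sm : P' → (Zg K →+ P') := fun q => AddMonoidHom.mk' (fun z => z • q) (fun a b => add_smul _ _ _)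
  let χ : P →+ (X →₀ P') := AddMonoidHom.mk'
    (fun p => ∑ i, Finsupp.mapRange.addMonoidHom (sm (e i)) (L (f0 i) p)) (fun p p' => by
      simp only [hLp, map_add, Finset.sum_add_distrib])
  have hχ : ∀ p x, χ p x = ∑ i, L (f0 i) p x • e i := by
    intro p x
    change (∑ i, Finsupp.mapRange.addMonoidHom (sm (e i)) (L (f0 i) p)) x = _
    rw [Finsupp.finsetSum_apply]
    rfl
  have hfχ : ∀ (f : P' →ₗ[Zg K] Zg K) p x, f (χ p x) = L f p x := by
    intro f p x
    rw [hχ, map_sum]
    have h1 : f = ∑ i, rm (f0 i) (f (e i)) := by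
      apply LinearMap.ext
      intro q
      conv_lhs => rw [he q]
      rw [map_sum, LinearMap.sum_apply]
      refine Finset.sum_congr rfl fun i _ => ?_
      rw [map_smul, smul_eq_mul, rm_apply]
    conv_rhs => rw [h1]
    rw [hLsum, Finsupp.finsetSum_apply]
    refine Finset.sum_congr rfl fun i _ => ?_
    rw [map_smul, smul_eq_mul, hLrm]
  refine ⟨χ, fun k p x => ?_, fun f p x => ?_⟩
  · rw [he (χ (el k • p) (k • x)), he (el k • χ p x)]
    refine Finset.sum_congr rfl fun i _ => ?_
    rw [hfχ, hLeq, map_smul, smul_eq_mul, hfχ]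
  · rw [hfχ, hL, inv_one, one_smul]

theorem transp' {K : Type*} [Group K] {P P' : Type*} [AddCommGroup P] [Module (Zg K) P]
    [Module.Finite (Zg K) P] [AddCommGroup P'] [Module (Zg K) P']
    {X : Type*} [MulAction K X] (χ : P →+ (X →₀ P'))
    (hχ : ∀ (k : K) p x, χ (el k • p) (k • x) = el k • χ p x) :
    ∃ ψ : (P' →ₗ[Zg K] Zg K) →+ (X →₀ (P →ₗ[Zg K] Zg K)),
      (∀ (k : K) f x, ψ (dl k f) (k • x) = dl k (ψ f x)) ∧
      ∀ (f : P' →ₗ[Zg K] Zg K) p x, (f (χ p x)).coeff 1 = (ψ f x p).coeff 1 := by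
  classical
  let M : (P' →ₗ[Zg K] Zg K) → P → (X →₀ Zg K) := fun f p =>
    transp_Φ' f.toAddMonoidHom (χ p)
  have hM : ∀ f p x k, (M f p x).coeff k = (f (χ p (k • x))).coeff k := fun f p x k =>
    transp_Φ'_coeff f.toAddMonoidHom (χ p) x k
  have hMp : ∀ f p p', M f (p + p') = M f p + M f p' := by
    intro f p p'
    change transp_Φ' f.toAddMonoidHom (χ (p + p')) =
      transp_Φ' f.toAddMonoidHom (χ p) + transp_Φ' f.toAddMonoidHom (χ p')
    rw [map_add, map_add]
  have hMel : ∀ f p x (j : K), M f (el j • p) x = el j * M f p x := by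
    intro f p x j
    refine transp_coeff_ext fun k => ?_
    rw [hM, transp_mul_coeff, hM]
    have h1 := hχ j p ((j⁻¹ * k) • x)
    have h2 : j • ((j⁻¹ * k) • x) = k • x := by
      rw [smul_smul, mul_inv_cancel_left]
    rw [h2] at h1
    rw [h1, map_smul, smul_eq_mul, transp_mul_coeff]
  have hMsm : ∀ f p x (y : Zg K), M f (y • p) x = y * M f p x := by
    intro f p x y
    have h : (AddMonoidHom.mk' (fun y : Zg K => M f (y • p) x) (fun a b => by
        rw [add_smul, hMp, Finsupp.add_apply])) = AddMonoidHom.mulRight (M f p x) := by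
      apply zhom_ext
      intro g
      exact hMel f p x g
    exact DFunLike.congr_fun h y
  let N : (P' →ₗ[Zg K] Zg K) → X → (P →ₗ[Zg K] Zg K) := fun f x =>
    { toFun := fun p => M f p x
      map_add' := fun a b => by rw [hMp, Finsupp.add_apply]
      map_smul' := fun y p => by rw [hMsm, RingHom.id_apply, smul_eq_mul] }
  have hN : ∀ f x p, N f x p = M f p x := fun f x p => rfl
  obtain ⟨n, s, hs⟩ := Module.Finite.exists_fin (R := Zg K) (M := P)
  have hfin : ∀ f, (Function.support (N f)).Finite := by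
    intro f
    refine Set.Finite.subset (s := ⋃ j : Fin n, ((M f (s j)).support : Set X))
      (Set.finite_iUnion fun j => Finset.finite_toSet _) ?_
    intro x hx
    by_contra hc
    apply hx
    have h1 : ∀ j, M f (s j) x = 0 := by
      intro j
      by_contra h2
      apply hc
      rw [Set.mem_iUnion]
      exact ⟨j, by simpa using h2⟩
    refine LinearMap.ext_on hs ?_
    rintro _ ⟨j, rfl⟩
    rw [hN, h1, LinearMap.zero_apply]
  let ψ0 : (P' →ₗ[Zg K] Zg K) → (X →₀ (P →ₗ[Zg K] Zg K)) := fun f =>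
    Finsupp.ofSupportFinite (N f) (hfin f)
  have hψ0 : ∀ f x, ψ0 f x = N f x := fun f x => rfl
  let ψ : (P' →ₗ[Zg K] Zg K) →+ (X →₀ (P →ₗ[Zg K] Zg K)) := AddMonoidHom.mk' ψ0 (by
    intro f f'
    refine Finsupp.ext fun x => LinearMap.ext fun p => transp_coeff_ext fun k => ?_
    rw [Finsupp.add_apply, LinearMap.add_apply, hψ0, hψ0, hψ0, hN, hN, hN,
      MonoidAlgebra.coeff_add, Finsupp.add_apply, hM, hM, hM, LinearMap.add_apply,
      MonoidAlgebra.coeff_add, Finsupp.add_apply])
  have hψ : ∀ f x p, ψ f x p = M f p x := fun f x p => rfl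
  refine ⟨ψ, fun j f x => ?_, fun f p x => ?_⟩
  · refine LinearMap.ext fun p => transp_coeff_ext fun k => ?_
    rw [hψ, hM, dl_apply, dl_apply, transp_coeff_mul, transp_coeff_mul, hψ, hM, smul_smul]
  · rw [hψ, hM, one_smul]

end PDT
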