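import Pool.Agent.Lib.PDT.Base5
import Pool.Agent.Lib.PDT.LiftV
import Pool.Agent.Lib.PDT.Transp

/-!
# PDT/NonX: the second cohomology of a group of type FP and dimension 2 with `H^0 = H^1 = 0` is not zero

Complete proof.  Suppose that every `f : P2*` is `f' ∘ d2`.
(1) `σ : P2* →+ P1*` equivariant (`σ (dl k f) = dl k (σ f)`) with `(σ f) ∘ d2 = f`: `lift_V` for `Q = P2`,
`π = (· ∘ d2)`.  (2) `τ : P1* →+ P0*` equivariant with `τ (h ∘ d1) = h`: for `v : P1*`, `(v - σ (v ∘ d2)) ∘ d2 = 0`, so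
`v - σ (v ∘ d2) = h ∘ d1` for a unique `h` (`dual1`, `dual0`); put `τ v = h`; for `v = h ∘ d1`, `v ∘ d2 = 0` and `τ v = h`.
(3) Transposition (`transp` with `X = Unit`, trivial action, identifying `Unit →₀ A` with `A`; `MulAction K PUnit` exists):
`τ` gives `t : P0 →+ P1` with `t (el k • p) = el k • t p` and `[f (t p)]_1 = [(τ f) p]_1` for `f : P1*`, `p : P0`.  So for
`h : P0*`: `[h (d1 (t p))]_1 = [(τ (h ∘ d1)) p]_1 = [h p]_1`.  As this holds for all `h` (also for all `dl k h`, so all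
coefficients of `h (d1 (t p) - p)` vanish: `[(dl k h) q]_1 = [h q]_k`), and functionals separate the points of the projective
module `P0` (dual basis), `d1 (t p) = p`.  So `d1` is onto and `ε = 0` by `ex0`, contradiction to `hs`.
-/

namespace PDT

open Function

private noncomputable def nonX_dlHom (K : Type*) [Group K] (Q : Type*) [AddCommGroup Q]
    [Module (Zg K) Q] : K →* AddMonoid.End (Q →ₗ[Zg K] Zg K) where
  toFun k :=
    { toFun := dl k
      map_zero' := by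
        apply LinearMap.ext
        intro q
        rw [dl_apply]
        simp
      map_add' := fun f f' => dl_add k f f' }
  map_one' := by
    apply AddMonoidHom.ext
    intro f
    exact dl_one f
  map_mul' x y := by
    apply AddMonoidHom.ext
    intro f
    exact dl_mul x y f

private theorem nonX_dlHom_apply {K : Type*} [Group K] {Q : Type*} [AddCommGroup Q]
    [Module (Zg K) Q] (k : K) (f : Q →ₗ[Zg K] Zg K) : nonX_dlHom K Q k f = dl k f := rfl

private noncomputable def nonX_pre {K : Type*} [Group K] {P1 P2 : Type*} [AddCommGroup P1]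
    [Module (Zg K) P1] [AddCommGroup P2] [Module (Zg K) P2] (d2 : P2 →ₗ[Zg K] P1) :
    (P1 →ₗ[Zg K] Zg K) →+ (P2 →ₗ[Zg K] Zg K) where
  toFun f := f ∘ₗ d2
  map_zero' := by
    apply LinearMap.ext
    intro q
    simp
  map_add' f g := by
    apply LinearMap.ext
    intro q
    simp

private theorem nonX_coeff {K : Type*} [Group K] (y : Zg K) (k : K) :
    (y * el k⁻¹).coeff 1 = y.coeff k := by
  rw [el, MonoidAlgebra.coeff_mul_single_apply]
  simp

theorem non_X {K : Type*} [Group K] {P0 P1 P2 : Type*} [AddCommGroup P0] [Module (Zg K) P0]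
    [AddCommGroup P1] [Module (Zg K) P1] [AddCommGroup P2] [Module (Zg K) P2]
    [Module.Finite (Zg K) P0] [Module.Projective (Zg K) P0]
    [Module.Finite (Zg K) P1] [Module.Projective (Zg K) P1]
    [Module.Finite (Zg K) P2] [Module.Projective (Zg K) P2] (ε : P0 →+ ℤ) (hs : Surjective ε)
    (d1 : P1 →ₗ[Zg K] P0) (d2 : P2 →ₗ[Zg K] P1) (ex0 : ∀ p, ε p = 0 ↔ ∃ q, d1 q = p)
    (hdd : ∀ p, d1 (d2 p) = 0)
    (dual0 : ∀ f : P0 →ₗ[Zg K] Zg K, f ∘ₗ d1 = 0 → f = 0)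
    (dual1 : ∀ f : P1 →ₗ[Zg K] Zg K, f ∘ₗ d2 = 0 → ∃ h : P0 →ₗ[Zg K] Zg K, f = h ∘ₗ d1) :
    ∃ f : P2 →ₗ[Zg K] Zg K, ∀ f' : P1 →ₗ[Zg K] Zg K, f ≠ f' ∘ₗ d2 := by
  by_contra hcon
  push Not at hcon
  -- step 1
  obtain ⟨σ, hσ, hσ2⟩ := lift_V (Q := P2) (nonX_dlHom K P1) (nonX_dlHom K P2) (nonX_pre d2)
    (fun k x => rfl) (AddMonoidHom.id _) (fun k r => rfl)
    (fun r => by
      obtain ⟨f', hf'⟩ := hcon r
      exact ⟨f', hf'.symm⟩)
  have hσ1 : ∀ (k : K) (r : P2 →ₗ[Zg K] Zg K), σ (dl k r) = dl k (σ r) := hσ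
  have hσ3 : ∀ r : P2 →ₗ[Zg K] Zg K, (σ r) ∘ₗ d2 = r := hσ2
  -- step 2
  have uniq : ∀ h h' : P0 →ₗ[Zg K] Zg K, h ∘ₗ d1 = h' ∘ₗ d1 → h = h' := by
    intro h h' e
    have h1 : (h - h') ∘ₗ d1 = 0 := by
      rw [LinearMap.sub_comp, e, sub_self]
    exact sub_eq_zero.mp (dual0 _ h1)
  have hex : ∀ v : P1 →ₗ[Zg K] Zg K, ∃ h : P0 →ₗ[Zg K] Zg K, v - σ (v ∘ₗ d2) = h ∘ₗ d1 := by
    intro v
    apply dual1
    rw [LinearMap.sub_comp, hσ3, sub_self]
  choose T hT using hex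
  have hTadd : ∀ v v' : P1 →ₗ[Zg K] Zg K, T (v + v') = T v + T v' := by
    intro v v'
    apply uniq
    rw [LinearMap.add_comp, ← hT, ← hT, ← hT, LinearMap.add_comp, map_add]
    abel
  have hTk : ∀ (k : K) (v : P1 →ₗ[Zg K] Zg K), T (dl k v) = dl k (T v) := by
    intro k v
    apply uniq
    rw [dl_comp, ← hT, ← hT, dl_comp, hσ1]
    apply LinearMap.ext
    intro q
    simp [sub_mul]
  have hTh : ∀ h : P0 →ₗ[Zg K] Zg K, T (h ∘ₗ d1) = h := by
    intro h
    apply uniq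
    rw [← hT]
    have h1 : (h ∘ₗ d1) ∘ₗ d2 = 0 := by
      apply LinearMap.ext
      intro q
      simp [hdd]
    rw [h1, map_zero, sub_zero]
  let τ : (P1 →ₗ[Zg K] Zg K) →+ (P0 →ₗ[Zg K] Zg K) := AddMonoidHom.mk' T hTadd
  have hτ : ∀ v, τ v = T v := fun v => rfl
  -- step 3
  let ψ : (P1 →ₗ[Zg K] Zg K) →+ (PUnit.{1} →₀ (P0 →ₗ[Zg K] Zg K)) :=
    (Finsupp.singleAddHom PUnit.unit).comp τ
  have hψv : ∀ (v : P1 →ₗ[Zg K] Zg K) (x : PUnit.{1}), ψ v x = T v := by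
    intro v x
    change (Finsupp.single PUnit.unit (τ v)) x = T v
    rw [Finsupp.single_apply, if_pos (Subsingleton.elim _ _), hτ]
  obtain ⟨χ, hχ, hχ1⟩ := transp (K := K) (P := P0) (P' := P1) (X := PUnit.{1}) ψ (by
    intro k f x
    rw [hψv, hψv, hTk])
  have key : ∀ p : P0, d1 (χ p PUnit.unit) = p := by
    intro p
    have h1 : ∀ h : P0 →ₗ[Zg K] Zg K, h (d1 (χ p PUnit.unit)) = h p := by
      intro h
      apply MonoidAlgebra.ext
      apply Finsupp.ext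
      intro k
      have h2 := hχ1 (dl k h ∘ₗ d1) p PUnit.unit
      rw [hψv, hTh, LinearMap.comp_apply, dl_apply, dl_apply, nonX_coeff, nonX_coeff] at h2
      exact h2
    obtain ⟨n, e, f, hef⟩ := dualBasis (G := K) P0
    rw [hef (d1 (χ p PUnit.unit))]
    conv_rhs => rw [hef p]
    exact Finset.sum_congr rfl fun i _ => by rw [h1]
  obtain ⟨p, hp⟩ := hs 1
  have h0 : ε p = 0 := (ex0 p).2 ⟨_, key p⟩
  rw [h0] at hp
  exact zero_ne_one hp

end PDT
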