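import Pool.Agent.Lib.PDT.Base5
import Pool.Agent.Lib.PDT.ChainV
import Pool.Agent.Lib.PDT.Transp
import Pool.Agent.Lib.PDT.HomotX
import Pool.Agent.Lib.PDT.NonX

/-!
# PDT/OneX: a permutation module which is the dualizing module of a duality group of dimension 2 has rank one
-/

namespace PDT

open Function

private theorem oneX_sep {K : Type*} [Group K] {P : Type*} [AddCommGroup P] [Module (Zg K) P]
    [Module.Finite (Zg K) P] [Module.Projective (Zg K) P] (q : P)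
    (h : ∀ f : P →ₗ[Zg K] Zg K, (f q).coeff 1 = 0) : q = 0 := by
  obtain ⟨n, e, f, hef⟩ := dualBasis (G := K) P
  rw [hef q]
  apply Finset.sum_eq_zero
  intro i _
  have h1 : f i q = 0 := by
    ext k
    have h2 := h (dl k (f i))
    rw [dl_apply] at h2
    rw [el, MonoidAlgebra.coeff_mul_single_apply] at h2
    simpa using h2
  rw [h1, zero_smul]

private theorem oneX_fun {K : Type*} [Group K] {P : Type*} [AddCommGroup P] [Module (Zg K) P]
    (g : P →ₗ[Zg K] Zg K) (h : ∀ p : P, (g p).coeff 1 = 0) : g = 0 := by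
  apply LinearMap.ext
  intro p
  ext k
  have h2 := h (el k⁻¹ • p)
  rw [map_smul, smul_eq_mul, el, MonoidAlgebra.coeff_single_mul_apply] at h2
  simpa using h2

theorem one_X {K : Type*} [Group K] {P0 P1 P2 : Type*} [AddCommGroup P0] [Module (Zg K) P0]
    [AddCommGroup P1] [Module (Zg K) P1] [AddCommGroup P2] [Module (Zg K) P2]
    [Module.Finite (Zg K) P0] [Module.Projective (Zg K) P0]
    [Module.Finite (Zg K) P1] [Module.Projective (Zg K) P1]
    [Module.Finite (Zg K) P2] [Module.Projective (Zg K) P2] (ε : P0 →+ ℤ)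
    (hε : ∀ (k : K) p, ε (el k • p) = ε p) (hs : Surjective ε)
    (d1 : P1 →ₗ[Zg K] P0) (d2 : P2 →ₗ[Zg K] P1) (ex0 : ∀ p, ε p = 0 ↔ ∃ q, d1 q = p)
    (ex1 : ∀ p, d1 p = 0 ↔ ∃ q, d2 q = p) (inj2 : Injective d2)
    (dual0 : ∀ f : P0 →ₗ[Zg K] Zg K, f ∘ₗ d1 = 0 → f = 0)
    (dual1 : ∀ f : P1 →ₗ[Zg K] Zg K, f ∘ₗ d2 = 0 → ∃ h : P0 →ₗ[Zg K] Zg K, f = h ∘ₗ d1)
    {X : Type*} [MulAction K X] (θ : (P2 →ₗ[Zg K] Zg K) →+ (X →₀ ℤ))
    (hθ : ∀ (k : K) f x, θ (dl k f) (k • x) = θ f x) (hθs : Surjective θ)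
    (hθk : ∀ f, θ f = 0 ↔ ∃ f' : P1 →ₗ[Zg K] Zg K, f = f' ∘ₗ d2) :
    ∃ x : X, ∀ y, y = x := by
  classical
  have hdd : ∀ p, d1 (d2 p) = 0 := fun p => (ex1 _).2 ⟨p, rfl⟩
  obtain ⟨ψ2, ψ1, ψ0, e2, e1, e0, c21, c10, cθ⟩ := chain_V d1 d2 hdd dual1 θ hθ hθs hθk
  obtain ⟨χ2, E2, R2⟩ := transp ψ2 e2
  obtain ⟨χ1, E1, R1⟩ := transp ψ1 e1
  obtain ⟨χ0, E0, R0⟩ := transp ψ0 e0
  have h12 : ∀ p x, χ1 (d2 p) x = d2 (χ2 p x) := by
    intro p x
    apply sub_eq_zero.1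
    apply oneX_sep (K := K)
    intro f
    rw [map_sub, MonoidAlgebra.coeff_sub, Finsupp.sub_apply, R1]
    have h1 := R2 (f ∘ₗ d2) p x
    rw [c21] at h1
    rw [LinearMap.comp_apply, LinearMap.comp_apply] at h1
    rw [h1, sub_self]
  have h01 : ∀ p x, χ0 (d1 p) x = d1 (χ1 p x) := by
    intro p x
    apply sub_eq_zero.1
    apply oneX_sep (K := K)
    intro f
    rw [map_sub, MonoidAlgebra.coeff_sub, Finsupp.sub_apply, R0]
    have h1 := R1 (f ∘ₗ d1) p x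
    rw [c10] at h1
    rw [LinearMap.comp_apply, LinearMap.comp_apply] at h1
    rw [h1, sub_self]
  obtain ⟨m, s1, es, hm⟩ := homot_X ε hε hs d1 d2 ex0 ex1 inj2 χ0 χ1 χ2 E0 E1 h01 h12
  obtain ⟨σ, eσ, hσ⟩ := transp' s1 es
  have key : ∀ (f : P2 →ₗ[Zg K] Zg K) x, ψ2 f x = m x • f + (σ f x) ∘ₗ d2 := by
    intro f x
    apply sub_eq_zero.1
    apply oneX_fun (K := K)
    intro p
    have h1 := R2 f p x
    rw [hm, map_add, map_zsmul, MonoidAlgebra.coeff_add, Finsupp.add_apply, hσ] at h1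
    rw [LinearMap.sub_apply, MonoidAlgebra.coeff_sub, Finsupp.sub_apply, ← h1,
      LinearMap.add_apply, LinearMap.smul_apply, LinearMap.comp_apply, MonoidAlgebra.coeff_add,
      Finsupp.add_apply, sub_self]
  have key2 : ∀ (f : P2 →ₗ[Zg K] Zg K) x, Finsupp.single x (θ f x) = m x • θ f := by
    intro f x
    rw [← cθ, key, map_add, map_zsmul, (hθk _).2 ⟨_, rfl⟩, add_zero]
  have key3 : ∀ x y : X, x = y := by
    intro x y
    by_contra hxy
    obtain ⟨f, hf⟩ := hθs (Finsupp.single x 1)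
    have h1 := congrArg (fun F : X →₀ ℤ => F x) (key2 f x)
    have h2 := congrArg (fun F : X →₀ ℤ => F x) (key2 f y)
    have h3 := congrArg (fun F : X →₀ ℤ => F x) (key2 f x)
    simp only [hf, Finsupp.single_eq_same, Finsupp.smul_apply, smul_eq_mul, mul_one] at h1 h2
    obtain ⟨g, hg⟩ := hθs (Finsupp.single y 1)
    have h4 := congrArg (fun F : X →₀ ℤ => F y) (key2 g x)
    simp only [hg, Finsupp.smul_apply, Finsupp.single_eq_same, smul_eq_mul, mul_one] at h4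
    rw [Finsupp.single_apply, if_neg hxy] at h4
    rw [← h1] at h4
    exact absurd h4 (by norm_num)
  obtain ⟨f, hf⟩ := non_X ε hs d1 d2 ex0 hdd dual0 dual1
  have hne : θ f ≠ 0 := by
    intro h0
    obtain ⟨f', hf'⟩ := (hθk f).1 h0
    exact hf f' hf'
  obtain ⟨x, hx⟩ := Finsupp.ne_iff.1 hne
  exact ⟨x, fun y => key3 y x⟩

end PDT
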