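import Pool.Agent.Lib.PDT.Def

/-!
# PDT/PDtwo: a criterion for PD(2)-groups

Complete proof.  Pattern matching as in `PDT/FPOf` (read this file).  The resolution has `Q 0 = (Fin 1 → Zg K)`,
`Q 1 = (Fin n → Zg K)`, `Q 2 = ker d`, `Q i = PUnit` for `i ≥ 3`, `len = 2`, `ε = aug ∘ (evaluation at 0)`, boundaries `d`, `subtype`, `0`.
`coc R 0 ≤ cob R 0 = ⊥`: `dual0`.  `coc R 1 ≤ cob R 1`: `dual1`.  `coc R i` for `i ≥ 3`: all functionals on `PUnit` are zero.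
`coc R 2` is everything (`Q 3` is trivial), `cob R 2 = {f' ∘ subtype}` is the kernel of `θ` (`hθk`), and `θ` is onto `ℤ`; so the quotient is
isomorphic to `ℤ` (`QuotientAddGroup.quotientKerEquivOfSurjective`; first for the composition `coc R 2 → (ker d →ₗ Zg K) → ℤ`, whose kernel is
`(cob R 2).addSubgroupOf (coc R 2)`; `QuotientAddGroup.quotientAddEquivOfEq`).
-/

namespace PDT

open Function

universe u

private def PDtwo_Q {H : Type u} [Group H] (R : Res2 H) : ℕ → Type u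
  | 0 => R.P0
  | 1 => R.P1
  | 2 => R.P2
  | _ + 3 => PUnit.{u + 1}

@[reducible] private noncomputable def PDtwo_ag {H : Type u} [Group H] (R : Res2 H) :
    ∀ i, AddCommGroup (PDtwo_Q R i)
  | 0 => R.ag0
  | 1 => R.ag1
  | 2 => R.ag2
  | _ + 3 => (inferInstance : AddCommGroup PUnit.{u + 1})

@[reducible] private noncomputable def PDtwo_md {H : Type u} [Group H] (R : Res2 H) :
    ∀ i, @Module (Zg H) (PDtwo_Q R i) _ (PDtwo_ag R i).toAddCommMonoid
  | 0 => R.md0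
  | 1 => R.md1
  | 2 => R.md2
  | _ + 3 => (inferInstance : Module (Zg H) PUnit.{u + 1})

private theorem PDtwo_fg {H : Type u} [Group H] (R : Res2 H) :
    ∀ i, @Module.Finite (Zg H) (PDtwo_Q R i) _ (PDtwo_ag R i).toAddCommMonoid (PDtwo_md R i)
  | 0 => R.fg0
  | 1 => R.fg1
  | 2 => R.fg2
  | _ + 3 => (inferInstance : Module.Finite (Zg H) PUnit.{u + 1})

private theorem PDtwo_pr {H : Type u} [Group H] (R : Res2 H) :
    ∀ i, @Module.Projective (Zg H) _ (PDtwo_Q R i) (PDtwo_ag R i).toAddCommMonoid (PDtwo_md R i)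
  | 0 => R.pr0
  | 1 => R.pr1
  | 2 => R.pr2
  | _ + 3 => (Module.Projective.of_free : Module.Projective (Zg H) PUnit.{u + 1})

private noncomputable def PDtwo_d {H : Type u} [Group H] (R : Res2 H) :
    ∀ i, @LinearMap (Zg H) (Zg H) _ _ (RingHom.id _) (PDtwo_Q R (i + 1)) (PDtwo_Q R i)
      (PDtwo_ag R (i + 1)).toAddCommMonoid (PDtwo_ag R i).toAddCommMonoid
      (PDtwo_md R (i + 1)) (PDtwo_md R i)
  | 0 => R.d1
  | 1 => R.d2
  | i + 2 =>
    @OfNat.ofNat _ 0 (@Zero.toOfNat0 _ (@LinearMap.instZero (Zg H) (Zg H) (PDtwo_Q R (i + 2 + 1))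
      (PDtwo_Q R (i + 2)) _ _ (PDtwo_ag R (i + 2 + 1)).toAddCommMonoid
      (PDtwo_ag R (i + 2)).toAddCommMonoid (PDtwo_md R (i + 2 + 1)) (PDtwo_md R (i + 2))
      (RingHom.id _)))

private theorem PDtwo_sub {H : Type u} [Group H] (R : Res2 H) (i : ℕ) (h : 2 < i) :
    Subsingleton (PDtwo_Q R i) := by
  obtain ⟨j, rfl⟩ : ∃ j, i = j + 3 := ⟨i - 3, by omega⟩
  exact (inferInstance : Subsingleton PUnit.{u + 1})

private theorem PDtwo_ex {H : Type u} [Group H] (R : Res2 H) (i : ℕ) (q : PDtwo_Q R (i + 1)) :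
    @DFunLike.coe _ _ _ (@LinearMap.instFunLike (Zg H) (Zg H) (PDtwo_Q R (i + 1)) (PDtwo_Q R i) _ _
      (PDtwo_ag R (i + 1)).toAddCommMonoid (PDtwo_ag R i).toAddCommMonoid
      (PDtwo_md R (i + 1)) (PDtwo_md R i) (RingHom.id _)) (PDtwo_d R i) q =
      (PDtwo_ag R i).toAddCommMonoid.toAddMonoid.toZero.zero ↔
      ∃ r, @DFunLike.coe _ _ _ (@LinearMap.instFunLike (Zg H) (Zg H) (PDtwo_Q R (i + 1 + 1))
        (PDtwo_Q R (i + 1)) _ _
        (PDtwo_ag R (i + 1 + 1)).toAddCommMonoid (PDtwo_ag R (i + 1)).toAddCommMonoid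
        (PDtwo_md R (i + 1 + 1)) (PDtwo_md R (i + 1)) (RingHom.id _)) (PDtwo_d R (i + 1)) r = q := by
  match i, q with
  | 0, q => exact R.ex1 q
  | 1, q =>
    let _ := R.ag1
    let _ := R.ag2
    let _ := R.md1
    let _ := R.md2
    constructor
    · intro hq
      have h0 : (q : R.P2) = (0 : R.P2) := R.inj2 (by rw [map_zero]; exact hq)
      exact ⟨(PUnit.unit : PUnit.{u + 1}), h0.symm⟩
    · rintro ⟨r, hr⟩
      have h0 : q = (0 : R.P2) := hr.symm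
      change R.d2 q = 0
      rw [h0, map_zero]
  | i + 2, q =>
    constructor
    · intro _
      have := PDtwo_sub R (i + 2 + 1) (by omega)
      exact ⟨(PUnit.unit : PUnit.{u + 1}), Subsingleton.elim _ _⟩
    · intro _
      rfl

private noncomputable def PDtwo_R {H : Type u} [Group H] (R : Res2 H) : FPRes H :=
  @FPRes.mk H _ (PDtwo_Q R) (PDtwo_ag R) (PDtwo_md R) (PDtwo_fg R) (PDtwo_pr R) 2
    (PDtwo_sub R) R.ε (PDtwo_d R) R.ε_el R.ε_surj R.ex0 (PDtwo_ex R)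

attribute [local instance] Res2.ag0 Res2.ag1 Res2.ag2 Res2.md0 Res2.md1 Res2.md2

private theorem PDtwo_gen {K : Type u} [Group K] (R : Res2 K)
    (dual0 : ∀ f : R.P0 →ₗ[Zg K] Zg K, f ∘ₗ R.d1 = 0 → f = 0)
    (dual1 : ∀ f : R.P1 →ₗ[Zg K] Zg K, f ∘ₗ R.d2 = 0 →
      ∃ h : R.P0 →ₗ[Zg K] Zg K, f = h ∘ₗ R.d1)
    (θ : (R.P2 →ₗ[Zg K] Zg K) →+ ℤ) (hθs : Surjective θ)
    (hθk : ∀ f, θ f = 0 ↔ ∃ f' : R.P1 →ₗ[Zg K] Zg K, f = f' ∘ₗ R.d2) : IsPD 2 K := by
  refine ⟨PDtwo_R R, fun i hi => ?_, ?_⟩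
  · match i, hi with
    | 0, _ =>
      intro f hf
      exact dual0 f hf
    | 1, _ =>
      intro f hf
      exact dual1 f hf
    | 2, hi => exact absurd rfl hi
    | i + 3, _ =>
      intro f _
      refine ⟨0, ?_⟩
      apply LinearMap.ext
      intro q
      have h := PDtwo_sub R (i + 3) (by omega)
      have hq : q = 0 := @Subsingleton.elim _ h _ _
      rw [hq, map_zero, map_zero]
  · let θ' : ((PDtwo_R R).Q 2 →ₗ[Zg K] Zg K) →+ ℤ := θ
    let ψ : coc (PDtwo_R R) 2 →+ ℤ := θ'.comp (coc (PDtwo_R R) 2).subtype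
    have hall : ∀ f : (PDtwo_R R).Q 2 →ₗ[Zg K] Zg K, f ∈ coc (PDtwo_R R) 2 := by
      intro f
      change f ∘ₗ (PDtwo_R R).d 2 = 0
      have h0 : (PDtwo_R R).d 2 = 0 := rfl
      rw [h0, LinearMap.comp_zero]
    have hψs : Surjective ψ := by
      intro z
      obtain ⟨f, hf⟩ := hθs z
      exact ⟨⟨f, hall f⟩, hf⟩
    have hker : (cob (PDtwo_R R) 2).addSubgroupOf (coc (PDtwo_R R) 2) = ψ.ker := by
      ext f
      rw [AddSubgroup.mem_addSubgroupOf, AddMonoidHom.mem_ker]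
      exact (hθk f.1).symm
    exact ⟨(QuotientAddGroup.quotientAddEquivOfEq hker).trans
      (QuotientAddGroup.quotientKerEquivOfSurjective ψ hψs)⟩

theorem pd_two {K : Type u} [Group K] {n : ℕ} (d : (Fin n → Zg K) →ₗ[Zg K] (Fin 1 → Zg K))
    (hd : ∀ y : Fin 1 → Zg K, aug (y 0) = 0 ↔ ∃ x, d x = y)
    (hproj : Module.Projective (Zg K) (LinearMap.ker d))
    (hfin : Module.Finite (Zg K) (LinearMap.ker d))
    (dual0 : ∀ f : (Fin 1 → Zg K) →ₗ[Zg K] Zg K, f ∘ₗ d = 0 → f = 0)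
    (dual1 : ∀ f : (Fin n → Zg K) →ₗ[Zg K] Zg K, f ∘ₗ (LinearMap.ker d).subtype = 0 →
      ∃ h : (Fin 1 → Zg K) →ₗ[Zg K] Zg K, f = h ∘ₗ d)
    (θ : (LinearMap.ker d →ₗ[Zg K] Zg K) →+ ℤ) (hθs : Surjective θ)
    (hθk : ∀ f, θ f = 0 ↔ ∃ f' : (Fin n → Zg K) →ₗ[Zg K] Zg K,
      f = f' ∘ₗ (LinearMap.ker d).subtype) : IsPD 2 K := by
  have haug : ∀ (g : K) (q : Fin 1 → Zg K), aug ((el g • q) 0) = aug (q 0) := by
    intro g q
    rw [Pi.smul_apply, smul_eq_mul, aug_el_mul]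
  let R : Res2 K :=
    { P0 := Fin 1 → Zg K
      P1 := Fin n → Zg K
      P2 := LinearMap.ker d
      fg2 := hfin
      pr2 := hproj
      ε := aug.comp (Pi.evalAddMonoidHom (fun _ : Fin 1 => Zg K) 0)
      d1 := d
      d2 := (LinearMap.ker d).subtype
      ε_el := haug
      ε_surj := fun z => ⟨fun _ => z • el 1, by
        change aug (z • el (1 : K)) = z
        rw [map_zsmul, aug_el, smul_eq_mul, mul_one]⟩
      ex0 := fun q => hd q
      ex1 := fun q => ⟨fun h => ⟨⟨q, LinearMap.mem_ker.mpr h⟩, rfl⟩, by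
        rintro ⟨r, rfl⟩
        exact LinearMap.mem_ker.mp r.2⟩
      inj2 := Subtype.val_injective }
  exact PDtwo_gen R dual0 dual1 θ hθs hθk

end PDT
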