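import Pool.Agent.Lib.PDT.Base5
import Pool.Agent.Lib.PDT.LiftV

/-!
# PDT/StabFG: stabilisers are finitely generated

`H` finitely generated, `P2 → P1` finitely generated projective modules, `H` acts on the set `X`,
`θ : P2* → ℤ[X]` equivariant with kernel `{f' ∘ d2}` and image the augmentation kernel of `ℤ[X] = (X →₀ ℤ)`.
Then the stabiliser `K` of every `x0 ∈ X` is finitely generated.

Complete proof.  Let `π : Zg H →+ (X →₀ ℤ)`, `π (el h) = single (h • x0) 1` (`zl`), equivariant
(`π (el h * y) (h • x) = π y x`).  Let `O` be the orbit of `x0` and `pr : (X →₀ ℤ) →+ (X →₀ ℤ)` the restriction to `O`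
(`Finsupp.filter`), equivariant, with values in the range of `π`.
(1) `lift_V` (`Q = P2`, target map `π`, `f = pr ∘ θ`, the actions `h·y = el h * y` on `Zg H`, `(h·F)(x) = F (h⁻¹ • x)` on `X →₀ ℤ`)
gives `θ' : P2* →+ Zg H`, `θ' (dl h f) = el h * θ' f`, `π (θ' f) = pr (θ f)`.
(2) For a subgroup `T ≤ K` let `q_T : Zg H →+ ((H ⧸ T) →₀ ℤ)`, `q_T (el h) = single (h : H ⧸ T) 1`.  CLAIM A: if `π y = 0` then there is a
finite subset `F ⊆ K` with `q_T y = 0` for all `T ≥ closure F`.  `F = {h⁻¹ h' | h, h' ∈ supp y, h • x0 = h' • x0} ⊆ K`: for `T ⊇ F` two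
elements `h, h'` of `supp y` have the same class in `H ⧸ T` iff `h • x0 = h' • x0`; the coefficient of `q_T y` at the class of `h ∈ supp y` is the
coefficient of `π y` at `h • x0` (sum over the `h' ∈ supp y` with `h' • x0 = h • x0`).
(3) `P1*` is generated over the group by finitely many `f_1, …, f_n` (dual basis of `P1`: `r = Σ_i rm f_i (r e_i)`, `rm f (el h⁻¹) = dl h f`).
`π (θ' (f_i ∘ d2)) = pr (θ (f_i ∘ d2)) = 0`, so there is a finite `F1 ⊆ K` with `q_T (θ' (f_i ∘ d2)) = 0` for all `i`, `T ⊇ F1`; by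
equivariance `q_T (θ' (f' ∘ d2)) = 0` for all `f' : P1*`.  So `q_T (θ' f)` depends only on `θ f`.
(4) For `c ∈ X` choose `f_c` with `θ f_c = single c 1 - single x0 1` and put `σ_T(c) = q_T (θ' f_c + 1)` (`1 = el 1`).  For `h ∈ H` let
`b_h = θ' f_(h • x0) + 1 - el h`; `π b_h = pr (single (h x0) - single x0) + single x0 - single (h x0) = 0`.  And
`σ_T (h • c) = el h · σ_T(c) + q_T (b_h)` [`el h ·` is the action on `(H ⧸ T) →₀ ℤ`]: `θ (f_(h c) - dl h f_c - f_(h x0)) = (hc - x0) - (hc - h x0) - (h x0 - x0) = 0`,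
so `q_T θ'` of it is zero.  Taking `S` a finite generating set of `H` and enlarging `F1` to a finite `F2 ⊆ K` with `q_T (b_s) = 0`, `s ∈ S`,
`T ⊇ F2`: the set of the `h` with `q_T(b_h) = 0` is a subgroup (`b_(h h') ≡ b_h + el h b_(h')` modulo the kernel of `q_T`, from the formula for
`σ_T((h h') c)`), so it is `H`.  Let `T = closure F2 ≤ K`: `σ = σ_T` is equivariant.
(5) `n = σ(x0) ∈ (H ⧸ T) →₀ ℤ` satisfies `el k · n = n` for `k ∈ K`.  The sum of the coefficients of `n` over the classes `h T` with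
`h ∈ K` (i.e. `h • x0 = x0`) is the coefficient at `x0` of the image of `n` in `X →₀ ℤ` (`h T ↦ h • x0`), which is
`pr (θ f_(x0)) + single x0 1 = single x0 1` (`θ f_(x0) = 0`), so it is `1`.  So the finite support `N` of `n` contains some `h T`, `h ∈ K`; `N` is stable under `K`, so it contains
`k T` for all `k ∈ K` (`k = (k h⁻¹) h`).  So `T` has finite index in `K` (`(K : Set H)` is covered by finitely many cosets `h_1 T, …, h_r T`, `h_i ∈ K`), and `K` is
generated by `F2` and `h_1, …, h_r`.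
-/


namespace PDT

open Function

private noncomputable def StabFG_b (H X : Type*) [Group H] [MulAction H X] :
    H →* AddMonoid.End (X →₀ ℤ) where
  toFun h := (Finsupp.mapDomain.addMonoidHom (fun x : X => h • x) : (X →₀ ℤ) →+ (X →₀ ℤ))
  map_one' := by
    apply AddMonoidHom.ext
    intro F
    change Finsupp.mapDomain (fun x : X => (1 : H) • x) F = F
    simp only [one_smul]
    exact Finsupp.mapDomain_id
  map_mul' x y := by
    apply AddMonoidHom.ext
    intro F
    change Finsupp.mapDomain (fun z : X => (x * y) • z) F =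
      Finsupp.mapDomain (fun z : X => x • z) (Finsupp.mapDomain (fun z : X => y • z) F)
    rw [← Finsupp.mapDomain_comp]
    congr 1
    funext z
    simp [mul_smul]

private theorem StabFG_b_apply {H X : Type*} [Group H] [MulAction H X] (h : H) (F : X →₀ ℤ) :
    StabFG_b H X h F = Finsupp.mapDomain (fun x : X => h • x) F := rfl

private theorem StabFG_b_smul {H X : Type*} [Group H] [MulAction H X] (h : H) (F : X →₀ ℤ)
    (x : X) : StabFG_b H X h F (h • x) = F x := by
  rw [StabFG_b_apply]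
  exact Finsupp.mapDomain_apply (MulAction.injective h) F x

/-- `el h ↦ single (p h) 1`. -/
private noncomputable def StabFG_q {H Z : Type*} [Group H] (p : H → Z) : Zg H →+ (Z →₀ ℤ) :=
  zl fun h => Finsupp.single (p h) 1

private theorem StabFG_q_el {H Z : Type*} [Group H] (p : H → Z) (h : H) :
    StabFG_q p (el h) = Finsupp.single (p h) 1 := zl_el _ _

private theorem StabFG_q_eq {H Z : Type*} [Group H] (p : H → Z) (y : Zg H) :
    StabFG_q p y = Finsupp.mapDomain p y.coeff := by
  rw [StabFG_q, zl_apply, Finsupp.mapDomain]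
  refine Finsupp.sum_congr fun g _ => ?_
  rw [Finsupp.smul_single, smul_eq_mul, mul_one]

private theorem StabFG_q_mul {H X : Type*} [Group H] [MulAction H X] (p : H → X)
    (hp : ∀ h g, p (h * g) = h • p g) (h : H) (y : Zg H) :
    StabFG_q p (el h * y) = StabFG_b H X h (StabFG_q p y) := by
  induction y using Zg.ind with
  | h0 => rw [mul_zero, map_zero, map_zero]
  | hel g => rw [← el_mul, StabFG_q_el, StabFG_q_el, StabFG_b_apply, Finsupp.mapDomain_single, hp]
  | hadd x y hx hy => rw [mul_add, map_add, hx, hy, map_add, map_add]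
  | hneg x hx => rw [mul_neg, map_neg, hx, map_neg, map_neg]

/-- Claim A. -/
private theorem StabFG_claim {H X : Type*} [Group H] [MulAction H X] (x0 : X) (y : Zg H)
    (hy : StabFG_q (fun h : H => h • x0) y = 0) :
    ∃ F : Finset H, (∀ g ∈ F, g ∈ MulAction.stabilizer H x0) ∧
      ∀ T : Subgroup H, T ≤ MulAction.stabilizer H x0 → (∀ g ∈ F, g ∈ T) →
        StabFG_q (fun h : H => (h : H ⧸ T)) y = 0 := by
  classical
  let s := y.coeff.support
  let F : Finset H := ((s ×ˢ s).filter (fun t => t.1 • x0 = t.2 • x0)).image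
    (fun t => t.1⁻¹ * t.2)
  refine ⟨F, ?_, ?_⟩
  · intro g hg
    obtain ⟨t, ht, rfl⟩ := Finset.mem_image.1 hg
    have h1 := (Finset.mem_filter.1 ht).2
    rw [MulAction.mem_stabilizer_iff, mul_smul, ← h1, inv_smul_smul]
  · intro T hT hF
    let p : H ⧸ T → X := fun c => Quotient.liftOn' c (fun h => h • x0) (by
      intro a b hab
      have h1 : a⁻¹ * b ∈ MulAction.stabilizer H x0 := hT (QuotientGroup.leftRel_apply.1 hab)
      rw [MulAction.mem_stabilizer_iff, mul_smul] at h1
      have h2 := congrArg (fun z => a • z) h1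
      simpa using h2.symm)
    have hp : ∀ h : H, p (h : H ⧸ T) = h • x0 := fun h => rfl
    have e1 : StabFG_q (fun h : H => h • x0) y =
        Finsupp.mapDomain p (StabFG_q (fun h : H => (h : H ⧸ T)) y) := by
      rw [StabFG_q_eq, StabFG_q_eq, ← Finsupp.mapDomain_comp]
      rfl
    let S : Set (H ⧸ T) := (fun h : H => (h : H ⧸ T)) '' (s : Set H)
    have hS : Set.InjOn p S := by
      rintro _ ⟨a, ha, rfl⟩ _ ⟨b, hb, rfl⟩ hab
      have hab' : a • x0 = b • x0 := hab
      apply QuotientGroup.eq.2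
      apply hF
      exact Finset.mem_image.2 ⟨(a, b), Finset.mem_filter.2
        ⟨Finset.mem_product.2 ⟨ha, hb⟩, hab'⟩, rfl⟩
    refine Finsupp.mapDomain_injOn S hS ?_ ?_ ?_
    · show ((StabFG_q (fun h : H => (h : H ⧸ T)) y).support : Set (H ⧸ T)) ⊆ S
      rw [StabFG_q_eq]
      intro c hc
      have := Finsupp.mapDomain_support (Finset.mem_coe.1 hc)
      obtain ⟨h, hh, rfl⟩ := Finset.mem_image.1 this
      exact ⟨h, hh, rfl⟩
    · show ((0 : (H ⧸ T) →₀ ℤ).support : Set (H ⧸ T)) ⊆ S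
      simp
    · rw [← e1, hy, Finsupp.mapDomain_zero]

theorem stab_fg {H : Type*} [Group H] (hH : Group.FG H) {P1 P2 : Type*} [AddCommGroup P1]
    [Module (Zg H) P1] [AddCommGroup P2] [Module (Zg H) P2]
    [Module.Finite (Zg H) P1] [Module.Projective (Zg H) P1]
    [Module.Finite (Zg H) P2] [Module.Projective (Zg H) P2] (d2 : P2 →ₗ[Zg H] P1)
    {X : Type*} [MulAction H X] (θ : (P2 →ₗ[Zg H] Zg H) →+ (X →₀ ℤ))
    (hθ : ∀ (h : H) f x, θ (dl h f) (h • x) = θ f x)
    (hθk : ∀ f, θ f = 0 ↔ ∃ f' : P1 →ₗ[Zg H] Zg H, f = f' ∘ₗ d2)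
    (hθr : ∀ F : X →₀ ℤ, F.sum (fun _ n => n) = 0 ↔ ∃ f, θ f = F) (x0 : X) :
    (MulAction.stabilizer H x0).FG := by
  classical
  set K := MulAction.stabilizer H x0 with hK
  -- equivariance of θ
  have hθb : ∀ (h : H) f, θ (dl h f) = StabFG_b H X h (θ f) := by
    intro h f
    ext x
    have h1 := hθ h f (h⁻¹ • x)
    have h2 := StabFG_b_smul h (θ f) (h⁻¹ • x)
    rw [smul_inv_smul] at h1 h2
    rw [h1, h2]
  -- restriction to the orbit
  let pr : (X →₀ ℤ) →+ (X →₀ ℤ) := Finsupp.filterAddHom (fun x => x ∈ MulAction.orbit H x0)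
  have hprs : ∀ (x : X) (n : ℤ), x ∈ MulAction.orbit H x0 →
      pr (Finsupp.single x n) = Finsupp.single x n := fun x n hx =>
    Finsupp.filter_single_of_pos _ hx
  have hprn : ∀ (x : X) (n : ℤ), x ∉ MulAction.orbit H x0 →
      pr (Finsupp.single x n) = 0 := fun x n hx =>
    Finsupp.filter_single_of_neg _ hx
  have hprb : ∀ (h : H) (F : X →₀ ℤ), pr (StabFG_b H X h F) = StabFG_b H X h (pr F) := by
    intro h F
    induction F using Finsupp.induction_linear with
    | zero => rw [map_zero, map_zero, map_zero]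
    | add f g hf hg => rw [map_add, map_add, hf, hg, map_add, map_add]
    | single x n =>
      rw [StabFG_b_apply, Finsupp.mapDomain_single]
      by_cases hx : x ∈ MulAction.orbit H x0
      · rw [hprs _ _ hx, hprs _ _ (MulAction.mem_orbit_of_mem_orbit h hx), StabFG_b_apply,
          Finsupp.mapDomain_single]
      · have hx' : h • x ∉ MulAction.orbit H x0 := fun h1 => hx (by
          have := MulAction.mem_orbit_of_mem_orbit h⁻¹ h1
          rwa [inv_smul_smul] at this)
        rw [hprn _ _ hx, hprn _ _ hx', map_zero]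
  let π : Zg H →+ (X →₀ ℤ) := StabFG_q (fun h : H => h • x0)
  have hπ : ∀ (h : H) (y : Zg H), π (acHom (Zg H) h y) = StabFG_b H X h (π y) := by
    intro h y
    rw [acHom_apply, smul_eq_mul]
    exact StabFG_q_mul _ (fun h g => mul_smul h g x0) h y
  have hpr_range : ∀ F : X →₀ ℤ, ∃ y, π y = pr F := by
    intro F
    induction F using Finsupp.induction_linear with
    | zero => exact ⟨0, by rw [map_zero, map_zero]⟩
    | add f g hf hg =>
      obtain ⟨y, hy⟩ := hf
      obtain ⟨z, hz⟩ := hg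
      exact ⟨y + z, by rw [map_add, map_add, hy, hz]⟩
    | single x n =>
      by_cases hx : x ∈ MulAction.orbit H x0
      · obtain ⟨h, rfl⟩ := hx
        refine ⟨n • el h, ?_⟩
        rw [map_zsmul, hprs _ _ (MulAction.mem_orbit x0 h)]
        show n • StabFG_q (fun h : H => h • x0) (el h) = _
        rw [StabFG_q_el, Finsupp.smul_single, smul_eq_mul, mul_one]
      · exact ⟨0, by rw [map_zero, hprn _ _ hx]⟩
  obtain ⟨θ', hθ'1, hθ'2⟩ := lift_V (acHom (Zg H)) (StabFG_b H X) π hπ (pr.comp θ)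
    (fun h r => by
      rw [AddMonoidHom.comp_apply, AddMonoidHom.comp_apply, hθb, hprb])
    (fun r => hpr_range _)
  have hθ'm : ∀ (h : H) r, θ' (dl h r) = el h * θ' r := fun h r => hθ'1 h r
  -- dual basis of P1
  obtain ⟨n, e, φ, hφ⟩ := dualBasis (G := H) P1
  have hrep : ∀ r : P1 →ₗ[Zg H] Zg H, r = ∑ i, rm (φ i) (r (e i)) := by
    intro r
    apply LinearMap.ext
    intro q
    rw [LinearMap.sum_apply]
    conv_lhs => rw [hφ q]
    rw [map_sum]
    exact Finset.sum_congr rfl fun i _ => by rw [map_smul, smul_eq_mul, rm_apply]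
  have hk0 : ∀ f' : P1 →ₗ[Zg H] Zg H, π (θ' (f' ∘ₗ d2)) = 0 := by
    intro f'
    rw [hθ'2, AddMonoidHom.comp_apply, (hθk _).2 ⟨f', rfl⟩, map_zero]
  have hA1 : ∀ i, ∃ F : Finset H, (∀ g ∈ F, g ∈ K) ∧
      ∀ T : Subgroup H, T ≤ K → (∀ g ∈ F, g ∈ T) →
        StabFG_q (fun h : H => (h : H ⧸ T)) (θ' (φ i ∘ₗ d2)) = 0 :=
    fun i => StabFG_claim x0 _ (hk0 (φ i))
  choose F1 hF1K hF1 using hA1
  -- the functionals f_c
  have hfc : ∀ c : X, ∃ f, θ f = Finsupp.single c 1 - Finsupp.single x0 1 := by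
    intro c
    apply (hθr _).1
    rw [Finsupp.sum_sub_index (fun _ _ _ => rfl)]
    simp
  choose fc hfc using hfc
  let bb : H → Zg H := fun h => θ' (fc (h • x0)) + 1 - el h
  have hbb : ∀ h, π (bb h) = 0 := by
    intro h
    have e1 : π (1 : Zg H) = Finsupp.single x0 1 := by
      rw [← el_one]
      show StabFG_q (fun h : H => h • x0) (el 1) = _
      rw [StabFG_q_el, one_smul]
    have e2 : π (el h) = Finsupp.single (h • x0) 1 := StabFG_q_el _ _
    show π (θ' (fc (h • x0)) + 1 - el h) = 0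
    rw [map_sub, map_add, hθ'2, AddMonoidHom.comp_apply, hfc, map_sub, e1, e2,
      hprs _ _ (MulAction.mem_orbit x0 h), hprs _ _ (MulAction.mem_orbit_self x0)]
    abel
  have hA2 : ∀ h, ∃ F : Finset H, (∀ g ∈ F, g ∈ K) ∧
      ∀ T : Subgroup H, T ≤ K → (∀ g ∈ F, g ∈ T) →
        StabFG_q (fun h : H => (h : H ⧸ T)) (bb h) = 0 :=
    fun h => StabFG_claim x0 _ (hbb h)
  choose F2 hF2K hF2 using hA2
  obtain ⟨S, hS⟩ := hH.out
  -- the subgroup generated by all the exceptional elements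
  let FF : Finset H := (Finset.univ.biUnion F1) ∪ S.biUnion F2
  let T : Subgroup H := Subgroup.closure (FF : Set H)
  have hTK : T ≤ K := by
    refine (Subgroup.closure_le K).2 fun g hg => ?_
    rcases Finset.mem_union.1 (Finset.mem_coe.1 hg) with h1 | h1
    · obtain ⟨i, _, hi⟩ := Finset.mem_biUnion.1 h1
      exact hF1K i g hi
    · obtain ⟨h, _, hh⟩ := Finset.mem_biUnion.1 h1
      exact hF2K h g hh
  have hT1 : ∀ i, ∀ g ∈ F1 i, g ∈ T := fun i g hg => Subgroup.subset_closure
    (Finset.mem_coe.2 (Finset.mem_union_left _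
      (Finset.mem_biUnion.2 ⟨i, Finset.mem_univ i, hg⟩)))
  have hT2 : ∀ h ∈ S, ∀ g ∈ F2 h, g ∈ T := fun h hh g hg => Subgroup.subset_closure
    (Finset.mem_coe.2 (Finset.mem_union_right _ (Finset.mem_biUnion.2 ⟨h, hh, hg⟩)))
  let q : Zg H →+ ((H ⧸ T) →₀ ℤ) := StabFG_q (fun h : H => (h : H ⧸ T))
  have hqm : ∀ (h : H) (y : Zg H), q (el h * y) = StabFG_b H (H ⧸ T) h (q y) :=
    fun h y => StabFG_q_mul _ (fun h g => rfl) h y
  have hq0 : ∀ (h : H) (y : Zg H), q y = 0 → q (el h * y) = 0 := fun h y hy => by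
    rw [hqm, hy, map_zero]
  have hq1 : ∀ i (y : Zg H), q (θ' (rm (φ i) y ∘ₗ d2)) = 0 := by
    intro i y
    induction y using Zg.ind with
    | h0 =>
      have h1 : rm (φ i) (0 : Zg H) ∘ₗ d2 = 0 := by
        apply LinearMap.ext
        intro q
        simp
      rw [h1, map_zero, map_zero]
    | hel k =>
      have h1 : rm (φ i) (el k) ∘ₗ d2 = dl k⁻¹ (φ i ∘ₗ d2) := by
        apply LinearMap.ext
        intro q
        simp
      rw [h1, hθ'm]
      exact hq0 _ _ (hF1 i T hTK (hT1 i))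
    | hadd x y hx hy =>
      have h1 : rm (φ i) (x + y) ∘ₗ d2 = rm (φ i) x ∘ₗ d2 + rm (φ i) y ∘ₗ d2 := by
        apply LinearMap.ext
        intro q
        simp [mul_add]
      rw [h1, map_add, map_add, hx, hy, add_zero]
    | hneg x hx =>
      have h1 : rm (φ i) (-x) ∘ₗ d2 = -(rm (φ i) x ∘ₗ d2) := by
        apply LinearMap.ext
        intro q
        simp
      rw [h1, map_neg, map_neg, hx, neg_zero]
  have hq2 : ∀ f' : P1 →ₗ[Zg H] Zg H, q (θ' (f' ∘ₗ d2)) = 0 := by
    intro f'
    have h1 : f' ∘ₗ d2 = ∑ i, rm (φ i) (f' (e i)) ∘ₗ d2 := by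
      conv_lhs => rw [hrep f']
      apply LinearMap.ext
      intro q
      simp [LinearMap.sum_apply]
    rw [h1, map_sum, map_sum]
    exact Finset.sum_eq_zero fun i _ => hq1 i _
  have hq3 : ∀ f, θ f = 0 → q (θ' f) = 0 := by
    intro f hf
    obtain ⟨f', rfl⟩ := (hθk f).1 hf
    exact hq2 f'
  have hbs : ∀ (h : H) (x : X), StabFG_b H X h (Finsupp.single x (1 : ℤ)) =
      Finsupp.single (h • x) 1 := fun h x => by
    rw [StabFG_b_apply, Finsupp.mapDomain_single]
  have hΦ : ∀ (h : H) (c : X), q (θ' (fc (h • c))) =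
      q (el h * θ' (fc c)) + q (θ' (fc (h • x0))) := by
    intro h c
    have h1 : θ (fc (h • c) - dl h (fc c) - fc (h • x0)) = 0 := by
      rw [map_sub, map_sub, hθb, hfc, hfc, hfc, map_sub, hbs, hbs]
      abel
    have h2 := hq3 _ h1
    simp only [map_sub, hθ'm] at h2
    have h3 : q (θ' (fc (h • c))) - q (el h * θ' (fc c)) - q (θ' (fc (h • x0))) = 0 := h2
    rw [sub_sub, sub_eq_zero] at h3
    exact h3
  have hx0 : q (θ' (fc x0)) = 0 := hq3 _ (by rw [hfc, sub_self])
  have hb1 : q (bb 1) = 0 := by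
    show q (θ' (fc ((1 : H) • x0)) + 1 - el 1) = 0
    rw [one_smul, el_one, add_sub_cancel_right, hx0]
  have hbm : ∀ h h' : H, q (bb (h * h')) = q (el h * bb h') + q (bb h) := by
    intro h h'
    show q (θ' (fc ((h * h') • x0)) + 1 - el (h * h')) =
      q (el h * (θ' (fc (h' • x0)) + 1 - el h')) + q (θ' (fc (h • x0)) + 1 - el h)
    rw [map_sub, map_add, mul_smul, hΦ, mul_sub, mul_add, map_sub, map_add, mul_one, ← el_mul,
      map_sub, map_add]
    abel
  let A : Subgroup H :=
    { carrier := {h | q (bb h) = 0}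
      mul_mem' := by
        intro a b ha hb
        show q (bb (a * b)) = 0
        rw [hbm, hq0 _ _ hb, zero_add]
        exact ha
      one_mem' := hb1
      inv_mem' := by
        intro a ha
        show q (bb a⁻¹) = 0
        have h1 := hbm a⁻¹ a
        rw [inv_mul_cancel, hb1, hq0 _ _ ha, zero_add] at h1
        exact h1.symm }
  have hA : ∀ h : H, q (bb h) = 0 := by
    intro h
    have h1 : Subgroup.closure (S : Set H) ≤ A :=
      (Subgroup.closure_le A).2 fun s hs => hF2 s T hTK (hT2 s (Finset.mem_coe.1 hs))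
    rw [hS] at h1
    exact h1 (Subgroup.mem_top h)
  have hKT : K ≤ T := by
    intro k hk
    have h1 := hA k
    change q (θ' (fc (k • x0)) + 1 - el k) = 0 at h1
    rw [MulAction.mem_stabilizer_iff.1 hk, map_sub, map_add, hx0, zero_add, ← el_one] at h1
    have h2 : Finsupp.single ((1 : H) : H ⧸ T) (1 : ℤ) - Finsupp.single ((k : H) : H ⧸ T) 1 = 0 := by
      rw [← h1]
      show _ = StabFG_q (fun h : H => (h : H ⧸ T)) (el 1) - StabFG_q (fun h : H => (h : H ⧸ T)) (el k)
      rw [StabFG_q_el, StabFG_q_el]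
    have h3 := Finsupp.single_left_injective (one_ne_zero) (sub_eq_zero.1 h2)
    have h4 := QuotientGroup.eq.1 h3
    simpa using h4
  have hKe : K = T := le_antisymm hKT hTK
  rw [hKe]
  exact ⟨FF, rfl⟩

end PDT
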