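import Pool.Agent.Lib.PDT.Base5
import Pool.Agent.Lib.PDT.Base6

/-!
# PDT/Theta: the dualizing module embeds in the permutation module on the ends

`P2 = ker d ⊆ P1 = (Zg H)^a1`.  `Bc M L ν` is a functional on `P2*` with values in `M`, natural in `M`, for `ν : G → M` with `IsT H L ν`,
with the properties (hypotheses) `hadd, hξ, hdl, hP1, hker, hnat, hex`; `C` is the set of ends of `(G, H)`.
`LF H A` is the action on `H → A`, `toF H f : G → (H → A)` the equivariant function of `f : G → A`, `g ↦ (k ↦ f (g k))`;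
`isT_toF, toF_of_isT, toF_ne, LF_inner` in `PDT/Base6`.

Complete proof.  `F = (C →₀ ℤ)`.  For `f' : C → A` let `f'~ : G → A` be `f' c` on `c ∈ C` (unique by `disj`) and `0` outside of all `c ∈ C`.
`f'~` is almost invariant: `{g | f'~ (x⁻¹ g) ≠ f'~ g}` is contained in `{g | ∃ c ∈ C, ¬(x⁻¹ g ∈ c ↔ g ∈ c)}` (`ai`).
Let `ι~ : G → F` be the function of `c ↦ single c 1` and `N = toF H ι~`, `IsT`.  DEFINE `θ ξ = Bc (H → F) (LF H F) N ξ 1 ∈ F`, additive.
(1) Equivariance.  For `h : H` let `τ_h : F →+ F`, `single c 1 ↦ single (h·c) 1`, `h·c = {g | g h ∈ c}`, and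
`a_h : (H → F) →+ (H → F)`, `(a_h m)(k) = τ_h (m (k h))`, which commutes with `LF`.  `a_h ∘ N = N`: `τ_h (ι~ (g k h)) = ι~ (g k)`, since
`g k h ∈ c ↔ g k ∈ h·c`.  By `hnat`: `Bc N ξ k = τ_h (Bc N ξ (k h))`.  With `k = h⁻¹` and `hdl`: `θ (dl h ξ) = (LF h (Bc N ξ)) 1 = Bc N ξ h⁻¹ = τ_h (θ ξ)`.  This gives
the first assertion (the coefficient of `τ_h F0` at `h·c` is that of `F0` at `c`).  Also: `Bc N ξ k = θ (dl k⁻¹ ξ)`.
(2) `θ (ξ' ∘ subtype) = 0` by `hP1`.
(3) `(θ ξ).sum (fun _ n => n) = 0`: let `σ : F →+ ℤ' ` be the sum of the coefficients (`ℤ' = ULift.{u} ℤ`), `a = (σ ∘ ·) : (H → F) → (H → ℤ')`.  `a ∘ N` is the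
constant `1` outside of finitely many cosets (`co`, `toF_ne`), so `Bc (a ∘ N) = 0` by `hker` (`m0 =` the constant function `1`), and `hnat` gives `σ (θ ξ) = 0`.
(4) Let `θ ξ = 0`.  Let `A = P2* ⧸ {ξ' ∘ subtype}` (an additive quotient group), `[·]` the class, and `φ : P2* →+ (H → A)`, `φ ξ k = [dl k⁻¹ ξ]`;
`φ (dl h ξ) = LF h (φ ξ)`, and `φ (ξ' ∘ subtype) = 0` (`dl_comp`).  By `hex` (`H^1 = 0` is `LF_inner`) there is `ν` with `IsT`, `Bc ν = φ`.  `ν = toF H f`,
`f g = ν g 1`, and `f` is almost invariant.  By `st` there is `f' : Set G → A` with `f = f'~` except on finitely many cosets (use also `co`).  Let `a0 : F →+ A`,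
`single c 1 ↦ f' c`, `a = (a0 ∘ ·)`; `a ∘ N = toF H f'~`.  `ν - a ∘ N = toF H (f - f'~)` is `0` except on finitely many cosets, so `Bc` of it is `0` by `hker` (`m0 = 0`), and
by `hadd` `Bc ν = Bc (a ∘ N)` [`ν = (ν - a ∘ N) + a ∘ N`; `IsT` for the difference: it is `toF` of an almost invariant function].  So
`[ξ] = φ ξ 1 = Bc ν ξ 1 = a0 (θ ξ) = 0`, i.e. `ξ = ξ' ∘ subtype`.
(5) Let `F0 ∈ F` with sum of coefficients `0`.  Let `A = F ⧸ range θ`, `q : F →+ A` the quotient map, `a = (q ∘ ·)`.  `Bc (a ∘ N) ξ k = q (Bc N ξ k) =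
q (θ (dl k⁻¹ ξ)) = 0`, so by `hker` there is `m0 : H → A`, invariant under `LF`, with `a ∘ N = m0` except on finitely many cosets.  `m0` is constant, `= a0`.  Every `c ∈ C`
contains an element outside of the exceptional cosets (`deep`), so `q (single c 1) = a0`.  So `q F0 = Σ F0(c) a0 = 0`, `F0 ∈ range θ`.
-/

namespace PDT

open Function

universe u

section aux

variable {G : Type u} [Group G] {H : Subgroup G}

/-- The extension of a function on the ends to the group. -/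
private noncomputable def theta_ex {A : Type*} [AddCommGroup A] (C : Set (Set G)) (f' : C → A)
    (g : G) : A :=
  open Classical in if h : ∃ c : C, g ∈ (c : Set G) then f' h.choose else 0

private theorem theta_ex_of {A : Type*} [AddCommGroup A] {C : Set (Set G)} (hC : HEnds H C)
    (f' : C → A) (c : C) (g : G) (hg : g ∈ (c : Set G)) : theta_ex C f' g = f' c := by
  have h : ∃ c : C, g ∈ (c : Set G) := ⟨c, hg⟩
  have h1 : h.choose = c :=
    Subtype.ext (hC.disj _ h.choose.2 _ c.2 g h.choose_spec hg)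
  unfold theta_ex
  rw [dif_pos h, h1]

omit [Group G] in
private theorem theta_ex_not {A : Type*} [AddCommGroup A] {C : Set (Set G)}
    (f' : C → A) (g : G) (hg : ∀ c ∈ C, g ∉ c) : theta_ex C f' g = 0 := by
  have h : ¬ ∃ c : C, g ∈ (c : Set G) := by
    rintro ⟨c, hc⟩
    exact hg c c.2 hc
  unfold theta_ex
  rw [dif_neg h]

omit [Group G] in
private theorem theta_ex_map {A B : Type*} [AddCommGroup A] [AddCommGroup B] (C : Set (Set G))
    (τ : A →+ B) (f' : C → A) (g : G) :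
    theta_ex C (fun c => τ (f' c)) g = τ (theta_ex C f' g) := by
  unfold theta_ex
  split_ifs with h
  · rfl
  · exact (map_zero τ).symm

private theorem theta_ai {A : Type*} [AddCommGroup A] {C : Set (Set G)} (hC : HEnds H C)
    (f' : C → A) (x : G) : HF H {g | theta_ex C f' (x⁻¹ * g) ≠ theta_ex C f' g} := by
  refine (hC.ai x⁻¹).mono ?_
  intro g hg
  by_contra h
  apply hg
  have h1 : ∀ c ∈ C, (x⁻¹ * g ∈ c ↔ g ∈ c) := by
    intro c hc
    by_contra h2
    exact h ⟨c, hc, h2⟩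
  by_cases h3 : ∃ c : C, g ∈ (c : Set G)
  · obtain ⟨c, hc⟩ := h3
    rw [theta_ex_of hC f' c g hc, theta_ex_of hC f' c _ ((h1 c c.2).2 hc)]
  · have h4 : ∀ c ∈ C, g ∉ c := fun c hc hg => h3 ⟨⟨c, hc⟩, hg⟩
    rw [theta_ex_not f' g h4, theta_ex_not f' _ fun c hc hg => h4 c hc ((h1 c hc).1 hg)]

/-- The postcomposition with an additive map. -/
private def theta_pc (K : Type*) {A B : Type*} [AddCommGroup A] [AddCommGroup B] (τ : A →+ B) :
    (K → A) →+ (K → B) where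
  toFun m k := τ (m k)
  map_zero' := by
    funext k
    simp
  map_add' m m' := by
    funext k
    simp

private theorem theta_isT_map {M M' : Type*} [AddCommGroup M] [AddCommGroup M']
    (L : H →* Module.End ℤ M) (L' : H →* Module.End ℤ M') (a : M →+ M')
    (ha : ∀ h m, a (L h m) = L' h (a m)) (ν : G → M) (hν : IsT H L ν) :
    IsT H L' (fun g => a (ν g)) := by
  refine ⟨fun g h => ?_, fun x => ?_⟩
  · show a (ν (g * h)) = _
    rw [hν.1, ha]
  · refine (hν.2 x).mono ?_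
    intro g hg h2
    exact hg (congrArg a h2)

private theorem theta_isT_sub {M : Type*} [AddCommGroup M]
    (L : H →* Module.End ℤ M) (ν μ : G → M) (hν : IsT H L ν) (hμ : IsT H L μ) :
    IsT H L (ν - μ) := by
  refine ⟨fun g h => ?_, fun x => ?_⟩
  · rw [Pi.sub_apply, Pi.sub_apply, hν.1, hμ.1, map_sub]
  · refine ((hν.2 x).union (hμ.2 x)).mono ?_
    intro g hg
    by_contra h2
    apply hg
    have h3 : ν (x⁻¹ * g) = ν g := by
      by_contra h
      exact h2 (Or.inl h)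
    have h4 : μ (x⁻¹ * g) = μ g := by
      by_contra h
      exact h2 (Or.inr h)
    rw [Pi.sub_apply, Pi.sub_apply, h3, h4]

/-- The translates of the ends. -/
private def theta_tr {C : Set (Set G)} (hC : HEnds H C) (h : H) (c : C) : C :=
  ⟨{g | g * (h : G) ∈ (c : Set G)}, hC.tr c c.2 h⟩

private theorem theta_tr_inj {C : Set (Set G)} (hC : HEnds H C) (h : H) :
    Injective (theta_tr hC h) := by
  intro c c' hcc
  apply Subtype.ext
  ext g
  have h1 : ({g | g * (h : G) ∈ (c : Set G)} : Set G) = {g | g * (h : G) ∈ (c' : Set G)} :=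
    congrArg Subtype.val hcc
  have h2 : (g * (h : G)⁻¹ ∈ ({g | g * (h : G) ∈ (c : Set G)} : Set G)) ↔
      (g * (h : G)⁻¹ ∈ ({g | g * (h : G) ∈ (c' : Set G)} : Set G)) := by
    rw [h1]
  simpa using h2

private theorem theta_ex_tr {C : Set (Set G)} (hC : HEnds H C) (h : H) (g : G) :
    Finsupp.mapDomain.addMonoidHom (theta_tr hC h)
      (theta_ex C (fun c : C => (Finsupp.single c 1 : C →₀ ℤ)) (g * (h : G))) =
      theta_ex C (fun c : C => (Finsupp.single c 1 : C →₀ ℤ)) g := by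
  by_cases h3 : ∃ c : C, g * (h : G) ∈ (c : Set G)
  · obtain ⟨c, hc⟩ := h3
    rw [theta_ex_of hC _ c _ hc, theta_ex_of hC _ (theta_tr hC h c) g hc]
    exact Finsupp.mapDomain_single
  · have h4 : ∀ c ∈ C, g * (h : G) ∉ c := fun c hc hg => h3 ⟨⟨c, hc⟩, hg⟩
    rw [theta_ex_not _ _ h4, map_zero, theta_ex_not]
    intro c hc hg
    refine h4 _ (hC.tr c hc h⁻¹) ?_
    show g * (h : G) * ((h⁻¹ : H) : G) ∈ c
    simpa using hg

/-- The sum of the coefficients. -/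
private noncomputable def theta_sum (C : Type u) : (C →₀ ℤ) →+ ℤ :=
  Finsupp.liftAddHom fun _ => AddMonoidHom.id ℤ

private theorem theta_sum_apply (C : Type u) (F : C →₀ ℤ) :
    theta_sum C F = F.sum (fun _ n => n) := rfl

private theorem theta_sum_single (C : Type u) (c : C) (n : ℤ) :
    theta_sum C (Finsupp.single c n) = n := by
  rw [theta_sum_apply]
  simp

/-- The additive map of a function on the basis. -/
private noncomputable def theta_lift {C : Type u} {A : Type*} [AddCommGroup A] (f : C → A) :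
    (C →₀ ℤ) →+ A :=
  Finsupp.liftAddHom fun c => zmultiplesHom A (f c)

private theorem theta_lift_single {C : Type u} {A : Type*} [AddCommGroup A] (f : C → A) (c : C) :
    theta_lift f (Finsupp.single c 1) = f c := by
  unfold theta_lift
  rw [Finsupp.liftAddHom_apply_single]
  simp

private theorem theta_pc_lift {A : Type*} [AddCommGroup A] (C : Set (Set G)) (f' : C → A) :
    (fun g => theta_pc H (theta_lift f')
      (toF H (theta_ex C (fun c : C => (Finsupp.single c 1 : C →₀ ℤ))) g)) =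
      toF H (theta_ex C f') := by
  funext g k
  show theta_lift f' (theta_ex C (fun c : C => (Finsupp.single c 1 : C →₀ ℤ)) (g * (k : G))) =
    theta_ex C f' (g * (k : G))
  rw [← theta_ex_map C (theta_lift f')]
  congr 1
  funext c
  exact theta_lift_single _ c

private theorem theta_st {A : Type*} [AddCommGroup A] {C : Set (Set G)} (hC : HEnds H C)
    (f : G → A) (f' : Set G → A) (hf' : HF H {g | ∃ c ∈ C, g ∈ c ∧ f g ≠ f' c}) :
    HF H {g | f g ≠ theta_ex C (fun c : C => f' c) g} := by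
  refine (hf'.union hC.co).mono ?_
  intro g hg
  by_cases h5 : ∃ c : C, g ∈ (c : Set G)
  · obtain ⟨c, hc⟩ := h5
    refine Or.inl ⟨c, c.2, hc, ?_⟩
    have h6 : f g ≠ theta_ex C (fun c : C => f' c) g := hg
    rw [theta_ex_of hC _ c g hc] at h6
    exact h6
  · exact Or.inr fun c hc hg => h5 ⟨⟨c, hc⟩, hg⟩

end aux

theorem theta {G : Type u} [Group G] (H : Subgroup G) {a0 a1 : ℕ}
    (d : (Fin a1 → Zg H) →ₗ[Zg H] (Fin a0 → Zg H))
    (Bc : ∀ (M : Type u) [AddCommGroup M], (H →* Module.End ℤ M) → (G → M) →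
      (LinearMap.ker d →ₗ[Zg H] Zg H) → M)
    (hadd : ∀ (M : Type u) [AddCommGroup M] (L : H →* Module.End ℤ M) (ν ν' : G → M),
      IsT H L ν → IsT H L ν' → ∀ ξ, Bc M L (ν + ν') ξ = Bc M L ν ξ + Bc M L ν' ξ)
    (hξ : ∀ (M : Type u) [AddCommGroup M] (L : H →* Module.End ℤ M) (ν : G → M),
      IsT H L ν → ∀ ξ ξ', Bc M L ν (ξ + ξ') = Bc M L ν ξ + Bc M L ν ξ')
    (hdl : ∀ (M : Type u) [AddCommGroup M] (L : H →* Module.End ℤ M) (ν : G → M),
      IsT H L ν → ∀ (h : H) ξ, Bc M L ν (dl h ξ) = L h (Bc M L ν ξ))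
    (hP1 : ∀ (M : Type u) [AddCommGroup M] (L : H →* Module.End ℤ M) (ν : G → M),
      IsT H L ν → ∀ ξ' : (Fin a1 → Zg H) →ₗ[Zg H] Zg H,
        Bc M L ν (ξ' ∘ₗ (LinearMap.ker d).subtype) = 0)
    (hker : ∀ (M : Type u) [AddCommGroup M] (L : H →* Module.End ℤ M) (ν : G → M),
      IsT H L ν → ((∀ ξ, Bc M L ν ξ = 0) ↔ ∃ m0 : M, (∀ h, L h m0 = m0) ∧ HF H {g | ν g ≠ m0}))
    (hnat : ∀ (M M' : Type u) [AddCommGroup M] [AddCommGroup M'] (L : H →* Module.End ℤ M)
      (L' : H →* Module.End ℤ M') (a : M →+ M'), (∀ h m, a (L h m) = L' h (a m)) →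
      ∀ ν : G → M, IsT H L ν → ∀ ξ, Bc M' L' (fun g => a (ν g)) ξ = a (Bc M L ν ξ))
    (hex : ∀ (M : Type u) [AddCommGroup M] (L : H →* Module.End ℤ M),
      (∀ δ : H → M, (∀ x y, δ (x * y) = δ x + L x (δ y)) → ∃ μ, ∀ x, δ x = L x μ - μ) →
      ∀ φ : (LinearMap.ker d →ₗ[Zg H] Zg H) →+ M, (∀ (h : H) ξ, φ (dl h ξ) = L h (φ ξ)) →
        (∀ ξ' : (Fin a1 → Zg H) →ₗ[Zg H] Zg H, φ (ξ' ∘ₗ (LinearMap.ker d).subtype) = 0) →
        ∃ ν : G → M, IsT H L ν ∧ ∀ ξ, Bc M L ν ξ = φ ξ)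
    (C : Set (Set G)) (hC : HEnds H C) :
    ∃ θ : (LinearMap.ker d →ₗ[Zg H] Zg H) →+ (C →₀ ℤ),
      (∀ (h : H) ξ (c : C),
        θ (dl h ξ) ⟨{g | g * (h : G) ∈ (c : Set G)}, hC.tr c c.2 h⟩ = θ ξ c) ∧
      (∀ ξ, θ ξ = 0 ↔ ∃ ξ' : (Fin a1 → Zg H) →ₗ[Zg H] Zg H,
        ξ = ξ' ∘ₗ (LinearMap.ker d).subtype) ∧
      (∀ F : C →₀ ℤ, F.sum (fun _ n => n) = 0 ↔ ∃ ξ, θ ξ = F) := by
  classical
  let F := (C →₀ ℤ)
  let ι : G → (C →₀ ℤ) := theta_ex C (fun c : C => (Finsupp.single c 1 : C →₀ ℤ))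
  let N : G → (H → (C →₀ ℤ)) := toF H ι
  have hN : IsT H (LF H (C →₀ ℤ)) N := isT_toF H ι (theta_ai hC _)
  let B : (LinearMap.ker d →ₗ[Zg H] Zg H) → (H → (C →₀ ℤ)) := fun ξ => Bc _ (LF H (C →₀ ℤ)) N ξ
  let θ : (LinearMap.ker d →ₗ[Zg H] Zg H) →+ (C →₀ ℤ) :=
    AddMonoidHom.mk' (fun ξ => B ξ 1) (fun ξ ξ' => by
      show Bc _ (LF H (C →₀ ℤ)) N (ξ + ξ') 1 = _
      rw [hξ _ _ _ hN]
      rfl)
  have hθ : ∀ ξ, θ ξ = B ξ 1 := fun ξ => rfl
  have hBd : ∀ (h : H) ξ, B (dl h ξ) = LF H (C →₀ ℤ) h (B ξ) := fun h ξ => hdl _ _ _ hN h ξ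
  have hBt : ∀ k ξ, B ξ k = θ (dl k⁻¹ ξ) := by
    intro k ξ
    rw [hθ, hBd, LF_apply, inv_inv, mul_one]
  -- naturality for postcompositions
  have hpc : ∀ (A : Type u) [AddCommGroup A] (τ : (C →₀ ℤ) →+ A),
      IsT H (LF H A) (fun g => theta_pc H τ (N g)) ∧
      ∀ ξ k, Bc _ (LF H A) (fun g => theta_pc H τ (N g)) ξ k = τ (B ξ k) := by
    intro A _ τ
    have h1 : ∀ (h : H) (m : H → (C →₀ ℤ)),
        theta_pc H τ (LF H (C →₀ ℤ) h m) = LF H A h (theta_pc H τ m) := fun h m => rfl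
    refine ⟨theta_isT_map _ _ _ h1 N hN, fun ξ k => ?_⟩
    rw [hnat _ _ (LF H (C →₀ ℤ)) (LF H A) (theta_pc H τ) h1 N hN ξ]
    rfl
  -- equivariance
  have heq : ∀ (h : H) ξ, θ (dl h ξ) =
      Finsupp.mapDomain.addMonoidHom (theta_tr hC h) (θ ξ) := by
    intro h ξ
    let a : (H → (C →₀ ℤ)) →+ (H → (C →₀ ℤ)) :=
      AddMonoidHom.mk' (fun m k => Finsupp.mapDomain.addMonoidHom (theta_tr hC h) (m (k * h)))
        (fun m m' => by
          funext k
          rw [Pi.add_apply, Pi.add_apply, map_add])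
    have ha : ∀ (m : H → (C →₀ ℤ)) k,
        a m k = Finsupp.mapDomain.addMonoidHom (theta_tr hC h) (m (k * h)) := fun m k => rfl
    have h1 : ∀ (x : H) (m : H → (C →₀ ℤ)),
        a (LF H (C →₀ ℤ) x m) = LF H (C →₀ ℤ) x (a m) := by
      intro x m
      funext k
      rw [ha, LF_apply, LF_apply, ha, mul_assoc]
    have h2 : (fun g => a (N g)) = N := by
      funext g k
      rw [ha]
      show Finsupp.mapDomain.addMonoidHom (theta_tr hC h) (ι (g * ((k * h : H) : G))) =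
        ι (g * (k : G))
      rw [Subgroup.coe_mul, ← mul_assoc]
      exact theta_ex_tr hC h _
    have h3 := hnat _ _ (LF H (C →₀ ℤ)) (LF H (C →₀ ℤ)) a h1 N hN ξ
    rw [h2] at h3
    have h4 : B ξ = a (B ξ) := h3
    have h5 : B ξ h⁻¹ = a (B ξ) h⁻¹ := congrFun h4 h⁻¹
    rw [ha, inv_mul_cancel] at h5
    rw [hθ, hBd, LF_apply, mul_one, h5, ← hθ]
  have hP : ∀ ξ' : (Fin a1 → Zg H) →ₗ[Zg H] Zg H, θ (ξ' ∘ₗ (LinearMap.ker d).subtype) = 0 := by
    intro ξ'
    rw [hθ]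
    show Bc _ (LF H (C →₀ ℤ)) N _ 1 = 0
    rw [hP1 _ _ _ hN]
    rfl
  have hsum : ∀ ξ, (θ ξ).sum (fun _ n => n) = 0 := by
    intro ξ
    let σ : (C →₀ ℤ) →+ ULift.{u} ℤ :=
      (AddEquiv.ulift (α := ℤ)).symm.toAddMonoidHom.comp (theta_sum C)
    have hσ : ∀ F, σ F = ULift.up (theta_sum C F) := fun F => rfl
    obtain ⟨h1, h2⟩ := hpc _ σ
    have h3 := (hker _ _ _ h1).2 ⟨fun _ => ULift.up 1, fun h => rfl, by
      have h4 : HF H {g | (fun g => σ (ι g)) g ≠ (fun _ : G => (ULift.up 1 : ULift.{u} ℤ)) g} := by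
        refine hC.co.mono ?_
        intro g hg c hc hgc
        apply hg
        show σ (ι g) = _
        rw [show ι g = _ from theta_ex_of hC _ ⟨c, hc⟩ g hgc, hσ, theta_sum_single]
      exact toF_ne H _ _ h4⟩ ξ
    have h5 := congrFun h3 1
    rw [h2, hσ] at h5
    have h6 : theta_sum C (B ξ 1) = 0 := congrArg ULift.down h5
    rw [← theta_sum_apply]
    exact h6
  refine ⟨θ, fun h ξ c => ?_, fun ξ => ⟨fun h0 => ?_, ?_⟩, fun F0 => ⟨fun h0 => ?_, ?_⟩⟩
  · rw [heq]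
    exact Finsupp.mapDomain_apply (theta_tr_inj hC h) _ c
  · -- the kernel
    let R : AddSubgroup (LinearMap.ker d →ₗ[Zg H] Zg H) :=
      (AddMonoidHom.mk' (fun ξ' : (Fin a1 → Zg H) →ₗ[Zg H] Zg H =>
        ξ' ∘ₗ (LinearMap.ker d).subtype) (fun x y => rfl)).range
    have hR : ∀ ξ' : (Fin a1 → Zg H) →ₗ[Zg H] Zg H, ξ' ∘ₗ (LinearMap.ker d).subtype ∈ R :=
      fun ξ' => ⟨ξ', rfl⟩
    let mk : (LinearMap.ker d →ₗ[Zg H] Zg H) →+ ((LinearMap.ker d →ₗ[Zg H] Zg H) ⧸ R) :=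
      QuotientAddGroup.mk' R
    have hmk : ∀ ξ, mk ξ = 0 ↔ ξ ∈ R := fun ξ => QuotientAddGroup.eq_zero_iff ξ
    let φ : (LinearMap.ker d →ₗ[Zg H] Zg H) →+ (H → ((LinearMap.ker d →ₗ[Zg H] Zg H) ⧸ R)) :=
      AddMonoidHom.mk' (fun ξ k => mk (dl k⁻¹ ξ)) (fun x y => by
        funext k
        rw [Pi.add_apply, dl_add, map_add])
    have hφ : ∀ ξ k, φ ξ k = mk (dl k⁻¹ ξ) := fun ξ k => rfl
    obtain ⟨ν, hν, hBν⟩ := hex _ (LF H ((LinearMap.ker d →ₗ[Zg H] Zg H) ⧸ R))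
      (LF_inner H _) φ (by
        intro h ξ
        funext k
        rw [hφ, LF_apply, hφ, ← dl_mul, mul_inv_rev, inv_inv])
      (by
        intro ξ'
        funext k
        rw [hφ, Pi.zero_apply, hmk, ← dl_comp]
        exact hR _)
    have hνf := toF_of_isT H ν hν
    obtain ⟨f', hf'⟩ := hC.st _ (fun g => ν g 1) (fun x => by
      refine (hν.2 x).mono ?_
      intro g hg h2
      exact hg (congrFun h2 1))
    let a0 : (C →₀ ℤ) →+ ((LinearMap.ker d →ₗ[Zg H] Zg H) ⧸ R) :=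
      theta_lift fun c : C => f' c
    obtain ⟨h1, h2⟩ := hpc _ a0
    have h3 : (fun g => theta_pc H a0 (N g)) = toF H (theta_ex C fun c : C => f' c) :=
      theta_pc_lift C fun c : C => f' c
    have h4 : HF H {g | (fun g => ν g 1) g ≠ theta_ex C (fun c : C => f' c) g} :=
      theta_st hC _ f' hf'
    have h5 : HF H {g | ν g ≠ (fun g => theta_pc H a0 (N g)) g} := by
      rw [h3]
      rw [hνf]
      exact toF_ne H _ _ h4
    have h6 := (hker _ _ _ (theta_isT_sub _ _ _ hν h1)).2 ⟨0, fun h => map_zero _, by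
      refine h5.mono ?_
      intro g hg h7
      apply hg
      rw [Pi.sub_apply, sub_eq_zero]
      exact h7⟩ ξ
    have h7 := hadd _ _ _ _ (theta_isT_sub _ _ _ hν h1) h1 ξ
    rw [sub_add_cancel, h6, zero_add, hBν] at h7
    have h8 := congrFun h7 1
    rw [h2, hφ, inv_one, dl_one, ← hθ, h0, map_zero, hmk] at h8
    obtain ⟨ξ', hξ'⟩ := h8
    exact ⟨ξ', hξ'.symm⟩
  · rintro ⟨ξ', rfl⟩
    exact hP ξ'
  · -- the range
    let q : (C →₀ ℤ) →+ ((C →₀ ℤ) ⧸ θ.range) := QuotientAddGroup.mk' θ.range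
    have hq : ∀ F, q F = 0 ↔ F ∈ θ.range := fun F => QuotientAddGroup.eq_zero_iff F
    obtain ⟨h1, h2⟩ := hpc _ q
    obtain ⟨m0, hm0, hm1⟩ := (hker _ _ _ h1).1 (by
      intro ξ
      funext k
      rw [h2, hBt, Pi.zero_apply, hq]
      exact ⟨_, rfl⟩)
    have h3 : ∀ c : C, q (Finsupp.single c 1) = m0 1 := by
      intro c
      have h4 : ∃ g ∈ (c : Set G), theta_pc H q (N g) = m0 := by
        by_contra h5
        apply hC.deep c c.2
        refine hm1.mono ?_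
        intro g hg h6
        exact h5 ⟨g, hg, h6⟩
      obtain ⟨g, hg, h5⟩ := h4
      have h6 := congrFun h5 1
      rw [← h6]
      show _ = q (ι (g * ((1 : H) : G)))
      rw [Subgroup.coe_one, mul_one, show ι g = _ from theta_ex_of hC _ c g hg]
    have h4 : q = ((zmultiplesHom _) (m0 1)).comp (theta_sum C) := by
      apply Finsupp.addHom_ext'
      intro c
      ext
      show q (Finsupp.single c 1) = (theta_sum C (Finsupp.single c 1)) • (m0 1)
      rw [theta_sum_single, h3]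
      exact (one_zsmul _).symm
    have h5 : q F0 = 0 := by
      rw [h4]
      show (theta_sum C F0) • (m0 1) = 0
      rw [theta_sum_apply, h0]
      exact zero_zsmul _
    exact (hq F0).1 h5
  · rintro ⟨ξ, rfl⟩
    exact hsum ξ

end PDT
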