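import Pool.Agent.Lib.PDT.MainC
import Pool.Agent.Lib.PDT.Hom2
import Pool.Agent.Lib.PDT.GeoCls
import Pool.Agent.Lib.PDT.Theta
import Pool.Agent.Lib.PDT.FixAtom
import Pool.Agent.Lib.PDT.StabFG
import Pool.Agent.Lib.PDT.DerStab
import Pool.Agent.Lib.PDT.OneX
import Pool.Agent.Lib.PDT.OneEndD
import Pool.Agent.Lib.PDT.DualK
import Pool.Agent.Lib.PDT.PDtwo

/-!
# PDT/MainD: PD(2)-subgroups of one-ended virtually residually `p` subgroups of PD(3)-groups
-/

namespace PDT

open Function

universe u v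

/-- The ends of `(G, K)` and the embedding of the dualizing module, for `K` of type FP. -/
theorem ends_theta {G : Type u} [Group G] (R : Res G) (K : Subgroup G) (hK : Infinite K)
    (w : G →* ℤˣ) (hw : ∀ (x : G) (f : R.Q3 →ₗ[Zg G] Zg G), R.e (tw w x f) = R.e f)
    (hwK : ∀ k : K, w k = 1) {a0 a1 : ℕ} (εP : (Fin a0 → Zg K) →+ ℤ)
    (hε : ∀ (h : K) (p : Fin a0 → Zg K), εP (el h • p) = εP p) (hs : Surjective εP)
    (d : (Fin a1 → Zg K) →ₗ[Zg K] (Fin a0 → Zg K))
    (hex : ∀ p : Fin a0 → Zg K, εP p = 0 ↔ ∃ q, d q = p)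
    (hproj : Module.Projective (Zg K) (LinearMap.ker d))
    (hfin : Module.Finite (Zg K) (LinearMap.ker d)) :
    ∃ (C : Set (Set G)) (hC : HEnds K C) (θ : (LinearMap.ker d →ₗ[Zg K] Zg K) →+ (C →₀ ℤ)),
      (∀ (h : K) ξ (c : C),
        θ (dl h ξ) ⟨{g | g * (h : G) ∈ (c : Set G)}, hC.tr c c.2 h⟩ = θ ξ c) ∧
      (∀ ξ, θ ξ = 0 ↔ ∃ ξ' : (Fin a1 → Zg K) →ₗ[Zg K] Zg K,
        ξ = ξ' ∘ₗ (LinearMap.ker d).subtype) ∧
      (∀ F : C →₀ ℤ, F.sum (fun _ n => n) = 0 ↔ ∃ ξ, θ ξ = F) := by
  classical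
  obtain ⟨S, hS, hsymm⟩ := exists_symm_gen (fg_of_res R)
  obtain ⟨E, Bc, hE, hadd, hξ, hdl, hP1, hker, hnat, hex2⟩ :=
    hom2 R K w hw hwK εP hε hs d hex hproj hfin S
  obtain ⟨C, hC⟩ := geo_cls K S hS hsymm (one_end R) E hE (by
    intro A _ f hf
    have hT := isT_toF K f hf
    let φ : (LinearMap.ker d →ₗ[Zg K] Zg K) →+ (K → A) :=
      { toFun := Bc (K → A) (LF K A) (toF K f)
        map_zero' := by
          have := hξ _ _ _ hT 0 0
          rw [add_zero] at this
          exact left_eq_add.1 this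
        map_add' := hξ _ _ _ hT }
    obtain ⟨ν', hT', hE', hν'⟩ := hex2 (K → A) (LF K A) (LF_inner K A) φ
      (hdl _ _ _ hT) (hP1 _ _ _ hT)
    -- the difference
    have hTn : IsT K (LF K A) (-ν') := by
      refine ⟨fun g h => ?_, fun x => ?_⟩
      · rw [Pi.neg_apply, Pi.neg_apply, hT'.1, map_neg]
      · refine (hT'.2 x).mono ?_
        intro g hg h2
        apply hg
        rw [Pi.neg_apply, Pi.neg_apply, h2]
    have hTd : IsT K (LF K A) (toF K f + -ν') := by
      refine ⟨fun g h => ?_, fun x => ?_⟩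
      · rw [Pi.add_apply, Pi.add_apply, hT.1, hTn.1, map_add]
      · refine ((hT.2 x).union (hTn.2 x)).mono ?_
        intro g hg
        by_contra hc
        rw [Set.mem_union, not_or] at hc
        apply hg
        have h1 : toF K f (x⁻¹ * g) = toF K f g := not_not.1 hc.1
        have h2 : (-ν') (x⁻¹ * g) = (-ν') g := not_not.1 hc.2
        rw [Pi.add_apply, Pi.add_apply, h1, h2]
    have hB0 : ∀ ξ, Bc (K → A) (LF K A) (toF K f + -ν') ξ = 0 := by
      intro ξ
      have h1 := hadd (K → A) (LF K A) (toF K f + -ν') ν' hTd hT' ξ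
      rw [neg_add_cancel_right] at h1
      have h2 : Bc (K → A) (LF K A) (toF K f) ξ = Bc (K → A) (LF K A) ν' ξ := (hν' ξ).symm
      rw [h2] at h1
      exact right_eq_add.1 h1
    obtain ⟨m0, hm0, hfin0⟩ := (hker _ _ _ hTd).1 hB0
    refine ⟨fun g => ν' g 1 + m0 1, ?_, ?_⟩
    · intro s hs g hg
      apply hE' s hs g
      intro h2
      apply hg
      beta_reduce
      rw [h2]
    · refine hfin0.mono ?_
      intro g hg h2
      apply hg
      have h3 := congrFun h2 1
      rw [Pi.add_apply, Pi.neg_apply, Pi.add_apply, Pi.neg_apply, toF_apply] at h3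
      change f g = ν' g 1 + m0 1
      have h4 : f (g * ((1 : K) : G)) = f g := by simp
      rw [h4] at h3
      rw [← h3]
      abel)
  obtain ⟨θ, h1, h2, h3⟩ := theta K d Bc hadd hξ hdl hP1 hker hnat (by
    intro M _ L hH1 φ hφ hφ0
    obtain ⟨ν, hT, -, hν⟩ := hex2 M L hH1 φ hφ hφ0
    exact ⟨ν, hT, hν⟩) C hC
  exact ⟨C, hC, θ, h1, h2, h3⟩

/-- The action on the ends. -/
@[reducible] def endsAct {G : Type u} [Group G] {K : Subgroup G} {C : Set (Set G)}
    (hC : HEnds K C) : MulAction K C where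
  smul h c := ⟨{g | g * (h : G) ∈ (c : Set G)}, hC.tr c c.2 h⟩
  one_smul c := by
    apply Subtype.ext
    change {g | g * ((1 : K) : G) ∈ (c : Set G)} = c
    simp
  mul_smul x y c := by
    apply Subtype.ext
    change {g | g * ((x * y : K) : G) ∈ (c : Set G)} = {g | g * (x : G) ∈ {g | g * (y : G) ∈ (c : Set G)}}
    ext g
    simp [mul_assoc]

theorem hf_univ {G : Type u} [Group G] (K : Subgroup G) (hQ : Infinite (G ⧸ K)) :
    ¬ HF K (Set.univ : Set G) := by
  intro h
  have h1 : ((fun g : G => (g : G ⧸ K)) '' Set.univ) = Set.univ := by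
    rw [Set.image_univ, Set.range_eq_univ]
    exact QuotientGroup.mk_surjective
  unfold HF at h
  rw [h1] at h
  exact Set.infinite_univ h

/-- The presentation and finiteness for residually `p` subgroups. -/
theorem fin_p {G : Type u} [Group G] (R : Res G) (K : Subgroup G) (hK : Infinite K)
    (hQ : Infinite (G ⧸ K)) (w : G →* ℤˣ)
    (hw : ∀ (x : G) (f : R.Q3 →ₗ[Zg G] Zg G), R.e (tw w x f) = R.e f) (hwK : ∀ k : K, w k = 1)
    (p : ℕ) (hp : p.Prime) (hres : ResP p K) {a0 a1 : ℕ} (εP : (Fin a0 → Zg K) →+ ℤ)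
    (hε : ∀ (h : K) (p : Fin a0 → Zg K), εP (el h • p) = εP p) (hs : Surjective εP)
    (d : (Fin a1 → Zg K) →ₗ[Zg K] (Fin a0 → Zg K))
    (hex : ∀ p : Fin a0 → Zg K, εP p = 0 ↔ ∃ q, d q = p) :
    Module.Projective (Zg K) (LinearMap.ker d) ∧ Module.Finite (Zg K) (LinearMap.ker d) := by
  have hproj := syz R K hQ εP hε hs d hex
  obtain ⟨s2, hs2⟩ := hproj.out
  exact ⟨hproj, fin_gen_p p hp hres s2 hs2 a1 (fun a x hx => by
    have := rank_p R K hK w hw hwK εP hε hs d hex hproj p hp hres x hx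
    omega)⟩

/-- Inner derivations are transported by isomorphisms. -/
theorem der_iso {K K' : Type*} [Group K] [Group K'] (σ : K ≃* K')
    (h : ∀ δ : K → Zg K, (∀ x y, δ (x * y) = δ x + el x * δ y) → ∃ a, ∀ x, δ x = el x * a - a)
    (δ : K' → Zg K') (hδ : ∀ x y, δ (x * y) = δ x + el x * δ y) :
    ∃ a, ∀ x, δ x = el x * a - a := by
  let e : Zg K' →+* Zg K := MonoidAlgebra.mapDomainRingHom ℤ σ.symm.toMonoidHom
  let e' : Zg K →+* Zg K' := MonoidAlgebra.mapDomainRingHom ℤ σ.toMonoidHom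
  have he : ∀ x, e (el x) = el (σ.symm x) := by
    intro x
    change MonoidAlgebra.mapDomain _ (MonoidAlgebra.single x 1) = _
    rw [MonoidAlgebra.mapDomain_single]
    rfl
  have he' : ∀ x, e' (el x) = el (σ x) := by
    intro x
    change MonoidAlgebra.mapDomain _ (MonoidAlgebra.single x 1) = _
    rw [MonoidAlgebra.mapDomain_single]
    rfl
  have hee : ∀ y, e' (e y) = y := by
    intro y
    have : (e'.toAddMonoidHom.comp e.toAddMonoidHom) = AddMonoidHom.id _ := by
      apply zhom_ext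
      intro g
      change e' (e (el g)) = el g
      rw [he, he', MulEquiv.apply_symm_apply]
    exact DFunLike.congr_fun this y
  obtain ⟨a, ha⟩ := h (fun k => e (δ (σ k))) (by
    intro x y
    rw [map_mul σ, hδ, map_add, map_mul e, he, MulEquiv.symm_apply_apply])
  refine ⟨e' a, fun x => ?_⟩
  have h1 := ha (σ.symm x)
  rw [MulEquiv.apply_symm_apply] at h1
  rw [← hee (δ x), h1, map_sub, map_mul, he', MulEquiv.apply_symm_apply]

/-- For every free presentation of the trivial `ℤ[K]`-module the second syzygy is finitely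
generated. -/
def FinSyz (K : Type u) [Group K] : Prop :=
  ∀ (a0 a1 : ℕ) (εP : (Fin a0 → Zg K) →+ ℤ),
    (∀ (h : K) (p : Fin a0 → Zg K), εP (el h • p) = εP p) → Surjective εP →
    ∀ d : (Fin a1 → Zg K) →ₗ[Zg K] (Fin a0 → Zg K), (∀ p, εP p = 0 ↔ ∃ q, d q = p) →
    Module.Finite (Zg K) (LinearMap.ker d)

/-- The main step: `H` orientation preserving, one-ended, with finiteness for its subgroups. -/
theorem pd_two_sub {G : Type u} [Group G] (R : Res G) (H : Subgroup G) (hH : Infinite H)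
    (hQ : Infinite (G ⧸ H)) (w : G →* ℤˣ)
    (hw : ∀ (x : G) (f : R.Q3 →ₗ[Zg G] Zg G), R.e (tw w x f) = R.e f) (hwH : ∀ k : H, w k = 1)
    (hF : ∀ K : Subgroup G, K ≤ H → Infinite K → FinSyz K) (hfg : Group.FG H)
    (hH1 : ∀ δ : H → Zg H, (∀ x y, δ (x * y) = δ x + el x * δ y) → ∃ a, ∀ x, δ x = el x * a - a) :
    ∃ K : Subgroup G, K ≤ H ∧ IsPD 2 K := by
  classical
  obtain ⟨n, d, hd⟩ := aug_presentation H hfg
  obtain ⟨hε, hs⟩ := aug1_props H
  have hproj := syz R H hQ _ hε hs d hd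
  have hfin := hF H le_rfl hH _ _ _ hε hs d hd
  obtain ⟨C, hC, θ, hθ1, hθ2, hθ3⟩ := ends_theta R H hH w hw hwH _ hε hs d hd hproj hfin
  -- an end
  obtain ⟨c0, hc0⟩ : C.Nonempty := by
    rw [Set.nonempty_iff_ne_empty]
    intro h0
    apply hf_univ H hQ
    refine hC.co.mono ?_
    intro g _ c hc
    rw [h0] at hc
    exact absurd hc (Set.notMem_empty c)
  let actC : MulAction H C := endsAct hC
  have hsm : ∀ (h : H) (c : C), ((h • c : C) : Set G) = {g | g * (h : G) ∈ (c : Set G)} :=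
    fun h c => rfl
  have hKfg := stab_fg hfg (LinearMap.ker d).subtype θ (fun h f x => hθ1 h f x) hθ2 hθ3 ⟨c0, hc0⟩
  have hKder := der_stab hH1 d (LinearMap.ker d).subtype (by
    intro q
    constructor
    · intro h; exact ⟨⟨q, h⟩, rfl⟩
    · rintro ⟨r, rfl⟩; exact r.2) θ (fun h f x => hθ1 h f x) hθ2 hθ3 ⟨c0, hc0⟩
  let K' : Subgroup H := MulAction.stabilizer H (⟨c0, hc0⟩ : C)
  let K : Subgroup G := K'.map H.subtype
  have hKH : K ≤ H := Subgroup.map_subtype_le K'
  let σ : K' ≃* K := K'.equivMapOfInjective H.subtype H.subtype_injective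
  have hmem : ∀ h : H, (h : G) ∈ K ↔ {g | g * (h : G) ∈ c0} = c0 := by
    intro h
    have h1 : (h : G) ∈ K ↔ h ∈ K' := by
      constructor
      · rintro ⟨k, hk, hkh⟩
        have : k = h := Subtype.ext hkh
        exact this ▸ hk
      · intro hk; exact ⟨h, hk, rfl⟩
    rw [h1, MulAction.mem_stabilizer_iff, ← Subtype.coe_inj]
    rfl
  have hKinf : Infinite K := by
    have h1 := hC.inf c0 hc0
    have h2 : Infinite K' := by
      refine Infinite.of_injective
        (fun x : {h : H // {g | g * (h : G) ∈ c0} = c0} => (⟨x.1, by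
          rw [MulAction.mem_stabilizer_iff, ← Subtype.coe_inj]
          exact x.2⟩ : K')) ?_
      intro x y hxy
      apply Subtype.ext
      exact congrArg (fun z : K' => (z : H)) hxy
    exact Infinite.of_injective σ σ.injective
  have hQK : Infinite (G ⧸ K) := by
    rw [← not_finite_iff_infinite]
    intro hf
    apply hf_univ H hQ
    have : HF K (Set.univ : Set G) := Set.toFinite _
    exact this.of_le hKH
  have hwK : ∀ k : K, w k = 1 := fun k => hwH ⟨k, hKH k.2⟩
  have hKFG : Group.FG K := by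
    have h1 : Group.FG K' := (Group.fg_iff_subgroup_fg K').mpr hKfg
    exact Group.fg_of_surjective (f := σ.toMonoidHom) σ.surjective
  have hK1 : ∀ δ : K → Zg K, (∀ x y, δ (x * y) = δ x + el x * δ y) →
      ∃ a, ∀ x, δ x = el x * a - a := der_iso σ hKder
  obtain ⟨m, dK, hdK⟩ := aug_presentation K hKFG
  obtain ⟨hεK, hsK⟩ := aug1_props K
  have hprojK := syz R K hQK _ hεK hsK dK hdK
  have hfinK := hF K hKH hKinf _ _ _ hεK hsK dK hdK
  obtain ⟨D, hD, η, hη1, hη2, hη3⟩ :=
    ends_theta R K hKinf w hw hwK _ hεK hsK dK hdK hprojK hfinK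
  obtain ⟨u, hu, huK⟩ := fix_atom H K hKH C hC c0 hc0 hmem D hD
  obtain ⟨dual0, dual1⟩ := dual_K hK1 dK hdK
  let actD : MulAction K D := endsAct hD
  -- the other ends
  let X : Type u := {c : D // c ≠ ⟨u, hu⟩}
  have hfix : ∀ k : K, k • (⟨u, hu⟩ : D) = ⟨u, hu⟩ := fun k => Subtype.ext (huK k)
  let actX : MulAction K X :=
    { smul := fun k c => ⟨k • c.1, fun h => c.2 (by
        have h1 : k • c.1 = k • (⟨u, hu⟩ : D) := by rw [h, hfix]
        exact MulAction.injective k h1)⟩
      one_smul := fun c => Subtype.ext (one_smul K c.1)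
      mul_smul := fun x y c => Subtype.ext (mul_smul x y c.1) }
  let res : (D →₀ ℤ) →+ (X →₀ ℤ) := Finsupp.comapDomain.addMonoidHom Subtype.val_injective
  have hres : ∀ F x, res F x = F x.1 := fun F x => rfl
  let ζ : (LinearMap.ker dK →ₗ[Zg K] Zg K) →+ (X →₀ ℤ) := res.comp η
  have hζ : ∀ f x, ζ f x = η f x.1 := fun f x => rfl
  have hsum : ∀ F : D →₀ ℤ, F.sum (fun _ n => n) = F ⟨u, hu⟩ + (res F).sum (fun _ n => n) := by
    intro F
    induction F using Finsupp.induction_linear with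
    | zero => simp
    | add F F' hF hF' =>
      rw [Finsupp.sum_add_index' (by simp) (by simp), hF, hF', map_add,
        Finsupp.sum_add_index' (by simp) (by simp), Finsupp.add_apply]
      ring
    | single c z =>
      rw [Finsupp.sum_single_index rfl]
      by_cases hc : c = ⟨u, hu⟩
      · have h0 : res (Finsupp.single c z) = 0 := by
          ext x
          rw [hres, Finsupp.single_apply, if_neg (fun h => x.2 (by rw [← h, hc]))]
          rfl
        rw [h0, hc]
        simp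
      · have h0 : res (Finsupp.single c z) = Finsupp.single (⟨c, hc⟩ : X) z := by
          ext x
          rw [hres, Finsupp.single_apply, Finsupp.single_apply]
          congr 1
          rw [eq_iff_iff]
          exact ⟨fun h => Subtype.ext h, fun h => congrArg Subtype.val h⟩
        rw [h0, Finsupp.sum_single_index rfl, Finsupp.single_apply, if_neg hc, zero_add]
  have hζk : ∀ f, ζ f = 0 ↔ ∃ f' : (Fin m → Zg K) →ₗ[Zg K] Zg K,
      f = f' ∘ₗ (LinearMap.ker dK).subtype := by
    intro f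
    rw [← hη2]
    constructor
    · intro h0
      have h1 := hsum (η f)
      rw [(hη3 _).2 ⟨f, rfl⟩] at h1
      have h2 : res (η f) = 0 := h0
      rw [h2, Finsupp.sum_zero_index, add_zero] at h1
      ext c
      by_cases hc : c = ⟨u, hu⟩
      · rw [hc, ← h1]
        rfl
      · have := congrArg (fun F : X →₀ ℤ => F ⟨c, hc⟩) h2
        exact this
    · intro h0
      change res (η f) = 0
      rw [h0, map_zero]
  have hζs : Surjective ζ := by
    intro F
    let F1 : D →₀ ℤ := Finsupp.embDomain ⟨Subtype.val, Subtype.val_injective⟩ F -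
      Finsupp.single ⟨u, hu⟩ (F.sum fun _ n => n)
    have hF1 : res F1 = F := by
      ext x
      have h1 : (Finsupp.embDomain (⟨Subtype.val, Subtype.val_injective⟩ : X ↪ D) F) x.1 = F x :=
        Finsupp.embDomain_apply_self _ F x
      rw [hres, Finsupp.sub_apply, h1, Finsupp.single_apply,
        if_neg (fun h => x.2 h.symm), sub_zero]
    obtain ⟨f, hf⟩ := (hη3 F1).1 (by
      rw [hsum, hF1, Finsupp.sub_apply, Finsupp.single_eq_same,
        Finsupp.embDomain_of_notMem_range]
      · ring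
      · rintro ⟨x, hx⟩
        exact x.2 hx)
    refine ⟨f, ?_⟩
    change res (η f) = F
    rw [hf, hF1]
  obtain ⟨x, hx⟩ := one_X _ hεK hsK dK (LinearMap.ker dK).subtype hdK (by
    intro q
    constructor
    · intro h; exact ⟨⟨q, h⟩, rfl⟩
    · rintro ⟨r, rfl⟩; exact r.2) Subtype.val_injective dual0 dual1 ζ
    (fun k f x => hη1 k f x.1) hζs hζk
  refine ⟨K, hKH, pd_two dK hdK hprojK hfinK dual0 dual1
    ((Finsupp.applyAddHom x).comp ζ) ?_ ?_⟩
  · intro z
    obtain ⟨f, hf⟩ := hζs (Finsupp.single x z)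
    refine ⟨f, ?_⟩
    change ζ f x = z
    rw [hf, Finsupp.single_eq_same]
  · intro f
    rw [← hζk]
    change ζ f x = 0 ↔ ζ f = 0
    constructor
    · intro h0
      ext y
      rw [hx y, h0]
      rfl
    · intro h0
      rw [h0]
      rfl

/-- The reduction to the orientation preserving case. -/
theorem pd_two_virt {G : Type u} [Group G] (hG : IsPD3 G) (H : Subgroup G) (hfg : H.FG)
    (hidx : H.index = 0) (H0 : Subgroup H) (hH0 : H0.FiniteIndex) (hH : Infinite H)
    (hF : ∀ (R : Res G) (w : G →* ℤˣ),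
      (∀ (x : G) (f : R.Q3 →ₗ[Zg G] Zg G), R.e (tw w x f) = R.e f) →
      ∀ K : Subgroup G, Infinite K → Infinite (G ⧸ K) → (∀ k : K, w k = 1) →
      (∃ c : K →* H0, Injective c) → FinSyz K)
    (hOE : ∀ A : Set H, (∀ x : H, {g : H | ¬ (x * g ∈ A ↔ g ∈ A)}.Finite) →
      A.Finite ∨ Aᶜ.Finite) : ∃ K : Subgroup G, K ≤ H ∧ IsPD 2 K := by
  classical
  have hFG : Group.FG H := (Group.fg_iff_subgroup_fg H).mpr hfg
  obtain ⟨R⟩ := hG
  obtain ⟨w, hw⟩ := exists_w R
  let N0 : Subgroup H := H0.normalCore ⊓ (w.comp H.subtype).ker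
  have hNf : N0.FiniteIndex := inferInstance
  let Kg : Subgroup G := N0.map H.subtype
  have hKgH : Kg ≤ H := Subgroup.map_subtype_le N0
  let σ : N0 ≃* Kg := N0.equivMapOfInjective H.subtype H.subtype_injective
  have hNinf : Infinite N0 := by
    by_contra hc
    rw [not_infinite_iff_finite] at hc
    exact not_finite_iff_infinite.mpr hH (Finite.of_subgroup_quotient N0)
  have hKinf : Infinite Kg := Infinite.of_injective σ σ.injective
  have hQ : ∀ K : Subgroup G, K ≤ H → Infinite (G ⧸ K) := by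
    intro K hK
    apply infinite_quot
    have := Subgroup.index_dvd_of_le hK
    rw [hidx] at this
    exact zero_dvd_iff.mp this
  have hwK : ∀ u : Kg, w u = 1 := by
    intro u
    obtain ⟨v, rfl⟩ := σ.surjective u
    exact v.2.2
  have hN0FG : Group.FG N0 := Subgroup.fg_of_index_ne_zero N0
  have hKFG : Group.FG Kg := Group.fg_of_surjective (f := σ.toMonoidHom) σ.surjective
  let c : Kg →* H0 :=
    { toFun := fun u => ⟨((σ.symm u : N0) : H), Subgroup.normalCore_le H0 (σ.symm u).2.1⟩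
      map_one' := by ext; simp
      map_mul' := by intro u v; ext; simp }
  have hc : Injective c := by
    intro u v huv
    apply σ.symm.injective
    apply Subtype.ext
    exact congrArg (fun z : H0 => (z : H)) huv
  have h1 := der_of_oneEnd hN0FG (oneEnd_finiteIndex hOE N0 hNf)
  obtain ⟨K, hK, hPD⟩ := pd_two_sub R Kg hKinf (hQ Kg hKgH) w hw hwK (by
    intro K hK hKi
    refine hF R w hw K hKi (hQ K (hK.trans hKgH)) (fun k => hwK ⟨k, hK k.2⟩) ?_
    exact ⟨c.comp (Subgroup.inclusion hK), hc.comp (Subgroup.inclusion_injective hK)⟩) hKFG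
    (der_iso σ h1)
  exact ⟨K, hK.trans hKgH, hPD⟩

theorem mainD {G : Type u} [Group G] (hG : IsPD3 G) (H : Subgroup G) (hfg : H.FG)
    (hidx : H.index = 0) (p : ℕ) (hp : p.Prime) (H0 : Subgroup H) (hH0 : H0.FiniteIndex)
    (hres : ResP p H0) (hH : Infinite H)
    (hOE : ∀ A : Set H, (∀ x : H, {g : H | ¬ (x * g ∈ A ↔ g ∈ A)}.Finite) →
      A.Finite ∨ Aᶜ.Finite) : ∃ K : Subgroup G, K ≤ H ∧ IsPD 2 K := by
  refine pd_two_virt hG H hfg hidx H0 hH0 hH ?_ hOE
  rintro R w hw K hKi hQK hwK ⟨c, hc⟩ a0 a1 εP hε hs d hex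
  exact (fin_p R K hKi hQK w hw hwK p hp (resP_of_injective c hc hres) εP hε hs d hex).2

/-- Finiteness of the second syzygy for subgroups of groups with a noetherian representation. -/
theorem finSyz_rep {G : Type u} [Group G] (R : Res G) {H0 : Type u} [Group H0] (K : Subgroup G)
    (hQ : Infinite (G ⧸ K)) (c : K →* H0) (hc : Injective c)
    {Λ M : Type*} [Ring Λ] [AddCommGroup M] [Module Λ M] [IsNoetherian Λ M]
    (L : H0 →* Module.End Λ M) (hfaith : ∀ y : Zg H0, (∀ m, actR L y m = 0) → y = 0)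
    (hinv : ∀ K : Subgroup H0, Infinite K → ∀ m : M, (∀ k ∈ K, L k m = m) → m = 0) :
    FinSyz K := by
  intro a0 a1 εP hε hs d hex
  refine ker_fin R K hQ (L.comp c) ?_ ?_ εP hε hs d hex
  · intro y hy
    apply MonoidAlgebra.mapDomain_injective (R := ℤ) hc
    change MonoidAlgebra.mapDomainRingHom ℤ c y = _
    rw [MonoidAlgebra.mapDomain_zero]
    apply hfaith
    intro m
    rw [← hy m]
    have h : (LinearMap.evalAddMonoidHom m : (Module.End Λ M) →+ M).comp
        ((actR L).comp (MonoidAlgebra.mapDomainRingHom ℤ c).toAddMonoidHom) =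
        (LinearMap.evalAddMonoidHom m : (Module.End Λ M) →+ M).comp (actR (L.comp c)) := by
      apply zhom_ext
      intro k
      change actR L (MonoidAlgebra.mapDomain c (MonoidAlgebra.single k 1)) m =
        actR (L.comp c) (el k) m
      rw [MonoidAlgebra.mapDomain_single]
      change actR L (el (c k)) m = actR (L.comp c) (el k) m
      simp [actR]
    exact DFunLike.congr_fun h y
  · intro K' hK' m hm
    refine hinv (K'.map c) ?_ m ?_
    · exact Infinite.of_injective (K'.equivMapOfInjective c hc)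
        (K'.equivMapOfInjective c hc).injective
    · rintro _ ⟨k, hk, rfl⟩
      exact hm k hk

/-- Surface subgroups from noetherian representations. -/
theorem mainD_rep {G : Type u} [Group G] (hG : IsPD3 G) (H : Subgroup G) (hfg : H.FG)
    (hidx : H.index = 0) (H0 : Subgroup H) (hH0 : H0.FiniteIndex) (hH : Infinite H)
    {Λ M : Type*} [Ring Λ] [AddCommGroup M] [Module Λ M] [IsNoetherian Λ M]
    (L : H0 →* Module.End Λ M) (hfaith : ∀ y : Zg H0, (∀ m, actR L y m = 0) → y = 0)
    (hinv : ∀ K : Subgroup H0, Infinite K → ∀ m : M, (∀ k ∈ K, L k m = m) → m = 0)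
    (hOE : ∀ A : Set H, (∀ x : H, {g : H | ¬ (x * g ∈ A ↔ g ∈ A)}.Finite) →
      A.Finite ∨ Aᶜ.Finite) : ∃ K : Subgroup G, K ≤ H ∧ IsPD 2 K := by
  refine pd_two_virt hG H hfg hidx H0 hH0 hH ?_ hOE
  rintro R w hw K hKi hQK hwK ⟨c, hc⟩
  exact finSyz_rep R K hQK c hc L hfaith hinv

end PDT
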