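import Mathlib

/-!
# PDT/NoetherNorm: Noether normalization over `ℤ[1/s]`

`A` a finitely generated domain of characteristic zero, `L` its fraction field.  There are `x_1, …, x_d`
in `L`, algebraically independent over `ℤ`, and an integer `s ≠ 0`, such that every element of `A` is
integral over the subring `ℤ[1/s, x_1, …, x_d]` of `L`, and `L` is algebraic over `ℤ[x]`, `L` being
generated by finitely many elements.

Complete proof.  Let `B = Algebra.adjoin ℚ (range (algebraMap A L)) ≤ L`, a finitely generated
`ℚ`-algebra (generated by the images of the finitely many ring generators `g_1, …, g_r` of `A`).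
`exists_finite_inj_algHom_of_fg ℚ B` gives `ν : MvPolynomial (Fin d) ℚ →ₐ[ℚ] B` injective and finite.
`x_i = ν(X_i)`; they are algebraically independent over `ℚ`, so over `ℤ`.  Each `g_j` is integral
over `ℚ[x]`: a monic polynomial with finitely many coefficients in `ℚ[x]`; let `s ≠ 0` be a common
denominator of all rational coefficients occurring for all `j`.  Then all `g_j` are integral over
`C = Algebra.adjoin ℤ ({1/s} ∪ {x_i})`, so all elements of `A` are (`integralClosure` is a
subalgebra containing the `g_j`, and `Algebra.adjoin ℤ {g_j} = ⊤`).  `L` is the fraction field of `A`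
and every element of `A` is algebraic over `ℤ[x]`, so `L` is algebraic over the subring
(`Algebra.IsAlgebraic`): stated below as: every `z ∈ L` is a root of a non-zero polynomial with
coefficients in `Algebra.adjoin ℤ {x_i}`.
-/

namespace PDT

open Function Polynomial

private lemma NoetherNorm_den (L : Type*) [Field L] [CharZero L] (d : ℕ) (x : Fin d → L)
    (R0 : Subalgebra ℤ L) (hx : ∀ i, x i ∈ R0) (q : MvPolynomial (Fin d) ℚ) :
    ∃ m : ℕ, m ≠ 0 ∧ (m : L) * MvPolynomial.aeval x q ∈ R0 := by
  induction q using MvPolynomial.induction_on with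
  | C a =>
    refine ⟨a.den, a.den_nz, ?_⟩
    rw [MvPolynomial.aeval_C]
    have h1 : ((a.den : ℕ) : L) * algebraMap ℚ L a = ((a.num : ℤ) : L) := by
      rw [eq_ratCast]
      have hd : ((a.den : ℕ) : L) ≠ 0 := by exact_mod_cast a.den_nz
      rw [mul_comm, ← eq_div_iff hd]
      exact (Rat.cast_def a)
    rw [h1]
    exact intCast_mem R0 _
  | add p q hp hq =>
    obtain ⟨m, hm, hp⟩ := hp
    obtain ⟨k, hk, hq⟩ := hq
    refine ⟨m * k, mul_ne_zero hm hk, ?_⟩
    rw [map_add]
    have h1 : ((m * k : ℕ) : L) * (MvPolynomial.aeval x p + MvPolynomial.aeval x q) =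
        (k : L) * ((m : L) * MvPolynomial.aeval x p) +
          (m : L) * ((k : L) * MvPolynomial.aeval x q) := by
      push_cast; ring
    rw [h1]
    exact add_mem (mul_mem (natCast_mem R0 _) hp) (mul_mem (natCast_mem R0 _) hq)
  | mul_X p i hp =>
    obtain ⟨m, hm, hp⟩ := hp
    refine ⟨m, hm, ?_⟩
    rw [map_mul, MvPolynomial.aeval_X, ← mul_assoc]
    exact mul_mem hp (hx i)

private lemma NoetherNorm_denF (L : Type*) [Field L] [CharZero L] (d : ℕ) (x : Fin d → L)
    (R0 : Subalgebra ℤ L) (hx : ∀ i, x i ∈ R0) (F : Finset (MvPolynomial (Fin d) ℚ)) :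
    ∃ m : ℕ, m ≠ 0 ∧ ∀ q ∈ F, (m : L) * MvPolynomial.aeval x q ∈ R0 := by
  classical
  induction F using Finset.induction_on with
  | empty => exact ⟨1, one_ne_zero, by simp⟩
  | insert q F _ ih =>
    obtain ⟨m, hm, h⟩ := ih
    obtain ⟨k, hk, h2⟩ := NoetherNorm_den L d x R0 hx q
    refine ⟨m * k, mul_ne_zero hm hk, ?_⟩
    intro r hr
    rcases Finset.mem_insert.mp hr with rfl | hr
    · have h1 : ((m * k : ℕ) : L) * MvPolynomial.aeval x r =
          (m : L) * ((k : L) * MvPolynomial.aeval x r) := by push_cast; ring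
      rw [h1]
      exact mul_mem (natCast_mem R0 _) h2
    · have h1 : ((m * k : ℕ) : L) * MvPolynomial.aeval x r =
          (k : L) * ((m : L) * MvPolynomial.aeval x r) := by push_cast; ring
      rw [h1]
      exact mul_mem (natCast_mem R0 _) (h r hr)

theorem noether_norm (A : Type*) [CommRing A] [IsDomain A] [CharZero A]
    (hfg : Algebra.FiniteType ℤ A) (L : Type*) [Field L] [Algebra A L] [IsFractionRing A L] :
    ∃ (d : ℕ) (x : Fin d → L) (s : ℕ), s ≠ 0 ∧ AlgebraicIndependent ℤ x ∧
      (∀ a : A, IsIntegral (Algebra.adjoin ℤ (insert ((s : L)⁻¹) (Set.range x))) (algebraMap A L a)) ∧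
      Algebra.IsAlgebraic (Algebra.adjoin ℤ (Set.range x)) L := by
  classical
  have hinj : Injective (algebraMap A L) := IsFractionRing.injective A L
  have : CharZero L := charZero_of_injective_algebraMap hinj
  obtain ⟨S, hS⟩ := hfg.out
  set B : Subalgebra ℚ L := Algebra.adjoin ℚ ((S.image (algebraMap A L) : Finset L) : Set L) with hB
  have : Algebra.FiniteType ℚ B := by
    rw [← Subalgebra.fg_iff_finiteType]
    exact ⟨_, rfl⟩
  obtain ⟨d, ν, hν, hfin⟩ := exists_finite_inj_algHom_of_fg ℚ B
  set x : Fin d → L := fun i => (ν (MvPolynomial.X i) : L) with hxdef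
  have haev : ∀ q, ((ν q : B) : L) = MvPolynomial.aeval x q := by
    intro q
    have h1 : B.val.comp ν = MvPolynomial.aeval x := by
      apply MvPolynomial.algHom_ext
      intro i
      simp [hxdef]
    exact DFunLike.congr_fun h1 q
  have hind : AlgebraicIndependent ℚ x := by
    intro p q hpq
    apply hν
    apply Subtype.ext
    rw [haev, haev]
    exact hpq
  have hindZ : AlgebraicIndependent ℤ x := hind.restrictScalars (algebraMap ℤ ℚ).injective_int
  set R0 : Subalgebra ℤ L := Algebra.adjoin ℤ (Set.range x) with hR0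
  have hxR0 : ∀ i, x i ∈ R0 := fun i => Algebra.subset_adjoin ⟨i, rfl⟩
  -- integral equations of the generators
  have hint : ∀ g : A, ∃ f : (MvPolynomial (Fin d) ℚ)[X], g ∈ S →
      (f.Monic ∧ (f.map (MvPolynomial.aeval x : MvPolynomial (Fin d) ℚ →ₐ[ℚ] L).toRingHom).eval
        (algebraMap A L g) = 0) := by
    intro g
    by_cases hg : g ∈ S
    · have hgB : algebraMap A L g ∈ B := Algebra.subset_adjoin (by
        simp only [Finset.coe_image]
        exact ⟨g, hg, rfl⟩)
      obtain ⟨f, hf, hf2⟩ := RingHom.Finite.to_isIntegral hfin ⟨algebraMap A L g, hgB⟩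
      refine ⟨f, fun _ => ⟨hf, ?_⟩⟩
      rw [eval_map]
      have h2 := congrArg (fun b : B => (b : L)) hf2
      have h3 : ((f.eval₂ (ν : MvPolynomial (Fin d) ℚ →+* B) ⟨algebraMap A L g, hgB⟩ : B) : L) =
          f.eval₂ ((B.val : B →+* L).comp (ν : MvPolynomial (Fin d) ℚ →+* B)) (algebraMap A L g) := by
        have := Polynomial.hom_eval₂ f (ν : MvPolynomial (Fin d) ℚ →+* B) (B.val : B →+* L)
          ⟨algebraMap A L g, hgB⟩
        exact this
      have h4 : ((B.val : B →+* L).comp (ν : MvPolynomial (Fin d) ℚ →+* B)) =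
          (MvPolynomial.aeval x : MvPolynomial (Fin d) ℚ →ₐ[ℚ] L).toRingHom := by
        exact RingHom.ext haev
      rw [h4] at h3
      rw [← h3]
      exact h2
    · exact ⟨0, fun h => absurd h hg⟩
  choose f hf using hint
  obtain ⟨m, hm, hmF⟩ := NoetherNorm_denF L d x R0 hxR0
    (S.biUnion fun g => (Finset.range ((f g).natDegree + 1)).image (fun i => (f g).coeff i))
  have hcoef : ∀ g ∈ S, ∀ i, (m : L) * MvPolynomial.aeval x ((f g).coeff i) ∈ R0 := by
    intro g hg i
    by_cases hi : i < (f g).natDegree + 1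
    · exact hmF _ (Finset.mem_biUnion.mpr ⟨g, hg, Finset.mem_image.mpr
        ⟨i, Finset.mem_range.mpr hi, rfl⟩⟩)
    · rw [Polynomial.coeff_eq_zero_of_natDegree_lt (by omega), map_zero, mul_zero]
      exact zero_mem _
  have hmL : (m : L) ≠ 0 := by exact_mod_cast hm
  refine ⟨d, x, m, hm, hindZ, ?_, ?_⟩
  · set Cs : Subalgebra ℤ L := Algebra.adjoin ℤ (insert ((m : L)⁻¹) (Set.range x)) with hCs
    have hle : R0 ≤ Cs := Algebra.adjoin_mono (Set.subset_insert _ _)
    have hminv : ((m : L)⁻¹) ∈ Cs := Algebra.subset_adjoin (Set.mem_insert _ _)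
    have hgen : ∀ g ∈ S, IsIntegral Cs (algebraMap A L g) := by
      intro g hg
      obtain ⟨hmon, hev⟩ := hf g hg
      set P := (f g).map (MvPolynomial.aeval x : MvPolynomial (Fin d) ℚ →ₐ[ℚ] L).toRingHom with hP
      have hPl : P ∈ Polynomial.lifts (algebraMap Cs L) := by
        rw [Polynomial.lifts_iff_coeff_lifts]
        intro i
        refine ⟨⟨P.coeff i, ?_⟩, rfl⟩
        rw [hP, coeff_map]
        have h1 : (m : L)⁻¹ * ((m : L) * MvPolynomial.aeval x ((f g).coeff i)) =
            MvPolynomial.aeval x ((f g).coeff i) := by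
          rw [← mul_assoc, inv_mul_cancel₀ hmL, one_mul]
        have h2 : (m : L)⁻¹ * ((m : L) * MvPolynomial.aeval x ((f g).coeff i)) ∈ Cs :=
          mul_mem hminv (hle (hcoef g hg i))
        rw [h1] at h2
        exact h2
      obtain ⟨Q, hQ, _, hQm⟩ := Polynomial.lifts_and_natDegree_eq_and_monic hPl (hmon.map _)
      refine ⟨Q, hQm, ?_⟩
      rw [← eval_map, hQ]
      exact hev
    intro a
    have ha : a ∈ Algebra.adjoin ℤ (S : Set A) := by rw [hS]; trivial
    induction ha using Algebra.adjoin_induction with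
    | mem g hg => exact hgen g hg
    | algebraMap r =>
      have h1 : algebraMap A L (algebraMap ℤ A r) = algebraMap Cs L (algebraMap ℤ Cs r) := by
        simp
      rw [h1]
      exact isIntegral_algebraMap
    | add a b _ _ ha hb => rw [map_add]; exact ha.add hb
    | mul a b _ _ ha hb => rw [map_mul]; exact ha.mul hb
  · have hgen : ∀ g ∈ S, IsAlgebraic R0 (algebraMap A L g) := by
      intro g hg
      obtain ⟨hmon, hev⟩ := hf g hg
      set P := (f g).map (MvPolynomial.aeval x : MvPolynomial (Fin d) ℚ →ₐ[ℚ] L).toRingHom with hP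
      have hPl : C (m : L) * P ∈ Polynomial.lifts (algebraMap R0 L) := by
        rw [Polynomial.lifts_iff_coeff_lifts]
        intro i
        refine ⟨⟨(C (m : L) * P).coeff i, ?_⟩, rfl⟩
        rw [coeff_C_mul, hP, coeff_map]
        exact hcoef g hg i
      obtain ⟨Q, hQ⟩ := (Polynomial.mem_lifts _).mp hPl
      refine ⟨Q, ?_, ?_⟩
      · rintro rfl
        rw [Polynomial.map_zero] at hQ
        have h1 := (mul_eq_zero.mp hQ.symm)
        rcases h1 with h1 | h1
        · exact hmL (by simpa using h1)
        · exact (hmon.map _).ne_zero h1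
      · rw [aeval_def, ← eval_map, hQ, eval_mul, hev, mul_zero]
    have hA : ∀ a : A, IsAlgebraic R0 (algebraMap A L a) := by
      intro a
      have ha : a ∈ Algebra.adjoin ℤ (S : Set A) := by rw [hS]; trivial
      induction ha using Algebra.adjoin_induction with
      | mem g hg => exact hgen g hg
      | algebraMap r =>
        have h1 : algebraMap A L (algebraMap ℤ A r) = algebraMap R0 L (algebraMap ℤ R0 r) := by
          simp
        rw [h1]
        exact isAlgebraic_algebraMap _
      | add a b _ _ ha hb => rw [map_add]; exact ha.add hb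
      | mul a b _ _ ha hb => rw [map_mul]; exact ha.mul hb
    refine ⟨fun z => ?_⟩
    obtain ⟨a, b, _, rfl⟩ := IsFractionRing.div_surjective (A := A) z
    rw [div_eq_mul_inv]
    exact (hA a).mul (hA b).inv

end PDT
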