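import Pool.Agent.Lib.PDT.Base4

/-!
# PDT/ResFin: separating finitely many elements in a finite `p`-quotient
-/

namespace PDT

theorem pq_top (p : ℕ) (H : Type*) [Group H] : PQ p (⊤ : Subgroup H) :=
  ⟨inferInstance, inferInstance, fun _ => ⟨0, trivial⟩⟩

theorem pq_inf {p : ℕ} {H : Type*} [Group H] {N N' : Subgroup H} (h : PQ p N) (h' : PQ p N') :
    PQ p (N ⊓ N') := by
  obtain ⟨h1, h2, h3⟩ := h
  obtain ⟨h1', h2', h3'⟩ := h'
  refine ⟨inferInstance, inferInstance, fun x => ?_⟩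
  obtain ⟨n, hn⟩ := h3 x
  obtain ⟨m, hm⟩ := h3' x
  refine ⟨n + m, ?_, ?_⟩
  · rw [pow_add, pow_mul]
    exact N.pow_mem hn _
  · rw [pow_add, mul_comm, pow_mul]
    exact N'.pow_mem hm _

theorem res_fin {p : ℕ} {H : Type*} [Group H] (hH : ResP p H) (F : Finset H)
    (hF : ∀ h ∈ F, h ≠ 1) : ∃ N : Subgroup H, PQ p N ∧ ∀ h ∈ F, h ∉ N := by
  classical
  induction F using Finset.induction_on with
  | empty => exact ⟨⊤, pq_top p H, by simp⟩
  | insert a F ha ih =>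
    obtain ⟨N, hN, hN'⟩ := ih fun h hh => hF h (Finset.mem_insert_of_mem hh)
    obtain ⟨N2, hN2, hN2'⟩ := hH a (hF a (Finset.mem_insert_self a F))
    refine ⟨N ⊓ N2, pq_inf hN hN2, fun h hh => ?_⟩
    rcases Finset.mem_insert.1 hh with rfl | hh
    · exact fun h3 => hN2' h3.2
    · exact fun h3 => hN' h hh h3.1

end PDT
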