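import Mathlib

/-!
# PDT/StBase: star product data

`R` a commutative ring with commuting derivations `D i`, `P i` (`i ∈ ι`), and constants `c k` with
`c 0 = 1`, `binom(k+l, k) c (k+l) = c k c l`.  The star product on `R⟦X⟧` is
`f * g = Σ_k X^k c_k B_k(f, g)`, where `B_0(f, g) = f g`, `B_{k+1}(f, g) = Σ_i B_k(D_i f, P_i g)`.
-/

namespace PDT

open PowerSeries

/-- Data for a star product. -/
structure StarData (R : Type*) [CommRing R] (ι : Type*) [Fintype ι] where
  /-- first family of derivations -/
  D : ι → R →+ R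
  /-- second family of derivations -/
  P : ι → R →+ R
  /-- the constants -/
  c : ℕ → R
  D_mul : ∀ i x y, D i (x * y) = D i x * y + x * D i y
  P_mul : ∀ i x y, P i (x * y) = P i x * y + x * P i y
  DD : ∀ i j x, D i (D j x) = D j (D i x)
  PP : ∀ i j x, P i (P j x) = P j (P i x)
  DP : ∀ i j x, D i (P j x) = P j (D i x)
  c0 : c 0 = 1
  cc : ∀ k l, ((k + l).choose k : R) * c (k + l) = c k * c l
  Dc : ∀ i k, D i (c k) = 0
  Pc : ∀ i k, P i (c k) = 0

variable {R : Type*} [CommRing R] {ι : Type*} [Fintype ι]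

/-- An additive map applied to the coefficients of a power series. -/
noncomputable def cw (D : R →+ R) : R⟦X⟧ →+ R⟦X⟧ where
  toFun f := PowerSeries.mk fun n => D (coeff n f)
  map_zero' := by ext n; simp
  map_add' f g := by ext n; simp

@[simp] theorem coeff_cw (D : R →+ R) (f : R⟦X⟧) (n : ℕ) : coeff n (cw D f) = D (coeff n f) := by
  simp [cw]

theorem cw_mul (D : R →+ R) (hD : ∀ x y, D (x * y) = D x * y + x * D y) (f g : R⟦X⟧) :
    cw D (f * g) = cw D f * g + f * cw D g := by
  ext n
  simp only [coeff_cw, coeff_mul, map_sum, hD, map_add, Finset.sum_add_distrib]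

theorem cw_X_mul (D : R →+ R) (f : R⟦X⟧) : cw D (X * f) = X * cw D f := by
  ext n
  cases n with
  | zero => simp
  | succ n => simp [coeff_succ_X_mul]

theorem cw_X_pow_mul (D : R →+ R) (k : ℕ) (f : R⟦X⟧) : cw D (X ^ k * f) = X ^ k * cw D f := by
  induction k with
  | zero => simp
  | succ k ih => rw [pow_succ', mul_assoc, cw_X_mul, ih, mul_assoc]

theorem cw_C_mul (D : R →+ R) (hD : ∀ x y, D (x * y) = D x * y + x * D y) (a : R) (ha : D a = 0)
    (f : R⟦X⟧) : cw D (C a * f) = C a * cw D f := by
  ext n
  simp [hD, ha]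

theorem cw_comm (D E : R →+ R) (h : ∀ x, D (E x) = E (D x)) (f : R⟦X⟧) :
    cw D (cw E f) = cw E (cw D f) := by
  ext n
  simp [h]

/-- The iterated brackets `B_k` on power series. -/
noncomputable def br (S : StarData R ι) : ℕ → R⟦X⟧ → R⟦X⟧ → R⟦X⟧
  | 0, f, g => f * g
  | k + 1, f, g => ∑ i, br S k (cw (S.D i) f) (cw (S.P i) g)

theorem br_zero (S : StarData R ι) (f g : R⟦X⟧) : br S 0 f g = f * g := rfl

theorem br_succ (S : StarData R ι) (k : ℕ) (f g : R⟦X⟧) :
    br S (k + 1) f g = ∑ i, br S k (cw (S.D i) f) (cw (S.P i) g) := rfl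

theorem br_add_left (S : StarData R ι) (k : ℕ) (f f' g : R⟦X⟧) :
    br S k (f + f') g = br S k f g + br S k f' g := by
  induction k generalizing f f' g with
  | zero => simp [br_zero, add_mul]
  | succ k ih => simp [br_succ, ih, Finset.sum_add_distrib]

theorem br_add_right (S : StarData R ι) (k : ℕ) (f g g' : R⟦X⟧) :
    br S k f (g + g') = br S k f g + br S k f g' := by
  induction k generalizing f g g' with
  | zero => simp [br_zero, mul_add]
  | succ k ih => simp [br_succ, ih, Finset.sum_add_distrib]

theorem br_zero_left (S : StarData R ι) (k : ℕ) (g : R⟦X⟧) : br S k 0 g = 0 := by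
  induction k generalizing g with
  | zero => simp [br_zero]
  | succ k ih => simp [br_succ, ih]

theorem br_zero_right (S : StarData R ι) (k : ℕ) (f : R⟦X⟧) : br S k f 0 = 0 := by
  induction k generalizing f with
  | zero => simp [br_zero]
  | succ k ih => simp [br_succ, ih]

/-- The bracket as a biadditive map. -/
noncomputable def brH (S : StarData R ι) (k : ℕ) : R⟦X⟧ →+ R⟦X⟧ →+ R⟦X⟧ where
  toFun f :=
    { toFun := br S k f
      map_zero' := br_zero_right S k f
      map_add' := br_add_right S k f }
  map_zero' := by ext g : 1; exact br_zero_left S k g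
  map_add' f f' := by ext g : 1; exact br_add_left S k f f' g

@[simp] theorem brH_apply (S : StarData R ι) (k : ℕ) (f g : R⟦X⟧) : brH S k f g = br S k f g := rfl

theorem br_X_pow_left (S : StarData R ι) (k m : ℕ) (f g : R⟦X⟧) :
    br S k (X ^ m * f) g = X ^ m * br S k f g := by
  induction k generalizing f g with
  | zero => simp [br_zero, mul_assoc]
  | succ k ih => simp [br_succ, cw_X_pow_mul, ih, Finset.mul_sum]

theorem br_X_pow_right (S : StarData R ι) (k m : ℕ) (f g : R⟦X⟧) :
    br S k f (X ^ m * g) = X ^ m * br S k f g := by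
  induction k generalizing f g with
  | zero => simp only [br_zero]; ring
  | succ k ih => simp [br_succ, cw_X_pow_mul, ih, Finset.mul_sum]

theorem br_C_left (S : StarData R ι) (k : ℕ) (a : R) (hD : ∀ i, S.D i a = 0) (f g : R⟦X⟧) :
    br S k (C a * f) g = C a * br S k f g := by
  induction k generalizing f g with
  | zero => simp [br_zero, mul_assoc]
  | succ k ih =>
    rw [br_succ, br_succ, Finset.mul_sum]
    refine Finset.sum_congr rfl fun i _ => ?_
    rw [cw_C_mul _ (S.D_mul i) a (hD i), ih]

theorem br_C_right (S : StarData R ι) (k : ℕ) (a : R) (hP : ∀ i, S.P i a = 0) (f g : R⟦X⟧) :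
    br S k f (C a * g) = C a * br S k f g := by
  induction k generalizing f g with
  | zero => simp only [br_zero]; ring
  | succ k ih =>
    rw [br_succ, br_succ, Finset.mul_sum]
    refine Finset.sum_congr rfl fun i _ => ?_
    rw [cw_C_mul _ (S.P_mul i) a (hP i), ih]

/-- The truncated star product. -/
noncomputable def stn (S : StarData R ι) (n : ℕ) (f g : R⟦X⟧) : R⟦X⟧ :=
  ∑ k ∈ Finset.range (n + 1), X ^ k * (C (S.c k) * br S k f g)

/-- The star product. -/
noncomputable def star' (S : StarData R ι) (f g : R⟦X⟧) : R⟦X⟧ :=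
  PowerSeries.mk fun n => coeff n (stn S n f g)

theorem coeff_star' (S : StarData R ι) (n : ℕ) (f g : R⟦X⟧) :
    coeff n (star' S f g) = coeff n (stn S n f g) := by
  simp [star']

theorem coeff_stn_of_le (S : StarData R ι) {n m : ℕ} (h : n ≤ m) (f g : R⟦X⟧) :
    coeff n (stn S m f g) = coeff n (stn S n f g) := by
  rw [stn, stn, map_sum, map_sum]
  symm
  apply Finset.sum_subset
  · intro k hk
    rw [Finset.mem_range] at hk ⊢
    omega
  · intro k _ hk
    rw [Finset.mem_range, not_lt] at hk
    rw [coeff_X_pow_mul', if_neg (by omega)]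

/-- The star product agrees with the truncated one in degrees `≤ m`. -/
theorem coeff_star'_of_le (S : StarData R ι) {n m : ℕ} (h : n ≤ m) (f g : R⟦X⟧) :
    coeff n (star' S f g) = coeff n (stn S m f g) := by
  rw [coeff_star', coeff_stn_of_le S h]

theorem star'_add_left (S : StarData R ι) (f f' g : R⟦X⟧) :
    star' S (f + f') g = star' S f g + star' S f' g := by
  ext n
  simp only [coeff_star', map_add, stn, br_add_left, mul_add, Finset.sum_add_distrib]

theorem star'_add_right (S : StarData R ι) (f g g' : R⟦X⟧) :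
    star' S f (g + g') = star' S f g + star' S f g' := by
  ext n
  simp only [coeff_star', map_add, stn, br_add_right, mul_add, Finset.sum_add_distrib]

theorem star'_zero_left (S : StarData R ι) (g : R⟦X⟧) : star' S 0 g = 0 := by
  ext n
  simp [coeff_star', stn, br_zero_left]

theorem star'_zero_right (S : StarData R ι) (f : R⟦X⟧) : star' S f 0 = 0 := by
  ext n
  simp [coeff_star', stn, br_zero_right]

/-- If `D_i f = 0` for all `i` then `f * g` is the usual product. -/
theorem star'_of_D_eq_zero (S : StarData R ι) (f g : R⟦X⟧) (hf : ∀ i, cw (S.D i) f = 0) :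
    star' S f g = f * g := by
  have h : ∀ k, 0 < k → br S k f g = 0 := by
    intro k hk
    obtain ⟨m, rfl⟩ := Nat.exists_eq_succ_of_ne_zero hk.ne'
    rw [br_succ]
    refine Finset.sum_eq_zero fun i _ => ?_
    rw [hf, br_zero_left]
  ext n
  rw [coeff_star', stn, Finset.sum_range_succ', map_add, map_sum]
  rw [Finset.sum_eq_zero, zero_add]
  · simp [br_zero, S.c0]
  · intro k _
    rw [h _ (Nat.succ_pos k)]
    simp

/-- If `P_i g = 0` for all `i` then `f * g` is the usual product. -/
theorem star'_of_P_eq_zero (S : StarData R ι) (f g : R⟦X⟧) (hg : ∀ i, cw (S.P i) g = 0) :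
    star' S f g = f * g := by
  have h : ∀ k, 0 < k → br S k f g = 0 := by
    intro k hk
    obtain ⟨m, rfl⟩ := Nat.exists_eq_succ_of_ne_zero hk.ne'
    rw [br_succ]
    refine Finset.sum_eq_zero fun i _ => ?_
    rw [hg, br_zero_right]
  ext n
  rw [coeff_star', stn, Finset.sum_range_succ', map_add, map_sum]
  rw [Finset.sum_eq_zero, zero_add]
  · simp [br_zero, S.c0]
  · intro k _
    rw [h _ (Nat.succ_pos k)]
    simp

end PDT
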