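import Mathlib

/-!
# Groups of type FP and Poincare duality groups (statement file)
-/

namespace PDS

universe u

/-- The integral group ring. -/
abbrev ZG (G : Type*) [Group G] := MonoidAlgebra ℤ G

/-- Finitely generated projective modules over the integral group ring. -/
structure Mdl (G : Type u) [Group G] where
  /-- the underlying type -/
  X : Type u
  [ag : AddCommGroup X]
  [md : Module (ZG G) X]
  [fg : Module.Finite (ZG G) X]
  [pr : Module.Projective (ZG G) X]

attribute [instance] Mdl.ag Mdl.md Mdl.fg Mdl.pr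

/-- Homomorphisms. -/
abbrev Hom {G : Type u} [Group G] (P Q : Mdl G) : Type u := P.X →ₗ[ZG G] Q.X

/-- The action of the group on a module. -/
noncomputable def act {G : Type u} [Group G] {P : Mdl G} (g : G) (x : P.X) : P.X :=
  (MonoidAlgebra.of ℤ G g) • x

/-- The linear functionals `P → ℤ[G]`. -/
abbrev Dual {G : Type u} [Group G] (P : Mdl G) : Type u := P.X →ₗ[ZG G] ZG G

/-- `A → B → C` is exact at `B`. -/
def Ex {G : Type u} [Group G] {A B C : Mdl G} (g : Hom A B) (f : Hom B C) : Prop :=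
  ∀ q, f q = 0 ↔ ∃ r, g r = q

/-- A resolution of the trivial module `ℤ` of finite length by finitely generated projective
`ℤ[G]`-modules.  A group is of type FP if it has one. -/
structure FPRes (G : Type u) [Group G] where
  /-- the modules -/
  Q : ℕ → Mdl G
  /-- the length -/
  len : ℕ
  triv : ∀ i, len < i → Subsingleton (Q i).X
  /-- the augmentation -/
  ε : (Q 0).X →+ ℤ
  /-- the boundaries -/
  d : ∀ i, Hom (Q (i + 1)) (Q i)
  ε_act : ∀ (g : G) (q : (Q 0).X), ε (act g q) = ε q
  ε_surj : ∀ n, ∃ q, ε q = n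
  ex0 : ∀ q, ε q = 0 ↔ ∃ r, d 0 r = q
  ex : ∀ i, Ex (d (i + 1)) (d i)

/-- `f` is a cocycle of the complex `Hom_G(Q, ℤ[G])` in degree `i`. -/
def Coc {G : Type u} [Group G] (R : FPRes G) (i : ℕ) (f : Dual (R.Q i)) : Prop :=
  ∀ q, f (R.d i q) = 0

/-- `f` is a coboundary of the complex `Hom_G(Q, ℤ[G])` in degree `i`. -/
def Cob {G : Type u} [Group G] (R : FPRes G) : (i : ℕ) → Dual (R.Q i) → Prop
  | 0, f => f = 0
  | i + 1, f => ∃ h : Dual (R.Q i), ∀ q, f q = h (R.d i q)

/-- `e` induces an isomorphism of `H^n(G; ℤ[G])` = cocycles modulo coboundaries with `ℤ`. -/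
def IsoZ {G : Type u} [Group G] (R : FPRes G) (n : ℕ) (e : Dual (R.Q n) → ℤ) : Prop :=
  (∀ f f', Coc R n f → Coc R n f' → e (f + f') = e f + e f') ∧
  (∀ f, Coc R n f → (e f = 0 ↔ Cob R n f)) ∧ ∀ z, ∃ f, Coc R n f ∧ e f = z

/-- `G` is a Poincare duality group of dimension `n` (orientable or not): `G` is of type FP,
`H^i(G; ℤ[G]) = 0` for `i ≠ n` and `H^n(G; ℤ[G]) ≅ ℤ` as an abelian group. -/
def IsPD (n : ℕ) (G : Type u) [Group G] : Prop :=
  ∃ R : FPRes G, (∀ i f, i ≠ n → Coc R i f → Cob R i f) ∧ ∃ e, IsoZ R n e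

/-- `K` is residually a finite `p`-group. -/
def ResiduallyP (p : ℕ) (K : Type*) [Group K] : Prop :=
  ∀ k : K, k ≠ 1 → ∃ N : Subgroup K, N.Normal ∧ (∃ n : ℕ, N.index = p ^ n) ∧ k ∉ N

/-- For some prime `p`, the group `H` has a subgroup of finite index which is residually a finite
`p`-group. -/
def VirtuallyResP (H : Type*) [Group H] : Prop :=
  ∃ (p : ℕ) (H0 : Subgroup H), p.Prime ∧ H0.FiniteIndex ∧ ResiduallyP p H0

/-- `H` has one end: it is infinite and a subset which differs from each of its left translates in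
finitely many elements is finite or has finite complement. -/
def OneEnded (H : Type*) [Group H] : Prop :=
  Infinite H ∧ ∀ A : Set H, (∀ x : H, {g : H | ¬ (x * g ∈ A ↔ g ∈ A)}.Finite) →
    A.Finite ∨ Aᶜ.Finite

end PDS
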